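import Pool.Agent.H44.DP.BMEAS
import Pool.Agent.H44.DP.TRK2

/-!
# Module PHS: typical phase points

PROOF. `K` the maximum of the two `K0`, `z` the minimum of the two `z0`. `c6` (`trk2`). Given `κ, ε` (`κ < 1`): `e1, C, N` (`trk2`), `e0` (`bmeas` with `κ / 2`), `e = min e0 e1`; `η`: `J2` the maximum. The set is contained in `Bd .. ∩ An c J1`.
-/

set_option autoImplicit false

open Filter Topology Metric Set

namespace Pool.Agent.H44.DP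

open MeasureTheory in
theorem phase (D : Ps) : ∃ c6 : ℝ, 0 < c6 ∧ ∀ κ ε : ℝ, 0 < κ → κ < 1 → 0 < ε → ∃ C : ℝ, 1 ≤ C ∧
    ∀ η : ℝ, 0 < η → ∃ J2 : ℕ, ∀ J1 ≥ J2, ∀ c ∈ D.Ce,
      volume {w : ℂ | w ∈ An D c J1 ∧ ¬ ∃ m : ℕ, Trk D w J1 C κ ε c6 m} ≤
        ENNReal.ofReal (η * (1 / 4) ^ J1) := by
  obtain ⟨Ka, za, hKa, hza, hA⟩ := bmeas D
  obtain ⟨Kb, zb, hKb, hzb, hB⟩ := trk2 D
  have hA' := hA (max Ka Kb) (le_max_left _ _) (min za zb) (lt_min hza hzb) (min_le_left _ _)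
  obtain ⟨c6, hc6, hB'⟩ := hB (max Ka Kb) (le_max_right _ _) (min za zb) (lt_min hza hzb)
    (min_le_right _ _)
  refine ⟨c6, hc6, fun κ ε hκ hκ1 hε => ?_⟩
  obtain ⟨e1, C, N, he1, hC, hB''⟩ := hB' κ ε hκ hκ1 hε
  obtain ⟨e0, he0, hA''⟩ := hA' (κ / 2) (by positivity) (by linarith)
  refine ⟨C, hC, fun η hη => ?_⟩
  obtain ⟨Ja, hJa⟩ := hA'' (min e0 e1) (lt_min he0 he1) (min_le_left _ _) N η hη
  obtain ⟨Jb, hJb⟩ := hB'' (min e0 e1) (lt_min he0 he1) (min_le_right _ _)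
  refine ⟨max Ja Jb, fun J1 hJ1 c hc => ?_⟩
  refine le_trans (measure_mono ?_) (hJa J1 ((le_max_left _ _).trans hJ1) c hc)
  rintro w ⟨hw, hn⟩
  refine ⟨?_, hw⟩
  by_contra hcon
  exact hn (hJb J1 ((le_max_right _ _).trans hJ1) c hc w hw hcon)

end Pool.Agent.H44.DP
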