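import Pool.Agent.H44.DP.Qdf
import Pool.Agent.H44.DN.PUL1

/-!
# Module PHU: the phase of a parameter: measure

PROOF. `M = X.M`, `T = X.T`. `S` may be replaced by a measurable superset of the same measure (`toMeasurable`), the inclusion `S ⊆ An` is used only for `u`: if `ww u ∈ S` then `(1/2)^(J1+1) < ‖T‖ ‖u‖^M ≤ (1/2)^J1 = ‖T‖ R^M`, so `R / 2 ≤ ‖u‖ ≤ R`. Let `α = 1 / (8 M 2^M)` (or smaller). The compact set `{ξ | 1/2 ≤ ‖ξ‖ ≤ 1}` is covered by finitely many balls `ball ξ_i (α / 2)`, `N0` of them, `ξ_i` in the set (`N0` depends on `M` only). On `ball (R ξ_i) (α R)` the map `W u = vv c + T u^M` has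
`deriv W u = T M u^(M-1)`, `a = T M (R ξ_i)^(M-1)`, `‖deriv W u - a‖ ≤ ‖a‖ / 4` (`|(1+x)^(M-1) - 1| ≤ 2^M |x|`, `|x| ≤ 2 α`), `‖a‖ ≥ ‖T‖ M R^(M-1) 2^(-(M-1))`. `DN.pul1`: `volume (ball .. ∩ W⁻¹' S) ≤ ofReal (2 / ‖a‖^2) volume S ≤ ofReal (2 * 4^M R^2 / (‖T‖ R^M)^2 * η (1/4)^J1) = ofReal (2 * 4^M η R^2)`, since `‖T‖ R^M = (1/2)^J1`. Sum over `i`: `C' = 2 * 4^M * N0`.
-/

set_option autoImplicit false

open Filter Topology Metric Set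

namespace Pool.Agent.H44.DP

/-- near a nonzero point the power is nearly constant -/
theorem phu_pow {ξ0 : ℂ} (h0 : ξ0 ≠ 0) (k : ℕ) : ∃ α : ℝ, 0 < α ∧ ∀ ξ ∈ ball ξ0 α,
    ‖ξ ^ k - ξ0 ^ k‖ ≤ 1 / 4 * ‖ξ0 ^ k‖ := by
  have h1 : 0 < 1 / 4 * ‖ξ0 ^ k‖ :=
    mul_pos (by norm_num) (norm_pos_iff.mpr (pow_ne_zero k h0))
  have h2 : ContinuousAt (fun ξ : ℂ => ‖ξ ^ k - ξ0 ^ k‖) ξ0 := by fun_prop
  have h3 : (fun ξ : ℂ => ‖ξ ^ k - ξ0 ^ k‖) ξ0 < 1 / 4 * ‖ξ0 ^ k‖ := by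
    change ‖ξ0 ^ k - ξ0 ^ k‖ < 1 / 4 * ‖ξ0 ^ k‖
    rw [sub_self, norm_zero]
    exact h1
  obtain ⟨α, hα, h4⟩ := Metric.eventually_nhds_iff_ball.mp (h2.eventually (gt_mem_nhds h3))
  exact ⟨α, hα, fun ξ hξ => (h4 ξ hξ).le⟩

open MeasureTheory in
theorem phu (D : Ps) (X : Fam D) : ∃ C' : ℝ, 1 ≤ C' ∧ ∀ (J1 : ℕ) (R : ℝ), 0 < R →
    ‖X.T‖ * R ^ X.M = (1 / 2) ^ J1 → ∀ (S : Set ℂ) (η : ℝ), 0 ≤ η → S ⊆ An D X.c J1 →
      volume S ≤ ENNReal.ofReal (η * (1 / 4) ^ J1) →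
        volume {u : ℂ | X.ww u ∈ S} ≤ ENNReal.ofReal (C' * η * R ^ 2) := by
  obtain ⟨k, hk⟩ : ∃ k, X.M = k + 1 := ⟨X.M - 1, by have := X.hM; omega⟩
  have hT0 : 0 < ‖X.T‖ := norm_pos_iff.mpr X.hT
  -- the cover
  have hα : ∀ ξ0 : ℂ, ∃ α : ℝ, 0 < α ∧ (ξ0 ≠ 0 → ∀ ξ ∈ ball ξ0 α,
      ‖ξ ^ k - ξ0 ^ k‖ ≤ 1 / 4 * ‖ξ0 ^ k‖) := by
    intro ξ0
    by_cases h : ξ0 = 0
    · exact ⟨1, one_pos, fun h' => absurd h h'⟩
    · obtain ⟨α, h1, h2⟩ := phu_pow h k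
      exact ⟨α, h1, fun _ => h2⟩
  choose α hα0 hα1 using hα
  have hK : IsCompact {ξ : ℂ | 1 / 2 ≤ ‖ξ‖ ∧ ‖ξ‖ ≤ 1} := by
    refine Metric.isCompact_of_isClosed_isBounded ?_ ?_
    · exact (isClosed_le continuous_const continuous_norm).inter
        (isClosed_le continuous_norm continuous_const)
    · refine (Metric.isBounded_closedBall (x := (0 : ℂ)) (r := 1)).subset fun ξ hξ => ?_
      rw [mem_closedBall_zero_iff]
      exact hξ.2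
  obtain ⟨t, ht, hcov⟩ := hK.elim_nhds_subcover (fun ξ => ball ξ (α ξ))
    (fun ξ _ => ball_mem_nhds ξ (hα0 ξ))
  refine ⟨2 * 4 ^ k * t.card + 1, ?_, ?_⟩
  · have : (0 : ℝ) ≤ 2 * 4 ^ k * t.card := by positivity
    linarith
  intro J1 R hR hTR S η hη hS hvol
  have hTR2 : ‖X.T‖ * (R ^ k * R) = (1 / 2) ^ J1 := by rw [← pow_succ, ← hk]; exact hTR
  set S' : Set ℂ := toMeasurable volume S with hS'
  have hSS' : S ⊆ S' := subset_toMeasurable volume S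
  have hS'm : MeasurableSet S' := measurableSet_toMeasurable volume S
  have hS'v : volume S' = volume S := measure_toMeasurable S
  -- the inclusion
  have hsub : {u : ℂ | X.ww u ∈ S} ⊆
      ⋃ ξ ∈ t, (ball ((R : ℂ) * ξ) (R * α ξ) ∩ X.ww ⁻¹' S') := by
    intro u hu
    have hu1 := hS hu
    have h1 : ‖X.ww u - D.vv X.c‖ = ‖X.T‖ * ‖u‖ ^ X.M := by
      unfold Fam.ww
      rw [add_sub_cancel_left, norm_mul, norm_pow]
    have h2 : (1 / 2 : ℝ) ^ (J1 + 1) < ‖X.T‖ * ‖u‖ ^ X.M := by rw [← h1]; exact hu1.1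
    have h3 : ‖X.T‖ * ‖u‖ ^ X.M ≤ (1 / 2 : ℝ) ^ J1 := by rw [← h1]; exact hu1.2
    have hle : ‖u‖ ≤ R := by
      rw [← hTR] at h3
      have h4 := le_of_mul_le_mul_left h3 hT0
      exact le_of_pow_le_pow_left₀ (by have := X.hM; omega) hR.le h4
    have hge : R / 2 ≤ ‖u‖ := by
      by_contra hlt
      have hlt' : ‖u‖ < R / 2 := not_le.mp hlt
      have h4 : ‖u‖ ^ X.M ≤ (R / 2) ^ X.M := pow_le_pow_left₀ (norm_nonneg _) hlt'.le _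
      have h5 : (R / 2) ^ X.M ≤ R ^ X.M / 2 := by
        rw [div_pow]
        have h6 : (2 : ℝ) ≤ 2 ^ X.M := by
          calc (2 : ℝ) = 2 ^ 1 := by norm_num
            _ ≤ 2 ^ X.M := pow_le_pow_right₀ (by norm_num) X.hM
        exact div_le_div_of_nonneg_left (by positivity) (by norm_num) h6
      have h6 : ‖X.T‖ * ‖u‖ ^ X.M ≤ ‖X.T‖ * (R ^ X.M / 2) :=
        mul_le_mul_of_nonneg_left (h4.trans h5) hT0.le
      have h7 : ‖X.T‖ * (R ^ X.M / 2) = (1 / 2) ^ (J1 + 1) := by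
        rw [pow_succ, ← hTR]
        ring
      linarith
    have hRc : (R : ℂ) ≠ 0 := by exact_mod_cast hR.ne'
    have hξK : u / R ∈ {ξ : ℂ | 1 / 2 ≤ ‖ξ‖ ∧ ‖ξ‖ ≤ 1} := by
      have h4 : ‖u / R‖ = ‖u‖ / R := by
        rw [norm_div, Complex.norm_real, Real.norm_eq_abs, abs_of_pos hR]
      constructor
      · rw [h4, le_div_iff₀ hR]
        linarith
      · rw [h4, div_le_one hR]
        exact hle
    have h4 := hcov hξK
    simp only [mem_iUnion] at h4 ⊢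
    obtain ⟨ξ, hξ, h5⟩ := h4
    refine ⟨ξ, hξ, ?_, hSS' hu⟩
    rw [mem_ball, dist_eq_norm] at h5 ⊢
    have h6 : u - R * ξ = R * (u / R - ξ) := by field_simp
    rw [h6, norm_mul, Complex.norm_real, Real.norm_eq_abs, abs_of_pos hR]
    exact mul_lt_mul_of_pos_left h5 hR
  -- one ball
  have hone : ∀ ξ0 ∈ t, volume (ball ((R : ℂ) * ξ0) (R * α ξ0) ∩ X.ww ⁻¹' S') ≤
      ENNReal.ofReal (2 * 4 ^ k * (η * R ^ 2)) := by
    intro ξ0 hξ0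
    have hξK := ht ξ0 hξ0
    have hξ00 : ξ0 ≠ 0 := by
      intro h0
      have h1 := hξK.1
      rw [h0, norm_zero] at h1
      norm_num at h1
    have hderiv : ∀ u : ℂ, HasDerivAt X.ww (X.T * ((X.M : ℂ) * u ^ k)) u := by
      intro u
      have h1 : HasDerivAt (fun u : ℂ => u ^ X.M) ((X.M : ℂ) * u ^ (X.M - 1)) u :=
        hasDerivAt_pow X.M u
      have h2 := (h1.const_mul X.T).const_add (D.vv X.c)
      have h3 : X.M - 1 = k := by omega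
      rw [h3] at h2
      exact h2
    set a : ℂ := X.T * ((X.M : ℂ) * ((R : ℂ) * ξ0) ^ k) with ha
    have hM0 : (X.M : ℂ) ≠ 0 := by
      have := X.hM
      exact_mod_cast (by omega : X.M ≠ 0)
    have hRc : (R : ℂ) ≠ 0 := by exact_mod_cast hR.ne'
    have ha0 : a ≠ 0 := mul_ne_zero X.hT (mul_ne_zero hM0 (pow_ne_zero _ (mul_ne_zero hRc hξ00)))
    have hderb : ∀ w ∈ ball ((R : ℂ) * ξ0) (R * α ξ0), ‖deriv X.ww w - a‖ ≤ 1 / 4 * ‖a‖ := by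
      intro w hw
      rw [(hderiv w).deriv]
      have h1 : w / R ∈ ball ξ0 (α ξ0) := by
        rw [mem_ball, dist_eq_norm] at hw ⊢
        have h6 : w / R - ξ0 = (w - R * ξ0) / R := by field_simp
        rw [h6, norm_div, Complex.norm_real, Real.norm_eq_abs, abs_of_pos hR, div_lt_iff₀ hR]
        linarith
      have h2 := hα1 ξ0 hξ00 _ h1
      have h3 : X.T * ((X.M : ℂ) * w ^ k) - a =
          (X.T * (X.M : ℂ) * (R : ℂ) ^ k) * ((w / R) ^ k - ξ0 ^ k) := by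
        rw [ha, div_pow, mul_pow]
        have h4 : (R : ℂ) ^ k ≠ 0 := pow_ne_zero _ hRc
        field_simp
      have h4 : a = (X.T * (X.M : ℂ) * (R : ℂ) ^ k) * ξ0 ^ k := by
        rw [ha, mul_pow]
        ring
      rw [h3, norm_mul]
      conv_rhs => rw [h4, norm_mul]
      calc ‖X.T * (X.M : ℂ) * (R : ℂ) ^ k‖ * ‖(w / R) ^ k - ξ0 ^ k‖
          ≤ ‖X.T * (X.M : ℂ) * (R : ℂ) ^ k‖ * (1 / 4 * ‖ξ0 ^ k‖) := by gcongr
        _ = 1 / 4 * (‖X.T * (X.M : ℂ) * (R : ℂ) ^ k‖ * ‖ξ0 ^ k‖) := by ring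
    have h1 := DN.pul1 (F := X.ww) (v := (R : ℂ) * ξ0) (a := a) (ρ := R * α ξ0)
      (mul_pos hR (hα0 ξ0)) ha0 (fun w _ => (hderiv w).differentiableAt.differentiableWithinAt)
      hderb hS'm
    refine h1.trans ?_
    rw [hS'v]
    refine (mul_le_mul_right hvol _).trans ?_
    rw [← ENNReal.ofReal_mul (by positivity)]
    refine ENNReal.ofReal_le_ofReal ?_
    -- the bound of `a`
    have hanorm : ‖X.T‖ * R ^ k * (1 / 2) ^ k ≤ ‖a‖ := by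
      rw [ha, norm_mul, norm_mul, norm_pow, norm_mul, Complex.norm_real, Real.norm_eq_abs,
        abs_of_pos hR, mul_pow, Complex.norm_natCast]
      have h5 : (1 : ℝ) ≤ X.M := by exact_mod_cast X.hM
      have h6 : (1 / 2 : ℝ) ^ k ≤ ‖ξ0‖ ^ k := pow_le_pow_left₀ (by norm_num) hξK.1 k
      calc ‖X.T‖ * R ^ k * (1 / 2) ^ k = ‖X.T‖ * (1 * (R ^ k * (1 / 2) ^ k)) := by ring
        _ ≤ ‖X.T‖ * ((X.M : ℝ) * (R ^ k * ‖ξ0‖ ^ k)) := by gcongr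
    have hB : 0 < ‖X.T‖ * R ^ k * (1 / 2) ^ k := by positivity
    have h5 : 2 / ‖a‖ ^ 2 ≤ 2 / (‖X.T‖ * R ^ k * (1 / 2) ^ k) ^ 2 := by
      refine div_le_div_of_nonneg_left (by norm_num) (by positivity) ?_
      exact pow_le_pow_left₀ hB.le hanorm 2
    calc 2 / ‖a‖ ^ 2 * (η * (1 / 4) ^ J1)
        ≤ 2 / (‖X.T‖ * R ^ k * (1 / 2) ^ k) ^ 2 * (η * (1 / 4) ^ J1) := by gcongr
      _ = 2 * 4 ^ k * (η * R ^ 2) := by
          have h6 : ((1 : ℝ) / 4) ^ J1 = (‖X.T‖ * (R ^ k * R)) ^ 2 := by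
            rw [hTR2, ← pow_mul, mul_comm J1 2, pow_mul]
            norm_num
          have h7 : ((1 : ℝ) / 2) ^ k * 2 ^ k = 1 := by
            rw [← mul_pow]
            norm_num
          have h8 : (4 : ℝ) ^ k = 2 ^ k * 2 ^ k := by
            rw [← mul_pow]
            norm_num
          rw [h6, h8, div_mul_eq_mul_div, div_eq_iff (by positivity)]
          have h9 : (2 : ℝ) * (2 ^ k * 2 ^ k) * (η * R ^ 2) * (‖X.T‖ * R ^ k * (1 / 2) ^ k) ^ 2 =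
              2 * (η * R ^ 2) * (‖X.T‖ * R ^ k) ^ 2 * ((1 / 2) ^ k * 2 ^ k) ^ 2 := by ring
          rw [h9, h7]
          ring
  calc volume {u : ℂ | X.ww u ∈ S}
      ≤ volume (⋃ ξ ∈ t, (ball ((R : ℂ) * ξ) (R * α ξ) ∩ X.ww ⁻¹' S')) := measure_mono hsub
    _ ≤ ∑ ξ ∈ t, volume (ball ((R : ℂ) * ξ) (R * α ξ) ∩ X.ww ⁻¹' S') :=
        measure_biUnion_finset_le _ _
    _ ≤ ∑ _ξ ∈ t, ENNReal.ofReal (2 * 4 ^ k * (η * R ^ 2)) := Finset.sum_le_sum hone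
    _ = ENNReal.ofReal (t.card * (2 * 4 ^ k * (η * R ^ 2))) := by
        rw [Finset.sum_const, nsmul_eq_mul,
          ENNReal.ofReal_mul (p := (t.card : ℝ)) (by positivity), ENNReal.ofReal_natCast]
    _ ≤ ENNReal.ofReal ((2 * 4 ^ k * t.card + 1) * η * R ^ 2) := by
        refine ENNReal.ofReal_le_ofReal ?_
        have : 0 ≤ η * R ^ 2 := by positivity
        nlinarith

end Pool.Agent.H44.DP
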