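import Pool.Agent.H44.DP.PHI

/-!
# Module APA: one step near a parabolic point

PROOF. `r1` from `phi_near`, `z1 = r1 / 2` decreased such that `exp (C * z1 ^ q) ≤ 2` (`C * z1 ≤ log 2`, `z1 ≤ 1`, `q ≥ 1`). Let `a = ‖z - p‖ ≤ z1`, `b = ‖f z - p‖`, `q = qp p`. `b ≤ 2 a ≤ r1` (`D.b1`), so `ph z = a ^ (1 - α)`,
`ph (f z) = b ^ (1 - α)`, `tt z = a`, `tt (f z) = b` (`phi_near`, `D.hMp`). `D.a1`: `a ≤ b`. `D.a2`: `b * exp (κ a ^ q) ≤ a * ‖deriv f z‖`, so `1 ≤ ‖deriv f z‖`, and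
`‖deriv f z‖ * a ^ (1 - α) ≥ (b / a) * a ^ (1 - α) * exp (κ a ^ q) ≥ b ^ (1 - α) * exp (κ a ^ q)` (`(b/a)^α ≥ 1`), `a ^ q ≥ wt z` (`wt_le`). `f z ≠ p` (`b ≥ a > 0`).
-/

set_option autoImplicit false

open Filter Topology Metric Set

namespace Pool.Agent.H44.DP

theorem apa (D : Ps) : ∃ z1 : ℝ, 0 < z1 ∧ z1 ≤ D.r0 / 2 ∧ z1 ≤ 1 / 2 ∧ ∀ p ∈ D.Pa, ∀ z ∈ D.V,
    0 < ‖z - p‖ → ‖z - p‖ ≤ z1 →
      Real.exp (D.κ * D.wt z) * D.ph (D.f z) ≤ ‖deriv D.f z‖ * D.ph z ∧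
      1 ≤ ‖deriv D.f z‖ ∧ ‖z - p‖ ≤ ‖D.f z - p‖ ∧ ‖D.f z - p‖ ≤ 2 * ‖z - p‖ ∧
      D.tt z = ‖z - p‖ ∧ D.tt (D.f z) = ‖D.f z - p‖ := by
  obtain ⟨r1, κ', hr1, hr1a, hr1b, _, _, hnear, _⟩ := phi_near D
  have hC := D.hC
  have hC0 : 0 < D.C := by linarith
  have hlog : 0 < Real.log 2 := Real.log_pos (by norm_num)
  obtain ⟨z1, hz1⟩ : ∃ z1 : ℝ, z1 = min (r1 / 2) (Real.log 2 / D.C) := ⟨_, rfl⟩
  have hza : z1 ≤ r1 / 2 := by
    rw [hz1]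
    exact min_le_left _ _
  have hzb : D.C * z1 ≤ Real.log 2 := by
    have h1 : z1 ≤ Real.log 2 / D.C := by
      rw [hz1]
      exact min_le_right _ _
    rw [le_div_iff₀ hC0] at h1
    linarith
  refine ⟨z1, ?_, by linarith, by linarith, ?_⟩
  · rw [hz1]
    exact lt_min (by linarith) (by positivity)
  intro p hp z hz ha0 ha
  obtain ⟨a, hae⟩ : ∃ a, a = ‖z - p‖ := ⟨_, rfl⟩
  obtain ⟨b, hbe⟩ : ∃ b, b = ‖D.f z - p‖ := ⟨_, rfl⟩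
  have hpS : p ∈ D.S := (D.hS p).2 (Or.inr hp)
  have hball : z ∈ ball p D.r0 := by
    rw [mem_ball, dist_eq_norm]
    have := D.hr0
    linarith
  have hb1 := D.b1 p hp z hball
  have ha1 := D.a1 p hp z hball hz
  have ha2 := D.a2 p hp z hball hz
  have hq := D.hqp p hp
  rw [← hae] at ha0 ha hb1 ha1 ha2 ⊢
  rw [← hbe] at hb1 ha1 ha2 ⊢
  have haq : a ^ D.qp p ≤ a := pow_le_of_le_one ha0.le (by linarith) (by omega)
  have hexp2 : Real.exp (D.C * a ^ D.qp p) ≤ 2 := by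
    have h1 : D.C * a ^ D.qp p ≤ Real.log 2 :=
      (mul_le_mul_of_nonneg_left (haq.trans ha) hC0.le).trans hzb
    calc Real.exp (D.C * a ^ D.qp p) ≤ Real.exp (Real.log 2) := Real.exp_le_exp.2 h1
      _ = 2 := Real.exp_log (by norm_num)
  have hb2 : b ≤ 2 * a := by
    have h1 := mul_le_mul_of_nonneg_left hexp2 ha0.le
    linarith
  have hE1 : 1 ≤ Real.exp (D.κ * a ^ D.qp p) := by
    rw [← Real.exp_zero]
    exact Real.exp_le_exp.2 (mul_nonneg D.hκ.le (by positivity))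
  have hab : a ≤ b := by
    have h1 := mul_le_mul_of_nonneg_left hE1 ha0.le
    linarith
  have hb0 : 0 < b := by linarith
  have hM := D.hMp p hp
  obtain ⟨_, hph1, htt1⟩ := hnear p hpS z (by rw [← hae]; linarith)
  obtain ⟨_, hph2, htt2⟩ := hnear p hpS (D.f z) (by rw [← hbe]; linarith)
  rw [hM, ← hae, pow_one] at htt1
  rw [hM, ← hbe, pow_one] at htt2
  rw [hM, ← hae, Nat.cast_one, mul_one] at hph1
  rw [hM, ← hbe, Nat.cast_one, mul_one] at hph2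
  have hd1 : 1 ≤ ‖deriv D.f z‖ := by
    have h1 := mul_le_mul_of_nonneg_left hE1 hb0.le
    have h2 : a * 1 ≤ a * ‖deriv D.f z‖ := by linarith
    exact le_of_mul_le_mul_left h2 ha0
  refine ⟨?_, hd1, hab, hb2, htt1, htt2⟩
  rw [hph1, hph2]
  have hw : Real.exp (D.κ * D.wt z) ≤ Real.exp (D.κ * a ^ D.qp p) := by
    refine Real.exp_le_exp.2 (mul_le_mul_of_nonneg_left ?_ D.hκ.le)
    rw [hae]
    exact wt_le D hp z
  have hα := al_pos D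
  have h1 : ∀ x : ℝ, 0 < x → x ^ (1 - D.al) = x * x ^ (-D.al) := by
    intro x hx
    rw [sub_eq_add_neg, Real.rpow_add hx, Real.rpow_one]
  rw [h1 b hb0, h1 a ha0]
  have h2 : b ^ (-D.al) ≤ a ^ (-D.al) := Real.rpow_le_rpow_of_nonpos ha0 hab (by linarith)
  have h3 : 0 ≤ b ^ (-D.al) := Real.rpow_nonneg hb0.le _
  calc Real.exp (D.κ * D.wt z) * (b * b ^ (-D.al))
      ≤ Real.exp (D.κ * a ^ D.qp p) * (b * b ^ (-D.al)) :=
        mul_le_mul_of_nonneg_right hw (mul_nonneg hb0.le h3)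
    _ = (b * Real.exp (D.κ * a ^ D.qp p)) * b ^ (-D.al) := by ring
    _ ≤ (a * ‖deriv D.f z‖) * b ^ (-D.al) := mul_le_mul_of_nonneg_right ha2 h3
    _ ≤ (a * ‖deriv D.f z‖) * a ^ (-D.al) :=
        mul_le_mul_of_nonneg_left h2 (mul_nonneg ha0.le (norm_nonneg _))
    _ = ‖deriv D.f z‖ * (a * a ^ (-D.al)) := by ring

end Pool.Agent.H44.DP
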