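import Pool.Agent.H44.DP.NA
import Pool.Agent.H44.DP.STG1

/-!
# Module STG2: the map is nearly affine during a stage

PROOF. `C1` from `na`, `∑_{j} 1 / (j+1)^2 ≤ 2` for all finite sums. By `Stg.lt`: `t * DD c j / ee c j ≤ 1 / Kn K j`, so `t * ∑_{j<n} DD c j / ee c j ≤ 2 / K` (`stg_sum`). Apply `na` with `w = vv c`, `R = 2 t`, `m = n`: `2 t * ∑ .. ≤ 4 / K ≤ ε0`, and `C1 * 2 t * ∑ .. ≤ 4 C1 / K ≤ 1/8`.
The orbit of `vv c` is in `J`, outside `Cr` (`D.hτe`). Positions: `‖f^[j] z - f^[j] (vv c)‖ ≤ (1 + 1/8) DD c j * 2 t ≤ 3 t DD c j`, for `j < n` at most `3 ee c j / K ≤ ee c j / 2` (`K ≥ 6`), so `zt` changes by at most `ee c j / 2` (`zt_lip`); it is `< δ / 4` for `j < n` (`3 Z / K < δ/4`) and for `j = n`: `3 t DD c n ≤ 3 L * (t DD c (n-1)) ≤ 3 L Z / K < δ/4` (`1 ≤ n`; `J_th`, `th_add`).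
-/

set_option autoImplicit false

open Filter Topology Metric Set

namespace Pool.Agent.H44.DP

private theorem stg2_sq (n : ℕ) : ∑ j ∈ Finset.range n, 1 / ((j : ℝ) + 1) ^ 2 ≤ 2 := by
  have h : ∀ n : ℕ, ∑ j ∈ Finset.range (n + 1), 1 / ((j : ℝ) + 1) ^ 2 ≤ 2 - 1 / ((n : ℝ) + 1) := by
    intro n
    induction n with
    | zero => norm_num
    | succ n ih =>
      rw [Finset.sum_range_succ]
      have h1 : (0 : ℝ) < (n : ℝ) + 1 := by positivity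
      have h2 : (0 : ℝ) < (n : ℝ) + 1 + 1 := by positivity
      have h3 : 1 / ((n : ℝ) + 1 + 1) ^ 2 ≤ 1 / ((n : ℝ) + 1) - 1 / ((n : ℝ) + 1 + 1) := by
        rw [div_sub_div _ _ h1.ne' h2.ne', div_le_div_iff₀ (by positivity) (by positivity)]
        nlinarith
      push_cast
      linarith
  rcases n with _ | n
  · norm_num
  · have h1 : (0 : ℝ) < 1 / ((n : ℝ) + 1) := by positivity
    linarith [h n]

private theorem stg2_J (D : Ps) {c : ℂ} (hc : c ∈ D.Ce) (j : ℕ) : D.f^[j] (D.vv c) ∈ D.J :=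
  it_J D (it_J D (D.hSJ c (ce_S D hc)) (D.τ c)) j

private theorem stg2_Cr (D : Ps) {c : ℂ} (hc : c ∈ D.Ce) (j : ℕ) :
    D.f^[j] (D.vv c) ∉ D.S := by
  unfold Ps.vv
  rw [← Function.iterate_add_apply]
  exact D.hτe c hc _ (Nat.le_add_left _ _)

private theorem stg2_pos (D : Ps) {c : ℂ} (hc : c ∈ D.Ce) (j : ℕ) : 0 < D.ee c j := by
  unfold Ps.ee
  exact zt_pos D (stg2_Cr D hc j)

theorem stg_sum (D : Ps) {K : ℝ} (hK : 1 ≤ K) {c : ℂ} (hc : c ∈ D.Ce) {t : ℝ} (ht : 0 < t) {n : ℕ}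
    (h : Stg D K c t n) : t * ∑ j ∈ Finset.range n, D.DD c j / D.ee c j ≤ 2 / K := by
  have h1 : ∀ j ∈ Finset.range n, t * (D.DD c j / D.ee c j) ≤ 1 / K * (1 / ((j : ℝ) + 1) ^ 2) := by
    intro j hj
    have h2 := h.lt j (Finset.mem_range.1 hj)
    have h3 := stg2_pos D hc j
    have h4 : (0 : ℝ) < (j : ℝ) + 1 := by positivity
    have h5 : 0 < K := by linarith
    unfold Kn at h2
    rw [← mul_div_assoc, div_le_iff₀ h3, div_mul_div_comm, one_mul, div_mul_eq_mul_div, one_mul,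
      le_div_iff₀ (by positivity)]
    calc t * D.DD c j * (K * ((j : ℝ) + 1) ^ 2) = K * ((j : ℝ) + 1) ^ 2 * (t * D.DD c j) := by ring
      _ ≤ _ := h2
  rw [Finset.mul_sum]
  refine (Finset.sum_le_sum h1).trans ?_
  rw [← Finset.mul_sum]
  have h2 := stg2_sq n
  calc 1 / K * ∑ j ∈ Finset.range n, 1 / ((j : ℝ) + 1) ^ 2 ≤ 1 / K * 2 :=
        mul_le_mul_of_nonneg_left h2 (by positivity)
    _ = 2 / K := by ring

theorem stg_na (D : Ps) : ∃ K0 : ℝ, 1 ≤ K0 ∧ ∀ K : ℝ, K0 ≤ K → ∀ c ∈ D.Ce, ∀ t : ℝ, 0 < t →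
    ∀ n : ℕ, 1 ≤ n → Stg D K c t n → ∀ z ∈ ball (D.vv c) (2 * t), ∀ j ≤ n,
      D.f^[j] z ∈ thickening (D.δ / 4) D.J ∧
      ‖deriv (D.f^[j]) z - deriv (D.f^[j]) (D.vv c)‖ ≤ 1 / 8 * D.DD c j ∧
      ‖D.f^[j] z - D.f^[j] (D.vv c) - deriv (D.f^[j]) (D.vv c) * (z - D.vv c)‖ ≤
        1 / 8 * D.DD c j * ‖z - D.vv c‖ ∧
      (j < n → D.ee c j / 2 ≤ D.zt (D.f^[j] z) ∧ D.zt (D.f^[j] z) ≤ 2 * D.ee c j) := by
  obtain ⟨ε0, C1, hε0, -, hC1, -, H⟩ := na D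
  obtain ⟨Z, hZ1, hZ⟩ := zt_bd D
  have hδ := D.hδ
  have hL := D.hL
  obtain ⟨K0, hK0⟩ : ∃ K0 : ℝ, K0 = 4 / ε0 + 32 * C1 + 6 + 12 * (D.L * Z) / D.δ + 1 := ⟨_, rfl⟩
  have p1 : 0 < 4 / ε0 := by positivity
  have p2 : 0 < 12 * (D.L * Z) / D.δ := by positivity
  refine ⟨K0, by linarith, fun K hK c hc t ht n hn hS z hz j hj => ?_⟩
  have hKpos : 0 < K := by linarith
  have hK1 : 1 ≤ K := by linarith
  have hK2 : 4 / K ≤ ε0 := by
    rw [div_le_iff₀ hKpos]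
    have h1 : 4 / ε0 ≤ K := by linarith
    rw [div_le_iff₀ hε0] at h1
    linarith
  have hK3 : C1 * (4 / K) ≤ 1 / 8 := by
    rw [mul_div_assoc', div_le_iff₀ hKpos]
    linarith
  have hK4 : 3 * (D.L * Z) / K < D.δ / 4 := by
    rw [div_lt_iff₀ hKpos]
    have h1 : 12 * (D.L * Z) / D.δ < K := by linarith
    rw [div_lt_iff₀ hδ] at h1
    linarith
  have hsum := stg_sum D hK1 hc ht hS
  have hDD0 : ∀ i, 0 ≤ D.DD c i := fun i => norm_nonneg _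
  have hterm : ∀ i, 0 ≤ D.DD c i / D.ee c i := fun i => div_nonneg (hDD0 i) (stg2_pos D hc i).le
  have hcond : ∀ i < n, D.f^[i] (D.vv c) ∈ thickening (D.δ / 2) D.J ∧
      D.f^[i] (D.vv c) ∉ D.S := fun i _ =>
    ⟨J_th D (stg2_J D hc i) (by linarith), stg2_Cr D hc i⟩
  have hR : 2 * t * ∑ i ∈ Finset.range n,
      ‖deriv (D.f^[i]) (D.vv c)‖ / D.zt (D.f^[i] (D.vv c)) ≤ ε0 := by
    have h1 : 2 * t * ∑ i ∈ Finset.range n,
      ‖deriv (D.f^[i]) (D.vv c)‖ / D.zt (D.f^[i] (D.vv c)) =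
      2 * (t * ∑ i ∈ Finset.range n, D.DD c i / D.ee c i) := by
      rw [mul_assoc]
      rfl
    rw [h1]
    calc 2 * (t * ∑ i ∈ Finset.range n, D.DD c i / D.ee c i) ≤ 2 * (2 / K) := by linarith
      _ = 4 / K := by ring
      _ ≤ ε0 := hK2
  obtain ⟨-, h2, h3⟩ := H (D.vv c) (2 * t) n (by linarith) hcond hR j hj z hz
  have hzd : ‖z - D.vv c‖ < 2 * t := by
    rwa [mem_ball, dist_eq_norm] at hz
  have hn0 := norm_nonneg (z - D.vv c)
  -- the common factor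
  have hfac : C1 * ‖z - D.vv c‖ * (∑ i ∈ Finset.range j,
      ‖deriv (D.f^[i]) (D.vv c)‖ / D.zt (D.f^[i] (D.vv c))) ≤ 1 / 8 := by
    have h4 : ∑ i ∈ Finset.range j, ‖deriv (D.f^[i]) (D.vv c)‖ / D.zt (D.f^[i] (D.vv c)) ≤
        ∑ i ∈ Finset.range n, D.DD c i / D.ee c i :=
      Finset.sum_le_sum_of_subset_of_nonneg
        (Finset.range_subset_range.2 hj) fun i _ _ => hterm i
    have h5 : 0 ≤ ∑ i ∈ Finset.range n, D.DD c i / D.ee c i :=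
      Finset.sum_nonneg fun i _ => hterm i
    calc C1 * ‖z - D.vv c‖ * (∑ i ∈ Finset.range j,
        ‖deriv (D.f^[i]) (D.vv c)‖ / D.zt (D.f^[i] (D.vv c)))
        ≤ C1 * ‖z - D.vv c‖ * ∑ i ∈ Finset.range n, D.DD c i / D.ee c i :=
          mul_le_mul_of_nonneg_left h4 (by positivity)
      _ ≤ C1 * (2 * t) * ∑ i ∈ Finset.range n, D.DD c i / D.ee c i :=
          mul_le_mul_of_nonneg_right (mul_le_mul_of_nonneg_left hzd.le (by linarith)) h5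
      _ = C1 * (2 * (t * ∑ i ∈ Finset.range n, D.DD c i / D.ee c i)) := by ring
      _ ≤ C1 * (2 * (2 / K)) := by
          refine mul_le_mul_of_nonneg_left ?_ (by linarith)
          linarith
      _ = C1 * (4 / K) := by ring
      _ ≤ 1 / 8 := hK3
  have hb : ‖deriv (D.f^[j]) z - deriv (D.f^[j]) (D.vv c)‖ ≤ 1 / 8 * D.DD c j :=
    h2.trans (mul_le_mul_of_nonneg_right hfac (norm_nonneg _))
  have hc3 : ‖D.f^[j] z - D.f^[j] (D.vv c) - deriv (D.f^[j]) (D.vv c) * (z - D.vv c)‖ ≤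
        1 / 8 * D.DD c j * ‖z - D.vv c‖ := by
    refine h3.trans ?_
    calc C1 * ‖z - D.vv c‖ ^ 2 * (∑ i ∈ Finset.range j,
        ‖deriv (D.f^[i]) (D.vv c)‖ / D.zt (D.f^[i] (D.vv c))) * ‖deriv (D.f^[j]) (D.vv c)‖
        = (C1 * ‖z - D.vv c‖ * (∑ i ∈ Finset.range j,
        ‖deriv (D.f^[i]) (D.vv c)‖ / D.zt (D.f^[i] (D.vv c)))) *
          (‖deriv (D.f^[j]) (D.vv c)‖ * ‖z - D.vv c‖) := by ring
      _ ≤ 1 / 8 * (‖deriv (D.f^[j]) (D.vv c)‖ * ‖z - D.vv c‖) :=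
          mul_le_mul_of_nonneg_right hfac (by positivity)
      _ = _ := by
          unfold Ps.DD
          ring
  -- the position
  have hpos : ‖D.f^[j] z - D.f^[j] (D.vv c)‖ ≤ 3 * (t * D.DD c j) := by
    have h4 : ‖D.f^[j] z - D.f^[j] (D.vv c)‖ ≤
        ‖D.f^[j] z - D.f^[j] (D.vv c) - deriv (D.f^[j]) (D.vv c) * (z - D.vv c)‖ +
          ‖deriv (D.f^[j]) (D.vv c) * (z - D.vv c)‖ := by
      calc ‖D.f^[j] z - D.f^[j] (D.vv c)‖ =
          ‖(D.f^[j] z - D.f^[j] (D.vv c) - deriv (D.f^[j]) (D.vv c) * (z - D.vv c)) +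
            deriv (D.f^[j]) (D.vv c) * (z - D.vv c)‖ := by
            congr 1
            ring
        _ ≤ _ := norm_add_le _ _
    rw [norm_mul] at h4
    have h5 : ‖deriv (D.f^[j]) (D.vv c)‖ * ‖z - D.vv c‖ ≤ D.DD c j * (2 * t) :=
      mul_le_mul_of_nonneg_left hzd.le (hDD0 j)
    have h6 : D.DD c j * ‖z - D.vv c‖ ≤ D.DD c j * (2 * t) :=
      mul_le_mul_of_nonneg_left hzd.le (hDD0 j)
    have h7 : 0 ≤ D.DD c j * t := mul_nonneg (hDD0 j) ht.le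
    linarith
  have hlt : ∀ i < n, K * (t * D.DD c i) ≤ D.ee c i := by
    intro i hi
    refine le_trans ?_ (hS.lt i hi)
    unfold Kn
    refine mul_le_mul_of_nonneg_right ?_ (mul_nonneg ht.le (hDD0 i))
    have h4 : (1 : ℝ) ≤ ((i : ℝ) + 1) ^ 2 := by
      have : (0 : ℝ) ≤ (i : ℝ) := Nat.cast_nonneg _
      nlinarith
    nlinarith
  have hee : ∀ i, D.ee c i ≤ Z := fun i => hZ _ (J_th D (stg2_J D hc i) hδ)
  have hsz : 3 * (t * D.DD c j) ≤ 3 * (D.L * Z) / K := by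
    rw [le_div_iff₀ hKpos]
    rcases Nat.lt_or_eq_of_le hj with h4 | h4
    · have h5 := hlt j h4
      have h6 := hee j
      have h7 : Z ≤ D.L * Z := by nlinarith
      linarith
    · obtain ⟨k, hk⟩ : ∃ k, n = k + 1 := ⟨n - 1, by omega⟩
      have h5 := hlt k (by omega)
      have h6 := hee k
      have h7 : D.DD c j ≤ D.L * D.DD c k := by
        rw [h4, hk]
        unfold Ps.DD
        rw [it_succ D (fun i _ => D.hU (J_th D (stg2_J D hc i) hδ)), norm_mul]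
        exact mul_le_mul_of_nonneg_right (D.hLf _ (J_th D (stg2_J D hc k) hδ)) (norm_nonneg _)
      have h8 : t * D.DD c j ≤ D.L * (t * D.DD c k) := by
        calc t * D.DD c j ≤ t * (D.L * D.DD c k) := mul_le_mul_of_nonneg_left h7 ht.le
          _ = _ := by ring
      have h9 : K * (t * D.DD c j) ≤ K * (D.L * (t * D.DD c k)) :=
        mul_le_mul_of_nonneg_left h8 hKpos.le
      have h10 : D.L * (K * (t * D.DD c k)) ≤ D.L * Z :=
        mul_le_mul_of_nonneg_left (h5.trans h6) (by linarith)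
      linarith
  refine ⟨?_, hb, hc3, fun hjn => ?_⟩
  · rw [mem_thickening_iff]
    refine ⟨D.f^[j] (D.vv c), stg2_J D hc j, ?_⟩
    rw [dist_eq_norm]
    linarith
  · have h4 := abs_le.1 (zt_lip D (D.f^[j] z) (D.f^[j] (D.vv c)))
    have h5 := hlt j hjn
    have h6 : 0 ≤ t * D.DD c j := mul_nonneg ht.le (hDD0 j)
    have h7 : 6 * (t * D.DD c j) ≤ D.ee c j := by nlinarith
    have h8 : D.zt (D.f^[j] (D.vv c)) = D.ee c j := rfl
    rw [h8] at h4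
    have h9 := stg2_pos D hc j
    constructor <;> linarith

end Pool.Agent.H44.DP
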