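import Pool.Agent.H44.DP.Pdf
import Pool.Agent.H44.DP.STG1

/-!
# Module PBAS: basic facts for the chapter PH

PROOFS. `nr_mem`, `nr_eq`: `choose_spec`. `sn_spec`: the set of the `n` with `Stg` is nonempty (`stg_ex` with `t = (1/2)^j ≤ t0` for large `j`, `log (1/t) = j log 2`) and has at most one element (`lt` and `hit` exclude two different ones): `Nat.sInf_mem` and uniqueness give the bounds for `sn`. `an_meas`: continuity of the norm.
-/

set_option autoImplicit false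

open Filter Topology Metric Set

namespace Pool.Agent.H44.DP

theorem nr_mem (D : Ps) (z : ℂ) : nr D z ∈ D.S := by
  exact (zt_ex D z).choose_spec.1

theorem nr_eq (D : Ps) (z : ℂ) : D.zt z = ‖z - nr D z‖ := by
  exact (zt_ex D z).choose_spec.2

theorem sn_spec (D : Ps) {K : ℝ} (hK : 1 ≤ K) : ∃ (J : ℕ) (c1 C1 : ℝ), 0 < c1 ∧ 0 < C1 ∧
    ∀ c ∈ D.Ce, ∀ j : ℕ, J ≤ j → Stg D K c ((1 / 2) ^ j) (sn D K c j) ∧ 1 ≤ sn D K c j ∧
      c1 * (j : ℝ) ≤ sn D K c j ∧ (sn D K c j : ℝ) ≤ C1 * j := by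
  obtain ⟨C0, hC0, h⟩ := stg_ex D
  obtain ⟨t0, c1, C1, ht0, ht1, hc1, hC1, h2⟩ := h K hK
  obtain ⟨J, hJ⟩ := exists_pow_lt_of_lt_one ht0 (by norm_num : (1 / 2 : ℝ) < 1)
  have hl2 : 0 < Real.log 2 := Real.log_pos (by norm_num)
  refine ⟨J, c1 * Real.log 2, C1 * Real.log 2, by positivity, by positivity, ?_⟩
  intro c hc j hj
  have ht : ((1 : ℝ) / 2) ^ j ≤ t0 :=
    (pow_le_pow_of_le_one (by norm_num) (by norm_num) hj).trans hJ.le
  obtain ⟨n, hn, hn1, hn2, hn3, _⟩ := h2 c hc ((1 / 2) ^ j) (by positivity) ht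
  have hlog : Real.log (1 / (1 / 2 : ℝ) ^ j) = j * Real.log 2 := by
    rw [one_div, Real.log_inv, Real.log_pow, one_div, Real.log_inv]
    ring
  rw [hlog] at hn2 hn3
  have hne : {n | Stg D K c ((1 / 2) ^ j) n}.Nonempty := ⟨n, hn⟩
  have hmem : Stg D K c ((1 / 2) ^ j) (sn D K c j) := Nat.sInf_mem hne
  have heq : sn D K c j = n := by
    rcases lt_trichotomy (sn D K c j) n with h3 | h3 | h3
    · exact absurd hmem.hit (not_lt.2 (hn.lt _ h3))
    · exact h3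
    · exact absurd hn.hit (not_lt.2 (hmem.lt _ h3))
  rw [heq]
  refine ⟨hn, hn1, ?_, ?_⟩
  · calc c1 * Real.log 2 * (j : ℝ) = c1 * (j * Real.log 2) := by ring
      _ ≤ n := hn2
  · calc (n : ℝ) ≤ C1 * (j * Real.log 2) := hn3
      _ = C1 * Real.log 2 * j := by ring

theorem an_meas (D : Ps) (c : ℂ) (j : ℕ) : MeasurableSet (An D c j) := by
  have h1 : Measurable fun w : ℂ => ‖w - D.vv c‖ := by fun_prop
  have h2 : MeasurableSet {w : ℂ | (1 / 2 : ℝ) ^ (j + 1) < ‖w - D.vv c‖} :=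
    measurableSet_lt measurable_const h1
  have h3 : MeasurableSet {w : ℂ | ‖w - D.vv c‖ ≤ (1 / 2 : ℝ) ^ j} :=
    measurableSet_le h1 measurable_const
  exact h2.inter h3

end Pool.Agent.H44.DP
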