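import Pool.Agent.H44.DP.Gdf

/-!
# Module ITR: elementary facts on iterates and distances

PROOFS. Inductions with `Function.iterate_succ_apply'` (`f^[n+1] z = f (f^[n] z)`), the chain rule (`D.hf.differentiableAt (D.hG.mem_nhds ..)`,
`deriv_comp`, `HasDerivAt.comp`); `it_ne` from `D.hcr`; `it_bd` from `D.hLf`; `it_ev` by induction and continuity. `th_add`: `mem_thickening_iff`.
`zt_lip`: `infDist` is 1-Lipschitz. `zt_pos`: a finite set is closed (`IsClosed.notMem_iff_infDist_pos`). `zt_bd`: `J` is compact, hence bounded.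
`zt_near`: for `c' ≠ c`: `‖z - c'‖ ≥ 4 r0 - 2 r0 ≥ ‖z - c‖` (`D.hsep`). `zt_ex`: `IsCompact.exists_infDist_eq_dist` for the finite nonempty set.
-/

set_option autoImplicit false

open Filter Topology Metric Set

namespace Pool.Agent.H44.DP

theorem it_J (D : Ps) {z : ℂ} (hz : z ∈ D.J) (n : ℕ) : D.f^[n] z ∈ D.J := by
  induction n with
  | zero => exact hz
  | succ n ih =>
    rw [Function.iterate_succ_apply']
    exact D.hJf _ ih

theorem J_th (D : Ps) {z : ℂ} (hz : z ∈ D.J) {a : ℝ} (ha : 0 < a) : z ∈ thickening a D.J := by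
  exact self_subset_thickening ha D.J hz

theorem th_add {J : Set ℂ} {z w : ℂ} {a b : ℝ} (hz : z ∈ thickening a J) (h : ‖w - z‖ < b) :
    w ∈ thickening (a + b) J := by
  rw [mem_thickening_iff] at hz ⊢
  obtain ⟨x, hx, h1⟩ := hz
  refine ⟨x, hx, ?_⟩
  have h2 := dist_triangle w z x
  rw [dist_eq_norm w z] at h2
  linarith

theorem it_diff (D : Ps) {z : ℂ} {n : ℕ} (h : ∀ i < n, D.f^[i] z ∈ D.G) :
    DifferentiableAt ℂ (D.f^[n]) z := by
  induction n with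
  | zero => exact differentiableAt_id
  | succ n ih =>
    rw [Function.iterate_succ']
    exact DifferentiableAt.comp z (D.hf.differentiableAt (D.hG.mem_nhds (h n (Nat.lt_succ_self n))))
      (ih fun i hi => h i (Nat.lt_succ_of_lt hi))

theorem it_add (D : Ps) {z : ℂ} {a b : ℕ} (h : ∀ i < a + b, D.f^[i] z ∈ D.G) :
    deriv (D.f^[a + b]) z = deriv (D.f^[b]) (D.f^[a] z) * deriv (D.f^[a]) z := by
  have h1 : D.f^[a + b] = D.f^[b] ∘ D.f^[a] := by
    rw [add_comm, Function.iterate_add]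
  rw [h1]
  refine deriv_comp z (it_diff D fun i hi => ?_) (it_diff D fun i hi => h i (by omega))
  rw [← Function.iterate_add_apply]
  exact h _ (by omega)

theorem it_succ (D : Ps) {z : ℂ} {n : ℕ} (h : ∀ i < n + 1, D.f^[i] z ∈ D.G) :
    deriv (D.f^[n + 1]) z = deriv D.f (D.f^[n] z) * deriv (D.f^[n]) z := by
  rw [it_add D h]
  rfl

theorem it_ne (D : Ps) {z : ℂ} {n : ℕ}
    (h : ∀ i < n, D.f^[i] z ∈ thickening D.δ D.J ∧ D.f^[i] z ∉ D.Cr) : deriv (D.f^[n]) z ≠ 0 := by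
  induction n with
  | zero =>
    have h1 : D.f^[0] = id := rfl
    rw [h1, deriv_id]
    exact one_ne_zero
  | succ n ih =>
    rw [it_succ D fun i hi => D.hU (h i hi).1]
    refine mul_ne_zero ?_ (ih fun i hi => h i (Nat.lt_succ_of_lt hi))
    intro h1
    have h2 := h n (Nat.lt_succ_self n)
    exact h2.2 ((D.hcr _ h2.1).1 h1)

theorem it_bd (D : Ps) {z : ℂ} {n : ℕ} (h : ∀ i < n, D.f^[i] z ∈ thickening D.δ D.J) :
    ‖deriv (D.f^[n]) z‖ ≤ D.L ^ n := by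
  induction n with
  | zero =>
    have h1 : D.f^[0] = id := rfl
    rw [h1, deriv_id]
    simp
  | succ n ih =>
    rw [it_succ D fun i hi => D.hU (h i hi), norm_mul, pow_succ']
    exact mul_le_mul (D.hLf _ (h n (Nat.lt_succ_self n)))
      (ih fun i hi => h i (Nat.lt_succ_of_lt hi)) (norm_nonneg _) (by linarith [D.hL])

theorem it_ev (D : Ps) {z : ℂ} {n : ℕ} (h : ∀ i < n, D.f^[i] z ∈ D.G) :
    ∀ᶠ w in 𝓝 z, ∀ i < n, D.f^[i] w ∈ D.G := by
  induction n with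
  | zero => exact Filter.Eventually.of_forall fun w i hi => absurd hi (Nat.not_lt_zero i)
  | succ n ih =>
    have h1 := ih fun i hi => h i (Nat.lt_succ_of_lt hi)
    have h2 : ContinuousAt (D.f^[n]) z :=
      (it_diff D fun i hi => h i (Nat.lt_succ_of_lt hi)).continuousAt
    have h3 := h2.eventually_mem (D.hG.mem_nhds (h n (Nat.lt_succ_self n)))
    filter_upwards [h1, h3] with w h4 h5 i hi
    rcases Nat.lt_succ_iff_lt_or_eq.1 hi with h6 | h6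
    · exact h4 i h6
    · rw [h6]
      exact h5

theorem zt_lip (D : Ps) (z w : ℂ) : |D.zt z - D.zt w| ≤ ‖z - w‖ := by
  unfold Ps.zt
  rw [abs_sub_le_iff, ← dist_eq_norm]
  constructor
  · have h1 := infDist_le_infDist_add_dist (s := (D.S : Set ℂ)) (x := z) (y := w)
    linarith
  · have h1 := infDist_le_infDist_add_dist (s := (D.S : Set ℂ)) (x := w) (y := z)
    rw [dist_comm w z] at h1
    linarith

theorem zt_nonneg (D : Ps) (z : ℂ) : 0 ≤ D.zt z := by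
  exact infDist_nonneg

theorem zt_pos (D : Ps) {z : ℂ} (hz : z ∉ D.S) : 0 < D.zt z := by
  unfold Ps.zt
  refine (D.S.finite_toSet.isClosed.notMem_iff_infDist_pos ?_).1 hz
  exact D.hSne

theorem zt_zero (D : Ps) {z : ℂ} (hz : z ∈ D.S) : D.zt z = 0 := by
  exact infDist_zero_of_mem hz

theorem zt_le (D : Ps) {c : ℂ} (hc : c ∈ D.S) (z : ℂ) : D.zt z ≤ ‖z - c‖ := by
  rw [← dist_eq_norm]
  exact infDist_le_dist_of_mem hc

theorem zt_bd (D : Ps) : ∃ Z : ℝ, 1 ≤ Z ∧ ∀ z ∈ thickening D.δ D.J, D.zt z ≤ Z := by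
  obtain ⟨c0, hc0⟩ := D.hSne
  obtain ⟨R, hR⟩ := D.hJ.isBounded.subset_closedBall (0 : ℂ)
  refine ⟨max 1 (R + D.δ + ‖c0‖), le_max_left _ _, fun z hz => ?_⟩
  refine le_trans ?_ (le_max_right _ _)
  rw [mem_thickening_iff] at hz
  obtain ⟨x, hx, h1⟩ := hz
  have h2 := hR hx
  rw [mem_closedBall, dist_zero_right] at h2
  have h3 := zt_le D hc0 z
  have h4 : ‖z - c0‖ ≤ ‖z - x‖ + ‖x‖ + ‖c0‖ := by
    have e : z - c0 = (z - x) + x - c0 := by ring
    rw [e]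
    exact (norm_sub_le _ _).trans (add_le_add (norm_add_le _ _) le_rfl)
  rw [dist_eq_norm] at h1
  linarith

theorem zt_near (D : Ps) {c z : ℂ} (hc : c ∈ D.S) (h : ‖z - c‖ ≤ 2 * D.r0) : D.zt z = ‖z - c‖ := by
  refine le_antisymm (zt_le D hc z) ?_
  unfold Ps.zt
  rw [le_infDist D.hSne]
  intro c' hc'
  by_cases h1 : c = c'
  · rw [← h1, dist_eq_norm]
  · have h2 := D.hsep c hc c' hc' h1
    have h3 : ‖c - c'‖ ≤ ‖z - c‖ + ‖z - c'‖ := by
      have e : c - c' = (z - c') - (z - c) := by ring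
      rw [e, add_comm]
      exact norm_sub_le _ _
    rw [dist_eq_norm]
    linarith

theorem zt_ex (D : Ps) (z : ℂ) : ∃ c ∈ D.S, D.zt z = ‖z - c‖ := by
  obtain ⟨c, hc, h⟩ := D.S.finite_toSet.isCompact.exists_infDist_eq_dist D.hSne z
  rw [dist_eq_norm] at h
  exact ⟨c, hc, h⟩

theorem cr_S (D : Ps) {c : ℂ} (hc : c ∈ D.Cr) : c ∈ D.S := (D.hS c).2 (Or.inl hc)

theorem ce_Cr (D : Ps) {c : ℂ} (hc : c ∈ D.Ce) : c ∈ D.Cr := (D.hCr c).2 (Or.inl hc)

theorem cl_Cr (D : Ps) {c : ℂ} (hc : c ∈ D.Cl) : c ∈ D.Cr := (D.hCr c).2 (Or.inr hc)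

theorem ce_S (D : Ps) {c : ℂ} (hc : c ∈ D.Ce) : c ∈ D.S := cr_S D (ce_Cr D hc)

theorem cl_S (D : Ps) {c : ℂ} (hc : c ∈ D.Cl) : c ∈ D.S := cr_S D (cl_Cr D hc)

theorem pa_S (D : Ps) {p : ℂ} (hp : p ∈ D.Pa) : p ∈ D.S := (D.hS p).2 (Or.inr hp)

theorem S_cases (D : Ps) {c : ℂ} (hc : c ∈ D.S) : c ∈ D.Ce ∨ c ∈ D.Cl ∨ c ∈ D.Pa := by
  rcases (D.hS c).1 hc with h | h
  · rcases (D.hCr c).1 h with h | h
    · exact Or.inl h
    · exact Or.inr (Or.inl h)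
  · exact Or.inr (Or.inr h)

theorem M_pos (D : Ps) {c : ℂ} (hc : c ∈ D.S) : 1 ≤ D.M c := by
  rcases (D.hS c).1 hc with h | h
  · have h1 := D.hm c h
    have h2 := D.hmM c h
    omega
  · rw [D.hMp c h]

theorem M_two (D : Ps) {c : ℂ} (hc : c ∈ D.Cr) : 2 ≤ D.M c := (D.hm c hc).trans (D.hmM c hc)

theorem pa_it (D : Ps) {p : ℂ} (hp : p ∈ D.Pa) (n : ℕ) : D.f^[n] p = p := by
  exact Function.iterate_fixed (D.hpf p hp) n

/-- `Pa` is invariant -/
theorem pa_inv (D : Ps) {x : ℂ} {i j : ℕ} (hij : i ≤ j) (h : D.f^[i] x ∈ D.Pa) :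
    D.f^[j] x ∈ D.Pa := by
  obtain ⟨k, rfl⟩ := Nat.exists_eq_add_of_le hij
  rw [add_comm, Function.iterate_add_apply, pa_it D h]
  exact h

theorem it_ne' (D : Ps) {z : ℂ} {n : ℕ}
    (h : ∀ i < n, D.f^[i] z ∈ thickening D.δ D.J ∧ D.f^[i] z ∉ D.S) : deriv (D.f^[n]) z ≠ 0 :=
  it_ne D fun i hi => ⟨(h i hi).1, fun h1 => (h i hi).2 (cr_S D h1)⟩

/-! the distance to the parabolic points -/

theorem dd_nonneg (D : Ps) (z : ℂ) : 0 ≤ D.dd z := by
  unfold Ps.dd dS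
  split_ifs
  · exact le_min zero_le_one infDist_nonneg
  · exact zero_le_one

theorem dd_le_one (D : Ps) (z : ℂ) : D.dd z ≤ 1 := by
  unfold Ps.dd dS
  split_ifs
  · exact min_le_left _ _
  · exact le_rfl

theorem dd_le (D : Ps) {p : ℂ} (hp : p ∈ D.Pa) (z : ℂ) : D.dd z ≤ ‖z - p‖ := by
  unfold Ps.dd dS
  rw [if_pos ⟨p, hp⟩]
  refine (min_le_right _ _).trans ?_
  rw [← dist_eq_norm]
  exact infDist_le_dist_of_mem hp

theorem dd_lip (D : Ps) (z w : ℂ) : |D.dd z - D.dd w| ≤ ‖z - w‖ := by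
  unfold Ps.dd dS
  split_ifs
  · refine (abs_min_sub_min_le_max _ _ _ _).trans ?_
    rw [sub_self, abs_zero]
    refine max_le (norm_nonneg _) ?_
    rw [abs_sub_le_iff, ← dist_eq_norm]
    constructor
    · have h1 := infDist_le_infDist_add_dist (s := (D.Pa : Set ℂ)) (x := z) (y := w)
      linarith
    · have h1 := infDist_le_infDist_add_dist (s := (D.Pa : Set ℂ)) (x := w) (y := z)
      rw [dist_comm] at h1
      linarith
  · rw [sub_self, abs_zero]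
    exact norm_nonneg _

theorem dd_ex (D : Ps) (z : ℂ) : D.dd z = 1 ∨ ∃ p ∈ D.Pa, D.dd z = ‖z - p‖ := by
  unfold Ps.dd dS
  split_ifs with h
  · rcases min_choice (1 : ℝ) (infDist z (D.Pa : Set ℂ)) with h1 | h1
    · exact Or.inl h1
    · right
      obtain ⟨p, hp, h2⟩ := D.Pa.finite_toSet.isCompact.exists_infDist_eq_dist h z
      exact ⟨p, hp, by rw [h1, h2, dist_eq_norm]⟩
  · exact Or.inl rfl

theorem dd_pos (D : Ps) {z : ℂ} (hz : z ∉ D.Pa) : 0 < D.dd z := by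
  rcases dd_ex D z with h | ⟨p, hp, h⟩
  · rw [h]
    exact one_pos
  · rw [h, norm_pos_iff, sub_ne_zero]
    rintro rfl
    exact hz hp

theorem dd_zero (D : Ps) {z : ℂ} (hz : z ∈ D.Pa) : D.dd z = 0 := by
  refine le_antisymm ((dd_le D hz z).trans (le_of_eq ?_)) (dd_nonneg D z)
  rw [sub_self, norm_zero]

theorem dd_near (D : Ps) {p z : ℂ} (hp : p ∈ D.Pa) (h : ‖z - p‖ ≤ 2 * D.r0) :
    D.dd z = ‖z - p‖ := by
  refine le_antisymm (dd_le D hp z) ?_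
  rcases dd_ex D z with h1 | ⟨p', hp', h1⟩
  · rw [h1]
    have h2 := D.hr1
    have h3 := D.hδ1
    linarith
  · rw [h1]
    by_cases h2 : p = p'
    · rw [h2]
    · have h3 := D.hsep p (pa_S D hp) p' (pa_S D hp') h2
      have h4 : ‖p - p'‖ ≤ ‖z - p‖ + ‖z - p'‖ := by
        have e : p - p' = (z - p') - (z - p) := by ring
        rw [e, add_comm]
        exact norm_sub_le _ _
      linarith

/-- a point which is not near a parabolic point -/
theorem dd_far (D : Ps) {z : ℂ} {r : ℝ} (hr : r ≤ 1) (h : ∀ p ∈ D.Pa, r ≤ ‖z - p‖) : r ≤ D.dd z := by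
  rcases dd_ex D z with h1 | ⟨p, hp, h1⟩
  · rw [h1]
    exact hr
  · rw [h1]
    exact h p hp

theorem zt_dd (D : Ps) : ∃ Z : ℝ, 1 ≤ Z ∧ ∀ z ∈ thickening D.δ D.J, D.zt z ≤ Z * D.dd z := by
  obtain ⟨Z, hZ, h⟩ := zt_bd D
  refine ⟨Z, hZ, fun z hz => ?_⟩
  rcases dd_ex D z with h1 | ⟨p, hp, h1⟩
  · rw [h1, mul_one]
    exact h z hz
  · rw [h1]
    refine (zt_le D (pa_S D hp) z).trans ?_
    exact le_mul_of_one_le_left (norm_nonneg _) hZ

/-! the weight -/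

theorem wt_nonneg (D : Ps) (z : ℂ) : 0 ≤ D.wt z :=
  Finset.prod_nonneg fun p _ => le_min zero_le_one (by positivity)

theorem wt_le_one (D : Ps) (z : ℂ) : D.wt z ≤ 1 :=
  Finset.prod_le_one (fun p _ => le_min zero_le_one (by positivity)) fun p _ => min_le_left _ _

theorem wt_le (D : Ps) {p : ℂ} (hp : p ∈ D.Pa) (z : ℂ) : D.wt z ≤ ‖z - p‖ ^ D.qp p := by
  unfold Ps.wt
  rw [← Finset.mul_prod_erase _ _ hp]
  have h1 : ∏ p ∈ D.Pa.erase p, min 1 (‖z - p‖ ^ D.qp p) ≤ 1 :=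
    Finset.prod_le_one (fun p _ => le_min zero_le_one (by positivity)) fun p _ => min_le_left _ _
  have h2 : min 1 (‖z - p‖ ^ D.qp p) ≤ ‖z - p‖ ^ D.qp p := min_le_right _ _
  have h3 : 0 ≤ min 1 (‖z - p‖ ^ D.qp p) := le_min zero_le_one (by positivity)
  calc _ ≤ min 1 (‖z - p‖ ^ D.qp p) * 1 := mul_le_mul_of_nonneg_left h1 h3
    _ ≤ _ := by rw [mul_one]; exact h2

theorem wt_dd (D : Ps) (z : ℂ) : D.dd z ^ D.Qx ≤ D.wt z := by
  unfold Ps.wt Ps.Qx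
  rw [← Finset.prod_pow_eq_pow_sum]
  refine Finset.prod_le_prod (fun p _ => pow_nonneg (dd_nonneg D z) _) fun p hp => ?_
  refine le_min (pow_le_one₀ (dd_nonneg D z) (dd_le_one D z)) ?_
  exact pow_le_pow_left₀ (dd_nonneg D z) (dd_le D hp z) _

theorem wt_near (D : Ps) : ∃ c : ℝ, 0 < c ∧ c ≤ 1 ∧ ∀ p ∈ D.Pa, ∀ z : ℂ, ‖z - p‖ ≤ D.r0 →
    c * ‖z - p‖ ^ D.qp p ≤ D.wt z := by
  have hr0 := D.hr0
  have hr1 : D.r0 ≤ 1 := by
    have h2 := D.hr1
    have h3 := D.hδ1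
    linarith
  refine ⟨D.r0 ^ D.Qx, pow_pos hr0 _, pow_le_one₀ hr0.le hr1, fun p hp z hz => ?_⟩
  unfold Ps.wt
  rw [← Finset.mul_prod_erase _ _ hp, mul_comm]
  have h1 : ‖z - p‖ ^ D.qp p ≤ min 1 (‖z - p‖ ^ D.qp p) :=
    le_min (pow_le_one₀ (norm_nonneg _) (hz.trans hr1)) le_rfl
  have h2 : D.r0 ^ D.Qx ≤ ∏ p ∈ D.Pa.erase p, min 1 (‖z - p‖ ^ D.qp p) := by
    have h3 : ∏ p ∈ D.Pa.erase p, D.r0 ^ D.qp p ≤
        ∏ p ∈ D.Pa.erase p, min 1 (‖z - p‖ ^ D.qp p) := by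
      refine Finset.prod_le_prod (fun p _ => pow_nonneg hr0.le _) fun p' hp' => ?_
      have h4 := Finset.mem_erase.1 hp'
      have h5 := D.hsep p (pa_S D hp) p' (pa_S D h4.2) (Ne.symm h4.1)
      have h6 : ‖p - p'‖ ≤ ‖z - p‖ + ‖z - p'‖ := by
        have e : p - p' = (z - p') - (z - p) := by ring
        rw [e, add_comm]
        exact norm_sub_le _ _
      refine le_min (pow_le_one₀ hr0.le hr1) (pow_le_pow_left₀ hr0.le ?_ _)
      linarith
    refine le_trans ?_ h3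
    rw [Finset.prod_pow_eq_pow_sum]
    refine pow_le_pow_of_le_one hr0.le hr1 ?_
    unfold Ps.Qx
    exact Finset.sum_le_sum_of_subset (Finset.erase_subset _ _)
  exact mul_le_mul h1 h2 (pow_nonneg hr0.le _) (le_min zero_le_one (by positivity))

theorem TT_add (D : Ps) (x : ℂ) (a b : ℕ) :
    D.TT x (a + b) = D.TT x a + D.TT (D.f^[a] x) b := by
  unfold Ps.TT
  rw [Finset.sum_range_add]
  congr 1
  refine Finset.sum_congr rfl fun i _ => ?_
  rw [← Function.iterate_add_apply, add_comm]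

theorem TT_succ (D : Ps) (x : ℂ) (k : ℕ) : D.TT x (k + 1) = D.TT x k + D.wt (D.f^[k] x) := by
  unfold Ps.TT
  rw [Finset.sum_range_succ]

theorem TT_zero (D : Ps) (x : ℂ) : D.TT x 0 = 0 := rfl

theorem TT_nonneg (D : Ps) (x : ℂ) (k : ℕ) : 0 ≤ D.TT x k :=
  Finset.sum_nonneg fun _ _ => wt_nonneg D _

theorem TT_le (D : Ps) (x : ℂ) (k : ℕ) : D.TT x k ≤ k := by
  unfold Ps.TT
  calc _ ≤ ∑ i ∈ Finset.range k, (1 : ℝ) := Finset.sum_le_sum fun _ _ => wt_le_one D _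
    _ = k := by simp

theorem TT_mono (D : Ps) (x : ℂ) {a b : ℕ} (h : a ≤ b) : D.TT x a ≤ D.TT x b := by
  obtain ⟨k, rfl⟩ := Nat.exists_eq_add_of_le h
  rw [TT_add]
  linarith [TT_nonneg D (D.f^[a] x) k]

/-- the complement of `V1` is relatively far from `J` -/
theorem V1_far (D : Ps) {z : ℂ} (hz : z ∉ D.V1) : ∀ y ∈ D.J, D.ϑ / 2 * D.dd z ≤ ‖z - y‖ := by
  intro y hy
  have hϑ := D.hϑ
  have hϑ1 := D.hϑ1
  have hd0 := dd_nonneg D z
  by_contra h
  rw [not_le] at h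
  have h1 := dd_lip D z y
  rw [abs_sub_le_iff] at h1
  have h2 : D.ϑ / 2 * D.dd z ≤ 1 / 2 * D.dd z :=
    mul_le_mul_of_nonneg_right (by linarith) hd0
  have h3 : D.dd z / 2 ≤ D.dd y := by linarith
  have h4 : y ∉ D.Pa := by
    intro h5
    have h6 := dd_zero D h5
    have h7 := dd_le D h5 z
    rw [h6] at h3
    have h8 : D.dd z = 0 := by linarith
    rw [h8, mul_zero] at h
    exact absurd h (not_lt.2 (norm_nonneg _))
  apply hz
  refine D.hVJ y hy h4 z (h.trans_le ?_)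
  have h5 : D.dd y = dS D.Pa y := rfl
  rw [← h5]
  calc D.ϑ / 2 * D.dd z = D.ϑ * (D.dd z / 2) := by ring
    _ ≤ D.ϑ * D.dd y := mul_le_mul_of_nonneg_left h3 hϑ.le


end Pool.Agent.H44.DP
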