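import Pool.Agent.H44.DP.ITR

/-!
# Module NA: iterates are nearly affine on small discs

PROOF. Constants: `Z` from `zt_bd`, `C1 = 16 C`, `ε0` with `C1 * ε0 ≤ 1/4`, `2 ε0 * Z < δ/4`, `ε0 ≤ 1/16`. Write `w_n = f^[n] w`, `Λ_n = ‖deriv (f^[n]) w‖`, `S_n = ∑_{i<n} Λ_i / zt w_i`. Every single term gives `R Λ_n ≤ ε0 zt w_n` for `n < m`.
Induction on `n ≤ m` (for all `z ∈ ball w R`): (a) `f^[i] z ∈ thickening δ J` for `i < n`; (b) `‖deriv (f^[n]) z - deriv (f^[n]) w‖ ≤ C1 ‖z - w‖ S_n Λ_n` (so `≤ Λ_n / 4` for all points of the ball); (c) by (b) for all points and the mean value inequality on the ball of radius `‖z - w‖` (slightly larger, inside `ball w R`; function `z ↦ f^[n] z - deriv (f^[n]) w * z`)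
`‖f^[n] z - w_n - deriv (f^[n]) w * (z - w)‖ ≤ C1 ‖z - w‖ ^ 2 S_n Λ_n`, hence `‖f^[n] z - w_n‖ ≤ 2 Λ_n ‖z - w‖`.
Step (`n < m`): `w_n ∈ thickening (δ/2) J`, `‖f^[n] z - w_n‖ ≤ 2 Λ_n R ≤ 2 ε0 zt w_n ≤ zt w_n / 8`, `< δ / 4`: this gives (a) for `n + 1`, and `D.hdist` at `w_n`: `‖deriv f (f^[n] z) - deriv f w_n‖ ≤ C ‖deriv f w_n‖ * 2 Λ_n ‖z - w‖ / zt w_n` (`zt w_n > 0`). Put `a =` relative error of `deriv (f^[n]) z` (at most `C1 ‖z - w‖ S_n ≤ 1/4`), `b = 2 C ‖z - w‖ Λ_n / zt w_n`: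
relative error of the product `≤ a + b + a b ≤ a + 2 b`, and `2 b ≤ C1 ‖z - w‖ Λ_n / zt w_n`. The chain rule `it_succ`. `na4` follows.
-/

set_option autoImplicit false

open Filter Topology Metric Set

namespace Pool.Agent.H44.DP

/-- the sum in the distortion estimate -/
noncomputable def naS (D : Ps) (w : ℂ) (n : ℕ) : ℝ :=
  ∑ i ∈ Finset.range n, ‖deriv (D.f^[i]) w‖ / D.zt (D.f^[i] w)

theorem naS_term (D : Ps) (w : ℂ) (i : ℕ) : 0 ≤ ‖deriv (D.f^[i]) w‖ / D.zt (D.f^[i] w) :=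
  div_nonneg (norm_nonneg _) (zt_nonneg D _)

theorem naS_nonneg (D : Ps) (w : ℂ) (n : ℕ) : 0 ≤ naS D w n :=
  Finset.sum_nonneg fun i _ => naS_term D w i

theorem naS_mono (D : Ps) (w : ℂ) {n m : ℕ} (h : n ≤ m) : naS D w n ≤ naS D w m :=
  Finset.sum_le_sum_of_subset_of_nonneg (Finset.range_mono h) fun i _ _ => naS_term D w i

theorem naS_succ (D : Ps) (w : ℂ) (n : ℕ) :
    naS D w (n + 1) = naS D w n + ‖deriv (D.f^[n]) w‖ / D.zt (D.f^[n] w) :=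
  Finset.sum_range_succ _ _

/-- every term of the sum -/
theorem na_term (D : Ps) {w : ℂ} {R e : ℝ} {m n : ℕ} (hR : 0 < R)
    (h : D.f^[n] w ∉ D.S) (hS : R * naS D w m ≤ e) (hn : n < m) :
    R * ‖deriv (D.f^[n]) w‖ ≤ e * D.zt (D.f^[n] w) := by
  have hz := zt_pos D h
  have h1 : ‖deriv (D.f^[n]) w‖ / D.zt (D.f^[n] w) ≤ naS D w m := by
    have h2 := naS_mono D w (Nat.succ_le_of_lt hn)
    rw [naS_succ] at h2
    have h3 := naS_nonneg D w n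
    linarith
  have h2 : R * (‖deriv (D.f^[n]) w‖ / D.zt (D.f^[n] w)) ≤ e :=
    (mul_le_mul_of_nonneg_left h1 hR.le).trans hS
  rw [← mul_div_assoc, div_le_iff₀ hz] at h2
  exact h2

/-- the distance of the images, from the last estimate -/
theorem na_dist {F W A dz : ℂ} {κ : ℝ} (hκ : κ * ‖dz‖ ≤ 1 / 4)
    (h : ‖F - W - A * dz‖ ≤ κ * ‖dz‖ ^ 2 * ‖A‖) : ‖F - W‖ ≤ 5 / 4 * (‖A‖ * ‖dz‖) := by
  have h1 : ‖F - W‖ ≤ ‖F - W - A * dz‖ + ‖A * dz‖ := by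
    have e : F - W = (F - W - A * dz) + A * dz := by ring
    conv_lhs => rw [e]
    exact norm_add_le _ _
  rw [norm_mul] at h1
  have h2 : κ * ‖dz‖ ^ 2 * ‖A‖ ≤ 1 / 4 * (‖A‖ * ‖dz‖) := by
    have h3 : κ * ‖dz‖ ^ 2 * ‖A‖ = (κ * ‖dz‖) * (‖A‖ * ‖dz‖) := by ring
    rw [h3]
    exact mul_le_mul_of_nonneg_right hκ (by positivity)
  linarith

/-- relative errors of a product -/
theorem na_prod {A A' B B' : ℂ} {a b : ℝ} (ha0 : 0 ≤ a) (ha : a ≤ 1 / 4) (hb : 0 ≤ b)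
    (h1 : ‖A' - A‖ ≤ a * ‖A‖) (h2 : ‖B' - B‖ ≤ b * ‖B‖) :
    ‖B' * A' - B * A‖ ≤ (a + 2 * b) * (‖B‖ * ‖A‖) := by
  have h3 : ‖A'‖ ≤ 5 / 4 * ‖A‖ := by
    have e : A' = (A' - A) + A := by ring
    have h4 : ‖A'‖ ≤ ‖A' - A‖ + ‖A‖ := by
      conv_lhs => rw [e]
      exact norm_add_le _ _
    have h5 : a * ‖A‖ ≤ 1 / 4 * ‖A‖ := mul_le_mul_of_nonneg_right ha (norm_nonneg _)
    linarith
  have e : B' * A' - B * A = (B' - B) * A' + B * (A' - A) := by ring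
  rw [e]
  refine (norm_add_le _ _).trans ?_
  rw [norm_mul, norm_mul]
  have h4 : ‖B' - B‖ * ‖A'‖ ≤ (b * ‖B‖) * (5 / 4 * ‖A‖) :=
    mul_le_mul h2 h3 (norm_nonneg _) (by positivity)
  have h5 : ‖B‖ * ‖A' - A‖ ≤ ‖B‖ * (a * ‖A‖) := mul_le_mul_of_nonneg_left h1 (norm_nonneg _)
  have h6 : 0 ≤ b * (‖B‖ * ‖A‖) := by positivity
  nlinarith

theorem na (D : Ps) : ∃ ε0 C1 : ℝ, 0 < ε0 ∧ ε0 ≤ 1 / 16 ∧ 1 ≤ C1 ∧ C1 * ε0 ≤ 1 / 4 ∧
    ∀ (w : ℂ) (R : ℝ) (m : ℕ), 0 < R →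
      (∀ n < m, D.f^[n] w ∈ thickening (D.δ / 2) D.J ∧ D.f^[n] w ∉ D.S) →
      R * ∑ n ∈ Finset.range m, ‖deriv (D.f^[n]) w‖ / D.zt (D.f^[n] w) ≤ ε0 →
      ∀ n ≤ m, ∀ z ∈ ball w R,
        (∀ i < n, D.f^[i] z ∈ thickening D.δ D.J) ∧
        ‖deriv (D.f^[n]) z - deriv (D.f^[n]) w‖ ≤ C1 * ‖z - w‖ *
          (∑ i ∈ Finset.range n, ‖deriv (D.f^[i]) w‖ / D.zt (D.f^[i] w)) * ‖deriv (D.f^[n]) w‖ ∧
        ‖D.f^[n] z - D.f^[n] w - deriv (D.f^[n]) w * (z - w)‖ ≤ C1 * ‖z - w‖ ^ 2 *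
          (∑ i ∈ Finset.range n, ‖deriv (D.f^[i]) w‖ / D.zt (D.f^[i] w)) *
            ‖deriv (D.f^[n]) w‖ := by
  obtain ⟨Z, hZ1, hZ⟩ := zt_bd D
  have hC0 : 0 < D.C := by linarith [D.hC]
  have hZ0 : 0 < Z := by linarith
  obtain ⟨ε0, hε0⟩ : ∃ ε0 : ℝ, ε0 = min (1 / (64 * D.C)) (D.δ / (16 * Z)) := ⟨_, rfl⟩
  have hε : 0 < ε0 := by
    rw [hε0]
    exact lt_min (by positivity) (div_pos D.hδ (by positivity))
  have hε1 : ε0 ≤ 1 / (64 * D.C) := by rw [hε0]; exact min_le_left _ _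
  have hε2 : ε0 ≤ D.δ / (16 * Z) := by rw [hε0]; exact min_le_right _ _
  have hε3 : 64 * D.C * ε0 ≤ 1 := by
    rw [le_div_iff₀ (by positivity)] at hε1
    linarith
  have hε4 : 16 * Z * ε0 ≤ D.δ := by
    rw [le_div_iff₀ (by positivity)] at hε2
    linarith
  have hε5 : ε0 ≤ 1 / 64 := by
    have h1 : 64 * 1 * ε0 ≤ 64 * D.C * ε0 :=
      mul_le_mul_of_nonneg_right (by linarith [D.hC]) hε.le
    linarith
  refine ⟨ε0, 16 * D.C, hε, by linarith, by linarith [D.hC], by linarith, ?_⟩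
  intro w R m hR hw hS
  have hS' : R * naS D w m ≤ ε0 := hS
  have hwG : ∀ i < m, D.f^[i] w ∈ D.G := fun i hi =>
    D.hU (thickening_mono (by linarith [D.hδ]) _ (hw i hi).1)
  intro n
  induction n with
  | zero =>
    intro _ z _
    have h1 : D.f^[0] = id := rfl
    refine ⟨fun i hi => absurd hi (Nat.not_lt_zero i), ?_, ?_⟩
    · rw [h1, deriv_id, deriv_id]
      simp
    · rw [h1, deriv_id]
      simp
  | succ n ih =>
    intro hn
    have hnm : n < m := hn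
    have ihn := ih hnm.le
    have hzt := zt_pos D (hw n hnm).2
    have hterm := na_term D hR (hw n hnm).2 hS' hnm
    have hSn : R * naS D w n ≤ ε0 :=
      (mul_le_mul_of_nonneg_left (naS_mono D w hnm.le) hR.le).trans hS'
    -- the images are close
    have hclose : ∀ z ∈ ball w R, 16 * D.C * ‖z - w‖ * naS D w n ≤ 1 / 4 ∧
        ‖D.f^[n] z - D.f^[n] w‖ ≤ 2 * (‖deriv (D.f^[n]) w‖ * ‖z - w‖) ∧
        ‖D.f^[n] z - D.f^[n] w‖ < D.δ / 4 ∧
        2 * ‖D.f^[n] z - D.f^[n] w‖ ≤ D.zt (D.f^[n] w) := by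
      intro z hz
      rw [mem_ball, dist_eq_norm] at hz
      have h1 : 16 * D.C * ‖z - w‖ * naS D w n ≤ 1 / 4 := by
        have h2 : ‖z - w‖ * naS D w n ≤ ε0 :=
          (mul_le_mul_of_nonneg_right hz.le (naS_nonneg D w n)).trans hSn
        have h3 : 16 * D.C * (‖z - w‖ * naS D w n) ≤ 16 * D.C * ε0 :=
          mul_le_mul_of_nonneg_left h2 (by positivity)
        linarith
      have h2 : ‖D.f^[n] z - D.f^[n] w‖ ≤ 5 / 4 * (‖deriv (D.f^[n]) w‖ * ‖z - w‖) := by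
        refine na_dist (κ := 16 * D.C * naS D w n) ?_ ?_
        · linarith
        · have h3 := (ihn z (by rw [mem_ball, dist_eq_norm]; exact hz)).2.2
          refine h3.trans (le_of_eq ?_)
          unfold naS
          ring
      have h3 : ‖deriv (D.f^[n]) w‖ * ‖z - w‖ ≤ ε0 * D.zt (D.f^[n] w) := by
        refine le_trans ?_ hterm
        rw [mul_comm R]
        exact mul_le_mul_of_nonneg_left hz.le (norm_nonneg _)
      have h4 : D.zt (D.f^[n] w) ≤ Z :=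
        hZ _ (thickening_mono (by linarith [D.hδ]) _ (hw n hnm).1)
      have h5 : ε0 * D.zt (D.f^[n] w) ≤ ε0 * Z := mul_le_mul_of_nonneg_left h4 hε.le
      have h6 : ε0 * D.zt (D.f^[n] w) ≤ 1 / 64 * D.zt (D.f^[n] w) :=
        mul_le_mul_of_nonneg_right hε5 hzt.le
      have h7 : 0 ≤ ‖deriv (D.f^[n]) w‖ * ‖z - w‖ := by positivity
      have h8 := D.hδ
      exact ⟨h1, by linarith, by linarith, by linarith⟩
    have ha : ∀ z ∈ ball w R, ∀ i < n + 1, D.f^[i] z ∈ thickening D.δ D.J := by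
      intro z hz i hi
      rcases Nat.lt_succ_iff_lt_or_eq.1 hi with h1 | h1
      · exact (ihn z hz).1 i h1
      · rw [h1]
        have h2 := th_add (hw n hnm).1 (hclose z hz).2.2.1
        exact thickening_mono (by linarith [D.hδ]) _ h2
    have hb : ∀ z ∈ ball w R, ‖deriv (D.f^[n + 1]) z - deriv (D.f^[n + 1]) w‖ ≤
        16 * D.C * ‖z - w‖ * naS D w (n + 1) * ‖deriv (D.f^[n + 1]) w‖ := by
      intro z hz
      obtain ⟨c1, c2, c3, c4⟩ := hclose z hz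
      rw [it_succ D fun i hi => D.hU (ha z hz i hi),
        it_succ D (z := w) fun i hi => hwG i (by omega), norm_mul]
      obtain ⟨b, hbd⟩ : ∃ b : ℝ, b = 2 * D.C * (‖deriv (D.f^[n]) w‖ * ‖z - w‖) /
        D.zt (D.f^[n] w) := ⟨_, rfl⟩
      have hb0 : 0 ≤ b := by
        rw [hbd]
        positivity
      have h1 : ‖deriv D.f (D.f^[n] z) - deriv D.f (D.f^[n] w)‖ ≤
          b * ‖deriv D.f (D.f^[n] w)‖ := by
        have h2 := D.hdist (D.f^[n] w) (hw n hnm).1 (D.f^[n] z) (by linarith [D.hδ]) c4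
        have h3 : D.C * ‖deriv D.f (D.f^[n] w)‖ * ‖D.f^[n] z - D.f^[n] w‖ ≤
            D.C * ‖deriv D.f (D.f^[n] w)‖ * (2 * (‖deriv (D.f^[n]) w‖ * ‖z - w‖)) :=
          mul_le_mul_of_nonneg_left c2 (by positivity)
        have h4 : ‖deriv D.f (D.f^[n] z) - deriv D.f (D.f^[n] w)‖ * D.zt (D.f^[n] w) ≤
            D.C * ‖deriv D.f (D.f^[n] w)‖ * (2 * (‖deriv (D.f^[n]) w‖ * ‖z - w‖)) := h2.trans h3
        rw [← le_div_iff₀ hzt] at h4
        refine h4.trans (le_of_eq ?_)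
        rw [hbd]
        ring
      have h2 := na_prod (A := deriv (D.f^[n]) w) (A' := deriv (D.f^[n]) z)
        (B := deriv D.f (D.f^[n] w)) (B' := deriv D.f (D.f^[n] z))
        (a := 16 * D.C * ‖z - w‖ * naS D w n) (b := b)
        (mul_nonneg (by positivity) (naS_nonneg D w n)) c1 hb0 (ihn z hz).2.1 h1
      refine h2.trans (mul_le_mul_of_nonneg_right ?_ (by positivity))
      rw [naS_succ, hbd]
      have h3 : 2 * (2 * D.C * (‖deriv (D.f^[n]) w‖ * ‖z - w‖) / D.zt (D.f^[n] w)) =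
          4 * D.C * ‖z - w‖ * (‖deriv (D.f^[n]) w‖ / D.zt (D.f^[n] w)) := by
        ring
      rw [h3]
      have h4 : 0 ≤ D.C * ‖z - w‖ * (‖deriv (D.f^[n]) w‖ / D.zt (D.f^[n] w)) :=
        mul_nonneg (by positivity) (naS_term D w n)
      nlinarith
    intro z hz
    refine ⟨ha z hz, hb z hz, ?_⟩
    -- the mean value inequality
    have hz' : ‖z - w‖ < R := by
      rw [mem_ball, dist_eq_norm] at hz
      exact hz
    have hsub : ∀ y ∈ closedBall w ‖z - w‖, y ∈ ball w R := by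
      intro y hy
      rw [mem_closedBall] at hy
      rw [mem_ball]
      linarith
    obtain ⟨κ, hκ⟩ : ∃ κ : ℂ, κ = deriv (D.f^[n + 1]) w := ⟨_, rfl⟩
    have hdiff : ∀ y ∈ closedBall w ‖z - w‖, DifferentiableAt ℂ (D.f^[n + 1]) y := fun y hy =>
      it_diff D fun i hi => D.hU (ha y (hsub y hy) i hi)
    have hder : ∀ y ∈ closedBall w ‖z - w‖,
        HasDerivAt (fun u => D.f^[n + 1] u - κ * u) (deriv (D.f^[n + 1]) y - κ) y := by
      intro y hy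
      have h1 := (hdiff y hy).hasDerivAt
      have h2 := (hasDerivAt_id y).const_mul κ
      rw [mul_one] at h2
      exact h1.sub h2
    have hmv := (convex_closedBall w ‖z - w‖).norm_image_sub_le_of_norm_deriv_le
      (f := fun u => D.f^[n + 1] u - κ * u)
      (C := 16 * D.C * ‖z - w‖ * naS D w (n + 1) * ‖deriv (D.f^[n + 1]) w‖)
      (x := w) (y := z) (fun y hy => (hder y hy).differentiableAt) (fun y hy => by
        rw [(hder y hy).deriv, hκ]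
        refine (hb y (hsub y hy)).trans ?_
        rw [mem_closedBall, dist_eq_norm] at hy
        refine mul_le_mul_of_nonneg_right ?_ (norm_nonneg _)
        refine mul_le_mul_of_nonneg_right ?_ (naS_nonneg D w _)
        exact mul_le_mul_of_nonneg_left hy (by positivity))
      (mem_closedBall_self (norm_nonneg _))
      (by rw [mem_closedBall, dist_eq_norm])
    have h1 : D.f^[n + 1] z - D.f^[n + 1] w - deriv (D.f^[n + 1]) w * (z - w) =
        (D.f^[n + 1] z - κ * z) - (D.f^[n + 1] w - κ * w) := by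
      rw [hκ]
      ring
    rw [h1]
    refine hmv.trans (le_of_eq ?_)
    unfold naS
    ring

/-- the usual form, with constant `1/4` -/
theorem na4 (D : Ps) : ∃ ε0 : ℝ, 0 < ε0 ∧ ε0 ≤ 1 / 16 ∧
    ∀ (w : ℂ) (R : ℝ) (m : ℕ), 0 < R →
      (∀ n < m, D.f^[n] w ∈ thickening (D.δ / 2) D.J ∧ D.f^[n] w ∉ D.S) →
      R * ∑ n ∈ Finset.range m, ‖deriv (D.f^[n]) w‖ / D.zt (D.f^[n] w) ≤ ε0 →
      ∀ n ≤ m, ∀ z ∈ ball w R,
        (∀ i < n, D.f^[i] z ∈ thickening D.δ D.J) ∧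
        ‖deriv (D.f^[n]) z - deriv (D.f^[n]) w‖ ≤ 1 / 4 * ‖deriv (D.f^[n]) w‖ ∧
        ‖D.f^[n] z - D.f^[n] w - deriv (D.f^[n]) w * (z - w)‖ ≤
          1 / 4 * ‖deriv (D.f^[n]) w‖ * ‖z - w‖ ∧
        (n < m → ‖D.f^[n] z - D.f^[n] w‖ ≤ 1 / 8 * D.zt (D.f^[n] w)) := by
  obtain ⟨ε0, C1, h1, h2, h3, h4, h5⟩ := na D
  refine ⟨ε0, h1, h2, ?_⟩
  intro w R m hR hw hS n hn z hz
  obtain ⟨a1, a2, a3⟩ := h5 w R m hR hw hS n hn z hz
  have hS' : R * naS D w m ≤ ε0 := hS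
  have hz' : ‖z - w‖ < R := by
    rw [mem_ball, dist_eq_norm] at hz
    exact hz
  have hκ : C1 * naS D w n * ‖z - w‖ ≤ 1 / 4 := by
    have h6 : ‖z - w‖ * naS D w n ≤ ε0 := by
      have h7 : ‖z - w‖ * naS D w n ≤ R * naS D w m :=
        mul_le_mul hz'.le (naS_mono D w hn) (naS_nonneg D w n) hR.le
      exact h7.trans hS'
    have h7 : C1 * (‖z - w‖ * naS D w n) ≤ C1 * ε0 :=
      mul_le_mul_of_nonneg_left h6 (by linarith)
    have h8 : C1 * naS D w n * ‖z - w‖ = C1 * (‖z - w‖ * naS D w n) := by ring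
    rw [h8]
    linarith
  have hA := norm_nonneg (deriv (D.f^[n]) w)
  refine ⟨a1, ?_, ?_, ?_⟩
  · refine a2.trans ?_
    refine mul_le_mul_of_nonneg_right ?_ hA
    refine le_trans (le_of_eq ?_) hκ
    unfold naS
    ring
  · refine a3.trans ?_
    have h6 : C1 * ‖z - w‖ ^ 2 *
        (∑ i ∈ Finset.range n, ‖deriv (D.f^[i]) w‖ / D.zt (D.f^[i] w)) *
        ‖deriv (D.f^[n]) w‖ =
        (C1 * naS D w n * ‖z - w‖) * (‖deriv (D.f^[n]) w‖ * ‖z - w‖) := by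
      unfold naS
      ring
    have h7 : 1 / 4 * ‖deriv (D.f^[n]) w‖ * ‖z - w‖ =
        1 / 4 * (‖deriv (D.f^[n]) w‖ * ‖z - w‖) := by ring
    rw [h6, h7]
    exact mul_le_mul_of_nonneg_right hκ (by positivity)
  · intro hnm
    have h6 : ‖D.f^[n] z - D.f^[n] w‖ ≤ 5 / 4 * (‖deriv (D.f^[n]) w‖ * ‖z - w‖) := by
      refine na_dist (κ := C1 * naS D w n) hκ ?_
      refine a3.trans (le_of_eq ?_)
      unfold naS
      ring
    have h7 := na_term D hR (hw n hnm).2 hS' hnm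
    have h8 : ‖deriv (D.f^[n]) w‖ * ‖z - w‖ ≤ R * ‖deriv (D.f^[n]) w‖ := by
      rw [mul_comm R]
      exact mul_le_mul_of_nonneg_left hz'.le hA
    have h9 : ε0 * D.zt (D.f^[n] w) ≤ 1 / 16 * D.zt (D.f^[n] w) :=
      mul_le_mul_of_nonneg_right h2 (zt_nonneg D _)
    have h10 := zt_nonneg D (D.f^[n] w)
    linarith

end Pool.Agent.H44.DP
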