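import Pool.Agent.H44.DN.PUL1
import Pool.Agent.H44.DP.NA
import Pool.Agent.H44.DP.ITR

/-!
# Module PUL2: preimages under the passage near a critical point: measure

PROOF. `ε0` from `na4`. For `u ∈ ball c r0`, `s = ‖u - c‖ > 0`, `τ = τ c`: `∑_{j<τ} ‖deriv (f^[j]) u‖ / zt (f^[j] u) ≤ τ C / s` (`D.p3`; `zt (f^[j] u) > 0`: `deriv (f^[j]) u ≠ 0` since `deriv (f^[τ]) u ≠ 0` by `D.p2`). So with `a = ε0 / (C τ + 1)` `na4` applies on `ball u (a s)` and time `τ`: `‖deriv (f^[τ]) w - deriv (f^[τ]) u‖ ≤ 1/4 ‖..‖`, and `pul1`: `volume (ball u (a s) ∩ (f^[τ]) ⁻¹' S) ≤ ofReal (2 / ‖deriv (f^[τ]) u‖ ^ 2) volume S`,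
`‖deriv (f^[τ]) u‖ ≥ s ^ (M c - 1) / C`. The annulus `A = {u | R / 2 < ‖u - c‖ ≤ R}` is covered by at most `N` balls `ball u_i (a R / 2)` with `u_i ∈ A`, `N` depending on `a` only (scale `c + R • K0`, `K0` the compact unit annulus, finite subcover; in the form: the compact set `{ξ | 1/2 ≤ ‖ξ‖ ≤ 1}` is covered by finitely many balls of radius `a/4` with centres in it; `S` is replaced by `S' = S ∩ f^[τ] ''`: not needed, instead apply the bound to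
the measurable set `S ∩ {v | R ^ M c / (C 2 ^ M c) ≤ ‖v - vv c‖ ≤ C R ^ M c}`, which contains the values by `D.p1`). `C' = N * 2 C^2 4^(M c)` etc., the maximum over `c ∈ Cr`.
-/

set_option autoImplicit false

open Filter Topology Metric Set

namespace Pool.Agent.H44.DP

private theorem pul2_M (D : Ps) {c : ℂ} (hc : c ∈ D.Cr) : D.M c ≤ D.Mx :=
  Finset.single_le_sum (f := fun c => D.M c) (fun _ _ => Nat.zero_le _) (cr_S D hc)

open MeasureTheory in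
/-- one disc -/
private theorem pul2_one (D : Ps) : ∃ a : ℝ, 0 < a ∧ ∀ c ∈ D.Cr, ∀ u ∈ ball c D.r0, u ≠ c →
    ∀ S : Set ℂ, MeasurableSet S →
      volume (ball u (a * ‖u - c‖) ∩ (D.f^[D.τ c]) ⁻¹' S) ≤
        ENNReal.ofReal (2 * D.C ^ 2 / ‖u - c‖ ^ (2 * (D.M c - 1))) * volume S := by
  obtain ⟨ε0, hε0, -, H⟩ := na4 D
  have hC := D.hC
  obtain ⟨T, hT⟩ : ∃ T : ℕ, T = ∑ c ∈ D.Cr, D.τ c := ⟨_, rfl⟩
  refine ⟨ε0 / (D.C * T + 1), by positivity, fun c hc u hu huc S hS => ?_⟩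
  have hTc : D.τ c ≤ T := by
    rw [hT]
    exact Finset.single_le_sum (f := fun c => D.τ c) (fun _ _ => Nat.zero_le _) hc
  obtain ⟨s, hs⟩ : ∃ s : ℝ, s = ‖u - c‖ := ⟨_, rfl⟩
  have hs0 : 0 < s := by
    rw [hs]
    exact norm_pos_iff.2 (sub_ne_zero.2 huc)
  rw [← hs]
  obtain ⟨a, ha⟩ : ∃ a : ℝ, a = ε0 / (D.C * T + 1) := ⟨_, rfl⟩
  have ha0 : 0 < a := by
    rw [ha]
    positivity
  rw [← ha]
  have hmem := D.p4 c hc u hu
  have hG : ∀ i < D.τ c, D.f^[i] u ∈ D.G := fun i hi =>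
    D.hU (thickening_mono (by linarith [D.hδ]) _ (hmem i hi.le))
  have hd := (D.p2 c hc u hu).2
  rw [← hs] at hd
  have hdne : deriv (D.f^[D.τ c]) u ≠ 0 := by
    intro h0
    rw [h0, norm_zero, mul_zero] at hd
    have : 0 < s ^ (D.M c - 1) := by positivity
    linarith
  have hdj : ∀ j < D.τ c, deriv (D.f^[j]) u ≠ 0 := by
    intro j hj h0
    apply hdne
    have h1 : D.τ c = j + (D.τ c - j) := by omega
    rw [h1, it_add D (a := j) (b := D.τ c - j) (fun i hi => hG i (by omega)), h0, mul_zero]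
  have hzt : ∀ j < D.τ c, 0 < D.zt (D.f^[j] u) := by
    intro j hj
    have h1 := D.p3 c hc u hu j hj
    rw [← hs] at h1
    change ‖deriv (D.f^[j]) u‖ * s ≤ D.C * D.zt (D.f^[j] u) at h1
    have h2 : 0 < ‖deriv (D.f^[j]) u‖ * s := mul_pos (norm_pos_iff.2 (hdj j hj)) hs0
    have h3 : 0 < D.C * D.zt (D.f^[j] u) := lt_of_lt_of_le h2 h1
    exact pos_of_mul_pos_right h3 (by linarith)
  have hsum : a * s * ∑ n ∈ Finset.range (D.τ c), ‖deriv (D.f^[n]) u‖ / D.zt (D.f^[n] u) ≤ ε0 := by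
    have h1 : ∑ n ∈ Finset.range (D.τ c), ‖deriv (D.f^[n]) u‖ / D.zt (D.f^[n] u) ≤
        ∑ _n ∈ Finset.range (D.τ c), D.C / s := by
      refine Finset.sum_le_sum fun n hn => ?_
      have hn' := Finset.mem_range.1 hn
      have h2 := D.p3 c hc u hu n hn'
      rw [← hs] at h2
      rw [div_le_div_iff₀ (hzt n hn') hs0]
      exact h2
    rw [Finset.sum_const, Finset.card_range, nsmul_eq_mul] at h1
    have h3 : (D.τ c : ℝ) ≤ T := by exact_mod_cast hTc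
    calc a * s * ∑ n ∈ Finset.range (D.τ c), ‖deriv (D.f^[n]) u‖ / D.zt (D.f^[n] u)
        ≤ a * s * ((D.τ c : ℝ) * (D.C / s)) := mul_le_mul_of_nonneg_left h1 (by positivity)
      _ = a * (D.C * D.τ c) := by field_simp
      _ ≤ a * (D.C * T + 1) := by
        apply mul_le_mul_of_nonneg_left _ ha0.le
        have := mul_le_mul_of_nonneg_left h3 (by linarith : 0 ≤ D.C)
        linarith
      _ = ε0 := by
        rw [ha]
        field_simp
  have hna := H u (a * s) (D.τ c) (by positivity) (fun n hn =>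
    ⟨thickening_mono (by linarith [D.hδ]) _ (hmem n hn.le), fun h0 => by
      have h1 := hzt n hn
      rw [zt_zero D h0] at h1
      exact lt_irrefl _ h1⟩) hsum (D.τ c) le_rfl
  have hp := DN.pul1 (F := D.f^[D.τ c]) (v := u) (a := deriv (D.f^[D.τ c]) u) (ρ := a * s)
    (by positivity) hdne (fun w hw =>
      (it_diff D fun i hi => D.hU ((hna w hw).1 i hi)).differentiableWithinAt)
    (fun w hw => (hna w hw).2.1) hS
  refine hp.trans (mul_le_mul' (ENNReal.ofReal_le_ofReal ?_) le_rfl)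
  rw [pow_mul, div_le_div_iff₀ (pow_pos (norm_pos_iff.2 hdne) 2) (by positivity)]
  have h5 : (s ^ (D.M c - 1)) ^ 2 ≤ (D.C * ‖deriv (D.f^[D.τ c]) u‖) ^ 2 :=
    pow_le_pow_left₀ (by positivity) hd 2
  calc 2 * (s ^ 2) ^ (D.M c - 1) = 2 * (s ^ (D.M c - 1)) ^ 2 := by
        rw [← pow_mul, ← pow_mul, mul_comm (D.M c - 1) 2]
    _ ≤ 2 * (D.C * ‖deriv (D.f^[D.τ c]) u‖) ^ 2 := by linarith
    _ = 2 * D.C ^ 2 * ‖deriv (D.f^[D.τ c]) u‖ ^ 2 := by ring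

open MeasureTheory in
theorem pul2 (D : Ps) : ∃ C' : ℝ, 1 ≤ C' ∧ ∀ c ∈ D.Cr, ∀ R : ℝ, 0 < R → R < D.r0 → ∀ S : Set ℂ,
    MeasurableSet S →
      volume ({u : ℂ | R / 2 < ‖u - c‖ ∧ ‖u - c‖ ≤ R} ∩ (D.f^[D.τ c]) ⁻¹' S) ≤
        ENNReal.ofReal (C' / R ^ (2 * (D.M c - 1))) *
          volume (S ∩ {v : ℂ | R ^ D.M c / C' ≤ ‖v - D.vv c‖ ∧ ‖v - D.vv c‖ ≤ C' * R ^ D.M c}) := by
  obtain ⟨a, ha, H⟩ := pul2_one D
  have hC := D.hC
  have hK : IsCompact {ξ : ℂ | 1 / 2 ≤ ‖ξ‖ ∧ ‖ξ‖ ≤ 1} := by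
    refine (isCompact_closedBall (0 : ℂ) 1).of_isClosed_subset ?_ ?_
    · exact (isClosed_le continuous_const continuous_norm).inter
        (isClosed_le continuous_norm continuous_const)
    · rintro ξ ⟨-, h⟩
      rw [mem_closedBall, dist_zero_right]
      exact h
  obtain ⟨t, ht1, ht2, ht3⟩ := hK.finite_cover_balls (e := a / 2) (by positivity)
  obtain ⟨N, hN⟩ : ∃ N : Finset ℂ, N = ht2.toFinset := ⟨_, rfl⟩
  have hNm : ∀ ξ, ξ ∈ N ↔ ξ ∈ t := by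
    intro ξ
    rw [hN, Set.Finite.mem_toFinset]
  obtain ⟨C', hC'⟩ : ∃ C' : ℝ, C' = ((N.card : ℝ) + 1) * (2 * D.C ^ 2 * 4 ^ D.Mx) := ⟨_, rfl⟩
  have h4 : (1 : ℝ) ≤ 4 ^ D.Mx := one_le_pow₀ (by norm_num)
  have hC2 : 1 ≤ D.C ^ 2 := one_le_pow₀ hC
  have hCC : D.C ≤ D.C ^ 2 := by nlinarith
  have hC'1 : D.C * 4 ^ D.Mx ≤ C' := by
    rw [hC']
    have h5 : 0 ≤ (N.card : ℝ) * (2 * D.C ^ 2 * 4 ^ D.Mx) := by positivity
    have h6 : D.C * 4 ^ D.Mx ≤ D.C ^ 2 * 4 ^ D.Mx := mul_le_mul_of_nonneg_right hCC (by positivity)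
    have h7 : 0 ≤ D.C ^ 2 * 4 ^ D.Mx := by positivity
    linarith
  have hC'C : D.C ≤ C' := by
    refine le_trans ?_ hC'1
    exact le_mul_of_one_le_right (by linarith) h4
  have hC'2 : D.C * 2 ^ D.Mx ≤ C' := by
    refine le_trans (mul_le_mul_of_nonneg_left ?_ (by linarith)) hC'1
    exact pow_le_pow_left₀ (by norm_num) (by norm_num) _
  have hC'0 : 0 < C' := by linarith
  refine ⟨C', by linarith, fun c hc R hR hRr S hS => ?_⟩
  have hM := pul2_M D hc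
  obtain ⟨S', hS'⟩ : ∃ S' : Set ℂ, S' = S ∩ {v : ℂ | R ^ D.M c / C' ≤ ‖v - D.vv c‖ ∧
    ‖v - D.vv c‖ ≤ C' * R ^ D.M c} := ⟨_, rfl⟩
  have hS'm : MeasurableSet S' := by
    rw [hS']
    have hcn : Continuous fun v : ℂ => ‖v - D.vv c‖ := by fun_prop
    exact hS.inter ((measurableSet_le measurable_const hcn.measurable).inter
      (measurableSet_le hcn.measurable measurable_const))
  rw [← hS']
  have hsub : {u : ℂ | R / 2 < ‖u - c‖ ∧ ‖u - c‖ ≤ R} ∩ (D.f^[D.τ c]) ⁻¹' S ⊆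
      ⋃ ξ ∈ N, (ball (c + R * ξ) (a * ‖(c + R * ξ) - c‖) ∩ (D.f^[D.τ c]) ⁻¹' S') := by
    rintro u ⟨⟨hu1, hu2⟩, hu3⟩
    have hu3' : D.f^[D.τ c] u ∈ S := hu3
    have hR' : (R : ℂ) ≠ 0 := by exact_mod_cast hR.ne'
    have h1 : (u - c) / R ∈ {ξ : ℂ | 1 / 2 ≤ ‖ξ‖ ∧ ‖ξ‖ ≤ 1} := by
      have h2 : ‖(u - c) / (R : ℂ)‖ = ‖u - c‖ / R := by
        rw [norm_div, Complex.norm_real, Real.norm_of_nonneg hR.le]
      show 1 / 2 ≤ ‖(u - c) / (R : ℂ)‖ ∧ ‖(u - c) / (R : ℂ)‖ ≤ 1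
      rw [h2, le_div_iff₀ hR, div_le_one hR]
      exact ⟨by linarith, hu2⟩
    have h2 := ht3 h1
    simp only [mem_iUnion, exists_prop] at h2
    obtain ⟨ξ, hξ, hξ2⟩ := h2
    have hξK := ht1 hξ
    have hξ3 : 1 / 2 ≤ ‖ξ‖ := hξK.1
    have hnc : ‖(c + R * ξ) - c‖ = R * ‖ξ‖ := by
      rw [add_sub_cancel_left, norm_mul, Complex.norm_real, Real.norm_of_nonneg hR.le]
    simp only [mem_iUnion, exists_prop]
    refine ⟨ξ, (hNm ξ).2 hξ, ?_, ?_⟩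
    · rw [mem_ball, dist_eq_norm, hnc]
      rw [mem_ball, dist_eq_norm] at hξ2
      have e : u - (c + R * ξ) = R * ((u - c) / R - ξ) := by
        field_simp
        ring
      rw [e, norm_mul, Complex.norm_real, Real.norm_of_nonneg hR.le]
      calc R * ‖(u - c) / R - ξ‖ < R * (a / 2) := mul_lt_mul_of_pos_left hξ2 hR
        _ ≤ a * (R * ‖ξ‖) := by
          have := mul_le_mul_of_nonneg_left hξ3 (by positivity : 0 ≤ a * R)
          linarith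
    · show D.f^[D.τ c] u ∈ S'
      rw [hS']
      have hub : u ∈ ball c D.r0 := by
        rw [mem_ball, dist_eq_norm]
        linarith
      obtain ⟨q1, q2⟩ := D.p1 c hc u hub
      refine ⟨hu3', ?_, ?_⟩
      · show R ^ D.M c / C' ≤ ‖D.f^[D.τ c] u - D.f^[D.τ c] c‖
        rw [div_le_iff₀ hC'0]
        have h3 : R ^ D.M c ≤ (2 * ‖u - c‖) ^ D.M c := pow_le_pow_left₀ hR.le (by linarith) _
        rw [mul_pow] at h3
        have h5 : (2 : ℝ) ^ D.M c ≤ 2 ^ D.Mx := pow_le_pow_right₀ (by norm_num) hM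
        have h6 : (0 : ℝ) ≤ ‖D.f^[D.τ c] u - D.f^[D.τ c] c‖ := norm_nonneg _
        calc R ^ D.M c ≤ 2 ^ D.M c * ‖u - c‖ ^ D.M c := h3
          _ ≤ 2 ^ D.Mx * (D.C * ‖D.f^[D.τ c] u - D.f^[D.τ c] c‖) :=
            mul_le_mul h5 q2 (by positivity) (by positivity)
          _ = ‖D.f^[D.τ c] u - D.f^[D.τ c] c‖ * (D.C * 2 ^ D.Mx) := by ring
          _ ≤ ‖D.f^[D.τ c] u - D.f^[D.τ c] c‖ * C' := mul_le_mul_of_nonneg_left hC'2 h6
      · show ‖D.f^[D.τ c] u - D.f^[D.τ c] c‖ ≤ C' * R ^ D.M c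
        refine q1.trans ?_
        exact mul_le_mul hC'C (pow_le_pow_left₀ (norm_nonneg _) hu2 _) (by positivity) hC'0.le
  refine (measure_mono hsub).trans ((measure_biUnion_finset_le _ _).trans ?_)
  have hone : ∀ ξ ∈ N, volume (ball (c + R * ξ) (a * ‖(c + R * ξ) - c‖) ∩
      (D.f^[D.τ c]) ⁻¹' S') ≤
      ENNReal.ofReal (2 * D.C ^ 2 * 4 ^ D.Mx / R ^ (2 * (D.M c - 1))) * volume S' := by
    intro ξ hξ
    have hξK := ht1 ((hNm ξ).1 hξ)
    have hξ3 : 1 / 2 ≤ ‖ξ‖ := hξK.1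
    have hξ4 : ‖ξ‖ ≤ 1 := hξK.2
    have hnc : ‖(c + R * ξ) - c‖ = R * ‖ξ‖ := by
      rw [add_sub_cancel_left, norm_mul, Complex.norm_real, Real.norm_of_nonneg hR.le]
    have h1 := H c hc (c + R * ξ) (by
      rw [mem_ball, dist_eq_norm, hnc]
      nlinarith) (by
      intro h0
      rw [h0, sub_self, norm_zero] at hnc
      have : 0 < R * ‖ξ‖ := by positivity
      linarith) S' hS'm
    refine h1.trans (mul_le_mul' (ENNReal.ofReal_le_ofReal ?_) le_rfl)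
    rw [hnc, div_le_div_iff₀ (by positivity) (by positivity)]
    have h2 : R ^ (2 * (D.M c - 1)) ≤ 4 ^ D.Mx * (R * ‖ξ‖) ^ (2 * (D.M c - 1)) := by
      have h3 : R ^ (2 * (D.M c - 1)) ≤ (2 * (R * ‖ξ‖)) ^ (2 * (D.M c - 1)) :=
        pow_le_pow_left₀ hR.le (by nlinarith) _
      rw [mul_pow] at h3
      have h5 : (2 : ℝ) ^ (2 * (D.M c - 1)) ≤ 4 ^ D.Mx := by
        rw [pow_mul]
        norm_num
        exact pow_le_pow_right₀ (by norm_num) (by omega)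
      refine h3.trans (mul_le_mul_of_nonneg_right h5 (by positivity))
    have h6 : 0 ≤ 2 * D.C ^ 2 := by positivity
    calc 2 * D.C ^ 2 * R ^ (2 * (D.M c - 1))
        ≤ 2 * D.C ^ 2 * (4 ^ D.Mx * (R * ‖ξ‖) ^ (2 * (D.M c - 1))) :=
          mul_le_mul_of_nonneg_left h2 h6
      _ = _ := by ring
  refine (Finset.sum_le_sum hone).trans ?_
  rw [Finset.sum_const, nsmul_eq_mul, ← mul_assoc]
  refine mul_le_mul' ?_ le_rfl
  rw [← ENNReal.ofReal_natCast, ← ENNReal.ofReal_mul (by positivity)]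
  apply ENNReal.ofReal_le_ofReal
  rw [← mul_div_assoc]
  apply div_le_div_of_nonneg_right _ (by positivity)
  rw [hC']
  have : 0 ≤ 2 * D.C ^ 2 * 4 ^ D.Mx := by positivity
  linarith

end Pool.Agent.H44.DP
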