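import Pool.Agent.H44.DP.BRF

/-!
# Module BRS: inverse branches exist on small discs

PROOFS. `br_small`: `deriv (f^[n]) x ≠ 0` (`it_ne`, `NC`, `J ⊆ thickening δ J`): local inverse `G0` of `f^[n]` at `x` (`HasStrictDerivAt.localInverse` or `toOpenPartialHomeomorph`; `f^[n]` is holomorphic near `x`), holomorphic near `f^[n] x` with `f^[n] (G0 w) = w`, `G0 (f^[n] x) = x`, and `g i = f^[n - i] ∘ G0` on a small ball (all `f^[j] (G0 w)`, `j ≤ n`, are in `G` for `w` near `f^[n] x`, `it_ev` and continuity).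
`mr_ex`: by `br_small` and `br_mono` some `R / 2^p` satisfies `UU`; take the least such `p` (`Nat.find`): `r = R / 2^p`.
-/

set_option autoImplicit false

open Filter Topology Metric Set

namespace Pool.Agent.H44.DP

theorem br_small {D : Ps} {x : ℂ} (hx : NC D x) (n : ℕ) : ∃ r : ℝ, 0 < r ∧ UU D x n r := by
  have hJG : ∀ i, D.f^[i] x ∈ D.G := fun i => D.hU (J_th D (it_J D hx.1 i) D.hδ)
  have hne : deriv (D.f^[n]) x ≠ 0 :=
    it_ne' D (fun i _ => ⟨J_th D (it_J D hx.1 i) D.hδ, hx.2 i⟩)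
  have hev : ∀ᶠ w in 𝓝 x, ∀ i < n + 1, D.f^[i] w ∈ D.G := it_ev D (fun i _ => hJG i)
  have han : AnalyticAt ℂ (D.f^[n]) x := by
    rw [Complex.analyticAt_iff_eventually_differentiableAt]
    filter_upwards [hev] with w hw
    exact it_diff D (fun i hi => hw i (by omega))
  obtain ⟨G0, hG0⟩ : ∃ G0, G0 = han.hasStrictDerivAt.localInverse _ _ _ hne := ⟨_, rfl⟩
  have h1 : AnalyticAt ℂ G0 (D.f^[n] x) := by
    rw [hG0]
    exact han.analyticAt_localInverse hne
  have h2 : G0 (D.f^[n] x) = x := by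
    rw [hG0]
    exact HasStrictFDerivAt.localInverse_apply_image ..
  have h3 : ∀ᶠ w in 𝓝 (D.f^[n] x), D.f^[n] (G0 w) = w := by
    rw [hG0]
    exact han.hasStrictDerivAt.eventually_right_inverse hne
  have h4 : ∀ᶠ w in 𝓝 (D.f^[n] x), ∀ i < n + 1, D.f^[i] (G0 w) ∈ D.G := by
    have := h1.continuousAt
    rw [ContinuousAt, h2] at this
    exact this.eventually hev
  have h5 : ∀ᶠ w in 𝓝 (D.f^[n] x), AnalyticAt ℂ G0 w := h1.eventually_analyticAt
  obtain ⟨ε, hε, hb⟩ := Metric.eventually_nhds_iff_ball.mp (h3.and (h4.and h5))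
  refine ⟨ε, hε, fun i w => D.f^[n - i] (G0 w), ?_⟩
  exact
    { le := le_rfl
      zero := by
        intro w hw
        exact (hb w hw).1
      diff := by
        intro i hi w hw
        have hw' := hb w (brf_one hε i hw)
        have e1 : DifferentiableAt ℂ (D.f^[n - i]) (G0 w) :=
          it_diff D (fun l hl => hw'.2.1 l (by omega))
        exact (e1.comp w hw'.2.2.differentiableAt).differentiableWithinAt
      val := by
        intro i hi
        simp only [h2]
      mem := by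
        intro i hi w hw
        exact (hb w (brf_one hε i hw)).2.1 (n - i) (by omega)
      step := by
        intro i hi w hw
        have e1 : n - i = (n - (i + 1)) + 1 := by omega
        rw [e1, Function.iterate_succ_apply'] }

theorem mr_ex {D : Ps} {x : ℂ} (hx : NC D x) (n : ℕ) {R0 : ℝ} (hR0 : 0 < R0) :
    ∃ r : ℝ, MR D x n R0 r := by
  obtain ⟨R, hRd⟩ : ∃ R, R = R0 * D.dd (D.f^[n] x) := ⟨_, rfl⟩
  have hR : 0 < R := by
    rw [hRd]
    exact mul_pos hR0 (dd_pos D fun h => hx.2 n (pa_S D h))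
  obtain ⟨s, hs, g, hg⟩ := br_small hx n
  have hex : ∃ p : ℕ, UU D x n (R / 2 ^ p) := by
    obtain ⟨p, hp⟩ := pow_unbounded_of_one_lt (R / s) (by norm_num : (1 : ℝ) < 2)
    refine ⟨p, g, br_mono hg (by positivity) ?_ le_rfl⟩
    rw [div_le_iff₀ (by positivity)]
    rw [div_lt_iff₀ hs] at hp
    linarith
  classical
  obtain ⟨p, hp, hmin⟩ : ∃ p, UU D x n (R / 2 ^ p) ∧ ∀ q < p, ¬ UU D x n (R / 2 ^ q) :=
    ⟨Nat.find hex, Nat.find_spec hex, fun q hq => Nat.find_min hex hq⟩
  refine ⟨R / 2 ^ p, by positivity, ?_, hp, ?_⟩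
  all_goals rw [← hRd]
  · exact div_le_self hR.le (one_le_pow₀ (by norm_num))
  · rcases Nat.eq_zero_or_pos p with h | h
    · left
      rw [h, pow_zero, div_one]
    · right
      obtain ⟨q, rfl⟩ : ∃ q, p = q + 1 := ⟨p - 1, by omega⟩
      have e : 2 * (R / 2 ^ (q + 1)) = R / 2 ^ q := by
        rw [pow_succ]
        field_simp
      rw [e]
      exact ⟨div_le_self hR.le (one_le_pow₀ (by norm_num)), hmin q (Nat.lt_succ_self q)⟩

end Pool.Agent.H44.DP
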