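import Pool.Agent.H44.DP.BRF

/-!
# Module BRU: uniqueness of inverse branches

PROOFS. `lift_uniq`: the set `{w ∈ ball y s | h w = h' w}` contains the centre, is closed in the ball (continuity) and open: if `h w = h' w = u` then `deriv f u ≠ 0` (chain rule in `f ∘ h = g` near `w`, `deriv g w ≠ 0`, `f` is differentiable at `u ∈ G`), so `f` is injective near `u` (`HasStrictDerivAt`, `f` is holomorphic on the open `G`), and `f (h w') = g w' = f (h' w')` with
`h w', h' w'` near `u` for `w'` near `w`. The ball is preconnected.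
`br_uniq`: induction on `i` with `lift_uniq` on the smaller one of the two balls (`h = g (i+1)`, `h' = g' (i+1)`, `g = g i`, with `deriv (g i) w ≠ 0` by `br_der`; on the smaller ball `g i = g' i`).
-/

set_option autoImplicit false

open Filter Topology Metric Set

namespace Pool.Agent.H44.DP

theorem lift_uniq {D : Ps} {y : ℂ} {s : ℝ} {g h h' : ℂ → ℂ} (hs : 0 < s)
    (hg : ∀ w ∈ ball y s, deriv g w ≠ 0) (hd : DifferentiableOn ℂ h (ball y s))
    (hd' : DifferentiableOn ℂ h' (ball y s)) (hG : ∀ w ∈ ball y s, h w ∈ D.G ∧ D.f (h w) = g w)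
    (hG' : ∀ w ∈ ball y s, h' w ∈ D.G ∧ D.f (h' w) = g w) (h0 : h y = h' y) :
    ∀ w ∈ ball y s, h w = h' w := by
  have hy : y ∈ ball y s := mem_ball_self hs
  have hfa : AnalyticAt ℂ D.f (h y) :=
    D.hf.analyticAt (D.hG.mem_nhds (hG y hy).1)
  have h1 : DifferentiableAt ℂ h y := hd.differentiableAt (isOpen_ball.mem_nhds hy)
  have h1' : DifferentiableAt ℂ h' y := hd'.differentiableAt (isOpen_ball.mem_nhds hy)
  have hne : deriv D.f (h y) ≠ 0 := by
    intro hz
    apply hg y hy
    have h2 : (D.f ∘ h) =ᶠ[𝓝 y] g := by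
      filter_upwards [isOpen_ball.mem_nhds hy] with z hz
      exact (hG z hz).2
    rw [← h2.deriv_eq, deriv_comp y hfa.differentiableAt h1, hz, zero_mul]
  have hL := hfa.hasStrictDerivAt.eventually_left_inverse hne
  have hev : h =ᶠ[𝓝 y] h' := by
    have e1 := h1.continuousAt.eventually hL
    have e2 : ∀ᶠ z in 𝓝 y, hfa.hasStrictDerivAt.localInverse _ _ _ hne (D.f (h' z)) = h' z := by
      have := h1'.continuousAt
      rw [ContinuousAt, ← h0] at this
      exact this.eventually hL
    filter_upwards [e1, e2, isOpen_ball.mem_nhds hy] with z hz1 hz2 hz3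
    rw [← hz1, ← hz2, (hG z hz3).2, (hG' z hz3).2]
  have ha : AnalyticOnNhd ℂ h (ball y s) := hd.analyticOnNhd isOpen_ball
  have ha' : AnalyticOnNhd ℂ h' (ball y s) := hd'.analyticOnNhd isOpen_ball
  exact ha.eqOn_of_preconnected_of_eventuallyEq ha' (convex_ball y s).isPreconnected hy hev

theorem br_uniq {D : Ps} {x : ℂ} {n k k' : ℕ} {r r' : ℝ} {g g' : ℕ → ℂ → ℂ} (h : Br D x n k r g)
    (h' : Br D x n k' r' g') (hr : 0 < r) (hr' : 0 < r') {i : ℕ} (hi : i ≤ k) (hi' : i ≤ k') {w : ℂ}
    (hw : w ∈ ball (D.f^[n] x) (r * Del i)) (hw' : w ∈ ball (D.f^[n] x) (r' * Del i)) :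
    g i w = g' i w := by
  have hD : ∀ j, 0 < Del j := fun j => by linarith [del_half j]
  have hm : ∀ j, min (r * Del j) (r' * Del j) ≤ r * Del j := fun j => min_le_left _ _
  have hm' : ∀ j, min (r * Del j) (r' * Del j) ≤ r' * Del j := fun j => min_le_right _ _
  have key : ∀ j, j ≤ k → j ≤ k' → ∀ z ∈ ball (D.f^[n] x) (min (r * Del j) (r' * Del j)),
      g j z = g' j z := by
    intro j
    induction j with
    | zero =>
      intro _ _ z hz
      rw [h.zero z (brf_one hr 0 (ball_subset_ball (hm 0) hz)),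
        h'.zero z (brf_one hr' 0 (ball_subset_ball (hm' 0) hz))]
    | succ j ih =>
      intro hj hj'
      have hpos : 0 < min (r * Del (j + 1)) (r' * Del (j + 1)) :=
        lt_min (mul_pos hr (hD _)) (mul_pos hr' (hD _))
      have hsub : ball (D.f^[n] x) (min (r * Del (j + 1)) (r' * Del (j + 1))) ⊆
          ball (D.f^[n] x) (min (r * Del j) (r' * Del j)) := by
        apply ball_subset_ball
        apply le_min
        · exact (hm (j + 1)).trans (mul_le_mul_of_nonneg_left (del_anti (Nat.le_succ j)) hr.le)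
        · exact (hm' (j + 1)).trans (mul_le_mul_of_nonneg_left (del_anti (Nat.le_succ j)) hr'.le)
      have hE := ih (by omega) (by omega)
      refine lift_uniq (D := D) (g := g j) hpos ?_ ?_ ?_ ?_ ?_ ?_
      · intro z hz
        have h2 := br_der h hr (i := j) (by omega)
          (brf_sub hr (Nat.le_succ j) (ball_subset_ball (hm (j + 1)) hz))
        intro h3
        rw [h3, mul_zero] at h2
        exact zero_ne_one h2
      · exact (h.diff (j + 1) hj).mono (ball_subset_ball (hm (j + 1)))
      · exact (h'.diff (j + 1) hj').mono (ball_subset_ball (hm' (j + 1)))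
      · intro z hz
        exact ⟨h.mem (j + 1) hj z (ball_subset_ball (hm (j + 1)) hz),
          h.step j (by omega) z (ball_subset_ball (hm (j + 1)) hz)⟩
      · intro z hz
        refine ⟨h'.mem (j + 1) hj' z (ball_subset_ball (hm' (j + 1)) hz), ?_⟩
        rw [h'.step j (by omega) z (ball_subset_ball (hm' (j + 1)) hz)]
        exact (hE z (hsub hz)).symm
      · rw [h.val (j + 1) hj, h'.val (j + 1) hj']
  apply key i hi hi'
  rw [mem_ball] at hw hw' ⊢
  exact lt_min hw hw'

end Pool.Agent.H44.DP
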