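import Pool.Agent.H44.DP.APA

/-!
# Module CLL: points close to a landing critical point

PROOF. `z1'` from `apa`, `r1` from `phi_near`, `c_w` from `wt_near`, `χ = κ / 2`, `T` an upper bound of `τ` on `S`. Let `ζ = ‖x - c‖`, `τ = τ c`, `p = f^[τ] c ∈ Pa` (`D.hτl`), `u_j = f^[τ + j] x`, `a_j = ‖u_j - p‖`, `S_j = TT u_0 j`.
`ζ ^ M / C ≤ a_0 ≤ C ζ ^ M` (`D.p1`). (1) `A0 := ‖deriv (f^[τ]) x‖ * ph x / ph u_0 ≥ 1 / C ^ 2`: `‖deriv (f^[τ]) x‖ ≥ ζ ^ (M - 1) / C` (`D.p2`), `ph x = ζ ^ (1 - α M)`, `ph u_0 ≤ a_0 ^ (1 - α) ≤ C ζ ^ (M (1 - α))`.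
(2) Choose `T0 ≥ 1` with `exp (κ T0) ≥ C ^ 2 * C * exp (χ (T + T0 + 1))` and put `T1 = T + T0 + 1`, `z1 ≤ z1', r1` so small that `C z1 ^ M * exp (C (T0 + 1) / c_w) ≤ z1'` (`M ≥ 1`, `z1 ≤ 1`). CLAIM: if `S_j ≤ T0 + 1` and `u_i ∈ V` for `i < j` then `a_j ≤ z1'`, `a_j > 0`, `a_0 ≤ a_j`, `1 ≤ ‖deriv (f^[j]) u_0‖` and
`exp (κ S_j) * ph u_j ≤ ‖deriv (f^[j]) u_0‖ * ph u_0`: induction on `j` with `apa` at `u_(j-1)`; the bound `a_j ≤ z1'`: `a_(i+1) ≤ a_i * exp (C a_i ^ q)` (`D.b1`) and `a_i ^ q ≤ wt u_i / c_w` (`wt_near`), so `a_j ≤ a_0 * exp ((C / c_w) S_j)` (include this in the claim).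
(3) Let `k` be given. If some `j` with `τ + j ≤ k` has `T0 ≤ S_j`, take the least one: `j ≥ 1`, `S_j ≤ S_(j-1) + 1 ≤ T0 + 1` (`wt ≤ 1`); `l = τ + j`: `TT x l = TT x τ + S_j ≤ T1`, growth: `‖deriv (f^[l]) x‖ ph x = ‖deriv (f^[j]) u_0‖ * (A0 * ph u_0) ≥ (1 / C^2) exp (κ S_j) ph u_l ≥ C * exp (χ TT x l) * ph (f^[l] x)` (`S_j ≥ T0`; write `κ S_j ≥ κ T0`,
`TT x l ≤ T + T0 + 1`). tt: `tt x = ζ ^ M ≤ C a_0 ≤ C a_j = C tt (f^[l] x)` and `(‖deriv‖ ph x) ^ (2 Mx) ≥ (C ph (f^[l] x)) ^ (2 Mx) ≥ C ph (f^[l] x) ^ (2 Mx)` (`2 Mx ≥ 1`: `Mx ≥ M c ≥ 1`).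
Otherwise `l = k + 1`: `TT x (k + 1) ≤ τ + S_(k - τ) + 1 ≤ T1` if `τ ≤ k`, and `≤ k + 1 ≤ T` if `k < τ`.
(4) Derivatives and positions for `j ≤ min l (k + 1)`: for `i ≤ τ`: `ζ ^ (M - 1) ≤ C ‖deriv (f^[τ]) x‖ ≤ C L ^ T ‖deriv (f^[i]) x‖` (`it_add`, `it_bd`, `D.p4`), for `τ + j`: `≥ ‖deriv (f^[τ]) x‖` by (2) (`S_j ≤ T0 + 1`). So `≥ ζ ^ (Mx + 1)` for small `z1`. `f^[τ + j] x ∈ ball p (δ / 4)`: `z1' ≤ r0 / 2 < δ / 4`.
-/

set_option autoImplicit false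

open Filter Topology Metric Set

namespace Pool.Agent.H44.DP

private theorem cll_VG (D : Ps) {z : ℂ} (hz : z ∈ D.V) : z ∈ D.G :=
  D.hU (thickening_mono (by linarith [D.hδ]) _ (D.hV hz))

private theorem cll_chain (D : Ps) {z1 cw T0 : ℝ} (hz1 : z1 ≤ D.r0 / 2) (hcw : 0 < cw)
    (happ : ∀ p ∈ D.Pa, ∀ z ∈ D.V, 0 < ‖z - p‖ → ‖z - p‖ ≤ z1 →
      Real.exp (D.κ * D.wt z) * D.ph (D.f z) ≤ ‖deriv D.f z‖ * D.ph z ∧
      1 ≤ ‖deriv D.f z‖ ∧ ‖z - p‖ ≤ ‖D.f z - p‖ ∧ ‖D.f z - p‖ ≤ 2 * ‖z - p‖ ∧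
      D.tt z = ‖z - p‖ ∧ D.tt (D.f z) = ‖D.f z - p‖)
    (hwt : ∀ p ∈ D.Pa, ∀ z : ℂ, ‖z - p‖ ≤ D.r0 → cw * ‖z - p‖ ^ D.qp p ≤ D.wt z)
    {p u : ℂ} (hp : p ∈ D.Pa) (hu0 : 0 < ‖u - p‖)
    (hu1 : ‖u - p‖ * Real.exp (D.C / cw * (T0 + 1)) ≤ z1) :
    ∀ j : ℕ, D.TT u j ≤ T0 + 1 → (∀ i < j, D.f^[i] u ∈ D.V) →
      ‖D.f^[j] u - p‖ ≤ ‖u - p‖ * Real.exp (D.C / cw * D.TT u j) ∧
      ‖u - p‖ ≤ ‖D.f^[j] u - p‖ ∧ 1 ≤ ‖deriv (D.f^[j]) u‖ ∧
      Real.exp (D.κ * D.TT u j) * D.ph (D.f^[j] u) ≤ ‖deriv (D.f^[j]) u‖ * D.ph u := by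
  have hC := D.hC
  have hr0 := D.hr0
  have hCc : 0 ≤ D.C / cw := by positivity
  intro j
  induction j with
  | zero =>
    intro _ _
    have h1 : D.f^[0] = id := rfl
    rw [TT_zero, mul_zero, mul_zero, Real.exp_zero, h1, deriv_id]
    simp
  | succ j ih =>
    intro hT hV
    rw [TT_succ] at hT ⊢
    have hw0 := wt_nonneg D (D.f^[j] u)
    have hTj : D.TT u j ≤ T0 + 1 := by linarith
    obtain ⟨i1, i2, i3, i4⟩ := ih hTj fun i hi => hV i (Nat.lt_succ_of_lt hi)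
    have hVj : D.f^[j] u ∈ D.V := hV j (Nat.lt_succ_self j)
    have ha0 : 0 < ‖D.f^[j] u - p‖ := hu0.trans_le i2
    have ha1 : ‖D.f^[j] u - p‖ ≤ z1 := by
      refine i1.trans (le_trans ?_ hu1)
      refine mul_le_mul_of_nonneg_left ?_ (norm_nonneg _)
      exact Real.exp_le_exp.2 (mul_le_mul_of_nonneg_left hTj hCc)
    obtain ⟨g1, g2, g3, -, -, -⟩ := happ p hp _ hVj ha0 ha1
    have hball : D.f^[j] u ∈ ball p D.r0 := by
      rw [mem_ball, dist_eq_norm]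
      linarith
    have hb1 := D.b1 p hp _ hball
    have hw := hwt p hp (D.f^[j] u) (by linarith)
    have hder : deriv (D.f^[j + 1]) u = deriv D.f (D.f^[j] u) * deriv (D.f^[j]) u :=
      it_succ D fun i hi => cll_VG D (hV i hi)
    rw [Function.iterate_succ_apply']
    refine ⟨?_, i2.trans g3, ?_, ?_⟩
    · have e1 : D.C * ‖D.f^[j] u - p‖ ^ D.qp p ≤ D.C / cw * D.wt (D.f^[j] u) := by
        rw [div_mul_eq_mul_div, le_div_iff₀ hcw]
        have := mul_le_mul_of_nonneg_left hw (by linarith : 0 ≤ D.C)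
        linarith
      calc ‖D.f (D.f^[j] u) - p‖ ≤ ‖D.f^[j] u - p‖ *
            Real.exp (D.C * ‖D.f^[j] u - p‖ ^ D.qp p) := hb1
        _ ≤ (‖u - p‖ * Real.exp (D.C / cw * D.TT u j)) *
            Real.exp (D.C / cw * D.wt (D.f^[j] u)) :=
          mul_le_mul i1 (Real.exp_le_exp.2 e1) (Real.exp_pos _).le (by positivity)
        _ = ‖u - p‖ * Real.exp (D.C / cw * (D.TT u j + D.wt (D.f^[j] u))) := by
          rw [mul_assoc, ← Real.exp_add]
          congr 2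
          ring
    · rw [hder, norm_mul]
      calc (1 : ℝ) = 1 * 1 := by norm_num
        _ ≤ ‖deriv D.f (D.f^[j] u)‖ * ‖deriv (D.f^[j]) u‖ :=
          mul_le_mul g2 i3 zero_le_one (by positivity)
    · rw [hder, norm_mul]
      calc Real.exp (D.κ * (D.TT u j + D.wt (D.f^[j] u))) * D.ph (D.f (D.f^[j] u))
          = Real.exp (D.κ * D.TT u j) *
            (Real.exp (D.κ * D.wt (D.f^[j] u)) * D.ph (D.f (D.f^[j] u))) := by
            rw [mul_add, Real.exp_add]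
            ring
        _ ≤ Real.exp (D.κ * D.TT u j) * (‖deriv D.f (D.f^[j] u)‖ * D.ph (D.f^[j] u)) :=
          mul_le_mul_of_nonneg_left g1 (Real.exp_pos _).le
        _ = ‖deriv D.f (D.f^[j] u)‖ *
            (Real.exp (D.κ * D.TT u j) * D.ph (D.f^[j] u)) := by ring
        _ ≤ ‖deriv D.f (D.f^[j] u)‖ * (‖deriv (D.f^[j]) u‖ * D.ph u) :=
          mul_le_mul_of_nonneg_left i4 (norm_nonneg _)
        _ = _ := by ring

theorem cll (D : Ps) : ∃ (χ z1 T1 : ℝ) (N2 : ℕ), 0 < χ ∧ 0 < z1 ∧ z1 ≤ D.r0 ∧ z1 ≤ 1 / 2 ∧ 0 < T1 ∧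
    ∀ c ∈ D.Cl, ∀ x : ℂ, 0 < ‖x - c‖ → ‖x - c‖ ≤ z1 → ∀ k : ℕ, (∀ i ≤ k, D.f^[i] x ∈ D.V) →
      ∃ l : ℕ, 1 ≤ l ∧ l ≤ k + 1 ∧ D.TT x l ≤ T1 ∧
        (∀ j ≤ l, ‖x - c‖ ^ N2 ≤ ‖deriv (D.f^[j]) x‖ ∧ D.f^[j] x ∈ thickening (D.δ / 4) D.J) ∧
        (l ≤ k → Real.exp (χ * D.TT x l) * D.ph (D.f^[l] x) ≤ ‖deriv (D.f^[l]) x‖ * D.ph x ∧
          D.tt x * D.ph (D.f^[l] x) ^ (2 * D.Mx) ≤
            (‖deriv (D.f^[l]) x‖ * D.ph x) ^ (2 * D.Mx) * D.tt (D.f^[l] x)) := by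
  obtain ⟨z1', hz0', hz1', -, happ⟩ := apa D
  obtain ⟨r1, κ1, hr10, hr11, -, -, -, hnear, -⟩ := phi_near D
  obtain ⟨cw, hcw0, -, hwt⟩ := wt_near D
  have hC := D.hC
  have hC0 : 0 < D.C := by linarith
  have hL := D.hL
  have hr0 := D.hr0
  have hκ := D.hκ
  obtain ⟨T, hT⟩ : ∃ T : ℕ, T = ∑ c ∈ D.Cl, D.τ c := ⟨_, rfl⟩
  have hτT : ∀ c ∈ D.Cl, D.τ c ≤ T := by
    intro c hc
    rw [hT]
    exact Finset.single_le_sum (f := fun c => D.τ c) (fun _ _ => Nat.zero_le _) hc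
  have hlogC : 0 ≤ Real.log D.C := Real.log_nonneg hC
  obtain ⟨T0, hT0⟩ : ∃ T0 : ℝ, T0 = 6 * Real.log D.C / D.κ + T + 1 := ⟨_, rfl⟩
  have hTn : (0 : ℝ) ≤ T := Nat.cast_nonneg T
  have hT01 : 1 ≤ T0 := by
    rw [hT0]
    have : 0 ≤ 6 * Real.log D.C / D.κ := by positivity
    linarith
  have hexpT0 : D.C ^ 3 * Real.exp (D.κ / 2 * (T + T0 + 1)) ≤ Real.exp (D.κ * T0) := by
    have h1 : D.C ^ 3 = Real.exp (3 * Real.log D.C) := by
      rw [mul_comm, Real.exp_mul, Real.exp_log hC0]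
      norm_cast
    rw [h1, ← Real.exp_add]
    apply Real.exp_le_exp.2
    have h2 : D.κ * T0 = 6 * Real.log D.C + D.κ * T + D.κ := by
      rw [hT0]
      field_simp
    have h3 : D.κ / 2 * (T + T0 + 1) = D.κ / 2 * T + D.κ * T0 / 2 + D.κ / 2 := by ring
    rw [h3]
    linarith
  obtain ⟨E, hE⟩ : ∃ E : ℝ, E = Real.exp (D.C / cw * (T0 + 1)) := ⟨_, rfl⟩
  have hE0 : 0 < E := by
    rw [hE]
    exact Real.exp_pos _
  have hLT : 0 < D.C * D.L ^ T := by positivity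
  obtain ⟨z1, hz1⟩ : ∃ z1 : ℝ, z1 = min (min (min (D.r0 / 2) (1 / 2)) (min r1 (1 / (D.C * D.L ^ T))))
    (z1' / (D.C * E)) := ⟨_, rfl⟩
  have hz10 : 0 < z1 := by
    rw [hz1]
    refine lt_min (lt_min (lt_min (by positivity) (by norm_num)) (lt_min hr10 (by positivity))) ?_
    positivity
  have hza : z1 ≤ D.r0 / 2 := by
    rw [hz1]
    exact ((min_le_left _ _).trans (min_le_left _ _)).trans (min_le_left _ _)
  have hzb : z1 ≤ 1 / 2 := by
    rw [hz1]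
    exact ((min_le_left _ _).trans (min_le_left _ _)).trans (min_le_right _ _)
  have hzc : z1 ≤ r1 := by
    rw [hz1]
    exact ((min_le_left _ _).trans (min_le_right _ _)).trans (min_le_left _ _)
  have hzd : z1 ≤ 1 / (D.C * D.L ^ T) := by
    rw [hz1]
    exact ((min_le_left _ _).trans (min_le_right _ _)).trans (min_le_right _ _)
  have hze : z1 ≤ z1' / (D.C * E) := by
    rw [hz1]
    exact min_le_right _ _
  refine ⟨D.κ / 2, z1, T + T0 + 1, D.Mx + 1, by positivity, hz10, by linarith, hzb, by linarith, ?_⟩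
  intro c hc x hx0 hx1 k hV
  have hcCr := cl_Cr D hc
  have hcS := cl_S D hc
  obtain ⟨ζ, hζ⟩ : ∃ ζ, ζ = ‖x - c‖ := ⟨_, rfl⟩
  obtain ⟨p, hpd⟩ : ∃ p, p = D.f^[D.τ c] c := ⟨_, rfl⟩
  have hp : p ∈ D.Pa := by
    rw [hpd]
    exact D.hτl c hc
  obtain ⟨u, hud⟩ : ∃ u, u = D.f^[D.τ c] x := ⟨_, rfl⟩
  have hxb : x ∈ ball c D.r0 := by
    rw [mem_ball, dist_eq_norm]
    linarith
  have hM1 : 1 ≤ D.M c := M_pos D hcS
  obtain ⟨hp1a, hp1b⟩ := D.p1 c hcCr x hxb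
  obtain ⟨-, hp2b⟩ := D.p2 c hcCr x hxb
  rw [← hud, ← hpd, ← hζ] at hp1a hp1b
  rw [← hζ] at hx0 hx1 hp2b
  have hζ1 : ζ ≤ 1 := by linarith
  have hu0 : 0 < ‖u - p‖ := by
    have h1 : 0 < D.C * ‖u - p‖ := (pow_pos hx0 _).trans_le hp1b
    by_contra h2
    rw [not_lt] at h2
    have h3 := mul_nonpos_of_nonneg_of_nonpos hC0.le h2
    linarith
  have hu1 : ‖u - p‖ * Real.exp (D.C / cw * (T0 + 1)) ≤ z1' := by
    rw [← hE]
    have h1 : ζ ^ D.M c ≤ z1 := (pow_le_of_le_one hx0.le hζ1 (by omega)).trans hx1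
    calc ‖u - p‖ * E ≤ (D.C * z1) * E := by
          refine mul_le_mul_of_nonneg_right ?_ hE0.le
          exact hp1a.trans (mul_le_mul_of_nonneg_left h1 hC0.le)
      _ = z1 * (D.C * E) := by ring
      _ ≤ z1' := by
        rw [le_div_iff₀ (by positivity)] at hze
        exact hze
  have hchain := cll_chain D (T0 := T0) hz1' hcw0 happ hwt hp hu0 hu1
  have hiter : ∀ i, D.f^[i] u = D.f^[D.τ c + i] x := by
    intro i
    rw [hud, ← Function.iterate_add_apply, add_comm]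
  -- membership in `G`
  have hthG : ∀ z ∈ thickening (D.δ / 4) D.J, z ∈ D.G := fun z hz =>
    D.hU (thickening_mono (by linarith [D.hδ]) _ hz)
  have hGx : ∀ i ≤ k, D.f^[i] x ∈ D.G := fun i hi => cll_VG D (hV i hi)
  have hGτ : ∀ i ≤ D.τ c, D.f^[i] x ∈ D.G := fun i hi => hthG _ (D.p4 c hcCr x hxb i hi)
  have hsplit : ∀ i, D.τ c + i ≤ k + 1 →
      deriv (D.f^[D.τ c + i]) x = deriv (D.f^[i]) u * deriv (D.f^[D.τ c]) x := by
    intro i hi
    rw [hud]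
    exact it_add D fun a ha => hGx a (by omega)
  have hderτ : ζ ^ (D.M c - 1) ≤ D.C * ‖deriv (D.f^[D.τ c]) x‖ := hp2b
  -- lower bounds
  have hlow : ∀ a : ℝ, ζ ^ (D.M c - 1) ≤ D.C * D.L ^ T * a → ζ ^ (D.Mx + 1) ≤ a := by
    intro a ha
    have h1 : D.M c ≤ D.Mx := by
      unfold Ps.Mx
      exact Finset.single_le_sum (f := fun c => D.M c) (fun _ _ => Nat.zero_le _) hcS
    have h2 : ζ ^ (D.Mx + 1) ≤ ζ ^ (D.M c) :=
      pow_le_pow_of_le_one hx0.le hζ1 (by omega)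
    have h3 : ζ ^ (D.M c) = ζ * ζ ^ (D.M c - 1) := by
      rw [← pow_succ']
      congr 1
      omega
    have h4 : ζ ≤ 1 / (D.C * D.L ^ T) := hx1.trans hzd
    rw [le_div_iff₀ hLT] at h4
    have ha0 : 0 ≤ a := by
      have h5 : 0 < D.C * D.L ^ T * a := (pow_pos hx0 _).trans_le ha
      by_contra h6
      rw [not_le] at h6
      have h7 := mul_neg_of_pos_of_neg hLT h6
      linarith
    calc ζ ^ (D.Mx + 1) ≤ ζ * ζ ^ (D.M c - 1) := h2.trans h3.le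
      _ ≤ ζ * (D.C * D.L ^ T * a) := mul_le_mul_of_nonneg_left ha hx0.le
      _ = (ζ * (D.C * D.L ^ T)) * a := by ring
      _ ≤ 1 * a := mul_le_mul_of_nonneg_right h4 ha0
      _ = a := one_mul a
  have hpos1 : ∀ j ≤ D.τ c, ζ ^ (D.Mx + 1) ≤ ‖deriv (D.f^[j]) x‖ ∧
      D.f^[j] x ∈ thickening (D.δ / 4) D.J := by
    intro j hj
    refine ⟨hlow _ ?_, D.p4 c hcCr x hxb j hj⟩
    refine hderτ.trans ?_
    have h1 : D.f^[D.τ c] = D.f^[j + (D.τ c - j)] := by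
      congr 1
      omega
    have h2 : deriv (D.f^[D.τ c]) x =
        deriv (D.f^[D.τ c - j]) (D.f^[j] x) * deriv (D.f^[j]) x := by
      rw [h1]
      exact it_add D fun a ha => hGτ a (by omega)
    have h3 : ‖deriv (D.f^[D.τ c - j]) (D.f^[j] x)‖ ≤ D.L ^ (D.τ c - j) := by
      refine it_bd D fun a ha => ?_
      rw [← Function.iterate_add_apply]
      exact thickening_mono (by linarith [D.hδ]) _ (D.p4 c hcCr x hxb _ (by omega))
    have h4 : D.L ^ (D.τ c - j) ≤ D.L ^ T :=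
      pow_le_pow_right₀ hL (by have := hτT c hc; omega)
    rw [h2, norm_mul, mul_assoc]
    refine mul_le_mul_of_nonneg_left ?_ hC0.le
    exact mul_le_mul_of_nonneg_right (h3.trans h4) (norm_nonneg _)
  have hpos2 : ∀ i, D.τ c + i ≤ k + 1 → D.TT u i ≤ T0 + 1 →
      ζ ^ (D.Mx + 1) ≤ ‖deriv (D.f^[D.τ c + i]) x‖ ∧
      D.f^[D.τ c + i] x ∈ thickening (D.δ / 4) D.J := by
    intro i hi hTi
    obtain ⟨h1, -, h3, -⟩ := hchain i hTi fun a ha => by
      rw [hiter]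
      exact hV _ (by omega)
    constructor
    · apply hlow
      refine hderτ.trans ?_
      rw [hsplit i hi, norm_mul, mul_assoc]
      refine mul_le_mul_of_nonneg_left ?_ hC0.le
      calc ‖deriv (D.f^[D.τ c]) x‖ = 1 * (1 * ‖deriv (D.f^[D.τ c]) x‖) := by ring
        _ ≤ D.L ^ T * (‖deriv (D.f^[i]) u‖ * ‖deriv (D.f^[D.τ c]) x‖) := by
          refine mul_le_mul (one_le_pow₀ hL) ?_ (by positivity) (by positivity)
          exact mul_le_mul_of_nonneg_right h3 (norm_nonneg _)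
    · rw [← hiter, mem_thickening_iff]
      refine ⟨p, D.hSJ p (pa_S D hp), ?_⟩
      rw [dist_eq_norm]
      have h4 : ‖D.f^[i] u - p‖ ≤ z1' := by
        refine h1.trans (le_trans ?_ hu1)
        refine mul_le_mul_of_nonneg_left ?_ (norm_nonneg _)
        exact Real.exp_le_exp.2 (mul_le_mul_of_nonneg_left hTi (by positivity))
      have h5 := D.hr1
      linarith
  have hpos : ∀ l ≤ k + 1, (l ≤ D.τ c ∨ D.TT u (l - D.τ c) ≤ T0 + 1) → ∀ j ≤ l,
      ζ ^ (D.Mx + 1) ≤ ‖deriv (D.f^[j]) x‖ ∧ D.f^[j] x ∈ thickening (D.δ / 4) D.J := by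
    intro l hl hl2 j hj
    rcases le_or_gt j (D.τ c) with h1 | h1
    · exact hpos1 j h1
    · rcases hl2 with h2 | h2
      · omega
      · have h3 : j = D.τ c + (j - D.τ c) := by omega
        rw [h3]
        refine hpos2 _ (by omega) ((TT_mono D u ?_).trans h2)
        omega
  have hTTτ : D.TT x (D.τ c) ≤ T := by
    refine (TT_le D x _).trans ?_
    exact_mod_cast hτT c hc
  have hTTadd : ∀ i, D.TT x (D.τ c + i) = D.TT x (D.τ c) + D.TT u i := by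
    intro i
    rw [TT_add, hud]
  rw [← hζ]
  by_cases hex : ∃ j, D.τ c + j ≤ k ∧ T0 ≤ D.TT u j
  · classical
    obtain ⟨j, ⟨hjk, hjT⟩, hjmin⟩ : ∃ j, (D.τ c + j ≤ k ∧ T0 ≤ D.TT u j) ∧
        ∀ i < j, ¬ (D.τ c + i ≤ k ∧ T0 ≤ D.TT u i) :=
      ⟨Nat.find hex, Nat.find_spec hex, fun i hi => Nat.find_min hex hi⟩
    have hj1 : 1 ≤ j := by
      rcases Nat.eq_zero_or_pos j with h | h
      · rw [h, TT_zero] at hjT
        linarith
      · exact h
    have hjT1 : D.TT u j ≤ T0 + 1 := by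
      obtain ⟨i, rfl⟩ : ∃ i, j = i + 1 := ⟨j - 1, by omega⟩
      have h1 := hjmin i (Nat.lt_succ_self i)
      have h2 : D.TT u i < T0 := by
        by_contra h3
        rw [not_lt] at h3
        exact h1 ⟨by omega, h3⟩
      rw [TT_succ]
      have := wt_le_one D (D.f^[i] u)
      linarith
    obtain ⟨c1, c2, c3, c4⟩ := hchain j hjT1 fun a ha => by
      rw [hiter]
      exact hV _ (by omega)
    have hTl : D.TT x (D.τ c + j) ≤ T + T0 + 1 := by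
      rw [hTTadd]
      linarith
    refine ⟨D.τ c + j, by omega, by omega, hTl, ?_, fun _ => ?_⟩
    · exact hpos _ (by omega) (Or.inr (by rw [Nat.add_sub_cancel_left]; exact hjT1))
    · -- growth
      have hphx : D.ph x = ζ ^ (1 - D.al * (D.M c : ℝ)) := by
        have h1 := (hnear c hcS x (by rw [← hζ]; linarith)).2.1
        rw [h1, ← hζ]
      have httx : D.tt x = ζ ^ D.M c := by
        have h1 := (hnear c hcS x (by rw [← hζ]; linarith)).2.2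
        rw [h1, ← hζ]
      have hal := al_pos D
      have hal2 := al_le D (pa_S D hp)
      rw [D.hMp p hp, Nat.cast_one, mul_one] at hal2
      have hphu : D.ph u ≤ D.C ^ 2 * (‖deriv (D.f^[D.τ c]) x‖ * D.ph x) := by
        have h1 := ph_le D (pa_S D hp) u
        rw [D.hMp p hp, Nat.cast_one, mul_one] at h1
        have h2 : ‖u - p‖ ^ (1 - D.al) ≤ (D.C * ζ ^ D.M c) ^ (1 - D.al) :=
          Real.rpow_le_rpow (norm_nonneg _) hp1a (by linarith)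
        have h3 : (D.C * ζ ^ D.M c) ^ (1 - D.al) =
            D.C ^ (1 - D.al) * ζ ^ ((D.M c : ℝ) * (1 - D.al)) := by
          rw [Real.mul_rpow hC0.le (pow_nonneg hx0.le _), ← Real.rpow_natCast ζ,
            ← Real.rpow_mul hx0.le]
        have h4 : D.C ^ (1 - D.al) ≤ D.C := by
          calc D.C ^ (1 - D.al) ≤ D.C ^ (1 : ℝ) :=
                Real.rpow_le_rpow_of_exponent_le hC (by linarith)
            _ = D.C := Real.rpow_one _
        have h5 : ζ ^ ((D.M c : ℝ) * (1 - D.al)) = ζ ^ (D.M c - 1) * D.ph x := by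
          rw [hphx, ← Real.rpow_natCast ζ (D.M c - 1), ← Real.rpow_add hx0]
          congr 1
          rw [Nat.cast_sub hM1]
          push_cast
          ring
        have hphx0 := ph_nonneg D x
        calc D.ph u ≤ D.C ^ (1 - D.al) * ζ ^ ((D.M c : ℝ) * (1 - D.al)) :=
              (h1.trans h2).trans h3.le
          _ ≤ D.C * ζ ^ ((D.M c : ℝ) * (1 - D.al)) :=
            mul_le_mul_of_nonneg_right h4 (Real.rpow_nonneg hx0.le _)
          _ = D.C * (ζ ^ (D.M c - 1) * D.ph x) := by rw [h5]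
          _ ≤ D.C * ((D.C * ‖deriv (D.f^[D.τ c]) x‖) * D.ph x) :=
            mul_le_mul_of_nonneg_left (mul_le_mul_of_nonneg_right hderτ hphx0) hC0.le
          _ = _ := by ring
      obtain ⟨A, hA⟩ : ∃ A, A = ‖deriv (D.f^[D.τ c + j]) x‖ * D.ph x := ⟨_, rfl⟩
      have hAeq : A = ‖deriv (D.f^[j]) u‖ * (‖deriv (D.f^[D.τ c]) x‖ * D.ph x) := by
        rw [hA, hsplit j (by omega), norm_mul]
        ring
      obtain ⟨φ, hφ⟩ : ∃ φ, φ = D.ph (D.f^[D.τ c + j] x) := ⟨_, rfl⟩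
      have hφ0 : 0 ≤ φ := by
        rw [hφ]
        exact ph_nonneg D _
      rw [hiter, ← hφ] at c4
      rw [← hA, ← hφ]
      have hmain : D.C * (Real.exp (D.κ / 2 * D.TT x (D.τ c + j)) * φ) ≤ A := by
        have h1 : D.C ^ 3 * Real.exp (D.κ / 2 * D.TT x (D.τ c + j)) ≤
            Real.exp (D.κ * D.TT u j) := by
          refine le_trans ?_ (hexpT0.trans ?_)
          · refine mul_le_mul_of_nonneg_left ?_ (by positivity)
            exact Real.exp_le_exp.2 (mul_le_mul_of_nonneg_left hTl (by positivity))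
          · exact Real.exp_le_exp.2 (mul_le_mul_of_nonneg_left hjT hκ.le)
        have h2 : D.C ^ 3 * Real.exp (D.κ / 2 * D.TT x (D.τ c + j)) * φ ≤ D.C ^ 2 * A := by
          calc _ ≤ Real.exp (D.κ * D.TT u j) * φ := mul_le_mul_of_nonneg_right h1 hφ0
            _ ≤ ‖deriv (D.f^[j]) u‖ * D.ph u := c4
            _ ≤ ‖deriv (D.f^[j]) u‖ * (D.C ^ 2 * (‖deriv (D.f^[D.τ c]) x‖ * D.ph x)) :=
              mul_le_mul_of_nonneg_left hphu (norm_nonneg _)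
            _ = D.C ^ 2 * A := by
              rw [hAeq]
              ring
        have h3 : D.C ^ 2 * (D.C * (Real.exp (D.κ / 2 * D.TT x (D.τ c + j)) * φ)) ≤
            D.C ^ 2 * A := by
          calc _ = D.C ^ 3 * Real.exp (D.κ / 2 * D.TT x (D.τ c + j)) * φ := by ring
            _ ≤ _ := h2
        exact le_of_mul_le_mul_left h3 (by positivity)
      have hexp1 : 1 ≤ Real.exp (D.κ / 2 * D.TT x (D.τ c + j)) :=
        Real.one_le_exp (mul_nonneg (by positivity) (TT_nonneg D x _))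
      have hEφ : φ ≤ Real.exp (D.κ / 2 * D.TT x (D.τ c + j)) * φ :=
        le_mul_of_one_le_left hφ0 hexp1
      constructor
      · refine le_trans ?_ hmain
        exact le_mul_of_one_le_left (by positivity) hC
      · have httu : D.tt (D.f^[D.τ c + j] x) = ‖D.f^[j] u - p‖ := by
          have h1 : ‖D.f^[j] u - p‖ ≤ z1' := by
            refine c1.trans (le_trans ?_ hu1)
            refine mul_le_mul_of_nonneg_left ?_ (norm_nonneg _)
            exact Real.exp_le_exp.2 (mul_le_mul_of_nonneg_left hjT1 (by positivity))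
          have h2 := (happ p hp (D.f^[j] u) (by rw [hiter]; exact hV _ hjk)
            (hu0.trans_le c2) h1).2.2.2.2.1
          rw [← hiter, h2]
        have h1 : D.tt x ≤ D.C * D.tt (D.f^[D.τ c + j] x) := by
          rw [httx, httu]
          exact hp1b.trans (mul_le_mul_of_nonneg_left c2 hC0.le)
        have hMx : 1 ≤ D.Mx := by
          have h2 : D.M c ≤ D.Mx := by
            unfold Ps.Mx
            exact Finset.single_le_sum (f := fun c => D.M c) (fun _ _ => Nat.zero_le _) hcS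
          omega
        have h2 : D.C * φ ^ (2 * D.Mx) ≤ A ^ (2 * D.Mx) := by
          calc D.C * φ ^ (2 * D.Mx) ≤ D.C ^ (2 * D.Mx) * φ ^ (2 * D.Mx) := by
                refine mul_le_mul_of_nonneg_right ?_ (pow_nonneg hφ0 _)
                calc D.C = D.C ^ 1 := (pow_one _).symm
                  _ ≤ D.C ^ (2 * D.Mx) := pow_le_pow_right₀ hC (by omega)
            _ = (D.C * φ) ^ (2 * D.Mx) := (mul_pow _ _ _).symm
            _ ≤ A ^ (2 * D.Mx) := by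
              refine pow_le_pow_left₀ (mul_nonneg hC0.le hφ0) ?_ _
              exact (mul_le_mul_of_nonneg_left hEφ hC0.le).trans hmain
        have h3 := tt_nonneg D (D.f^[D.τ c + j] x)
        calc D.tt x * φ ^ (2 * D.Mx) ≤ (D.C * D.tt (D.f^[D.τ c + j] x)) * φ ^ (2 * D.Mx) :=
              mul_le_mul_of_nonneg_right h1 (pow_nonneg hφ0 _)
          _ = (D.C * φ ^ (2 * D.Mx)) * D.tt (D.f^[D.τ c + j] x) := by ring
          _ ≤ A ^ (2 * D.Mx) * D.tt (D.f^[D.τ c + j] x) := mul_le_mul_of_nonneg_right h2 h3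
  · have hno : ∀ j, D.τ c + j ≤ k → D.TT u j < T0 := by
      intro j hj
      by_contra h
      rw [not_lt] at h
      exact hex ⟨j, hj, h⟩
    have hdis : k + 1 ≤ D.τ c ∨ D.TT u (k + 1 - D.τ c) ≤ T0 + 1 := by
      rcases le_or_gt (k + 1) (D.τ c) with h | h
      · exact Or.inl h
      · right
        have h1 : k + 1 - D.τ c = (k - D.τ c) + 1 := by omega
        rw [h1, TT_succ]
        have h2 := hno (k - D.τ c) (by omega)
        have h3 := wt_le_one D (D.f^[k - D.τ c] u)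
        linarith
    refine ⟨k + 1, by omega, le_rfl, ?_, hpos _ le_rfl hdis, fun h => absurd h (by omega)⟩
    rcases hdis with h | h
    · have h1 := TT_mono D x h
      linarith
    · rcases le_or_gt (k + 1) (D.τ c) with h2 | h2
      · have h1 := TT_mono D x h2
        linarith
      · have h3 : k + 1 = D.τ c + (k + 1 - D.τ c) := by omega
        rw [h3, hTTadd]
        linarith

end Pool.Agent.H44.DP
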