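import Pool.Agent.H44.DP.ITR

/-!
# Module PHI: the metric

PROOFS. `al_le`: `M c ≤ Mx` (`Finset.single_le_sum`). `ph`, `tt` are minima of continuous functions (`Finset.inf'`, `Real.rpow` with a positive exponent `1 - al * M c ≥ 1/2`; `Finset.inf'_le`, `Finset.exists_mem_eq_inf'`, `Continuous.finset_inf'_apply`).
`tt_ph`: if `ph z < 1` is attained at `c` then `‖z - c‖ < 1` and `‖z - c‖ ^ M c ≤ ‖z - c‖ ^ (1 - al M c)`. `ph_tt`: `tt` attained at `c` (otherwise `1`), `‖z - c‖ ≤ 1`, `(‖z - c‖ ^ (1 - al M c)) ^ (2 Mx) ≤ ‖z - c‖ ^ M c` since `2 Mx (1 - al M c) ≥ Mx ≥ M c`, `ph z ≤ ‖z - c‖ ^ ..`.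
`phi_near`: let `s = 2 r0` (a lower bound of the distance of `z ∈ ball c r0` from the other critical points; take `s ≤ 1` by decreasing it) and `r1 ≤ r0, 1/2, s ^ (2 * (Mx + 1))`: for `‖z - c‖ ≤ r1`, `c' ≠ c`: `‖z - c'‖ ^ (1 - ..) ≥ min 1 s ≥ r1 ^ (1/2) ≥ ‖z - c‖ ^ (1 - al M c)` and `‖z - c'‖ ^ M c' ≥ s ^ Mx ≥ r1 ≥ ‖z - c‖ ^ M c`.
`κ`: the value of the functions is at least `min 1 (r1 ^ ..)` if all distances are `≥ r1`.
-/

set_option autoImplicit false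

open Filter Topology Metric Set

namespace Pool.Agent.H44.DP

theorem al_pos (D : Ps) : 0 < D.al := by
  unfold Ps.al
  positivity

theorem al_le (D : Ps) {c : ℂ} (hc : c ∈ D.S) : D.al * (D.M c : ℝ) ≤ 1 / 2 := by
  have h1 : D.M c ≤ D.Mx := by
    unfold Ps.Mx
    exact Finset.single_le_sum (f := fun c => D.M c) (fun _ _ => Nat.zero_le _) hc
  have h2 : (D.M c : ℝ) ≤ (D.Mx : ℝ) := by exact_mod_cast h1
  have h3 : (0 : ℝ) ≤ (D.Mx : ℝ) := Nat.cast_nonneg _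
  unfold Ps.al
  rw [div_mul_eq_mul_div, one_mul, div_le_iff₀ (by linarith)]
  linarith

private theorem phi_M (D : Ps) {c : ℂ} (hc : c ∈ D.S) : 1 ≤ D.M c :=
  M_pos D hc

private theorem phi_Mx (D : Ps) {c : ℂ} (hc : c ∈ D.S) : D.M c ≤ D.Mx := by
  unfold Ps.Mx
  exact Finset.single_le_sum (f := fun c => D.M c) (fun _ _ => Nat.zero_le _) hc

private theorem phi_E (D : Ps) {c : ℂ} (hc : c ∈ D.S) :
    1 / 2 ≤ 1 - D.al * (D.M c : ℝ) ∧ 1 - D.al * (D.M c : ℝ) ≤ 1 := by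
  have h1 := al_le D hc
  have h2 := al_pos D
  have h3 : (0 : ℝ) ≤ D.al * (D.M c : ℝ) := by positivity
  constructor <;> linarith

theorem ph_nonneg (D : Ps) (z : ℂ) : 0 ≤ D.ph z := by
  unfold Ps.ph
  refine le_min zero_le_one ?_
  rw [Finset.le_inf'_iff]
  exact fun c _ => Real.rpow_nonneg (norm_nonneg _) _

theorem ph_le_one (D : Ps) (z : ℂ) : D.ph z ≤ 1 := by
  unfold Ps.ph
  exact min_le_left _ _

theorem ph_le (D : Ps) {c : ℂ} (hc : c ∈ D.S) (z : ℂ) :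
    D.ph z ≤ ‖z - c‖ ^ (1 - D.al * (D.M c : ℝ)) := by
  unfold Ps.ph
  exact (min_le_right _ _).trans
    (Finset.inf'_le (fun c => ‖z - c‖ ^ (1 - D.al * (D.M c : ℝ))) hc)

theorem ph_pos (D : Ps) {z : ℂ} (hz : z ∉ D.S) : 0 < D.ph z := by
  unfold Ps.ph
  refine lt_min one_pos ?_
  rw [Finset.lt_inf'_iff]
  intro c hc
  refine Real.rpow_pos_of_pos (norm_pos_iff.2 (sub_ne_zero.2 ?_)) _
  rintro rfl
  exact hz hc

theorem ph_zero (D : Ps) {z : ℂ} (hz : z ∈ D.S) : D.ph z = 0 := by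
  refine le_antisymm ((ph_le D hz z).trans (le_of_eq ?_)) (ph_nonneg D z)
  rw [sub_self, norm_zero, Real.zero_rpow]
  have := (phi_E D hz).1
  linarith

theorem ph_cont (D : Ps) : Continuous D.ph := by
  unfold Ps.ph
  refine continuous_const.min (Continuous.finset_inf'_apply D.hSne fun c hc => ?_)
  refine Continuous.rpow_const (continuous_id.sub continuous_const).norm fun z => Or.inr ?_
  have := (phi_E D hc).1
  linarith

theorem tt_nonneg (D : Ps) (z : ℂ) : 0 ≤ D.tt z := by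
  unfold Ps.tt
  refine le_min zero_le_one ?_
  rw [Finset.le_inf'_iff]
  exact fun c _ => pow_nonneg (norm_nonneg _) _

theorem tt_le_one (D : Ps) (z : ℂ) : D.tt z ≤ 1 := by
  unfold Ps.tt
  exact min_le_left _ _

theorem tt_le (D : Ps) {c : ℂ} (hc : c ∈ D.S) (z : ℂ) : D.tt z ≤ ‖z - c‖ ^ D.M c := by
  unfold Ps.tt
  exact (min_le_right _ _).trans (Finset.inf'_le (fun c => ‖z - c‖ ^ D.M c) hc)

theorem tt_ex (D : Ps) (z : ℂ) : D.tt z = 1 ∨ ∃ c ∈ D.S, D.tt z = ‖z - c‖ ^ D.M c := by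
  unfold Ps.tt
  rcases min_choice (1 : ℝ) (D.S.inf' D.hSne fun c => ‖z - c‖ ^ D.M c) with h | h
  · exact Or.inl h
  · right
    obtain ⟨c, hc, h1⟩ := Finset.exists_mem_eq_inf' D.hSne fun c => ‖z - c‖ ^ D.M c
    exact ⟨c, hc, h.trans h1⟩

theorem tt_pos (D : Ps) {z : ℂ} (hz : z ∉ D.S) : 0 < D.tt z := by
  unfold Ps.tt
  refine lt_min one_pos ?_
  rw [Finset.lt_inf'_iff]
  intro c hc
  refine pow_pos (norm_pos_iff.2 (sub_ne_zero.2 ?_)) _
  rintro rfl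
  exact hz hc

theorem tt_ph (D : Ps) (z : ℂ) : D.tt z ≤ D.ph z := by
  have h : ∀ c ∈ D.S, D.tt z ≤ ‖z - c‖ ^ (1 - D.al * (D.M c : ℝ)) := by
    intro c hc
    obtain ⟨h1, h2⟩ := phi_E D hc
    rcases le_or_gt ‖z - c‖ 1 with h3 | h3
    · refine (tt_le D hc z).trans ?_
      rw [← Real.rpow_natCast]
      refine Real.rpow_le_rpow_of_exponent_ge' (norm_nonneg _) h3 (by linarith) ?_
      have h4 : (1 : ℝ) ≤ (D.M c : ℝ) := by
        have := phi_M D hc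
        exact_mod_cast (by omega : 1 ≤ D.M c)
      linarith
    · exact (tt_le_one D z).trans (Real.one_le_rpow h3.le (by linarith))
  unfold Ps.ph
  refine le_min (tt_le_one D z) ?_
  rw [Finset.le_inf'_iff]
  exact h

theorem ph_tt (D : Ps) (z : ℂ) : D.ph z ^ (2 * D.Mx) ≤ D.tt z := by
  have h0 := ph_nonneg D z
  have h1 := ph_le_one D z
  have h2 : D.ph z ^ (2 * D.Mx) ≤ 1 := pow_le_one₀ h0 h1
  rcases tt_ex D z with h | ⟨c, hc, h⟩
  · rw [h]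
    exact h2
  · rw [h]
    rcases le_or_gt ‖z - c‖ 1 with h3 | h3
    · obtain ⟨h4, h5⟩ := phi_E D hc
      have h6 := pow_le_pow_left₀ h0 (ph_le D hc z) (2 * D.Mx)
      refine h6.trans ?_
      rw [← Real.rpow_natCast, ← Real.rpow_mul (norm_nonneg _), ← Real.rpow_natCast]
      refine Real.rpow_le_rpow_of_exponent_ge' (norm_nonneg _) h3 (Nat.cast_nonneg _) ?_
      have h7 : (D.M c : ℝ) ≤ (D.Mx : ℝ) := by exact_mod_cast phi_Mx D hc
      have h8 : (0 : ℝ) ≤ (D.Mx : ℝ) := Nat.cast_nonneg _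
      push_cast
      nlinarith
    · exact h2.trans (one_le_pow₀ h3.le)

theorem phi_near (D : Ps) : ∃ r1 κ : ℝ, 0 < r1 ∧ r1 ≤ D.r0 ∧ r1 ≤ 1 / 2 ∧ 0 < κ ∧ κ ≤ 1 ∧
    (∀ c ∈ D.S, ∀ z : ℂ, ‖z - c‖ ≤ r1 → D.zt z = ‖z - c‖ ∧
      D.ph z = ‖z - c‖ ^ (1 - D.al * (D.M c : ℝ)) ∧ D.tt z = ‖z - c‖ ^ D.M c) ∧
    ∀ z : ℂ, r1 ≤ D.zt z → κ ≤ D.ph z ∧ κ ≤ D.tt z := by
  obtain ⟨s, hs⟩ : ∃ s : ℝ, s = min 1 (2 * D.r0) := ⟨_, rfl⟩
  have hs0 : 0 < s := by
    rw [hs]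
    exact lt_min one_pos (by linarith [D.hr0])
  have hs1 : s ≤ 1 := by
    rw [hs]
    exact min_le_left _ _
  have hs2 : s ≤ 2 * D.r0 := by
    rw [hs]
    exact min_le_right _ _
  obtain ⟨r1, hr⟩ : ∃ r1 : ℝ, r1 = min (min D.r0 (1 / 2)) (s ^ (2 * (D.Mx + 1))) := ⟨_, rfl⟩
  have hr0 : 0 < r1 := by
    rw [hr]
    exact lt_min (lt_min D.hr0 (by norm_num)) (by positivity)
  have hra : r1 ≤ D.r0 := by
    rw [hr]
    exact (min_le_left _ _).trans (min_le_left _ _)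
  have hrb : r1 ≤ 1 / 2 := by
    rw [hr]
    exact (min_le_left _ _).trans (min_le_right _ _)
  have hrc : r1 ≤ s ^ (2 * (D.Mx + 1)) := by
    rw [hr]
    exact min_le_right _ _
  have hr1 : r1 ≤ 1 := by linarith
  refine ⟨r1, r1 ^ (D.Mx + 1), hr0, hra, hrb, by positivity, pow_le_one₀ hr0.le hr1, ?_, ?_⟩
  · intro c hc z hz
    have hz1 : ‖z - c‖ ≤ 1 := hz.trans hr1
    have hn := norm_nonneg (z - c)
    have hfar : ∀ c' ∈ D.S, c' ≠ c → s ≤ ‖z - c'‖ := by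
      intro c' hc' hne
      have h1 := D.hsep c' hc' c hc hne
      have h2 : ‖c' - c‖ ≤ ‖z - c‖ + ‖z - c'‖ := by
        calc ‖c' - c‖ = ‖(z - c) - (z - c')‖ := by
              congr 1
              ring
          _ ≤ _ := norm_sub_le _ _
      have h3 := D.hr0
      linarith
    obtain ⟨hE1, hE2⟩ := phi_E D hc
    refine ⟨zt_near D hc (by linarith [D.hr0]), le_antisymm (ph_le D hc z) ?_,
      le_antisymm (tt_le D hc z) ?_⟩
    · unfold Ps.ph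
      refine le_min (Real.rpow_le_one hn hz1 (by linarith)) ?_
      rw [Finset.le_inf'_iff]
      intro c' hc'
      by_cases hcc : c' = c
      · rw [hcc]
      · have h1 := hfar c' hc' hcc
        obtain ⟨hF1, hF2⟩ := phi_E D hc'
        have h2 : ‖z - c‖ ^ (1 - D.al * (D.M c : ℝ)) ≤ ‖z - c‖ ^ (1 / 2 : ℝ) :=
          Real.rpow_le_rpow_of_exponent_ge' hn hz1 (by norm_num) hE1
        have h3 : ‖z - c‖ ^ (1 / 2 : ℝ) ≤ (s ^ (2 * (D.Mx + 1))) ^ (1 / 2 : ℝ) :=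
          Real.rpow_le_rpow hn (hz.trans hrc) (by norm_num)
        have h4 : (s ^ (2 * (D.Mx + 1))) ^ (1 / 2 : ℝ) = s ^ (D.Mx + 1) := by
          rw [← Real.sqrt_eq_rpow, pow_mul', Real.sqrt_sq (by positivity)]
        have h5 : s ^ (D.Mx + 1) ≤ s := pow_le_of_le_one hs0.le hs1 (by omega)
        have h6 : s ^ (1 : ℝ) ≤ s ^ (1 - D.al * (D.M c' : ℝ)) :=
          Real.rpow_le_rpow_of_exponent_ge' hs0.le hs1 (by linarith) hF2
        rw [Real.rpow_one] at h6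
        have h7 : s ^ (1 - D.al * (D.M c' : ℝ)) ≤ ‖z - c'‖ ^ (1 - D.al * (D.M c' : ℝ)) :=
          Real.rpow_le_rpow hs0.le h1 (by linarith)
        rw [h4] at h3
        linarith
    · unfold Ps.tt
      refine le_min (pow_le_one₀ hn hz1) ?_
      rw [Finset.le_inf'_iff]
      intro c' hc'
      by_cases hcc : c' = c
      · rw [hcc]
      · have h1 := hfar c' hc' hcc
        have h2 : ‖z - c‖ ^ D.M c ≤ ‖z - c‖ :=
          pow_le_of_le_one hn hz1 (by have := phi_M D hc; omega)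
        have h3 : s ^ (2 * (D.Mx + 1)) ≤ s ^ D.M c' :=
          pow_le_pow_of_le_one hs0.le hs1 (by have := phi_Mx D hc'; omega)
        have h4 : s ^ D.M c' ≤ ‖z - c'‖ ^ D.M c' := pow_le_pow_left₀ hs0.le h1 _
        linarith
  · intro z hz
    have h0 : r1 ^ (D.Mx + 1) ≤ 1 := pow_le_one₀ hr0.le hr1
    constructor
    · unfold Ps.ph
      refine le_min h0 ?_
      rw [Finset.le_inf'_iff]
      intro c hc
      obtain ⟨hE1, hE2⟩ := phi_E D hc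
      have h1 : r1 ^ (D.Mx + 1) ≤ r1 := pow_le_of_le_one hr0.le hr1 (by omega)
      have h2 : r1 ^ (1 : ℝ) ≤ r1 ^ (1 - D.al * (D.M c : ℝ)) :=
        Real.rpow_le_rpow_of_exponent_ge' hr0.le hr1 (by linarith) hE2
      rw [Real.rpow_one] at h2
      have h3 : r1 ^ (1 - D.al * (D.M c : ℝ)) ≤ ‖z - c‖ ^ (1 - D.al * (D.M c : ℝ)) :=
        Real.rpow_le_rpow hr0.le (hz.trans (zt_le D hc z)) (by linarith)
      linarith
    · unfold Ps.tt
      refine le_min h0 ?_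
      rw [Finset.le_inf'_iff]
      intro c hc
      have h1 : r1 ^ (D.Mx + 1) ≤ r1 ^ D.M c :=
        pow_le_pow_of_le_one hr0.le hr1 (by have := phi_Mx D hc; omega)
      have h2 : r1 ^ D.M c ≤ ‖z - c‖ ^ D.M c :=
        pow_le_pow_left₀ hr0.le (hz.trans (zt_le D hc z)) _
      linarith

end Pool.Agent.H44.DP
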