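import Pool.Agent.H44.DP.Qdf

/-!
# Module CMP: families: uniform neighbourhoods

PROOFS. `comp1`: `Z = closedBall 0 R \ thickening t J` and `K` are compact, `Z` is disjoint from `J`; for `(z, e) ∈ Z × K` take `ε(z, e)` from `X.att1`; finitely many products `ball z (ε/2) × ball e (ε/2)` cover `Z × K` (if it is empty any `ε` works); `ε` is half of the minimum. If `g n u ∈ Z` and `‖u/‖u‖ - e‖ < ε` with `e ∈ K`: `(g n u, e)` is in one of the products, so `‖u/‖u‖ - e'‖ < ε(z', e')` by the triangle inequality.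
`comp2`: the same for `K` with `X.att2` (finite subcover of `K`), and then the minimum over the finite set `Pa`. `sec`: let `x = z / y`, `‖x - 1‖ ≤ r ≤ 1`, so `‖x ^ q - 1‖ ≤ q 2 ^ q r =: s` and `α z ^ q = α y ^ q x ^ q`: `re (α z^q) ≤ re (α y^q) + s ‖α y^q‖ ≤ (1 - ε1 + s) ‖α y ^ q‖`, `‖α z ^ q‖ ≥ (1 - s) ‖α y^q‖`; `1 - ε1 + s ≤ (1 - ε1/2) (1 - s)` if `s ≤ ε1 / 8` (`ε1 ≤ 2` without restriction? if `ε1 > 2` use `|re| ≤ ‖‖`: replace `ε1` by `min ε1 2`; a statement with `1 - ε1 < -1` has no solution `y ≠ 0`; `y = 0` gives `z = 0`).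
-/

set_option autoImplicit false

open Filter Topology Metric Set

namespace Pool.Agent.H44.DP

theorem comp1 (D : Ps) (X : Fam D) {t R : ℝ} (ht : 0 < t) : ∃ ε : ℝ, 0 < ε ∧
    ∀ u ∈ ball (0 : ℂ) ε, u ≠ 0 → (∃ e ∈ X.K, ‖u / (‖u‖ : ℂ) - e‖ < ε) → ∀ n : ℕ,
      (∀ i < n, X.g i u ∈ thickening D.δ D.J) → ‖X.g n u‖ ≤ R →
        X.g n u ∉ thickening t D.J → X.P u := by
  have hZ : IsCompact (closedBall (0 : ℂ) R \ thickening t D.J) :=
    (isCompact_closedBall (0 : ℂ) R).diff isOpen_thickening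
  have hQ : ∃ ε : ℝ, 0 < ε ∧ ∀ x ∈ (closedBall (0 : ℂ) R \ thickening t D.J) ×ˢ X.K,
      ∀ u ∈ ball (0 : ℂ) ε, u ≠ 0 → ‖u / (‖u‖ : ℂ) - x.2‖ < ε → ∀ n : ℕ,
        (∀ i < n, X.g i u ∈ thickening D.δ D.J) → X.g n u = x.1 → X.P u := by
    refine IsCompact.induction_on (p := fun A : Set (ℂ × ℂ) => ∃ ε : ℝ, 0 < ε ∧ ∀ x ∈ A,
      ∀ u ∈ ball (0 : ℂ) ε, u ≠ 0 → ‖u / (‖u‖ : ℂ) - x.2‖ < ε → ∀ n : ℕ,
        (∀ i < n, X.g i u ∈ thickening D.δ D.J) → X.g n u = x.1 → X.P u)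
      (hZ.prod X.hK) ?_ ?_ ?_ ?_
    · exact ⟨1, one_pos, fun x hx => absurd hx (Set.notMem_empty x)⟩
    · rintro A B hAB ⟨ε, hε, h⟩
      exact ⟨ε, hε, fun x hx => h x (hAB hx)⟩
    · rintro A B ⟨ε, hε, h⟩ ⟨ε', hε', h'⟩
      refine ⟨min ε ε', lt_min hε hε', ?_⟩
      rintro x (hx | hx) u hu hu0 hd n hn hg
      · exact h x hx u (ball_subset_ball (min_le_left _ _) hu) hu0
          (lt_of_lt_of_le hd (min_le_left _ _)) n hn hg
      · exact h' x hx u (ball_subset_ball (min_le_right _ _) hu) hu0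
          (lt_of_lt_of_le hd (min_le_right _ _)) n hn hg
    · rintro ⟨z, e⟩ ⟨hz, he⟩
      have hzJ : z ∉ D.J := fun h => hz.2 (self_subset_thickening ht _ h)
      obtain ⟨ε, hε, h⟩ := X.att1 z hzJ e he
      refine ⟨ball z ε ×ˢ ball e (ε / 2), mem_nhdsWithin_of_mem_nhds
        (prod_mem_nhds (ball_mem_nhds z hε) (ball_mem_nhds e (half_pos hε))), ε / 2,
        half_pos hε, ?_⟩
      rintro ⟨z', e'⟩ ⟨hz', he'⟩ u hu hu0 hd n hn hg
      refine h u (ball_subset_ball (by linarith) hu) hu0 ?_ n hn ?_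
      · have h1 : ‖e' - e‖ < ε / 2 := by
          simpa [mem_ball, dist_eq_norm] using he'
        calc ‖u / (‖u‖ : ℂ) - e‖ = ‖(u / (‖u‖ : ℂ) - e') + (e' - e)‖ := by ring_nf
          _ ≤ ‖u / (‖u‖ : ℂ) - e'‖ + ‖e' - e‖ := norm_add_le _ _
          _ < ε / 2 + ε / 2 := add_lt_add hd h1
          _ = ε := by ring
      · rw [hg]
        exact hz'
  obtain ⟨ε, hε, h⟩ := hQ
  refine ⟨ε, hε, ?_⟩
  rintro u hu hu0 ⟨e, he, hd⟩ n hn hR hT
  refine h (X.g n u, e) ⟨⟨?_, hT⟩, he⟩ u hu hu0 hd n hn rfl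
  rw [mem_closedBall, dist_zero_right]
  exact hR

theorem comp2 (D : Ps) (X : Fam D) {ε' : ℝ} (hε' : 0 < ε') : ∃ ε : ℝ, 0 < ε ∧
    ∀ p ∈ D.Pa, ∀ u ∈ ball (0 : ℂ) ε, u ≠ 0 → (∃ e ∈ X.K, ‖u / (‖u‖ : ℂ) - e‖ < ε) → ∀ n : ℕ,
      (∀ i < n, X.g i u ∈ thickening D.δ D.J) → X.g n u ∈ ball p ε →
        ‖u‖ ^ X.θ2 ≤ ‖X.g n u - p‖ →
        (D.ap p * (X.g n u - p) ^ D.qp p).re ≤ (1 - ε') * ‖D.ap p * (X.g n u - p) ^ D.qp p‖ →
          X.P u := by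
  -- one point of `Pa`
  have h1 : ∀ p ∈ D.Pa, ∃ ε : ℝ, 0 < ε ∧ ∀ e ∈ X.K, ∀ u ∈ ball (0 : ℂ) ε, u ≠ 0 →
      ‖u / (‖u‖ : ℂ) - e‖ < ε → ∀ n : ℕ, (∀ i < n, X.g i u ∈ thickening D.δ D.J) →
        X.g n u ∈ ball p ε → ‖u‖ ^ X.θ2 ≤ ‖X.g n u - p‖ →
        (D.ap p * (X.g n u - p) ^ D.qp p).re ≤ (1 - ε') * ‖D.ap p * (X.g n u - p) ^ D.qp p‖ →
          X.P u := by
    intro p hp
    refine IsCompact.induction_on (p := fun A : Set ℂ => ∃ ε : ℝ, 0 < ε ∧ ∀ e ∈ A,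
      ∀ u ∈ ball (0 : ℂ) ε, u ≠ 0 →
      ‖u / (‖u‖ : ℂ) - e‖ < ε → ∀ n : ℕ, (∀ i < n, X.g i u ∈ thickening D.δ D.J) →
        X.g n u ∈ ball p ε → ‖u‖ ^ X.θ2 ≤ ‖X.g n u - p‖ →
        (D.ap p * (X.g n u - p) ^ D.qp p).re ≤ (1 - ε') * ‖D.ap p * (X.g n u - p) ^ D.qp p‖ →
          X.P u) X.hK ?_ ?_ ?_ ?_
    · exact ⟨1, one_pos, fun x hx => absurd hx (Set.notMem_empty x)⟩
    · rintro A B hAB ⟨ε, hε, h⟩
      exact ⟨ε, hε, fun x hx => h x (hAB hx)⟩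
    · rintro A B ⟨ε, hε, h⟩ ⟨ε₂, hε₂, h'⟩
      refine ⟨min ε ε₂, lt_min hε hε₂, ?_⟩
      rintro x (hx | hx) u hu hu0 hd n hn hg
      · exact h x hx u (ball_subset_ball (min_le_left _ _) hu) hu0
          (lt_of_lt_of_le hd (min_le_left _ _)) n hn (ball_subset_ball (min_le_left _ _) hg)
      · exact h' x hx u (ball_subset_ball (min_le_right _ _) hu) hu0
          (lt_of_lt_of_le hd (min_le_right _ _)) n hn (ball_subset_ball (min_le_right _ _) hg)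
    · intro e he
      obtain ⟨ε, hε, h⟩ := X.att2 p hp ε' hε' e he
      refine ⟨ball e (ε / 2), mem_nhdsWithin_of_mem_nhds (ball_mem_nhds e (half_pos hε)), ε / 2,
        half_pos hε, ?_⟩
      intro e' he' u hu hu0 hd n hn hg
      refine h u (ball_subset_ball (by linarith) hu) hu0 ?_ n hn
        (ball_subset_ball (by linarith) hg)
      have h1 : ‖e' - e‖ < ε / 2 := by
        simpa [mem_ball, dist_eq_norm] using he'
      calc ‖u / (‖u‖ : ℂ) - e‖ = ‖(u / (‖u‖ : ℂ) - e') + (e' - e)‖ := by ring_nf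
        _ ≤ ‖u / (‖u‖ : ℂ) - e'‖ + ‖e' - e‖ := norm_add_le _ _
        _ < ε / 2 + ε / 2 := add_lt_add hd h1
        _ = ε := by ring
  -- the finite set `Pa`
  have h2 : ∀ S : Finset ℂ, (∀ p ∈ S, p ∈ D.Pa) → ∃ ε : ℝ, 0 < ε ∧ ∀ p ∈ S,
      ∀ e ∈ X.K, ∀ u ∈ ball (0 : ℂ) ε, u ≠ 0 →
      ‖u / (‖u‖ : ℂ) - e‖ < ε → ∀ n : ℕ, (∀ i < n, X.g i u ∈ thickening D.δ D.J) →
        X.g n u ∈ ball p ε → ‖u‖ ^ X.θ2 ≤ ‖X.g n u - p‖ →
        (D.ap p * (X.g n u - p) ^ D.qp p).re ≤ (1 - ε') * ‖D.ap p * (X.g n u - p) ^ D.qp p‖ →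
          X.P u := by
    intro S
    induction S using Finset.induction_on with
    | empty => exact fun _ => ⟨1, one_pos, fun p hp => absurd hp (Finset.notMem_empty p)⟩
    | insert a S _ ih =>
      intro hS
      obtain ⟨ε, hε, h⟩ := ih fun p hp => hS p (Finset.mem_insert_of_mem hp)
      obtain ⟨ε₂, hε₂, h'⟩ := h1 a (hS a (Finset.mem_insert_self a S))
      refine ⟨min ε ε₂, lt_min hε hε₂, ?_⟩
      intro p hp e he u hu hu0 hd n hn hg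
      rcases Finset.mem_insert.1 hp with rfl | hp
      · exact h' e he u (ball_subset_ball (min_le_right _ _) hu) hu0
          (lt_of_lt_of_le hd (min_le_right _ _)) n hn (ball_subset_ball (min_le_right _ _) hg)
      · exact h p hp e he u (ball_subset_ball (min_le_left _ _) hu) hu0
          (lt_of_lt_of_le hd (min_le_left _ _)) n hn (ball_subset_ball (min_le_left _ _) hg)
  obtain ⟨ε, hε, h⟩ := h2 D.Pa fun p hp => hp
  refine ⟨ε, hε, ?_⟩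
  rintro p hp u hu hu0 ⟨e, he, hd⟩ n hn hg
  exact h p hp e he u hu hu0 hd n hn hg

theorem sec (q : ℕ) {ε1 : ℝ} (hε : 0 < ε1) : ∃ r : ℝ, 0 < r ∧ ∀ (α y z : ℂ), ‖z - y‖ ≤ r * ‖y‖ →
    (α * y ^ q).re ≤ (1 - ε1) * ‖α * y ^ q‖ → (α * z ^ q).re ≤ (1 - ε1 / 2) * ‖α * z ^ q‖ := by
  have hc : ContinuousAt (fun x : ℂ => x ^ q) 1 := (continuous_pow q).continuousAt
  obtain ⟨r, hr, h⟩ := Metric.continuousAt_iff.1 hc (ε1 / 8) (by positivity)
  refine ⟨r / 2, half_pos hr, ?_⟩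
  intro α y z hzy hre
  by_cases hy : y = 0
  · have hz : z = y := by
      rw [hy, norm_zero, mul_zero] at hzy
      rw [hy]
      have := norm_le_zero_iff.1 hzy
      rwa [sub_zero] at this
    rw [hz]
    have h0 : 0 ≤ ‖α * y ^ q‖ := norm_nonneg _
    nlinarith
  · have hy0 : 0 < ‖y‖ := norm_pos_iff.2 hy
    set w : ℂ := α * y ^ q with hw
    set v : ℂ := (z / y) ^ q with hv
    have hzw : α * z ^ q = w * v := by
      rw [hw, hv, div_pow]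
      field_simp
    have hv1 : ‖v - 1‖ < ε1 / 8 := by
      have h1 : dist (z / y) 1 < r := by
        rw [dist_eq_norm]
        have h2 : z / y - 1 = (z - y) / y := by field_simp
        rw [h2, norm_div, div_lt_iff₀ hy0]
        have : r / 2 * ‖y‖ < r * ‖y‖ := by nlinarith
        linarith
      have h3 := h h1
      rwa [one_pow, dist_eq_norm] at h3
    have hwn : 0 ≤ ‖w‖ := norm_nonneg _
    rw [hzw]
    by_cases h2 : ε1 ≤ 2
    · have e1 : (w * v).re ≤ (1 - ε1 + ε1 / 8) * ‖w‖ := by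
        have h3 : w * v = w + w * (v - 1) := by ring
        have h4 : (w * (v - 1)).re ≤ ‖w * (v - 1)‖ := Complex.re_le_norm _
        rw [norm_mul] at h4
        have h5 : ‖w‖ * ‖v - 1‖ ≤ ‖w‖ * (ε1 / 8) := mul_le_mul_of_nonneg_left hv1.le hwn
        rw [h3, Complex.add_re]
        nlinarith
      have e2 : (1 - ε1 / 8) * ‖w‖ ≤ ‖w * v‖ := by
        rw [norm_mul w v]
        have h3 : 1 - ε1 / 8 ≤ ‖v‖ := by
          have h4 : ‖(1 : ℂ)‖ - ‖1 - v‖ ≤ ‖v‖ := by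
            have := norm_sub_norm_le (1 : ℂ) (1 - v)
            rwa [sub_sub_cancel] at this
          rw [norm_one, norm_sub_rev] at h4
          linarith
        nlinarith
      have h3 : 0 ≤ 1 - ε1 / 2 := by linarith
      have h4 : (1 - ε1 / 2) * ((1 - ε1 / 8) * ‖w‖) ≤ (1 - ε1 / 2) * ‖w * v‖ :=
        mul_le_mul_of_nonneg_left e2 h3
      have h5 : 0 ≤ ε1 ^ 2 * ‖w‖ := by positivity
      have h6 : 0 ≤ ε1 * ‖w‖ := by positivity
      nlinarith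
    · push Not at h2
      have h3 : -‖w‖ ≤ w.re := (abs_le.1 (Complex.abs_re_le_norm w)).1
      have h4 : ‖w‖ = 0 := by nlinarith
      have h5 : w = 0 := norm_eq_zero.1 h4
      rw [h5]
      simp

end Pool.Agent.H44.DP
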