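import Pool.Agent.H44.DP.PARF

/-!
# Module CONV: `par_main` for a set of good directions

The parameters whose direction is not in `Kd` are declared good, `K` is the set of all directions.
-/

set_option autoImplicit false

open Filter Topology Metric Set

namespace Pool.Agent.H44.DP

/-- the scale `(‖u‖ ^ M) ^ (1 / (q + 1))` is below a power of `‖u‖` -/
theorem conv_pow {M q Q : ℕ} (hM : 1 ≤ M) (hq : q ≤ Q) {K0 : ℝ} (hK : 0 < K0) :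
    ∃ r : ℝ, 0 < r ∧ ∀ x : ℝ, 0 < x → x < r →
      K0 * (x ^ M) ^ (((q + 1 : ℕ) : ℝ)⁻¹) ≤ x ^ ((M : ℝ) / (2 * ((Q : ℝ) + 1))) := by
  have hMr : (0 : ℝ) < M := by exact_mod_cast hM
  have hq0 : (0 : ℝ) < (q : ℝ) + 1 := by positivity
  have hQ0 : (0 : ℝ) < (Q : ℝ) + 1 := by positivity
  have hqQ : (q : ℝ) + 1 ≤ (Q : ℝ) + 1 := by
    have : (q : ℝ) ≤ Q := by exact_mod_cast hq
    linarith
  have hε : 0 < (M : ℝ) / (2 * ((Q : ℝ) + 1)) := by positivity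
  refine ⟨min 1 ((1 / K0) ^ (1 / ((M : ℝ) / (2 * ((Q : ℝ) + 1))))), lt_min one_pos (by positivity),
    fun x hx hxr => ?_⟩
  have hx1 : x ≤ 1 := (hxr.le).trans (min_le_left _ _)
  have hx2 : x ≤ (1 / K0) ^ (1 / ((M : ℝ) / (2 * ((Q : ℝ) + 1)))) := (hxr.le).trans (min_le_right _ _)
  have h1 : (x ^ M) ^ (((q + 1 : ℕ) : ℝ)⁻¹) = x ^ ((M : ℝ) / ((q : ℝ) + 1)) := by
    rw [← Real.rpow_natCast, ← Real.rpow_mul hx.le]
    congr 1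
    push_cast
    ring
  have h2 : x ^ ((M : ℝ) / ((q : ℝ) + 1)) ≤ x ^ ((M : ℝ) / ((Q : ℝ) + 1)) := by
    refine Real.rpow_le_rpow_of_exponent_ge hx hx1 ?_
    exact div_le_div_of_nonneg_left hMr.le hq0 hqQ
  have h3 : x ^ ((M : ℝ) / ((Q : ℝ) + 1)) = x ^ ((M : ℝ) / (2 * ((Q : ℝ) + 1))) *
      x ^ ((M : ℝ) / (2 * ((Q : ℝ) + 1))) := by
    rw [← Real.rpow_add hx]
    congr 1
    field_simp
    ring
  have h4 : x ^ ((M : ℝ) / (2 * ((Q : ℝ) + 1))) ≤ 1 / K0 := by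
    calc x ^ ((M : ℝ) / (2 * ((Q : ℝ) + 1))) ≤
          ((1 / K0) ^ (1 / ((M : ℝ) / (2 * ((Q : ℝ) + 1))))) ^ ((M : ℝ) / (2 * ((Q : ℝ) + 1))) :=
          Real.rpow_le_rpow hx.le hx2 hε.le
      _ = 1 / K0 := by
          rw [← Real.rpow_mul (by positivity), one_div_mul_cancel hε.ne', Real.rpow_one]
  calc K0 * (x ^ M) ^ (((q + 1 : ℕ) : ℝ)⁻¹)
      ≤ K0 * (x ^ ((M : ℝ) / (2 * ((Q : ℝ) + 1))) * x ^ ((M : ℝ) / (2 * ((Q : ℝ) + 1)))) := by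
        rw [h1, ← h3]
        exact mul_le_mul_of_nonneg_left h2 hK.le
    _ ≤ K0 * (1 / K0 * x ^ ((M : ℝ) / (2 * ((Q : ℝ) + 1)))) := by
        refine mul_le_mul_of_nonneg_left ?_ hK.le
        exact mul_le_mul_of_nonneg_right h4 (by positivity)
    _ = x ^ ((M : ℝ) / (2 * ((Q : ℝ) + 1))) := by field_simp

open MeasureTheory in
theorem conv_main (D : Ps) (hnull : volume D.J = 0) {c : ℂ} {M : ℕ} {F : ℂ → ℂ → ℂ} {g : ℕ → ℂ → ℂ}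
    {T : ℂ} {Tn : ℕ → ℂ} {A ρ0 : ℝ} {P : ℂ → Prop} {Kd : Set ℂ}
    (hc : c ∈ D.Ce) (hM : 1 ≤ M) (hT : T ≠ 0) (hA : 1 ≤ A) (hρ0 : 0 < ρ0) (hρ1 : ρ0 ≤ 1)
    (g0 : DifferentiableOn ℂ (g 0) (ball 0 ρ0))
    (lip0 : ∀ u ∈ ball (0 : ℂ) ρ0, ‖g 0 u - D.vv c‖ ≤ A * ‖u‖)
    (step : ∀ (n : ℕ) (u : ℂ), g (n + 1) u = F u (g n u))
    (pert : ∀ u ∈ ball (0 : ℂ) ρ0, ∀ z ∈ thickening D.δ D.J, ‖F u z - D.f z‖ ≤ A * ‖u‖ ^ M)
    (hol : ∀ (n : ℕ) (U : Set ℂ), IsOpen U → U ⊆ ball 0 ρ0 → DifferentiableOn ℂ (g n) U →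
      (∀ u ∈ U, g n u ∈ thickening D.δ D.J) → DifferentiableOn ℂ (g (n + 1)) U)
    (jet : ∀ n : ℕ, (fun u : ℂ => g n u - g n 0 - deriv (D.f^[n]) (D.vv c) * Tn n * u ^ M)
      =o[𝓝 0] fun u : ℂ => u ^ M)
    (hTn : ∀ n : ℕ, ‖Tn n - T‖ ≤ A * (1 / D.q) ^ n)
    (att : ∀ z : ℂ, z ∉ D.J → ∃ ε : ℝ, 0 < ε ∧ ∀ u ∈ ball (0 : ℂ) ε, u ≠ 0 →
      u / (‖u‖ : ℂ) ∈ Kd →
      ∀ n : ℕ, (∀ i < n, g i u ∈ thickening D.δ D.J) → g n u ∈ ball z ε → P u)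
    (atp : ∀ p ∈ D.Pa, ∀ ε : ℝ, 0 < ε → ∃ r K0 : ℝ, 0 < r ∧ 0 < K0 ∧
      ∀ u ∈ ball (0 : ℂ) r, u ≠ 0 → u / (‖u‖ : ℂ) ∈ Kd →
      ∀ n : ℕ, (∀ i < n, g i u ∈ thickening D.δ D.J) →
        K0 * (‖u‖ ^ M) ^ (((D.qp p + 1 : ℕ) : ℝ)⁻¹) ≤ ‖g n u - p‖ → ‖g n u - p‖ ≤ r →
          (D.ap p * (g n u - p) ^ D.qp p).re ≤ (1 - ε) * ‖D.ap p * (g n u - p) ^ D.qp p‖ → P u) :
    Tendsto (fun ρ : ℝ => volume (ball (0 : ℂ) 1 ∩
        {η : ℂ | η / (‖η‖ : ℂ) ∈ Kd ∧ ¬ P ((ρ : ℂ) * η)})) (𝓝[>] 0) (𝓝 0) := by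
  let X : Fam D :=
    { c := c, M := M, F := F, g := g, T := T, Tn := Tn, A := A, ρ0 := ρ0
      θ2 := (M : ℝ) / (2 * ((D.Qx : ℝ) + 1))
      K := sphere 0 1
      P := fun u => u / (‖u‖ : ℂ) ∈ Kd → P u
      hc := hc, hM := hM, hT := hT, hA := hA, hρ0 := hρ0, hρ1 := hρ1
      hθ2 := by
        have hMr : (0 : ℝ) < M := by exact_mod_cast hM
        positivity
      hK := isCompact_sphere 0 1
      hK1 := fun e he => by simpa using he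
      g0 := g0, lip0 := lip0, step := step, pert := pert, hol := hol, jet := jet, hTn := hTn
      att1 := by
        intro z hz e _
        obtain ⟨ε, hε, h⟩ := att z hz
        exact ⟨ε, hε, fun u hu hu0 _ n hn hg hK => h u hu hu0 hK n hn hg⟩
      att2 := by
        intro p hp ε' hε' e _
        obtain ⟨r, K0, hr, hK0, h⟩ := atp p hp ε' hε'
        have hqQ : D.qp p ≤ D.Qx := by
          unfold Ps.Qx
          exact Finset.single_le_sum (f := D.qp) (fun _ _ => Nat.zero_le _) hp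
        obtain ⟨r', hr', h'⟩ := conv_pow hM hqQ hK0
        refine ⟨min r r', lt_min hr hr', fun u hu hu0 _ n hn hg hlow hre hK => ?_⟩
        rw [mem_ball_zero_iff] at hu
        have hu1 : ‖u‖ < r := hu.trans_le (min_le_left _ _)
        have hu2 : ‖u‖ < r' := hu.trans_le (min_le_right _ _)
        rw [mem_ball, dist_eq_norm] at hg
        refine h u (mem_ball_zero_iff.2 hu1) hu0 hK n hn ?_ (hg.le.trans (min_le_left _ _)) hre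
        exact (h' ‖u‖ (norm_pos_iff.2 hu0) hu2).trans hlow }
  have h1 := par_main D hnull X
  refine tendsto_of_tendsto_of_tendsto_of_le_of_le' tendsto_const_nhds h1
    (Filter.Eventually.of_forall fun _ => zero_le) ?_
  filter_upwards [self_mem_nhdsWithin] with ρ hρ
  have hρ0' : (0 : ℝ) < ρ := hρ
  have hρc : (ρ : ℂ) ≠ 0 := by exact_mod_cast hρ0'.ne'
  have hsub : ball (0 : ℂ) 1 ∩ {η : ℂ | η / (‖η‖ : ℂ) ∈ Kd ∧ ¬ P ((ρ : ℂ) * η)} ⊆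
      {0} ∪ (ball (0 : ℂ) 1 ∩ {η : ℂ | η / (‖η‖ : ℂ) ∈ X.K ∧ ¬ X.P ((ρ : ℂ) * η)}) := by
    rintro η ⟨hη, hK, hP⟩
    by_cases hη0 : η = 0
    · exact Or.inl hη0
    right
    have hn : (‖η‖ : ℂ) ≠ 0 := by exact_mod_cast (norm_pos_iff.2 hη0).ne'
    refine ⟨hη, ?_, ?_⟩
    · change η / (‖η‖ : ℂ) ∈ sphere (0 : ℂ) 1
      rw [mem_sphere_zero_iff_norm, norm_div, Complex.norm_real, norm_norm]
      exact div_self (norm_pos_iff.2 hη0).ne'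
    · intro h2
      apply hP
      apply h2
      have h5 : ((ρ : ℂ) * η) / ((‖(ρ : ℂ) * η‖ : ℝ) : ℂ) = η / (‖η‖ : ℂ) := by
        rw [norm_mul, Complex.norm_real, Real.norm_of_nonneg hρ0'.le, Complex.ofReal_mul]
        field_simp
      rw [h5]
      exact hK
  refine (measure_mono hsub).trans ((measure_union_le _ _).trans ?_)
  rw [measure_singleton, zero_add]

end Pool.Agent.H44.DP
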