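import Mathlib

/-!
# Full density at Collet-Eckmann maps with parabolic cycles: the dynamics near the Julia set

`Ps` collects what is used about a rational map `f` (an iterate of the given one, all parabolic points are fixed)
near its Julia set `J` (no other module of the chapter GR uses rational maps): `J` compact, invariant, `f`
differentiable on the open set `G` (the plane without the poles), `thickening δ J ⊆ G`. `Ce`: the Collet-Eckmann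
critical points, `Cl`: the critical points which land on a parabolic point, `Cr` all critical points in
`thickening δ J` (`Cr = Ce ∪ Cl`), `Pa` the parabolic fixed points, `S = Ce ∪ Cl ∪ Pa`. `τ c` for `c ∈ Ce`: the first
time after which the orbit of `c` does not meet `S`; for `c ∈ Cl`: the time at which the orbit of `c` arrives in `Pa`;
`0` for `Pa`. `m c` the local degree, `M c` the product of the local degrees before the time `τ c` (`1` for `Pa`), so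
`f^[τ c] z - f^[τ c] c` is of size `‖z - c‖ ^ M c`. The Collet-Eckmann condition in several forms (`ce1 .. ce6`).
`V1 ⊆ V`: open neighbourhoods of `J \ Pa`, near `p ∈ Pa` they are cones around the repelling directions; `V` contains
the discs of radius `ϑ dist (z, Pa)` around the points of `V1`, and `V1` those around the points of `J`.
`nn`: no normality at the points of `J`; `cn`: continuation of inverse branches, the obstruction being critical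
points in `J` only. `C` is a common constant.
-/

set_option autoImplicit false

open Filter Topology Metric Set

namespace Pool.Agent.H44.DP

/-- the distance to a finite set, at most `1` (equal to `1` if the set is empty) -/
noncomputable def dS (P : Finset ℂ) (z : ℂ) : ℝ :=
  if P.Nonempty then min 1 (infDist z (P : Set ℂ)) else 1

/-- a map near its Julia set, with the Collet-Eckmann condition and parabolic fixed points -/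
structure Ps where
  f : ℂ → ℂ
  J : Set ℂ
  G : Set ℂ
  V : Set ℂ
  V1 : Set ℂ
  Ce : Finset ℂ
  Cl : Finset ℂ
  Cr : Finset ℂ
  Pa : Finset ℂ
  S : Finset ℂ
  δ : ℝ
  L : ℝ
  C : ℝ
  q : ℝ
  r0 : ℝ
  κ : ℝ
  ϑ : ℝ
  ε1 : ℝ
  N6 : ℕ
  τ : ℂ → ℕ
  M : ℂ → ℕ
  m : ℂ → ℕ
  qp : ℂ → ℕ
  ap : ℂ → ℂ
  hJ : IsCompact J
  hJf : ∀ z ∈ J, f z ∈ J
  hG : IsOpen G
  hf : DifferentiableOn ℂ f G
  hδ : 0 < δ
  hδ1 : δ ≤ 1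
  hU : thickening δ J ⊆ G
  hSJ : ∀ c ∈ S, c ∈ J
  hne : Ce.Nonempty
  hCr : ∀ z, z ∈ Cr ↔ z ∈ Ce ∨ z ∈ Cl
  hS : ∀ z, z ∈ S ↔ z ∈ Cr ∨ z ∈ Pa
  hel : ∀ c ∈ Ce, c ∉ Cl
  hcp : ∀ c ∈ Cr, c ∉ Pa
  hpf : ∀ p ∈ Pa, f p = p
  hcr : ∀ z ∈ thickening δ J, (deriv f z = 0 ↔ z ∈ Cr)
  hL : 1 ≤ L
  hLf : ∀ z ∈ thickening δ J, ‖deriv f z‖ ≤ L
  hC : 1 ≤ C
  hq : 1 < q
  hr0 : 0 < r0
  hr1 : 4 * r0 ≤ δ
  /-- the points of `S` are separated -/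
  hsep : ∀ c ∈ S, ∀ c' ∈ S, c ≠ c' → 4 * r0 ≤ ‖c - c'‖
  /-- local distortion -/
  hdist : ∀ z ∈ thickening (δ / 2) J, ∀ w : ℂ, ‖w - z‖ < δ / 2 →
    2 * ‖w - z‖ ≤ infDist z (S : Set ℂ) →
      ‖deriv f w - deriv f z‖ * infDist z (S : Set ℂ) ≤ C * ‖deriv f z‖ * ‖w - z‖
  /-- the terminal times -/
  hτ : ∀ c ∈ Cr, 1 ≤ τ c
  hτe : ∀ c ∈ Ce, ∀ j, τ c ≤ j → f^[j] c ∉ S
  hτp : ∀ c ∈ Ce, ∀ j, f^[j] c ∉ Pa ∧ f^[j] c ∉ Cl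
  hτl : ∀ c ∈ Cl, f^[τ c] c ∈ Pa
  hτm : ∀ c ∈ Cl, ∀ j < τ c, f^[j] c ∉ Pa ∧ f^[j] c ∉ Ce
  hτ0 : ∀ p ∈ Pa, τ p = 0
  hm : ∀ c ∈ Cr, 2 ≤ m c
  hmM : ∀ c ∈ Cr, m c ≤ M c
  hMp : ∀ p ∈ Pa, M p = 1
  /-- the Collet-Eckmann condition at the terminal value -/
  ce1 : ∀ c ∈ Ce, ∀ n : ℕ, q ^ n ≤ C * ‖deriv (f^[n]) (f^[τ c] c)‖
  /-- the same condition at the time of a passage near a point of `S` -/
  ce2 : ∀ c ∈ Ce, ∀ c' ∈ S, ∀ n : ℕ,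
    q ^ n ≤ C * ‖deriv (f^[n]) (f^[τ c] c)‖ * ‖f^[n] (f^[τ c] c) - c'‖ ^ (M c' - 1)
  /-- the same two conditions for the first value `f c`, before the next critical point; `c` may be a landing one
  (then the condition says `i + 1 < τ c`) -/
  ce3 : ∀ c ∈ Cr, ∀ i : ℕ, (∀ j, 1 ≤ j → j ≤ i → f^[j] c ∉ Cr) → f^[i + 1] c ∉ Pa →
    q ^ i ≤ C * ‖deriv (f^[i]) (f c)‖
  ce4 : ∀ c ∈ Cr, ∀ i : ℕ, (∀ j, 1 ≤ j → j ≤ i → f^[j] c ∉ Cr) → f^[i + 1] c ∉ Pa →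
    ∀ c' ∈ S, f^[i + 1] c ≠ c' →
      q ^ i ≤ C * ‖deriv (f^[i]) (f c)‖ * ‖f^[i + 1] c - c'‖ ^ (M c' - 1)
  /-- a Collet-Eckmann orbit does not come close to the parabolic and the landing points -/
  ce6 : ∀ c ∈ Ce, ∀ c' ∈ S, c' ∉ Ce → ∀ n : ℕ,
    1 ≤ C * ((n : ℝ) + 1) ^ N6 * ‖f^[n] (f^[τ c] c) - c'‖
  /-- critical relations -/
  rel : ∀ c ∈ Cr, ∀ i : ℕ, (∀ j, 1 ≤ j → j ≤ i → f^[j] c ∉ Cr) → f^[i + 1] c ∈ Cr →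
    M c = m c * M (f^[i + 1] c) ∧ τ c = i + 1 + τ (f^[i + 1] c)
  /-- local form at a critical point, one step -/
  l1 : ∀ c ∈ Cr, ∀ z ∈ ball c r0, ‖f z - f c‖ ≤ C * ‖z - c‖ ^ m c ∧ ‖z - c‖ ^ m c ≤ C * ‖f z - f c‖
  l2 : ∀ c ∈ Cr, ∀ z ∈ ball c r0,
    ‖deriv f z‖ ≤ C * ‖z - c‖ ^ (m c - 1) ∧ ‖z - c‖ ^ (m c - 1) ≤ C * ‖deriv f z‖
  /-- local form at a critical point, until the terminal value -/
  p1 : ∀ c ∈ Cr, ∀ z ∈ ball c r0, ‖f^[τ c] z - f^[τ c] c‖ ≤ C * ‖z - c‖ ^ M c ∧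
    ‖z - c‖ ^ M c ≤ C * ‖f^[τ c] z - f^[τ c] c‖
  p2 : ∀ c ∈ Cr, ∀ z ∈ ball c r0, ‖deriv (f^[τ c]) z‖ ≤ C * ‖z - c‖ ^ (M c - 1) ∧
    ‖z - c‖ ^ (M c - 1) ≤ C * ‖deriv (f^[τ c]) z‖
  p3 : ∀ c ∈ Cr, ∀ z ∈ ball c r0, ∀ j < τ c,
    ‖deriv (f^[j]) z‖ * ‖z - c‖ ≤ C * infDist (f^[j] z) (S : Set ℂ)
  p4 : ∀ c ∈ Cr, ∀ z ∈ ball c r0, ∀ j ≤ τ c, f^[j] z ∈ thickening (δ / 4) J
  /-- before the terminal time the orbit is far from `Pa` -/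
  p5 : ∀ c ∈ Cr, ∀ z ∈ ball c r0, ∀ j < τ c, ∀ p ∈ Pa, 1 ≤ C * ‖f^[j] z - p‖
  p6 : ∀ c ∈ Ce, ∀ z ∈ ball c r0, ∀ c' ∈ S, 1 ≤ C * ‖f^[τ c] z - c'‖
  /-- away from `S` the derivative is bounded below -/
  low : ∀ z ∈ thickening (δ / 2) J, ∀ N : ℕ, (∀ c ∈ Cr, M c ≤ N) →
    (infDist z (S : Set ℂ)) ^ N ≤ C ^ N * ‖deriv f z‖
  /-- the parabolic points: upper bounds -/
  hqp : ∀ p ∈ Pa, 1 ≤ qp p
  hap : ∀ p ∈ Pa, ap p ≠ 0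
  b1 : ∀ p ∈ Pa, ∀ z ∈ ball p r0, ‖f z - p‖ ≤ ‖z - p‖ * Real.exp (C * ‖z - p‖ ^ qp p)
  b2 : ∀ p ∈ Pa, ∀ z ∈ ball p r0, ‖z - p‖ ≤ ‖f z - p‖ * Real.exp (C * ‖z - p‖ ^ qp p)
  b3 : ∀ p ∈ Pa, ∀ z ∈ ball p r0, ‖deriv f z‖ ≤ Real.exp (C * ‖z - p‖ ^ qp p)
  /-- a local inverse -/
  hinv : ∀ p ∈ Pa, ∃ φ : ℂ → ℂ, DifferentiableOn ℂ φ (ball p r0) ∧
    (∀ w ∈ ball p r0, f (φ w) = w ∧ φ w ∈ thickening δ J ∧ ‖φ w - p‖ ≤ 2 * ‖w - p‖ ∧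
      ‖deriv φ w‖ ≤ 2) ∧
    ∀ z ∈ ball p r0, f z ∈ ball p r0 → φ (f z) = z
  /-- the cones -/
  hκ : 0 < κ
  hϑ : 0 < ϑ
  hϑ1 : ϑ ≤ 1 / 4
  hε1 : 0 < ε1
  hV1 : V1 ⊆ V
  hV : V ⊆ thickening (δ / 2) J
  hVp : ∀ p ∈ Pa, p ∉ V
  hVJ : ∀ z ∈ J, z ∉ Pa → ∀ w : ℂ, ‖w - z‖ < ϑ * dS Pa z → w ∈ V1
  hVV : ∀ z ∈ V1, ∀ w : ℂ, ‖w - z‖ < ϑ * dS Pa z → w ∈ V
  hVe : ∀ p ∈ Pa, ∀ z ∈ ball p r0, z ∉ V1 →
    (ap p * (z - p) ^ qp p).re ≤ (1 - ε1) * ‖ap p * (z - p) ^ qp p‖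
  /-- expansion in the cones -/
  a1 : ∀ p ∈ Pa, ∀ z ∈ ball p r0, z ∈ V → ‖z - p‖ * Real.exp (κ * ‖z - p‖ ^ qp p) ≤ ‖f z - p‖
  a2 : ∀ p ∈ Pa, ∀ z ∈ ball p r0, z ∈ V →
    ‖f z - p‖ * Real.exp (κ * ‖z - p‖ ^ qp p) ≤ ‖z - p‖ * ‖deriv f z‖
  /-- no normality at the points of `J` -/
  nn : ∀ x ∈ J, ∀ ρ : ℝ, 0 < ρ → ∃ N : ℕ, ∀ n ≥ N,
    ¬ ((∀ i < n, ∀ z ∈ ball x ρ, f^[i] z ∈ G) ∧ ∀ z ∈ ball x ρ, f^[n] z ∈ V)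
  /-- continuation of inverse branches -/
  cn : ∀ (i : ℕ) (x : ℂ) (r : ℝ) (g : ℂ → ℂ) (u0 : ℂ), 0 < r → ball x r ⊆ V →
    DifferentiableOn ℂ g (ball x r) →
    (∀ w ∈ ball x r, f^[i] (g w) = w ∧ ∀ j < i, f^[j] (g w) ∈ G) →
    u0 ∈ G → f u0 = g x → deriv f u0 ≠ 0 →
    (∃ h : ℂ → ℂ, DifferentiableOn ℂ h (ball x r) ∧ h x = u0 ∧
      ∀ w ∈ ball x r, h w ∈ G ∧ f (h w) = g w) ∨
    ∃ (ρ : ℝ) (b c : ℂ) (h : ℂ → ℂ), 0 < ρ ∧ ρ < r ∧ ‖b - x‖ = ρ ∧ c ∈ Cr ∧ g b = f c ∧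
      DifferentiableOn ℂ h (ball x ρ) ∧ h x = u0 ∧
      (∀ w ∈ ball x ρ, h w ∈ G ∧ f (h w) = g w) ∧ Tendsto h (𝓝[ball x ρ] b) (𝓝 c)

end Pool.Agent.H44.DP
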