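import Pool.Agent.H44.DP.NOHIT
import Pool.Agent.H91.CE.CAU

/-!
# Module EXA: preparations for the exit of small discs

PROOF. `wt_cmp`: for `p ∈ Pa`: `dd x ≤ ‖x - p‖` (`dd_le`), so `‖z - p‖ ≥ ‖x - p‖ - ‖z - x‖ ≥ ‖x - p‖ / 2`, hence `min 1 (‖x - p‖ ^ q) ≤ 2 ^ q * min 1 (‖z - p‖ ^ q)`; product over `Pa` (`Finset.prod_le_prod`, `Finset.prod_pow_eq_pow_sum`, `Ps.Qx`).
`dd_cmp`: `dd_lip`. `osc_one`: otherwise `‖F w - F z‖ ≤ s * ‖deriv F z‖ / 2` on the ball; `cau` (H91/CE/CAU) with `M = 1`, `h t = F (z + t) - F z` gives `‖deriv F z‖ * s ≤ s * ‖deriv F z‖ / 2`, so `deriv F z = 0`, and then the inequality is trivial at `w = z`.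
`nohit2`: `a, b, δ1, δ2, N` from `nohit`, `Z` from `zt_dd`. For `j = 0` everything is trivial (`deriv (f^[0]) z = 1`, `s ≤ 1`, `b > 0`). For `j ≥ 1` apply `nohit` with `k = j - 1`: `TT z j ≤ TT z (j - 1) + 1` (`TT_succ`, `wt_le_one`), so `b' ≥ b + 1`; `dd ≥ zt / Z`, so `exp b' ≥ Z exp b`. Raw time: every `i < j` has `wt (f^[i] z) ≥ dd ^ Qx ≥ (s ^ N / exp b') ^ Qx` (`wt_dd`),
so `j * (s ^ N / exp b') ^ Qx ≤ TT z j ≤ a log (1 / s) + b' ≤ (a + b') / s` (`log y ≤ y`, `s ≤ 1`): `n1 = N * Qx + 1`, `U = (a + b') * exp (b' * Qx)`.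
-/

set_option autoImplicit false

open Filter Topology Metric Set

namespace Pool.Agent.H44.DP

theorem wt_cmp (D : Ps) {x z : ℂ} (h : ‖z - x‖ ≤ D.dd x / 2) : D.wt x ≤ 2 ^ D.Qx * D.wt z := by
  unfold Ps.wt Ps.Qx
  rw [← Finset.prod_pow_eq_pow_sum, ← Finset.prod_mul_distrib]
  refine Finset.prod_le_prod (fun p _ => le_min zero_le_one (by positivity)) fun p hp => ?_
  have h1 := dd_le D hp x
  have h2 : ‖x - p‖ ≤ ‖z - p‖ + ‖z - x‖ := by
    have e : x - p = (z - p) - (z - x) := by ring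
    rw [e]
    exact norm_sub_le _ _
  have h3 : ‖x - p‖ ≤ 2 * ‖z - p‖ := by linarith
  have h4 : (1 : ℝ) ≤ 2 ^ D.qp p := one_le_pow₀ (by norm_num)
  rcases min_choice (1 : ℝ) (‖z - p‖ ^ D.qp p) with h5 | h5
  · rw [h5, mul_one]
    exact (min_le_left _ _).trans h4
  · rw [h5, ← mul_pow]
    exact (min_le_right _ _).trans (pow_le_pow_left₀ (norm_nonneg _) h3 _)

theorem dd_cmp (D : Ps) {x z : ℂ} (h : ‖z - x‖ ≤ D.dd x / 2) :
    D.dd x ≤ 2 * D.dd z ∧ D.dd z ≤ 2 * D.dd x := by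
  have h1 := dd_lip D z x
  rw [abs_sub_le_iff] at h1
  have h2 := dd_nonneg D x
  constructor <;> linarith [h1.1, h1.2]

theorem osc_one {F : ℂ → ℂ} {z : ℂ} {s : ℝ} (hs : 0 < s) (hF : DifferentiableOn ℂ F (ball z s)) :
    ∃ w ∈ ball z s, s * ‖deriv F z‖ / 2 ≤ ‖F w - F z‖ := by
  by_contra hcon
  push Not at hcon
  have h1 := hcon z (mem_ball_self hs)
  rw [sub_self, norm_zero] at h1
  have hmaps : ∀ t ∈ ball (0 : ℂ) s, z + t ∈ ball z s := by
    intro t ht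
    rw [mem_ball_zero_iff] at ht
    rw [mem_ball, dist_eq_norm, add_sub_cancel_left]
    exact ht
  have hd : DifferentiableOn ℂ (fun t => F (z + t) - F z) (ball 0 s) := by
    refine DifferentiableOn.sub_const ?_ _
    exact hF.comp (differentiableOn_id.const_add z) hmaps
  have hderiv : HasDerivAt F (deriv F z) z :=
    (hF.differentiableAt (isOpen_ball.mem_nhds (mem_ball_self hs))).hasDerivAt
  have ha : (fun t : ℂ => (F (z + t) - F z) - deriv F z * t ^ 1) =o[𝓝 0] fun t : ℂ => t ^ 1 := by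
    rw [hasDerivAt_iff_isLittleO_nhds_zero] at hderiv
    simpa [mul_comm] using hderiv
  have h2 := Pool.Agent.H91.CE.cau (h := fun t => F (z + t) - F z) (M := 1)
    (D := s * ‖deriv F z‖ / 2) hs hd (fun t ht => (hcon _ (hmaps t ht)).le) ha
  rw [pow_one] at h2
  linarith

theorem nohit2 (D : Ps) : ∃ (a b δ1 δ2 U : ℝ) (N n1 : ℕ), 0 < a ∧ 0 < b ∧ 0 < δ1 ∧ δ1 ≤ D.δ / 4 ∧
    0 < δ2 ∧ δ2 ≤ D.δ / 4 ∧ 0 < U ∧ ∀ (z : ℂ) (s : ℝ) (j : ℕ), 0 < s → s ≤ 1 / 2 →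
      (∀ i < j, D.f^[i] z ∈ D.V ∧ D.f^[i] z ∈ thickening δ1 D.J ∧
        ∀ w ∈ ball z s, ‖D.f^[i] w - D.f^[i] z‖ ≤ δ2 ∧ D.f^[i] w ∉ D.S) →
      D.TT z j ≤ a * Real.log (1 / s) + b ∧
        (∀ i ≤ j, s ^ N ≤ Real.exp b * ‖deriv (D.f^[i]) z‖) ∧
        (∀ i < j, s ^ N ≤ Real.exp b * D.dd (D.f^[i] z)) ∧ (j : ℝ) * s ^ n1 ≤ U := by
  obtain ⟨a, b0, δ1, δ2, N, ha, hb0, hδ1, hδ1', hδ2, hδ2', hno⟩ := nohit D
  obtain ⟨Z, hZ1, hZ⟩ := zt_dd D
  have hδ := D.hδ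
  have hlZ : 0 ≤ Real.log Z := Real.log_nonneg hZ1
  obtain ⟨b, hb⟩ : ∃ b : ℝ, b = b0 + 1 + Real.log Z := ⟨_, rfl⟩
  have hbp : 0 < b := by linarith
  have heb : Real.exp b0 ≤ Real.exp b := Real.exp_le_exp.2 (by linarith)
  have heZ : Real.exp b0 * Z ≤ Real.exp b := by
    have h1 : Real.exp b0 * Z = Real.exp (b0 + Real.log Z) := by
      rw [Real.exp_add, Real.exp_log (by linarith)]
    rw [h1]
    exact Real.exp_le_exp.2 (by linarith)
  refine ⟨a, b, δ1, δ2, (a + b) * Real.exp b ^ D.Qx, N, N * D.Qx + 1, ha, hbp, hδ1, hδ1', hδ2,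
    hδ2', by positivity, ?_⟩
  intro z s j hs hs2 hH
  have hls : 0 ≤ Real.log (1 / s) := Real.log_nonneg (by rw [le_div_iff₀ hs]; linarith)
  have hmain : D.TT z j ≤ a * Real.log (1 / s) + b ∧
        (∀ i ≤ j, s ^ N ≤ Real.exp b * ‖deriv (D.f^[i]) z‖) ∧
        (∀ i < j, s ^ N ≤ Real.exp b * D.dd (D.f^[i] z)) := by
    rcases Nat.eq_zero_or_pos j with rfl | hj
    · refine ⟨?_, ?_, fun i hi => absurd hi (Nat.not_lt_zero i)⟩
      · rw [TT_zero]
        have := mul_nonneg ha.le hls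
        linarith
      · intro i hi
        rw [Nat.le_zero] at hi
        rw [hi]
        have h7 : D.f^[0] = id := rfl
        rw [h7, deriv_id, norm_one, mul_one]
        exact (pow_le_one₀ hs.le (by linarith)).trans (Real.one_le_exp hbp.le)
    · obtain ⟨k, rfl⟩ : ∃ k, j = k + 1 := ⟨j - 1, by omega⟩
      obtain ⟨h1, h2, h3⟩ := hno z s k hs hs2 fun i hi => hH i (by omega)
      refine ⟨?_, ?_, ?_⟩
      · rw [TT_succ]
        have := wt_le_one D (D.f^[k] z)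
        linarith
      · intro i hi
        exact (h2 i hi).trans (mul_le_mul_of_nonneg_right heb (norm_nonneg _))
      · intro i hi
        refine (h3 i (by omega)).trans ?_
        have h4 : D.f^[i] z ∈ thickening D.δ D.J :=
          thickening_mono (by linarith) _ (hH i hi).2.1
        calc Real.exp b0 * D.zt (D.f^[i] z) ≤ Real.exp b0 * (Z * D.dd (D.f^[i] z)) :=
              mul_le_mul_of_nonneg_left (hZ _ h4) (Real.exp_pos _).le
          _ = Real.exp b0 * Z * D.dd (D.f^[i] z) := by ring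
          _ ≤ Real.exp b * D.dd (D.f^[i] z) := mul_le_mul_of_nonneg_right heZ (dd_nonneg D _)
  refine ⟨hmain.1, hmain.2.1, hmain.2.2, ?_⟩
  have he := Real.exp_pos b
  have h1 : (j : ℝ) * s ^ (N * D.Qx) ≤ Real.exp b ^ D.Qx * D.TT z j := by
    have h2 : ∀ i ∈ Finset.range j, s ^ (N * D.Qx) ≤ Real.exp b ^ D.Qx * D.wt (D.f^[i] z) := by
      intro i hi
      have h3 := hmain.2.2 i (Finset.mem_range.1 hi)
      rw [pow_mul]
      calc (s ^ N) ^ D.Qx ≤ (Real.exp b * D.dd (D.f^[i] z)) ^ D.Qx :=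
            pow_le_pow_left₀ (by positivity) h3 _
        _ = Real.exp b ^ D.Qx * D.dd (D.f^[i] z) ^ D.Qx := mul_pow _ _ _
        _ ≤ _ := mul_le_mul_of_nonneg_left (wt_dd D _) (by positivity)
    have h3 := Finset.sum_le_sum h2
    rw [Finset.sum_const, Finset.card_range, nsmul_eq_mul, ← Finset.mul_sum] at h3
    exact h3
  have h2 : D.TT z j * s ≤ a + b := by
    have h3 : Real.log (1 / s) ≤ 1 / s - 1 := Real.log_le_sub_one_of_pos (by positivity)
    have h4 : Real.log (1 / s) * s ≤ 1 := by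
      calc Real.log (1 / s) * s ≤ (1 / s - 1) * s := mul_le_mul_of_nonneg_right h3 hs.le
        _ = 1 - s := by field_simp
        _ ≤ 1 := by linarith
    calc D.TT z j * s ≤ (a * Real.log (1 / s) + b) * s :=
          mul_le_mul_of_nonneg_right hmain.1 hs.le
      _ = a * (Real.log (1 / s) * s) + b * s := by ring
      _ ≤ a * 1 + b * 1 := by
          have h5 := mul_le_mul_of_nonneg_left h4 ha.le
          have h6 := mul_le_mul_of_nonneg_left (show s ≤ 1 by linarith) hbp.le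
          linarith
      _ = a + b := by ring
  calc (j : ℝ) * s ^ (N * D.Qx + 1) = (j : ℝ) * s ^ (N * D.Qx) * s := by rw [pow_succ]; ring
    _ ≤ Real.exp b ^ D.Qx * D.TT z j * s := mul_le_mul_of_nonneg_right h1 hs.le
    _ = Real.exp b ^ D.Qx * (D.TT z j * s) := by ring
    _ ≤ Real.exp b ^ D.Qx * (a + b) := mul_le_mul_of_nonneg_left h2 (by positivity)
    _ = _ := mul_comm _ _

end Pool.Agent.H44.DP
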