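import Pool.Agent.H44.DP.EXA

/-!
# Module EXB: a disc which meets a critical point

PROOF. Compare H44/DN/EXG (`ex_beta`, `ex_taylor`, the part `hrem`), which can be copied (`Cr` is the set of all critical points here, `D.p1`, `D.p4` hold for `c ∈ Cr`).
Let `c = f^[j] z`, `M = M c`, `d = ‖deriv (f^[j]) z‖ ≥ exp (-b) s ^ N`, `v = vv c`.
(1) `ex_taylor`: for every `l` the function `t ↦ f^[l + (τ c + j)] (z + t) - f^[l + (τ c + j)] z` is `A_l t ^ M + o(t ^ M)`, `‖A_l‖ = ‖deriv (f^[l]) v‖ * ‖β‖ * d ^ M`, `1 ≤ C ‖β‖`.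
(2) All `f^[j] w`, `w ∈ ball z s`, are in `ball c r0` (`hsm`: the distance is at most `δ3 < r0`), so `f^[j + l] w ∈ thickening (δ/4) J ⊆ G` for `l ≤ τ c` (`D.p4`): `f^[τ c + j]` is holomorphic on `ball z s`; and for `l + (τ c + j) ≤ k + 1` `f^[l + (τ c + j)]` is (the points at the times `≤ k` are in `V ⊆ thickening (δ/2) J ⊆ G`).
(3) `c ∈ Cl`: `k < j + τ c`, since otherwise `f^[j + τ c] z ∈ Pa` (`D.hτl`) is in `V` (`D.hVp`). So `k - j ≤ τ c`. (Then `l = 0` is the only case needed in (6).)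
(4) `c ∈ Ce`, `l + (τ c + j) ≤ k`: `cau` with the bound `1` (`hsm`, `δ3 ≤ 1`): `‖A_l‖ s ^ M ≤ 1`; `q ^ l ≤ C ‖deriv (f^[l]) v‖` (`D.ce1`): `q ^ l ≤ C ^ 2 exp (b M) s ^ (-(N + 1) M)`, so `l ≤ A1 log (1/s) + B1` as in DN. Hence `k - j ≤ T + A1 log (1/s) + B1 + 1`, `T` an upper bound of `τ` on `Cr`.
(5) `dd`: for `j ≤ i ≤ k`, `i = j + l`, `l < τ c`: `f^[i] z = f^[l] c`, `1 ≤ C ‖f^[l] c - p‖` for `p ∈ Pa` (`D.p5` with the point `c`), so `dd ≥ 1 / C` (`dd_far`). `i = j + τ c + l` (then `c ∈ Ce` by (3)): `D.ce6` with `c' = p`: `dd ≥ 1 / (C (l + 1) ^ N6)`, `l + 1 ≤ A2 / s` (by (4), `log (1/s) ≤ 1/s`).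
(6) oscillation, `j ≤ i ≤ k + 1`. `i ≥ j + τ c`, `l = i - j - τ c` (`c ∈ Ce`, or `l = 0` since `k + 1 ≤ j + τ c` if `c ∈ Cl`): if `‖f^[i] w - f^[i] z‖ ≤ B` on `ball z s` then `‖A_l‖ s ^ M ≤ B` (`cau`), and `‖A_l‖ ≥ (q ^ l / C) (1/C) d ^ M ≥ C^(-2) exp (-b M) s ^ (N M)` (for `c ∈ Cl`, `l = 0`: `deriv (f^[0]) = 1`). So there is `w` with `‖f^[i] w - f^[i] z‖ ≥ C^(-2) exp (-b Mx) s ^ ((N + 1) Mx) / 2 =: η` (`s ≤ 1`, `M ≤ Mx`).
`j ≤ i < j + τ c`: take `w` for the time `j + τ c` (it is allowed by (2) even if `k + 1 < j + τ c`). Let `e_l = ‖f^[l] w - f^[l] z‖`, `j ≤ l ≤ j + τ c`; `f^[l] z ∈ J`; if `e_l < δ` then the segment from `f^[l] z` to `f^[l] w` is in `ball (f^[l] z) δ ⊆ thickening δ J`, so `e_(l+1) ≤ L e_l` (`D.hLf`). If `e_i < min η δ / L ^ T` then by induction `e_l < min η δ` for all these `l`, in contradiction to `e_(j + τ c) ≥ η`. So `e_i ≥ min η δ / L ^ T ≥ κ s ^ n`.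
-/

set_option autoImplicit false

open Filter Topology Metric Set

namespace Pool.Agent.H44.DP

/-- the leading coefficient of `f^[τ c]` at `c` -/
private theorem ex_beta (D : Ps) {c : ℂ} (hc : c ∈ D.Cr) : ∃ (β : ℂ) (ψ : ℂ → ℂ), 1 ≤ D.C * ‖β‖ ∧
    ContinuousAt ψ c ∧ ψ c = β ∧
    ∀ u, D.f^[D.τ c] u - D.f^[D.τ c] c = ψ u * (u - c) ^ D.M c := by
  classical
  have hM : 2 ≤ D.M c := M_two D hc
  obtain ⟨ψ0, hψ0⟩ : ∃ ψ0 : ℂ → ℂ, ψ0 = fun u => (D.f^[D.τ c] u - D.f^[D.τ c] c) / (u - c) ^ D.M c :=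
    ⟨_, rfl⟩
  have hball : ∀ᶠ u in 𝓝[≠] c, u ∈ ball c D.r0 ∧ u ≠ c := by
    have h1 : ∀ᶠ u in 𝓝[≠] c, u ∈ ball c D.r0 := nhdsWithin_le_nhds (ball_mem_nhds c D.hr0)
    filter_upwards [h1, self_mem_nhdsWithin] with u hu hu'
    exact ⟨hu, hu'⟩
  have hd : ∀ᶠ u in 𝓝[≠] c, DifferentiableAt ℂ ψ0 u := by
    filter_upwards [hball] with u hu
    have h1 : DifferentiableAt ℂ (D.f^[D.τ c]) u := by
      refine it_diff D fun l hl => D.hU ?_
      refine thickening_mono ?_ _ (D.p4 c hc u hu.1 l hl.le)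
      linarith [D.hδ]
    rw [hψ0]
    exact (h1.sub_const _).div ((differentiableAt_id.sub_const c).pow _)
      (pow_ne_zero _ (sub_ne_zero.2 hu.2))
  have hψc : ψ0 c = 0 := by
    rw [hψ0]
    simp
  have hCpos : 0 < D.C := by linarith [D.hC]
  have hbd : ∀ᶠ u in 𝓝[≠] c, ‖ψ0 u‖ ≤ D.C ∧ 1 ≤ D.C * ‖ψ0 u‖ := by
    filter_upwards [hball] with u hu
    have h1 := D.p1 c hc u hu.1
    have h2 : 0 < ‖u - c‖ ^ D.M c := pow_pos (norm_pos_iff.2 (sub_ne_zero.2 hu.2)) _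
    have h3 : ‖ψ0 u‖ = ‖D.f^[D.τ c] u - D.f^[D.τ c] c‖ / ‖u - c‖ ^ D.M c := by
      rw [hψ0]
      simp only [norm_div, norm_pow]
    constructor
    · rw [h3, div_le_iff₀ h2]
      exact h1.1
    · rw [h3, mul_div_assoc', le_div_iff₀ h2, one_mul]
      exact h1.2
  have hbb : IsBoundedUnder (· ≤ ·) (𝓝[≠] c) fun u => ‖ψ0 u - ψ0 c‖ := by
    refine ⟨D.C, ?_⟩
    rw [Filter.eventually_map]
    filter_upwards [hbd] with u hu
    rw [hψc, sub_zero]
    exact hu.1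
  have hlim := Complex.tendsto_limUnder_of_differentiable_on_punctured_nhds_of_bounded_under hd hbb
  obtain ⟨β, hβ⟩ : ∃ β, β = limUnder (𝓝[≠] c) ψ0 := ⟨_, rfl⟩
  rw [← hβ] at hlim
  refine ⟨β, Function.update ψ0 c β, ?_, ?_, ?_, ?_⟩
  · exact ge_of_tendsto (hlim.norm.const_mul D.C) (hbd.mono fun u hu => hu.2)
  · rw [continuousAt_update_same]
    exact hlim
  · exact Function.update_self ..
  · intro u
    rcases eq_or_ne u c with h | h
    · rw [h, sub_self, sub_self, zero_pow (by omega), mul_zero]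
    · rw [Function.update_of_ne h, hψ0]
      have : (u - c) ^ D.M c ≠ 0 := pow_ne_zero _ (sub_ne_zero.2 h)
      field_simp

private theorem ex_taylor (D : Ps) {z c : ℂ} {j i : ℕ} (hzG : ∀ l < j, D.f^[l] z ∈ D.G)
    (hc : c ∈ D.Cr) (hzc : D.f^[j] z = c) : ∃ β : ℂ, 1 ≤ D.C * ‖β‖ ∧
    (fun t : ℂ => (D.f^[i + (D.τ c + j)] (z + t) - D.f^[i + (D.τ c + j)] z) -
      (deriv (D.f^[i]) (D.f^[D.τ c] c) * β * deriv (D.f^[j]) z ^ D.M c) * t ^ D.M c)
      =o[𝓝 0] fun t => t ^ D.M c := by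
  obtain ⟨β, ψ, hβ, hψ, hψc, hψe⟩ := ex_beta D hc
  refine ⟨β, hβ, ?_⟩
  have hJ : ∀ l, D.f^[l] c ∈ D.J := fun l => it_J D (D.hSJ c (cr_S D hc)) l
  have hdj : DifferentiableAt ℂ (D.f^[j]) z := it_diff D hzG
  have hdτ : DifferentiableAt ℂ (D.f^[D.τ c]) c :=
    it_diff D fun l _ => D.hU (J_th D (hJ l) D.hδ)
  have hdi : DifferentiableAt ℂ (D.f^[i]) (D.f^[D.τ c] c) := by
    refine it_diff D fun l _ => D.hU (J_th D ?_ D.hδ)
    rw [← Function.iterate_add_apply]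
    exact hJ _
  obtain ⟨Θ, hΘ⟩ : ∃ Θ : ℂ → ℂ, Θ = fun t =>
      dslope (D.f^[i]) (D.f^[D.τ c] c) (D.f^[D.τ c] (D.f^[j] (z + t))) * ψ (D.f^[j] (z + t)) *
        (dslope (D.f^[j]) z (z + t)) ^ D.M c := ⟨_, rfl⟩
  have hadd : ContinuousAt (fun t : ℂ => z + t) 0 := by fun_prop
  have hcj : ContinuousAt (fun t : ℂ => D.f^[j] (z + t)) 0 := by
    refine ContinuousAt.comp (g := D.f^[j]) ?_ hadd
    rw [add_zero]
    exact hdj.continuousAt
  have hcτ : ContinuousAt (fun t : ℂ => D.f^[D.τ c] (D.f^[j] (z + t))) 0 := by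
    refine ContinuousAt.comp (g := D.f^[D.τ c]) (f := fun t : ℂ => D.f^[j] (z + t)) ?_ hcj
    simp only [add_zero]
    rw [hzc]
    exact hdτ.continuousAt
  have hc1 : ContinuousAt (fun t : ℂ =>
      dslope (D.f^[i]) (D.f^[D.τ c] c) (D.f^[D.τ c] (D.f^[j] (z + t)))) 0 := by
    refine ContinuousAt.comp (g := dslope (D.f^[i]) (D.f^[D.τ c] c))
      (f := fun t : ℂ => D.f^[D.τ c] (D.f^[j] (z + t))) ?_ hcτ
    simp only [add_zero]
    rw [hzc]
    exact continuousAt_dslope_same.2 hdi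
  have hc2 : ContinuousAt (fun t : ℂ => ψ (D.f^[j] (z + t))) 0 := by
    refine ContinuousAt.comp (g := ψ) (f := fun t : ℂ => D.f^[j] (z + t)) ?_ hcj
    simp only [add_zero]
    rw [hzc]
    exact hψ
  have hc3 : ContinuousAt (fun t : ℂ => dslope (D.f^[j]) z (z + t)) 0 := by
    refine ContinuousAt.comp (g := dslope (D.f^[j]) z) ?_ hadd
    rw [add_zero]
    exact continuousAt_dslope_same.2 hdj
  have hΘc : ContinuousAt Θ 0 := by
    rw [hΘ]
    exact (hc1.mul hc2).mul (hc3.pow _)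
  have hΘ0 : Θ 0 = deriv (D.f^[i]) (D.f^[D.τ c] c) * β * deriv (D.f^[j]) z ^ D.M c := by
    rw [hΘ]
    simp only [add_zero]
    rw [hzc, dslope_same, dslope_same, hψc]
  have hF : ∀ t, D.f^[i + (D.τ c + j)] (z + t) - D.f^[i + (D.τ c + j)] z = Θ t * t ^ D.M c := by
    intro t
    have e1 : ∀ w, D.f^[i + (D.τ c + j)] w = D.f^[i] (D.f^[D.τ c] (D.f^[j] w)) := by
      intro w
      rw [Function.iterate_add_apply, Function.iterate_add_apply]
    rw [e1, e1, hzc]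
    have e2 := sub_smul_dslope (D.f^[i]) (D.f^[D.τ c] c) (D.f^[D.τ c] (D.f^[j] (z + t)))
    have e3 := hψe (D.f^[j] (z + t))
    have e4 := sub_smul_dslope (D.f^[j]) z (z + t)
    rw [smul_eq_mul] at e2 e4
    rw [add_sub_cancel_left, hzc] at e4
    rw [← e2, e3, ← e4, hΘ, mul_pow]
    ring
  have h1 : (fun t : ℂ => (D.f^[i + (D.τ c + j)] (z + t) - D.f^[i + (D.τ c + j)] z) -
      (deriv (D.f^[i]) (D.f^[D.τ c] c) * β * deriv (D.f^[j]) z ^ D.M c) * t ^ D.M c) =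
      fun t => (Θ t - Θ 0) * t ^ D.M c := by
    funext t
    rw [hF t, hΘ0]
    ring
  rw [h1]
  have h2 : (fun t : ℂ => Θ t - Θ 0) =o[𝓝 0] fun _ => (1 : ℂ) := by
    rw [Asymptotics.isLittleO_one_iff]
    have := hΘc.tendsto.sub_const (Θ 0)
    rwa [sub_self] at this
  have h3 := h2.mul_isBigO (Asymptotics.isBigO_refl (fun t : ℂ => t ^ D.M c) (𝓝 0))
  simpa using h3

private theorem exb_step (D : Ps) {x y : ℂ} (hx : x ∈ D.J) (h : ‖y - x‖ < D.δ) :
    ‖D.f y - D.f x‖ ≤ D.L * ‖y - x‖ := by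
  have hsub : ∀ w ∈ ball x D.δ, w ∈ thickening D.δ D.J := by
    intro w hw
    rw [mem_thickening_iff]
    exact ⟨x, hx, hw⟩
  refine Convex.norm_image_sub_le_of_norm_deriv_le (s := ball x D.δ) (fun w hw => ?_)
    (fun w hw => D.hLf w (hsub w hw)) (convex_ball x D.δ) (mem_ball_self D.hδ) ?_
  · exact D.hf.differentiableAt (D.hG.mem_nhds (D.hU (hsub w hw)))
  · rw [mem_ball, dist_eq_norm]
    exact h

theorem hit (D : Ps) (b : ℝ) (N : ℕ) (hb : 0 < b) : ∃ (A B κ : ℝ) (n : ℕ), 0 < A ∧ 0 < B ∧ 0 < κ ∧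
    κ ≤ 1 ∧ ∀ (z : ℂ) (s : ℝ) (j k : ℕ), 0 < s → s ≤ 1 / 2 → j ≤ k → D.f^[j] z ∈ D.Cr →
      (∀ i ≤ k, ∀ w ∈ ball z s, D.f^[i] w ∈ D.V ∧ ‖D.f^[i] w - D.f^[i] z‖ ≤ D.r0 / 2) →
      s ^ N ≤ Real.exp b * ‖deriv (D.f^[j]) z‖ →
      ((k - j : ℕ) : ℝ) ≤ A * Real.log (1 / s) + B ∧
        (∀ i, j ≤ i → i ≤ k → κ * s ^ n ≤ D.dd (D.f^[i] z)) ∧
        ∀ i, j ≤ i → i ≤ k + 1 → ∃ w ∈ ball z s, κ * s ^ n ≤ ‖D.f^[i] w - D.f^[i] z‖ := by
  have hC := D.hC
  have hC0 : 0 < D.C := by linarith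
  have hL := D.hL
  have hL0 : 0 < D.L := by linarith
  have hδ := D.hδ
  have hδ1 := D.hδ1
  have hr0 := D.hr0
  have hr1 := D.hr1
  have hlq : 0 < Real.log D.q := Real.log_pos D.hq
  have hq0 : 0 < D.q := by linarith [D.hq]
  have hlC : 0 ≤ Real.log D.C := Real.log_nonneg hC
  obtain ⟨T, hT⟩ : ∃ T : ℕ, T = ∑ c ∈ D.Cr, D.τ c := ⟨_, rfl⟩
  have hτT : ∀ c ∈ D.Cr, D.τ c ≤ T := fun c hc => by
    rw [hT]
    exact Finset.single_le_sum (f := fun c => D.τ c) (fun _ _ => Nat.zero_le _) hc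
  have hMx : ∀ c ∈ D.Cr, D.M c ≤ D.Mx := fun c hc => by
    unfold Ps.Mx
    exact Finset.single_le_sum (f := fun c => D.M c) (fun _ _ => Nat.zero_le _) (cr_S D hc)
  obtain ⟨A1, hA1⟩ : ∃ A1 : ℝ, A1 = ((N : ℝ) + 1) * D.Mx / Real.log D.q := ⟨_, rfl⟩
  obtain ⟨B1, hB1⟩ : ∃ B1 : ℝ, B1 = (2 * Real.log D.C + b * D.Mx) / Real.log D.q := ⟨_, rfl⟩
  have hA10 : 0 ≤ A1 := by rw [hA1]; positivity
  have hB10 : 0 ≤ B1 := by rw [hB1]; positivity
  obtain ⟨A2, hA2⟩ : ∃ A2 : ℝ, A2 = A1 + B1 + 1 := ⟨_, rfl⟩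
  have hA21 : 1 ≤ A2 := by rw [hA2]; linarith
  have hA20 : 0 < A2 := by linarith
  obtain ⟨E, hE⟩ : ∃ E : ℝ, E = Real.exp (-(b * D.Mx)) / D.C ^ 2 / 2 := ⟨_, rfl⟩
  have hE0 : 0 < E := by
    rw [hE]
    have := Real.exp_pos (-(b * D.Mx))
    positivity
  have hLT : 0 < D.L ^ T := by positivity
  have hLT1 : 1 ≤ D.L ^ T := one_le_pow₀ hL
  obtain ⟨κ, hκ⟩ : ∃ κ : ℝ, κ = min (min (E / D.L ^ T) (D.δ / D.L ^ T)) (1 / (D.C * A2 ^ D.N6)) :=
    ⟨_, rfl⟩
  have hκ0 : 0 < κ := by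
    rw [hκ]
    exact lt_min (lt_min (by positivity) (by positivity)) (by positivity)
  have hκa : κ ≤ E / D.L ^ T := by
    rw [hκ]
    exact (min_le_left _ _).trans (min_le_left _ _)
  have hκb : κ ≤ D.δ / D.L ^ T := by
    rw [hκ]
    exact (min_le_left _ _).trans (min_le_right _ _)
  have hκc : κ ≤ 1 / (D.C * A2 ^ D.N6) := by
    rw [hκ]
    exact min_le_right _ _
  have hCA : 1 ≤ D.C * A2 ^ D.N6 := by
    calc (1 : ℝ) = 1 * 1 := by norm_num
      _ ≤ D.C * A2 ^ D.N6 := mul_le_mul hC (one_le_pow₀ hA21) zero_le_one hC0.le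
  have hκ1 : κ ≤ 1 := hκc.trans ((div_le_one (by positivity)).2 hCA)
  refine ⟨A1 + 1, B1 + T + 1, κ, (N + 1) * D.Mx + D.N6, by positivity, by positivity, hκ0, hκ1, ?_⟩
  intro z s j k hs hs1 hjk hc hsm hder
  obtain ⟨c, hcd⟩ : ∃ c, c = D.f^[j] z := ⟨_, rfl⟩
  rw [← hcd] at hc
  have hcS := cr_S D hc
  have hcJ : c ∈ D.J := D.hSJ c hcS
  have hs1' : s ≤ 1 := by linarith
  have hL1 : 0 ≤ Real.log (1 / s) := by
    refine Real.log_nonneg ?_
    rw [le_div_iff₀ hs]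
    linarith
  have hitc : ∀ l, D.f^[j + l] z = D.f^[l] c := by
    intro l
    rw [add_comm, Function.iterate_add_apply, ← hcd]
  have hVG : ∀ w ∈ D.V, w ∈ D.G := fun w hw =>
    D.hU (thickening_mono (by linarith) _ (D.hV hw))
  -- the points are in `G`
  have hballc : ∀ w ∈ ball z s, D.f^[j] w ∈ ball c D.r0 := by
    intro w hw
    rw [mem_ball, dist_eq_norm, hcd]
    have := (hsm j hjk w hw).2
    linarith
  have hG1 : ∀ w ∈ ball z s, ∀ i ≤ k, D.f^[i] w ∈ D.G := fun w hw i hi =>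
    hVG _ (hsm i hi w hw).1
  have hG2 : ∀ w ∈ ball z s, ∀ l ≤ D.τ c, D.f^[j + l] w ∈ D.G := by
    intro w hw l hl
    have h1 := D.p4 c hc _ (hballc w hw) l hl
    rw [← Function.iterate_add_apply, add_comm] at h1
    exact D.hU (thickening_mono (by linarith) _ h1)
  have hG : ∀ w ∈ ball z s, ∀ i, (i ≤ k ∨ i ≤ j + D.τ c) → D.f^[i] w ∈ D.G := by
    intro w hw i hi
    rcases le_or_gt i k with h | h
    · exact hG1 w hw i h
    · have h1 : i = j + (i - j) := by omega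
      rw [h1]
      exact hG2 w hw _ (by omega)
  have hzb : z ∈ ball z s := mem_ball_self hs
  -- a landing point is not reached
  have hland : c ∈ D.Cl → k < j + D.τ c := by
    intro hcl
    by_contra h
    rw [not_lt] at h
    have h1 := (hsm _ h z hzb).1
    rw [hitc] at h1
    exact D.hVp _ (D.hτl c hcl) h1
  have hCe : D.τ c + j ≤ k → c ∈ D.Ce := by
    intro h
    rcases (D.hCr c).1 hc with h1 | h1
    · exact h1
    · have := hland h1
      omega
  obtain ⟨M, hM⟩ : ∃ M, M = D.M c := ⟨_, rfl⟩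
  have hMle : M ≤ D.Mx := by rw [hM]; exact hMx c hc
  obtain ⟨d, hdd⟩ : ∃ d, d = ‖deriv (D.f^[j]) z‖ := ⟨_, rfl⟩
  rw [← hdd] at hder
  have hd0 : 0 ≤ d := by rw [hdd]; exact norm_nonneg _
  have f1 : (s ^ N) ^ M ≤ (Real.exp b * d) ^ M := pow_le_pow_left₀ (by positivity) hder M
  -- the Cauchy estimate
  have hcau : ∀ (l : ℕ) (Bd : ℝ), (l + (D.τ c + j) ≤ k + 1 ∨ l = 0) →
      (∀ w ∈ ball z s, ‖D.f^[l + (D.τ c + j)] w - D.f^[l + (D.τ c + j)] z‖ ≤ Bd) →
      ‖deriv (D.f^[l]) (D.f^[D.τ c] c)‖ * ((s ^ N) ^ M * s ^ M) ≤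
        D.C * Real.exp b ^ M * Bd := by
    intro l Bd hl hbd
    obtain ⟨β, hβ, hlo⟩ := ex_taylor D (z := z) (c := c) (j := j) (i := l)
      (fun l hl => hG1 z hzb l (by omega)) hc hcd.symm
    have hd : DifferentiableOn ℂ (fun t : ℂ => D.f^[l + (D.τ c + j)] (z + t) -
        D.f^[l + (D.τ c + j)] z) (ball 0 s) := by
      intro t ht
      have hzt : z + t ∈ ball z s := by
        rw [mem_ball, dist_eq_norm, add_sub_cancel_left]
        rwa [mem_ball_zero_iff] at ht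
      have e1 : DifferentiableAt ℂ (D.f^[l + (D.τ c + j)]) (z + t) :=
        it_diff D fun a ha => hG _ hzt a (by omega)
      have e2 : DifferentiableAt ℂ (fun t : ℂ => z + t) t := by fun_prop
      exact ((e1.comp t e2).sub_const _).differentiableWithinAt
    have hbd' : ∀ t ∈ ball (0 : ℂ) s, ‖D.f^[l + (D.τ c + j)] (z + t) -
        D.f^[l + (D.τ c + j)] z‖ ≤ Bd := by
      intro t ht
      have hzt : z + t ∈ ball z s := by
        rw [mem_ball, dist_eq_norm, add_sub_cancel_left]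
        rwa [mem_ball_zero_iff] at ht
      exact hbd _ hzt
    have hcau := Pool.Agent.H91.CE.cau hs hd hbd' hlo
    rw [norm_mul, norm_mul, norm_pow, ← hM, ← hdd] at hcau
    obtain ⟨e, he⟩ : ∃ e, e = ‖deriv (D.f^[l]) (D.f^[D.τ c] c)‖ := ⟨_, rfl⟩
    rw [← he] at hcau ⊢
    have he0 : 0 ≤ e := by rw [he]; exact norm_nonneg _
    calc e * ((s ^ N) ^ M * s ^ M) = (e * 1) * ((s ^ N) ^ M * s ^ M) := by ring
      _ ≤ (e * (D.C * ‖β‖)) * ((Real.exp b * d) ^ M * s ^ M) :=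
          mul_le_mul (mul_le_mul_of_nonneg_left hβ he0)
            (mul_le_mul_of_nonneg_right f1 (by positivity)) (by positivity) (by positivity)
      _ = D.C * Real.exp b ^ M * (e * ‖β‖ * d ^ M * s ^ M) := by
          rw [mul_pow]
          ring
      _ ≤ D.C * Real.exp b ^ M * Bd := mul_le_mul_of_nonneg_left hcau (by positivity)
  -- the remaining time
  have hrem : ∀ l : ℕ, l + (D.τ c + j) ≤ k → (l : ℝ) ≤ A1 * Real.log (1 / s) + B1 := by
    intro l hl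
    have hce := D.ce1 c (hCe (by omega)) l
    have h1 := hcau l 1 (Or.inl (by omega)) (fun w hw => by
      have := (hsm _ hl w hw).2
      linarith)
    rw [mul_one] at h1
    have f2 : D.q ^ l * ((s ^ N) ^ M * s ^ M) ≤ D.C ^ 2 * Real.exp b ^ M := by
      calc D.q ^ l * ((s ^ N) ^ M * s ^ M)
          ≤ (D.C * ‖deriv (D.f^[l]) (D.f^[D.τ c] c)‖) * ((s ^ N) ^ M * s ^ M) :=
            mul_le_mul_of_nonneg_right hce (by positivity)
        _ = D.C * (‖deriv (D.f^[l]) (D.f^[D.τ c] c)‖ * ((s ^ N) ^ M * s ^ M)) := by ring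
        _ ≤ D.C * (D.C * Real.exp b ^ M) := mul_le_mul_of_nonneg_left h1 hC0.le
        _ = _ := by ring
    have f3 := Real.log_le_log (by positivity) f2
    rw [Real.log_mul (by positivity) (by positivity), Real.log_mul (by positivity) (by positivity),
      Real.log_mul (by positivity) (by positivity), Real.log_pow, Real.log_pow, Real.log_pow,
      Real.log_pow, Real.log_pow, Real.log_pow, Real.log_exp] at f3
    have hls : -Real.log s = Real.log (1 / s) := by rw [one_div, Real.log_inv]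
    have hMR : (M : ℝ) ≤ D.Mx := by exact_mod_cast hMle
    have hN0 : (0 : ℝ) ≤ N := Nat.cast_nonneg _
    have hM0 : (0 : ℝ) ≤ M := Nat.cast_nonneg _
    have g4 : ((N : ℝ) + 1) * M * Real.log (1 / s) ≤ ((N : ℝ) + 1) * D.Mx * Real.log (1 / s) :=
      mul_le_mul_of_nonneg_right (mul_le_mul_of_nonneg_left hMR (by positivity)) hL1
    have g5 : (M : ℝ) * b ≤ b * D.Mx := by
      rw [mul_comm]
      exact mul_le_mul_of_nonneg_left hMR hb.le
    have f5 : A1 * Real.log (1 / s) + B1 = (2 * Real.log D.C + b * D.Mx +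
        ((N : ℝ) + 1) * D.Mx * Real.log (1 / s)) / Real.log D.q := by
      rw [hA1, hB1]
      ring
    rw [f5, le_div_iff₀ hlq]
    push_cast at f3
    rw [← hls] at g4 ⊢
    nlinarith
  refine ⟨?_, ?_, ?_⟩
  · -- time
    have hcast : ((k - j : ℕ) : ℝ) = (k : ℝ) - j := Nat.cast_sub hjk
    rcases le_or_gt (D.τ c + j) k with h | h
    · have h1 := hrem (k - (D.τ c + j)) (by omega)
      have h2 : ((k - j : ℕ) : ℝ) = ((k - (D.τ c + j) : ℕ) : ℝ) + D.τ c := by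
        have : k - j = k - (D.τ c + j) + D.τ c := by omega
        rw [this]
        push_cast
        ring
      have h3 : (D.τ c : ℝ) ≤ T := by exact_mod_cast hτT c hc
      rw [h2]
      nlinarith
    · have h2 : ((k - j : ℕ) : ℝ) ≤ D.τ c := by
        exact_mod_cast (by omega : k - j ≤ D.τ c)
      have h3 : (D.τ c : ℝ) ≤ T := by exact_mod_cast hτT c hc
      have h4 : 0 ≤ (A1 + 1) * Real.log (1 / s) := by positivity
      linarith
  · -- distance to the parabolic points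
    intro i hji hik
    have hsn : s ^ ((N + 1) * D.Mx + D.N6) ≤ s ^ D.N6 :=
      pow_le_pow_of_le_one hs.le hs1' (by omega)
    have hgoal : κ * s ^ ((N + 1) * D.Mx + D.N6) ≤ 1 / (D.C * A2 ^ D.N6) * s ^ D.N6 :=
      mul_le_mul hκc hsn (by positivity) (by positivity)
    refine hgoal.trans ?_
    obtain ⟨l, rfl⟩ : ∃ l, i = j + l := ⟨i - j, by omega⟩
    rw [hitc]
    have hle1 : 1 / (D.C * A2 ^ D.N6) * s ^ D.N6 ≤ 1 := by
      calc 1 / (D.C * A2 ^ D.N6) * s ^ D.N6 ≤ 1 * 1 :=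
            mul_le_mul ((div_le_one (by positivity)).2 hCA) (pow_le_one₀ hs.le hs1')
              (by positivity) zero_le_one
        _ = 1 := one_mul 1
    refine dd_far D hle1 fun p hp => ?_
    rcases lt_or_ge l (D.τ c) with h | h
    · have h1 := D.p5 c hc c (mem_ball_self hr0) l h p hp
      have h2 : 1 / D.C ≤ ‖D.f^[l] c - p‖ := by
        rw [div_le_iff₀ hC0]
        linarith
      refine le_trans ?_ h2
      calc 1 / (D.C * A2 ^ D.N6) * s ^ D.N6 ≤ 1 / D.C * 1 := by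
            refine mul_le_mul ?_ (pow_le_one₀ hs.le hs1') (by positivity) (by positivity)
            refine one_div_le_one_div_of_le hC0 ?_
            exact le_mul_of_one_le_right hC0.le (one_le_pow₀ hA21)
        _ = 1 / D.C := mul_one _
    · obtain ⟨l', rfl⟩ : ∃ l', l = l' + D.τ c := ⟨l - D.τ c, by omega⟩
      have hce : c ∈ D.Ce := hCe (by omega)
      have hpCe : p ∉ D.Ce := fun h1 => D.hcp p (ce_Cr D h1) hp
      have h1 := D.ce6 c hce p (pa_S D hp) hpCe l'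
      rw [← Function.iterate_add_apply] at h1
      have h2 := hrem l' (by omega)
      have h3 : Real.log (1 / s) ≤ 1 / s :=
        (Real.log_le_sub_one_of_pos (by positivity)).trans (by linarith)
      have h4 : 1 ≤ 1 / s := by
        rw [le_div_iff₀ hs]
        linarith
      have h5 : (l' : ℝ) + 1 ≤ A2 / s := by
        have e1 : A2 / s = A1 * (1 / s) + B1 * (1 / s) + 1 / s := by
          rw [hA2]
          ring
        have e2 := mul_le_mul_of_nonneg_left h3 hA10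
        have e3 := mul_le_mul_of_nonneg_left h4 hB10
        rw [e1]
        linarith
      have h6 : ((l' : ℝ) + 1) ^ D.N6 ≤ A2 ^ D.N6 / s ^ D.N6 := by
        rw [← div_pow]
        exact pow_le_pow_left₀ (by positivity) h5 _
      have h7 : 1 ≤ D.C * (A2 ^ D.N6 / s ^ D.N6) * ‖D.f^[l' + D.τ c] c - p‖ := by
        refine h1.trans ?_
        refine mul_le_mul_of_nonneg_right ?_ (norm_nonneg _)
        exact mul_le_mul_of_nonneg_left h6 hC0.le
      have h8 : 1 / (D.C * A2 ^ D.N6) * s ^ D.N6 = 1 / (D.C * (A2 ^ D.N6 / s ^ D.N6)) := by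
        field_simp
      rw [h8, div_le_iff₀ (by positivity), mul_comm]
      exact h7
  · -- oscillation
    intro i hji hik
    obtain ⟨η, hη⟩ : ∃ η : ℝ, η = E * s ^ ((N + 1) * D.Mx) := ⟨_, rfl⟩
    have hη0 : 0 < η := by rw [hη]; positivity
    have hsn : s ^ ((N + 1) * D.Mx + D.N6) ≤ s ^ ((N + 1) * D.Mx) :=
      pow_le_pow_of_le_one hs.le hs1' (by omega)
    have hfin1 : κ * s ^ ((N + 1) * D.Mx + D.N6) ≤ η / D.L ^ T := by
      calc κ * s ^ ((N + 1) * D.Mx + D.N6) ≤ E / D.L ^ T * s ^ ((N + 1) * D.Mx) :=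
            mul_le_mul hκa hsn (by positivity) (by positivity)
        _ = η / D.L ^ T := by
          rw [hη]
          ring
    have hfin2 : κ * s ^ ((N + 1) * D.Mx + D.N6) ≤ D.δ / D.L ^ T := by
      calc κ * s ^ ((N + 1) * D.Mx + D.N6) ≤ D.δ / D.L ^ T * 1 :=
            mul_le_mul hκb (pow_le_one₀ hs.le hs1') (by positivity) (by positivity)
        _ = _ := mul_one _
    have hosc : ∀ l, (l + (D.τ c + j) ≤ k + 1 ∧ c ∈ D.Ce) ∨ l = 0 →
        ∃ w ∈ ball z s, η ≤ ‖D.f^[l + (D.τ c + j)] w - D.f^[l + (D.τ c + j)] z‖ := by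
      intro l hl
      by_contra hcon
      push Not at hcon
      have h1 := hcau l η (by
        rcases hl with h | h
        · exact Or.inl h.1
        · exact Or.inr h) (fun w hw => (hcon w hw).le)
      have h2 : 1 ≤ D.C * ‖deriv (D.f^[l]) (D.f^[D.τ c] c)‖ := by
        rcases hl with h | h
        · exact (one_le_pow₀ D.hq.le).trans (D.ce1 c h.2 l)
        · rw [h]
          have e1 : D.f^[0] = id := Function.iterate_zero D.f
          rw [e1, deriv_id, norm_one, mul_one]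
          exact hC
      have h3 : (s ^ N) ^ M * s ^ M ≤ D.C ^ 2 * Real.exp b ^ M * η := by
        calc (s ^ N) ^ M * s ^ M = 1 * ((s ^ N) ^ M * s ^ M) := (one_mul _).symm
          _ ≤ (D.C * ‖deriv (D.f^[l]) (D.f^[D.τ c] c)‖) * ((s ^ N) ^ M * s ^ M) :=
            mul_le_mul_of_nonneg_right h2 (by positivity)
          _ = D.C * (‖deriv (D.f^[l]) (D.f^[D.τ c] c)‖ * ((s ^ N) ^ M * s ^ M)) := by ring
          _ ≤ D.C * (D.C * Real.exp b ^ M * η) := mul_le_mul_of_nonneg_left h1 hC0.le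
          _ = _ := by ring
      have h4 : s ^ ((N + 1) * D.Mx) ≤ (s ^ N) ^ M * s ^ M := by
        have e1 : (s ^ N) ^ M * s ^ M = s ^ ((N + 1) * M) := by
          rw [← pow_mul, ← pow_add]
          congr 1
          ring
        rw [e1]
        exact pow_le_pow_of_le_one hs.le hs1' (Nat.mul_le_mul le_rfl hMle)
      have h5 : Real.exp b ^ M ≤ Real.exp (b * D.Mx) := by
        rw [← Real.exp_nat_mul]
        apply Real.exp_le_exp.2
        rw [mul_comm]
        have hMR : (M : ℝ) ≤ D.Mx := by exact_mod_cast hMle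
        exact mul_le_mul_of_nonneg_left hMR hb.le
      have h6 : s ^ ((N + 1) * D.Mx) ≤ D.C ^ 2 * Real.exp (b * D.Mx) * η := by
        refine h4.trans (h3.trans ?_)
        refine mul_le_mul_of_nonneg_right ?_ hη0.le
        exact mul_le_mul_of_nonneg_left h5 (by positivity)
      have h7 : D.C ^ 2 * Real.exp (b * D.Mx) * η = s ^ ((N + 1) * D.Mx) / 2 := by
        rw [hη, hE, Real.exp_neg]
        have := Real.exp_pos (b * D.Mx)
        field_simp
      rw [h7] at h6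
      have h8 : 0 < s ^ ((N + 1) * D.Mx) := by positivity
      linarith
    rcases le_or_gt (D.τ c + j) i with h | h
    · have h1 : i = (i - (D.τ c + j)) + (D.τ c + j) := by omega
      obtain ⟨w, hw, hw'⟩ := hosc (i - (D.τ c + j)) (by
        rcases (D.hCr c).1 hc with h2 | h2
        · exact Or.inl ⟨by omega, h2⟩
        · have := hland h2
          exact Or.inr (by omega))
      rw [← h1] at hw'
      refine ⟨w, hw, hfin1.trans (le_trans ?_ hw')⟩
      exact div_le_self hη0.le hLT1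
    · obtain ⟨w, hw, hw'⟩ := hosc 0 (Or.inr rfl)
      rw [zero_add] at hw'
      refine ⟨w, hw, ?_⟩
      by_contra hcon
      rw [not_le] at hcon
      obtain ⟨a, ha⟩ : ∃ a : ℝ, a = ‖D.f^[i] w - D.f^[i] z‖ := ⟨_, rfl⟩
      rw [← ha] at hcon
      have ha0 : 0 ≤ a := by rw [ha]; exact norm_nonneg _
      have hLa1 : D.L ^ T * a < η := by
        have := hcon.trans_le hfin1
        rw [lt_div_iff₀ hLT] at this
        linarith
      have hLa2 : D.L ^ T * a < D.δ := by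
        have := hcon.trans_le hfin2
        rw [lt_div_iff₀ hLT] at this
        linarith
      have hτc := hτT c hc
      have hind : ∀ m : ℕ, i + m ≤ D.τ c + j →
          ‖D.f^[i + m] w - D.f^[i + m] z‖ ≤ D.L ^ m * a := by
        intro m
        induction m with
        | zero =>
          intro _
          rw [add_zero, pow_zero, one_mul, ha]
        | succ m ih =>
          intro hm
          have h1 := ih (by omega)
          have h2 : D.L ^ m ≤ D.L ^ T := pow_le_pow_right₀ hL (by omega)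
          have h3 : ‖D.f^[i + m] w - D.f^[i + m] z‖ < D.δ :=
            h1.trans_lt ((mul_le_mul_of_nonneg_right h2 ha0).trans_lt hLa2)
          have h4 : D.f^[i + m] z ∈ D.J := by
            have e1 : i + m = j + (i + m - j) := by omega
            rw [e1, hitc]
            exact it_J D hcJ _
          have h5 := exb_step D h4 h3
          rw [← add_assoc, Function.iterate_succ_apply', Function.iterate_succ_apply']
          calc _ ≤ D.L * ‖D.f^[i + m] w - D.f^[i + m] z‖ := h5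
            _ ≤ D.L * (D.L ^ m * a) := mul_le_mul_of_nonneg_left h1 hL0.le
            _ = D.L ^ (m + 1) * a := by ring
      have h1 := hind (D.τ c + j - i) (by omega)
      have h2 : i + (D.τ c + j - i) = D.τ c + j := by omega
      rw [h2] at h1
      have h3 : D.L ^ (D.τ c + j - i) ≤ D.L ^ T := pow_le_pow_right₀ hL (by omega)
      have h4 := mul_le_mul_of_nonneg_right h3 ha0
      linarith

end Pool.Agent.H44.DP
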