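import Pool.Agent.H35.EX.ChartK
import Pool.Agent.H91.CE.GRCH

/-!
# Module EXC: landing on a repelling cycle or in an expanding set implies the Collet-Eckmann condition
-/

set_option autoImplicit false

open Filter Topology Polynomial Metric Set

namespace Pool.Agent.H44.DP

open Pool.Agent.H44.Fatou Pool.Agent.H32.BT Pool.Agent.H79.Eul Pool.Agent.H79.Par
open Pool.Agent.H35.RL Pool.Agent.H35.EX Pool.Agent.H91.CE Pool.Agent.H80.AJ

/-- from the growth of the derivatives in a chart to the Collet-Eckmann condition -/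
theorem ce_of_gr {d : ℕ} {v0 : E d} {s : ℂ} {φ : OnePoint ℂ ≃ₜ OnePoint ℂ}
    (hφs : φ s = OnePoint.infty)
    (hφ : ∀ z : ℂ, z ≠ s → φ (z : OnePoint ℂ) = (((z - s)⁻¹ : ℂ) : OnePoint ℂ))
    (hφi : φ OnePoint.infty = ((0 : ℂ) : OnePoint ℂ))
    (hconj : ∀ x, Rf (Lin s v0) (φ x) = φ (Rf v0 x)) {x : OnePoint ℂ} {w : ℂ}
    (hxw : φ x = (w : OnePoint ℂ)) {K : Set ℂ} (hK : IsCompact K)
    (hKit : ∀ j, it (Lin s v0) j w ∈ K)
    (hfin : ∀ j, (Rf (Lin s v0))^[j] (w : OnePoint ℂ) ≠ OnePoint.infty)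
    {c q : ℝ} (hc : 0 < c) (hq : 1 < q) (hgr : ∀ n : ℕ, c * q ^ n ≤ ‖trD (Lin s v0) n w‖) :
    CEAt (Rf v0) x := by
  set w0 : E d := Lin s v0 with hw0
  have hcit : ∀ (n : ℕ) (x : OnePoint ℂ), (Rf w0)^[n] (φ x) = φ ((Rf v0)^[n] x) :=
    fun n x => iter_conj φ hconj n x
  have horb := orb_all hfin
  have hder : ∀ n : ℕ, HasDerivAt (fun u => it w0 n u) (trD w0 n w) w := fun n =>
    (orb_deriv (horb.1 n)).self_of_nhds
  have hne : K.Nonempty := ⟨_, hKit 0⟩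
  obtain ⟨z2, hz2, hmax⟩ := hK.exists_isMaxOn hne (hs_cont s).continuousOn
  have hp2 := hs_pos s z2
  have hpw := hs_pos s w
  refine ⟨c * (hs s w * hs s w) / (2 * 2 * (2 * hs s z2 * (2 * hs s z2))), q, by positivity, hq,
    fun n => ?_⟩
  -- in the chart
  have hx1 : Tendsto φ (𝓝 x) (𝓝 ((w : ℂ) : OnePoint ℂ)) := by
    rw [← hxw]
    exact φ.continuous.tendsto x
  have hloc : ∀ᶠ u : ℂ in 𝓝 w, c * q ^ n / 2 * ‖w - u‖ ≤ ‖it w0 n w - it w0 n u‖ := by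
    have h1 := (hder n).isLittleO
    have hD : 0 < ‖trD w0 n w‖ := lt_of_lt_of_le (by positivity) (hgr n)
    have h2 := h1.def (c := ‖trD w0 n w‖ / 2) (by positivity)
    filter_upwards [h2] with u hu
    have h3 : ‖trD w0 n w‖ * ‖w - u‖ ≤ ‖it w0 n w - it w0 n u‖ + ‖trD w0 n w‖ / 2 * ‖w - u‖ := by
      have e : ‖trD w0 n w‖ * ‖w - u‖ = ‖(it w0 n w - it w0 n u) +
          (it w0 n u - it w0 n w - (u - w) • trD w0 n w)‖ := by
        rw [← norm_mul]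
        congr 1
        rw [smul_eq_mul]
        ring
      rw [e]
      refine (norm_add_le _ _).trans ?_
      have h5 := hu
      rw [norm_sub_rev u w] at h5
      linarith
    have h4 : 0 ≤ ‖w - u‖ := norm_nonneg _
    have h6 := mul_le_mul_of_nonneg_right (hgr n) h4
    nlinarith
  have h3 : ∀ᶠ u : ℂ in 𝓝 w, ∀ j < n, ev w0.2 (it w0 j u) ≠ 0 := by
    have hc : Tendsto (fun u : ℂ => (w0, u)) (𝓝 w) (𝓝 (w0, w)) :=
      (continuous_const.prodMk continuous_id).tendsto _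
    exact hc.eventually (orb_near (horb.1 n))
  have h4 : ∀ᶠ u : ℂ in 𝓝 w, hs s w / 2 < hs s u := by
    exact (hs_cont s).continuousAt.eventually (lt_mem_nhds (by linarith))
  have h5 : ∀ᶠ u : ℂ in 𝓝 w, hs s (it w0 n u) < 2 * hs s z2 := by
    have h6 : hs s (it w0 n w) ≤ hs s z2 := hmax (hKit n)
    have h7 : Tendsto (fun u => hs s (it w0 n u)) (𝓝 w) (𝓝 (hs s (it w0 n w))) :=
      ((hs_cont s).tendsto (it w0 n w)).comp (hder n).continuousAt
    exact h7.eventually (gt_mem_nhds (by linarith))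
  have hall : ∀ᶠ u : ℂ in 𝓝 w, c * (hs s w * hs s w) / (2 * 2 * (2 * hs s z2 * (2 * hs s z2))) *
      q ^ n * (‖w - u‖ / (hs s w * hs s u)) ≤
      ‖it w0 n w - it w0 n u‖ / (hs s (it w0 n w) * hs s (it w0 n u)) := by
    filter_upwards [hloc, h4, h5] with u hu1 hu2 hu3
    have hpu := hs_pos s u
    have hp3 := hs_pos s (it w0 n w)
    have hp4 := hs_pos s (it w0 n u)
    have h6 : hs s (it w0 n w) ≤ hs s z2 := hmax (hKit n)
    have hqn : 0 < q ^ n := by positivity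
    have e1 : hs s w * hs s w / 2 ≤ hs s w * hs s u := by nlinarith
    have e2 : hs s (it w0 n w) * hs s (it w0 n u) ≤ 2 * hs s z2 * (2 * hs s z2) := by
      apply mul_le_mul (by linarith) hu3.le hp4.le (by linarith)
    have hn0 : 0 ≤ ‖w - u‖ := norm_nonneg _
    rw [le_div_iff₀ (by positivity)]
    refine le_trans ?_ hu1
    have e3 : ‖w - u‖ / (hs s w * hs s u) ≤ ‖w - u‖ / (hs s w * hs s w / 2) :=
      div_le_div_of_nonneg_left hn0 (by positivity) e1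
    calc c * (hs s w * hs s w) / (2 * 2 * (2 * hs s z2 * (2 * hs s z2))) * q ^ n *
          (‖w - u‖ / (hs s w * hs s u)) * (hs s (it w0 n w) * hs s (it w0 n u))
        ≤ c * (hs s w * hs s w) / (2 * 2 * (2 * hs s z2 * (2 * hs s z2))) * q ^ n *
          (‖w - u‖ / (hs s w * hs s w / 2)) * (2 * hs s z2 * (2 * hs s z2)) := by
          apply mul_le_mul _ e2 (by positivity) (by positivity)
          exact mul_le_mul_of_nonneg_left e3 (by positivity)
      _ = c * q ^ n / 2 * ‖w - u‖ := by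
          field_simp
  -- back to the sphere
  have hback : ∀ᶠ y in 𝓝 x, ∀ u : ℂ, φ y = (u : OnePoint ℂ) →
      c * (hs s w * hs s w) / (2 * 2 * (2 * hs s z2 * (2 * hs s z2))) *
        q ^ n * (‖w - u‖ / (hs s w * hs s u)) ≤
      ‖it w0 n w - it w0 n u‖ / (hs s (it w0 n w) * hs s (it w0 n u)) ∧
      ∀ j < n, ev w0.2 (it w0 j u) ≠ 0 := by
    have h6 : ∀ᶠ y' in 𝓝 ((w : ℂ) : OnePoint ℂ), ∀ u : ℂ, y' = (u : OnePoint ℂ) →
      c * (hs s w * hs s w) / (2 * 2 * (2 * hs s z2 * (2 * hs s z2))) *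
        q ^ n * (‖w - u‖ / (hs s w * hs s u)) ≤
      ‖it w0 n w - it w0 n u‖ / (hs s (it w0 n w) * hs s (it w0 n u)) ∧
      ∀ j < n, ev w0.2 (it w0 j u) ≠ 0 := by
      rw [OnePoint.nhds_coe_eq, eventually_map]
      filter_upwards [hall, h3] with u hu1 hu2 u' hu'
      rw [← OnePoint.coe_injective hu']
      exact ⟨hu1, hu2⟩
    exact hx1.eventually h6
  have hnei : ∀ᶠ y in 𝓝 x, φ y ≠ OnePoint.infty := by
    exact hx1.eventually (isOpen_ne.mem_nhds (OnePoint.coe_ne_infty w))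
  filter_upwards [hback, hnei] with y hy1 hy2
  obtain ⟨u, hu⟩ := OnePoint.ne_infty_iff_exists.1 hy2
  obtain ⟨hy3, hy4⟩ := hy1 u hu.symm
  have e2 : φ ((Rf v0)^[n] x) = ((it w0 n w : ℂ) : OnePoint ℂ) := by
    rw [← hcit, hxw, horb.2 n]
  have e3 : φ ((Rf v0)^[n] y) = ((it w0 n u : ℂ) : OnePoint ℂ) := by
    rw [← hcit, ← hu, rat_it hy4]
  rw [chord_phi hφs hφ hφi hxw hu.symm, chord_phi hφs hφ hφi e2 e3]
  exact hy3

/-- the iterates of a point of an `ExpK` set -/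
theorem exp_orb {d : ℕ} {w0 : E d} {K : Set ℂ} (hK : ExpK w0 K) {w : ℂ} (hw : w ∈ K) :
    (∀ j, it w0 j w ∈ K) ∧ ∀ j, (Rf w0)^[j] (w : OnePoint ℂ) ≠ OnePoint.infty := by
  have h1 : ∀ j, it w0 j w ∈ K := by
    intro j
    induction j with
    | zero => exact hw
    | succ j ih =>
      have h2 := hK.maps _ ih
      rw [Pool.Agent.H61.TT.disj_it_add]
      exact h2
  refine ⟨h1, fun j => ?_⟩
  rw [rat_it (fun i _ => hK.den _ (h1 i))]
  exact OnePoint.coe_ne_infty _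

/-- a critical point landing on a repelling cycle or in an expanding set has a Collet-Eckmann
iterate -/
theorem ce_land {d : ℕ} (hd : 2 ≤ d) {v0 : E d} (hcop : IsCoprime (pol v0.1) (pol v0.2))
    (hdeg : max (pol v0.1).natDegree (pol v0.2).natDegree = d)
    (hex : ∃ z n, NRCycle (Rf v0) z n) {x : OnePoint ℂ}
    (h : (∃ n, 0 < n ∧ ∃ a : ℂ, 1 < ‖a‖ ∧ FixMult (Rf v0)^[n] x a) ∨
      ∃ K : Set (OnePoint ℂ), Expd (Rf v0) K ∧ x ∈ K) :
    CEAt (Rf v0) x := by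
  have hd1 : 1 ≤ max (pol v0.1).natDegree (pol v0.2).natDegree := by rw [hdeg]; omega
  have hd2 : 2 ≤ max (pol v0.1).natDegree (pol v0.2).natDegree := by rw [hdeg]; exact hd
  obtain ⟨c0, z0, n0, U, hT0, hU, hUn, hUC⟩ := cyc_open hd hcop hdeg hex
  have hScount : (Set.range (fun j : ℕ => (Rf v0)^[j] x)).Countable := Set.countable_range _
  obtain ⟨s, φ, hsS, hsU, hφs, hφ, hφi, hconj, hcop1, hdeg1⟩ := good_U hd hcop hdeg hScount hU hUn
  have hne : ∀ x : OnePoint ℂ, x ≠ (s : OnePoint ℂ) → φ x ≠ OnePoint.infty := by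
    intro x hx hh
    rw [← hφs] at hh
    exact hx (φ.injective hh)
  have hic : ∀ (j : ℕ) (x : OnePoint ℂ), (Rf (Lin s v0))^[j] (φ x) = φ ((Rf v0)^[j] x) :=
    fun j x => iter_conj φ hconj j x
  have hxs : ∀ j, (Rf v0)^[j] x ≠ (s : OnePoint ℂ) := fun j hj => hsS ⟨j, hj⟩
  obtain ⟨w, hw⟩ := OnePoint.ne_infty_iff_exists.1 (hne _ (hxs 0))
  change ((w : ℂ) : OnePoint ℂ) = φ x at hw
  have key : ∃ K1 : Set ℂ, ExpK (Lin s v0) K1 ∧ w ∈ K1 := by
    rcases h with ⟨n, hn, a, ha, hfix⟩ | ⟨K, hE, hxK⟩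
    · have hwf : ∀ j, (Rf (Lin s v0))^[j] (w : OnePoint ℂ) ≠ OnePoint.infty := by
        intro j
        rw [hw, hic]
        exact hne _ (hxs j)
      obtain ⟨t1, t2, t3, t4⟩ := ty_conj hφs hφ hφi hconj (c := x) (hxs 0) (n := n)
      rw [show φ x = (w : OnePoint ℂ) from hw.symm] at t1 t2 t3 t4
      obtain ⟨hn', ⟨a', ha', hfix'⟩, m, hm⟩ := t3 ⟨hn, ⟨a, ha, hfix⟩, 0, rfl⟩
      have hfix2 : FixMult (Rf (Lin s v0))^[n] (w : OnePoint ℂ) a' := by
        rw [hw]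
        exact hfix'
      obtain ⟨K1, hK1, hwK⟩ := rep_cycle hn' ha' hfix2 hwf
      exact ⟨K1, hK1, hwK⟩
    · have hdis : Disjoint K U := exp_disj hcop hd1 hE hU hUC
      have hsK : (s : OnePoint ℂ) ∉ K := fun hh => Set.disjoint_left.1 hdis hh hsU
      exact ⟨_, exp_conj hd hφs hφ hφi hconj hcop1 hdeg1 hE hsK, x, hxK, hw.symm⟩
  obtain ⟨K1, hK1, hwK⟩ := key
  obtain ⟨h1, h2⟩ := exp_orb hK1 hwK
  obtain ⟨c, q, hc, hq, hgr⟩ := hK1.exp
  exact ce_of_gr hφs hφ hφi hconj hw.symm hK1.compact h1 h2 hc hq (fun n => hgr w hwK n)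

end Pool.Agent.H44.DP
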