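import Pool.Agent.H44.DP.EXB

/-!
# Module EXG: exit of small discs

PROOF. `a, b, δ1', δ2', U, N, n1` from `nohit2`, `A, B, κ, n` from `hit`. `δ1 = δ1' / 2`, `δ2 ≤ δ2' / 2, δ1' / 4, ϑ / 2, r0 / 4, 1 / 4`. Write `x_i = f^[i] x`. Points: `x_i ∈ V1 ⊆ V`, so `x_i ∉ Pa` (`D.hVp`), `dd x_i > 0`; for `w ∈ ball x σ`, `i ≤ k`: `f^[i] w ∈ V` (`D.hVV`, `δ2 < ϑ`), `∈ thickening δ1' J`, `∉ Pa`, `‖f^[i] w - x_i‖ ≤ δ2 dd x_i ≤ dd x_i / 2` (`dd_cmp`, `wt_cmp`).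
(A) no `f^[i] w`, `w ∈ ball x (σ/2)`, `i ≤ k`, is in `Cr` (so none is in `S`): `nohit2` for `z = x`, `s = σ / 2`, `j = k + 1` gives the bounds for `TT` and `dd`, and the lower bound for the derivatives at the times `i ≤ k + 1`, so the oscillation by `osc_one` (`f^[i]` is holomorphic on `ball x (σ/2)`: the points at the times `≤ k` are in `V ⊆ thickening (δ/2) J ⊆ G`).
(B) otherwise as in H44/DN/EXG: `P = ⌈U (2/σ)^n1⌉₊ + 3`, `ρ_p = σ/2 + p σ/(2 P)`, `J p ≤ k` the first time at which `ball x ρ_p` hits `Cr`, antitone; `J 0 ≤ U (2/σ)^n1` (`nohit2` with `j = J 0`, `s = σ/2`; there is no hit of `S` before the time `J 0`), `J 0 < P`, `ex_pigeon`: `p < P` with `J (p+1) = J p =: j`, `z ∈ ball x ρ_p` with `f^[j] z ∈ Cr`, `s = σ / (2 P)`, `ball z s ⊆ ball x ρ_(p+1) ⊆ ball x σ`.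
`P ≤ (U 2^n1 + 4) / σ^n1`, so `s ≥ κ1 σ^(n1 + 1)`, `κ1 = 1 / (2 (U 2^n1 + 4))`, `s ≤ 1/2`. `nohit2` (centre `z`, radius `s`, time `j`): `TT z j ≤ a log (1/s) + b`, derivatives at the times `i ≤ j`, `dd (f^[i] z)` for `i < j`. `hit` (its hypothesis: `‖f^[i] w - f^[i] z‖ ≤ 2 δ2 ≤ r0 / 2`).
`TT x k = TT x j + TT x_j (k - j) ≤ 2^Qx TT z j + (k - j)` (`wt_cmp`; `TT_add`, `TT_le`), `log (1/s) ≤ (n1 + 1) log (1/σ) + log (1/κ1)`. `dd x_i ≥ dd (f^[i] z) / 2`. Oscillation: for `i ≤ j` `osc_one` on `ball z s` gives `w` with `‖f^[i] w - f^[i] z‖ ≥ s * exp (-b) s^N / 2`, for `i > j` `hit`; one of the two points `w, z` (both in `ball x σ`) is at distance at least half of this from `x_i` under `f^[i]`.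
All lower bounds are of the form `κ' σ^n'`; `N0 ≥ n'`, `exp b0 ≥ 1 / κ'` for all of them.
-/

/-!
# Module EXG: exit of small discs

PROOF. `a, b, δ1', δ2', U, N, n1` from `nohit2`, `A, B, κ, n` from `hit`. `δ1 = δ1' / 2`, `δ2 ≤ δ2' / 2, δ1' / 4, ϑ / 2, r0 / 4, 1 / 4`. Write `x_i = f^[i] x`. Points: `x_i ∈ V1 ⊆ V`, so `x_i ∉ Pa` (`D.hVp`), `dd x_i > 0`; for `w ∈ ball x σ`, `i ≤ k`: `f^[i] w ∈ V` (`D.hVV`, `δ2 < ϑ`), `∈ thickening δ1' J`, `∉ Pa`, `‖f^[i] w - x_i‖ ≤ δ2 dd x_i ≤ dd x_i / 2` (`dd_cmp`, `wt_cmp`).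
(A) no `f^[i] w`, `w ∈ ball x (σ/2)`, `i ≤ k`, is in `Cr` (so none is in `S`): `nohit2` for `z = x`, `s = σ / 2`, `j = k + 1` gives the bounds for `TT` and `dd`, and the lower bound for the derivatives at the times `i ≤ k + 1`, so the oscillation by `osc_one` (`f^[i]` is holomorphic on `ball x (σ/2)`: the points at the times `≤ k` are in `V ⊆ thickening (δ/2) J ⊆ G`).
(B) otherwise as in H44/DN/EXG: `P = ⌈U (2/σ)^n1⌉₊ + 3`, `ρ_p = σ/2 + p σ/(2 P)`, `J p ≤ k` the first time at which `ball x ρ_p` hits `Cr`, antitone; `J 0 ≤ U (2/σ)^n1` (`nohit2` with `j = J 0`, `s = σ/2`; there is no hit of `S` before the time `J 0`), `J 0 < P`, `ex_pigeon`: `p < P` with `J (p+1) = J p =: j`, `z ∈ ball x ρ_p` with `f^[j] z ∈ Cr`, `s = σ / (2 P)`, `ball z s ⊆ ball x ρ_(p+1) ⊆ ball x σ`.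
`P ≤ (U 2^n1 + 4) / σ^n1`, so `s ≥ κ1 σ^(n1 + 1)`, `κ1 = 1 / (2 (U 2^n1 + 4))`, `s ≤ 1/2`. `nohit2` (centre `z`, radius `s`, time `j`): `TT z j ≤ a log (1/s) + b`, derivatives at the times `i ≤ j`, `dd (f^[i] z)` for `i < j`. `hit` (its hypothesis: `‖f^[i] w - f^[i] z‖ ≤ 2 δ2 ≤ r0 / 2`).
`TT x k = TT x j + TT x_j (k - j) ≤ 2^Qx TT z j + (k - j)` (`wt_cmp`; `TT_add`, `TT_le`), `log (1/s) ≤ (n1 + 1) log (1/σ) + log (1/κ1)`. `dd x_i ≥ dd (f^[i] z) / 2`. Oscillation: for `i ≤ j` `osc_one` on `ball z s` gives `w` with `‖f^[i] w - f^[i] z‖ ≥ s * exp (-b) s^N / 2`, for `i > j` `hit`; one of the two points `w, z` (both in `ball x σ`) is at distance at least half of this from `x_i` under `f^[i]`.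
All lower bounds are of the form `κ' σ^n'`; `N0 ≥ n'`, `exp b0 ≥ 1 / κ'` for all of them.
-/

set_option autoImplicit false

open Filter Topology Metric Set

namespace Pool.Agent.H44.DP

private theorem ex_pigeon (J : ℕ → ℕ) (P : ℕ) (hJ : ∀ p, J (p + 1) ≤ J p) (h : J 0 < P) :
    ∃ p < P, J (p + 1) = J p := by
  by_contra hcon
  push Not at hcon
  have h1 : ∀ p ≤ P, J p + p ≤ J 0 := by
    intro p
    induction p with
    | zero => intro _; omega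
    | succ p ih =>
      intro hp
      have h2 := ih (by omega)
      have h3 := hJ p
      have h4 := hcon p (by omega)
      omega
  have := h1 P le_rfl
  omega

private theorem TT_cmp (D : Ps) {x z : ℂ} {j : ℕ}
    (h : ∀ i < j, ‖D.f^[i] z - D.f^[i] x‖ ≤ D.dd (D.f^[i] x) / 2) : D.TT x j ≤ 2 ^ D.Qx * D.TT z j := by
  unfold Ps.TT
  rw [Finset.mul_sum]
  exact Finset.sum_le_sum fun i hi => wt_cmp D (h i (Finset.mem_range.1 hi))

/-- the basic facts about the points of the disc -/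
private theorem ex_pts (D : Ps) {δ1' δ2 : ℝ} (h2 : 0 < δ2) (h2a : δ2 ≤ δ1' / 4)
    (h2b : δ2 ≤ D.ϑ / 2) (h2c : δ2 ≤ 1 / 4) {x : ℂ} {σ : ℝ} {k : ℕ}
    (hx : ∀ i ≤ k, D.f^[i] x ∈ D.V1 ∧ D.f^[i] x ∈ thickening (δ1' / 2) D.J ∧
      ∀ w ∈ ball x σ, ‖D.f^[i] w - D.f^[i] x‖ ≤ δ2 * D.dd (D.f^[i] x)) :
    ∀ i ≤ k, ∀ w ∈ ball x σ, D.f^[i] w ∈ D.V ∧ D.f^[i] w ∈ thickening δ1' D.J ∧ D.f^[i] w ∈ D.G ∧
      D.f^[i] w ∉ D.Pa ∧ ‖D.f^[i] w - D.f^[i] x‖ ≤ δ2 ∧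
      ‖D.f^[i] w - D.f^[i] x‖ ≤ D.dd (D.f^[i] x) / 2 := by
  intro i hi w hw
  obtain ⟨a1, a2, a3⟩ := hx i hi
  have hpa : D.f^[i] x ∉ D.Pa := fun h => D.hVp _ h (D.hV1 a1)
  have hd0 := dd_pos D hpa
  have hd1 := dd_le_one D (D.f^[i] x)
  have b1 := a3 w hw
  have hV : D.f^[i] w ∈ D.V := by
    refine D.hVV _ a1 _ ?_
    show _ < D.ϑ * D.dd (D.f^[i] x)
    have := D.hϑ
    nlinarith
  have hle : ‖D.f^[i] w - D.f^[i] x‖ ≤ δ2 := by nlinarith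
  refine ⟨hV, ?_, ?_, fun h => D.hVp _ h hV, hle, by nlinarith⟩
  · have := th_add a2 (b := δ1' / 2) (w := D.f^[i] w) (by linarith)
    rwa [add_halves] at this
  · exact D.hU (thickening_mono (by linarith [D.hδ]) _ (D.hV hV))

/-- one of the two points moves -/
private theorem ex_two {p q r : ℂ} {η : ℝ} (h : η ≤ ‖p - q‖) : η / 2 ≤ ‖p - r‖ ∨ η / 2 ≤ ‖q - r‖ := by
  by_contra hcon
  push Not at hcon
  have h1 : p - q = (p - r) - (q - r) := by ring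
  have h2 := norm_sub_le (p - r) (q - r)
  rw [← h1] at h2
  linarith

private theorem ex_core (D : Ps) {a b A B κ δ1' δ2' δ2 U κ1 : ℝ} {N n n1 : ℕ} (ha : 0 < a) (hb : 0 < b)
    (hA : 0 < A) (hB : 0 < B) (hκ : 0 < κ) (hκ1 : κ ≤ 1) (_hδ1 : 0 < δ1')
    (hU : 0 < U) (h2 : 0 < δ2) (h2a : δ2 ≤ δ1' / 4)
    (h2b : δ2 ≤ D.ϑ / 2) (h2c : δ2 ≤ 1 / 4) (h2d : 2 * δ2 ≤ δ2') (h2e : 2 * δ2 ≤ D.r0 / 2)
    (hK : κ1 = 1 / (2 * (U * 2 ^ n1 + 4)))
    (hno : ∀ (z : ℂ) (s : ℝ) (j : ℕ), 0 < s → s ≤ 1 / 2 →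
      (∀ i < j, D.f^[i] z ∈ D.V ∧ D.f^[i] z ∈ thickening δ1' D.J ∧
        ∀ w ∈ ball z s, ‖D.f^[i] w - D.f^[i] z‖ ≤ δ2' ∧ D.f^[i] w ∉ D.S) →
      D.TT z j ≤ a * Real.log (1 / s) + b ∧
        (∀ i ≤ j, s ^ N ≤ Real.exp b * ‖deriv (D.f^[i]) z‖) ∧
        (∀ i < j, s ^ N ≤ Real.exp b * D.dd (D.f^[i] z)) ∧ (j : ℝ) * s ^ n1 ≤ U)
    (hhi : ∀ (z : ℂ) (s : ℝ) (j k : ℕ), 0 < s → s ≤ 1 / 2 → j ≤ k → D.f^[j] z ∈ D.Cr →
      (∀ i ≤ k, ∀ w ∈ ball z s, D.f^[i] w ∈ D.V ∧ ‖D.f^[i] w - D.f^[i] z‖ ≤ D.r0 / 2) →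
      s ^ N ≤ Real.exp b * ‖deriv (D.f^[j]) z‖ →
      ((k - j : ℕ) : ℝ) ≤ A * Real.log (1 / s) + B ∧
        (∀ i, j ≤ i → i ≤ k → κ * s ^ n ≤ D.dd (D.f^[i] z)) ∧
        ∀ i, j ≤ i → i ≤ k + 1 → ∃ w ∈ ball z s, κ * s ^ n ≤ ‖D.f^[i] w - D.f^[i] z‖)
    {x : ℂ} {σ : ℝ} {k : ℕ} (hσ : 0 < σ) (hσ1 : σ ≤ 1 / 2)
    (hx : ∀ i ≤ k, D.f^[i] x ∈ D.V1 ∧ D.f^[i] x ∈ thickening (δ1' / 2) D.J ∧
      ∀ w ∈ ball x σ, ‖D.f^[i] w - D.f^[i] x‖ ≤ δ2 * D.dd (D.f^[i] x))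
    {t : ℝ} (ht : t = κ1 * σ ^ (n1 + 1)) :
    D.TT x k ≤ (2 ^ D.Qx * a + A) * Real.log (1 / t) + (2 ^ D.Qx * b + B) ∧
      (∀ i ≤ k, κ * t ^ (N + n + 1) ≤ 4 * Real.exp b * D.dd (D.f^[i] x)) ∧
      ∀ i ≤ k + 1, ∃ w ∈ ball x σ, κ * t ^ (N + n + 1) ≤ 4 * Real.exp b * ‖D.f^[i] w - D.f^[i] x‖ := by
  classical
  have hpts := ex_pts D h2 h2a h2b h2c hx
  have hU2 : 0 < U * 2 ^ n1 + 4 := by positivity
  have hκ10 : 0 < κ1 := by rw [hK]; positivity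
  have hκ18 : κ1 ≤ 1 / 8 := by
    rw [hK, div_le_div_iff₀ (by positivity) (by norm_num)]
    have : 0 < U * 2 ^ n1 := by positivity
    linarith
  have ht0 : 0 < t := by rw [ht]; positivity
  have hσn : σ ^ (n1 + 1) ≤ σ := by
    rw [pow_succ]
    exact mul_le_of_le_one_left hσ.le (pow_le_one₀ hσ.le (by linarith))
  have htσ : t ≤ σ / 2 := by
    rw [ht]
    nlinarith
  have ht1 : t ≤ 1 := by linarith
  have hQ1 : (1 : ℝ) ≤ 2 ^ D.Qx := one_le_pow₀ (by norm_num)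
  have hlog : ∀ {s : ℝ}, t ≤ s → Real.log (1 / s) ≤ Real.log (1 / t) := by
    intro s hs
    exact Real.log_le_log (by have := ht0.trans_le hs; positivity) (one_div_le_one_div_of_le ht0 hs)
  have hLt : 0 ≤ Real.log (1 / t) := Real.log_nonneg (by rw [le_div_iff₀ ht0]; linarith)
  have heb : 1 ≤ Real.exp b := Real.one_le_exp hb.le
  -- powers
  have hpw : ∀ {s : ℝ} {m : ℕ}, t ≤ s → m ≤ N + n + 1 → t ^ (N + n + 1) ≤ s ^ m := by
    intro s m hs hm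
    exact (pow_le_pow_of_le_one ht0.le ht1 hm).trans (pow_le_pow_left₀ ht0.le hs m)
  have hdiff : ∀ {z : ℂ} {s : ℝ}, (∀ w ∈ ball z s, w ∈ ball x σ) → ∀ i ≤ k + 1,
      DifferentiableOn ℂ (D.f^[i]) (ball z s) := by
    intro z s hzs i hi w hw
    exact (it_diff D fun l hl => (hpts l (by omega) w (hzs w hw)).2.2.1).differentiableWithinAt
  by_cases hhit : ∃ i ≤ k, ∃ w ∈ ball x (σ / 2), D.f^[i] w ∈ D.Cr
  · -- there is a hit
    obtain ⟨i0, hi0, w0, hw0, hiw0⟩ := hhit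
    obtain ⟨P, hP⟩ : ∃ P : ℕ, P = ⌈U * (2 / σ) ^ n1⌉₊ + 3 := ⟨_, rfl⟩
    have hP3 : (0 : ℝ) < P := by
      have : 0 < P := by omega
      exact_mod_cast this
    have hP1 : (1 : ℝ) ≤ P := by
      have : 1 ≤ P := by omega
      exact_mod_cast this
    have hPge : U * (2 / σ) ^ n1 + 3 ≤ P := by
      rw [hP]
      push_cast
      linarith [Nat.le_ceil (U * (2 / σ) ^ n1)]
    have hPle : (P : ℝ) ≤ U * (2 / σ) ^ n1 + 4 := by
      rw [hP]
      push_cast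
      have : (0 : ℝ) ≤ U * (2 / σ) ^ n1 := by positivity
      linarith [Nat.ceil_lt_add_one this]
    obtain ⟨ρ, hρ⟩ : ∃ ρ : ℕ → ℝ, ρ = fun p : ℕ => σ / 2 + (p : ℝ) * (σ / (2 * P)) := ⟨_, rfl⟩
    obtain ⟨s, hs⟩ : ∃ s, s = σ / (2 * P) := ⟨_, rfl⟩
    have hs0 : 0 < s := by rw [hs]; positivity
    have hρ0 : ρ 0 = σ / 2 := by rw [hρ]; simp
    have hρs : ∀ p, ρ (p + 1) = ρ p + s := by
      intro p
      rw [hρ, hs]
      push_cast
      ring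
    have hρmono : ∀ p, σ / 2 ≤ ρ p := by
      intro p
      rw [hρ]
      have : (0 : ℝ) ≤ p * (σ / (2 * P)) := by positivity
      dsimp only
      linarith
    have hρle : ∀ p, p ≤ P → ρ p ≤ σ := by
      intro p hp
      rw [hρ]
      dsimp only
      have h1 : (p : ℝ) ≤ P := by exact_mod_cast hp
      have h2 : (p : ℝ) * (σ / (2 * P)) ≤ P * (σ / (2 * P)) := mul_le_mul_of_nonneg_right h1 (by positivity)
      have h3 : (P : ℝ) * (σ / (2 * P)) = σ / 2 := by field_simp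
      linarith
    have hex : ∀ p, ∃ i, ∃ w ∈ ball x (ρ p), D.f^[i] w ∈ D.Cr := fun p =>
      ⟨i0, w0, ball_subset_ball (hρmono p) hw0, hiw0⟩
    obtain ⟨J, hJspec, hJmin, hJk⟩ : ∃ J : ℕ → ℕ, (∀ p, ∃ w ∈ ball x (ρ p), D.f^[J p] w ∈ D.Cr) ∧
        (∀ p i, i < J p → ¬ ∃ w ∈ ball x (ρ p), D.f^[i] w ∈ D.Cr) ∧ ∀ p, J p ≤ k := by
      refine ⟨fun p => Nat.find (hex p), fun p => Nat.find_spec (hex p),
        fun p i hi => Nat.find_min (hex p) hi, fun p => ?_⟩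
      exact (Nat.find_min' (hex p) ⟨w0, ball_subset_ball (hρmono p) hw0, hiw0⟩).trans hi0
    have hJanti : ∀ p, J (p + 1) ≤ J p := by
      intro p
      by_contra hcon
      push Not at hcon
      obtain ⟨w, hw, hw'⟩ := hJspec p
      refine hJmin (p + 1) (J p) hcon ⟨w, ball_subset_ball ?_ hw, hw'⟩
      rw [hρs]
      linarith
    have hnS : ∀ i ≤ k, ∀ w ∈ ball x σ, D.f^[i] w ∉ D.Cr → D.f^[i] w ∉ D.S := by
      intro i hi w hw h hS
      rcases (D.hS _).1 hS with h1 | h1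
      · exact h h1
      · exact (hpts i hi w hw).2.2.2.1 h1
    have hbx : ∀ w ∈ ball x (σ / 2), w ∈ ball x σ := fun w hw => ball_subset_ball (by linarith) hw
    have hxσ : x ∈ ball x σ := mem_ball_self hσ
    -- the first hitting time is bounded
    have hJ0 : (J 0 : ℝ) ≤ U * (2 / σ) ^ n1 := by
      have h1 := (hno x (σ / 2) (J 0) (by linarith) (by linarith) (fun i hi => by
          have hik : i ≤ k := by have := hJk 0; omega
          refine ⟨(hpts i hik x hxσ).1, (hpts i hik x hxσ).2.1, fun w hw => ?_⟩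
          refine ⟨(hpts i hik w (hbx w hw)).2.2.2.2.1.trans (by linarith), hnS i hik w (hbx w hw) fun hcr => ?_⟩
          refine hJmin 0 i hi ⟨w, ?_, hcr⟩
          rw [hρ0]
          exact hw)).2.2.2
      have h2 : (2 / σ) ^ n1 * (σ / 2) ^ n1 = 1 := by
        rw [← mul_pow]
        have : 2 / σ * (σ / 2) = 1 := by field_simp
        rw [this, one_pow]
      have h3 : (0 : ℝ) < (2 / σ) ^ n1 := by positivity
      calc (J 0 : ℝ) = (J 0 : ℝ) * (σ / 2) ^ n1 * (2 / σ) ^ n1 := by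
            rw [mul_assoc, mul_comm ((σ / 2) ^ n1), h2, mul_one]
        _ ≤ U * (2 / σ) ^ n1 := mul_le_mul_of_nonneg_right h1 h3.le
    have hJP : J 0 < P := by
      have : (J 0 : ℝ) < P := by linarith
      exact_mod_cast this
    obtain ⟨p, hpP, hpj⟩ := ex_pigeon J P hJanti hJP
    obtain ⟨j, hj⟩ : ∃ j, j = J p := ⟨_, rfl⟩
    have hjk : j ≤ k := by rw [hj]; exact hJk p
    obtain ⟨z, hz, hzc⟩ := hJspec p
    rw [← hj] at hzc
    have hs12 : s ≤ 1 / 2 := by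
      rw [hs, div_le_iff₀ (by positivity)]
      nlinarith
    have hts : t ≤ s := by
      rw [hs, ht, hK, le_div_iff₀ (by positivity)]
      have h1 : (2 / σ) ^ n1 = 2 ^ n1 / σ ^ n1 := div_pow _ _ _
      have hσn0 : 0 < σ ^ n1 := by positivity
      have hσn1 : σ ^ n1 ≤ 1 := pow_le_one₀ hσ.le (by linarith)
      have h2 : (P : ℝ) * σ ^ n1 ≤ U * 2 ^ n1 + 4 := by
        calc (P : ℝ) * σ ^ n1 ≤ (U * (2 / σ) ^ n1 + 4) * σ ^ n1 := mul_le_mul_of_nonneg_right hPle hσn0.le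
          _ = U * 2 ^ n1 + 4 * σ ^ n1 := by
            rw [h1]
            field_simp
          _ ≤ _ := by linarith
      rw [pow_succ]
      calc 1 / (2 * (U * 2 ^ n1 + 4)) * (σ ^ n1 * σ) * (2 * (P : ℝ)) = (P : ℝ) * σ ^ n1 / (U * 2 ^ n1 + 4) * σ := by
            field_simp
        _ ≤ 1 * σ := mul_le_mul_of_nonneg_right (by rw [div_le_one hU2]; exact h2) hσ.le
        _ = σ := one_mul _
    have hsub : ∀ w ∈ ball z s, w ∈ ball x (ρ (p + 1)) := by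
      intro w hw
      rw [mem_ball] at hw hz ⊢
      rw [hρs]
      calc dist w x ≤ dist w z + dist z x := dist_triangle _ _ _
        _ < ρ p + s := by linarith
    have hρp1 : ρ (p + 1) ≤ σ := hρle (p + 1) (by omega)
    have hsubσ : ∀ w ∈ ball z s, w ∈ ball x σ := fun w hw => ball_subset_ball hρp1 (hsub w hw)
    have hzσ : z ∈ ball x σ := hsubσ z (mem_ball_self hs0)
    have hdiff2 : ∀ i ≤ k, ∀ w ∈ ball z s, ‖D.f^[i] w - D.f^[i] z‖ ≤ 2 * δ2 := by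
      intro i hi w hw
      have e1 := (hpts i hi w (hsubσ w hw)).2.2.2.2.1
      have e2 := (hpts i hi z hzσ).2.2.2.2.1
      have e3 : D.f^[i] w - D.f^[i] z = (D.f^[i] w - D.f^[i] x) - (D.f^[i] z - D.f^[i] x) := by ring
      rw [e3]
      exact (norm_sub_le _ _).trans (by linarith)
    obtain ⟨m1, m2, m3, -⟩ := hno z s j hs0 hs12 (fun i hi => by
      have hik : i ≤ k := by omega
      refine ⟨(hpts i hik z hzσ).1, (hpts i hik z hzσ).2.1, fun w hw => ?_⟩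
      refine ⟨(hdiff2 i hik w hw).trans h2d, hnS i hik w (hsubσ w hw) fun hcr => ?_⟩
      exact hJmin (p + 1) i (by rw [hpj, ← hj]; exact hi) ⟨w, hsub w hw, hcr⟩)
    obtain ⟨k1, k2, k3⟩ := hhi z s j k hs0 hs12 hjk hzc
      (fun i hi w hw => ⟨(hpts i hi w (hsubσ w hw)).1, (hdiff2 i hi w hw).trans h2e⟩) (m2 j le_rfl)
    have hzx : ∀ i ≤ k, ‖D.f^[i] z - D.f^[i] x‖ ≤ D.dd (D.f^[i] x) / 2 := fun i hi =>
      (hpts i hi z hzσ).2.2.2.2.2
    have hddc : ∀ i ≤ k, D.dd (D.f^[i] z) ≤ 2 * D.dd (D.f^[i] x) := fun i hi => (dd_cmp D (hzx i hi)).2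
    refine ⟨?_, ?_, ?_⟩
    · -- the weighted time
      have e1 : D.TT x k = D.TT x j + D.TT (D.f^[j] x) (k - j) := by
        rw [← TT_add, Nat.add_sub_cancel' hjk]
      have e2 := TT_cmp D (x := x) (z := z) (j := j) fun i hi => hzx i (by omega)
      have e3 := TT_le D (D.f^[j] x) (k - j)
      have e4 := hlog hts
      have e5 : 2 ^ D.Qx * D.TT z j ≤ 2 ^ D.Qx * (a * Real.log (1 / t) + b) := by
        refine mul_le_mul_of_nonneg_left (m1.trans ?_) (by positivity)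
        nlinarith
      have e6 : A * Real.log (1 / s) ≤ A * Real.log (1 / t) := mul_le_mul_of_nonneg_left e4 hA.le
      nlinarith
    · intro i hi
      have hdd0 := dd_nonneg D (D.f^[i] x)
      rcases lt_or_ge i j with h | h
      · have f1 := m3 i h
        have f2 := hddc i hi
        have f3 := hpw (m := N) hts (by omega)
        have f4 : 0 < t ^ (N + n + 1) := by positivity
        nlinarith
      · have f1 := k2 i h hi
        have f2 := hddc i hi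
        have f3 := hpw (m := n) hts (by omega)
        nlinarith
    · intro i hi
      obtain ⟨w, hw, hw'⟩ : ∃ w ∈ ball z s, κ * t ^ (N + n + 1) ≤ 2 * Real.exp b * ‖D.f^[i] w - D.f^[i] z‖ := by
        rcases lt_or_ge i j with h | h
        · obtain ⟨w, hw, g1⟩ := osc_one hs0 (hdiff hsubσ i hi)
          refine ⟨w, hw, ?_⟩
          have g2 := m2 i h.le
          have g3 := hpw (m := N + 1) hts (by omega)
          have g4 : 0 < t ^ (N + n + 1) := by positivity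
          have g5 : s ^ (N + 1) ≤ Real.exp b * (s * ‖deriv (D.f^[i]) z‖) := by
            rw [pow_succ]
            nlinarith
          have g6 : Real.exp b * (s * ‖deriv (D.f^[i]) z‖ / 2) ≤ Real.exp b * ‖D.f^[i] w - D.f^[i] z‖ :=
            mul_le_mul_of_nonneg_left g1 (Real.exp_pos _).le
          nlinarith
        · obtain ⟨w, hw, g1⟩ := k3 i h hi
          refine ⟨w, hw, ?_⟩
          have g3 := hpw (m := n) hts (by omega)
          have g4 := norm_nonneg (D.f^[i] w - D.f^[i] z)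
          nlinarith
      have hw2 : κ * t ^ (N + n + 1) / (2 * Real.exp b) ≤ ‖D.f^[i] w - D.f^[i] z‖ := by
        rw [div_le_iff₀ (by positivity)]
        linarith
      rcases ex_two (r := D.f^[i] x) hw2 with h | h
      · refine ⟨w, hsubσ w hw, ?_⟩
        rw [div_div, div_le_iff₀ (by positivity)] at h
        linarith
      · refine ⟨z, hzσ, ?_⟩
        rw [div_div, div_le_iff₀ (by positivity)] at h
        linarith
  · -- no hit
    push Not at hhit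
    have hbx : ∀ w ∈ ball x (σ / 2), w ∈ ball x σ := fun w hw => ball_subset_ball (by linarith) hw
    have hxσ : x ∈ ball x σ := mem_ball_self hσ
    obtain ⟨m1, m2, m3, -⟩ := hno x (σ / 2) (k + 1) (by linarith) (by linarith) (fun i hi => by
      have hik : i ≤ k := by omega
      refine ⟨(hpts i hik x hxσ).1, (hpts i hik x hxσ).2.1, fun w hw => ?_⟩
      refine ⟨(hpts i hik w (hbx w hw)).2.2.2.2.1.trans (by linarith), fun hS => ?_⟩
      rcases (D.hS _).1 hS with h1 | h1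
      · exact hhit i hik w hw h1
      · exact (hpts i hik w (hbx w hw)).2.2.2.1 h1)
    refine ⟨?_, ?_, ?_⟩
    · have e1 := TT_mono D x (Nat.le_succ k)
      have e2 := hlog htσ
      have e3 : a * Real.log (1 / (σ / 2)) ≤ a * Real.log (1 / t) := mul_le_mul_of_nonneg_left e2 ha.le
      have e4 : a * Real.log (1 / t) ≤ 2 ^ D.Qx * (a * Real.log (1 / t)) := le_mul_of_one_le_left (by positivity) hQ1
      have e5 : b ≤ 2 ^ D.Qx * b := le_mul_of_one_le_left hb.le hQ1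
      have e6 : 0 ≤ A * Real.log (1 / t) := by positivity
      calc D.TT x k ≤ a * Real.log (1 / (σ / 2)) + b := e1.trans m1
        _ ≤ 2 ^ D.Qx * (a * Real.log (1 / t)) + A * Real.log (1 / t) + (2 ^ D.Qx * b + B) := by linarith
        _ = _ := by ring
    · intro i hi
      have f1 := m3 i (by omega)
      have f3 := hpw (m := N) htσ (by omega)
      have f4 : 0 < t ^ (N + n + 1) := by positivity
      have hdd0 := dd_nonneg D (D.f^[i] x)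
      have f5 : 0 ≤ Real.exp b * D.dd (D.f^[i] x) := by positivity
      nlinarith
    · intro i hi
      obtain ⟨w, hw, g1⟩ := osc_one (by linarith : 0 < σ / 2) (hdiff hbx i hi)
      refine ⟨w, hbx w hw, ?_⟩
      have g2 := m2 i hi
      have g3 := hpw (m := N + 1) htσ (by omega)
      have g4 : 0 < t ^ (N + n + 1) := by positivity
      have g5 : (σ / 2) ^ (N + 1) ≤ Real.exp b * (σ / 2 * ‖deriv (D.f^[i]) x‖) := by
        rw [pow_succ]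
        nlinarith
      have g6 : Real.exp b * (σ / 2 * ‖deriv (D.f^[i]) x‖ / 2) ≤ Real.exp b * ‖D.f^[i] w - D.f^[i] x‖ :=
        mul_le_mul_of_nonneg_left g1 (Real.exp_pos _).le
      have g7 : 0 ≤ Real.exp b * ‖D.f^[i] w - D.f^[i] x‖ := by positivity
      nlinarith

theorem exit_exp (D : Ps) : ∃ (a b δ1 δ2 : ℝ) (N : ℕ), 0 < a ∧ 0 < b ∧ 0 < δ1 ∧ δ1 ≤ D.δ / 4 ∧
    0 < δ2 ∧ δ2 ≤ D.δ / 4 ∧ δ2 ≤ D.ϑ / 2 ∧ δ2 ≤ 1 / 4 ∧ ∀ (x : ℂ) (σ : ℝ) (k : ℕ), 0 < σ →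
      σ ≤ 1 / 2 → (∀ i ≤ k, D.f^[i] x ∈ D.V1 ∧ D.f^[i] x ∈ thickening δ1 D.J ∧
        ∀ w ∈ ball x σ, ‖D.f^[i] w - D.f^[i] x‖ ≤ δ2 * D.dd (D.f^[i] x)) →
      D.TT x k ≤ a * Real.log (1 / σ) + b ∧
        (∀ i ≤ k, σ ^ N ≤ Real.exp b * D.dd (D.f^[i] x)) ∧
        ∀ i ≤ k + 1, ∃ w ∈ ball x σ, σ ^ N ≤ Real.exp b * ‖D.f^[i] w - D.f^[i] x‖ := by
  obtain ⟨a, b, δ1', δ2', U, N, n1, ha, hb, hδ1', hδ1'4, hδ2', hδ2'4, hU, hno⟩ := nohit2 D
  obtain ⟨A, B, κ, n, hA, hB, hκ, hκ1, hhi⟩ := hit D b N hb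
  have hϑ := D.hϑ
  have hr0 := D.hr0
  have hδ := D.hδ
  obtain ⟨δ2, hδ2⟩ : ∃ δ2, δ2 = min (min (δ2' / 2) (δ1' / 4)) (min (D.ϑ / 2) (min (D.r0 / 4) (1 / 4))) := ⟨_, rfl⟩
  have h0 : 0 < δ2 := by
    rw [hδ2]
    refine lt_min (lt_min (by linarith) (by linarith)) (lt_min (by linarith) (lt_min (by linarith) (by norm_num)))
  have h1 : δ2 ≤ δ2' / 2 := by rw [hδ2]; exact (min_le_left _ _).trans (min_le_left _ _)
  have h2 : δ2 ≤ δ1' / 4 := by rw [hδ2]; exact (min_le_left _ _).trans (min_le_right _ _)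
  have h3 : δ2 ≤ D.ϑ / 2 := by rw [hδ2]; exact (min_le_right _ _).trans (min_le_left _ _)
  have h4 : δ2 ≤ D.r0 / 4 := by
    rw [hδ2]
    exact (min_le_right _ _).trans ((min_le_right _ _).trans (min_le_left _ _))
  have h5 : δ2 ≤ 1 / 4 := by
    rw [hδ2]
    exact (min_le_right _ _).trans ((min_le_right _ _).trans (min_le_right _ _))
  obtain ⟨κ1, hκ1d⟩ : ∃ κ1 : ℝ, κ1 = 1 / (2 * (U * 2 ^ n1 + 4)) := ⟨_, rfl⟩
  have hκ10 : 0 < κ1 := by rw [hκ1d]; positivity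
  have hκ18 : κ1 ≤ 1 := by
    rw [hκ1d, div_le_one (by positivity)]
    have : 0 < U * 2 ^ n1 := by positivity
    linarith
  obtain ⟨E0, hE0⟩ : ∃ E0 : ℝ, E0 = 4 * Real.exp b / (κ * κ1 ^ (N + n + 1)) := ⟨_, rfl⟩
  have hE00 : 0 < E0 := by rw [hE0]; positivity
  have hE01 : 1 ≤ E0 := by
    rw [hE0, le_div_iff₀ (by positivity), one_mul]
    have g1 : κ1 ^ (N + n + 1) ≤ 1 := pow_le_one₀ hκ10.le hκ18
    have g2 : κ * κ1 ^ (N + n + 1) ≤ 1 := mul_le_one₀ hκ1 (by positivity) g1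
    have g3 : 1 ≤ Real.exp b := Real.one_le_exp hb.le
    linarith
  obtain ⟨a0, ha0⟩ : ∃ a0 : ℝ, a0 = (2 ^ D.Qx * a + A) * ((n1 : ℝ) + 1) := ⟨_, rfl⟩
  obtain ⟨b1, hb1⟩ : ∃ b1 : ℝ, b1 = (2 ^ D.Qx * a + A) * Real.log (1 / κ1) + (2 ^ D.Qx * b + B) := ⟨_, rfl⟩
  have hlk : 0 ≤ Real.log (1 / κ1) := Real.log_nonneg (by rw [le_div_iff₀ hκ10]; linarith)
  have hb10 : 0 < b1 := by rw [hb1]; positivity
  have hlE : 0 ≤ Real.log E0 := Real.log_nonneg hE01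
  refine ⟨a0, b1 + Real.log E0, δ1' / 2, δ2, (n1 + 1) * (N + n + 1), by rw [ha0]; positivity, by linarith,
    by linarith, by linarith, h0, by linarith, h3, h5, ?_⟩
  intro x σ k hσ hσ1 hx
  obtain ⟨c1, c2, c3⟩ := ex_core D ha hb hA hB hκ hκ1 hδ1' hU h0 h2 h3 h5 (by linarith) (by linarith) hκ1d
    hno hhi hσ hσ1 hx (t := κ1 * σ ^ (n1 + 1)) rfl
  have hfin : ∀ y : ℝ, 0 ≤ y → κ * (κ1 * σ ^ (n1 + 1)) ^ (N + n + 1) ≤ 4 * Real.exp b * y →
      σ ^ ((n1 + 1) * (N + n + 1)) ≤ Real.exp (b1 + Real.log E0) * y := by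
    intro y hy h
    have g1 : σ ^ ((n1 + 1) * (N + n + 1)) ≤ E0 * y := by
      rw [hE0, div_mul_eq_mul_div, le_div_iff₀ (by positivity)]
      calc σ ^ ((n1 + 1) * (N + n + 1)) * (κ * κ1 ^ (N + n + 1)) = κ * (κ1 * σ ^ (n1 + 1)) ^ (N + n + 1) := by
            rw [mul_pow, ← pow_mul]
            ring
        _ ≤ _ := h
    have g2 : E0 ≤ Real.exp (b1 + Real.log E0) := by
      rw [Real.exp_add, Real.exp_log hE00]
      exact le_mul_of_one_le_left hE00.le (Real.one_le_exp hb10.le)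
    exact g1.trans (mul_le_mul_of_nonneg_right g2 hy)
  refine ⟨?_, fun i hi => hfin _ (dd_nonneg D _) (c2 i hi), fun i hi => ?_⟩
  · have g1 : Real.log (1 / (κ1 * σ ^ (n1 + 1))) = ((n1 : ℝ) + 1) * Real.log (1 / σ) + Real.log (1 / κ1) := by
      rw [one_div, one_div, one_div, Real.log_inv, Real.log_inv, Real.log_inv,
        Real.log_mul hκ10.ne' (by positivity), Real.log_pow]
      push_cast
      ring
    rw [g1] at c1
    have g2 : (2 ^ D.Qx * a + A) * (((n1 : ℝ) + 1) * Real.log (1 / σ) + Real.log (1 / κ1)) + (2 ^ D.Qx * b + B) =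
        a0 * Real.log (1 / σ) + b1 := by
      rw [ha0, hb1]
      ring
    rw [g2] at c1
    linarith
  · obtain ⟨w, hw, h⟩ := c3 i hi
    exact ⟨w, hw, hfin _ (norm_nonneg _) h⟩

end Pool.Agent.H44.DP
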