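import Pool.Agent.H44.DP.Fdf
import Pool.Agent.H44.DN.NNL

/-!
# Module FA1: basic facts on the interior of the complement of the attracted set

PROOFS. `ee_iff`: `A` is open, so `frontier A = closure A \ A`, `interior Aᶜ = (closure A)ᶜ`. `ee_f`: `z ∈ EE`: `f` is holomorphic near `z` with `deriv f z ≠ 0` (`hAd`), so `f` is open at `z` (`HasStrictDerivAt.map_nhds_eq`, or the open mapping theorem): the image of a neighbourhood `⊆ EE ⊆ Aᶜ` of `z` is a neighbourhood of `f z` contained in `Aᶜ` (`hAf`). `ee_it`: induction.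
`ee_diff`: `it_diff` (all points are in `G`, `hAG`). `ee_bd`: `hAb`. `ee_cpt`: closed (`A` open, `infDist` continuous) and bounded; it is contained in `EE` by `ee_iff` (points of `J` have `infDist = 0`). `J_not`: `J = frontier A`, `A` open. `J_acc`: a point of the frontier is in the closure of `A`.
-/

set_option autoImplicit false

open Filter Topology Metric Set

namespace Pool.Agent.H44.DP

theorem ee_open (X : PsA) : IsOpen (EE X) := isOpen_interior

theorem ee_iff (X : PsA) (z : ℂ) : z ∈ EE X ↔ z ∉ X.A ∧ z ∉ X.J := by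
  have h1 : EE X = (closure X.A)ᶜ := by
    rw [EE, interior_compl]
  have h2 : X.J = closure X.A \ X.A := by
    rw [X.hAJ, X.hAo.frontier_eq]
  rw [h1, h2]
  constructor
  · intro h
    exact ⟨fun h3 => h (subset_closure h3), fun h3 => h h3.1⟩
  · rintro ⟨h3, h4⟩ h5
    exact h4 ⟨h5, h3⟩

theorem J_not (X : PsA) {z : ℂ} (hz : z ∈ X.J) : z ∉ X.A := by
  have h2 : X.J = closure X.A \ X.A := by
    rw [X.hAJ, X.hAo.frontier_eq]
  rw [h2] at hz
  exact hz.2

theorem J_acc (X : PsA) {z : ℂ} (hz : z ∈ X.J) {U : Set ℂ} (hU : U ∈ 𝓝 z) : ∃ y ∈ U, y ∈ X.A := by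
  have h2 : X.J = closure X.A \ X.A := by
    rw [X.hAJ, X.hAo.frontier_eq]
  rw [h2] at hz
  obtain ⟨y, hy1, hy2⟩ := mem_closure_iff_nhds.1 hz.1 U hU
  exact ⟨y, hy1, hy2⟩

theorem ee_f (X : PsA) {z : ℂ} (hz : z ∈ EE X) : X.f z ∈ EE X := by
  obtain ⟨hzA, hzJ⟩ := (ee_iff X z).1 hz
  have hne := X.hAd z hzA hzJ
  have hzG := X.hAG z hzA
  have han : AnalyticAt ℂ X.f z := (X.hf.analyticAt (X.hG.mem_nhds hzG))
  have hst : HasStrictDerivAt X.f (deriv X.f z) z := han.hasStrictDerivAt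
  have hmap := hst.map_nhds_eq hne
  have h1 : EE X ∈ 𝓝 z := (ee_open X).mem_nhds hz
  have h2 : X.f '' (EE X) ∈ 𝓝 (X.f z) := by
    rw [← hmap]
    exact image_mem_map h1
  refine mem_interior_iff_mem_nhds.2 (mem_of_superset h2 ?_)
  rintro _ ⟨w, hw, rfl⟩
  exact X.hAf w ((ee_iff X w).1 hw).1

theorem ee_it (X : PsA) {z : ℂ} (hz : z ∈ EE X) (n : ℕ) : X.f^[n] z ∈ EE X := by
  induction n with
  | zero => exact hz
  | succ n ih =>
    rw [Function.iterate_succ_apply']
    exact ee_f X ih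

theorem ee_diff (X : PsA) (n : ℕ) : DifferentiableOn ℂ (X.f^[n]) (EE X) := by
  intro z hz
  refine (it_diff X.toPs fun i _ => ?_).differentiableWithinAt
  exact X.hAG _ ((ee_iff X _).1 (ee_it X hz i)).1

theorem ee_bd (X : PsA) : ∃ R : ℝ, 0 < R ∧ ∀ z, z ∉ X.A → ‖z‖ ≤ R := by
  obtain ⟨R, h1, h2⟩ := X.hAb.exists_pos_norm_le
  exact ⟨R, h1, fun z hz => h2 z hz⟩

theorem ee_cpt (X : PsA) {c : ℝ} (hc : 0 < c) :
    IsCompact {z : ℂ | z ∉ X.A ∧ c ≤ infDist z X.J} ∧
      ∀ z, z ∉ X.A → c ≤ infDist z X.J → z ∈ EE X := by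
  constructor
  · refine Metric.isCompact_of_isClosed_isBounded ?_ (X.hAb.subset fun z hz => hz.1)
    exact (X.hAo.isClosed_compl).inter (isClosed_le continuous_const (continuous_infDist_pt X.J))
  · intro z h1 h2
    refine (ee_iff X z).2 ⟨h1, fun h3 => ?_⟩
    rw [infDist_zero_of_mem h3] at h2
    linarith

end Pool.Agent.H44.DP
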