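import Pool.Agent.H44.DP.FO2
import Pool.Agent.H44.DP.EXG

/-!
# Module FA2: no orbit in the interior of the complement of `A` stays near `J`

PROOF. `om3`: `r3` from `om2` (for `η`), decreased to `r3 ≤ r0, 1`; `δ3` from `om1` for `η * r3`. Let `g w = f^[i] (z + s w)` on `ball 0 1`: holomorphic with values in `EE` (`ee_it`, `ee_diff`), `g 0 ∈ thickening δ3 J`. If `r3 ≤ dd (g 0)`: `om1` (the elements of `EE` are not in `A`). Otherwise `dd (g 0) = ‖g 0 - p‖ < r3` for some `p ∈ Pa` (`dd_ex`, `r3 ≤ 1`): `om2`. For `w ∈ ball z (s/4)` take `(w - z) / s`.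
`no_stay`: `a, b, δ1, δ2, N` from `exit_exp`, `δ3'` from `om3` with `η = δ2`, `δ3 = min δ3' δ1`. Suppose `z ∈ EE` and all `f^[i] z` are in `V1 ∩ thickening δ3 J`. `ball z s ⊆ EE`, `s ≤ 1`; `σ = s / 4` (or smaller, `≤ 1/2`). `exit_exp` with `x = z` and every `k`: `TT z k ≤ a log (1/σ) + b =: B` and `κ = σ ^ N / exp b ≤ dd (f^[i] z)` for all `i ≤ k`. So `wt (f^[i] z) ≥ κ ^ Qx` (`wt_dd`), `k κ ^ Qx ≤ TT z k ≤ B` for all `k`. Contradiction.
-/

set_option autoImplicit false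

open Filter Topology Metric Set

namespace Pool.Agent.H44.DP

theorem om3 (X : PsA) {η : ℝ} (hη : 0 < η) : ∃ δ3 : ℝ, 0 < δ3 ∧ ∀ (z : ℂ) (s : ℝ) (i : ℕ), 0 < s →
    ball z s ⊆ EE X → X.f^[i] z ∈ thickening δ3 X.J → ∀ w ∈ ball z (s / 4),
      ‖X.f^[i] w - X.f^[i] z‖ ≤ η * X.toPs.dd (X.f^[i] z) := by
  obtain ⟨r3', hr3', h2⟩ := om2 X hη
  have hr3 : 0 < min r3' 1 := lt_min hr3' one_pos
  obtain ⟨δ3, hδ3, h1⟩ := om1 X (mul_pos hη hr3)
  refine ⟨δ3, hδ3, fun z s i hs hb hth w hw => ?_⟩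
  have hsc : (s : ℂ) ≠ 0 := by exact_mod_cast hs.ne'
  have hmap : ∀ u ∈ ball (0 : ℂ) 1, z + (s : ℂ) * u ∈ ball z s := by
    intro u hu
    rw [mem_ball, dist_eq_norm] at hu ⊢
    rw [sub_zero] at hu
    have e : z + (s : ℂ) * u - z = (s : ℂ) * u := by ring
    rw [e, norm_mul, Complex.norm_real, Real.norm_of_nonneg hs.le]
    nlinarith
  obtain ⟨g, hgdef⟩ : ∃ g : ℂ → ℂ, ∀ u, g u = X.f^[i] (z + (s : ℂ) * u) := ⟨_, fun _ => rfl⟩
  have hgd : DifferentiableOn ℂ g (ball 0 1) := by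
    have h3 : DifferentiableOn ℂ (fun u : ℂ => z + (s : ℂ) * u) (ball 0 1) := by fun_prop
    have h4 := (ee_diff X i).comp h3 (fun u hu => hb (hmap u hu))
    exact h4.congr fun u _ => hgdef u
  have hgE : ∀ u ∈ ball (0 : ℂ) 1, g u ∈ EE X := by
    intro u hu
    rw [hgdef]
    exact ee_it X (hb (hmap u hu)) i
  have hg0 : g 0 = X.f^[i] z := by
    rw [hgdef, mul_zero, add_zero]
  have hw' : (w - z) / (s : ℂ) ∈ ball (0 : ℂ) (1 / 4) := by
    rw [mem_ball, dist_eq_norm] at hw ⊢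
    rw [sub_zero, norm_div, Complex.norm_real, Real.norm_of_nonneg hs.le, div_lt_iff₀ hs]
    linarith
  have hgw : g ((w - z) / (s : ℂ)) = X.f^[i] w := by
    have e : z + (s : ℂ) * ((w - z) / (s : ℂ)) = w := by
      field_simp
      ring
    rw [hgdef, e]
  rcases le_or_gt (min r3' 1) (X.toPs.dd (X.f^[i] z)) with hc | hc
  · have h3 := h1 g hgd (fun u hu => ((ee_iff X _).1 (hgE u hu)).1) (by rw [hg0]; exact hth) _
      (ball_subset_ball (by norm_num) hw')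
    rw [hgw, hg0] at h3
    refine h3.trans ?_
    exact mul_le_mul_of_nonneg_left hc hη.le
  · rcases dd_ex X.toPs (X.f^[i] z) with h3 | ⟨p, hp, h3⟩
    · rw [h3] at hc
      have := min_le_right r3' 1
      linarith
    · have h4 : ‖X.f^[i] z - p‖ < r3' := by
        rw [← h3]
        exact hc.trans_le (min_le_left _ _)
      have h5 := h2 p hp g hgd hgE (by rw [hg0, mem_ball, dist_eq_norm]; exact h4) _ hw'
      rw [hgw, hg0] at h5
      rw [h3]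
      exact h5

theorem no_stay (X : PsA) : ∃ δ3 : ℝ, 0 < δ3 ∧ ∀ z ∈ EE X, ∃ i : ℕ,
    ¬ (X.f^[i] z ∈ X.V1 ∧ X.f^[i] z ∈ thickening δ3 X.J) := by
  obtain ⟨a, b, δ1, δ2, N, ha, hb, hδ1, _, hδ2, _, _, _, hex⟩ := exit_exp X.toPs
  obtain ⟨δ3', hδ3', hom⟩ := om3 X hδ2
  refine ⟨min δ3' δ1, lt_min hδ3' hδ1, fun z hz => ?_⟩
  by_contra hcon
  push Not at hcon
  obtain ⟨s0, hs0, hb0⟩ := Metric.isOpen_iff.1 (ee_open X) z hz
  obtain ⟨s, hs, hs1, hbs⟩ : ∃ s : ℝ, 0 < s ∧ s ≤ 1 ∧ ball z s ⊆ EE X :=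
    ⟨min s0 1, lt_min hs0 one_pos, min_le_right _ _,
      (ball_subset_ball (min_le_left _ _)).trans hb0⟩
  have hσ : 0 < s / 4 := by linarith
  have key : ∀ k : ℕ, X.toPs.TT z k ≤ a * Real.log (1 / (s / 4)) + b ∧
      ∀ i ≤ k, (s / 4) ^ N ≤ Real.exp b * X.toPs.dd (X.f^[i] z) := by
    intro k
    obtain ⟨h1, h2, _⟩ := hex z (s / 4) k hσ (by linarith) (fun i _ =>
      ⟨(hcon i).1, thickening_mono (min_le_right _ _) _ (hcon i).2, fun w hw =>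
        hom z s i hs hbs (thickening_mono (min_le_left _ _) _ (hcon i).2) w hw⟩)
    exact ⟨h1, h2⟩
  have hκ : 0 < (s / 4) ^ N / Real.exp b := div_pos (pow_pos hσ _) (Real.exp_pos _)
  have hκd : ∀ i, (s / 4) ^ N / Real.exp b ≤ X.toPs.dd (X.f^[i] z) := by
    intro i
    rw [div_le_iff₀ (Real.exp_pos b), mul_comm]
    exact (key i).2 i le_rfl
  have hwt : ∀ i, ((s / 4) ^ N / Real.exp b) ^ X.toPs.Qx ≤ X.toPs.wt (X.f^[i] z) := fun i =>
    (pow_le_pow_left₀ hκ.le (hκd i) _).trans (wt_dd _ _)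
  have hTT : ∀ k : ℕ, (k : ℝ) * ((s / 4) ^ N / Real.exp b) ^ X.toPs.Qx ≤
      a * Real.log (1 / (s / 4)) + b := by
    intro k
    refine le_trans ?_ (key k).1
    unfold Ps.TT
    calc (k : ℝ) * ((s / 4) ^ N / Real.exp b) ^ X.toPs.Qx =
        ∑ i ∈ Finset.range k, ((s / 4) ^ N / Real.exp b) ^ X.toPs.Qx := by simp
      _ ≤ _ := Finset.sum_le_sum fun i _ => hwt i
  obtain ⟨k, hk⟩ := exists_nat_gt ((a * Real.log (1 / (s / 4)) + b) /
    ((s / 4) ^ N / Real.exp b) ^ X.toPs.Qx)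
  have h1 := hTT k
  rw [div_lt_iff₀ (pow_pos hκ _)] at hk
  linarith

end Pool.Agent.H44.DP
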