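import Pool.Agent.H44.DP.FA2

/-!
# Module FA3: a compact set absorbs the interior of the complement of `A`

PROOF. `δ3` from `no_stay`. For every `p ∈ Pa` `X.con` with `ε = ε1` gives a radius; `r` their minimum, `r ≤ r0, 1`. Let `c = min δ3 (ϑ r / 2)`, decreased if necessary. CLAIM: every `z ∈ EE` has an iterate `f^[i] z` with `c ≤ infDist (f^[i] z) J`: take `i` from `no_stay`, `y = f^[i] z ∈ EE` (`ee_it`). If `y ∉ thickening δ3 J` then `δ3 ≤ infDist y J` (`J` nonempty).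
If `y ∉ V1`: `dd y ≥ r`; otherwise `dd y = ‖y - p‖ < r` for some `p ∈ Pa` (`dd_ex`), `hVe` gives `re ≤ (1 - ε1) ‖..‖` and `X.con` gives `y ∈ A` (`y ≠ p` since `p ∈ J`). By `V1_far` `infDist y J ≥ ϑ / 2 * r`.
`K0 = {z | z ∉ A ∧ c / 2 ≤ infDist z J}`, compact, `⊆ EE` (`ee_cpt`). For every `z ∈ K0` the claim for `f z ∈ EE` gives `i ≥ 1` with `c ≤ infDist (f^[i] z) J`; `f^[i]` is continuous at `z`, so `f^[i] y ∈ K0` for all `y` in a neighbourhood `U_z ⊆ EE` (`c / 2 < infDist (f^[i] y) J`, `f^[i] y ∈ EE`). By compactness there is `B` such that every `y ∈ K0` has `1 ≤ i ≤ B` with `f^[i] y ∈ K0`. Let `K = ⋃_(i ≤ B) f^[i] '' K0`: compact (`ee_diff`, continuous images), `⊆ EE`.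
For `y ∈ K0` and every `n`: `f^[n] y ∈ K` (strong induction on `n`: if `n ≤ B` clear; otherwise `f^[i] y ∈ K0` with `1 ≤ i ≤ B < n` and `f^[n] y = f^[n - i] (f^[i] y)`). For `z ∈ EE`: by the claim `f^[n0] z ∈ K0` for some `n0`, so `f^[n] z ∈ K` for `n ≥ n0`.
-/

set_option autoImplicit false

open Filter Topology Metric Set

namespace Pool.Agent.H44.DP

theorem absorb (X : PsA) : ∃ K : Set ℂ, IsCompact K ∧ K ⊆ EE X ∧ ∀ z ∈ EE X, ∃ n0 : ℕ,
    ∀ n ≥ n0, X.f^[n] z ∈ K := by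
  classical
  obtain ⟨δ3, hδ3, hns⟩ := no_stay X
  have hcon : ∀ p : ℂ, ∃ r : ℝ, 0 < r ∧ (p ∈ X.Pa → ∀ z ∈ ball p r, z ≠ p →
      (X.ap p * (z - p) ^ X.qp p).re ≤ (1 - X.ε1) * ‖X.ap p * (z - p) ^ X.qp p‖ → z ∈ X.A) := by
    intro p
    by_cases hp : p ∈ X.Pa
    · obtain ⟨r, hr, h⟩ := X.con p hp X.ε1 X.hε1
      exact ⟨r, hr, fun _ => h⟩
    · exact ⟨1, one_pos, fun h => absurd h hp⟩
  choose rr hrr0 hrr using hcon
  have hmin : ∀ P : Finset ℂ, ∃ r : ℝ, 0 < r ∧ ∀ p ∈ P, r ≤ rr p := by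
    intro P
    induction P using Finset.induction_on with
    | empty => exact ⟨1, one_pos, by simp⟩
    | insert a s ha ih =>
      obtain ⟨r, hr, h⟩ := ih
      refine ⟨min r (rr a), lt_min hr (hrr0 a), fun p hp => ?_⟩
      rcases Finset.mem_insert.1 hp with rfl | hp
      · exact min_le_right _ _
      · exact (min_le_left _ _).trans (h p hp)
  obtain ⟨r1, hr1, hr1le⟩ := hmin X.Pa
  obtain ⟨r, hr, hrr1, hrr0', hrone⟩ : ∃ r : ℝ, 0 < r ∧ r ≤ r1 ∧ r ≤ X.r0 ∧ r ≤ 1 :=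
    ⟨min r1 (min X.r0 1), lt_min hr1 (lt_min X.hr0 one_pos), min_le_left _ _,
      (min_le_right _ _).trans (min_le_left _ _), (min_le_right _ _).trans (min_le_right _ _)⟩
  have hJne : X.J.Nonempty := by
    obtain ⟨c, hc⟩ := X.hne
    exact ⟨c, X.hSJ c ((X.hS c).2 (Or.inl ((X.hCr c).2 (Or.inl hc))))⟩
  have hϑ := X.hϑ
  obtain ⟨c, hc, hc1, hc2⟩ : ∃ c : ℝ, 0 < c ∧ c ≤ δ3 ∧ c ≤ X.ϑ / 2 * r :=
    ⟨min δ3 (X.ϑ / 2 * r), lt_min hδ3 (by positivity), min_le_left _ _, min_le_right _ _⟩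
  have claim : ∀ z ∈ EE X, ∃ i : ℕ, c ≤ infDist (X.f^[i] z) X.J := by
    intro z hz
    obtain ⟨i, hi⟩ := hns z hz
    refine ⟨i, ?_⟩
    have hy := ee_it X hz i
    by_cases h1 : X.f^[i] z ∈ X.V1
    · have h2 : X.f^[i] z ∉ thickening δ3 X.J := fun h => hi ⟨h1, h⟩
      rw [mem_thickening_iff_infDist_lt hJne, not_lt] at h2
      exact hc1.trans h2
    · refine hc2.trans ?_
      have hr' : r ≤ X.toPs.dd (X.f^[i] z) := by
        by_contra hlt
        rw [not_le] at hlt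
        rcases dd_ex X.toPs (X.f^[i] z) with h3 | ⟨p, hp, h3⟩
        · rw [h3] at hlt
          linarith
        · have h4 : ‖X.f^[i] z - p‖ < r := by
            rw [← h3]
            exact hlt
          have hyp : X.f^[i] z ≠ p := by
            intro h
            exact ((ee_iff X _).1 hy).2 (by rw [h]; exact X.hSJ p ((X.hS p).2 (Or.inr hp)))
          have h5 := X.hVe p hp (X.f^[i] z)
            (by rw [mem_ball, dist_eq_norm]; exact h4.trans_le hrr0') h1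
          exact ((ee_iff X _).1 hy).1 (hrr p hp _ (by
            rw [mem_ball, dist_eq_norm]
            exact h4.trans_le (hrr1.trans (hr1le p hp))) hyp h5)
      refine (le_infDist hJne).2 fun x hx => ?_
      rw [dist_eq_norm]
      exact (mul_le_mul_of_nonneg_left hr' (by positivity)).trans (V1_far X.toPs h1 x hx)
  obtain ⟨hK0c, hK0E⟩ := ee_cpt X (half_pos hc)
  have hstep : ∀ z : ℂ, ∃ i : ℕ, (z ∉ X.A ∧ c / 2 ≤ infDist z X.J) →
      (1 ≤ i ∧ ∀ᶠ y in 𝓝 z, X.f^[i] y ∉ X.A ∧ c / 2 ≤ infDist (X.f^[i] y) X.J) := by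
    intro z
    by_cases hz : z ∉ X.A ∧ c / 2 ≤ infDist z X.J
    · have hzE := hK0E z hz.1 hz.2
      obtain ⟨i, hi⟩ := claim _ (ee_f X hzE)
      refine ⟨i + 1, fun _ => ⟨by omega, ?_⟩⟩
      have hct : ContinuousAt (X.f^[i + 1]) z :=
        (ee_diff X (i + 1)).continuousOn.continuousAt ((ee_open X).mem_nhds hzE)
      have hct2 : ContinuousAt (fun y => infDist (X.f^[i + 1] y) X.J) z :=
        (continuous_infDist_pt X.J).continuousAt.comp hct
      have h1 : c / 2 < infDist (X.f^[i + 1] z) X.J := by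
        rw [Function.iterate_succ_apply]
        linarith
      filter_upwards [hct2.eventually_const_lt h1, (ee_open X).mem_nhds hzE] with y hy1 hy2
      exact ⟨((ee_iff X _).1 (ee_it X hy2 (i + 1))).1, hy1.le⟩
    · exact ⟨0, fun h => absurd h hz⟩
  choose ii hii using hstep
  obtain ⟨t, ht, htc⟩ := hK0c.elim_nhds_subcover
    (fun z => {y | X.f^[ii z] y ∉ X.A ∧ c / 2 ≤ infDist (X.f^[ii z] y) X.J})
    (fun z hz => (hii z hz).2)
  have hB : ∀ y : ℂ, (y ∉ X.A ∧ c / 2 ≤ infDist y X.J) → ∃ i : ℕ, 1 ≤ i ∧ i ≤ t.sup ii ∧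
      (X.f^[i] y ∉ X.A ∧ c / 2 ≤ infDist (X.f^[i] y) X.J) := by
    intro y hy
    have h1 := htc hy
    simp only [mem_iUnion, exists_prop] at h1
    obtain ⟨z, hz, h2⟩ := h1
    exact ⟨ii z, (hii z (ht z hz)).1, Finset.le_sup hz, h2⟩
  refine ⟨⋃ i ∈ Finset.range (t.sup ii + 1),
    X.f^[i] '' {z | z ∉ X.A ∧ c / 2 ≤ infDist z X.J}, ?_, ?_, ?_⟩
  · refine Finset.isCompact_biUnion _ fun i _ => hK0c.image_of_continuousOn ?_
    exact (ee_diff X i).continuousOn.mono fun z hz => hK0E z hz.1 hz.2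
  · intro y hy
    simp only [mem_iUnion, exists_prop] at hy
    obtain ⟨i, _, z, hz, rfl⟩ := hy
    exact ee_it X (hK0E z hz.1 hz.2) i
  · have hall : ∀ n : ℕ, ∀ y : ℂ, (y ∉ X.A ∧ c / 2 ≤ infDist y X.J) →
        X.f^[n] y ∈ ⋃ i ∈ Finset.range (t.sup ii + 1),
          X.f^[i] '' {z | z ∉ X.A ∧ c / 2 ≤ infDist z X.J} := by
      intro n
      induction n using Nat.strong_induction_on with
      | _ n ih =>
        intro y hy
        by_cases hn : n ≤ t.sup ii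
        · simp only [mem_iUnion, exists_prop]
          exact ⟨n, Finset.mem_range.2 (by omega), y, hy, rfl⟩
        · obtain ⟨i, hi1, hi2, hi3⟩ := hB y hy
          have h1 := ih (n - i) (by omega) _ hi3
          rw [← Function.iterate_add_apply] at h1
          have h2 : n - i + i = n := by omega
          rw [h2] at h1
          exact h1
    intro z hz
    obtain ⟨n0, hn0⟩ := claim z hz
    refine ⟨n0, fun n hn => ?_⟩
    have h1 := hall (n - n0) (X.f^[n0] z)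
      ⟨((ee_iff X _).1 (ee_it X hz n0)).1, by linarith⟩
    rw [← Function.iterate_add_apply] at h1
    have h2 : n - n0 + n0 = n := by omega
    rw [h2] at h1
    exact h1

end Pool.Agent.H44.DP
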