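import Pool.Agent.H44.DN.JETB

/-!
# Module FCA: Cartan's uniqueness theorem (one variable, local form)

PROOF. Translate to `x = 0`. Suppose `g z ≠ z` for some `z` of the ball. `g z - z` is holomorphic on the ball and not identically zero; at `0` it vanishes together with its derivative, so its order `k` at `0` is finite, `k ≥ 2`: `g z - z = z ^ k * u z` near `0`, `u` analytic, `a = u 0 ≠ 0` (`AnalyticAt.analyticOrderAt_ne_top`, identity theorem on the preconnected ball). So `g z = z + a z ^ k + o(z ^ k)`.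
By induction on `j`: `g^[j] z = z + j a z ^ k + o(z ^ k)` at `0` (`g^[j+1] z = g (g^[j] z)`, `g^[j] z → 0`, `(g^[j] z) ^ k = z ^ k + o(z ^ k)` because `g^[j] z = z + o(z)`). Let `G_j` be given by `hG`: `G_j z - z = j a z ^ k + o(z ^ k)` at `0` (`𝓝 0`), `‖G_j z - z‖ ≤ R + ρ` on `ball 0 ρ`. `cau` (H91/CE/CAU): `j ‖a‖ ρ ^ k ≤ R + ρ` for all `j`. So `a = 0`. Contradiction.
(For general `x`: `‖G_j z - z‖ ≤ R + ‖x‖ + ρ`.)
-/

set_option autoImplicit false

open Filter Topology Metric Set

namespace Pool.Agent.H44.DP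

theorem cartan {g : ℂ → ℂ} {x : ℂ} {ρ R : ℝ} (hρ : 0 < ρ) (hg : DifferentiableOn ℂ g (ball x ρ))
    (hx : g x = x) (h1 : deriv g x = 1) (hG : ∀ j : ℕ, ∃ G : ℂ → ℂ,
      DifferentiableOn ℂ G (ball x ρ) ∧ (∀ z ∈ ball x ρ, ‖G z‖ ≤ R) ∧ ∀ᶠ z in 𝓝 x, G z = g^[j] z) :
    ∀ z ∈ ball x ρ, g z = z := by
  have hDan : AnalyticOnNhd ℂ (fun z => g z - z) (ball x ρ) :=
    (hg.sub differentiableOn_id).analyticOnNhd isOpen_ball
  have hxb : x ∈ ball x ρ := mem_ball_self hρ
  by_cases hord : analyticOrderAt (fun z => g z - z) x = ⊤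
  · have h2 : (fun z => g z - z) =ᶠ[𝓝 x] 0 := analyticOrderAt_eq_top.1 hord
    have h3 := hDan.eqOn_zero_of_preconnected_of_eventuallyEq_zero
      (convex_ball x ρ).isPreconnected hxb h2
    intro z hz
    have := h3 hz
    simpa [sub_eq_zero] using this
  exfalso
  obtain ⟨u, hu, hu0, hDu⟩ := (hDan x hxb).analyticOrderAt_ne_top.1 hord
  set k : ℕ := analyticOrderNatAt (fun z => g z - z) x with hk
  have hgd : DifferentiableAt ℂ g x := (hg x hxb).differentiableAt (ball_mem_nhds x hρ)
  have hk0 : k ≠ 0 := by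
    intro h0
    have h4 : g x - x = (x - x) ^ k • u x := hDu.self_of_nhds
    rw [h0, hx] at h4
    simp at h4
    exact hu0 h4.symm
  have hk1 : k ≠ 1 := by
    intro h0
    rw [h0] at hDu
    have h5 : HasDerivAt (fun z : ℂ => (z - x) ^ 1 • u z) (u x) x := by
      have h6 : HasDerivAt (fun z : ℂ => (z - x) * u z) (1 * u x + (x - x) * deriv u x) x :=
        ((hasDerivAt_id x).sub_const x).mul hu.differentiableAt.hasDerivAt
      simpa using h6
    have h7 : HasDerivAt (fun z => g z - z) (1 - 1) x := by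
      have := hgd.hasDerivAt
      rw [h1] at this
      exact this.sub (hasDerivAt_id x)
    have h8 : HasDerivAt (fun z => g z - z) (u x) x := h5.congr_of_eventuallyEq hDu
    have := h7.unique h8
    simp at this
    exact hu0 this.symm
  have hk2 : 2 ≤ k := by omega
  set a : ℂ := u x with ha
  -- expansion of `g`
  have hadd : Tendsto (fun w : ℂ => x + w) (𝓝 0) (𝓝 x) := by
    have : Tendsto (fun w : ℂ => x + w) (𝓝 0) (𝓝 (x + 0)) :=
      tendsto_const_nhds.add tendsto_id
    simpa using this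
  have hE : (fun w : ℂ => g (x + w) - (x + w) - a * w ^ k) =o[𝓝 0] fun w : ℂ => w ^ k := by
    have h9 : (fun w : ℂ => g (x + w) - (x + w) - a * w ^ k) =ᶠ[𝓝 0]
        fun w : ℂ => (u (x + w) - a) * w ^ k := by
      have := hadd.eventually hDu
      filter_upwards [this] with w hw
      rw [hw]
      simp only [add_sub_cancel_left, smul_eq_mul]
      ring
    refine h9.trans_isLittleO ?_
    have h10 : (fun w : ℂ => u (x + w) - a) =o[𝓝 0] (fun _ => (1 : ℂ)) := by
      rw [Asymptotics.isLittleO_one_iff]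
      have h11 : Tendsto (fun w : ℂ => u (x + w)) (𝓝 0) (𝓝 (u x)) :=
        hu.continuousAt.tendsto.comp hadd
      have := h11.sub_const a
      simpa [ha] using this
    simpa using h10.mul_isBigO (Asymptotics.isBigO_refl (fun w : ℂ => w ^ k) (𝓝 0))
  have hwk : (fun w : ℂ => w ^ k) =o[𝓝 0] fun w : ℂ => w := by
    have := (Asymptotics.isLittleO_pow_pow (𝕜 := ℂ) (m := 1) (n := k) (by omega))
    simpa using this
  have hclaim : ∀ j : ℕ, (fun w : ℂ => g^[j] (x + w) - (x + w) - (j : ℂ) * a * w ^ k)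
      =o[𝓝 0] fun w : ℂ => w ^ k := by
    intro j
    induction j with
    | zero =>
      simp
    | succ j ih =>
      set y : ℂ → ℂ := fun w => g^[j] (x + w) - x with hy
      have hyw : (fun w => y w - w) =O[𝓝 0] fun w : ℂ => w ^ k := by
        have h12 : (fun w => y w - w) = fun w =>
            (g^[j] (x + w) - (x + w) - (j : ℂ) * a * w ^ k) + (j : ℂ) * a * w ^ k := by
          funext w; simp only [hy]; ring
        rw [h12]
        exact ih.isBigO.add ((Asymptotics.isBigO_refl _ _).const_mul_left _)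
      have hyo : (fun w => y w - w) =o[𝓝 0] fun w : ℂ => w := hyw.trans_isLittleO hwk
      have hyequ : Asymptotics.IsEquivalent (𝓝 0) y fun w : ℂ => w := hyo
      have hyk : Asymptotics.IsEquivalent (𝓝 0) (fun w => y w ^ k) fun w : ℂ => w ^ k :=
        hyequ.pow k
      have hy0 : Tendsto y (𝓝 0) (𝓝 0) := by
        have := hyequ.symm.tendsto_nhds (tendsto_id (α := ℂ) (x := 𝓝 0))
        exact this
      have h13 : (fun w : ℂ => g (x + y w) - (x + y w) - a * y w ^ k) =o[𝓝 0]
          fun w : ℂ => w ^ k := by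
        have h14 := hE.comp_tendsto hy0
        exact h14.trans_isBigO hyk.isBigO
      have h15 : (fun w : ℂ => a * (y w ^ k - w ^ k)) =o[𝓝 0] fun w : ℂ => w ^ k :=
        Asymptotics.IsLittleO.const_mul_left hyk _
      have h16 := (h13.add ih).add h15
      refine h16.congr_left ?_
      intro w
      have h17 : g^[j + 1] (x + w) = g (x + y w) := by
        rw [Function.iterate_succ_apply']
        simp only [hy]
        congr 1
        ring
      rw [h17]
      simp only [hy]
      push_cast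
      ring
  have ha0 : 0 < ‖a‖ * ρ ^ k := mul_pos (norm_pos_iff.2 hu0) (pow_pos hρ k)
  obtain ⟨j, hj⟩ := exists_nat_gt ((R + ‖x‖ + ρ) / (‖a‖ * ρ ^ k))
  rw [div_lt_iff₀ ha0] at hj
  obtain ⟨G, hG1, hG2, hG3⟩ := hG j
  have hmaps : ∀ w ∈ ball (0 : ℂ) ρ, x + w ∈ ball x ρ := by
    intro w hw
    rw [mem_ball_zero_iff] at hw
    rw [mem_ball, dist_eq_norm]
    simpa using hw
  have hc := H91.CE.cau (h := fun w => G (x + w) - (x + w)) (M := k) (ρ := ρ)
    (D := R + ‖x‖ + ρ) (a := (j : ℂ) * a) hρ ?_ ?_ ?_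
  · rw [norm_mul, Complex.norm_natCast] at hc
    have : (j : ℝ) * (‖a‖ * ρ ^ k) ≤ R + ‖x‖ + ρ := by
      rw [← mul_assoc]; exact hc
    linarith
  · refine DifferentiableOn.sub ?_ (by fun_prop)
    exact hG1.comp (by fun_prop) hmaps
  · intro w hw
    have h18 := hG2 _ (hmaps w hw)
    have h19 : ‖w‖ < ρ := by simpa using hw
    calc ‖G (x + w) - (x + w)‖ ≤ ‖G (x + w)‖ + ‖x + w‖ := norm_sub_le _ _
      _ ≤ R + (‖x‖ + ‖w‖) := add_le_add h18 (norm_add_le _ _)
      _ ≤ R + ‖x‖ + ρ := by linarith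
  · refine (hclaim j).congr' ?_ (EventuallyEq.refl _ _)
    filter_upwards [hadd.eventually hG3] with w hw
    rw [hw]

end Pool.Agent.H44.DP
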