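import Pool.Agent.H44.DP.FA3
import Pool.Agent.H44.DP.FCA

/-!
# Module FA4: limits of iterates

`Lim f b h x ρ`: the iterates `f^[b k]` converge to `h` continuously on `ball x ρ`, `b k → ∞`.

PROOFS. `lim_ex`: `ee_bd`, `montel1` (`ρ' < ρ`) for `F k = f^[b k]`; `b ∘ σ → ∞`. `lim_comp`: `h x = x`. By induction on `j`: the functions `f^[j * b k]` converge continuously at the point `x`, precisely: `(k, w) ↦ f^[j * b k] w` tends to `h^[j]` of nearby points. Claim(j): there is a neighbourhood `U` of `x` such that for every `z ∈ U`: `h^[i] z ∈ ball x ρ` for `i < j` and `(k, w) ↦ f^[j * b k] w` tends to `h^[j] z` along `atTop ×ˢ 𝓝 z`. Step: `f^[(j+1) * b k] w = f^[b k] (f^[j * b k] w)`, continuous convergence at `h^[j] z ∈ ball x ρ` (`h^[j]` is continuous at `x` with `h^[j] x = x`; shrink `U`).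
`lim_der`: for each fixed `j` the derivatives converge: `deriv (f^[j * b k]) x → (deriv h x) ^ j`: the functions `f^[j * b k]` are holomorphic on `ball x ρ` (`ee_diff`) and converge continuously (so locally uniformly) near `x` to `h^[j]` (by `lim_comp`), hence the derivatives at `x` converge to `deriv (h^[j]) x = (deriv h x) ^ j` (`TendstoLocallyUniformlyOn.deriv`, `HasDerivAt.iterate`).
`lim_le`: `‖deriv (f^[n]) x‖ ≤ R / ρ` for all `n` (Cauchy estimate, `ee_bd`), so `‖deriv h x‖ ^ j ≤ R / ρ` for all `j`.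
`lim_start`: let `z ∈ EE`, `K` from `absorb`; the points `f^[n] z`, `n ≥ n0`, are in `K`; choose a strictly increasing `n_k` with `f^[n_k] z → x ∈ K`, and (passing to a subsequence) `m_k = n_(k+1) - n_k → ∞`. `ball x (2 ρ) ⊆ EE`. `lim_ex`: a subsequence of `m_k` with limit `h` on `ball x ρ`; `f^[m_k] (f^[n_k] z) = f^[n_(k+1)] z → x` and `f^[n_k] z → x`, so `h x = x`.
`lim_not`: `‖deriv h x‖ < κ < 1`; `deriv (f^[b k]) → deriv h` locally uniformly, so there are `s > 0`, `k` with `‖deriv (f^[b k]) w‖ ≤ κ` on `closedBall x s`, `closedBall x s ⊆ ball x ρ ⊆ EE`, `‖f^[b k] x - x‖ ≤ (1 - κ) s / 2` (`f^[b k] x → h x = x`), `b k ≥ 1`. So `f^[b k]` maps `closedBall x s` to itself and is a contraction there: fixed point `y`, `‖y - x‖ ≤ s / 2` (`‖y - x‖ ≤ κ ‖y - x‖ + (1 - κ) s / 2`), all points of `ball y (s / 2)` converge to `y`: `X.snk`.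
-/

set_option autoImplicit false

open Filter Topology Metric Set

namespace Pool.Agent.H44.DP

/-- the iterates `f^[b k]` converge to `h` on `ball x ρ` -/
structure Lim (f : ℂ → ℂ) (b : ℕ → ℕ) (h : ℂ → ℂ) (x : ℂ) (ρ : ℝ) : Prop where
  pos : 0 < ρ
  inf : Tendsto b atTop atTop
  diff : DifferentiableOn ℂ h (ball x ρ)
  conv : ∀ z ∈ ball x ρ, Tendsto (fun w : ℕ × ℂ => f^[b w.1] w.2) (atTop ×ˢ 𝓝 z) (𝓝 (h z))

theorem lim_ex (X : PsA) {b : ℕ → ℕ} (hb : Tendsto b atTop atTop) {x : ℂ} {ρ ρ' : ℝ} (hρ : 0 < ρ')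
    (hρρ : ρ' < ρ) (hE : ball x ρ ⊆ EE X) : ∃ (σ : ℕ → ℕ) (h : ℂ → ℂ), StrictMono σ ∧
      Lim X.f (b ∘ σ) h x ρ' := by
  obtain ⟨R, hR, hRb⟩ := ee_bd X
  obtain ⟨σ, g, hσ, hg, hc⟩ := Pool.Agent.H44.DN.montel1 (F := fun k => X.f^[b k]) (x := x)
    (ρ := ρ) (ρ' := ρ') (B := R) hρ hρρ (fun k => (ee_diff X (b k)).mono hE)
    (fun k z hz => hRb _ ((ee_iff X _).1 (ee_it X (hE hz) (b k))).1)
  exact ⟨σ, g, hσ, ⟨hρ, hb.comp hσ.tendsto_atTop, hg, hc⟩⟩

private theorem lim_an {f : ℂ → ℂ} {b : ℕ → ℕ} {h : ℂ → ℂ} {x : ℂ} {ρ : ℝ}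
    (hl : Lim f b h x ρ) (hx : h x = x) (j : ℕ) : AnalyticAt ℂ (h^[j]) x := by
  have h1 : AnalyticAt ℂ h x :=
    hl.diff.analyticAt (ball_mem_nhds x hl.pos)
  induction j with
  | zero => simpa using analyticAt_id
  | succ j ih =>
    rw [Function.iterate_succ']
    exact h1.comp_of_eq ih (Function.iterate_fixed hx j)

theorem lim_comp (X : PsA) {b : ℕ → ℕ} {h : ℂ → ℂ} {x : ℂ} {ρ : ℝ} (hE : ball x ρ ⊆ EE X)
    (hl : Lim X.f b h x ρ) (hx : h x = x) (j : ℕ) : ∀ᶠ z in 𝓝 x,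
      Tendsto (fun w : ℕ × ℂ => X.f^[j * b w.1] w.2) (atTop ×ˢ 𝓝 z) (𝓝 (h^[j] z)) := by
  induction j with
  | zero =>
    refine Eventually.of_forall fun z => ?_
    simp only [Nat.zero_mul, Function.iterate_zero, id_eq]
    exact tendsto_snd
  | succ j ih =>
    have h1 : ∀ᶠ z in 𝓝 x, h^[j] z ∈ ball x ρ := by
      have h2 : Tendsto (h^[j]) (𝓝 x) (𝓝 x) := by
        have := (lim_an hl hx j).continuousAt.tendsto
        rwa [Function.iterate_fixed hx j] at this
      exact h2.eventually (ball_mem_nhds x hl.pos)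
    filter_upwards [ih, h1] with z hz hz1
    have h3 := hl.conv _ hz1
    have h4 : Tendsto (fun w : ℕ × ℂ => (w.1, X.f^[j * b w.1] w.2)) (atTop ×ˢ 𝓝 z)
        (atTop ×ˢ 𝓝 (h^[j] z)) := tendsto_fst.prodMk hz
    have h5 := h3.comp h4
    rw [Function.iterate_succ_apply']
    refine h5.congr fun w => ?_
    simp only [Function.comp_apply]
    rw [← Function.iterate_add_apply]
    congr 2
    ring

/-- continuous convergence implies locally uniform convergence -/
private theorem lim_lu {F : ℕ → ℂ → ℂ} {g : ℂ → ℂ} {U : Set ℂ}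
    (hc : ∀ z ∈ U, ContinuousAt g z)
    (hF : ∀ z ∈ U, Tendsto (fun w : ℕ × ℂ => F w.1 w.2) (atTop ×ˢ 𝓝 z) (𝓝 (g z))) :
    TendstoLocallyUniformlyOn F g atTop U := by
  rw [tendstoLocallyUniformlyOn_iff_forall_tendsto]
  intro z hz
  have h1 : Tendsto (fun w : ℕ × ℂ => g w.2) (atTop ×ˢ 𝓝 z) (𝓝 (g z)) :=
    (hc z hz).tendsto.comp tendsto_snd
  have h2 : Tendsto (fun w : ℕ × ℂ => (g w.2, F w.1 w.2)) (atTop ×ˢ 𝓝 z) (uniformity ℂ) :=
    (h1.prodMk_nhds (hF z hz)).mono_right (nhds_le_uniformity _)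
  exact h2.mono_left (Filter.prod_mono le_rfl nhdsWithin_le_nhds)

theorem lim_der (X : PsA) {b : ℕ → ℕ} {h : ℂ → ℂ} {x : ℂ} {ρ : ℝ} (hE : ball x ρ ⊆ EE X)
    (hl : Lim X.f b h x ρ) (hx : h x = x) (j : ℕ) :
    Tendsto (fun k : ℕ => X.f^[j * b k] x) atTop (𝓝 x) ∧
      Tendsto (fun k : ℕ => deriv (X.f^[j * b k]) x) atTop (𝓝 ((deriv h x) ^ j)) := by
  have h1 := lim_comp X hE hl hx j
  have h2 : ∀ᶠ z in 𝓝 x, ContinuousAt (h^[j]) z :=
    (lim_an hl hx j).eventually_analyticAt.mono fun z hz => hz.continuousAt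
  obtain ⟨r, hr, hr1⟩ := Metric.eventually_nhds_iff_ball.1 (h1.and h2)
  refine ⟨?_, ?_⟩
  · have h3 := h1.self_of_nhds
    rw [Function.iterate_fixed hx j] at h3
    exact h3.comp (tendsto_id.prodMk tendsto_const_nhds)
  · set s : ℝ := min r ρ with hs
    have hs0 : 0 < s := lt_min hr hl.pos
    have h4 : TendstoLocallyUniformlyOn (fun k => X.f^[j * b k]) (h^[j]) atTop (ball x s) :=
      lim_lu (fun z hz => (hr1 z (ball_subset_ball (min_le_left _ _) hz)).2)
        (fun z hz => (hr1 z (ball_subset_ball (min_le_left _ _) hz)).1)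
    have h5 := h4.deriv (Eventually.of_forall fun k => (ee_diff X (j * b k)).mono
      ((ball_subset_ball (min_le_right _ _)).trans hE)) isOpen_ball
    have h6 := h5.tendsto_at (mem_ball_self hs0)
    have h7 : deriv (h^[j]) x = (deriv h x) ^ j := by
      have h8 : HasDerivAt h (deriv h x) x :=
        (hl.diff.differentiableAt (ball_mem_nhds x hl.pos)).hasDerivAt
      exact (HasDerivAt.iterate x h8 hx j).deriv
    rw [h7] at h6
    exact h6

theorem lim_le (X : PsA) {b : ℕ → ℕ} {h : ℂ → ℂ} {x : ℂ} {ρ : ℝ} (hE : ball x ρ ⊆ EE X)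
    (hl : Lim X.f b h x ρ) (hx : h x = x) : ‖deriv h x‖ ≤ 1 := by
  obtain ⟨R, hR, hRb⟩ := ee_bd X
  have hρ := hl.pos
  have h1 : ∀ n : ℕ, ‖deriv (X.f^[n]) x‖ ≤ R / (ρ / 2) := by
    intro n
    have hcl : closedBall x (ρ / 2) ⊆ ball x ρ := closedBall_subset_ball (by linarith)
    refine Complex.norm_deriv_le_of_forall_mem_sphere_norm_le (by positivity) ?_ ?_
    · refine DifferentiableOn.diffContOnCl ?_
      refine (ee_diff X n).mono ?_
      rw [closure_ball _ (by positivity)]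
      exact hcl.trans hE
    · intro w hw
      exact hRb _ ((ee_iff X _).1 (ee_it X (hE (hcl (sphere_subset_closedBall hw))) n)).1
  by_contra hcon
  push Not at hcon
  have h2 : ∀ j : ℕ, ‖deriv h x‖ ^ j ≤ R / (ρ / 2) := by
    intro j
    have h3 := (lim_der X hE hl hx j).2.norm
    rw [norm_pow] at h3
    exact le_of_tendsto h3 (Eventually.of_forall fun k => h1 _)
  obtain ⟨j, hj⟩ := ((tendsto_pow_atTop_atTop_of_one_lt hcon).eventually
    (eventually_gt_atTop (R / (ρ / 2)))).exists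
  exact absurd (h2 j) (not_le.2 hj)

theorem lim_start (X : PsA) (hne : (EE X).Nonempty) : ∃ (b : ℕ → ℕ) (h : ℂ → ℂ) (x : ℂ) (ρ : ℝ),
    ball x ρ ⊆ EE X ∧ Lim X.f b h x ρ ∧ h x = x := by
  obtain ⟨z, hz⟩ := hne
  obtain ⟨K, hK, hKE, hKa⟩ := absorb X
  obtain ⟨n0, hn0⟩ := hKa z hz
  obtain ⟨x, hxK, φ, hφ, hlim⟩ := hK.tendsto_subseq (x := fun n => X.f^[n0 + n] z)
    (fun n => hn0 _ (Nat.le_add_right _ _))
  obtain ⟨ρ, hρ, hρE⟩ := Metric.isOpen_iff.1 (ee_open X) x (hKE hxK)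
  have hge : ∀ k : ℕ, φ k + k ≤ φ (2 * k) := by
    have h1 : ∀ k l : ℕ, φ k + l ≤ φ (k + l) := by
      intro k l
      induction l with
      | zero => simp
      | succ l ih =>
        have := hφ (Nat.lt_succ_self (k + l))
        have h2 : φ (k + l) < φ (k + (l + 1)) := this
        omega
    intro k
    have := h1 k k
    rwa [← two_mul] at this
  have hm : Tendsto (fun k : ℕ => φ (2 * k) - φ k) atTop atTop := by
    refine tendsto_atTop_mono (fun k => ?_) tendsto_id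
    have := hge k
    simp only [id_eq]
    omega
  obtain ⟨σ, h, hσ, hl⟩ := lim_ex X hm (x := x) (ρ := ρ) (ρ' := ρ / 2) (by positivity)
    (by linarith) hρE
  refine ⟨_, h, x, ρ / 2, (ball_subset_ball (by linarith)).trans hρE, hl, ?_⟩
  have h3 := hl.conv x (mem_ball_self (by positivity))
  have h4 : Tendsto (fun k : ℕ => (k, X.f^[n0 + φ (σ k)] z)) atTop (atTop ×ˢ 𝓝 x) :=
    tendsto_id.prodMk (hlim.comp hσ.tendsto_atTop)
  have h5 := h3.comp h4
  have h6 : Tendsto (fun k : ℕ => X.f^[n0 + φ (2 * σ k)] z) atTop (𝓝 x) := by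
    have h7 : Tendsto (fun k : ℕ => 2 * σ k) atTop atTop :=
      tendsto_atTop_mono (fun k => by omega) hσ.tendsto_atTop
    exact hlim.comp h7
  refine tendsto_nhds_unique (h5.congr fun k => ?_) h6
  have h8 := hge (σ k)
  have h9 : (φ (2 * σ k) - φ (σ k)) + (n0 + φ (σ k)) = n0 + φ (2 * σ k) := by omega
  simp only [Function.comp_apply]
  rw [← Function.iterate_add_apply, h9]

theorem lim_not (X : PsA) {b : ℕ → ℕ} {h : ℂ → ℂ} {x : ℂ} {ρ : ℝ} (hE : ball x ρ ⊆ EE X)
    (hl : Lim X.f b h x ρ) (hx : h x = x) : ¬ ‖deriv h x‖ < 1 := by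
  intro hlt
  obtain ⟨κ, hκ1, hκ2⟩ := exists_between hlt
  obtain ⟨κ1, hκ3, hκ4⟩ := exists_between hκ1
  have hκ0 : 0 < κ := lt_of_le_of_lt (norm_nonneg _) hκ1
  have hρ := hl.pos
  have han : AnalyticOnNhd ℂ h (ball x ρ) := hl.diff.analyticOnNhd isOpen_ball
  have hlu : TendstoLocallyUniformlyOn (fun k => X.f^[b k]) h atTop (ball x ρ) :=
    lim_lu (fun z hz => (han z hz).continuousAt) hl.conv
  have hlud := hlu.deriv (Eventually.of_forall fun k => (ee_diff X (b k)).mono hE) isOpen_ball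
  have hdc : ContinuousAt (fun z => ‖deriv h z‖) x :=
    ((han x (mem_ball_self hρ)).deriv.continuousAt).norm
  have h1 : ∀ᶠ z in 𝓝 x, ‖deriv h z‖ < κ1 := hdc.eventually (gt_mem_nhds hκ3)
  obtain ⟨r, hr, hr1⟩ := Metric.eventually_nhds_iff_ball.1 h1
  set s : ℝ := min r ρ / 2 with hs
  have hs0 : 0 < s := by
    have : 0 < min r ρ := lt_min hr hρ
    positivity
  have hsr : s < r := by
    have : min r ρ ≤ r := min_le_left _ _
    have h0 : 0 < min r ρ := lt_min hr hρ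
    linarith
  have hsρ : s < ρ := by
    have : min r ρ ≤ ρ := min_le_right _ _
    have h0 : 0 < min r ρ := lt_min hr hρ
    linarith
  have hcl : closedBall x s ⊆ ball x ρ := closedBall_subset_ball hsρ
  have hun := ((tendstoLocallyUniformlyOn_iff_forall_isCompact isOpen_ball).1 hlud) (closedBall x s)
    hcl (isCompact_closedBall x s)
  rw [Metric.tendstoUniformlyOn_iff] at hun
  have h2 := hun (κ - κ1) (by linarith)
  have h3 : Tendsto (fun k : ℕ => X.f^[b k] x) atTop (𝓝 x) := by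
    have h4 := hl.conv x (mem_ball_self hρ)
    rw [hx] at h4
    exact h4.comp (tendsto_id.prodMk tendsto_const_nhds)
  have h4 : ∀ᶠ k in atTop, dist (X.f^[b k] x) x < (1 - κ) * s / 2 := by
    refine h3.eventually (ball_mem_nhds x ?_)
    have : 0 < 1 - κ := by linarith
    positivity
  have h5 : ∀ᶠ k in atTop, 1 ≤ b k := hl.inf.eventually_ge_atTop 1
  obtain ⟨k, hk2, hk4, hk5⟩ := (h2.and (h4.and h5)).exists
  set F : ℂ → ℂ := X.f^[b k] with hF
  have hFd : DifferentiableOn ℂ F (ball x ρ) := (ee_diff X (b k)).mono hE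
  have hder : ∀ w ∈ closedBall x s, ‖deriv F w‖ ≤ κ := by
    intro w hw
    have h6 := hk2 w hw
    rw [dist_eq_norm] at h6
    simp only [Function.comp_apply] at h6
    have h7 : ‖deriv h w‖ < κ1 := hr1 w (closedBall_subset_ball hsr hw)
    have h8 : ‖deriv F w‖ ≤ ‖deriv h w‖ + ‖deriv h w - deriv F w‖ := by
      have h9 : deriv F w = deriv h w - (deriv h w - deriv F w) := by ring
      calc ‖deriv F w‖ = ‖deriv h w - (deriv h w - deriv F w)‖ := by rw [← h9]
        _ ≤ _ := norm_sub_le _ _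
    have h10 : ‖deriv h w - deriv F w‖ < κ - κ1 := h6
    linarith
  have hcontr : ∀ w ∈ closedBall x s, ∀ w' ∈ closedBall x s, ‖F w - F w'‖ ≤ κ * ‖w - w'‖ := by
    intro w hw w' hw'
    refine Convex.norm_image_sub_le_of_norm_deriv_le (𝕜 := ℂ) (s := closedBall x s) ?_
      hder (convex_closedBall x s) hw' hw
    intro y hy
    exact hFd.differentiableAt (isOpen_ball.mem_nhds (hcl hy))
  have hxs : x ∈ closedBall x s := mem_closedBall_self hs0.le
  have hmaps : MapsTo F (closedBall x s) (closedBall x s) := by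
    intro w hw
    rw [mem_closedBall, dist_eq_norm] at hw ⊢
    have h6 := hcontr w (by rw [mem_closedBall, dist_eq_norm]; exact hw) x hxs
    rw [dist_eq_norm] at hk4
    calc ‖F w - x‖ = ‖(F w - F x) + (F x - x)‖ := by congr 1; ring
      _ ≤ ‖F w - F x‖ + ‖F x - x‖ := norm_add_le _ _
      _ ≤ κ * ‖w - x‖ + (1 - κ) * s / 2 := add_le_add h6 hk4.le
      _ ≤ κ * s + (1 - κ) * s := by
          have h7 : κ * ‖w - x‖ ≤ κ * s := mul_le_mul_of_nonneg_left hw hκ0.le
          have h8 : 0 ≤ (1 - κ) * s := mul_nonneg (by linarith) hs0.le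
          linarith
      _ = s := by ring
  have hCW : ContractingWith ⟨κ, hκ0.le⟩ (hmaps.restrict F (closedBall x s) (closedBall x s)) := by
    refine ⟨by
      have : (⟨κ, hκ0.le⟩ : NNReal) < ⟨1, zero_le_one⟩ := hκ2
      exact this, ?_⟩
    refine LipschitzWith.of_dist_le_mul ?_
    rintro ⟨w, hw⟩ ⟨w', hw'⟩
    have := hcontr w hw w' hw'
    rw [Subtype.dist_eq, Subtype.dist_eq, dist_eq_norm, dist_eq_norm]
    exact this
  obtain ⟨y, hys, hyf, -, -⟩ := hCW.exists_fixedPoint' (isClosed_closedBall.isComplete) hmaps hxs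
    (edist_ne_top _ _)
  have hyf' : F y = y := hyf
  have hyx : ‖y - x‖ ≤ s / 2 := by
    have h6 := hcontr y hys x hxs
    rw [dist_eq_norm] at hk4
    have h7 : ‖y - x‖ ≤ κ * ‖y - x‖ + (1 - κ) * s / 2 := by
      calc ‖y - x‖ = ‖(F y - F x) + (F x - x)‖ := by rw [hyf']; congr 1; ring
        _ ≤ ‖F y - F x‖ + ‖F x - x‖ := norm_add_le _ _
        _ ≤ _ := add_le_add h6 hk4.le
    have h8 : (1 - κ) * ‖y - x‖ ≤ (1 - κ) * (s / 2) := by linarith
    exact le_of_mul_le_mul_left h8 (by linarith)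
  have hsub : ∀ w ∈ ball y (s / 2), w ∈ closedBall x s := by
    intro w hw
    rw [mem_ball, dist_eq_norm] at hw
    rw [mem_closedBall, dist_eq_norm]
    calc ‖w - x‖ = ‖(w - y) + (y - x)‖ := by congr 1; ring
      _ ≤ ‖w - y‖ + ‖y - x‖ := norm_add_le _ _
      _ ≤ s := by linarith
  refine X.snk y (s / 2) (b k) (by positivity) hk5 ?_ ?_
  · intro w hw
    exact ((ee_iff X w).1 (hE (hcl (hsub w hw)))).1
  · intro w hw
    have hws := hsub w hw
    have hit : ∀ j : ℕ, F^[j] w ∈ closedBall x s ∧ ‖F^[j] w - y‖ ≤ κ ^ j * ‖w - y‖ := by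
      intro j
      induction j with
      | zero => simpa using hws
      | succ j ih =>
        rw [Function.iterate_succ_apply']
        refine ⟨hmaps ih.1, ?_⟩
        have h6 := hcontr _ ih.1 y hys
        rw [hyf'] at h6
        calc ‖F (F^[j] w) - y‖ ≤ κ * ‖F^[j] w - y‖ := h6
          _ ≤ κ * (κ ^ j * ‖w - y‖) := mul_le_mul_of_nonneg_left ih.2 hκ0.le
          _ = κ ^ (j + 1) * ‖w - y‖ := by ring
    rw [tendsto_iff_norm_sub_tendsto_zero]
    have h7 : Tendsto (fun j : ℕ => κ ^ j * ‖w - y‖) atTop (𝓝 0) := by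
      have := (tendsto_pow_atTop_nhds_zero_of_lt_one hκ0.le hκ2).mul_const ‖w - y‖
      simpa using this
    refine squeeze_zero (fun _ => norm_nonneg _) (fun j => ?_) h7
    rw [Function.iterate_mul]
    exact (hit j).2

end Pool.Agent.H44.DP
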