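import Pool.Agent.H44.DP.FA4

/-!
# Module FA5: the interior of the complement of the attracted set is empty

PROOF. Suppose `EE` is nonempty. `lim_start`: `b, h, x, ρ`; `λ = deriv h x`, `‖λ‖ = 1` (`lim_le`, `lim_not`).
(1) `rot`: for every `i : ℕ` there is `j ≥ 1` with `‖λ ^ j - 1‖ < 1 / (i + 1)` (pigeonhole in the compact unit circle: two powers `λ ^ l`, `λ ^ (l + j)` are close; `‖λ‖ = 1`), and by `lim_der` some `k` with `b k ≥ i`, `‖f^[j * b k] x - x‖ < 1/(i+1)`, `‖deriv (f^[j * b k]) x - 1‖ < 2/(i+1)`. `c i = j * b k ≥ i`: `c → ∞`, `f^[c i] x → x`, `deriv (f^[c i]) x → 1`.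
(2) `lim_ex` (`ρ' = ρ/2`): a subsequence of `c` with limit `g` on `ball x (ρ/2)`; `g x = x`, `deriv g x = 1` (derivatives converge, `lim_der` with `j = 1`). `cartan` with `R` of `ee_bd` on the ball of radius `ρ / 4`: for given `j` let `G` be the limit of a subsequence of `f^[j * c i]` on `ball x (ρ/4)` (`lim_ex` applied to `j * c`; for `j = 0` take `G = id`; `‖id‖ ≤ R` on `EE`), by `lim_comp` `G = g^[j]` near `x`, `‖G‖ ≤ R` (limits of bounded functions). So `g = id` on `ball x (ρ/4)`.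
(3) Let `c` be this sequence: `f^[c i] → id` continuously on `ball x (ρ/4)`. Let `W` be the connected component of `x` in `EE` (`connectedComponentIn`, open and preconnected). `P = {y ∈ W | (i, w) ↦ f^[c i] w tends to z at every z near y}` (i.e. `∀ᶠ z in 𝓝 y, Tendsto (fun w : ℕ × ℂ => f^[c w.1] w.2) (atTop ×ˢ 𝓝 z) (𝓝 z)`) is open and contains `x`. It is closed in `W`: let `y ∈ W` be in the closure of `P`, `ball y (2 r) ⊆ EE`. Every subsequence of `c` has a further subsequence `c'` with a limit `G` on `ball y r` (`lim_ex`),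
`G z = z` on the nonempty open set `P ∩ ball y r` (a point of `P` has a neighbourhood of points of convergence), so `G = id` on `ball y r` (identity theorem). So the whole sequence converges to `id` continuously on `ball y r` (a filter on `ℕ × ℂ`, countably generated: if the tendsto fails at `z` there are `ε > 0`, `i_l → ∞`, `w_l → z` with `‖f^[c (i_l)] w_l - z‖ ≥ ε`; take the subsequence of `c (i_l)`). `W` preconnected: `P = W`.
(4) `K` from `absorb`, `W ⊄ K`: otherwise `closure W ⊆ K ⊆ EE`, `closure W` is connected and contains `x`, so `closure W ⊆ W`: `W` is clopen in `ℂ`, nonempty, so `W = ℂ`; but `EE` is bounded (`ee_bd`). Let `y ∈ W \ K`; `f^[n] y ∈ K` for `n ≥ n0`, `c i → ∞`, `f^[c i] y → y` (from the tendsto at `z = y`), `K` closed: `y ∈ K`. Contradiction.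
-/

set_option autoImplicit false

open Filter Topology Metric Set

namespace Pool.Agent.H44.DP

/-- powers of a number of modulus one return near one -/
private theorem rot5 {lam : ℂ} (h : ‖lam‖ = 1) {ε : ℝ} (hε : 0 < ε) :
    ∃ j : ℕ, 1 ≤ j ∧ ‖lam ^ j - 1‖ < ε := by
  have hs : ∀ n : ℕ, lam ^ n ∈ sphere (0 : ℂ) 1 := by
    intro n
    rw [mem_sphere_zero_iff_norm, norm_pow, h, one_pow]
  obtain ⟨a, _, φ, hφ, ha⟩ := (isCompact_sphere (0 : ℂ) 1).tendsto_subseq hs
  have hc := ha.cauchySeq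
  rw [Metric.cauchySeq_iff'] at hc
  obtain ⟨N, hN⟩ := hc ε hε
  have h1 : dist (lam ^ φ (N + 1)) (lam ^ φ N) < ε := hN (N + 1) (Nat.le_succ N)
  have h2 : φ N < φ (N + 1) := hφ (Nat.lt_succ_self N)
  refine ⟨φ (N + 1) - φ N, by omega, ?_⟩
  rw [dist_eq_norm] at h1
  have h3 : lam ^ φ (N + 1) - lam ^ φ N = lam ^ φ N * (lam ^ (φ (N + 1) - φ N) - 1) := by
    rw [mul_sub, mul_one, ← pow_add, Nat.add_sub_cancel' h2.le]
  have h4 : ‖lam ^ φ (N + 1) - lam ^ φ N‖ = ‖lam ^ (φ (N + 1) - φ N) - 1‖ := by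
    rw [h3, norm_mul, norm_pow, h, one_pow, one_mul]
  rw [← h4]
  exact h1

/-- a sequence of iterates converges to the identity near a point -/
theorem lim_id (X : PsA) (hne : (EE X).Nonempty) : ∃ (c : ℕ → ℕ) (x : ℂ), x ∈ EE X ∧
    Tendsto c atTop atTop ∧ ∀ᶠ z in 𝓝 x,
      Tendsto (fun w : ℕ × ℂ => X.f^[c w.1] w.2) (atTop ×ˢ 𝓝 z) (𝓝 z) := by
  obtain ⟨b, h, x, ρ, hE, hl, hx⟩ := lim_start X hne
  have hρ := hl.pos
  obtain ⟨R, hR0, hR⟩ := ee_bd X
  have hnorm : ‖deriv h x‖ = 1 :=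
    le_antisymm (lim_le X hE hl hx) (not_lt.1 (lim_not X hE hl hx))
  have hstep : ∀ i : ℕ, ∃ n : ℕ, i ≤ n ∧ ‖X.f^[n] x - x‖ < 1 / ((i : ℝ) + 1) ∧
      ‖deriv (X.f^[n]) x - 1‖ < 2 / ((i : ℝ) + 1) := by
    intro i
    have hi : (0 : ℝ) < 1 / ((i : ℝ) + 1) := by positivity
    obtain ⟨j, hj1, hj⟩ := rot5 hnorm hi
    obtain ⟨h1, h2⟩ := lim_der X hE hl hx j
    have e1 := (Metric.tendsto_nhds.1 h1) _ hi
    have e2 := (Metric.tendsto_nhds.1 h2) _ hi
    have e3 := hl.inf.eventually_ge_atTop i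
    obtain ⟨k, ⟨k1, k2⟩, k3⟩ := ((e1.and e2).and e3).exists
    refine ⟨j * b k, ?_, ?_, ?_⟩
    · calc i ≤ b k := k3
        _ = 1 * b k := (one_mul _).symm
        _ ≤ j * b k := Nat.mul_le_mul_right _ hj1
    · rw [← dist_eq_norm]
      exact k1
    · have e4 : deriv (X.f^[j * b k]) x - 1 =
          (deriv (X.f^[j * b k]) x - deriv h x ^ j) + (deriv h x ^ j - 1) := by ring
      rw [e4]
      refine (norm_add_le _ _).trans_lt ?_
      rw [dist_eq_norm] at k2
      have e5 : (2 : ℝ) / ((i : ℝ) + 1) = 1 / ((i : ℝ) + 1) + 1 / ((i : ℝ) + 1) := by ring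
      rw [e5]
      exact add_lt_add k2 hj
  choose c hc1 hc2 hc3 using hstep
  have hcinf : Tendsto c atTop atTop := tendsto_atTop_mono hc1 tendsto_id
  have hz : Tendsto (fun i : ℕ => 1 / ((i : ℝ) + 1)) atTop (𝓝 0) :=
    tendsto_one_div_add_atTop_nhds_zero_nat
  have hcx : Tendsto (fun i : ℕ => X.f^[c i] x) atTop (𝓝 x) := by
    rw [tendsto_iff_norm_sub_tendsto_zero]
    exact squeeze_zero (fun i => norm_nonneg _) (fun i => (hc2 i).le) hz
  have hcd : Tendsto (fun i : ℕ => deriv (X.f^[c i]) x) atTop (𝓝 1) := by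
    rw [tendsto_iff_norm_sub_tendsto_zero]
    have hz2 : Tendsto (fun i : ℕ => 2 / ((i : ℝ) + 1)) atTop (𝓝 0) := by
      have h1 := hz.const_mul 2
      rw [mul_zero] at h1
      refine h1.congr fun i => ?_
      ring
    exact squeeze_zero (fun i => norm_nonneg _) (fun i => (hc3 i).le) hz2
  obtain ⟨σ, g, hσ, hlg⟩ := lim_ex X hcinf (ρ' := ρ / 2) (ρ := ρ) (by positivity) (by linarith) hE
  have hE2 : ball x (ρ / 2) ⊆ EE X := (ball_subset_ball (by linarith)).trans hE
  have hcz : ∀ z : ℂ, Tendsto (fun i : ℕ => (i, z)) atTop (atTop ×ˢ 𝓝 z) := fun z =>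
    tendsto_id.prodMk tendsto_const_nhds
  have hgx : g x = x := by
    have h1 := (hlg.conv x (mem_ball_self (by positivity))).comp (hcz x)
    exact tendsto_nhds_unique h1 (hcx.comp hσ.tendsto_atTop)
  have hgd : deriv g x = 1 := by
    have h1 := (lim_der X hE2 hlg hgx 1).2
    have h2 : Tendsto (fun k => deriv (X.f^[1 * (c ∘ σ) k]) x) atTop (𝓝 1) := by
      simp only [one_mul]
      exact hcd.comp hσ.tendsto_atTop
    have h3 := tendsto_nhds_unique h1 h2
    rwa [pow_one] at h3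
  have hE4 : ball x (ρ / 4) ⊆ ball x (ρ / 2) := ball_subset_ball (by linarith)
  have hid : ∀ z ∈ ball x (ρ / 4), g z = z := by
    refine cartan (R := R) (by positivity) (hlg.diff.mono hE4) hgx hgd ?_
    intro j
    rcases Nat.eq_zero_or_pos j with hj | hj
    · subst hj
      refine ⟨id, differentiableOn_id, fun z hz => ?_, Eventually.of_forall fun z => rfl⟩
      exact hR z ((ee_iff X z).1 (hE2 (hE4 hz))).1
    · have hb' : Tendsto (fun i => j * (c ∘ σ) i) atTop atTop := by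
        refine tendsto_atTop_mono (fun i => ?_) hlg.inf
        exact Nat.le_mul_of_pos_left _ hj
      obtain ⟨τ, G, hτ, hlG⟩ := lim_ex X hb' (ρ' := ρ / 4) (ρ := ρ / 2) (by positivity)
        (by linarith) hE2
      have hGz : ∀ z ∈ ball x (ρ / 4), Tendsto
          (fun i : ℕ => X.f^[((fun i => j * (c ∘ σ) i) ∘ τ) i] z) atTop (𝓝 (G z)) := fun z hz =>
        (hlG.conv z hz).comp (hcz z)
      refine ⟨G, hlG.diff, fun z hz => ?_, ?_⟩
      · refine le_of_tendsto (hGz z hz).norm (Eventually.of_forall fun i => ?_)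
        exact hR _ ((ee_iff X _).1 (ee_it X (hE2 (hE4 hz)) _)).1
      · filter_upwards [lim_comp X hE2 hlg hgx j,
          isOpen_ball.mem_nhds (mem_ball_self (by positivity : 0 < ρ / 4))] with z h1 h2
        have h3 : Tendsto (fun i : ℕ => X.f^[j * (c ∘ σ) i] z) atTop (𝓝 (g^[j] z)) :=
          h1.comp (hcz z)
        exact tendsto_nhds_unique (hGz z h2) (h3.comp hτ.tendsto_atTop)
  refine ⟨c ∘ σ, x, hE (mem_ball_self hρ), hlg.inf, ?_⟩
  filter_upwards [isOpen_ball.mem_nhds (mem_ball_self (by positivity : 0 < ρ / 4))] with z hz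
  have h1 := hlg.conv z (hE4 hz)
  rwa [hid z hz] at h1

/-- the convergence holds on the whole component -/
theorem lim_cc (X : PsA) {c : ℕ → ℕ} {x : ℂ} (hx : x ∈ EE X) (hc : Tendsto c atTop atTop)
    (h : ∀ᶠ z in 𝓝 x, Tendsto (fun w : ℕ × ℂ => X.f^[c w.1] w.2) (atTop ×ˢ 𝓝 z) (𝓝 z)) :
    ∀ z ∈ connectedComponentIn (EE X) x, Tendsto (fun i : ℕ => X.f^[c i] z) atTop (𝓝 z) := by
  have hcz : ∀ z : ℂ, Tendsto (fun i : ℕ => (i, z)) atTop (atTop ×ˢ 𝓝 z) := fun z =>
    tendsto_id.prodMk tendsto_const_nhds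
  obtain ⟨U, hU⟩ : ∃ U : Set ℂ, U = {y : ℂ | ∀ᶠ z in 𝓝 y,
      Tendsto (fun w : ℕ × ℂ => X.f^[c w.1] w.2) (atTop ×ˢ 𝓝 z) (𝓝 z)} := ⟨_, rfl⟩
  have hUo : IsOpen U := by
    rw [hU]
    exact isOpen_setOfPred_eventually_nhds
  have hsub : connectedComponentIn (EE X) x ⊆ U := by
    refine isPreconnected_connectedComponentIn.subset_of_closure_inter_subset hUo
      ⟨x, mem_connectedComponentIn hx, by rw [hU]; exact h⟩ ?_
    rintro y ⟨hyU, hyW⟩
    have hyE : y ∈ EE X := connectedComponentIn_subset _ _ hyW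
    obtain ⟨s, hs, hsE⟩ := Metric.isOpen_iff.1 (ee_open X) y hyE
    obtain ⟨r, hr⟩ : ∃ r : ℝ, r = s / 2 := ⟨_, rfl⟩
    have hr0 : 0 < r := by rw [hr]; positivity
    have hrE : ball y (2 * r) ⊆ EE X := by
      rw [hr]
      have : 2 * (s / 2) = s := by ring
      rw [this]
      exact hsE
    obtain ⟨u0, hu0, hu1⟩ := Metric.mem_closure_iff.1 hyU r hr0
    have hu2 : u0 ∈ ball y r := by
      rw [mem_ball, dist_comm]
      exact hu1
    rw [hU]
    show ∀ᶠ z in 𝓝 y, Tendsto (fun w : ℕ × ℂ => X.f^[c w.1] w.2) (atTop ×ˢ 𝓝 z) (𝓝 z)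
    filter_upwards [isOpen_ball.mem_nhds (mem_ball_self hr0)] with z hz
    refine tendsto_of_subseq_tendsto fun ns hns => ?_
    have hn1 : Tendsto (fun n => (ns n).1) atTop atTop := tendsto_fst.comp hns
    have hn2 : Tendsto (fun n => (ns n).2) atTop (𝓝 z) := tendsto_snd.comp hns
    obtain ⟨σ, G, hσ, hl⟩ := lim_ex X (b := fun n => c (ns n).1) (hc.comp hn1) (ρ' := r)
      (ρ := 2 * r) hr0 (by linarith) hrE
    have hG : EqOn G id (ball y r) := by
      refine AnalyticOnNhd.eqOn_of_preconnected_of_eventuallyEq (𝕜 := ℂ)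
        (hl.diff.analyticOnNhd isOpen_ball) (differentiableOn_id.analyticOnNhd isOpen_ball)
        (convex_ball y r).isPreconnected hu2 ?_
      have h1 : ∀ᶠ z in 𝓝 u0, Tendsto (fun w : ℕ × ℂ => X.f^[c w.1] w.2) (atTop ×ˢ 𝓝 z) (𝓝 z) := by
        rw [hU] at hu0
        exact hu0
      filter_upwards [h1, isOpen_ball.mem_nhds hu2] with z' h2 h3
      have h4 : Tendsto (fun i : ℕ => X.f^[((fun n => c (ns n).1) ∘ σ) i] z') atTop (𝓝 (G z')) :=
        (hl.conv z' h3).comp (hcz z')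
      have h5 : Tendsto (fun i : ℕ => X.f^[c i] z') atTop (𝓝 z') := h2.comp (hcz z')
      exact tendsto_nhds_unique h4 (h5.comp (hn1.comp hσ.tendsto_atTop))
    refine ⟨σ, ?_⟩
    have h6 := hl.conv z hz
    have h7 : G z = z := hG hz
    rw [h7] at h6
    exact h6.comp (tendsto_id.prodMk (hn2.comp hσ.tendsto_atTop))
  intro z hz
  have h1 := hsub hz
  rw [hU] at h1
  exact (Eventually.self_of_nhds h1).comp (hcz z)

theorem ee_empty (X : PsA) : EE X = ∅ := by
  by_contra hcon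
  have hne : (EE X).Nonempty := nonempty_iff_ne_empty.2 hcon
  obtain ⟨c, x, hx, hc, h⟩ := lim_id X hne
  obtain ⟨K, hK, hKE, hKa⟩ := absorb X
  have hcc := lim_cc X hx hc h
  have hWE : connectedComponentIn (EE X) x ⊆ EE X := connectedComponentIn_subset _ _
  have hWK : connectedComponentIn (EE X) x ⊆ K := by
    intro y hy
    obtain ⟨n0, hn0⟩ := hKa y (hWE hy)
    refine hK.isClosed.mem_of_tendsto (hcc y hy) ?_
    filter_upwards [hc.eventually_ge_atTop n0] with i hi
    exact hn0 _ hi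
  have hcl : closure (connectedComponentIn (EE X) x) ⊆ connectedComponentIn (EE X) x := by
    refine IsPreconnected.subset_connectedComponentIn isPreconnected_connectedComponentIn.closure
      (subset_closure (mem_connectedComponentIn hx)) ?_
    exact (closure_minimal hWK hK.isClosed).trans hKE
  have hclopen : IsClopen (connectedComponentIn (EE X) x) :=
    ⟨isClosed_of_closure_subset hcl, (ee_open X).connectedComponentIn⟩
  have huniv := hclopen.eq_univ ⟨x, mem_connectedComponentIn hx⟩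
  rw [huniv, univ_subset_iff] at hWK
  rw [hWK] at hK
  exact noncompact_univ ℂ hK

/-- the set `J` is the complement of the attracted set -/
theorem J_compl (X : PsA) (z : ℂ) : z ∈ X.J ↔ z ∉ X.A := by
  constructor
  · exact fun hz => J_not X hz
  · intro hz
    by_contra hzJ
    have h1 : z ∈ EE X := (ee_iff X z).2 ⟨hz, hzJ⟩
    rw [ee_empty X] at h1
    exact h1

end Pool.Agent.H44.DP
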