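import Pool.Agent.H79.PQ.Dln

/-!
# Module FIN: the final assembly
-/

set_option autoImplicit false

open Filter Topology Polynomial Metric Set MeasureTheory

namespace Pool.Agent.H44.DP

open Pool.Agent.H44.Fatou Pool.Agent.H32.BT Pool.Agent.H79.Eul Pool.Agent.H79.Par
open Pool.Agent.H35.RL Pool.Agent.H35.EX Pool.Agent.H91.CE Pool.Agent.H79.PJ

theorem fin_main {d : ℕ} (hd : 2 ≤ d) {v0 : E d}
    (hcop : IsCoprime (pol v0.1) (pol v0.2))
    (hdeg : max (pol v0.1).natDegree (pol v0.2).natDegree = d)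
    (h : ∀ c, IsCrit (Rf v0) c → (∃ z n, Ty12 (Rf v0) c z n ∨ Ty4 (Rf v0) c z n) ∨
      ∃ m : ℕ, CEAt (Rf v0) ((Rf v0)^[m] c))
    (hex : ∃ z n, NRCycle (Rf v0) z n) :
    Tendsto (fun r : ℝ => Pool.Agent.H44.LD.prop v0 HypDeg r) (𝓝[>] 0) (𝓝 0) :=
  p_full hd hcop hdeg h hex

end Pool.Agent.H44.DP
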