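import Pool.Agent.H44.DP.FA1

/-!
# Module FO1: holomorphic discs in the complement of the attracted set, centred near `J`, are small

PROOF. Otherwise there are `g_k` with `infDist (g_k 0) J → 0` (take `δ3 = 1/(k+1)`) and `w_k ∈ ball 0 (1/2)` with `η < ‖g_k w_k - g_k 0‖`. `ee_bd`, `montel1` (`ρ = 1`, `ρ' = 3/4`): along a subsequence `g_k → g` continuously on `ball 0 (3/4)`, and `w_k → w ∈ closedBall 0 (1/2)` (compactness, a further subsequence), so `‖g w - g 0‖ ≥ η`: `g` is not constant.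
`g 0 ∈ J` (`J` compact, so closed; `infDist` continuous; `J` is nonempty since `Ce` is and `hSJ`). `g` is holomorphic and not constant on the preconnected `ball 0 (3/4)`, so `g` maps neighbourhoods of `0` to neighbourhoods of `g 0` (`AnalyticOnNhd.is_constant_or_isOpen`); `J_acc` gives `w' ∈ ball 0 (3/4)` with `g w' ∈ A`; `A` is open, so `g_k w' ∈ A` for large `k`. Contradiction.
-/

set_option autoImplicit false

open Filter Topology Metric Set

namespace Pool.Agent.H44.DP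

theorem om1 (X : PsA) {η : ℝ} (hη : 0 < η) : ∃ δ3 : ℝ, 0 < δ3 ∧ ∀ g : ℂ → ℂ,
    DifferentiableOn ℂ g (ball 0 1) → (∀ w ∈ ball (0 : ℂ) 1, g w ∉ X.A) →
      g 0 ∈ thickening δ3 X.J → ∀ w ∈ ball (0 : ℂ) (1 / 2), ‖g w - g 0‖ ≤ η := by
  by_contra hcon
  push Not at hcon
  obtain ⟨R, hR, hbd⟩ := ee_bd X
  have hk : ∀ k : ℕ, (0 : ℝ) < 1 / ((k : ℝ) + 1) := fun k => by positivity
  choose g hgd hgA hg0 w hw hgw using fun k : ℕ => hcon (1 / ((k : ℝ) + 1)) (hk k)
  obtain ⟨σ, G, hσ, hGd, hGt⟩ := DN.montel1 (x := 0) (ρ := 1) (ρ' := 3 / 4) (B := R) (by norm_num) (by norm_num)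
    hgd (fun k z hz => hbd _ (hgA k z hz))
  have hcpt : IsCompact (closedBall (0 : ℂ) (1 / 2)) := isCompact_closedBall 0 (1 / 2)
  obtain ⟨a, ha, φ, hφ, hφt⟩ := hcpt.tendsto_subseq (x := fun k => w (σ k))
    (fun k => ball_subset_closedBall (hw (σ k)))
  have ha' : a ∈ ball (0 : ℂ) (3 / 4) := closedBall_subset_ball (by norm_num) ha
  have h0 : (0 : ℂ) ∈ ball (0 : ℂ) (3 / 4) := mem_ball_self (by norm_num)
  have t1 : Tendsto (fun k => g (σ (φ k)) (w (σ (φ k)))) atTop (𝓝 (G a)) :=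
    (hGt a ha').comp (hφ.tendsto_atTop.prodMk hφt)
  have t2 : Tendsto (fun k => g (σ k) 0) atTop (𝓝 (G 0)) :=
    (hGt 0 h0).comp (tendsto_id.prodMk tendsto_const_nhds)
  have t3 : Tendsto (fun k => g (σ (φ k)) 0) atTop (𝓝 (G 0)) := t2.comp hφ.tendsto_atTop
  have h1 : η ≤ ‖G a - G 0‖ :=
    ge_of_tendsto' (t1.sub t3).norm (fun k => (hgw (σ (φ k))).le)
  have hJne : X.J.Nonempty := by
    obtain ⟨c, hc⟩ := X.hne
    exact ⟨c, X.hSJ c ((X.hS c).2 (Or.inl ((X.hCr c).2 (Or.inl hc))))⟩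
  have hGJ : G 0 ∈ X.J := by
    rw [X.hJ.isClosed.mem_iff_infDist_zero hJne]
    refine le_antisymm ?_ infDist_nonneg
    have t4 : Tendsto (fun k => infDist (g (σ k) 0) X.J) atTop (𝓝 (infDist (G 0) X.J)) :=
      ((continuous_infDist_pt X.J).tendsto (G 0)).comp t2
    have t5 : Tendsto (fun k : ℕ => 1 / (((σ k : ℕ) : ℝ) + 1)) atTop (𝓝 0) :=
      tendsto_one_div_add_atTop_nhds_zero_nat.comp hσ.tendsto_atTop
    exact le_of_tendsto_of_tendsto' t4 t5 fun k =>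
      (((mem_thickening_iff_infDist_lt hJne).1 (hg0 (σ k)))).le
  have hpre : IsPreconnected (ball (0 : ℂ) (3 / 4)) := (convex_ball 0 (3 / 4)).isPreconnected
  rcases (hGd.analyticOnNhd isOpen_ball).is_constant_or_isOpen hpre with ⟨v, hv⟩ | hop
  · rw [hv a ha', hv 0 h0, sub_self, norm_zero] at h1
    linarith
  · have h2 : G '' ball (0 : ℂ) (3 / 4) ∈ 𝓝 (G 0) :=
      (hop _ Subset.rfl isOpen_ball).mem_nhds (mem_image_of_mem G h0)
    obtain ⟨y, ⟨w', hw', rfl⟩, hyA⟩ := J_acc X hGJ h2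
    have t6 : Tendsto (fun k => g (σ k) w') atTop (𝓝 (G w')) :=
      (hGt w' hw').comp (tendsto_id.prodMk tendsto_const_nhds)
    obtain ⟨k, hkA⟩ := (t6.eventually (X.hAo.mem_nhds hyA)).exists
    exact hgA (σ k) w' (ball_subset_ball (by norm_num) hw') hkA

end Pool.Agent.H44.DP
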