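import Pool.Agent.H44.DP.FO1

/-!
# Module FO2: discs near a parabolic point are small relatively to the distance

PROOF. (1) `thin`: let `F` be holomorphic on `ball 0 ρ` (`ρ = 1/2`), without zeros, and suppose that `Q w = α F(w)^q` satisfies `(1 - ε) ‖Q w‖ < re (Q w)` for all `w`, `0 < ε < 1`, `α ≠ 0`, `q ≥ 1`. Let `H` be a primitive of `deriv F / F` on the disc with `H 0 = 0` (`DifferentiableOn.isExactOn_ball`, compare H44/DN/SPK), so `F w = F 0 * exp (H w)` and `Q w = Q 0 * exp (q H w)`.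
The real part of `Q` is positive, so `arg (Q w) ∈ (-π/2, π/2)` and `cos (arg (Q w)) > 1 - ε`, i.e. `|arg (Q w)| < θ`, `θ = arccos (1 - ε)`. `q im (H w) - (arg (Q w) - arg (Q 0))` is a continuous function on the disc with values in `2 π ℤ` (`Q w / Q 0 = exp (q H w)`), zero at `w = 0`, so it is `0`: `|im (q H w)| < 2 θ`. Borel-Caratheodory (Mathlib, `Analysis/Complex/BorelCaratheodory`, used in SPK) for `-i q H` (real part `im (q H) < 2 θ`, value `0` at `0`) on `ball 0 (1/2)`: `‖q H w‖ ≤ 2 * 2 θ * ‖w‖ / (1/2 - ‖w‖) ≤ 4 θ` for `‖w‖ < 1/4` (apply it on slightly smaller discs if necessary),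
so `‖F w / F 0 - 1‖ = ‖exp (H w) - 1‖ ≤ 2 ‖H w‖ ≤ 8 θ` if `4 θ ≤ 1`. As `θ → 0` for `ε → 0`: for every `η > 0` there is `ε ∈ (0, 1)` such that `‖F w - F 0‖ ≤ η ‖F 0‖` for `w ∈ ball 0 (1/4)`; `ε` depends on `η` only.
(2) `om2`: `ε` from (1), `r` from `X.con` for each `p` (minimum over `Pa`), `δ3` from `om1` with `η = r / 2`; `r3 ≤ r / 2`, `r3 ≤ δ3`. `g 0 ∈ ball p r3`, `p ∈ Pa ⊆ J`, so `g 0 ∈ thickening δ3 J`, `g w ∈ ball p r` for `w ∈ ball 0 (1/2)`, `g w ≠ p` (`p ∈ J`, `g w ∈ EE`) and `g w ∉ A`, so by `X.con` (contrapositive) the hypothesis of (1) holds for `F w = g w - p`, `α = ap p`, `q = qp p` (`D.hqp`, `D.hap`) on `ball 0 (1/2)`.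
-/

set_option autoImplicit false

open Filter Topology Metric Set

namespace Pool.Agent.H44.DP

private theorem thin_cos {ε : ℝ} (h0 : 0 < ε) {x y K : ℂ}
    (hxy : y = x * Complex.exp K)
    (hx0 : (1 - ε) * ‖x‖ < x.re) (hy0 : (1 - ε) * ‖y‖ < y.re) (h1 : ε < 1) :
    1 - 4 * ε ≤ Real.cos K.im := by
  have hx : x ≠ 0 := by
    rintro rfl
    simp at hx0
  have hnx : 0 < ‖x‖ := norm_pos_iff.2 hx
  have hny : ‖y‖ = ‖x‖ * Real.exp K.re := by rw [hxy, norm_mul, Complex.norm_exp]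
  have hnyp : 0 < ‖y‖ := by rw [hny]; positivity
  have key : y.re * x.re + y.im * x.im = ‖x‖ ^ 2 * (Real.exp K.re * Real.cos K.im) := by
    have e1 : y.re = x.re * (Real.exp K.re * Real.cos K.im) -
        x.im * (Real.exp K.re * Real.sin K.im) := by
      rw [hxy, Complex.mul_re, Complex.exp_re, Complex.exp_im]
    have e2 : y.im = x.re * (Real.exp K.re * Real.sin K.im) +
        x.im * (Real.exp K.re * Real.cos K.im) := by
      rw [hxy, Complex.mul_im, Complex.exp_re, Complex.exp_im]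
    have e3 : ‖x‖ ^ 2 = x.re * x.re + x.im * x.im := by
      rw [← Complex.normSq_eq_norm_sq, Complex.normSq_apply]
    rw [e1, e2, e3]
    ring
  have sq : ∀ u : ℂ, (1 - ε) * ‖u‖ < u.re → |u.im| ^ 2 ≤ 2 * ε * ‖u‖ ^ 2 := by
    intro u hu
    have e3 : ‖u‖ ^ 2 = u.re * u.re + u.im * u.im := by
      rw [← Complex.normSq_eq_norm_sq, Complex.normSq_apply]
    have h2 : 0 ≤ (1 - ε) * ‖u‖ := mul_nonneg (by linarith) (norm_nonneg _)
    have h3 : ((1 - ε) * ‖u‖) ^ 2 ≤ u.re ^ 2 := pow_le_pow_left₀ h2 hu.le 2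
    rw [sq_abs]
    have h4 : 0 ≤ ε ^ 2 * ‖u‖ ^ 2 := by positivity
    nlinarith
  have sx := sq x hx0
  have sy := sq y hy0
  have hprod : |y.im * x.im| ≤ 2 * ε * (‖y‖ * ‖x‖) := by
    rw [abs_mul]
    apply abs_le_of_sq_le_sq' _ (by positivity) |>.2
    calc (|y.im| * |x.im|) ^ 2 = |y.im| ^ 2 * |x.im| ^ 2 := by ring
      _ ≤ (2 * ε * ‖y‖ ^ 2) * (2 * ε * ‖x‖ ^ 2) := by gcongr
      _ = (2 * ε * (‖y‖ * ‖x‖)) ^ 2 := by ring
  have hre : (1 - ε) ^ 2 * (‖y‖ * ‖x‖) ≤ y.re * x.re := by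
    have h2 : 0 ≤ (1 - ε) * ‖x‖ := mul_nonneg (by linarith) (norm_nonneg _)
    have h3 : 0 ≤ (1 - ε) * ‖y‖ := mul_nonneg (by linarith) (norm_nonneg _)
    calc (1 - ε) ^ 2 * (‖y‖ * ‖x‖) = ((1 - ε) * ‖y‖) * ((1 - ε) * ‖x‖) := by ring
      _ ≤ y.re * x.re := mul_le_mul hy0.le hx0.le h2 (h3.trans hy0.le)
  have hpos : 0 < ‖y‖ * ‖x‖ := mul_pos hnyp hnx
  have hk2 : y.re * x.re + y.im * x.im = (‖y‖ * ‖x‖) * Real.cos K.im := by
    rw [key, hny]
    ring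
  have h5 : (‖y‖ * ‖x‖) * (1 - 4 * ε) ≤ (‖y‖ * ‖x‖) * Real.cos K.im := by
    rw [← hk2]
    have h6 := (abs_le.1 hprod).1
    have h7 : 0 ≤ ε ^ 2 * (‖y‖ * ‖x‖) := by positivity
    nlinarith
  exact le_of_mul_le_mul_left h5 hpos

private theorem cos_small {s : ℝ} (hs : 0 < s) (hs1 : s ≤ 1) {ε : ℝ} (h0 : ε = s ^ 2 / 64)
    (hc : 1 - 4 * ε ≤ Real.cos s) : False := by
  have h1 : |s| ≤ 1 := by rwa [abs_of_pos hs]
  have h2 := (abs_le.1 (Real.cos_bound h1)).2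
  rw [abs_of_pos hs] at h2
  have h3 : s ^ 4 ≤ s ^ 2 := pow_le_pow_of_le_one hs.le hs1 (by norm_num)
  have h4 : 0 < s ^ 2 := by positivity
  nlinarith

private theorem exists_log {F : ℂ → ℂ} {r : ℝ} (hr : 0 < r) (hF : DifferentiableOn ℂ F (ball 0 r))
    (h : ∀ w ∈ ball (0 : ℂ) r, F w ≠ 0) :
    ∃ H : ℂ → ℂ, DifferentiableOn ℂ H (ball 0 r) ∧ H 0 = 0 ∧
      ∀ w ∈ ball (0 : ℂ) r, F w = F 0 * Complex.exp (H w) := by
  have hz : (0 : ℂ) ∈ ball (0 : ℂ) r := mem_ball_self hr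
  have hG : DifferentiableOn ℂ (fun w => deriv F w / F w) (ball 0 r) :=
    (hF.deriv isOpen_ball).div hF fun w hw => h w hw
  obtain ⟨H, hHz, hH⟩ := hG.isExactOn_ball.with_val_at (0 : ℂ) 0
  refine ⟨H, fun w hw => (hH w hw).differentiableAt.differentiableWithinAt, hHz, ?_⟩
  have hd : ∀ w ∈ ball (0 : ℂ) r, HasDerivAt (fun w => F w * Complex.exp (-H w)) 0 w := by
    intro w hw
    have h1 : HasDerivAt F (deriv F w) w :=
      (hF.differentiableAt (isOpen_ball.mem_nhds hw)).hasDerivAt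
    have h2 := h1.mul (hH w hw).neg.cexp
    have h3 := h w hw
    have h4 : deriv F w * Complex.exp (-H w) + F w *
        (Complex.exp (-H w) * -(deriv F w / F w)) = 0 := by
      field_simp
      ring
    have h5 := h2
    rw [show (0 : ℂ) = deriv F w * Complex.exp (-H w) + F w *
        (Complex.exp (-H w) * -(deriv F w / F w)) from h4.symm]
    exact h5
  intro w hw
  have h4 := isOpen_ball.is_const_of_deriv_eq_zero (convex_ball (0 : ℂ) r).isPreconnected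
    (fun w hw => (hd w hw).differentiableAt.differentiableWithinAt)
    (fun w hw => (hd w hw).deriv) hw hz
  have h5 : F 0 * Complex.exp (-H 0) = F 0 := by
    rw [hHz, neg_zero, Complex.exp_zero, mul_one]
  have h6 : F w * Complex.exp (-H w) = F 0 := by
    rw [← h5]
    exact h4
  rw [Complex.exp_neg] at h6
  have h7 := Complex.exp_ne_zero (H w)
  field_simp at h6
  rw [h6, mul_comm]

theorem thin {η : ℝ} (hη : 0 < η) : ∃ ε : ℝ, 0 < ε ∧ ε < 1 ∧ ∀ (F : ℂ → ℂ) (α : ℂ) (q : ℕ), 1 ≤ q →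
    α ≠ 0 → DifferentiableOn ℂ F (ball 0 (1 / 2)) →
    (∀ w ∈ ball (0 : ℂ) (1 / 2), F w ≠ 0 ∧ (1 - ε) * ‖α * F w ^ q‖ < (α * F w ^ q).re) →
      ∀ w ∈ ball (0 : ℂ) (1 / 4), ‖F w - F 0‖ ≤ η * ‖F 0‖ := by
  obtain ⟨s, hs⟩ : ∃ s : ℝ, s = min (1 / 2) (η / 4) := ⟨_, rfl⟩
  have hs0 : 0 < s := by rw [hs]; exact lt_min (by norm_num) (by linarith)
  have hs1 : s ≤ 1 / 2 := by rw [hs]; exact min_le_left _ _
  have hs2 : s ≤ η / 4 := by rw [hs]; exact min_le_right _ _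
  obtain ⟨ε, hε⟩ : ∃ ε : ℝ, ε = s ^ 2 / 64 := ⟨_, rfl⟩
  have hε0 : 0 < ε := by rw [hε]; positivity
  have hε1 : ε < 1 := by
    rw [hε]
    nlinarith
  refine ⟨ε, hε0, hε1, ?_⟩
  intro F α q hq hα hF h
  obtain ⟨H, hHd, hH0, hH⟩ := exists_log (by norm_num : (0 : ℝ) < 1 / 2) hF fun w hw => (h w hw).1
  have hqp : (0 : ℝ) < q := by exact_mod_cast hq
  have h00 : (0 : ℂ) ∈ ball (0 : ℂ) (1 / 2) := mem_ball_self (by norm_num)
  -- the angle
  have hcos : ∀ w ∈ ball (0 : ℂ) (1 / 2), 1 - 4 * ε ≤ Real.cos ((q : ℂ) * H w).im := by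
    intro w hw
    refine thin_cos hε0 (x := α * F 0 ^ q) (y := α * F w ^ q) ?_ (h 0 h00).2 (h w hw).2 hε1
    rw [hH w hw, mul_pow, Complex.exp_nat_mul]
    ring
  have hcont : ContinuousOn (fun w => |((q : ℂ) * H w).im|) (ball (0 : ℂ) (1 / 2)) := by
    have h1 : ContinuousOn (fun w => (q : ℂ) * H w) (ball (0 : ℂ) (1 / 2)) :=
      continuousOn_const.mul hHd.continuousOn
    exact (Complex.continuous_im.comp_continuousOn h1).abs
  have him : ∀ w ∈ ball (0 : ℂ) (1 / 2), |((q : ℂ) * H w).im| < s := by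
    intro w hw
    by_contra hcon
    rw [not_lt] at hcon
    have h1 := (convex_ball (0 : ℂ) (1 / 2)).isPreconnected.intermediate_value h00 hw hcont
    have h2 : s ∈ Icc (|((q : ℂ) * H 0).im|) (|((q : ℂ) * H w).im|) := by
      refine ⟨?_, hcon⟩
      rw [hH0]
      simp [hs0.le]
    obtain ⟨w', hw', h3⟩ := h1 h2
    have h4 := hcos w' hw'
    have h5 : Real.cos ((q : ℂ) * H w').im = Real.cos s := by
      rw [← Real.cos_abs]
      exact congrArg Real.cos h3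
    rw [h5] at h4
    exact cos_small hs0 (by linarith) hε h4
  intro w hw
  have hw2 : w ∈ ball (0 : ℂ) (1 / 2) := ball_subset_ball (by norm_num) hw
  rw [mem_ball_zero_iff] at hw
  have hbc : ‖-Complex.I * ((q : ℂ) * H w)‖ ≤ 2 * s * ‖w‖ / (1 / 2 - ‖w‖) := by
    refine Complex.borelCaratheodory_zero (f := fun u => -Complex.I * ((q : ℂ) * H u)) hs0
      ((hHd.const_mul _).const_mul _) ?_ (by norm_num) hw2 (by simp [hH0])
    intro u hu
    have h1 := (abs_lt.1 (him u hu)).2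
    have h2 : (-Complex.I * ((q : ℂ) * H u)).re = ((q : ℂ) * H u).im := by
      rw [Complex.mul_re]
      simp
    show (-Complex.I * ((q : ℂ) * H u)).re ≤ s
    rw [h2]
    exact h1.le
  have h1 : ‖-Complex.I * ((q : ℂ) * H w)‖ = q * ‖H w‖ := by
    rw [norm_mul, norm_mul, norm_neg, Complex.norm_I, one_mul, Complex.norm_natCast]
  have h2 : 2 * s * ‖w‖ / (1 / 2 - ‖w‖) ≤ 2 * s := by
    rw [div_le_iff₀ (by linarith)]
    nlinarith [norm_nonneg w]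
  have h3 : ‖H w‖ ≤ 2 * s := by
    have h4 : (1 : ℝ) ≤ q := by exact_mod_cast hq
    have h5 : ‖H w‖ ≤ q * ‖H w‖ := le_mul_of_one_le_left (norm_nonneg _) h4
    rw [h1] at hbc
    linarith
  have h4 : ‖Complex.exp (H w) - 1‖ ≤ 2 * ‖H w‖ := Complex.norm_exp_sub_one_le (by linarith)
  have h5 : F w - F 0 = F 0 * (Complex.exp (H w) - 1) := by
    rw [hH w hw2]
    ring
  rw [h5, norm_mul, mul_comm]
  refine mul_le_mul_of_nonneg_right ?_ (norm_nonneg _)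
  linarith

theorem om2 (X : PsA) {η : ℝ} (hη : 0 < η) : ∃ r3 : ℝ, 0 < r3 ∧ ∀ p ∈ X.Pa, ∀ g : ℂ → ℂ,
    DifferentiableOn ℂ g (ball 0 1) → (∀ w ∈ ball (0 : ℂ) 1, g w ∈ EE X) → g 0 ∈ ball p r3 →
      ∀ w ∈ ball (0 : ℂ) (1 / 4), ‖g w - g 0‖ ≤ η * ‖g 0 - p‖ := by
  obtain ⟨ε, hε0, hε1, hth⟩ := thin hη
  have hcon : ∀ p : ℂ, ∃ r : ℝ, 0 < r ∧ (p ∈ X.Pa → ∀ z ∈ ball p r, z ≠ p →
      (X.ap p * (z - p) ^ X.qp p).re ≤ (1 - ε) * ‖X.ap p * (z - p) ^ X.qp p‖ → z ∈ X.A) := by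
    intro p
    by_cases hp : p ∈ X.Pa
    · obtain ⟨r, hr, h⟩ := X.con p hp ε hε0
      exact ⟨r, hr, fun _ => h⟩
    · exact ⟨1, one_pos, fun h => absurd h hp⟩
  choose rp hrp hcn using hcon
  obtain ⟨r, hr0, hr⟩ : ∃ r : ℝ, 0 < r ∧ ∀ p ∈ X.Pa, r ≤ rp p := by
    rcases X.Pa.eq_empty_or_nonempty with he | hne
    · refine ⟨1, one_pos, ?_⟩
      intro p hp
      rw [he] at hp
      simp at hp
    · obtain ⟨p0, hp0, hmin⟩ := X.Pa.exists_min_image rp hne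
      exact ⟨rp p0, hrp p0, hmin⟩
  obtain ⟨δ3, hδ3, hom⟩ := om1 X (half_pos hr0)
  refine ⟨min (r / 2) δ3, lt_min (half_pos hr0) hδ3, ?_⟩
  intro p hp g hg hgE hg0 w hw
  have hpJ : p ∈ X.J := X.hSJ p ((X.hS p).2 (Or.inr hp))
  have hnA : ∀ w ∈ ball (0 : ℂ) 1, g w ∉ X.A := fun w hw => ((ee_iff X _).1 (hgE w hw)).1
  have hth0 : g 0 ∈ thickening δ3 X.J := by
    rw [mem_thickening_iff]
    exact ⟨p, hpJ, lt_of_lt_of_le (mem_ball.1 hg0) (min_le_right _ _)⟩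
  have hsub : ball (0 : ℂ) (1 / 2) ⊆ ball (0 : ℂ) 1 := ball_subset_ball (by norm_num)
  have key := hth (fun w => g w - p) (X.ap p) (X.qp p) (X.hqp p hp) (X.hap p hp)
    ((hg.mono hsub).sub_const p) ?_ w hw
  · have e : g w - p - (g 0 - p) = g w - g 0 := by ring
    rw [e] at key
    exact key
  · intro w hw
    have h1 := hom g hg hnA hth0 w hw
    have hne : g w ≠ p := by
      intro h
      exact ((ee_iff X _).1 (hgE w (hsub hw))).2 (h ▸ hpJ)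
    refine ⟨sub_ne_zero.2 hne, ?_⟩
    by_contra hcon
    rw [not_lt] at hcon
    refine hnA w (hsub hw) (hcn p hp (g w) ?_ hne hcon)
    rw [mem_ball, dist_eq_norm]
    have h2 : ‖g 0 - p‖ < r / 2 := by
      have h3 := lt_of_lt_of_le (mem_ball.1 hg0) (min_le_left _ _)
      rwa [dist_eq_norm] at h3
    have h3 : g w - p = (g w - g 0) + (g 0 - p) := by ring
    have h4 : ‖g w - p‖ ≤ ‖g w - g 0‖ + ‖g 0 - p‖ := by
      rw [h3]
      exact norm_add_le _ _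
    have h5 := hr p hp
    linarith

end Pool.Agent.H44.DP
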