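import Pool.Agent.H44.DP.BRF
import Pool.Agent.H44.DP.STG2

/-!
# Module FWD: branches at the end of a stage

PROOF. Fix `K` large (`stg_na`), `t0, c1, C1` (`stg_ex`). Let `y = f^[n] x`, `ζ = ‖y - c‖ ≤ z2` (`> 0` by `NC`), `t = 2 ‖f^[τ c] y - vv c‖` (`D.p1`: `ζ ^ M c / C ≤ t ≤ 2 C ζ ^ M c`), `s` the stage of `(c, t)`, `b = τ c + s`, `u = f^[τ c] y ∈ ball (vv c) (2 t)`. `b ≥ s ≥ c1 log (1/t) ≥ c1 log (1/ζ)` for small `z2`.
(1) `∑_{j<b} ‖deriv (f^[j]) y‖ / zt (f^[j] y) ≤ A / ζ`: the terms `j < τ c` are at most `C / ζ` (`D.p3`), the terms `j = τ c + i`, `i < s`, at most `C ζ ^ (M c - 1) * (9/8) DD c i / (ee c i / 2)` (`it_add`, `D.p2`, `stg_na`), with sum `≤ 3 C ζ ^ (M c - 1) * 2 / (K t)` (`stg_sum`), `t ≥ ζ ^ M c / C`. All points are in `thickening (δ/4) J` (`D.p4`, `stg_na`) and not in `Cr`.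
(2) `na4` with centre `y`, `m = b`, `R = a0 ζ`, `a0 = ε0 / A`: with `F = f^[b]`, `Λ = ‖deriv F y‖ > 0`: `‖deriv F z - deriv F y‖ ≤ Λ / 4` on `ball y (a0 ζ)`. Let `ρ = min (a0 ζ) (r / 2) / 2`, `r' = Λ ρ / 2`. `F` is injective on `ball y (2 ρ)` and `F '' ball y ρ ⊇ ball (F y) r'` (`ApproximatesLinearOn`, or the contraction principle for `z ↦ z - (F z - w) / deriv F y`), with a holomorphic inverse
`G : ball (F y) r' → ball y ρ`, `F (G w) = w`, `G (F y) = y`. (3) `F y = f^[n+b] x`. Let `g'` be the family of `UU D x n r`. The family `g j = f^[b - j] ∘ G` for `j ≤ b` (for `j = 0`: `w`), `g (b + l) = g' l ∘ G` for `1 ≤ l ≤ n` satisfies `Br D x (n + b) (n + b) r'`: for `j ≤ b` the points `f^[i] (G w)`, `i < b`, are in `thickening δ J ⊆ G` (`na4`), and `w` (`i = b`) is within `Λ ρ` of `F y ∈ thickening (δ/4) J`, where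
`Λ ρ ≤ L * (‖deriv (f^[b-1]) y‖ * a0 ζ) ≤ L * ε0 * Z < δ / 4` (decrease `ε0`; `b ≥ 1`); `ball y ρ ⊆ ball y (r Del l)`.
(4) the last inequality: `zt (F y) ≤ ee c s + 2 t DD c s ≤ 3 Kn K s (t DD c s)` (`Stg.hit`, `stg_na`), `Λ ζ ≥ (7/8) DD c s ζ ^ M c / C ≥ (7/8) DD c s t / (2 C^2)`, and `ρ ≥ (a0 / 4) min ζ r = (a0/4) ζ min 1 (r/ζ)` (`a0 ≤ 1`).
-/

set_option autoImplicit false

open Filter Topology Metric Set

namespace Pool.Agent.H44.DP

theorem fwd_inv {F : ℂ → ℂ} {y : ℂ} {ρ : ℝ} (hρ : 0 < ρ)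
    (hd : ∀ z ∈ ball y ρ, DifferentiableAt ℂ F z) (h0 : deriv F y ≠ 0)
    (h : ∀ z ∈ ball y ρ, ‖deriv F z - deriv F y‖ ≤ 1 / 4 * ‖deriv F y‖) :
    ∃ H : ℂ → ℂ, DifferentiableOn ℂ H (ball (F y) (‖deriv F y‖ * ρ / 2)) ∧
      (∀ w ∈ ball (F y) (‖deriv F y‖ * ρ / 2), H w ∈ ball y ρ ∧ F (H w) = w) ∧ H (F y) = y := by
  classical
  set a := deriv F y with ha
  have ha0 : 0 < ‖a‖ := norm_pos_iff.2 h0
  -- nearly linear
  have hlip : ∀ z ∈ ball y ρ, ∀ z' ∈ ball y ρ, ‖F z - F z' - a * (z - z')‖ ≤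
      1 / 4 * ‖a‖ * ‖z - z'‖ := by
    intro z hz z' hz'
    have h1 : ∀ w ∈ ball y ρ, HasDerivWithinAt (fun w => F w - a * w) (deriv F w - a * 1)
        (ball y ρ) w := fun w hw =>
      (((hd w hw).hasDerivAt).sub ((hasDerivAt_id w).const_mul a)).hasDerivWithinAt
    have h2 := Convex.norm_image_sub_le_of_norm_hasDerivWithin_le (C := 1 / 4 * ‖a‖) h1
      (fun w hw => by rw [mul_one]; exact h w hw) (convex_ball y ρ) hz' hz
    have h3 : F z - F z' - a * (z - z') = (F z - a * z) - (F z' - a * z') := by ring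
    rw [h3]
    exact h2
  have hlow : ∀ z ∈ ball y ρ, ∀ z' ∈ ball y ρ, 3 / 4 * ‖a‖ * ‖z - z'‖ ≤ ‖F z - F z'‖ := by
    intro z hz z' hz'
    have h1 := hlip z hz z' hz'
    have h2 : ‖a * (z - z')‖ ≤ ‖F z - F z'‖ + ‖F z - F z' - a * (z - z')‖ := by
      have h3 : a * (z - z') = (F z - F z') - (F z - F z' - a * (z - z')) := by ring
      conv_lhs => rw [h3]
      exact norm_sub_le _ _
    rw [norm_mul] at h2
    linarith
  have happ : ApproximatesLinearOn F (ContinuousLinearMap.mul ℂ ℂ a) (ball y ρ) (‖a‖₊ / 4) := by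
    intro z hz z' hz'
    have h1 := hlip z hz z' hz'
    rw [ContinuousLinearMap.mul_apply']
    refine h1.trans (le_of_eq ?_)
    push_cast
    ring
  let inv : (ContinuousLinearMap.mul ℂ ℂ a).NonlinearRightInverse :=
    { toFun := fun w => w / a
      nnnorm := ‖a‖₊⁻¹
      bound' := fun w => by
        rw [norm_div, div_eq_inv_mul]
        push_cast
        exact le_rfl
      right_inv' := fun w => by
        rw [ContinuousLinearMap.mul_apply', mul_div_cancel₀ _ h0] }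
  have hsub : closedBall y (2 / 3 * ρ) ⊆ ball y ρ := closedBall_subset_ball (by linarith)
  have hsurj := happ.surjOn_closedBall_of_nonlinearRightInverse inv
    (ε := 2 / 3 * ρ) (b := y) (by positivity) hsub
  have hrad : (((inv.nnnorm : ℝ)⁻¹ - ((‖a‖₊ / 4 : NNReal) : ℝ)) * (2 / 3 * ρ)) = ‖a‖ * ρ / 2 := by
    have h1 : (inv.nnnorm : ℝ) = ‖a‖⁻¹ := rfl
    rw [h1, inv_inv]
    push_cast
    ring
  rw [hrad] at hsurj
  have hex : ∀ w ∈ ball (F y) (‖a‖ * ρ / 2), ∃ z, z ∈ closedBall y (2 / 3 * ρ) ∧ F z = w :=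
    fun w hw => hsurj (ball_subset_closedBall hw)
  let H : ℂ → ℂ := fun w => if hw : w ∈ ball (F y) (‖a‖ * ρ / 2) then (hex w hw).choose else 0
  have hH : ∀ w ∈ ball (F y) (‖a‖ * ρ / 2), H w ∈ ball y ρ ∧ F (H w) = w := by
    intro w hw
    have h1 : H w = (hex w hw).choose := dif_pos hw
    rw [h1]
    exact ⟨hsub (hex w hw).choose_spec.1, (hex w hw).choose_spec.2⟩
  refine ⟨H, ?_, hH, ?_⟩
  · intro w hw
    have hz := (hH w hw).1
    have hcont : ContinuousAt H w := by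
      rw [Metric.continuousAt_iff]
      intro ε hε
      have hopen : ball (F y) (‖a‖ * ρ / 2) ∈ 𝓝 w := isOpen_ball.mem_nhds hw
      obtain ⟨δ, hδ, hδ'⟩ := Metric.mem_nhds_iff.1 hopen
      refine ⟨min δ (3 / 4 * ‖a‖ * ε), lt_min hδ (by positivity), fun w' hw' => ?_⟩
      have hw'1 : w' ∈ ball (F y) (‖a‖ * ρ / 2) := hδ' (lt_of_lt_of_le hw' (min_le_left _ _))
      have h1 := hlow _ (hH w' hw'1).1 _ hz
      rw [(hH w' hw'1).2, (hH w hw).2] at h1
      have h2 : ‖w' - w‖ < 3 / 4 * ‖a‖ * ε := by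
        rw [← dist_eq_norm]
        exact lt_of_lt_of_le hw' (min_le_right _ _)
      rw [dist_eq_norm]
      have h3 : 3 / 4 * ‖a‖ * ‖H w' - H w‖ < 3 / 4 * ‖a‖ * ε := lt_of_le_of_lt h1 h2
      exact lt_of_mul_lt_mul_left h3 (by positivity)
    have hne : deriv F (H w) ≠ 0 := by
      intro h1
      have h2 := h _ hz
      rw [h1, zero_sub, norm_neg] at h2
      linarith
    have hev : ∀ᶠ w' in 𝓝 w, F (H w') = w' := by
      filter_upwards [isOpen_ball.mem_nhds hw] with w' hw'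
      exact (hH w' hw').2
    exact (HasDerivAt.of_local_left_inverse hcont (hd _ hz).hasDerivAt hne hev).differentiableAt.differentiableWithinAt
  · have hy : F y ∈ ball (F y) (‖a‖ * ρ / 2) := mem_ball_self (by positivity)
    have h1 := hlow _ (hH _ hy).1 y (mem_ball_self hρ)
    rw [(hH _ hy).2, sub_self, norm_zero] at h1
    have h2 : ‖H (F y) - y‖ = 0 := by
      have h3 := norm_nonneg (H (F y) - y)
      have h4 : 0 ≤ ‖a‖ * ‖H (F y) - y‖ := by positivity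
      nlinarith
    rwa [norm_eq_zero, sub_eq_zero] at h2

theorem fwd_fam {D : Ps} {x : ℂ} (hx : NC D x) {n b : ℕ} {r ρ r' : ℝ} (hr : 0 < r)
    (hρ : ρ ≤ r / 2) (hr' : 0 < r') (hrδ : r' ≤ D.δ) (hU : UU D x n r) {H : ℂ → ℂ}
    (hHd : DifferentiableOn ℂ H (ball (D.f^[n + b] x) r'))
    (hH : ∀ w ∈ ball (D.f^[n + b] x) r', H w ∈ ball (D.f^[n] x) ρ ∧ D.f^[b] (H w) = w)
    (hHy : H (D.f^[n + b] x) = D.f^[n] x)
    (hth : ∀ w ∈ ball (D.f^[n + b] x) r', ∀ i < b, D.f^[i] (H w) ∈ thickening D.δ D.J) :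
    UU D x (n + b) r' := by
  obtain ⟨g, hg⟩ := hU
  have hle1 : ∀ i, Del i ≤ 1 := fun i => del_zero ▸ del_anti (Nat.zero_le i)
  have hsub1 : ∀ i, ball (D.f^[n + b] x) (r' * Del i) ⊆ ball (D.f^[n + b] x) r' := fun i =>
    ball_subset_ball (mul_le_of_le_one_right hr'.le (hle1 i))
  have hsub2 : ∀ i, ball (D.f^[n] x) ρ ⊆ ball (D.f^[n] x) (r * Del i) := fun i =>
    ball_subset_ball (by
      have := del_half i
      nlinarith)
  have hcen : D.f^[n + b] x ∈ ball (D.f^[n + b] x) r' := mem_ball_self hr'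
  have hGz : ∀ w ∈ ball (D.f^[n + b] x) r', ∀ i < b, D.f^[i] (H w) ∈ D.G := fun z hz i hi =>
    D.hU (hth z hz i hi)
  refine ⟨fun i => if i ≤ b then fun w => D.f^[b - i] (H w) else fun w => g (i - b) (H w), ?_⟩
  refine ⟨le_rfl, ?_, ?_, ?_, ?_, ?_⟩
  · intro w hw
    show (if 0 ≤ b then fun w => D.f^[b - 0] (H w) else fun w => g (0 - b) (H w)) w = w
    rw [if_pos (Nat.zero_le b)]
    show D.f^[b - 0] (H w) = w
    rw [Nat.sub_zero]
    exact (hH w hw).2
  · intro i hi w hw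
    have hw' := hsub1 i hw
    have hHw : DifferentiableAt ℂ H w := hHd.differentiableAt (isOpen_ball.mem_nhds hw')
    apply DifferentiableAt.differentiableWithinAt
    by_cases hib : i ≤ b
    · show DifferentiableAt ℂ (if i ≤ b then fun w => D.f^[b - i] (H w) else
        fun w => g (i - b) (H w)) w
      rw [if_pos hib]
      have h1 : DifferentiableAt ℂ (D.f^[b - i]) (H w) := it_diff D fun k hk =>
        hGz w hw' k (by omega)
      exact h1.comp w hHw
    · show DifferentiableAt ℂ (if i ≤ b then fun w => D.f^[b - i] (H w) else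
        fun w => g (i - b) (H w)) w
      rw [if_neg hib]
      have h1 : DifferentiableAt ℂ (g (i - b)) (H w) :=
        (hg.diff (i - b) (by omega)).differentiableAt
          (isOpen_ball.mem_nhds (hsub2 _ (hH w hw').1))
      exact h1.comp w hHw
  · intro i hi
    by_cases hib : i ≤ b
    · show (if i ≤ b then fun w => D.f^[b - i] (H w) else
        fun w => g (i - b) (H w)) (D.f^[n + b] x) = _
      rw [if_pos hib]
      show D.f^[b - i] (H (D.f^[n + b] x)) = _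
      rw [hHy, ← Function.iterate_add_apply]
      congr 2
      omega
    · show (if i ≤ b then fun w => D.f^[b - i] (H w) else
        fun w => g (i - b) (H w)) (D.f^[n + b] x) = _
      rw [if_neg hib]
      show g (i - b) (H (D.f^[n + b] x)) = _
      rw [hHy, hg.val (i - b) (by omega)]
      have h2 : n - (i - b) = n + b - i := by omega
      rw [h2]
  · intro i hi w hw
    have hw' := hsub1 i hw
    by_cases hib : i ≤ b
    · show (if i ≤ b then fun w => D.f^[b - i] (H w) else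
        fun w => g (i - b) (H w)) w ∈ D.G
      rw [if_pos hib]
      show D.f^[b - i] (H w) ∈ D.G
      rcases Nat.eq_zero_or_pos i with h0 | h0
      · rw [h0, Nat.sub_zero, (hH w hw').2]
        apply D.hU
        have h1 : D.f^[n + b] x ∈ D.J := it_J D hx.1 _
        rw [mem_thickening_iff]
        exact ⟨_, h1, lt_of_lt_of_le hw' hrδ⟩
      · exact hGz w hw' _ (by omega)
    · show (if i ≤ b then fun w => D.f^[b - i] (H w) else
        fun w => g (i - b) (H w)) w ∈ D.G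
      rw [if_neg hib]
      exact hg.mem (i - b) (by omega) _ (hsub2 _ (hH w hw').1)
  · intro i hi w hw
    have hw' := hsub1 (i + 1) hw
    show D.f ((if i + 1 ≤ b then fun w => D.f^[b - (i + 1)] (H w) else
        fun w => g (i + 1 - b) (H w)) w) = (if i ≤ b then fun w => D.f^[b - i] (H w) else
        fun w => g (i - b) (H w)) w
    rcases lt_trichotomy i b with h1 | h1 | h1
    · rw [if_pos (by omega : i + 1 ≤ b), if_pos h1.le]
      show D.f (D.f^[b - (i + 1)] (H w)) = D.f^[b - i] (H w)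
      rw [← Function.iterate_succ_apply' D.f]
      congr 2
      omega
    · rw [if_neg (by omega : ¬ i + 1 ≤ b), if_pos h1.le]
      show D.f (g (i + 1 - b) (H w)) = D.f^[b - i] (H w)
      have h2 : i + 1 - b = 0 + 1 := by omega
      have h3 : b - i = 0 := by omega
      rw [h2, h3, hg.step 0 (by omega) _ (hsub2 _ (hH w hw').1), Function.iterate_zero, id]
      have h4 := hsub2 0 (hH w hw').1
      rw [del_zero, mul_one] at h4
      exact hg.zero _ h4
    · rw [if_neg (by omega : ¬ i + 1 ≤ b), if_neg (by omega : ¬ i ≤ b)]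
      show D.f (g (i + 1 - b) (H w)) = g (i - b) (H w)
      have h2 : i + 1 - b = (i - b) + 1 := by omega
      rw [h2]
      exact hg.step (i - b) (by omega) _ (hsub2 _ (hH w hw').1)

theorem fwd_nc {D : Ps} {x : ℂ} (hx : NC D x) (n : ℕ) : NC D (D.f^[n] x) :=
  ⟨it_J D hx.1 n, fun k => by
    rw [← Function.iterate_add_apply]
    exact hx.2 (k + n)⟩

private theorem fwd_sum (D : Ps) {K : ℝ} (hK : 1 ≤ K) {y c : ℂ} (hy : NC D y) (hc : c ∈ D.Ce)
    (hyc : y ∈ ball c D.r0) {t : ℝ} {s : ℕ} (ht : t = 2 * ‖D.f^[D.τ c] y - D.vv c‖) (ht0 : 0 < t)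
    (hs : Stg D K c t s)
    (hna : ∀ j ≤ s, ‖deriv (D.f^[j]) (D.f^[D.τ c] y)‖ ≤ 9 / 8 * D.DD c j ∧
      (j < s → D.ee c j / 2 ≤ D.zt (D.f^[j] (D.f^[D.τ c] y)))) :
    ‖y - c‖ * ∑ j ∈ Finset.range (D.τ c + s), ‖deriv (D.f^[j]) y‖ / D.zt (D.f^[j] y) ≤
      D.τ c * D.C + 3 * D.C ^ 2 := by
  have hC := D.hC
  have hζ0 : 0 ≤ ‖y - c‖ := norm_nonneg _
  have hG : ∀ k : ℕ, D.f^[k] y ∈ D.G := fun k => D.hU (J_th D (it_J D hy.1 k) D.hδ)
  have hM : D.M c = (D.M c - 1) + 1 := by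
    have := D.hm c (ce_Cr D hc)
    have := D.hmM c (ce_Cr D hc)
    omega
  rw [Finset.sum_range_add, mul_add]
  apply add_le_add
  · rw [Finset.mul_sum]
    refine (Finset.sum_le_card_nsmul _ _ D.C ?_).trans (le_of_eq ?_)
    · intro j hj
      have h1 := D.p3 c (ce_Cr D hc) y hyc j (Finset.mem_range.1 hj)
      have h2 : 0 < D.zt (D.f^[j] y) := zt_pos D (hy.2 j)
      rw [mul_div_assoc', div_le_iff₀ h2, mul_comm]
      exact h1
    · rw [Finset.card_range, nsmul_eq_mul]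
  · have hterm : ∀ i ∈ Finset.range s, ‖deriv (D.f^[D.τ c + i]) y‖ / D.zt (D.f^[D.τ c + i] y) ≤
        9 / 4 * D.C * ‖y - c‖ ^ (D.M c - 1) * (D.DD c i / D.ee c i) := by
      intro i hi
      have his := Finset.mem_range.1 hi
      obtain ⟨h1, h2⟩ := hna i his.le
      have h2 := h2 his
      have hee : 0 < D.ee c i := zt_pos D (by
        show D.f^[i] (D.f^[D.τ c] c) ∉ D.S
        rw [← Function.iterate_add_apply]
        exact D.hτe c hc _ (by omega))
      have h3 : D.f^[D.τ c + i] y = D.f^[i] (D.f^[D.τ c] y) := by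
        rw [← Function.iterate_add_apply, add_comm]
      have h4 := it_add D (z := y) (a := D.τ c) (b := i) (fun k _ => hG k)
      rw [h4, h3, norm_mul]
      have h5 := (D.p2 c (ce_Cr D hc) y hyc).1
      have hDD : 0 ≤ D.DD c i := norm_nonneg _
      calc ‖deriv (D.f^[i]) (D.f^[D.τ c] y)‖ * ‖deriv (D.f^[D.τ c]) y‖ /
            D.zt (D.f^[i] (D.f^[D.τ c] y))
          ≤ (9 / 8 * D.DD c i) * (D.C * ‖y - c‖ ^ (D.M c - 1)) / (D.ee c i / 2) := by
            apply div_le_div₀ (by positivity) _ (by positivity) h2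
            exact mul_le_mul h1 h5 (norm_nonneg _) (by positivity)
        _ = 9 / 4 * D.C * ‖y - c‖ ^ (D.M c - 1) * (D.DD c i / D.ee c i) := by
            field_simp
            ring
    have h1 := Finset.sum_le_sum hterm
    rw [← Finset.mul_sum] at h1
    have h2 := stg_sum D hK hc ht0 hs
    have h3 : 2 / K ≤ 2 := by
      rw [div_le_iff₀ (by linarith)]
      linarith
    have h4 : ∑ j ∈ Finset.range s, D.DD c j / D.ee c j ≤ 2 / t := by
      rw [le_div_iff₀ ht0]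
      linarith
    have h5 : ‖y - c‖ ^ D.M c ≤ D.C * (t / 2) := by
      have h6 := (D.p1 c (ce_Cr D hc) y hyc).2
      have h7 : t / 2 = ‖D.f^[D.τ c] y - D.f^[D.τ c] c‖ := by
        rw [ht]
        unfold Ps.vv
        ring
      rw [h7]
      exact h6
    calc ‖y - c‖ * ∑ i ∈ Finset.range s,
          ‖deriv (D.f^[D.τ c + i]) y‖ / D.zt (D.f^[D.τ c + i] y)
        ≤ ‖y - c‖ * (9 / 4 * D.C * ‖y - c‖ ^ (D.M c - 1) *
            ∑ i ∈ Finset.range s, D.DD c i / D.ee c i) := mul_le_mul_of_nonneg_left h1 hζ0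
      _ ≤ ‖y - c‖ * (9 / 4 * D.C * ‖y - c‖ ^ (D.M c - 1) * (2 / t)) := by
          apply mul_le_mul_of_nonneg_left _ hζ0
          exact mul_le_mul_of_nonneg_left h4 (by positivity)
      _ = 9 / 4 * D.C * (‖y - c‖ ^ D.M c * (2 / t)) := by
          conv_rhs => rw [hM, pow_succ]
          ring
      _ ≤ 9 / 4 * D.C * (D.C * (t / 2) * (2 / t)) := by
          apply mul_le_mul_of_nonneg_left _ (by positivity)
          exact mul_le_mul_of_nonneg_right h5 (by positivity)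
      _ = 9 / 4 * D.C ^ 2 := by
          field_simp
      _ ≤ 3 * D.C ^ 2 := by
          have : 0 ≤ D.C ^ 2 := by positivity
          linarith

theorem fwd (D : Ps) : ∃ z2 c2 C2 : ℝ, 0 < z2 ∧ z2 ≤ 1 / 2 ∧ 0 < c2 ∧ 1 ≤ C2 ∧
    ∀ x : ℂ, NC D x → ∀ (n : ℕ) (c : ℂ), c ∈ D.Ce → ‖D.f^[n] x - c‖ ≤ z2 →
      ∀ r : ℝ, 0 < r → UU D x n r → ∃ (b : ℕ) (r' : ℝ),
        c2 * Real.log (1 / ‖D.f^[n] x - c‖) ≤ b ∧ 0 < r' ∧ UU D x (n + b) r' ∧
        D.zt (D.f^[n + b] x) * min 1 (r / ‖D.f^[n] x - c‖) ≤ C2 * ((b : ℝ) + 1) ^ 2 * r' := by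
  obtain ⟨K0, hK0, hstna⟩ := stg_na D
  obtain ⟨C0, hC0, hstex⟩ := stg_ex D
  obtain ⟨t0, c1, C1, ht0, ht01, hc1, hC1, hst⟩ := hstex K0 hK0
  obtain ⟨ε0, hε0, hε016, hna4⟩ := na4 D
  obtain ⟨Z, hZ1, hZ⟩ := zt_bd D
  have hC := D.hC
  have hL := D.hL
  have hδ := D.hδ
  have hr0 := D.hr0
  set T : ℝ := ((∑ c ∈ D.S, D.τ c : ℕ) : ℝ) with hT
  have hT0 : 0 ≤ T := Nat.cast_nonneg _
  set A : ℝ := T * D.C + 3 * D.C ^ 2 with hA
  have hA1 : 1 ≤ A := by
    have h1 : (1 : ℝ) ≤ D.C ^ 2 := one_le_pow₀ hC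
    have h2 : 0 ≤ T * D.C := by positivity
    linarith
  set ε1 : ℝ := min ε0 (D.δ / (D.L * Z)) with hε1
  have hε1pos : 0 < ε1 := lt_min hε0 (by positivity)
  set a0 : ℝ := ε1 / A with ha0
  have ha0pos : 0 < a0 := by positivity
  have ha0A : a0 * A = ε1 := by
    rw [ha0]
    field_simp
  have ha01 : a0 ≤ 1 := by
    rw [ha0, div_le_one (by linarith)]
    have : ε1 ≤ ε0 := min_le_left _ _
    linarith
  set z2 : ℝ := min (min (1 / 2) (D.r0 / 2)) (min (t0 / (2 * D.C)) (1 / (2 * D.C))) with hz2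
  have hz2pos : 0 < z2 := by positivity
  refine ⟨z2, c1, 24 * K0 * D.C ^ 2 / a0, hz2pos, (min_le_left _ _).trans (min_le_left _ _), hc1,
    ?_, ?_⟩
  · rw [one_le_div ha0pos]
    have h1 : (1 : ℝ) ≤ D.C ^ 2 := one_le_pow₀ hC
    nlinarith
  intro x hx n c hc hz r hr hU
  set y := D.f^[n] x with hy
  have hyNC : NC D y := fwd_nc hx n
  set ζ := ‖y - c‖ with hζ
  have hζ0 : 0 < ζ := by
    rw [hζ, norm_pos_iff, sub_ne_zero]
    intro h
    refine hx.2 n ?_
    rw [← hy, h]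
    exact ce_S D hc
  have hζhalf : ζ ≤ 1 / 2 := hz.trans ((min_le_left _ _).trans (min_le_left _ _))
  have hζr : ζ ≤ D.r0 / 2 := hz.trans ((min_le_left _ _).trans (min_le_right _ _))
  have hζt : ζ ≤ t0 / (2 * D.C) := hz.trans ((min_le_right _ _).trans (min_le_left _ _))
  have hζC : ζ ≤ 1 / (2 * D.C) := hz.trans ((min_le_right _ _).trans (min_le_right _ _))
  have hyc : y ∈ ball c D.r0 := by
    rw [mem_ball, dist_eq_norm]
    linarith
  have hG : ∀ k : ℕ, D.f^[k] y ∈ D.G := fun k => D.hU (J_th D (it_J D hyNC.1 k) D.hδ)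
  have hm2 := D.hm c (ce_Cr D hc)
  have hmM := D.hmM c (ce_Cr D hc)
  have hM2 : 2 ≤ D.M c := hm2.trans hmM
  have hMs : D.M c = (D.M c - 1) + 1 := by omega
  set u := D.f^[D.τ c] y with hu
  set t : ℝ := 2 * ‖u - D.vv c‖ with ht
  have hp1 := D.p1 c (ce_Cr D hc) y hyc
  have hp1a : ‖u - D.vv c‖ ≤ D.C * ζ ^ D.M c := hp1.1
  have hp1b : ζ ^ D.M c ≤ D.C * ‖u - D.vv c‖ := hp1.2
  have htpos : 0 < t := by
    have h1 : 0 < ζ ^ D.M c := by positivity
    have h2 : 0 ≤ ‖u - D.vv c‖ := norm_nonneg _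
    rcases h2.lt_or_eq with h3 | h3
    · rw [ht]
      linarith
    · rw [← h3, mul_zero] at hp1b
      linarith
  have hζM : ζ ^ D.M c ≤ ζ ^ 2 := pow_le_pow_of_le_one hζ0.le (by linarith) hM2
  have htζ : t ≤ ζ := by
    have h1 : 2 * D.C * ζ ≤ 1 := by
      rw [le_div_iff₀ (by positivity)] at hζC
      linarith
    calc t ≤ 2 * (D.C * ζ ^ 2) := by
          rw [ht]
          have := mul_le_mul_of_nonneg_left hζM (by linarith : 0 ≤ D.C)
          linarith
      _ = (2 * D.C * ζ) * ζ := by ring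
      _ ≤ 1 * ζ := mul_le_mul_of_nonneg_right h1 hζ0.le
      _ = ζ := one_mul ζ
  have htt0 : t ≤ t0 := by
    have h1 : 2 * D.C * ζ ≤ t0 := by
      rw [le_div_iff₀ (by positivity)] at hζt
      linarith
    calc t ≤ ζ := htζ
      _ ≤ 2 * D.C * ζ := by nlinarith
      _ ≤ t0 := h1
  obtain ⟨s, hs, hs1, hslow, -, -⟩ := hst c hc t htpos htt0
  have hub : u ∈ ball (D.vv c) (2 * t) := by
    rw [mem_ball, dist_eq_norm]
    linarith
  have hnas := hstna K0 le_rfl c hc t htpos s hs1 hs u hub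
  have hder : ∀ j ≤ s, ‖deriv (D.f^[j]) u‖ ≤ 9 / 8 * D.DD c j ∧
      7 / 8 * D.DD c j ≤ ‖deriv (D.f^[j]) u‖ := by
    intro j hj
    have h1 := (hnas j hj).2.1
    have h2 : |‖deriv (D.f^[j]) u‖ - ‖deriv (D.f^[j]) (D.vv c)‖| ≤ 1 / 8 * D.DD c j :=
      (abs_norm_sub_norm_le _ _).trans h1
    have h3 : ‖deriv (D.f^[j]) (D.vv c)‖ = D.DD c j := rfl
    rw [h3] at h2
    obtain ⟨h4, h5⟩ := abs_le.1 h2
    exact ⟨by linarith, by linarith⟩
  set b := D.τ c + s with hb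
  have hsum := fwd_sum D hK0 hyNC hc hyc ht htpos hs (fun j hj =>
    ⟨(hder j hj).1, fun hjs => ((hnas j hj).2.2.2 hjs).1⟩)
  have hτT : (D.τ c : ℝ) ≤ T := by
    rw [hT]
    exact_mod_cast Finset.single_le_sum (f := D.τ) (fun _ _ => Nat.zero_le _) (ce_S D hc)
  have hsumA : ζ * ∑ j ∈ Finset.range b, ‖deriv (D.f^[j]) y‖ / D.zt (D.f^[j] y) ≤ A := by
    refine hsum.trans ?_
    have := mul_le_mul_of_nonneg_right hτT (by linarith : 0 ≤ D.C)
    linarith
  have hR0 : 0 < a0 * ζ := by positivity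
  have hnaR : a0 * ζ * ∑ j ∈ Finset.range b, ‖deriv (D.f^[j]) y‖ / D.zt (D.f^[j] y) ≤ ε1 := by
    rw [mul_assoc, ← ha0A]
    exact mul_le_mul_of_nonneg_left hsumA ha0pos.le
  have hna := hna4 y (a0 * ζ) b hR0
    (fun k _ => ⟨J_th D (it_J D hyNC.1 k) (by linarith), hyNC.2 k⟩)
    (hnaR.trans (min_le_left _ _))
  have hΛne : deriv (D.f^[b]) y ≠ 0 := it_ne' D fun i _ =>
    ⟨J_th D (it_J D hyNC.1 i) D.hδ, hyNC.2 i⟩
  set Λ := ‖deriv (D.f^[b]) y‖ with hΛ
  have hΛ0 : 0 < Λ := norm_pos_iff.2 hΛne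
  set ρ : ℝ := min (a0 * ζ) (r / 2) with hρ
  have hρ0 : 0 < ρ := lt_min hR0 (by linarith)
  have hsubρ : ball y ρ ⊆ ball y (a0 * ζ) := ball_subset_ball (min_le_left _ _)
  obtain ⟨H, hHd, hH, hHy⟩ := fwd_inv (F := D.f^[b]) (y := y) hρ0
    (fun z hz => it_diff D fun i hi => D.hU ((hna b le_rfl z (hsubρ hz)).1 i hi)) hΛne
    (fun z hz => (hna b le_rfl z (hsubρ hz)).2.1)
  have hFy : D.f^[b] y = D.f^[n + b] x := by
    rw [hy, ← Function.iterate_add_apply, add_comm]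
  rw [hFy] at hHd hH hHy
  set r' : ℝ := Λ * ρ / 2 with hr'
  have hr'0 : 0 < r' := by positivity
  -- the radius is small
  have hr'δ : r' ≤ D.δ := by
    have hb1 : b = (b - 1) + 1 := by omega
    have h1 : Λ ≤ D.L * ‖deriv (D.f^[b - 1]) y‖ := by
      have h2 := it_succ D (z := y) (n := b - 1) (fun k _ => hG k)
      rw [← hb1] at h2
      rw [hΛ, h2, norm_mul]
      exact mul_le_mul_of_nonneg_right (D.hLf _ (J_th D (it_J D hyNC.1 _) D.hδ)) (norm_nonneg _)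
    have hzt : 0 < D.zt (D.f^[b - 1] y) := zt_pos D (hyNC.2 _)
    have h3 : a0 * ζ * (‖deriv (D.f^[b - 1]) y‖ / D.zt (D.f^[b - 1] y)) ≤ ε1 := by
      refine le_trans (mul_le_mul_of_nonneg_left ?_ hR0.le) hnaR
      exact Finset.single_le_sum (f := fun j => ‖deriv (D.f^[j]) y‖ / D.zt (D.f^[j] y))
        (fun j _ => div_nonneg (norm_nonneg _) (zt_nonneg D _))
        (Finset.mem_range.2 (by omega))
    have h4 : a0 * ζ * ‖deriv (D.f^[b - 1]) y‖ ≤ ε1 * Z := by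
      rw [mul_div_assoc', div_le_iff₀ hzt] at h3
      exact h3.trans (mul_le_mul_of_nonneg_left
        (hZ _ (J_th D (it_J D hyNC.1 _) D.hδ)) hε1pos.le)
    have h5 : ε1 * (D.L * Z) ≤ D.δ := by
      have h6 : ε1 ≤ D.δ / (D.L * Z) := min_le_right _ _
      rwa [le_div_iff₀ (by positivity)] at h6
    have h6 : Λ * ρ ≤ D.δ := by
      calc Λ * ρ ≤ (D.L * ‖deriv (D.f^[b - 1]) y‖) * (a0 * ζ) :=
            mul_le_mul h1 (min_le_left _ _) hρ0.le (by positivity)
        _ = D.L * (a0 * ζ * ‖deriv (D.f^[b - 1]) y‖) := by ring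
        _ ≤ D.L * (ε1 * Z) := mul_le_mul_of_nonneg_left h4 (by linarith)
        _ = ε1 * (D.L * Z) := by ring
        _ ≤ D.δ := h5
    rw [hr']
    have : 0 ≤ Λ * ρ := by positivity
    linarith
  have hUU : UU D x (n + b) r' := fwd_fam hx hr (min_le_right _ _) hr'0 hr'δ hU hHd hH hHy
    (fun w hw i hi => (hna b le_rfl _ (hsubρ (hH w hw).1)).1 i hi)
  refine ⟨b, r', ?_, hr'0, hUU, ?_⟩
  · have h1 : Real.log (1 / ζ) ≤ Real.log (1 / t) :=
      Real.log_le_log (by positivity) (one_div_le_one_div_of_le htpos htζ)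
    have h2 : (s : ℝ) ≤ b := by
      have : s ≤ b := by omega
      exact_mod_cast this
    calc c1 * Real.log (1 / ζ) ≤ c1 * Real.log (1 / t) := mul_le_mul_of_nonneg_left h1 hc1.le
      _ ≤ s := hslow
      _ ≤ b := h2
  · -- the last inequality
    have hDD0 : 0 ≤ D.DD c s := norm_nonneg _
    have hKn : 1 ≤ Kn K0 s := by
      have h1 : (1 : ℝ) ≤ ((s : ℝ) + 1) ^ 2 := one_le_pow₀ (by
        have : (0 : ℝ) ≤ s := Nat.cast_nonneg _
        linarith)
      exact one_le_mul_of_one_le_of_one_le hK0 h1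
    have hFu : D.f^[n + b] x = D.f^[s] u := by
      have e1 : D.f^[s + D.τ c] y = D.f^[s] u := Function.iterate_add_apply _ _ _ _
      rw [← e1, ← hFy, hb, add_comm s]
    have h1 : ‖D.f^[s] u - D.f^[s] (D.vv c)‖ ≤ t * D.DD c s := by
      have h2 := (hnas s le_rfl).2.2.1
      have h3 : ‖D.f^[s] u - D.f^[s] (D.vv c)‖ ≤ ‖deriv (D.f^[s]) (D.vv c) * (u - D.vv c)‖ +
          ‖D.f^[s] u - D.f^[s] (D.vv c) - deriv (D.f^[s]) (D.vv c) * (u - D.vv c)‖ := by
        have h4 : D.f^[s] u - D.f^[s] (D.vv c) = deriv (D.f^[s]) (D.vv c) * (u - D.vv c) +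
          (D.f^[s] u - D.f^[s] (D.vv c) - deriv (D.f^[s]) (D.vv c) * (u - D.vv c)) := by ring
        conv_lhs => rw [h4]
        exact norm_add_le _ _
      rw [norm_mul] at h3
      have h5 : ‖deriv (D.f^[s]) (D.vv c)‖ = D.DD c s := rfl
      rw [h5] at h3
      have h6 : ‖u - D.vv c‖ = t / 2 := by rw [ht]; ring
      rw [h6] at h3 h2
      have h7 : 0 ≤ D.DD c s * t := by positivity
      linarith
    have h2 : D.zt (D.f^[n + b] x) ≤ 2 * Kn K0 s * (t * D.DD c s) := by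
      rw [hFu]
      have h3 := zt_lip D (D.f^[s] u) (D.f^[s] (D.vv c))
      have h4 := (abs_le.1 h3).2
      have h5 : D.zt (D.f^[s] (D.vv c)) = D.ee c s := rfl
      rw [h5] at h4
      have h6 := hs.hit
      have h7 : t * D.DD c s ≤ Kn K0 s * (t * D.DD c s) :=
        le_mul_of_one_le_left (by positivity) hKn
      linarith
    have h3 : t * D.DD c s ≤ 3 * D.C ^ 2 * (Λ * ζ) := by
      have h4 : deriv (D.f^[b]) y = deriv (D.f^[s]) u * deriv (D.f^[D.τ c]) y :=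
        it_add D (fun k _ => hG k)
      have h5 := (D.p2 c (ce_Cr D hc) y hyc).2
      have h6 := (hder s le_rfl).2
      have h7 : 7 / 8 * D.DD c s * ζ ^ D.M c ≤ D.C * (Λ * ζ) := by
        rw [hΛ, h4, norm_mul]
        calc 7 / 8 * D.DD c s * ζ ^ D.M c = 7 / 8 * D.DD c s * (ζ ^ (D.M c - 1)) * ζ := by
              conv_lhs => rw [hMs, pow_succ]
              ring
          _ ≤ ‖deriv (D.f^[s]) u‖ * (D.C * ‖deriv (D.f^[D.τ c]) y‖) * ζ := by
              apply mul_le_mul_of_nonneg_right _ hζ0.le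
              exact mul_le_mul h6 h5 (by positivity) (norm_nonneg _)
          _ = D.C * (‖deriv (D.f^[s]) u‖ * ‖deriv (D.f^[D.τ c]) y‖ * ζ) := by ring
      have h8 : t ≤ 2 * D.C * ζ ^ D.M c := by
        rw [ht]
        linarith
      calc t * D.DD c s ≤ (2 * D.C * ζ ^ D.M c) * D.DD c s :=
            mul_le_mul_of_nonneg_right h8 hDD0
        _ = 16 / 7 * D.C * (7 / 8 * D.DD c s * ζ ^ D.M c) := by ring
        _ ≤ 16 / 7 * D.C * (D.C * (Λ * ζ)) := mul_le_mul_of_nonneg_left h7 (by positivity)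
        _ = 16 / 7 * (D.C ^ 2 * (Λ * ζ)) := by ring
        _ ≤ 3 * (D.C ^ 2 * (Λ * ζ)) := by
            apply mul_le_mul_of_nonneg_right (by norm_num) (by positivity)
        _ = 3 * D.C ^ 2 * (Λ * ζ) := by ring
    have hmin0 : 0 ≤ min 1 (r / ζ) := le_min zero_le_one (by positivity)
    have h4 : ζ * min 1 (r / ζ) ≤ 2 / a0 * ρ := by
      have h5 : ζ * min 1 (r / ζ) ≤ ζ := mul_le_of_le_one_right hζ0.le (min_le_left _ _)
      have h6 : ζ * min 1 (r / ζ) ≤ r := by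
        calc ζ * min 1 (r / ζ) ≤ ζ * (r / ζ) :=
              mul_le_mul_of_nonneg_left (min_le_right _ _) hζ0.le
          _ = r := by field_simp
      rw [div_mul_eq_mul_div, le_div_iff₀ ha0pos]
      rcases le_total (a0 * ζ) (r / 2) with h7 | h7
      · rw [hρ, min_eq_left h7]
        nlinarith
      · rw [hρ, min_eq_right h7]
        nlinarith
    have hsb : Kn K0 s ≤ K0 * ((b : ℝ) + 1) ^ 2 := by
      unfold Kn
      apply mul_le_mul_of_nonneg_left _ (by linarith)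
      have h5 : (s : ℝ) ≤ b := by
        have : s ≤ b := by omega
        exact_mod_cast this
      exact pow_le_pow_left₀ (by positivity) (by linarith) _
    calc D.zt (D.f^[n + b] x) * min 1 (r / ζ)
        ≤ (2 * Kn K0 s * (t * D.DD c s)) * min 1 (r / ζ) :=
          mul_le_mul_of_nonneg_right h2 hmin0
      _ ≤ (2 * Kn K0 s * (3 * D.C ^ 2 * (Λ * ζ))) * min 1 (r / ζ) := by
          apply mul_le_mul_of_nonneg_right _ hmin0
          exact mul_le_mul_of_nonneg_left h3 (by linarith)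
      _ = 6 * Kn K0 s * D.C ^ 2 * Λ * (ζ * min 1 (r / ζ)) := by ring
      _ ≤ 6 * Kn K0 s * D.C ^ 2 * Λ * (2 / a0 * ρ) := by
          apply mul_le_mul_of_nonneg_left h4
          positivity
      _ = Kn K0 s * (24 * D.C ^ 2 / a0 * r') := by
          rw [hr']
          field_simp
          ring
      _ ≤ K0 * ((b : ℝ) + 1) ^ 2 * (24 * D.C ^ 2 / a0 * r') :=
          mul_le_mul_of_nonneg_right hsb (by positivity)
      _ = 24 * K0 * D.C ^ 2 / a0 * ((b : ℝ) + 1) ^ 2 * r' := by ring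

end Pool.Agent.H44.DP
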