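import Pool.Agent.H44.DP.FWD

/-!
# Module FWL: branches behind a landing critical point

PROOF. As FWD with `s = 0`, `b = τ c`: the terms `j < τ c` of the sum are at most `C / ζ` (`D.p3`), `na4` with
`R = a0 ζ`, `Λ = ‖deriv (f^[τ c]) y‖ ≥ ζ ^ (M c - 1) / C`, `zt (f^[τ c] y) ≤ C ζ ^ M c` (the value `f^[τ c] c` is in
`Pa ⊆ S`).
-/

set_option autoImplicit false

open Filter Topology Metric Set

namespace Pool.Agent.H44.DP

theorem fwl (D : Ps) : ∃ z2 C2 : ℝ, 0 < z2 ∧ z2 ≤ 1 / 2 ∧ 1 ≤ C2 ∧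
    ∀ x : ℂ, NC D x → ∀ (n : ℕ) (c : ℂ), c ∈ D.Cl → ‖D.f^[n] x - c‖ ≤ z2 →
      ∀ r : ℝ, 0 < r → UU D x n r → ∃ r' : ℝ, 0 < r' ∧ UU D x (n + D.τ c) r' ∧
        D.zt (D.f^[n + D.τ c] x) * min 1 (r / ‖D.f^[n] x - c‖) ≤ C2 * r' := by
  obtain ⟨ε0, hε0, hε016, hna4⟩ := na4 D
  obtain ⟨Z, hZ1, hZ⟩ := zt_bd D
  have hC := D.hC
  have hL := D.hL
  have hδ := D.hδ
  have hr0 := D.hr0
  set T : ℝ := ((∑ c ∈ D.S, D.τ c : ℕ) : ℝ) with hT
  have hT0 : 0 ≤ T := Nat.cast_nonneg _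
  set A : ℝ := T * D.C + 3 * D.C ^ 2 with hA
  have hA1 : 1 ≤ A := by
    have h1 : (1 : ℝ) ≤ D.C ^ 2 := one_le_pow₀ hC
    have h2 : 0 ≤ T * D.C := by positivity
    linarith
  set ε1 : ℝ := min ε0 (D.δ / (D.L * Z)) with hε1
  have hε1pos : 0 < ε1 := lt_min hε0 (by positivity)
  set a0 : ℝ := ε1 / A with ha0
  have ha0pos : 0 < a0 := by positivity
  have ha0A : a0 * A = ε1 := by
    rw [ha0]
    field_simp
  have ha01 : a0 ≤ 1 := by
    rw [ha0, div_le_one (by linarith)]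
    have : ε1 ≤ ε0 := min_le_left _ _
    linarith
  refine ⟨min (1 / 2) (D.r0 / 2), 4 * D.C ^ 2 / a0, by positivity, min_le_left _ _, ?_, ?_⟩
  · rw [one_le_div ha0pos]
    have h1 : (1 : ℝ) ≤ D.C ^ 2 := one_le_pow₀ hC
    nlinarith
  intro x hx n c hcl hz r hr hU
  have hc := cl_Cr D hcl
  set y := D.f^[n] x with hy
  have hyNC : NC D y := fwd_nc hx n
  set ζ := ‖y - c‖ with hζ
  have hζ0 : 0 < ζ := by
    rw [hζ, norm_pos_iff, sub_ne_zero]
    intro h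
    refine hx.2 n ?_
    rw [← hy, h]
    exact cr_S D hc
  have hζhalf : ζ ≤ 1 / 2 := hz.trans (min_le_left _ _)
  have hζr : ζ ≤ D.r0 / 2 := hz.trans (min_le_right _ _)
  have hyc : y ∈ ball c D.r0 := by
    rw [mem_ball, dist_eq_norm]
    linarith
  have hG : ∀ k : ℕ, D.f^[k] y ∈ D.G := fun k => D.hU (J_th D (it_J D hyNC.1 k) D.hδ)
  have hM2 := M_two D hc
  have hMs : D.M c = (D.M c - 1) + 1 := by omega
  have hτ1 := D.hτ c hc
  obtain ⟨b, hb⟩ : ∃ b, b = D.τ c := ⟨_, rfl⟩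
  rw [← hb] at hτ1 ⊢
  have hτT : (D.τ c : ℝ) ≤ T := by
    rw [hT]
    exact_mod_cast Finset.single_le_sum (f := D.τ) (fun _ _ => Nat.zero_le _) (cr_S D hc)
  have hsumA : ζ * ∑ j ∈ Finset.range b, ‖deriv (D.f^[j]) y‖ / D.zt (D.f^[j] y) ≤ A := by
    rw [Finset.mul_sum]
    refine (Finset.sum_le_card_nsmul _ _ D.C ?_).trans ?_
    · intro j hj
      have h1 := D.p3 c hc y hyc j (by rw [← hb]; exact Finset.mem_range.1 hj)
      have h2 : 0 < D.zt (D.f^[j] y) := zt_pos D (hyNC.2 j)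
      rw [mul_div_assoc', div_le_iff₀ h2, mul_comm]
      exact h1
    · rw [Finset.card_range, nsmul_eq_mul, hb]
      have := mul_le_mul_of_nonneg_right hτT (by linarith : 0 ≤ D.C)
      have h2 : 0 ≤ D.C ^ 2 := by positivity
      linarith
  have hR0 : 0 < a0 * ζ := by positivity
  have hnaR : a0 * ζ * ∑ j ∈ Finset.range b, ‖deriv (D.f^[j]) y‖ / D.zt (D.f^[j] y) ≤ ε1 := by
    rw [mul_assoc, ← ha0A]
    exact mul_le_mul_of_nonneg_left hsumA ha0pos.le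
  have hna := hna4 y (a0 * ζ) b hR0
    (fun k _ => ⟨J_th D (it_J D hyNC.1 k) (by linarith), hyNC.2 k⟩)
    (hnaR.trans (min_le_left _ _))
  have hΛne : deriv (D.f^[b]) y ≠ 0 := it_ne' D fun i _ =>
    ⟨J_th D (it_J D hyNC.1 i) D.hδ, hyNC.2 i⟩
  set Λ := ‖deriv (D.f^[b]) y‖ with hΛ
  have hΛ0 : 0 < Λ := norm_pos_iff.2 hΛne
  set ρ : ℝ := min (a0 * ζ) (r / 2) with hρ
  have hρ0 : 0 < ρ := lt_min hR0 (by linarith)
  have hsubρ : ball y ρ ⊆ ball y (a0 * ζ) := ball_subset_ball (min_le_left _ _)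
  obtain ⟨H, hHd, hH, hHy⟩ := fwd_inv (F := D.f^[b]) (y := y) hρ0
    (fun z hz => it_diff D fun i hi => D.hU ((hna b le_rfl z (hsubρ hz)).1 i hi)) hΛne
    (fun z hz => (hna b le_rfl z (hsubρ hz)).2.1)
  have hFy : D.f^[b] y = D.f^[n + b] x := by
    rw [hy, ← Function.iterate_add_apply, add_comm]
  rw [hFy] at hHd hH hHy
  set r' : ℝ := Λ * ρ / 2 with hr'
  have hr'0 : 0 < r' := by positivity
  -- the radius is small
  have hr'δ : r' ≤ D.δ := by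
    have hb1 : b = (b - 1) + 1 := by omega
    have h1 : Λ ≤ D.L * ‖deriv (D.f^[b - 1]) y‖ := by
      have h2 := it_succ D (z := y) (n := b - 1) (fun k _ => hG k)
      rw [← hb1] at h2
      rw [hΛ, h2, norm_mul]
      exact mul_le_mul_of_nonneg_right (D.hLf _ (J_th D (it_J D hyNC.1 _) D.hδ)) (norm_nonneg _)
    have hzt : 0 < D.zt (D.f^[b - 1] y) := zt_pos D (hyNC.2 _)
    have h3 : a0 * ζ * (‖deriv (D.f^[b - 1]) y‖ / D.zt (D.f^[b - 1] y)) ≤ ε1 := by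
      refine le_trans (mul_le_mul_of_nonneg_left ?_ hR0.le) hnaR
      exact Finset.single_le_sum (f := fun j => ‖deriv (D.f^[j]) y‖ / D.zt (D.f^[j] y))
        (fun j _ => div_nonneg (norm_nonneg _) (zt_nonneg D _))
        (Finset.mem_range.2 (by omega))
    have h4 : a0 * ζ * ‖deriv (D.f^[b - 1]) y‖ ≤ ε1 * Z := by
      rw [mul_div_assoc', div_le_iff₀ hzt] at h3
      exact h3.trans (mul_le_mul_of_nonneg_left
        (hZ _ (J_th D (it_J D hyNC.1 _) D.hδ)) hε1pos.le)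
    have h5 : ε1 * (D.L * Z) ≤ D.δ := by
      have h6 : ε1 ≤ D.δ / (D.L * Z) := min_le_right _ _
      rwa [le_div_iff₀ (by positivity)] at h6
    have h6 : Λ * ρ ≤ D.δ := by
      calc Λ * ρ ≤ (D.L * ‖deriv (D.f^[b - 1]) y‖) * (a0 * ζ) :=
            mul_le_mul h1 (min_le_left _ _) hρ0.le (by positivity)
        _ = D.L * (a0 * ζ * ‖deriv (D.f^[b - 1]) y‖) := by ring
        _ ≤ D.L * (ε1 * Z) := mul_le_mul_of_nonneg_left h4 (by linarith)
        _ = ε1 * (D.L * Z) := by ring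
        _ ≤ D.δ := h5
    rw [hr']
    have : 0 ≤ Λ * ρ := by positivity
    linarith
  have hUU : UU D x (n + b) r' := fwd_fam hx hr (min_le_right _ _) hr'0 hr'δ hU hHd hH hHy
    (fun w hw i hi => (hna b le_rfl _ (hsubρ (hH w hw).1)).1 i hi)
  refine ⟨r', hr'0, hUU, ?_⟩
  have h2 : D.zt (D.f^[n + b] x) ≤ D.C * ζ ^ D.M c := by
    have h3 := (D.p1 c hc y hyc).1
    rw [← hFy, hb]
    exact (zt_le D (pa_S D (D.hτl c hcl)) _).trans h3
  have h3 : ζ ^ D.M c ≤ D.C * (Λ * ζ) := by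
    have h5 := (D.p2 c hc y hyc).2
    rw [← hb, ← hΛ] at h5
    calc ζ ^ D.M c = ζ ^ (D.M c - 1) * ζ := by
          conv_lhs => rw [hMs, pow_succ]
      _ ≤ (D.C * Λ) * ζ := mul_le_mul_of_nonneg_right h5 hζ0.le
      _ = D.C * (Λ * ζ) := by ring
  have hmin0 : 0 ≤ min 1 (r / ζ) := le_min zero_le_one (by positivity)
  have h4 : ζ * min 1 (r / ζ) ≤ 2 / a0 * ρ := by
    have h5 : ζ * min 1 (r / ζ) ≤ ζ := mul_le_of_le_one_right hζ0.le (min_le_left _ _)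
    have h6 : ζ * min 1 (r / ζ) ≤ r := by
      calc ζ * min 1 (r / ζ) ≤ ζ * (r / ζ) :=
            mul_le_mul_of_nonneg_left (min_le_right _ _) hζ0.le
        _ = r := by field_simp
    rw [div_mul_eq_mul_div, le_div_iff₀ ha0pos]
    rcases le_total (a0 * ζ) (r / 2) with h7 | h7
    · rw [hρ, min_eq_left h7]
      nlinarith
    · rw [hρ, min_eq_right h7]
      nlinarith
  calc D.zt (D.f^[n + b] x) * min 1 (r / ζ)
      ≤ (D.C * (D.C * (Λ * ζ))) * min 1 (r / ζ) := by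
        apply mul_le_mul_of_nonneg_right _ hmin0
        exact h2.trans (mul_le_mul_of_nonneg_left h3 (by linarith))
    _ = D.C ^ 2 * Λ * (ζ * min 1 (r / ζ)) := by ring
    _ ≤ D.C ^ 2 * Λ * (2 / a0 * ρ) := by
        apply mul_le_mul_of_nonneg_left h4
        positivity
    _ = 4 * D.C ^ 2 / a0 * r' := by
        rw [hr']
        field_simp
        ring

end Pool.Agent.H44.DP
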