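import Pool.Agent.H44.DP.ITR

/-!
# The attracted set: the complement of the closure of the attracted set is empty (definitions)

`PsA`: the data `Ps` together with the set `A` of the attracted points (attracted by attracting or parabolic cycles,
without landing). `A` is open, `J` is its boundary, and the complement of `A` is bounded, contained in `G` and
invariant. `EE X` is the interior of the complement of `A`; the chapter F proves that it is empty.
-/

set_option autoImplicit false

open Filter Topology Metric Set

namespace Pool.Agent.H44.DP

/-- the data near the Julia set and the attracted set -/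
structure PsA extends Ps where
  A : Set ℂ
  hAo : IsOpen A
  hAJ : J = frontier A
  hAb : Bornology.IsBounded Aᶜ
  hAG : ∀ z, z ∉ A → z ∈ G
  hAf : ∀ z, z ∉ A → f z ∉ A
  /-- the critical points which are not attracted are in `J` -/
  hAd : ∀ z, z ∉ A → z ∉ J → deriv f z ≠ 0
  /-- a point which attracts a neighbourhood is attracted -/
  snk : ∀ (x : ℂ) (s : ℝ) (m : ℕ), 0 < s → 1 ≤ m → (∀ w ∈ ball x s, w ∉ A) →
    ¬ ∀ w ∈ ball x s, Tendsto (fun j : ℕ => f^[m * j] w) atTop (𝓝 x)
  /-- near a parabolic point the points which are not attracted are in the cones -/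
  con : ∀ p ∈ Pa, ∀ ε : ℝ, 0 < ε → ∃ r : ℝ, 0 < r ∧ ∀ z ∈ ball p r, z ≠ p →
    (ap p * (z - p) ^ qp p).re ≤ (1 - ε) * ‖ap p * (z - p) ^ qp p‖ → z ∈ A

/-- the interior of the set of the points which are not attracted -/
def EE (X : PsA) : Set ℂ := interior X.Aᶜ

end Pool.Agent.H44.DP
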