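import Mathlib

/-!
# Module GNUM: numbers for GOOD1
-/

set_option autoImplicit false

open Filter Topology

namespace Pool.Agent.H44.DP

theorem gn_ev {β η : ℝ} (hβ : 0 < β) (hη : 0 < η) :
    ∃ N : ℕ, ∀ J ≥ N, (2 : ℝ) ^ (-(β * (J : ℝ))) ≤ η := by
  have h1 : Tendsto (fun J : ℕ => (2 : ℝ) ^ (-(β * (J : ℝ)))) atTop (𝓝 0) := by
    have h2 : (fun J : ℕ => (2 : ℝ) ^ (-(β * (J : ℝ)))) = fun J : ℕ => ((2 : ℝ) ^ (-β)) ^ J := by
      funext J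
      rw [← Real.rpow_natCast, ← Real.rpow_mul (by norm_num)]
      congr 1
      ring
    rw [h2]
    refine tendsto_pow_atTop_nhds_zero_of_lt_one (by positivity) ?_
    exact Real.rpow_lt_one_of_one_lt_of_neg (by norm_num) (by linarith)
  have h3 := h1.eventually (eventually_le_nhds hη)
  exact eventually_atTop.1 h3

theorem gn_pow (x : ℝ) (n : ℕ) : ((2 : ℝ) ^ x) ^ n = (2 : ℝ) ^ (x * n) := by
  rw [Real.rpow_mul (by norm_num), Real.rpow_natCast]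

theorem gnum {a b Cg c' t0 A θ η3 η4 ηu : ℝ} {Nb M : ℕ} (hCg : 0 ≤ Cg)
    (ht0 : 0 < t0) (hA : 1 ≤ A) (hθ : 0 < θ) (hη3 : 0 < η3) (hη4 : 0 < η4) (hηu : 0 < ηu)
    (hM : 1 ≤ M) (h1 : 5 * c' * (2 * (Nb : ℝ) + Cg * a) ≤ 1 / 2)
    (h2 : 5 * c' * (Nb : ℝ) ≤ θ / (4 * (M : ℝ))) :
    ∃ J2 : ℕ, ∀ J1 : ℕ, J2 ≤ J1 → ∀ U : ℝ, 0 ≤ U → t0 * U ^ M ≤ (2 : ℝ) ^ (-(J1 : ℝ)) →
      U ≤ ηu ∧ U ^ (θ / 2) ≤ η3 * ((2 : ℝ) ^ (-(5 * c' * (J1 : ℝ)))) ^ Nb ∧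
      ∀ i t : ℝ, 0 ≤ i → i * ((2 : ℝ) ^ (-(5 * c' * (J1 : ℝ)))) ^ Nb ≤ Real.exp b →
        t ≤ a * Real.log (1 / (2 : ℝ) ^ (-(5 * c' * (J1 : ℝ)))) + b →
          i * (A * (2 * U) ^ M) * Real.exp (Cg * t) ≤
            η4 * ((2 : ℝ) ^ (-(5 * c' * (J1 : ℝ)))) ^ Nb := by
  have hMr : (0 : ℝ) < M := by exact_mod_cast hM
  have hβ : 0 < θ / (4 * (M : ℝ)) := by positivity
  obtain ⟨N1, hN1⟩ := gn_ev (β := 1) one_pos (show 0 < t0 * ηu ^ M by positivity)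
  obtain ⟨N2, hN2⟩ := gn_ev (β := θ / (4 * (M : ℝ))) hβ
    (show 0 < η3 * t0 ^ (θ / (2 * (M : ℝ))) by positivity)
  obtain ⟨N3, hN3⟩ := gn_ev (β := 1 / 2) (by norm_num)
    (show 0 < η4 * t0 / (A * 2 ^ M * Real.exp (Cg * b) * Real.exp b) by positivity)
  refine ⟨N1 + N2 + N3, ?_⟩
  intro J1 hJ1 U hU hUM
  have E1 := hN1 J1 (by omega)
  have E2 := hN2 J1 (by omega)
  have E3 := hN3 J1 (by omega)
  clear hN1 hN2 hN3
  rw [one_mul] at E1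
  have hJ0 : (0 : ℝ) ≤ J1 := Nat.cast_nonneg _
  refine ⟨?_, ?_, ?_⟩
  · have h3 : U ^ M ≤ ηu ^ M := le_of_mul_le_mul_left (hUM.trans E1) ht0
    exact le_of_pow_le_pow_left₀ (by omega) hηu.le h3
  · have h3 : U ^ (θ / 2) = (U ^ M) ^ (θ / (2 * (M : ℝ))) := by
      rw [← Real.rpow_natCast, ← Real.rpow_mul hU]
      congr 1
      field_simp
    have h4 : 0 < t0 ^ (θ / (2 * (M : ℝ))) := by positivity
    have h5 : t0 ^ (θ / (2 * (M : ℝ))) * (U ^ M) ^ (θ / (2 * (M : ℝ))) ≤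
        ((2 : ℝ) ^ (-(J1 : ℝ))) ^ (θ / (2 * (M : ℝ))) := by
      rw [← Real.mul_rpow ht0.le (by positivity)]
      exact Real.rpow_le_rpow (by positivity) hUM (by positivity)
    have h6 : ((2 : ℝ) ^ (-(J1 : ℝ))) ^ (θ / (2 * (M : ℝ))) =
        (2 : ℝ) ^ (-(θ / (4 * (M : ℝ)) * (J1 : ℝ))) * (2 : ℝ) ^ (-(θ / (4 * (M : ℝ)) * (J1 : ℝ))) := by
      rw [← Real.rpow_mul (by norm_num), ← Real.rpow_add (by norm_num)]
      congr 1
      field_simp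
      ring
    have h7 : (2 : ℝ) ^ (-(θ / (4 * (M : ℝ)) * (J1 : ℝ))) ≤
        ((2 : ℝ) ^ (-(5 * c' * (J1 : ℝ)))) ^ Nb := by
      rw [gn_pow]
      refine Real.rpow_le_rpow_of_exponent_le (by norm_num) ?_
      have := mul_le_mul_of_nonneg_right h2 hJ0
      linarith
    have h8 : t0 ^ (θ / (2 * (M : ℝ))) * U ^ (θ / 2) ≤ t0 ^ (θ / (2 * (M : ℝ))) *
        (η3 * ((2 : ℝ) ^ (-(5 * c' * (J1 : ℝ)))) ^ Nb) := by
      rw [h3]
      refine h5.trans ?_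
      rw [h6]
      calc _ ≤ (η3 * t0 ^ (θ / (2 * (M : ℝ)))) * ((2 : ℝ) ^ (-(5 * c' * (J1 : ℝ)))) ^ Nb :=
            mul_le_mul E2 h7 (by positivity) (by positivity)
        _ = _ := by ring
    exact le_of_mul_le_mul_left h8 h4
  · intro i t hi hib ht
    obtain ⟨S, hS⟩ : ∃ S : ℝ, S = ((2 : ℝ) ^ (-(5 * c' * (J1 : ℝ)))) ^ Nb := ⟨_, rfl⟩
    have hS0 : 0 < S := by rw [hS]; positivity
    rw [← hS] at hib ⊢
    have h3 : Real.exp (Cg * t) ≤ Real.exp (Cg * b) * (2 : ℝ) ^ (5 * c' * (Cg * a) * (J1 : ℝ)) := by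
      rw [one_div, Real.log_inv, Real.log_rpow (by norm_num)] at ht
      rw [Real.rpow_def_of_pos (by norm_num : (0 : ℝ) < 2), ← Real.exp_add]
      apply Real.exp_le_exp.2
      have h4 := mul_le_mul_of_nonneg_left ht hCg
      refine h4.trans (le_of_eq ?_)
      ring
    have h4 : (2 * U) ^ M ≤ 2 ^ M * ((2 : ℝ) ^ (-(J1 : ℝ)) / t0) := by
      rw [mul_pow]
      refine mul_le_mul_of_nonneg_left ?_ (by positivity)
      rw [le_div_iff₀ ht0]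
      linarith
    have h5 : i ≤ Real.exp b / S := by
      rw [le_div_iff₀ hS0]
      exact hib
    have h6 : i * (A * (2 * U) ^ M) * Real.exp (Cg * t) ≤
        (Real.exp b / S) * (A * (2 ^ M * ((2 : ℝ) ^ (-(J1 : ℝ)) / t0))) *
          (Real.exp (Cg * b) * (2 : ℝ) ^ (5 * c' * (Cg * a) * (J1 : ℝ))) := by
      have hA0 : 0 ≤ A := by linarith
      refine mul_le_mul (mul_le_mul h5 (mul_le_mul_of_nonneg_left h4 hA0) (by positivity)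
        (by positivity)) h3 (by positivity) (by positivity)
    refine h6.trans ?_
    have h7 : (2 : ℝ) ^ (-(J1 : ℝ)) * (2 : ℝ) ^ (5 * c' * (Cg * a) * (J1 : ℝ)) ≤
        (2 : ℝ) ^ (-(1 / 2 * (J1 : ℝ))) * (S * S) := by
      rw [hS, gn_pow, ← Real.rpow_add (by norm_num), ← Real.rpow_add (by norm_num),
        ← Real.rpow_add (by norm_num)]
      refine Real.rpow_le_rpow_of_exponent_le (by norm_num) ?_
      have := mul_le_mul_of_nonneg_right h1 hJ0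
      linarith
    have h8 : (Real.exp b / S) * (A * (2 ^ M * ((2 : ℝ) ^ (-(J1 : ℝ)) / t0))) *
          (Real.exp (Cg * b) * (2 : ℝ) ^ (5 * c' * (Cg * a) * (J1 : ℝ))) =
        (A * 2 ^ M * Real.exp (Cg * b) * Real.exp b / (t0 * S)) *
          ((2 : ℝ) ^ (-(J1 : ℝ)) * (2 : ℝ) ^ (5 * c' * (Cg * a) * (J1 : ℝ))) := by
      field_simp
    rw [h8]
    have hK : 0 < A * 2 ^ M * Real.exp (Cg * b) * Real.exp b := by positivity
    calc (A * 2 ^ M * Real.exp (Cg * b) * Real.exp b / (t0 * S)) *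
          ((2 : ℝ) ^ (-(J1 : ℝ)) * (2 : ℝ) ^ (5 * c' * (Cg * a) * (J1 : ℝ)))
        ≤ (A * 2 ^ M * Real.exp (Cg * b) * Real.exp b / (t0 * S)) *
          ((2 : ℝ) ^ (-(1 / 2 * (J1 : ℝ))) * (S * S)) := mul_le_mul_of_nonneg_left h7 (by positivity)
      _ ≤ (A * 2 ^ M * Real.exp (Cg * b) * Real.exp b / (t0 * S)) *
          ((η4 * t0 / (A * 2 ^ M * Real.exp (Cg * b) * Real.exp b)) * (S * S)) :=
          mul_le_mul_of_nonneg_left (mul_le_mul_of_nonneg_right E3 (by positivity)) (by positivity)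
      _ = η4 * S := by field_simp

end Pool.Agent.H44.DP
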