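import Pool.Agent.H44.DP.ITR

/-!
# Module WLP: the Lipschitz constant in terms of the weight

PROOF. `c` from `wt_near`, `r1 = min (δ / 4) (1 / 4)`, `q' = Qx` (every `qp p ≤ Qx`). Let `B = closedBall z (r1 * dd z)`, convex; `dd z ≤ 1`, so `B ⊆ thickening δ J` (`th_add`, `δ / 4 < δ / 2`).
Case `dd z < r0 / 2` (`< 1`): `dd z = ‖z - p‖`, `p ∈ Pa` (`dd_ex`), `‖w - p‖ ≤ (5/4) ‖z - p‖ < r0` for `w ∈ B`: `‖deriv f w‖ ≤ exp (C ‖w - p‖ ^ q) ≤ exp (C (5/4)^Qx ‖z - p‖ ^ q) ≤ exp (C (5/4)^Qx / c * wt z)` (`D.b3`, `q = qp p`).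
Case `r0 / 2 ≤ dd z`: `wt z ≥ dd z ^ Qx ≥ (min 1 (r0 / 2)) ^ Qx` (`wt_dd`), `‖deriv f w‖ ≤ L ≤ exp (Cg * wt z)` for `Cg ≥ log L / (min 1 (r0/2)) ^ Qx`. Mean value inequality on `B` (`Convex.norm_image_sub_le_of_norm_deriv_le`; `f` is differentiable on `thickening δ J ⊆ G`).
-/

set_option autoImplicit false

open Filter Topology Metric Set

namespace Pool.Agent.H44.DP

theorem wlp (D : Ps) : ∃ Cg r1 : ℝ, 1 ≤ Cg ∧ 0 < r1 ∧ r1 ≤ D.δ / 4 ∧ r1 ≤ 1 / 4 ∧
    ∀ z ∈ thickening (D.δ / 2) D.J, ∀ w w' : ℂ, ‖w - z‖ ≤ r1 * D.dd z → ‖w' - z‖ ≤ r1 * D.dd z →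
      w ∈ thickening D.δ D.J ∧ ‖D.f w - D.f w'‖ ≤ Real.exp (Cg * D.wt z) * ‖w - w'‖ := by
  obtain ⟨c, hc0, hc1, hnear⟩ := wt_near D
  have hδ := D.hδ
  have hδ1 := D.hδ1
  have hr0 := D.hr0
  have hr1 := D.hr1
  have hC := D.hC
  have hL := D.hL
  have hQ : ∀ p ∈ D.Pa, D.qp p ≤ D.Qx := fun p hp =>
    Finset.single_le_sum (f := D.qp) (fun _ _ => Nat.zero_le _) hp
  have hm0 : 0 < (D.r0 / 2) ^ D.Qx := by positivity
  obtain ⟨Cg, hCg⟩ : ∃ Cg : ℝ, Cg = max 1 (max (D.C * (5 / 4) ^ D.Qx / c)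
      (Real.log D.L / (D.r0 / 2) ^ D.Qx)) := ⟨_, rfl⟩
  have g1 : 1 ≤ Cg := by rw [hCg]; exact le_max_left _ _
  have g2 : D.C * (5 / 4) ^ D.Qx / c ≤ Cg := by
    rw [hCg]; exact (le_max_left _ _).trans (le_max_right _ _)
  have g3 : Real.log D.L / (D.r0 / 2) ^ D.Qx ≤ Cg := by
    rw [hCg]; exact (le_max_right _ _).trans (le_max_right _ _)
  refine ⟨Cg, min (D.δ / 4) (1 / 4), g1, by positivity, min_le_left _ _, min_le_right _ _, ?_⟩
  intro z hz w w' hw hw'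
  have hd0 := dd_nonneg D z
  have hd1 := dd_le_one D z
  have hr1δ : min (D.δ / 4) (1 / 4) * D.dd z ≤ D.δ / 4 := by
    calc min (D.δ / 4) (1 / 4) * D.dd z ≤ D.δ / 4 * 1 :=
          mul_le_mul (min_le_left _ _) hd1 hd0 (by positivity)
      _ = D.δ / 4 := mul_one _
  have hr14 : min (D.δ / 4) (1 / 4) * D.dd z ≤ 1 / 4 * D.dd z :=
    mul_le_mul_of_nonneg_right (min_le_right _ _) hd0
  have hth : ∀ u ∈ closedBall z (min (D.δ / 4) (1 / 4) * D.dd z), u ∈ thickening D.δ D.J := by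
    intro u hu
    rw [mem_closedBall, dist_eq_norm] at hu
    have h1 := th_add hz (show ‖u - z‖ < D.δ / 2 by linarith)
    rwa [add_halves] at h1
  have hder : ∀ u ∈ closedBall z (min (D.δ / 4) (1 / 4) * D.dd z),
      ‖deriv D.f u‖ ≤ Real.exp (Cg * D.wt z) := by
    intro u hu
    have hu2 := hth u hu
    rw [mem_closedBall, dist_eq_norm] at hu
    rcases lt_or_ge (D.dd z) (D.r0 / 2) with hlt | hge
    · rcases dd_ex D z with h1 | ⟨p, hp, h1⟩
      · exfalso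
        linarith
      · have h2 : ‖u - p‖ ≤ 5 / 4 * ‖z - p‖ := by
          have e : u - p = (u - z) + (z - p) := by ring
          rw [e]
          have := norm_add_le (u - z) (z - p)
          rw [h1] at hu hr14
          linarith
        have h3 : u ∈ ball p D.r0 := by
          rw [mem_ball, dist_eq_norm]
          linarith
        have h4 := D.b3 p hp u h3
        refine h4.trans (Real.exp_le_exp.2 ?_)
        have h5 : c * ‖z - p‖ ^ D.qp p ≤ D.wt z := hnear p hp z (by linarith)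
        have h6 : ‖u - p‖ ^ D.qp p ≤ (5 / 4) ^ D.Qx * ‖z - p‖ ^ D.qp p := by
          calc ‖u - p‖ ^ D.qp p ≤ (5 / 4 * ‖z - p‖) ^ D.qp p :=
                pow_le_pow_left₀ (norm_nonneg _) h2 _
            _ = (5 / 4) ^ D.qp p * ‖z - p‖ ^ D.qp p := mul_pow _ _ _
            _ ≤ (5 / 4) ^ D.Qx * ‖z - p‖ ^ D.qp p := by
                apply mul_le_mul_of_nonneg_right _ (by positivity)
                exact pow_le_pow_right₀ (by norm_num) (hQ p hp)
        have h7 : ‖z - p‖ ^ D.qp p ≤ D.wt z / c := by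
          rw [le_div_iff₀ hc0]
          linarith
        calc D.C * ‖u - p‖ ^ D.qp p ≤ D.C * ((5 / 4) ^ D.Qx * (D.wt z / c)) := by
              apply mul_le_mul_of_nonneg_left _ (by linarith)
              exact h6.trans (mul_le_mul_of_nonneg_left h7 (by positivity))
          _ = D.C * (5 / 4) ^ D.Qx / c * D.wt z := by ring
          _ ≤ Cg * D.wt z := mul_le_mul_of_nonneg_right g2 (wt_nonneg D z)
    · have h1 := D.hLf u hu2
      refine h1.trans ?_
      rw [← Real.exp_log (show 0 < D.L by linarith)]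
      refine Real.exp_le_exp.2 ?_
      have h2 : (D.r0 / 2) ^ D.Qx ≤ D.wt z :=
        (pow_le_pow_left₀ (by positivity) hge _).trans (wt_dd D z)
      have hlog : 0 ≤ Real.log D.L := Real.log_nonneg hL
      calc Real.log D.L = Real.log D.L / (D.r0 / 2) ^ D.Qx * (D.r0 / 2) ^ D.Qx := by
            field_simp
        _ ≤ Cg * D.wt z := mul_le_mul g3 h2 hm0.le (by linarith)
  have hwB : w ∈ closedBall z (min (D.δ / 4) (1 / 4) * D.dd z) := by
    rw [mem_closedBall, dist_eq_norm]; exact hw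
  have hwB' : w' ∈ closedBall z (min (D.δ / 4) (1 / 4) * D.dd z) := by
    rw [mem_closedBall, dist_eq_norm]; exact hw'
  refine ⟨hth w hwB, ?_⟩
  exact Convex.norm_image_sub_le_of_norm_deriv_le
    (fun u hu => D.hf.differentiableAt (D.hG.mem_nhds (D.hU (hth u hu)))) hder
    (convex_closedBall z _) hwB' hwB

end Pool.Agent.H44.DP
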