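import Pool.Agent.H44.DP.EXG
import Pool.Agent.H44.DP.WLP

/-!
# Module GSC: a good scale

PROOF. `a', b', δ1, δ2, N'` from `exit_exp`, `Cg, rw` from `wlp`, `r2 = min δ2 rw` (and `≤ ϑ/2`), `R ≥ 1` a bound for the norms of the points of `thickening δ J` and of the images of `thickening (δ/2) J` (`gsc_R` of H44/DN/GSC, copy). Fix `r1`. `Δ_j = ball x (ρ / 2^j)`, `G_i u = f^[i] (h u)`, `κ = σ ^ (N' + 1) / (2 exp b')` (`≤ σ ^ N' / exp b'` and `≤ σ / 2`), `B = a' log (1/σ) + b'`.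
(1) Call `i` an exit time if `¬ (G_i x ∈ V1 ∧ G_i x ∈ thickening δ1 J)` or `r1 dd (G_i x) < ‖G_i u - G_i x‖` for some `u ∈ Δ_N`. There is one: otherwise `exit_exp` (point `h x`, radius `σ`, every `w ∈ ball (h x) σ` is `h u` with `u ∈ Δ_N`) gives `TT (h x) k ≤ B`, `κ ≤ dd (G_i x)` for all `k`, `i`, so `k κ ^ Qx ≤ TT (h x) k ≤ B` (`wt_dd`) for all `k`, impossible. Let `i1` be the least one.
(2) If `i1 ≥ 1`, `exit_exp` with `k = i1 - 1`: `TT (h x) i1 ≤ B + 1` (`TT_succ`, `wt_le_one`), `κ ≤ dd (G_i x)` for `i < i1`, hence `i1 κ ^ Qx ≤ B + 1 ≤ (a' + b' + 1) / σ`, and for every `i ≤ i1` there is `u ∈ Δ_N` with `κ ≤ ‖G_i u - G_i x‖`. For `i1 = 0` the last statement holds because `ball (h x) σ` contains a point at distance `σ / 2` from `h x`.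
(3) If `‖G_i1 u - G_i1 x‖ ≤ r1 dd (G_i1 x)` for all `u ∈ Δ_N`: `j = N`, `i = i1`, first alternative (`dd (G_i1 x) ≥ κ / r1 ≥ κ`). For `i1 = 0` this is the case (hypothesis on `h`).
(4) Otherwise for `j ≤ N` let `n_j` be the least `i` such that `r1 dd (G_i x) < ‖G_i u - G_i x‖` for some `u ∈ Δ_j`: `1 ≤ n_0`, `n_j ≤ n_(j+1)`, `n_N = i1`. Let `α_j = sSup {‖G_(n_j) u - G_(n_j) x‖ | u ∈ Δ_j}` and `β_j` the same with `Δ_(j+1)` (same time `n_j`); these sets are bounded by `2 R` (the points at the times `< n_j` are in `V ⊆ thickening (δ/2) J`: `‖G_l u - G_l x‖ ≤ r1 dd (G_l x)`, `r1 ≤ δ2 ≤ ϑ/2`, `D.hVV`, `G_l x ∉ Pa` since it is in `V1 ⊆ V`); `α_0 ≤ 2 R`, `α_N ≥ κ` (2), and `β_j > 0`, `α_j > 0` (all contain the points for `Δ_N`).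
Growth: for `n_j ≤ l < n_(j+1)` and `u ∈ Δ_(j+1)`: `‖G_l u - G_l x‖ ≤ r1 dd (G_l x)`, so `‖G_(l+1) u - G_(l+1) x‖ ≤ exp (Cg wt (G_l x)) ‖G_l u - G_l x‖` (`wlp`; `G_l x ∈ thickening δ1 J`): `α_(j+1) ≤ exp (Cg (TT (h x) n_(j+1) - TT (h x) n_j)) β_j`.
If `β_j < exp (-Q) α_j` for all `j < N` then `κ ≤ α_N ≤ exp (-Q N) exp (Cg TT (h x) n_N) * 2 R` (induction), so `Q N ≤ log (2 R / κ) + Cg (B + 1)`. With `a > Cg a' + N' + 1` and `b` large this contradicts `a log (1/σ) + b ≤ Q N`. So for some `j < N`: `exp (-Q) α_j ≤ β_j`, and there is `u ∈ Δ_(j+1)` with `‖..‖ ≥ β_j / 2`: second alternative with `i = n_j`, `α = α_j` (`α_j ≥ κ`: it contains the point of (2) at time `n_j`; `r1 dd (G_i x) ≤ α_j` by the definition of `n_j`).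
(5) `Nb = (N' + 1) * (Qx + 1) + 1`, `b` large: `σ ^ Nb ≤ exp b κ`, `i σ ^ Nb ≤ exp b` (`i κ ^ Qx ≤ (a' + b' + 1)/σ`).
-/

set_option autoImplicit false

open Filter Topology Metric Set

namespace Pool.Agent.H44.DP

private theorem gsc_lip (D : Ps) {y z : ℂ} (hy : y ∈ thickening (D.δ / 2) D.J)
    (h : ‖z - y‖ < D.δ / 2) : ‖D.f z - D.f y‖ ≤ D.L * ‖z - y‖ := by
  have hδ := D.hδ
  have hsub : ball y (D.δ / 2) ⊆ thickening D.δ D.J := by
    intro w hw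
    rw [mem_ball, dist_eq_norm] at hw
    have h1 := th_add hy hw
    have h2 : D.δ / 2 + D.δ / 2 = D.δ := by ring
    rw [h2] at h1
    exact h1
  refine Convex.norm_image_sub_le_of_norm_deriv_le (𝕜 := ℂ) (s := ball y (D.δ / 2)) ?_ ?_
    (convex_ball _ _) (mem_ball_self (by linarith)) ?_
  · intro w hw
    exact D.hf.differentiableAt (D.hG.mem_nhds (D.hU (hsub hw)))
  · intro w hw
    exact D.hLf w (hsub hw)
  · rw [mem_ball, dist_eq_norm]
    exact h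

private theorem gsc_R (D : Ps) : ∃ R : ℝ, 0 < R ∧ (∀ z ∈ thickening D.δ D.J, ‖z‖ ≤ R) ∧
    ∀ z ∈ thickening (D.δ / 2) D.J, ‖D.f z‖ ≤ R := by
  have hδ := D.hδ
  have hL := D.hL
  obtain ⟨R0, hR0⟩ := (D.hJ.isBounded.thickening (δ := D.δ)).exists_norm_le
  refine ⟨|R0| + D.L * D.δ, ?_, ?_, ?_⟩
  · have h1 : 0 < D.L * D.δ := by positivity
    have h2 := abs_nonneg R0
    linarith
  · intro z hz
    have h1 : 0 < D.L * D.δ := by positivity
    have h2 := hR0 z hz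
    have h3 := le_abs_self R0
    linarith
  · intro z hz
    rw [mem_thickening_iff] at hz
    obtain ⟨y, hy, hzy⟩ := hz
    rw [dist_eq_norm] at hzy
    have h1 := gsc_lip D (J_th D hy (by linarith)) hzy
    have h2 := hR0 (D.f y) (J_th D (D.hJf y hy) hδ)
    have h3 : ‖D.f z‖ ≤ ‖D.f z - D.f y‖ + ‖D.f y‖ := by
      have := norm_add_le (D.f z - D.f y) (D.f y)
      rwa [sub_add_cancel] at this
    have h4 : D.L * ‖z - y‖ ≤ D.L * D.δ :=
      mul_le_mul_of_nonneg_left (by linarith) (by linarith)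
    have h5 := le_abs_self R0
    linarith

/-- the choice of the scale, abstract form -/
private theorem gsc_scale {N i1 : ℕ} {A : ℕ → ℂ → ℝ} {Δ : ℕ → Set ℂ} {d T : ℕ → ℝ}
    {r1 κ R Cg Q : ℝ} (hΔ : ∀ {j j' : ℕ}, j ≤ j' → Δ j' ⊆ Δ j)
    (hκ : 0 < κ) (hR : 0 < R) (hCg : 0 ≤ Cg) (hT0 : ∀ i, 0 ≤ T i) (hTm : ∀ {i j : ℕ}, i ≤ j → T i ≤ T j)
    (h2 : ∀ i ≤ i1, ∃ u ∈ Δ N, κ ≤ A i u)
    (h3 : ∀ l < i1, ∀ u, A l u ≤ r1 * d l → A (l + 1) u ≤ Real.exp (Cg * (T (l + 1) - T l)) * A l u)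
    (h4 : ∀ j, ∀ i ≤ i1, (∀ l < i, ∀ u ∈ Δ j, A l u ≤ r1 * d l) → ∀ u ∈ Δ j, A i u ≤ R)
    (h5 : ∃ u ∈ Δ N, r1 * d i1 < A i1 u)
    (hQ : Real.exp (-(Q * N)) * Real.exp (Cg * T i1) * R < κ) :
    ∃ j i : ℕ, j < N ∧ i ≤ i1 ∧ (∀ l < i, ∀ u ∈ Δ j, A l u ≤ r1 * d l) ∧
      ∃ α : ℝ, κ ≤ α ∧ r1 * d i ≤ α ∧ (∀ u ∈ Δ j, A i u ≤ α) ∧
        ∃ u ∈ Δ (j + 1), Real.exp (-Q) / 2 * α ≤ A i u := by
  classical
  have hTe : ∀ j ≤ N, ∃ i, ∃ u ∈ Δ j, r1 * d i < A i u := by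
    intro j hj
    obtain ⟨u, hu, h1⟩ := h5
    exact ⟨i1, u, hΔ hj hu, h1⟩
  obtain ⟨n, hn⟩ : ∃ n : ℕ → ℕ, ∀ j (hj : j ≤ N), n j = Nat.find (hTe j hj) := by
    refine ⟨fun j => if hj : j ≤ N then Nat.find (hTe j hj) else 0, ?_⟩
    intro j hj
    simp only [hj, dif_pos]
  have hns : ∀ j ≤ N, ∃ u ∈ Δ j, r1 * d (n j) < A (n j) u := by
    intro j hj
    rw [hn j hj]
    exact Nat.find_spec (hTe j hj)
  have hnm : ∀ j ≤ N, ∀ l < n j, ∀ u ∈ Δ j, A l u ≤ r1 * d l := by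
    intro j hj l hl
    rw [hn j hj] at hl
    have := Nat.find_min (hTe j hj) hl
    push Not at this
    exact this
  have hnle : ∀ j ≤ N, ∀ i, (∃ u ∈ Δ j, r1 * d i < A i u) → n j ≤ i := by
    intro j hj i hi
    rw [hn j hj]
    exact Nat.find_min' (hTe j hj) hi
  have hnN : ∀ j ≤ N, n j ≤ i1 := by
    intro j hj
    apply hnle j hj
    obtain ⟨u, hu, h1⟩ := h5
    exact ⟨u, hΔ hj hu, h1⟩
  have hmono : ∀ j < N, n j ≤ n (j + 1) := by
    intro j hj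
    apply hnle j hj.le
    obtain ⟨u, hu, h1⟩ := hns (j + 1) hj
    exact ⟨u, hΔ (Nat.le_succ j) hu, h1⟩
  have hbd : ∀ j ≤ N, ∀ u ∈ Δ j, A (n j) u ≤ R := fun j hj =>
    h4 j (n j) (hnN j hj) (hnm j hj)
  have hba : ∀ j ≤ N, BddAbove (A (n j) '' Δ j) := by
    intro j hj
    refine ⟨R, ?_⟩
    rintro y ⟨u, hu, rfl⟩
    exact hbd j hj u hu
  have hbb : ∀ j < N, BddAbove (A (n j) '' Δ (j + 1)) := by
    intro j hj
    exact (hba j hj.le).mono (Set.image_mono (hΔ (Nat.le_succ j)))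
  have hka : ∀ j ≤ N, κ ≤ sSup (A (n j) '' Δ j) := by
    intro j hj
    obtain ⟨u, hu, h1⟩ := h2 (n j) (hnN j hj)
    exact h1.trans (le_csSup (hba j hj) ⟨u, hΔ hj hu, rfl⟩)
  have hkb : ∀ j < N, κ ≤ sSup (A (n j) '' Δ (j + 1)) := by
    intro j hj
    obtain ⟨u, hu, h1⟩ := h2 (n j) (hnN j hj.le)
    exact h1.trans (le_csSup (hbb j hj) ⟨u, hΔ hj hu, rfl⟩)
  have hgr : ∀ j < N, sSup (A (n (j + 1)) '' Δ (j + 1)) ≤
      Real.exp (Cg * (T (n (j + 1)) - T (n j))) * sSup (A (n j) '' Δ (j + 1)) := by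
    intro j hj
    have key : ∀ t, n j + t ≤ n (j + 1) → ∀ u ∈ Δ (j + 1),
        A (n j + t) u ≤ Real.exp (Cg * (T (n j + t) - T (n j))) * sSup (A (n j) '' Δ (j + 1)) := by
      intro t
      induction t with
      | zero =>
        intro _ u hu
        rw [add_zero, sub_self, mul_zero, Real.exp_zero, one_mul]
        exact le_csSup (hbb j hj) ⟨u, hu, rfl⟩
      | succ t ih =>
        intro ht u hu
        have h6 := ih (by omega) u hu
        have h7 := hnm (j + 1) hj (n j + t) (by omega) u hu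
        have h8 := h3 (n j + t) (by have := hnN (j + 1) hj; omega) u h7
        have h9 : Real.exp (Cg * (T (n j + t + 1) - T (n j + t))) * A (n j + t) u ≤
            Real.exp (Cg * (T (n j + t + 1) - T (n j + t))) *
              (Real.exp (Cg * (T (n j + t) - T (n j))) * sSup (A (n j) '' Δ (j + 1))) :=
          mul_le_mul_of_nonneg_left h6 (Real.exp_pos _).le
        refine (h8.trans h9).trans (le_of_eq ?_)
        rw [← mul_assoc, ← Real.exp_add]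
        congr 2
        rw [show n j + (t + 1) = n j + t + 1 from rfl]
        ring
    obtain ⟨t, ht⟩ : ∃ t, n (j + 1) = n j + t := ⟨n (j + 1) - n j, by have := hmono j hj; omega⟩
    obtain ⟨u0, hu0, _⟩ := h2 0 (Nat.zero_le _)
    apply csSup_le
    · exact ⟨_, u0, hΔ hj hu0, rfl⟩
    · rintro y ⟨u, hu, rfl⟩
      have := key t (by omega) u hu
      rw [← ht] at this
      exact this
  obtain ⟨j, hj, hjQ⟩ : ∃ j < N, Real.exp (-Q) * sSup (A (n j) '' Δ j) ≤ sSup (A (n j) '' Δ (j + 1)) := by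
    by_contra hno
    push Not at hno
    have key : ∀ j ≤ N, sSup (A (n j) '' Δ j) ≤
        Real.exp (-(Q * j)) * Real.exp (Cg * T (n j)) * R := by
      intro j
      induction j with
      | zero =>
        intro hj
        obtain ⟨u0, hu0, _⟩ := h2 0 (Nat.zero_le _)
        have h6 : sSup (A (n 0) '' Δ 0) ≤ R := by
          apply csSup_le
          · exact ⟨_, u0, hΔ hj hu0, rfl⟩
          · rintro y ⟨u, hu, rfl⟩
            exact hbd 0 hj u hu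
        have h7 : 1 ≤ Real.exp (Cg * T (n 0)) := Real.one_le_exp (mul_nonneg hCg (hT0 _))
        rw [Nat.cast_zero, mul_zero, neg_zero, Real.exp_zero, one_mul]
        nlinarith
      | succ j ih =>
        intro hj
        have h6 := ih (by omega)
        have h7 := hno j (by omega)
        have h8 := hgr j (by omega)
        have h9 : Real.exp (Cg * (T (n (j + 1)) - T (n j))) * sSup (A (n j) '' Δ (j + 1)) ≤
            Real.exp (Cg * (T (n (j + 1)) - T (n j))) *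
              (Real.exp (-Q) * (Real.exp (-(Q * j)) * Real.exp (Cg * T (n j)) * R)) := by
          apply mul_le_mul_of_nonneg_left _ (Real.exp_pos _).le
          refine h7.le.trans ?_
          exact mul_le_mul_of_nonneg_left h6 (Real.exp_pos _).le
        refine (h8.trans h9).trans (le_of_eq ?_)
        have e1 : Real.exp (Cg * (T (n (j + 1)) - T (n j))) * Real.exp (Cg * T (n j)) =
            Real.exp (Cg * T (n (j + 1))) := by
          rw [← Real.exp_add]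
          congr 1
          ring
        have e2 : Real.exp (-Q) * Real.exp (-(Q * j)) = Real.exp (-(Q * ((j + 1 : ℕ) : ℝ))) := by
          rw [← Real.exp_add]
          congr 1
          push_cast
          ring
        rw [← e1, ← e2]
        ring
    have h6 := key N le_rfl
    have h7 := hka N le_rfl
    have h8 : Real.exp (Cg * T (n N)) ≤ Real.exp (Cg * T i1) :=
      Real.exp_le_exp.2 (mul_le_mul_of_nonneg_left (hTm (hnN N le_rfl)) hCg)
    have h9 : Real.exp (-(Q * N)) * Real.exp (Cg * T (n N)) * R ≤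
        Real.exp (-(Q * N)) * Real.exp (Cg * T i1) * R :=
      mul_le_mul_of_nonneg_right (mul_le_mul_of_nonneg_left h8 (Real.exp_pos _).le) hR.le
    linarith
  refine ⟨j, n j, hj, hnN j hj.le, hnm j hj.le, sSup (A (n j) '' Δ j), hka j hj.le, ?_, ?_, ?_⟩
  · obtain ⟨u, hu, h1⟩ := hns j hj.le
    exact h1.le.trans (le_csSup (hba j hj.le) ⟨u, hu, rfl⟩)
  · intro u hu
    exact le_csSup (hba j hj.le) ⟨u, hu, rfl⟩
  · have hb0 : 0 < sSup (A (n j) '' Δ (j + 1)) := lt_of_lt_of_le hκ (hkb j hj)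
    have hlt : sSup (A (n j) '' Δ (j + 1)) / 2 < sSup (A (n j) '' Δ (j + 1)) := by linarith
    obtain ⟨u0, hu0, _⟩ := h2 0 (Nat.zero_le _)
    obtain ⟨y, ⟨u, hu, rfl⟩, hy⟩ := exists_lt_of_lt_csSup
      (⟨_, u0, hΔ hj hu0, rfl⟩ : (A (n j) '' Δ (j + 1)).Nonempty) hlt
    refine ⟨u, hu, ?_⟩
    have : Real.exp (-Q) / 2 * sSup (A (n j) '' Δ j) =
        (Real.exp (-Q) * sSup (A (n j) '' Δ j)) / 2 := by ring
    rw [this]
    linarith

/-- the constants -/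
private theorem gsc_const {a' b' Cg R : ℝ} {N' Qx : ℕ} (ha : 0 < a') (hb : 0 < b') (hCg : 1 ≤ Cg)
    (hR : 0 < R) : ∃ (a b : ℝ) (Nb : ℕ), 0 < a ∧ 0 < b ∧ ∀ (σ : ℝ), 0 < σ → σ ≤ 1 / 2 →
      (a' * Real.log (1 / σ) + b' + 1 ≤ a * Real.log (1 / σ) + b) ∧
      (σ ^ Nb ≤ Real.exp b * (σ ^ (N' + 1) / (2 * Real.exp b'))) ∧
      (∀ i : ℝ, 0 ≤ i → i * (σ ^ (N' + 1) / (2 * Real.exp b')) ^ Qx ≤
        a' * Real.log (1 / σ) + b' + 1 → i * σ ^ Nb ≤ Real.exp b) ∧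
      (∀ q T : ℝ, a * Real.log (1 / σ) + b ≤ q → T ≤ a' * Real.log (1 / σ) + b' + 1 →
        Real.exp (-q) * Real.exp (Cg * T) * R < σ ^ (N' + 1) / (2 * Real.exp b')) := by
  obtain ⟨W, hW⟩ : ∃ W, W = (a' + b' + 1) * (2 * Real.exp b') ^ Qx := ⟨_, rfl⟩
  have hW0 : 0 < W := by
    rw [hW]
    positivity
  refine ⟨Cg * a' + N' + 1, Cg * (b' + 1) + 2 * R + b' + 1 + W, (N' + 1) * (Qx + 1) + 1, ?_, ?_, ?_⟩
  · have : 0 < Cg * a' := by positivity
    positivity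
  · have : 0 < Cg * (b' + 1) := by positivity
    positivity
  · intro σ hσ hσ2
    obtain ⟨Λ, hΛ⟩ : ∃ Λ, Λ = Real.log (1 / σ) := ⟨_, rfl⟩
    have hΛ0 : 0 ≤ Λ := by
      rw [hΛ]
      apply Real.log_nonneg
      rw [le_div_iff₀ hσ]
      linarith
    have hσe : σ = Real.exp (-Λ) := by
      rw [hΛ, one_div, Real.log_inv, neg_neg, Real.exp_log hσ]
    have hΛs : Λ * σ ≤ 1 := by
      have h1 : Λ ≤ 1 / σ := by
        rw [hΛ]
        exact (Real.log_le_sub_one_of_pos (by positivity)).trans (by linarith)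
      rw [le_div_iff₀ hσ] at h1
      exact h1
    rw [← hΛ]
    have hN0 : (0 : ℝ) ≤ N' := Nat.cast_nonneg _
    have hCb : b' + 1 ≤ Cg * (b' + 1) := le_mul_of_one_le_left (by linarith) hCg
    have hCa : a' ≤ Cg * a' := le_mul_of_one_le_left ha.le hCg
    have hσN : σ ^ ((N' + 1) * (Qx + 1) + 1) ≤ σ ^ (N' + 1) :=
      pow_le_pow_of_le_one hσ.le (by linarith) (by nlinarith [Nat.zero_le (N' * Qx), Nat.zero_le Qx])
    refine ⟨?_, ?_, ?_, ?_⟩
    · have h1 : a' * Λ ≤ (Cg * a' + N' + 1) * Λ := mul_le_mul_of_nonneg_right (by linarith) hΛ0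
      linarith
    · refine hσN.trans ?_
      have h1 : 2 * Real.exp b' ≤ Real.exp (Cg * (b' + 1) + 2 * R + b' + 1 + W) := by
        have h2 : (2 : ℝ) ≤ Real.exp 1 := by
          have := Real.add_one_le_exp (1 : ℝ)
          linarith
        calc 2 * Real.exp b' ≤ Real.exp 1 * Real.exp b' :=
              mul_le_mul_of_nonneg_right h2 (Real.exp_pos _).le
          _ = Real.exp (1 + b') := (Real.exp_add _ _).symm
          _ ≤ _ := Real.exp_le_exp.2 (by linarith)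
      rw [mul_div_assoc']
      rw [le_div_iff₀ (by positivity), mul_comm]
      exact mul_le_mul_of_nonneg_right h1 (by positivity)
    · intro i hi h1
      have h2 : i * σ ^ ((N' + 1) * (Qx + 1) + 1) ≤ i * (σ ^ ((N' + 1) * Qx) * σ) := by
        apply mul_le_mul_of_nonneg_left _ hi
        rw [← pow_succ]
        apply pow_le_pow_of_le_one hσ.le (by linarith)
        nlinarith [Nat.zero_le (N' * Qx), Nat.zero_le Qx]
      have h3 : i * σ ^ ((N' + 1) * Qx) = i * (σ ^ (N' + 1) / (2 * Real.exp b')) ^ Qx *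
          (2 * Real.exp b') ^ Qx := by
        rw [div_pow, pow_mul]
        field_simp
      have h4 : i * σ ^ ((N' + 1) * Qx) ≤ (a' * Λ + b' + 1) * (2 * Real.exp b') ^ Qx := by
        rw [h3]
        exact mul_le_mul_of_nonneg_right h1 (by positivity)
      have h5 : (a' * Λ + b' + 1) * σ ≤ a' + b' + 1 := by
        have h6 : a' * (Λ * σ) ≤ a' * 1 := mul_le_mul_of_nonneg_left hΛs ha.le
        have h7 : (b' + 1) * σ ≤ (b' + 1) * 1 :=
          mul_le_mul_of_nonneg_left (by linarith) (by linarith)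
        nlinarith
      calc i * σ ^ ((N' + 1) * (Qx + 1) + 1) ≤ i * (σ ^ ((N' + 1) * Qx) * σ) := h2
        _ = i * σ ^ ((N' + 1) * Qx) * σ := by ring
        _ ≤ (a' * Λ + b' + 1) * (2 * Real.exp b') ^ Qx * σ :=
            mul_le_mul_of_nonneg_right h4 hσ.le
        _ = (a' * Λ + b' + 1) * σ * (2 * Real.exp b') ^ Qx := by ring
        _ ≤ (a' + b' + 1) * (2 * Real.exp b') ^ Qx := mul_le_mul_of_nonneg_right h5 (by positivity)
        _ = W := hW.symm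
        _ ≤ Real.exp W := (le_add_of_nonneg_right zero_le_one).trans (Real.add_one_le_exp W)
        _ ≤ _ := Real.exp_le_exp.2 (by linarith)
    · intro q T hq hT
      rw [lt_div_iff₀ (by positivity)]
      have h1 : 2 * R < Real.exp (2 * R) := by
        have := Real.add_one_le_exp (2 * R)
        linarith
      have h2 : σ ^ (N' + 1) = Real.exp (-(((N' : ℝ) + 1) * Λ)) := by
        rw [hσe, ← Real.exp_nat_mul]
        congr 1
        push_cast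
        ring
      rw [h2]
      have h3 : Cg * T ≤ Cg * (a' * Λ + b' + 1) := mul_le_mul_of_nonneg_left hT (by linarith)
      calc Real.exp (-q) * Real.exp (Cg * T) * R * (2 * Real.exp b')
          = Real.exp (-q) * Real.exp (Cg * T) * Real.exp b' * (2 * R) := by ring
        _ < Real.exp (-q) * Real.exp (Cg * T) * Real.exp b' * Real.exp (2 * R) :=
            mul_lt_mul_of_pos_left h1 (by positivity)
        _ = Real.exp (-q + Cg * T + b' + 2 * R) := by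
            rw [Real.exp_add, Real.exp_add, Real.exp_add]
        _ ≤ _ := by
            apply Real.exp_le_exp.2
            nlinarith

theorem gsc (D : Ps) : ∃ r2 δ1 R : ℝ, 0 < r2 ∧ r2 ≤ D.ϑ / 2 ∧ 0 < δ1 ∧ δ1 ≤ D.δ / 4 ∧ 0 < R ∧
    ∀ r1 : ℝ, 0 < r1 → r1 ≤ r2 → ∃ (a b : ℝ) (Nb : ℕ), 0 < a ∧ 0 < b ∧
      ∀ (Q : ℝ) (N : ℕ) (h : ℂ → ℂ) (x : ℂ) (ρ σ : ℝ), 0 < Q → 0 < ρ → 0 < σ → σ ≤ 1 / 2 →
        a * Real.log (1 / σ) + b ≤ Q * N →
        (∀ u ∈ ball x ρ, h u ∈ thickening D.δ D.J ∧ ‖h u - h x‖ ≤ r1 * D.dd (h x)) →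
        ball (h x) σ ⊆ h '' ball x (ρ / 2 ^ N) →
        ∃ j i : ℕ, j ≤ N ∧ D.TT (h x) i ≤ a * Real.log (1 / σ) + b ∧
          (i : ℝ) * σ ^ Nb ≤ Real.exp b ∧
          (∀ l < i, D.f^[l] (h x) ∈ D.V1 ∧ D.f^[l] (h x) ∈ thickening δ1 D.J ∧
            σ ^ Nb ≤ Real.exp b * D.dd (D.f^[l] (h x)) ∧
            ∀ u ∈ ball x (ρ / 2 ^ j), ‖D.f^[l] (h u) - D.f^[l] (h x)‖ ≤
              r1 * D.dd (D.f^[l] (h x))) ∧
          (∀ u ∈ ball x (ρ / 2 ^ j), ‖D.f^[i] (h u)‖ ≤ R) ∧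
          ((¬ (D.f^[i] (h x) ∈ D.V1 ∧ D.f^[i] (h x) ∈ thickening δ1 D.J) ∧
              σ ^ Nb ≤ Real.exp b * D.dd (D.f^[i] (h x)) ∧
              ∀ u ∈ ball x (ρ / 2 ^ j), ‖D.f^[i] (h u) - D.f^[i] (h x)‖ ≤
                r1 * D.dd (D.f^[i] (h x))) ∨
            ∃ α : ℝ, σ ^ Nb ≤ Real.exp b * α ∧ r1 * D.dd (D.f^[i] (h x)) ≤ α ∧
              (∀ u ∈ ball x (ρ / 2 ^ j), ‖D.f^[i] (h u) - D.f^[i] (h x)‖ ≤ α) ∧
              ∃ u ∈ ball x (ρ / 2 ^ (j + 1)),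
                Real.exp (-Q) / 2 * α ≤ ‖D.f^[i] (h u) - D.f^[i] (h x)‖) := by
  classical
  obtain ⟨a', b', δ1, δ2, N', ha', hb', hδ1, hδ14, hδ2, hδ24, hδ2ϑ, hδ2q, hex⟩ := exit_exp D
  obtain ⟨Cg, rw0, hCg, hrw, hrwδ, hrwq, hwlp⟩ := wlp D
  obtain ⟨R, hR, hR1, hR2⟩ := gsc_R D
  have hδ := D.hδ
  have hϑ := D.hϑ
  refine ⟨min δ2 rw0, δ1, R, lt_min hδ2 hrw, (min_le_left _ _).trans hδ2ϑ, hδ1, hδ14, hR, ?_⟩
  intro r1 hr1 hr1m
  have hr1a : r1 ≤ δ2 := hr1m.trans (min_le_left _ _)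
  have hr1b : r1 ≤ rw0 := hr1m.trans (min_le_right _ _)
  obtain ⟨a, b, Nb, ha, hb, hc⟩ := gsc_const (a' := a') (b' := b') (Cg := Cg) (R := 2 * R)
    (N' := N') (Qx := D.Qx) ha' hb' hCg (by linarith)
  refine ⟨a, b, Nb, ha, hb, ?_⟩
  intro Q N h x ρ σ hQ hρ hσ hσ2 hQN hh hcov
  obtain ⟨hc1, hc2, hc3, hc4⟩ := hc σ hσ hσ2
  obtain ⟨κ, hκ⟩ : ∃ κ, κ = σ ^ (N' + 1) / (2 * Real.exp b') := ⟨_, rfl⟩
  rw [← hκ] at hc2 hc3 hc4
  obtain ⟨B, hB⟩ : ∃ B, B = a' * Real.log (1 / σ) + b' := ⟨_, rfl⟩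
  have hκ0 : 0 < κ := by
    rw [hκ]
    positivity
  have hκ1 : κ * Real.exp b' ≤ σ ^ N' := by
    rw [hκ]
    have h1 : σ ^ (N' + 1) / (2 * Real.exp b') * Real.exp b' = σ ^ (N' + 1) / 2 := by
      field_simp
    rw [h1, pow_succ]
    have h2 : 0 < σ ^ N' := by positivity
    nlinarith
  have hκ2 : κ ≤ σ / 2 := by
    have h1 : 1 ≤ Real.exp b' := Real.one_le_exp hb'.le
    have h2 : σ ^ N' ≤ 1 := pow_le_one₀ hσ.le (by linarith)
    rw [hκ, div_le_div_iff₀ (by positivity) (by norm_num), pow_succ]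
    have h3 : σ ^ N' * σ ≤ 1 * σ := mul_le_mul_of_nonneg_right h2 hσ.le
    nlinarith
  have hκd : ∀ {t : ℝ}, σ ^ N' ≤ Real.exp b' * t → κ ≤ t := by
    intro t ht
    have h1 : κ * Real.exp b' ≤ t * Real.exp b' := by
      rw [mul_comm t]
      exact hκ1.trans ht
    exact le_of_mul_le_mul_right h1 (Real.exp_pos _)
  have hwt : ∀ {z : ℂ}, κ ≤ D.dd z → κ ^ D.Qx ≤ D.wt z := fun {z} hz =>
    (pow_le_pow_left₀ hκ0.le hz _).trans (wt_dd D z)
  have hsum : ∀ k, (∀ i < k, κ ≤ D.dd (D.f^[i] (h x))) → (k : ℝ) * κ ^ D.Qx ≤ D.TT (h x) k := by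
    intro k hk
    unfold Ps.TT
    have h1 : (k : ℝ) * κ ^ D.Qx = ∑ _i ∈ Finset.range k, κ ^ D.Qx := by
      rw [Finset.sum_const, Finset.card_range, nsmul_eq_mul]
    rw [h1]
    exact Finset.sum_le_sum fun i hi => hwt (hk i (Finset.mem_range.1 hi))
  -- what exit_exp gives
  have hexk : ∀ k, (∀ i ≤ k, ¬ (¬ (D.f^[i] (h x) ∈ D.V1 ∧ D.f^[i] (h x) ∈ thickening δ1 D.J) ∨
      ∃ u ∈ ball x (ρ / 2 ^ N), r1 * D.dd (D.f^[i] (h x)) < ‖D.f^[i] (h u) - D.f^[i] (h x)‖)) →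
      D.TT (h x) k ≤ B ∧ (∀ i ≤ k, κ ≤ D.dd (D.f^[i] (h x))) ∧
        ∀ i ≤ k + 1, ∃ u ∈ ball x (ρ / 2 ^ N), κ ≤ ‖D.f^[i] (h u) - D.f^[i] (h x)‖ := by
    intro k hk
    obtain ⟨e1, e2, e3⟩ := hex (h x) σ k hσ hσ2 (fun i hi => by
      have h1 := hk i hi
      push Not at h1
      refine ⟨h1.1.1, h1.1.2, fun w hw => ?_⟩
      obtain ⟨u, hu, rfl⟩ := hcov hw
      refine (h1.2 u hu).trans ?_
      exact mul_le_mul_of_nonneg_right hr1a (dd_nonneg D _))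
    refine ⟨by rw [hB]; exact e1, fun i hi => hκd (e2 i hi), fun i hi => ?_⟩
    obtain ⟨w, hw, hwi⟩ := e3 i hi
    obtain ⟨u, hu, rfl⟩ := hcov hw
    exact ⟨u, hu, hκd hwi⟩
  -- the first exit
  have hS : ∃ i, ¬ (D.f^[i] (h x) ∈ D.V1 ∧ D.f^[i] (h x) ∈ thickening δ1 D.J) ∨
      ∃ u ∈ ball x (ρ / 2 ^ N), r1 * D.dd (D.f^[i] (h x)) < ‖D.f^[i] (h u) - D.f^[i] (h x)‖ := by
    by_contra hno
    have hno' := not_exists.1 hno
    have hall : ∀ k : ℕ, (k : ℝ) * κ ^ D.Qx ≤ B := by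
      intro k
      obtain ⟨e1, e2, _⟩ := hexk k (fun i _ => hno' i)
      exact (hsum k (fun i hi => e2 i hi.le)).trans e1
    obtain ⟨k, hk⟩ := exists_nat_gt (B / κ ^ D.Qx)
    rw [div_lt_iff₀ (by positivity)] at hk
    linarith [hall k]
  obtain ⟨i1, hi1⟩ : ∃ i1, i1 = Nat.find hS := ⟨_, rfl⟩
  have hi1s := Nat.find_spec hS
  rw [← hi1] at hi1s
  have hi1m : ∀ l < i1, ¬ (¬ (D.f^[l] (h x) ∈ D.V1 ∧ D.f^[l] (h x) ∈ thickening δ1 D.J) ∨
      ∃ u ∈ ball x (ρ / 2 ^ N), r1 * D.dd (D.f^[l] (h x)) < ‖D.f^[l] (h u) - D.f^[l] (h x)‖) := by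
    intro l hl
    rw [hi1] at hl
    exact Nat.find_min hS hl
  have hi1v : ∀ l < i1, D.f^[l] (h x) ∈ D.V1 ∧ D.f^[l] (h x) ∈ thickening δ1 D.J := by
    intro l hl
    have h1 := hi1m l hl
    push Not at h1
    exact h1.1
  have hΔ : ∀ {j j' : ℕ}, j ≤ j' → ball x (ρ / 2 ^ j') ⊆ ball x (ρ / 2 ^ j) := by
    intro j j' hjj
    apply ball_subset_ball
    apply div_le_div_of_nonneg_left hρ.le (by positivity)
    exact pow_le_pow_right₀ (by norm_num) hjj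
  have hΔ0 : ∀ j : ℕ, ball x (ρ / 2 ^ j) ⊆ ball x ρ := by
    intro j
    apply ball_subset_ball
    apply div_le_self hρ.le
    exact one_le_pow₀ (by norm_num)
  have hxΔ : ∀ j : ℕ, x ∈ ball x (ρ / 2 ^ j) := fun j => mem_ball_self (by positivity)
  -- the facts at the first exit
  have hfact : D.TT (h x) i1 ≤ B + 1 ∧ (∀ i < i1, κ ≤ D.dd (D.f^[i] (h x))) ∧
      ∀ i ≤ i1, ∃ u ∈ ball x (ρ / 2 ^ N), κ ≤ ‖D.f^[i] (h u) - D.f^[i] (h x)‖ := by
    rcases Nat.eq_zero_or_pos i1 with h0 | h0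
    · rw [h0]
      refine ⟨?_, fun i hi => absurd hi (Nat.not_lt_zero i), fun i hi => ?_⟩
      · rw [TT_zero]
        have hlog : 0 ≤ Real.log (1 / σ) := by
          apply Real.log_nonneg
          rw [le_div_iff₀ hσ]
          linarith
        rw [hB]
        positivity
      · have hi0 : i = 0 := by omega
        rw [hi0]
        have hmem : h x + ((σ / 2 : ℝ) : ℂ) ∈ ball (h x) σ := by
          rw [mem_ball, dist_eq_norm, add_sub_cancel_left, Complex.norm_real, Real.norm_eq_abs,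
            abs_of_pos (by linarith)]
          linarith
        obtain ⟨u, hu, hu2⟩ := hcov hmem
        refine ⟨u, hu, ?_⟩
        rw [Function.iterate_zero_apply, Function.iterate_zero_apply, hu2, add_sub_cancel_left,
          Complex.norm_real, Real.norm_eq_abs, abs_of_pos (by linarith)]
        exact hκ2
    · obtain ⟨k, rfl⟩ : ∃ k, i1 = k + 1 := ⟨i1 - 1, by omega⟩
      obtain ⟨e1, e2, e3⟩ := hexk k (fun i hi => hi1m i (by omega))
      refine ⟨?_, fun i hi => e2 i (by omega), e3⟩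
      rw [TT_succ]
      linarith [wt_le_one D (D.f^[k] (h x))]
  obtain ⟨hf1, hf2, hf3⟩ := hfact
  -- the bound R
  have hbd : ∀ (j i : ℕ), i ≤ i1 →
      (∀ l < i, ∀ u ∈ ball x (ρ / 2 ^ j), ‖D.f^[l] (h u) - D.f^[l] (h x)‖ ≤
        r1 * D.dd (D.f^[l] (h x))) → ∀ u ∈ ball x (ρ / 2 ^ j), ‖D.f^[i] (h u)‖ ≤ R := by
    intro j i hi hl u hu
    rcases Nat.eq_zero_or_pos i with h0 | h0
    · rw [h0]
      exact hR1 _ (hh u (hΔ0 j hu)).1
    · obtain ⟨i', rfl⟩ : ∃ i', i = i' + 1 := ⟨i - 1, by omega⟩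
      rw [Function.iterate_succ_apply']
      apply hR2
      apply D.hV
      have h1 := (hi1v i' (by omega)).1
      refine D.hVV _ h1 _ (lt_of_le_of_lt (hl i' (Nat.lt_succ_self _) u hu) ?_)
      have h2 : 0 < D.dd (D.f^[i'] (h x)) := lt_of_lt_of_le hκ0 (hf2 i' (by omega))
      have h3 : D.dd (D.f^[i'] (h x)) = dS D.Pa (D.f^[i'] (h x)) := rfl
      rw [← h3]
      exact mul_lt_mul_of_pos_right (by linarith) h2
  have hTi : ∀ i ≤ i1, D.TT (h x) i ≤ a * Real.log (1 / σ) + b := by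
    intro i hi
    have h1 := TT_mono D (h x) hi
    rw [← hB] at hc1
    linarith
  have hNi : ∀ i ≤ i1, (i : ℝ) * σ ^ Nb ≤ Real.exp b := by
    intro i hi
    refine hc3 i (Nat.cast_nonneg _) ?_
    rw [← hB]
    have h1 := hsum i (fun l hl => hf2 l (by omega))
    have h2 := TT_mono D (h x) hi
    linarith
  by_cases hcase : ∀ u ∈ ball x (ρ / 2 ^ N), ‖D.f^[i1] (h u) - D.f^[i1] (h x)‖ ≤
      r1 * D.dd (D.f^[i1] (h x))
  · have hl : ∀ l < i1, ∀ u ∈ ball x (ρ / 2 ^ N), ‖D.f^[l] (h u) - D.f^[l] (h x)‖ ≤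
        r1 * D.dd (D.f^[l] (h x)) := by
      intro l hl
      have h1 := hi1m l hl
      push Not at h1
      exact h1.2
    refine ⟨N, i1, le_rfl, hTi i1 le_rfl, hNi i1 le_rfl, fun l hli => ⟨(hi1v l hli).1,
      (hi1v l hli).2, ?_, hl l hli⟩, hbd N i1 le_rfl hl, Or.inl ⟨?_, ?_, hcase⟩⟩
    · exact hc2.trans (mul_le_mul_of_nonneg_left (hf2 l hli) (Real.exp_pos _).le)
    · rcases hi1s with h1 | ⟨u', hu', h1⟩
      · exact h1
      · exact absurd (hcase u' hu') (not_le.mpr h1)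
    · refine hc2.trans (mul_le_mul_of_nonneg_left ?_ (Real.exp_pos _).le)
      obtain ⟨u, hu, h1⟩ := hf3 i1 le_rfl
      have h2 := hcase u hu
      have h3 := dd_nonneg D (D.f^[i1] (h x))
      have h4 : r1 * D.dd (D.f^[i1] (h x)) ≤ 1 * D.dd (D.f^[i1] (h x)) :=
        mul_le_mul_of_nonneg_right (by linarith) h3
      linarith
  · push Not at hcase
    obtain ⟨j, i, hjN, hi, hl, α, hα1, hα2, hα3, hα4⟩ := gsc_scale (N := N) (i1 := i1)
      (A := fun i u => ‖D.f^[i] (h u) - D.f^[i] (h x)‖) (Δ := fun j => ball x (ρ / 2 ^ j))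
      (d := fun i => D.dd (D.f^[i] (h x))) (T := fun i => D.TT (h x) i) (r1 := r1) (κ := κ)
      (R := 2 * R) (Cg := Cg) (Q := Q) hΔ hκ0 (by linarith) (by linarith)
      (fun i => TT_nonneg D (h x) i) (fun {i j} hij => TT_mono D (h x) hij) hf3
      (fun l hl u hu => by
        have h1 := (hi1v l hl).2
        have h2 := dd_nonneg D (D.f^[l] (h x))
        have h3 := (hwlp (D.f^[l] (h x)) (thickening_mono (by linarith) _ h1) (D.f^[l] (h u))
          (D.f^[l] (h x)) (hu.trans (mul_le_mul_of_nonneg_right hr1b h2))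
          (by rw [sub_self, norm_zero]; positivity)).2
        rw [Function.iterate_succ_apply', Function.iterate_succ_apply', TT_succ, add_sub_cancel_left]
        exact h3)
      (fun j i hi hl u hu => by
        have h1 := hbd j i hi hl u hu
        have h2 := hbd j i hi hl x (hxΔ j)
        have h3 := norm_sub_le (D.f^[i] (h u)) (D.f^[i] (h x))
        linarith)
      hcase
      (hc4 (Q * N) _ hQN (by rw [← hB]; exact hf1))
    refine ⟨j, i, hjN.le, hTi i hi, hNi i hi, fun l hli => ⟨(hi1v l (by omega)).1,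
      (hi1v l (by omega)).2, ?_, hl l hli⟩, hbd j i hi hl, Or.inr ⟨α, ?_, hα2, hα3, hα4⟩⟩
    · exact hc2.trans (mul_le_mul_of_nonneg_left (hf2 l (by omega)) (Real.exp_pos _).le)
    · exact hc2.trans (mul_le_mul_of_nonneg_left hα1 (Real.exp_pos _).le)

end Pool.Agent.H44.DP
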