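import Pool.Agent.H44.DP.WLP
import Pool.Agent.H44.DP.FAM0

/-!
# Module GWT: families: comparison of the orbits in weighted time

PROOF. `Cg, r1'` from `wlp`, `r1 = r1' / 2`. Let `η = A ‖u‖ ^ M`, `x_l = f^[l] x0`, `e_l = ‖g (n + l) u - f^[l] (g n u)‖`. Induction on `l ≤ i`: `e_l ≤ l η exp (Cg TT x0 l)`. Step (`l < i`): `e_l ≤ i η exp (Cg TT x0 i) ≤ r1 dd x_l` (`TT_mono`), so both `x = g (n + l) u` and `x' = f^[l] (g n u)` are within `2 r1 dd x_l` of `x_l`: by `wlp` they are in `thickening δ J`, and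
`‖g (n + l + 1) u - f^[l+1] (g n u)‖ ≤ ‖F u x - f x‖ + ‖f x - f x'‖ ≤ η + exp (Cg wt x_l) e_l ≤ η + l η exp (Cg (TT x0 l + wt x_l)) ≤ (l + 1) η exp (Cg TT x0 (l + 1))` (`X.pert`, `X.step`, `TT_succ`, `exp ≥ 1`).
-/

set_option autoImplicit false

open Filter Topology Metric Set

namespace Pool.Agent.H44.DP

theorem gwt (D : Ps) : ∃ Cg r1 : ℝ, 1 ≤ Cg ∧ 0 < r1 ∧ r1 ≤ D.δ / 8 ∧ r1 ≤ 1 / 8 ∧
    ∀ (X : Fam D) (u x0 : ℂ) (n i : ℕ), u ∈ ball (0 : ℂ) X.ρ0 →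
      (∀ l < i, D.f^[l] x0 ∈ thickening (D.δ / 2) D.J ∧
        ‖D.f^[l] (X.g n u) - D.f^[l] x0‖ ≤ r1 * D.dd (D.f^[l] x0) ∧
        (i : ℝ) * (X.A * ‖u‖ ^ X.M) * Real.exp (Cg * D.TT x0 i) ≤ r1 * D.dd (D.f^[l] x0)) →
      ∀ l ≤ i, ‖X.g (n + l) u - D.f^[l] (X.g n u)‖ ≤
          (l : ℝ) * (X.A * ‖u‖ ^ X.M) * Real.exp (Cg * D.TT x0 l) ∧
        (l < i → X.g (n + l) u ∈ thickening D.δ D.J) := by
  obtain ⟨Cg, r1, hCg, hr, hrδ, hr4, hw⟩ := wlp D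
  refine ⟨Cg, r1 / 2, hCg, by linarith, by linarith, by linarith, ?_⟩
  intro X u x0 n i hu H
  have hη : 0 ≤ X.A * ‖u‖ ^ X.M := mul_nonneg (by have := X.hA; linarith) (by positivity)
  -- the closeness, given the bound at time `l`
  have key : ∀ l < i, ‖X.g (n + l) u - D.f^[l] (X.g n u)‖ ≤
      (l : ℝ) * (X.A * ‖u‖ ^ X.M) * Real.exp (Cg * D.TT x0 l) →
      ‖X.g (n + l) u - D.f^[l] x0‖ ≤ r1 * D.dd (D.f^[l] x0) ∧
        ‖D.f^[l] (X.g n u) - D.f^[l] x0‖ ≤ r1 * D.dd (D.f^[l] x0) := by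
    intro l hl he
    obtain ⟨h1, h2, h3⟩ := H l hl
    have hdd := dd_nonneg D (D.f^[l] x0)
    have hle : (l : ℝ) * (X.A * ‖u‖ ^ X.M) * Real.exp (Cg * D.TT x0 l) ≤
        (i : ℝ) * (X.A * ‖u‖ ^ X.M) * Real.exp (Cg * D.TT x0 i) := by
      have hli : (l : ℝ) ≤ i := by exact_mod_cast hl.le
      have hT := TT_mono D x0 hl.le
      have hexp : Real.exp (Cg * D.TT x0 l) ≤ Real.exp (Cg * D.TT x0 i) :=
        Real.exp_le_exp.2 (mul_le_mul_of_nonneg_left hT (by linarith))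
      exact mul_le_mul (mul_le_mul_of_nonneg_right hli hη) hexp (Real.exp_pos _).le
        (mul_nonneg (Nat.cast_nonneg _) hη)
    have htri : ‖X.g (n + l) u - D.f^[l] x0‖ ≤ ‖X.g (n + l) u - D.f^[l] (X.g n u)‖ +
        ‖D.f^[l] (X.g n u) - D.f^[l] x0‖ := norm_sub_le_norm_sub_add_norm_sub _ _ _
    have hmul : 0 ≤ r1 * D.dd (D.f^[l] x0) := mul_nonneg hr.le hdd
    constructor <;> nlinarith
  have main : ∀ l ≤ i, ‖X.g (n + l) u - D.f^[l] (X.g n u)‖ ≤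
      (l : ℝ) * (X.A * ‖u‖ ^ X.M) * Real.exp (Cg * D.TT x0 l) := by
    intro l
    induction l with
    | zero => intro _; simp
    | succ l ih =>
      intro hl
      have hli : l < i := hl
      have he := ih hli.le
      obtain ⟨k1, k2⟩ := key l hli he
      obtain ⟨h1, h2, h3⟩ := H l hli
      obtain ⟨m1, m2⟩ := hw _ h1 _ _ k1 k2
      have hstep : X.g (n + (l + 1)) u = X.F u (X.g (n + l) u) := X.step (n + l) u
      have hp := X.pert u hu _ m1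
      rw [hstep, Function.iterate_succ_apply']
      have htri : ‖X.F u (X.g (n + l) u) - D.f (D.f^[l] (X.g n u))‖ ≤
          ‖X.F u (X.g (n + l) u) - D.f (X.g (n + l) u)‖ +
            ‖D.f (X.g (n + l) u) - D.f (D.f^[l] (X.g n u))‖ :=
        norm_sub_le_norm_sub_add_norm_sub _ _ _
      have hexp : Real.exp (Cg * D.TT x0 (l + 1)) =
          Real.exp (Cg * D.wt (D.f^[l] x0)) * Real.exp (Cg * D.TT x0 l) := by
        rw [← Real.exp_add, TT_succ]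
        congr 1
        ring
      have h5 : ‖D.f (X.g (n + l) u) - D.f (D.f^[l] (X.g n u))‖ ≤
          Real.exp (Cg * D.wt (D.f^[l] x0)) *
            ((l : ℝ) * (X.A * ‖u‖ ^ X.M) * Real.exp (Cg * D.TT x0 l)) :=
        m2.trans (mul_le_mul_of_nonneg_left he (Real.exp_pos _).le)
      have h6 : 1 ≤ Real.exp (Cg * D.TT x0 (l + 1)) :=
        Real.one_le_exp (mul_nonneg (by linarith) (TT_nonneg D x0 _))
      have h7 : X.A * ‖u‖ ^ X.M ≤ X.A * ‖u‖ ^ X.M * Real.exp (Cg * D.TT x0 (l + 1)) :=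
        le_mul_of_one_le_right hη h6
      have h8 : Real.exp (Cg * D.wt (D.f^[l] x0)) *
            ((l : ℝ) * (X.A * ‖u‖ ^ X.M) * Real.exp (Cg * D.TT x0 l)) =
          (l : ℝ) * (X.A * ‖u‖ ^ X.M) * Real.exp (Cg * D.TT x0 (l + 1)) := by
        rw [hexp]; ring
      rw [h8] at h5
      push_cast
      linarith
  intro l hl
  refine ⟨main l hl, fun hli => ?_⟩
  obtain ⟨k1, k2⟩ := key l hli (main l hl)
  exact (hw _ (H l hli).1 _ _ k1 k2).1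

end Pool.Agent.H44.DP
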