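import Pool.Agent.H44.DP.LM2

/-!
# Module LIM: families: on a good scale most parameters are good

PROOF. Suppose not: for `ρ' = 1/(k+1)` there are `u_k, ρ_k, a_k, n_k` with all the hypotheses and `volume > ofReal (ε ρ_k^2)`. (`u_k ≠ 0` because `u0 / ‖u0‖ ∈ K` has norm `1` by `hK1`, `0 / 0 = 0`.) So `Sq D X R ε u ρ n` holds (`‖u_k‖ < 1/(k+1)`, `ρ_k / ‖u_k‖ < 1/(k+1)`). If `a_k → 0` does not hold there are `s > 0` and a subsequence with `a_k ≥ s` (`Filter.extraction_of_frequently_atTop`): `lim1` with `s1 = s0 s` (`sq_sub`). If `a_k → 0`: `lim2`.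
-/

set_option autoImplicit false

open Filter Topology Metric Set

namespace Pool.Agent.H44.DP

open MeasureTheory in
theorem lim (D : Ps) (hnull : volume D.J = 0) (X : Fam D) {R ε s0 c0 : ℝ} (hε : 0 < ε)
    (hs0 : 0 < s0) (hc0 : 0 < c0) : ∃ ρ' : ℝ, 0 < ρ' ∧ ∀ (u0 : ℂ) (ρ a : ℝ) (n : ℕ),
      ‖u0‖ < ρ' → u0 / (‖u0‖ : ℂ) ∈ X.K → 0 < ρ → ρ < ρ' * ‖u0‖ → 0 < a →
      (∀ i < n, ∀ u ∈ ball u0 ρ, X.g i u ∈ thickening D.δ D.J) →
      DifferentiableOn ℂ (X.g n) (ball u0 ρ) → (∀ u ∈ ball u0 ρ, ‖X.g n u‖ ≤ R) →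
      (∀ u ∈ ball u0 ρ, ‖X.g n u - X.g n u0‖ ≤ a) → c0 * D.dd (X.g n u0) ≤ a →
      ‖u0‖ ^ (X.θ2 / 2) ≤ a → (∃ u ∈ ball u0 (ρ / 2), s0 * a ≤ ‖X.g n u - X.g n u0‖) →
        volume (ball u0 (3 / 4 * ρ) ∩ {u | ¬ X.P u}) ≤ ENNReal.ofReal (ε * ρ ^ 2) := by
  by_contra hcon
  push Not at hcon
  have hpos : ∀ l : ℕ, (0 : ℝ) < 1 / ((l : ℝ) + 1) := fun l => Nat.one_div_pos_of_nat
  choose us ρs as ns hu hdir hρ0 hρ1 ha0 horb hdiff hbd hosc hdd hlow hex hvol using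
    fun k : ℕ => hcon _ (hpos k)
  have hne : ∀ k, us k ≠ 0 := by
    intro k h0
    have h1 := X.hK1 _ (hdir k)
    rw [h0, zero_div, norm_zero] at h1
    exact zero_ne_one h1
  have hsq : Sq D X R ε us ρs ns := by
    refine ⟨?_, hne, hdir, hρ0, ?_, horb, hdiff, hbd, hvol⟩
    · rw [tendsto_zero_iff_norm_tendsto_zero]
      exact squeeze_zero (fun k => norm_nonneg _) (fun k => (hu k).le)
        tendsto_one_div_add_atTop_nhds_zero_nat
    · refine squeeze_zero (fun k => div_nonneg (hρ0 k).le (norm_nonneg _)) (fun k => ?_)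
        tendsto_one_div_add_atTop_nhds_zero_nat
      rw [div_le_iff₀ (norm_pos_iff.2 (hne k))]
      exact (hρ1 k).le
  by_cases hs : ∃ s : ℝ, 0 < s ∧ ∃ᶠ k in atTop, s ≤ as k
  · obtain ⟨s, hs1, hs2⟩ := hs
    obtain ⟨φ, hφ, hφ2⟩ := Filter.extraction_of_frequently_atTop hs2
    refine lim1 D hnull X hε (mul_pos hs0 hs1) (sq_sub hsq hφ) fun k => ?_
    obtain ⟨v, hv1, hv2⟩ := hex (φ k)
    exact ⟨v, hv1, (mul_le_mul_of_nonneg_left (hφ2 k) hs0.le).trans hv2⟩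
  · push Not at hs
    have ht : Tendsto as atTop (𝓝 0) := by
      rw [tendsto_order]
      refine ⟨fun a ha => Eventually.of_forall fun k => ha.trans (ha0 k), fun a ha => ?_⟩
      exact (hs a ha).mono fun k hk => hk
    exact lim2 D X hε hs0 hc0 hsq ht ha0 hdd hlow hosc hex

end Pool.Agent.H44.DP
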