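import Pool.Agent.H44.DP.CMP

/-!
# Module OUT: families: a point outside of the cones is good

PROOF. Let `y` be the reference point, `v = g n u`, `‖v - y‖ ≤ r4 dd y`. `r4 ≤ ϑ / 4`, `≤ δ1 / 2`, `≤ 1 / 2` and `≤` the radii of `sec` for `ε1 = D.ε1` and the finitely many `q = qp p`. (a) `y ∉ thickening δ1 J`: `v ∉ thickening (δ1 / 2) J` (`dd y ≤ 1`): `comp1`.
(b) `y ∉ V1`: by `V1_far` `ϑ / 2 * dd y ≤ ‖y - y'‖` for all `y' ∈ J`, so `ϑ / 4 * dd y ≤ ‖v - y'‖`. Let `ε2` be the `ε` of `comp2` for `ε' = ε1 / 2`; `r' = min (r0) (ε2 / 2)`, also `r' ≤ 1`. If `r' ≤ dd y`: `v ∉ thickening (ϑ / 4 * r') J`: `comp1` with `t = ϑ r' / 4`. If `dd y < r'`: `dd y = ‖y - p‖`, `p ∈ Pa` (`dd_ex`), `y ∈ ball p r0`: `D.hVe`, `sec` (for `y - p`, `v - p`, `α = ap p`):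
`(ap p * (v - p) ^ qp p).re ≤ (1 - ε1/2) ‖..‖`; `‖v - p‖ ≤ 2 r' ≤ ε2` (strictly less: `‖v - p‖ ≤ (3/2) dd y < ε2`), `‖v - p‖ ≥ dd y / 2 ≥ ‖u‖ ^ θ2` (hypothesis): `comp2`. `ε` is the minimum of the three.
-/

set_option autoImplicit false

open Filter Topology Metric Set

namespace Pool.Agent.H44.DP

private theorem out_min (s : Finset ℂ) (r : ℂ → ℝ) (hr : ∀ p ∈ s, 0 < r p) :
    ∃ a : ℝ, 0 < a ∧ ∀ p ∈ s, a ≤ r p := by
  classical
  induction s using Finset.induction_on with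
  | empty => exact ⟨1, one_pos, fun p hp => absurd hp (Finset.notMem_empty p)⟩
  | insert b s _ ih =>
    obtain ⟨a, ha, h⟩ := ih (fun p hp => hr p (Finset.mem_insert_of_mem hp))
    refine ⟨min a (r b), lt_min ha (hr b (Finset.mem_insert_self b s)), fun p hp => ?_⟩
    rcases Finset.mem_insert.1 hp with h1 | h1
    · rw [h1]
      exact min_le_right _ _
    · exact (min_le_left _ _).trans (h p h1)

theorem out (D : Ps) (X : Fam D) {δ1 R : ℝ} (hδ1 : 0 < δ1) : ∃ ε r4 : ℝ, 0 < ε ∧ 0 < r4 ∧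
    ∀ u ∈ ball (0 : ℂ) ε, u ≠ 0 → (∃ e ∈ X.K, ‖u / (‖u‖ : ℂ) - e‖ < ε) → ∀ (n : ℕ) (y : ℂ),
      (∀ i < n, X.g i u ∈ thickening D.δ D.J) → ‖X.g n u‖ ≤ R →
      ‖X.g n u - y‖ ≤ r4 * D.dd y → 2 * ‖u‖ ^ X.θ2 ≤ D.dd y →
      ¬ (y ∈ D.V1 ∧ y ∈ thickening δ1 D.J) → X.P u := by
  have hsec : ∀ p : ℂ, ∃ r : ℝ, 0 < r ∧ ∀ (α y z : ℂ), ‖z - y‖ ≤ r * ‖y‖ →
      (α * y ^ D.qp p).re ≤ (1 - D.ε1) * ‖α * y ^ D.qp p‖ →
        (α * z ^ D.qp p).re ≤ (1 - D.ε1 / 2) * ‖α * z ^ D.qp p‖ :=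
    fun p => sec (D.qp p) D.hε1
  choose rs hrs0 hrs using hsec
  obtain ⟨r5, hr5, hr5s⟩ := out_min D.Pa rs (fun p _ => hrs0 p)
  have hϑ := D.hϑ
  have hr0 := D.hr0
  have hε1 := D.hε1
  obtain ⟨ε2, hε2, hc2⟩ := comp2 D X (ε' := D.ε1 / 2) (by linarith)
  obtain ⟨r', hr'⟩ : ∃ r', r' = min (min D.r0 (ε2 / 2)) 1 := ⟨_, rfl⟩
  have hr'0 : 0 < r' := by
    rw [hr']
    exact lt_min (lt_min hr0 (by linarith)) one_pos
  have hr'1 : r' ≤ D.r0 := by
    rw [hr']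
    exact (min_le_left _ _).trans (min_le_left _ _)
  have hr'2 : r' ≤ ε2 / 2 := by
    rw [hr']
    exact (min_le_left _ _).trans (min_le_right _ _)
  have hr'3 : r' ≤ 1 := by
    rw [hr']
    exact min_le_right _ _
  obtain ⟨ε3, hε3, hc3⟩ := comp1 D X (t := D.ϑ / 4 * r') (R := R) (by positivity)
  obtain ⟨ε4, hε4, hc4⟩ := comp1 D X (t := δ1 / 2) (R := R) (by positivity)
  obtain ⟨r4, hr4⟩ : ∃ r4, r4 = min (min (D.ϑ / 4) (δ1 / 2)) (min (1 / 2) r5) := ⟨_, rfl⟩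
  have hr40 : 0 < r4 := by
    rw [hr4]
    exact lt_min (lt_min (by linarith) (by linarith)) (lt_min (by norm_num) hr5)
  have hr41 : r4 ≤ D.ϑ / 4 := by
    rw [hr4]
    exact (min_le_left _ _).trans (min_le_left _ _)
  have hr42 : r4 ≤ δ1 / 2 := by
    rw [hr4]
    exact (min_le_left _ _).trans (min_le_right _ _)
  have hr43 : r4 ≤ 1 / 2 := by
    rw [hr4]
    exact (min_le_right _ _).trans (min_le_left _ _)
  have hr44 : r4 ≤ r5 := by
    rw [hr4]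
    exact (min_le_right _ _).trans (min_le_right _ _)
  obtain ⟨ε, hε⟩ : ∃ ε, ε = min ε2 (min ε3 ε4) := ⟨_, rfl⟩
  have hε0 : 0 < ε := by
    rw [hε]
    exact lt_min hε2 (lt_min hε3 hε4)
  have he2 : ε ≤ ε2 := by
    rw [hε]
    exact min_le_left _ _
  have he3 : ε ≤ ε3 := by
    rw [hε]
    exact (min_le_right _ _).trans (min_le_left _ _)
  have he4 : ε ≤ ε4 := by
    rw [hε]
    exact (min_le_right _ _).trans (min_le_right _ _)
  refine ⟨ε, r4, hε0, hr40, ?_⟩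
  intro u hu hu0 hK n y hi hR hv hdd hno
  obtain ⟨e, heK, hue⟩ := hK
  have hd0 := dd_nonneg D y
  have hd1 := dd_le_one D y
  by_cases hy1 : y ∈ thickening δ1 D.J
  · have hyV : y ∉ D.V1 := fun h => hno ⟨h, hy1⟩
    have hfar := V1_far D hyV
    have hfar2 : ∀ y' ∈ D.J, D.ϑ / 4 * D.dd y ≤ ‖X.g n u - y'‖ := by
      intro y' hy'
      have h1 := hfar y' hy'
      have h2 : ‖y - y'‖ ≤ ‖X.g n u - y‖ + ‖X.g n u - y'‖ := by
        have := norm_sub_le_norm_sub_add_norm_sub y (X.g n u) y'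
        rw [norm_sub_rev y (X.g n u)] at this
        exact this
      have h3 : r4 * D.dd y ≤ D.ϑ / 4 * D.dd y := mul_le_mul_of_nonneg_right hr41 hd0
      have h4 : D.ϑ / 2 * D.dd y = D.ϑ / 4 * D.dd y + D.ϑ / 4 * D.dd y := by ring
      linarith
    rcases le_or_gt r' (D.dd y) with hrd | hrd
    · refine hc3 u (ball_subset_ball he3 hu) hu0 ⟨e, heK, lt_of_lt_of_le hue he3⟩ n hi hR ?_
      intro hmem
      rw [mem_thickening_iff] at hmem
      obtain ⟨y', hy', hd⟩ := hmem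
      rw [dist_eq_norm] at hd
      have h1 := hfar2 y' hy'
      have h2 : D.ϑ / 4 * r' ≤ D.ϑ / 4 * D.dd y := mul_le_mul_of_nonneg_left hrd (by positivity)
      linarith
    · rcases dd_ex D y with h1 | ⟨p, hp, hdp⟩
      · linarith
      · have hyb : y ∈ ball p D.r0 := by
          rw [mem_ball, dist_eq_norm, ← hdp]
          linarith
        have h1 := D.hVe p hp y hyb hyV
        have h2 : ‖(X.g n u - p) - (y - p)‖ ≤ rs p * ‖y - p‖ := by
          rw [sub_sub_sub_cancel_right, ← hdp]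
          refine hv.trans (mul_le_mul_of_nonneg_right ?_ hd0)
          exact hr44.trans (hr5s p hp)
        have h3 := hrs p (D.ap p) (y - p) (X.g n u - p) h2 h1
        have h4 : ‖X.g n u - y‖ ≤ D.dd y / 2 := by
          have : r4 * D.dd y ≤ 1 / 2 * D.dd y := mul_le_mul_of_nonneg_right hr43 hd0
          linarith
        have h5 : ‖X.g n u - p‖ ≤ ‖X.g n u - y‖ + ‖y - p‖ :=
          norm_sub_le_norm_sub_add_norm_sub _ _ _
        have h6 : ‖y - p‖ ≤ ‖X.g n u - y‖ + ‖X.g n u - p‖ := by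
          have := norm_sub_le_norm_sub_add_norm_sub y (X.g n u) p
          rw [norm_sub_rev y (X.g n u)] at this
          exact this
        refine hc2 p hp u (ball_subset_ball he2 hu) hu0 ⟨e, heK, lt_of_lt_of_le hue he2⟩ n hi ?_ ?_ h3
        · rw [mem_ball, dist_eq_norm]
          linarith
        · linarith
  · refine hc4 u (ball_subset_ball he4 hu) hu0 ⟨e, heK, lt_of_lt_of_le hue he4⟩ n hi hR ?_
    intro hmem
    apply hy1
    rw [mem_thickening_iff] at hmem ⊢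
    obtain ⟨y', hy', hd⟩ := hmem
    refine ⟨y', hy', ?_⟩
    have h2 : ‖y - X.g n u‖ ≤ δ1 / 2 := by
      rw [norm_sub_rev]
      have h2 : r4 * D.dd y ≤ δ1 / 2 * 1 := mul_le_mul hr42 hd1 hd0 (by linarith)
      linarith
    have h3 := dist_triangle y (X.g n u) y'
    rw [dist_eq_norm y (X.g n u)] at h3
    linarith

end Pool.Agent.H44.DP
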