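import Pool.Agent.H44.DP.PAF
import Pool.Agent.H44.DN.IMG
import Pool.Agent.H44.DP.GSC
import Pool.Agent.H44.DP.GWT
import Pool.Agent.H44.DP.OUT
import Pool.Agent.H44.DP.LIM
import Pool.Agent.H44.DP.GNUM

/-!
# Module GOOD1: families: a good disc around a typical parameter

On a disc around a parameter with a typical phase and a direction in `K`, `g m` is almost affine (`paf`); a good scale
(`gsc`) for `f^[i] ∘ g m`; the orbit of the family follows `f^[i] ∘ g m` (`gwt`); the values are outside the cones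
(`out`) or the limit theorem applies (`lim`).
-/

set_option autoImplicit false

open Filter Topology Metric Set

namespace Pool.Agent.H44.DP

open MeasureTheory in
theorem good1 (D : Ps) (hnull : volume D.J = 0) (X : Fam D) {c6 : ℝ} (hc6 : 0 < c6) :
    ∃ κ ε : ℝ, 0 < κ ∧ κ < 1 ∧ 0 < ε ∧ ∀ C ϑ : ℝ, 0 < ϑ → ∃ J2 : ℕ, ∀ J1 ≥ J2,
      ∀ (u0 : ℂ) (m : ℕ), X.ww u0 ∈ An D X.c J1 → u0 / (‖u0‖ : ℂ) ∈ X.K →
        Trk D (X.ww u0) J1 C κ ε c6 m →
          ∃ ρ : ℝ, 0 < ρ ∧ ρ ≤ ‖u0‖ / 2 ∧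
            volume (ball u0 (3 / 4 * ρ) ∩ {u | ¬ X.P u}) ≤ ENNReal.ofReal (ϑ * ρ ^ 2) := by
  obtain ⟨a1, ha1, ha12, H1⟩ := paf D X hc6
  obtain ⟨r2, δ1, R, hr2, hr2ϑ, hδ1, hδ1', hR, H2⟩ := gsc D
  obtain ⟨εo, r4, hεo, hr4, HO⟩ := out D X (R := R + 1) hδ1
  obtain ⟨Cg, rG, hCg, hrG, hrG1, hrG2, HG⟩ := gwt D
  have hδ := D.hδ
  have hL := D.hL
  have hϑD := D.hϑ
  have hϑD1 := D.hϑ1
  obtain ⟨r1, hr1, hr12, hr1G, hr14, hr1one⟩ : ∃ r1 : ℝ, 0 < r1 ∧ r1 ≤ r2 ∧ r1 ≤ rG ∧ r1 ≤ r4 / 2 ∧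
      r1 ≤ 1 := by
    refine ⟨min r2 (min rG (r4 / 2)), lt_min hr2 (lt_min hrG (by positivity)), min_le_left _ _,
      (min_le_right _ _).trans (min_le_left _ _), (min_le_right _ _).trans (min_le_right _ _), ?_⟩
    refine (min_le_left _ _).trans (hr2ϑ.trans ?_)
    linarith
  obtain ⟨a, b, Nb, ha, hb, H2⟩ := H2 r1 hr1 hr12
  have hlog2 : 0 < Real.log 2 := Real.log_pos (by norm_num)
  have hM := X.hM
  have hMr : (0 : ℝ) < X.M := by exact_mod_cast Nat.lt_of_lt_of_le Nat.zero_lt_one hM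
  have hA := X.hA
  have hθ := X.hθ2
  have hTn : 0 < ‖X.T‖ := norm_pos_iff.2 X.hT
  obtain ⟨c', hc', hca, hc10, hc24, hc25⟩ : ∃ c' : ℝ, 0 < c' ∧ c' < a1 ∧ c' ≤ 1 / 10 ∧
      5 * c' * (2 * (Nb : ℝ) + Cg * a) ≤ 1 / 2 ∧ 5 * c' * (Nb : ℝ) ≤ X.θ2 / (4 * (X.M : ℝ)) := by
    have hK1 : 0 < 10 * (2 * (Nb : ℝ) + Cg * a) := by
      have : 0 < Cg * a := by positivity
      positivity
    have hK2 : 0 < 5 * ((Nb : ℝ) + 1) := by positivity
    refine ⟨min (a1 / 2) (min (1 / 10) (min (1 / (10 * (2 * (Nb : ℝ) + Cg * a)))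
      ((X.θ2 / (4 * (X.M : ℝ))) / (5 * ((Nb : ℝ) + 1))))), ?_, ?_, ?_, ?_, ?_⟩
    · exact lt_min (by positivity) (lt_min (by norm_num) (lt_min (by positivity) (by positivity)))
    · exact lt_of_le_of_lt (min_le_left _ _) (by linarith)
    · exact (min_le_right _ _).trans (min_le_left _ _)
    · have h1 : min (a1 / 2) (min (1 / 10) (min (1 / (10 * (2 * (Nb : ℝ) + Cg * a)))
          ((X.θ2 / (4 * (X.M : ℝ))) / (5 * ((Nb : ℝ) + 1))))) ≤
            1 / (10 * (2 * (Nb : ℝ) + Cg * a)) :=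
        (min_le_right _ _).trans ((min_le_right _ _).trans (min_le_left _ _))
      rw [le_div_iff₀ hK1] at h1
      linarith
    · have h1 : min (a1 / 2) (min (1 / 10) (min (1 / (10 * (2 * (Nb : ℝ) + Cg * a)))
          ((X.θ2 / (4 * (X.M : ℝ))) / (5 * ((Nb : ℝ) + 1))))) ≤
            (X.θ2 / (4 * (X.M : ℝ))) / (5 * ((Nb : ℝ) + 1)) :=
        (min_le_right _ _).trans ((min_le_right _ _).trans (min_le_right _ _))
      have h0 : 0 < min (a1 / 2) (min (1 / 10) (min (1 / (10 * (2 * (Nb : ℝ) + Cg * a)))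
          ((X.θ2 / (4 * (X.M : ℝ))) / (5 * ((Nb : ℝ) + 1))))) :=
        lt_min (by positivity) (lt_min (by norm_num) (lt_min (by positivity) (by positivity)))
      rw [le_div_iff₀ hK2] at h1
      linarith
  refine ⟨c', c' / 4, hc', by linarith, by positivity, ?_⟩
  intro C ϑ hϑ
  obtain ⟨Q, hQ⟩ : ∃ Q : ℝ, Q = 10 * a * Real.log 2 + 1 := ⟨_, rfl⟩
  have hQ0 : 0 < Q := by
    rw [hQ]
    positivity
  obtain ⟨J3, H3⟩ := H1 c' (c' / 4) c' C (r1 / 2) (by linarith) (by positivity) (by linarith) hca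
    (by positivity)
  obtain ⟨ρ', hρ', H4⟩ := lim D hnull X (s0 := Real.exp (-Q) / 8) (c0 := r1) (R := R + 1) (ε := ϑ)
    hϑ (by positivity) hr1
  have heb : 0 < Real.exp (-b) := Real.exp_pos _
  have hebb : Real.exp (-b) * Real.exp b = 1 := by rw [← Real.exp_add, neg_add_cancel, Real.exp_zero]
  have heb1 : Real.exp (-b) ≤ 1 := by
    rw [Real.exp_le_one_iff]
    linarith
  have hQ1 : Real.exp (-Q) ≤ 1 := by
    rw [Real.exp_le_one_iff]
    linarith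
  obtain ⟨η3, hη3, hη3a⟩ : ∃ η3 : ℝ, 0 < η3 ∧ η3 = Real.exp (-b) / (2 * 2 ^ X.θ2) :=
    ⟨_, by positivity, rfl⟩
  have h2θ : (1 : ℝ) ≤ 2 ^ X.θ2 := Real.one_le_rpow (by norm_num) hθ.le
  have hη3b : η3 ≤ Real.exp (-b) := by
    rw [hη3a]
    exact div_le_self heb.le (by linarith)
  obtain ⟨η4, hη4, hη4a, hη4b, hη4c⟩ : ∃ η4 : ℝ, 0 < η4 ∧ η4 ≤ rG * Real.exp (-b) ∧
      η4 ≤ r4 / 2 * Real.exp (-b) ∧ η4 ≤ Real.exp (-Q) / 8 * Real.exp (-b) := by
    refine ⟨min (rG * Real.exp (-b)) (min (r4 / 2 * Real.exp (-b))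
      (Real.exp (-Q) / 8 * Real.exp (-b))), ?_, min_le_left _ _,
      (min_le_right _ _).trans (min_le_left _ _), (min_le_right _ _).trans (min_le_right _ _)⟩
    exact lt_min (by positivity) (lt_min (by positivity) (by positivity))
  obtain ⟨ηu, hηu, hηu1, hηu2⟩ : ∃ ηu : ℝ, 0 < ηu ∧ ηu ≤ εo / 4 ∧ ηu ≤ ρ' / 4 :=
    ⟨min (εo / 4) (ρ' / 4), lt_min (by positivity) (by positivity), min_le_left _ _,
      min_le_right _ _⟩
  obtain ⟨N1, hN1⟩ := gnum (a := a) (b := b) (Cg := Cg) (c' := c') (t0 := ‖X.T‖) (A := X.A)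
    (θ := X.θ2) (η3 := η3) (η4 := η4) (ηu := ηu) (Nb := Nb) (M := X.M) (by linarith) hTn hA hθ hη3
    hη4 hηu hM hc24 hc25
  obtain ⟨N2, hN2⟩ := gn_ev (β := c') hc' (show 0 < min (ρ' / 2) (εo / 4) by positivity)
  obtain ⟨N3, hN3⟩ := exists_nat_ge ((Q + b + 3) / c')
  refine ⟨J3 + N1 + N2 + N3, ?_⟩
  intro J1 hJ1 u0 m hw0 hdir hT
  have E1 := hN1 J1 (by omega)
  have E2 := hN2 J1 (by omega)
  clear hN1 hN2
  have E2a : (2 : ℝ) ^ (-(c' * (J1 : ℝ))) ≤ ρ' / 2 := E2.trans (min_le_left _ _)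
  have E2b : (2 : ℝ) ^ (-(c' * (J1 : ℝ))) ≤ εo / 4 := E2.trans (min_le_right _ _)
  have hJ0 : (0 : ℝ) ≤ J1 := Nat.cast_nonneg _
  have E3 : Q + b + 3 ≤ c' * J1 := by
    have h1 : (N3 : ℝ) ≤ J1 := by exact_mod_cast (by omega : N3 ≤ J1)
    have h2 := hN3.trans h1
    rw [div_le_iff₀ hc'] at h2
    linarith
  have hcJ : 3 ≤ c' * J1 := by linarith
  -- the size
  have hs2 : (1 / 2 : ℝ) ^ J1 = (2 : ℝ) ^ (-(J1 : ℝ)) := by
    rw [Real.rpow_neg (by norm_num), Real.rpow_natCast, one_div, inv_pow]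
  have hww : ∀ u : ℂ, X.ww u = D.vv X.c + X.T * u ^ X.M := fun u => rfl
  have hTM : ‖X.ww u0 - D.vv X.c‖ = ‖X.T‖ * ‖u0‖ ^ X.M := by
    rw [hww, add_sub_cancel_left, norm_mul, norm_pow]
  have hTM2 : ‖X.T‖ * ‖u0‖ ^ X.M ≤ (2 : ℝ) ^ (-(J1 : ℝ)) := by
    have hA' := hw0
    unfold An at hA'
    rw [mem_setOf_eq, hTM, hs2] at hA'
    exact hA'.2
  obtain ⟨hu0s, hu0θ, E4⟩ := E1 ‖u0‖ (norm_nonneg _) hTM2
  obtain ⟨σ, hσ⟩ : ∃ σ : ℝ, σ = (2 : ℝ) ^ (-(5 * c' * (J1 : ℝ))) := ⟨_, rfl⟩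
  rw [← hσ] at hu0θ E4
  have hσ0 : 0 < σ := by rw [hσ]; positivity
  obtain ⟨ρ1, al, hρ1, hρ1u, hρ1c, hsub, hal, hgm, hgd, hder, halr, halb⟩ :=
    H3 J1 (by omega) u0 m hw0 hT
  have hnu : 0 < ‖u0‖ := by linarith
  have hu0 : u0 ≠ 0 := norm_pos_iff.1 hnu
  -- the scale
  obtain ⟨N, hN⟩ : ∃ N : ℕ, N = ⌊c' * (J1 : ℝ)⌋₊ := ⟨_, rfl⟩
  have hNle : (N : ℝ) ≤ c' * J1 := by rw [hN]; exact Nat.floor_le (by positivity)
  have hNlt : c' * J1 < N + 1 := by rw [hN]; exact Nat.lt_floor_add_one _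
  have hσ1 : σ ≤ 1 / 2 := by
    rw [hσ]
    calc (2 : ℝ) ^ (-(5 * c' * (J1 : ℝ))) ≤ (2 : ℝ) ^ (-1 : ℝ) :=
          Real.rpow_le_rpow_of_exponent_le (by norm_num) (by linarith)
      _ = 1 / 2 := by rw [Real.rpow_neg_one]; norm_num
  have hσN0 : 0 < σ ^ Nb := by positivity
  have hσN1 : σ ^ Nb ≤ 1 := pow_le_one₀ hσ0.le (by linarith)
  have hlogσ : Real.log (1 / σ) = 5 * c' * J1 * Real.log 2 := by
    rw [one_div, Real.log_inv, hσ, Real.log_rpow (by norm_num)]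
    ring
  have h2N : (0 : ℝ) < 2 ^ N := by positivity
  obtain ⟨I1, I2⟩ := DN.img (h := X.g m) (x := u0) (a := al) (ρ := ρ1) (ρ' := ρ1 / 2 ^ N)
    (by positivity) (div_le_self hρ1.le (one_le_pow₀ (by norm_num))) hal hgd hder
  have hna : 0 < ‖al‖ := norm_pos_iff.2 hal
  have hball : ball (X.g m u0) σ ⊆ X.g m '' ball u0 (ρ1 / 2 ^ N) := by
    refine (ball_subset_ball ?_).trans I2
    have h1 : (2 : ℝ) ^ N ≤ (2 : ℝ) ^ (c' * (J1 : ℝ)) := by
      rw [← Real.rpow_natCast]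
      exact Real.rpow_le_rpow_of_exponent_le (by norm_num) hNle
    have h2 : (2 : ℝ) ^ (1 : ℝ) ≤ (2 : ℝ) ^ (c' * (J1 : ℝ)) :=
      Real.rpow_le_rpow_of_exponent_le (by norm_num) (by linarith)
    rw [Real.rpow_one] at h2
    have h3 : σ * ((2 : ℝ) ^ (c' * (J1 : ℝ)) * (2 : ℝ) ^ (c' * (J1 : ℝ))) =
        (2 : ℝ) ^ (-((c' + 2 * c') * (J1 : ℝ))) := by
      rw [hσ, ← Real.rpow_add (by norm_num), ← Real.rpow_add (by norm_num)]
      congr 1
      ring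
    have h4 : ‖al‖ * (ρ1 / 2 ^ N) / 2 = ‖al‖ * ρ1 / (2 ^ N * 2) := by
      field_simp
    rw [h4, le_div_iff₀ (by positivity)]
    calc σ * (2 ^ N * 2) ≤ σ * ((2 : ℝ) ^ (c' * (J1 : ℝ)) * (2 : ℝ) ^ (c' * (J1 : ℝ))) := by
          refine mul_le_mul_of_nonneg_left ?_ hσ0.le
          exact mul_le_mul h1 h2 (by norm_num) (by positivity)
      _ = (2 : ℝ) ^ (-((c' + 2 * c') * (J1 : ℝ))) := h3
      _ ≤ ‖al‖ * ρ1 := halb
  have hr1b : ∀ u ∈ ball u0 ρ1, X.g m u ∈ thickening D.δ D.J ∧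
      ‖X.g m u - X.g m u0‖ ≤ r1 * D.dd (X.g m u0) := by
    intro u hu
    refine ⟨thickening_mono (by linarith) _ (hgm m le_rfl u hu), ?_⟩
    refine (I1 u hu).trans ?_
    rw [mem_ball, dist_eq_norm] at hu
    have h1 : ‖al‖ * ‖u - u0‖ ≤ ‖al‖ * ρ1 := mul_le_mul_of_nonneg_left hu.le hna.le
    have h2 := dd_nonneg D (X.g m u0)
    have h3 : 0 ≤ r1 * D.dd (X.g m u0) := by positivity
    linarith
  have hQN : a * Real.log (1 / σ) + b ≤ Q * (N : ℝ) := by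
    rw [hlogσ]
    have h1 : Q * (c' * J1 - 1) ≤ Q * (N : ℝ) := mul_le_mul_of_nonneg_left (by linarith) hQ0.le
    have h2 : 0 ≤ 5 * a * Real.log 2 * (c' * J1) := by positivity
    have h3 : Q * (c' * J1) = 10 * a * Real.log 2 * (c' * J1) + c' * J1 := by
      rw [hQ]
      ring
    linarith
  obtain ⟨j, i, hjN, hTT, hiN, G1, G2, G3⟩ :=
    H2 Q N (X.g m) u0 ρ1 σ hQ0 hρ1 hσ0 hσ1 hQN hr1b hball
  -- the perturbation is small
  obtain ⟨ρ, hρ⟩ : ∃ ρ : ℝ, ρ = ρ1 / 2 ^ j := ⟨_, rfl⟩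
  have hρ0 : 0 < ρ := by rw [hρ]; positivity
  have hρρ1 : ρ ≤ ρ1 := by rw [hρ]; exact div_le_self hρ1.le (one_le_pow₀ (by norm_num))
  have hρ2 : ρ1 / 2 ^ (j + 1) = ρ / 2 := by rw [hρ, pow_succ]; field_simp
  rw [← hρ] at G1 G2 G3
  rw [hρ2] at G3
  have hbb : ball u0 ρ ⊆ ball u0 ρ1 := ball_subset_ball hρρ1
  have hun : ∀ u ∈ ball u0 ρ1, ‖u‖ ≤ 2 * ‖u0‖ := by
    intro u hu
    rw [mem_ball, dist_eq_norm] at hu
    have h1 := norm_add_le (u - u0) u0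
    rw [sub_add_cancel] at h1
    linarith
  have hun0 : ∀ u ∈ ball u0 ρ1, u ≠ 0 := by
    intro u hu h0
    rw [mem_ball, dist_eq_norm, h0, zero_sub, norm_neg] at hu
    linarith
  obtain ⟨ω, hω⟩ : ∃ ω : ℝ, ω = η4 * σ ^ Nb := ⟨_, rfl⟩
  have hω0 : 0 < ω := by rw [hω]; positivity
  have hTT0 := TT_nonneg D (X.g m u0) i
  have hωi : ∀ u ∈ ball u0 ρ1,
      (i : ℝ) * (X.A * ‖u‖ ^ X.M) * Real.exp (Cg * D.TT (X.g m u0) i) ≤ ω := by
    intro u hu
    rw [hω]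
    refine le_trans ?_ (E4 i (D.TT (X.g m u0) i) (Nat.cast_nonneg _) hiN hTT)
    refine mul_le_mul_of_nonneg_right ?_ (Real.exp_pos _).le
    refine mul_le_mul_of_nonneg_left ?_ (Nat.cast_nonneg _)
    refine mul_le_mul_of_nonneg_left ?_ (by linarith)
    exact pow_le_pow_left₀ (norm_nonneg _) (hun u hu) _
  have hlowdd : ∀ {x : ℝ}, σ ^ Nb ≤ Real.exp b * x → Real.exp (-b) * σ ^ Nb ≤ x := by
    intro x hx
    have h1 := mul_le_mul_of_nonneg_left hx heb.le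
    rwa [← mul_assoc, hebb, one_mul] at h1
  have F : ∀ u ∈ ball u0 ρ, ∀ l ≤ i, ‖X.g (m + l) u - D.f^[l] (X.g m u)‖ ≤
      (l : ℝ) * (X.A * ‖u‖ ^ X.M) * Real.exp (Cg * D.TT (X.g m u0) l) ∧
        (l < i → X.g (m + l) u ∈ thickening D.δ D.J) := by
    intro u hu
    refine HG X u (X.g m u0) m i (hsub (hbb hu)) ?_
    intro l hl
    obtain ⟨g1, g2, g3, g4⟩ := G1 l hl
    have hdd := dd_nonneg D (D.f^[l] (X.g m u0))
    refine ⟨thickening_mono (by linarith) _ g2, ?_, ?_⟩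
    · exact (g4 u hu).trans (mul_le_mul_of_nonneg_right hr1G hdd)
    · refine (hωi u (hbb hu)).trans ?_
      rw [hω]
      calc η4 * σ ^ Nb ≤ rG * Real.exp (-b) * σ ^ Nb := mul_le_mul_of_nonneg_right hη4a hσN0.le
        _ = rG * (Real.exp (-b) * σ ^ Nb) := by ring
        _ ≤ rG * D.dd (D.f^[l] (X.g m u0)) := mul_le_mul_of_nonneg_left (hlowdd g3) hrG.le
  have F1 : ∀ u ∈ ball u0 ρ, ‖X.g (m + i) u - D.f^[i] (X.g m u)‖ ≤ ω := fun u hu =>
    (F u hu i le_rfl).1.trans (hωi u (hbb hu))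
  have F2 : ∀ l < m + i, ∀ u ∈ ball u0 ρ, X.g l u ∈ thickening D.δ D.J := by
    intro l hl u hu
    rcases le_or_gt l m with h | h
    · exact thickening_mono (by linarith) _ (hgm l h u (hbb hu))
    · have h1 := (F u hu (l - m) (by omega)).2 (by omega)
      rwa [show m + (l - m) = l by omega] at h1
  have F3 : DifferentiableOn ℂ (X.g (m + i)) (ball u0 ρ) :=
    fam_diff D X isOpen_ball (hbb.trans hsub) F2 (m + i) le_rfl
  have hω1 : ω ≤ 1 := by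
    rw [hω]
    have h1 : η4 ≤ 1 := by
      refine hη4c.trans ?_
      have : Real.exp (-Q) / 8 * Real.exp (-b) ≤ 1 * 1 :=
        mul_le_mul (by linarith) heb1 heb.le (by norm_num)
      linarith
    calc η4 * σ ^ Nb ≤ 1 * 1 := mul_le_mul h1 hσN1 hσN0.le (by norm_num)
      _ = 1 := one_mul 1
  have F4 : ∀ u ∈ ball u0 ρ, ‖X.g (m + i) u‖ ≤ R + 1 := by
    intro u hu
    have h1 := F1 u hu
    have h2 := G2 u hu
    have h3 := norm_add_le (X.g (m + i) u - D.f^[i] (X.g m u)) (D.f^[i] (X.g m u))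
    rw [sub_add_cancel] at h3
    linarith
  have hu0b : u0 ∈ ball u0 ρ := mem_ball_self hρ0
  refine ⟨ρ, hρ0, hρρ1.trans hρ1u, ?_⟩
  rcases G3 with ⟨hny, hyl, hyu⟩ | ⟨α, hα1, hα2, hα3, u, hu, hub⟩
  · -- all parameters are good
    have h0 : ball u0 (3 / 4 * ρ) ∩ {u | ¬ X.P u} = ∅ := by
      rw [Set.eq_empty_iff_forall_notMem]
      rintro u ⟨hu, hP⟩
      have hu' : u ∈ ball u0 ρ := ball_subset_ball (by linarith) hu
      have hu1 := hbb hu'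
      apply hP
      have hlow := hlowdd hyl
      have hdir2 : ‖u / (‖u‖ : ℂ) - u0 / (‖u0‖ : ℂ)‖ < εo := by
        have h1 := dir_near hu0 (hun0 u hu1)
        refine lt_of_le_of_lt h1 ?_
        rw [div_lt_iff₀ hnu]
        rw [mem_ball, dist_eq_norm] at hu1
        have h2 : ρ1 ≤ ‖u0‖ * (εo / 4) := hρ1c.trans (mul_le_mul_of_nonneg_left E2b hnu.le)
        have h3 : 0 < εo * ‖u0‖ := by positivity
        linarith
      refine HO u ?_ (hun0 u hu1) ⟨_, hdir, hdir2⟩ (m + i) (D.f^[i] (X.g m u0))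
        (fun l hl => F2 l hl u hu') (F4 u hu') ?_ ?_ hny
      · rw [mem_ball, dist_zero_right]
        have := hun u hu1
        linarith
      · have h1 := F1 u hu'
        have h2 := hyu u hu'
        have h3 : X.g (m + i) u - D.f^[i] (X.g m u0) =
            (X.g (m + i) u - D.f^[i] (X.g m u)) + (D.f^[i] (X.g m u) - D.f^[i] (X.g m u0)) := by
          ring
        rw [h3]
        refine (norm_add_le _ _).trans ?_
        have hdd := dd_nonneg D (D.f^[i] (X.g m u0))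
        have h4 : r1 * D.dd (D.f^[i] (X.g m u0)) ≤ r4 / 2 * D.dd (D.f^[i] (X.g m u0)) :=
          mul_le_mul_of_nonneg_right hr14 hdd
        have h5 : ω ≤ r4 / 2 * D.dd (D.f^[i] (X.g m u0)) := by
          rw [hω]
          calc η4 * σ ^ Nb ≤ r4 / 2 * Real.exp (-b) * σ ^ Nb :=
                mul_le_mul_of_nonneg_right hη4b hσN0.le
            _ = r4 / 2 * (Real.exp (-b) * σ ^ Nb) := by ring
            _ ≤ _ := mul_le_mul_of_nonneg_left hlow (by positivity)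
        linarith
      · -- the distance is at least a power of the parameter
        have h1 : ‖u‖ ^ X.θ2 ≤ (2 * ‖u0‖) ^ X.θ2 :=
          Real.rpow_le_rpow (norm_nonneg _) (hun u hu1) hθ.le
        have h2 : (2 * ‖u0‖) ^ X.θ2 = 2 ^ X.θ2 * (‖u0‖ ^ (X.θ2 / 2) * ‖u0‖ ^ (X.θ2 / 2)) := by
          rw [Real.mul_rpow (by norm_num) (norm_nonneg _), ← Real.rpow_add hnu]
          congr 2
          ring
        have h3 : ‖u0‖ ^ (X.θ2 / 2) ≤ 1 := by
          refine hu0θ.trans ?_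
          calc η3 * σ ^ Nb ≤ 1 * 1 := mul_le_mul (hη3b.trans heb1) hσN1 hσN0.le (by norm_num)
            _ = 1 := one_mul 1
        have h4 : ‖u0‖ ^ (X.θ2 / 2) * ‖u0‖ ^ (X.θ2 / 2) ≤ (η3 * σ ^ Nb) * 1 :=
          mul_le_mul hu0θ h3 (by positivity) (by positivity)
        calc 2 * ‖u‖ ^ X.θ2 ≤ 2 * (2 ^ X.θ2 * ((η3 * σ ^ Nb) * 1)) := by
              refine mul_le_mul_of_nonneg_left ?_ (by norm_num)
              rw [h2] at h1
              exact h1.trans (mul_le_mul_of_nonneg_left h4 (by positivity))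
          _ = Real.exp (-b) * σ ^ Nb := by
              rw [hη3a]
              field_simp
          _ ≤ _ := hlow
    rw [h0, measure_empty]
    exact bot_le
  · have hαl := hlowdd hα1
    have hα0 : 0 < α := lt_of_lt_of_le (by positivity) hαl
    have hωα : ω ≤ Real.exp (-Q) / 8 * α := by
      rw [hω]
      calc η4 * σ ^ Nb ≤ Real.exp (-Q) / 8 * Real.exp (-b) * σ ^ Nb :=
            mul_le_mul_of_nonneg_right hη4c hσN0.le
        _ = Real.exp (-Q) / 8 * (Real.exp (-b) * σ ^ Nb) := by ring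
        _ ≤ _ := mul_le_mul_of_nonneg_left hαl (by positivity)
    have hωα2 : ω ≤ 1 / 8 * α := hωα.trans (mul_le_mul_of_nonneg_right (by linarith) hα0.le)
    have hosc : ∀ u ∈ ball u0 ρ, ‖X.g (m + i) u - X.g (m + i) u0‖ ≤ 2 * α := by
      intro u hu
      have h1 := F1 u hu
      have h2 := F1 u0 hu0b
      have h3 := hα3 u hu
      have h4 : X.g (m + i) u - X.g (m + i) u0 = (X.g (m + i) u - D.f^[i] (X.g m u)) +
          (D.f^[i] (X.g m u) - D.f^[i] (X.g m u0)) - (X.g (m + i) u0 - D.f^[i] (X.g m u0)) := by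
        ring
      rw [h4]
      refine (norm_sub_le _ _).trans ?_
      have h5 := norm_add_le (X.g (m + i) u - D.f^[i] (X.g m u))
        (D.f^[i] (X.g m u) - D.f^[i] (X.g m u0))
      linarith
    refine H4 u0 ρ (2 * α) (m + i) (by linarith) hdir hρ0 ?_ (by positivity) F2 F3 F4 hosc ?_ ?_
      ⟨u, hu, ?_⟩
    · refine lt_of_le_of_lt (hρρ1.trans hρ1c) ?_
      rw [mul_comm]
      refine mul_lt_mul_of_pos_right ?_ hnu
      linarith
    · have h1 := dd_lip D (X.g (m + i) u0) (D.f^[i] (X.g m u0))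
      rw [abs_sub_le_iff] at h1
      have h2 := h1.1.trans (F1 u0 hu0b)
      have h3 : r1 * D.dd (X.g (m + i) u0) ≤ r1 * (D.dd (D.f^[i] (X.g m u0)) + ω) :=
        mul_le_mul_of_nonneg_left (by linarith) hr1.le
      have h4 : r1 * ω ≤ 1 * ω := mul_le_mul_of_nonneg_right hr1one hω0.le
      linarith
    · refine hu0θ.trans ?_
      have h1 : η3 * σ ^ Nb ≤ Real.exp (-b) * σ ^ Nb := mul_le_mul_of_nonneg_right hη3b hσN0.le
      linarith
    · have hu' : u ∈ ball u0 ρ := ball_subset_ball (by linarith) hu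
      have h1 := F1 u hu'
      have h2 := F1 u0 hu0b
      have h3 : D.f^[i] (X.g m u) - D.f^[i] (X.g m u0) =
          (X.g (m + i) u - X.g (m + i) u0) - (X.g (m + i) u - D.f^[i] (X.g m u)) +
            (X.g (m + i) u0 - D.f^[i] (X.g m u0)) := by ring
      have h4 : ‖D.f^[i] (X.g m u) - D.f^[i] (X.g m u0)‖ ≤
          ‖X.g (m + i) u - X.g (m + i) u0‖ + ω + ω := by
        rw [h3]
        refine (norm_add_le _ _).trans (add_le_add ?_ h2)
        exact (norm_sub_le _ _).trans (add_le_add le_rfl h1)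
      linarith

end Pool.Agent.H44.DP
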