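import Pool.Agent.H44.DP.BRF
import Pool.Agent.H44.DN.KOE

/-!
# Module NUM: branches at an earlier time

PROOF. `x_j = f^[j] x`, `m = n - 1 - i`. Let `g` be the family of `h`, `G = g (i + 1)` on `B = ball x_n (r / 2)` (`⊆ ball x_n (r Del j)` for all `j`), injective, `G x_n = x_m`, `‖deriv G x_n‖ = 1 / ‖deriv (f^[i+1]) x_m‖ =: 1 / Λ` (`br_der`, `br_inj`). `univ_cover`: `ball x_m ((r/2) / (16 Λ)) ⊆ G '' B`. Put `s = r / (32 Λ)`. For `z ∈ ball x_m s`: `z = G w`, `w = f^[i+1] z ∈ B` (`br_id`). Define `g' j z = g (i + 1 + j) (f^[i+1] z)` for `j ≥ 1` and `g' 0 z = z`; note `g (i+1) (f^[i+1] z) = z`.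
`Br D x m m s g'`: `diff` by composition (`f^[i+1]` is differentiable at `z = G w`, `br_it`), `val`: `f^[i+1] x_m = x_n`, `g (i+1+j) x_n = x_(n-(i+1+j)) = x_(m - j)`; `mem`, `step` from those of `g`; `s * Del j ≤ s`.
-/

set_option autoImplicit false

open Filter Topology Metric Set

namespace Pool.Agent.H44.DP

theorem num {D : Ps} {x : ℂ} (hx : NC D x) {n : ℕ} {r : ℝ} (hr : 0 < r) (h : UU D x n r) {i : ℕ}
    (hi : i < n) :
    UU D x (n - 1 - i) (r / (32 * ‖deriv (D.f^[i + 1]) (D.f^[n - 1 - i] x)‖)) := by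
  obtain ⟨g, hg⟩ := h
  have hJG : ∀ i, D.f^[i] x ∈ thickening D.δ D.J ∧ D.f^[i] x ∉ D.S := fun i =>
    ⟨J_th D (it_J D hx.1 i) D.hδ, hx.2 i⟩
  have hn1 : n - (i + 1) = n - 1 - i := by omega
  have hsubB : ∀ j, ball (D.f^[n] x) (r / 2) ⊆ ball (D.f^[n] x) (r * Del j) := by
    intro j
    apply ball_subset_ball
    have := del_half j
    nlinarith
  have hxn : D.f^[n] x ∈ ball (D.f^[n] x) (r / 2) := mem_ball_self (by positivity)
  have hval : g (i + 1) (D.f^[n] x) = D.f^[n - 1 - i] x := by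
    rw [hg.val (i + 1) (by omega), hn1]
  have hne : deriv (D.f^[i + 1]) (D.f^[n - 1 - i] x) ≠ 0 := by
    apply it_ne' D
    intro l _
    rw [← Function.iterate_add_apply]
    exact hJG _
  have hΛ : 0 < ‖deriv (D.f^[i + 1]) (D.f^[n - 1 - i] x)‖ := norm_pos_iff.mpr hne
  have hder : ‖deriv (D.f^[i + 1]) (D.f^[n - 1 - i] x)‖ * ‖deriv (g (i + 1)) (D.f^[n] x)‖ = 1 := by
    have h1 := br_der hg hr (i := i + 1) (by omega) (hsubB _ hxn)
    rw [hval] at h1
    rw [← norm_mul, h1, norm_one]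
  have hcov : ball (D.f^[n - 1 - i] x)
      (r / (32 * ‖deriv (D.f^[i + 1]) (D.f^[n - 1 - i] x)‖)) ⊆
      g (i + 1) '' ball (D.f^[n] x) (r / 2) := by
    have h2 := Pool.Agent.H80.AJ.univ_cover (g := g (i + 1)) (c := D.f^[n] x) (R := r / 2)
      (by positivity) ((hg.diff (i + 1) (by omega)).mono (hsubB _))
      ((br_inj hg hr (i := i + 1) (by omega)).mono (hsubB _))
    rw [hval] at h2
    refine (ball_subset_ball (le_of_eq ?_)).trans h2
    have h3 : ‖deriv (g (i + 1)) (D.f^[n] x)‖ =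
        1 / ‖deriv (D.f^[i + 1]) (D.f^[n - 1 - i] x)‖ := by
      field_simp
      linarith
    rw [h3]
    field_simp
    norm_num
  obtain ⟨Λ, hΛe⟩ : ∃ Λ, Λ = ‖deriv (D.f^[i + 1]) (D.f^[n - 1 - i] x)‖ := ⟨_, rfl⟩
  rw [← hΛe] at hcov hΛ ⊢
  have hs : 0 < r / (32 * Λ) := by positivity
  -- the points of the small ball
  have hpt : ∀ z ∈ ball (D.f^[n - 1 - i] x) (r / (32 * Λ)),
      D.f^[i + 1] z ∈ ball (D.f^[n] x) (r / 2) ∧ g (i + 1) (D.f^[i + 1] z) = z ∧
        ∀ l < i + 1, D.f^[l] z ∈ D.G := by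
    intro z hz
    obtain ⟨w, hw, hwz⟩ := hcov hz
    have h1 : D.f^[i + 1] z = w := by
      rw [← hwz]
      exact br_id hg hr (i := i + 1) (by omega) (hsubB _ hw)
    refine ⟨by rwa [h1], by rw [h1]; exact hwz, ?_⟩
    intro l hl
    have hw' : w ∈ ball (D.f^[n] x) (r * Del (0 + (i + 1))) := hsubB _ hw
    have h2 := (br_it hg hr (i := 0) (j := i + 1) (by omega) hw').2 l hl.le
    rw [zero_add, hwz] at h2
    exact h2
  refine ⟨fun j z => g (i + 1 + j) (D.f^[i + 1] z), ?_⟩
  exact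
    { le := le_rfl
      zero := fun z hz => (hpt z hz).2.1
      diff := by
        intro j hj z hz
        have hz' := hpt z (brf_one hs j hz)
        have e1 : DifferentiableAt ℂ (D.f^[i + 1]) z := it_diff D hz'.2.2
        have e2 : DifferentiableAt ℂ (g (i + 1 + j)) (D.f^[i + 1] z) :=
          (hg.diff (i + 1 + j) (by omega)).differentiableAt
            (isOpen_ball.mem_nhds (hsubB _ hz'.1))
        exact (e2.comp z e1).differentiableWithinAt
      val := by
        intro j hj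
        have e1 : D.f^[i + 1] (D.f^[n - 1 - i] x) = D.f^[n] x := by
          rw [← Function.iterate_add_apply]
          congr 1
          omega
        simp only [e1]
        rw [hg.val (i + 1 + j) (by omega)]
        congr 1
        omega
      mem := by
        intro j hj z hz
        have hz' := hpt z (brf_one hs j hz)
        exact hg.mem (i + 1 + j) (by omega) _ (hsubB _ hz'.1)
      step := by
        intro j hj z hz
        have hz' := hpt z (brf_one hs (j + 1) hz)
        exact hg.step (i + 1 + j) (by omega) _ (hsubB _ hz'.1) }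

end Pool.Agent.H44.DP
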