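import Pool.Agent.H44.DP.PHI

/-!
# Module STEP: growth between an obstruction and the obstructed time

PROOF. `x_j = f^[j] x`, `m = n - 1 - i`, `Λ = ‖deriv (f^[i+1]) x_m‖`, `ζ = ‖x_m - c‖ > 0`, `P = P0 (i+1)^N0`, `E = ‖deriv (f^[i]) (f c)‖`. `Aw x n = Aw x m * Λ * ph x_m / ph x_n` (`it_add`, `n = m + (i+1)`; `ph > 0` by `ph_pos`). `r1, κ` from `phi_near`; `z3 ≤ r1 / 8`, `z3 ≤ r0 / 4`; so `ph x_m = ζ ^ (1 - α M c)` (`α = al`, `β = 1 - α`).
`d4`: `Λ ≥ r / (P ζ)`. So `Λ ph x_m ≥ (r / P) ζ ^ (-α M c)` and `ζ ^ (M c) ≤ ζ ^ (m c) ≤ P r / E` (`ζ ≤ 1`, `d1`).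
Case A: `zt x_n ≥ r1`: `ph x_n ≤ 1`; `E ≥ q^i / C` (`D.ce3`, `free`): `Λ ph x_m / ph x_n ≥ (r/P) (E / (P r)) ^ α ≥ (r ^ (1 - α) / P^2) (q^i / C) ^ α`, and `r ≥ r1 * min 1 (r / zt x_n)` (`r ≤ 1`): done with constants.
Case B: `zt x_n < r1`, `b ∈ Cr` with `s = ‖x_n - b‖ = zt x_n`, `ph x_n = s ^ (1 - α M b)`. Case B1: `f^[i+1] c ≠ b`: `D.ce4`, `‖f^[i+1] c - b‖ ≤ s + 2 r`: `E (s + 2 r) ^ (M b - 1) ≥ q^i / C`. So `ζ ^ M c ≤ P r / E ≤ C P q^(-i) r (s + 2 r) ^ (M b - 1)`. With `ν = r / s`: `r (s + 2r)^(M b - 1) = s ^ (M b) ν (1 + 2 ν)^(M b - 1)`. Hence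
`Λ ph x_m / ph x_n ≥ (r / (P s)) (s ^ (M b) / ζ ^ (M c)) ^ α ≥ (ν / P) (q^i / (C P ν (1 + 2 ν)^(M b - 1))) ^ α ≥ q^(α i) / (C P^2) * ν ^ (1 - α) (1 + 2 ν) ^ (-α (M b - 1))`. For `ν ≤ 1` the last two factors are `≥ ν ^ (1-α) / 3`; for `ν > 1` they are `≥ ν ^ (1 - α) (3 ν) ^ (-α (M b - 1)) ≥ 1/3` (`α M b ≤ 1/2`).
Case B2: `f^[i+1] c = b`: `s = ‖x_n - b‖` is between `r/2` and `2 r` (`far`, `near`), `D.rel`: `M c = m c * M b`, `i < τ c` (`τ c = i + 1 + τ b`), so `E ≤ L^i` is bounded (all points `f^[j] c ∈ J`), `ζ ^ (m c) ≤ P r / E ≤ 2 C P s`, and `ζ ^ (M c) ≤ (2 C P) ^ (M b) s ^ (M b)`. So `Λ ph x_m / ph x_n ≥ (r / (P s)) (s ^ (M b) / ζ ^ (M c)) ^ α ≥ (1 / (2 P)) (2 C P) ^ (-1/2)`, and `q ^ (α i)` is bounded.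
(If `f^[i+1] c` is a critical point different from the nearest point `b` of `x_n` in case A or B: this is case A or B1, nothing special.)
-/

set_option autoImplicit false

open Filter Topology Metric Set

namespace Pool.Agent.H44.DP

private theorem st_pow {ζ α : ℝ} (hζ : 0 < ζ) (M : ℕ) :
    ζ ^ (1 - α * (M : ℝ)) = ζ * (ζ ^ M) ^ (-α) := by
  rw [← Real.rpow_natCast ζ M, ← Real.rpow_mul hζ.le]
  nth_rewrite 2 [← Real.rpow_one ζ]
  rw [← Real.rpow_add hζ]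
  congr 1
  ring

private theorem st_core {T q α A Y : ℝ} {i : ℕ} (hT : 0 < T) (hq : 0 < q) (hα : 0 < α)
    (hα1 : α ≤ 1) (hA : 1 ≤ A) (hY : 0 < Y) (h : T * q ^ i ≤ A * Y) :
    q ^ (α * (i : ℝ)) ≤ A * (Y ^ α * T ^ (-α)) := by
  have h1 : q ^ i ≤ A * Y / T := by
    rw [le_div_iff₀ hT]
    linarith
  have h2 : q ^ (α * (i : ℝ)) = (q ^ i) ^ α := by
    rw [← Real.rpow_natCast q i, ← Real.rpow_mul hq.le, mul_comm]
  have hA0 : 0 < A := by linarith
  rw [h2]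
  calc (q ^ i) ^ α ≤ (A * Y / T) ^ α := Real.rpow_le_rpow (by positivity) h1 hα.le
    _ = A ^ α * (Y ^ α * T ^ (-α)) := by
        rw [Real.div_rpow (by positivity) hT.le, Real.mul_rpow hA0.le hY.le, Real.rpow_neg hT.le]
        ring
    _ ≤ A * (Y ^ α * T ^ (-α)) := by
        refine mul_le_mul_of_nonneg_right ?_ (by positivity)
        calc A ^ α ≤ A ^ (1 : ℝ) := Real.rpow_le_rpow_of_exponent_le hA hα1
          _ = A := Real.rpow_one A

private theorem st_nu {ν α : ℝ} {M : ℕ} (hν : 0 < ν) (hα : 0 < α) (hM : 1 ≤ M)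
    (hαM : α * (M : ℝ) ≤ 1) :
    (ν * (1 + 2 * ν) ^ (M - 1)) ^ α * (min 1 ν) ^ (1 - α) ≤ 3 * ν := by
  have hM1 : (1 : ℝ) ≤ M := by exact_mod_cast hM
  have hα1 : α ≤ 1 := by nlinarith
  rcases le_or_gt ν 1 with h1 | h1
  · rw [min_eq_right h1]
    have h2 : (1 + 2 * ν) ^ (M - 1) ≤ 3 ^ (M - 1) := pow_le_pow_left₀ (by positivity) (by linarith) _
    have h3 : (ν * (1 + 2 * ν) ^ (M - 1)) ^ α ≤ ν ^ α * (3 ^ (M - 1)) ^ α := by
      rw [← Real.mul_rpow hν.le (by positivity)]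
      exact Real.rpow_le_rpow (by positivity) (mul_le_mul_of_nonneg_left h2 hν.le) hα.le
    have h4 : ((3 : ℝ) ^ (M - 1)) ^ α ≤ 3 := by
      rw [← Real.rpow_natCast (3 : ℝ) (M - 1), ← Real.rpow_mul (by norm_num)]
      calc (3 : ℝ) ^ (((M - 1 : ℕ) : ℝ) * α) ≤ (3 : ℝ) ^ (1 : ℝ) := by
            refine Real.rpow_le_rpow_of_exponent_le (by norm_num) ?_
            have : ((M - 1 : ℕ) : ℝ) ≤ M := by exact_mod_cast Nat.sub_le _ _
            nlinarith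
        _ = 3 := Real.rpow_one 3
    have h5 : ν ^ α * ν ^ (1 - α) = ν := by
      rw [← Real.rpow_add hν, show α + (1 - α) = 1 by ring, Real.rpow_one]
    have h6 : 0 ≤ ν ^ (1 - α) := by positivity
    calc (ν * (1 + 2 * ν) ^ (M - 1)) ^ α * ν ^ (1 - α)
        ≤ (ν ^ α * (3 ^ (M - 1)) ^ α) * ν ^ (1 - α) := mul_le_mul_of_nonneg_right h3 h6
      _ = (ν ^ α * ν ^ (1 - α)) * ((3 : ℝ) ^ (M - 1)) ^ α := by ring
      _ ≤ (ν ^ α * ν ^ (1 - α)) * 3 := mul_le_mul_of_nonneg_left h4 (by positivity)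
      _ = 3 * ν := by rw [h5]; ring
  · rw [min_eq_left h1.le, Real.one_rpow, mul_one]
    have h2 : ν * (1 + 2 * ν) ^ (M - 1) ≤ (3 * ν) ^ M := by
      have h3 : (1 + 2 * ν) ^ (M - 1) ≤ (3 * ν) ^ (M - 1) :=
        pow_le_pow_left₀ (by positivity) (by linarith) _
      calc ν * (1 + 2 * ν) ^ (M - 1) ≤ (3 * ν) * (3 * ν) ^ (M - 1) :=
            mul_le_mul (by linarith) h3 (by positivity) (by positivity)
        _ = (3 * ν) ^ M := by
            rw [← pow_succ', Nat.sub_add_cancel hM]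
    calc (ν * (1 + 2 * ν) ^ (M - 1)) ^ α ≤ ((3 * ν) ^ M) ^ α :=
          Real.rpow_le_rpow (by positivity) h2 hα.le
      _ = (3 * ν) ^ ((M : ℝ) * α) := by
          rw [← Real.rpow_natCast (3 * ν) M, ← Real.rpow_mul (by positivity)]
      _ ≤ (3 * ν) ^ (1 : ℝ) := Real.rpow_le_rpow_of_exponent_le (by linarith) (by linarith)
      _ = 3 * ν := Real.rpow_one _

/-- the real inequality of the step, all cases -/
private theorem st_real (D : Ps) {r1 : ℝ} (hr1 : 0 < r1) (hr1h : r1 ≤ 1 / 2)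
    (hnear : ∀ c ∈ D.S, ∀ z : ℂ, ‖z - c‖ ≤ r1 → D.zt z = ‖z - c‖ ∧
      D.ph z = ‖z - c‖ ^ (1 - D.al * (D.M c : ℝ)) ∧ D.tt z = ‖z - c‖ ^ D.M c)
    {x : ℂ} (hx : NC D x) {n i : ℕ} {r P : ℝ} {c : ℂ} (hr : 0 < r) (_hr2 : r ≤ 1) (hP : 1 ≤ P)
    (ho : Ob D x n r i c P) (hz : ‖D.f^[n - 1 - i] x - c‖ ≤ r1) :
    D.q ^ (D.al * (i : ℝ)) * (min 1 (r / D.zt (D.f^[n] x))) ^ (1 - D.al) ≤
      4 * D.C * P ^ 2 * D.q ^ (∑ c ∈ D.S, D.τ c) / r1 *
        (‖deriv (D.f^[i + 1]) (D.f^[n - 1 - i] x)‖ * D.ph (D.f^[n - 1 - i] x) /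
          D.ph (D.f^[n] x)) := by
  have hα := al_pos D
  obtain ⟨α, hαd⟩ : ∃ α, α = D.al := ⟨_, rfl⟩
  rw [← hαd] at hα ⊢
  have hc := ho.mem
  have hmc := D.hm c hc
  have hmM := D.hmM c hc
  have hαM : α * (D.M c : ℝ) ≤ 1 / 2 := by rw [hαd]; exact al_le D (cr_S D hc)
  have hMc : (2 : ℝ) ≤ D.M c := by exact_mod_cast hmc.trans hmM
  have hα1 : α ≤ 1 := by nlinarith
  have hC := D.hC
  have hq := D.hq
  have hq0 : 0 < D.q := by linarith
  obtain ⟨xm, hxm⟩ : ∃ xm, xm = D.f^[n - 1 - i] x := ⟨_, rfl⟩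
  obtain ⟨xn, hxn⟩ : ∃ xn, xn = D.f^[n] x := ⟨_, rfl⟩
  have hxmC : xm ∉ D.S := by rw [hxm]; exact hx.2 _
  have hxnC : xn ∉ D.S := by rw [hxn]; exact hx.2 _
  have hd1 := ho.d1
  have hd2 := ho.d2
  have hd4 := ho.d4
  have hfar := ho.far
  have hnr := ho.near
  rw [← hxm] at hd1 hd2 hd4 hz ⊢
  rw [← hxn] at hfar hnr ⊢
  obtain ⟨ζ, hζd⟩ : ∃ ζ, ζ = ‖xm - c‖ := ⟨_, rfl⟩
  obtain ⟨E, hE⟩ : ∃ E, E = ‖deriv (D.f^[i]) (D.f c)‖ := ⟨_, rfl⟩
  obtain ⟨Λ, hΛ⟩ : ∃ Λ, Λ = ‖deriv (D.f^[i + 1]) xm‖ := ⟨_, rfl⟩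
  have hph := (hnear c (cr_S D hc) xm hz).2.1
  rw [← hζd, ← hαd] at hph
  rw [← hE, ← hζd] at hd1 hd2
  rw [← hΛ, ← hζd] at hd4
  rw [← hζd] at hz
  rw [← hΛ]
  have hζ : 0 < ζ := by
    rw [hζd]
    exact norm_pos_iff.2 (sub_ne_zero.2 fun h => hxmC (h ▸ cr_S D hc))
  have hζ1 : ζ ≤ 1 := by linarith
  have hE0 : 0 < E := by
    rcases lt_or_ge 0 E with h | h
    · exact h
    · have h' : E = 0 := le_antisymm h (by rw [hE]; exact norm_nonneg _)
      rw [h'] at hd2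
      simp only [mul_zero] at hd2
      linarith
  have hΛ0 : 0 ≤ Λ := by rw [hΛ]; exact norm_nonneg _
  have hphm : 0 < D.ph xm := ph_pos D hxmC
  have hphn : 0 < D.ph xn := ph_pos D hxnC
  have hphn1 := ph_le_one D xn
  obtain ⟨T, hT⟩ : ∃ T, T = ζ ^ D.M c := ⟨_, rfl⟩
  have hT0 : 0 < T := by rw [hT]; positivity
  have hTm : T ≤ ζ ^ D.m c := by
    rw [hT]
    exact pow_le_pow_of_le_one hζ.le hζ1 hmM
  have hTE : T * E ≤ P * r := (mul_le_mul_of_nonneg_right hTm hE0.le).trans hd1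
  have hTα : 0 < T ^ (-α) := Real.rpow_pos_of_pos hT0 _
  -- the main inequality
  have hstar : r * T ^ (-α) ≤ P * (Λ * D.ph xm) := by
    rw [hph, st_pow hζ, ← hT]
    have := mul_le_mul_of_nonneg_right hd4 hTα.le
    calc r * T ^ (-α) ≤ P * (Λ * ζ) * T ^ (-α) := this
      _ = P * (Λ * (ζ * T ^ (-α))) := by ring
  obtain ⟨W, hW⟩ : ∃ W, W = Λ * D.ph xm / D.ph xn := ⟨_, rfl⟩
  rw [← hW]
  have hWph : Λ * D.ph xm = W * D.ph xn := by
    rw [hW]
    field_simp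
  have hW0 : 0 < W := by
    have h1 : 0 < P * (Λ * D.ph xm) := lt_of_lt_of_le (mul_pos hr hTα) hstar
    have h2 : 0 < Λ * D.ph xm := (pos_iff_pos_of_mul_pos h1).1 (by linarith)
    rw [hW]
    exact div_pos h2 hphn
  have hs0 : 0 < D.zt xn := zt_pos D hxnC
  obtain ⟨s, hs⟩ : ∃ s, s = D.zt xn := ⟨_, rfl⟩
  rw [← hs] at hs0 ⊢
  obtain ⟨mn, hmn⟩ : ∃ mn, mn = min 1 (r / s) := ⟨_, rfl⟩
  have hmn0 : 0 < mn := by rw [hmn]; exact lt_min one_pos (div_pos hr hs0)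
  have hmn1 : mn ≤ 1 := by rw [hmn]; exact min_le_left _ _
  have hqT : 1 ≤ D.q ^ (∑ c ∈ D.S, D.τ c) := one_le_pow₀ hq.le
  have hr1' : r1 ≤ 1 := by linarith
  have hce3 := D.ce3 c hc i ho.free ho.npa
  rw [← hE] at hce3
  have hqi : (0 : ℝ) < D.q ^ i := by positivity
  have hCP : 1 ≤ D.C * P := by nlinarith
  -- it suffices to have the constant in one of three forms
  obtain ⟨Q, hQ⟩ : ∃ Q, Q = D.q ^ (∑ c ∈ D.S, D.τ c) := ⟨_, rfl⟩
  rw [← hQ] at hqT ⊢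
  rcases le_or_gt r1 s with hcase | hcase
  · -- case A
    have h1 : T * D.q ^ i ≤ (D.C * P) * r := by
      calc T * D.q ^ i ≤ T * (D.C * E) := mul_le_mul_of_nonneg_left hce3 hT0.le
        _ = D.C * (T * E) := by ring
        _ ≤ D.C * (P * r) := mul_le_mul_of_nonneg_left hTE (by linarith)
        _ = _ := by ring
    have h2 := st_core hT0 hq0 hα hα1 hCP hr h1
    have h3 : mn ^ (1 - α) ≤ r ^ (1 - α) / r1 := by
      have e1 : mn ≤ r / r1 := by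
        rw [hmn]
        exact (min_le_right _ _).trans (div_le_div_of_nonneg_left hr.le hr1 hcase)
      calc mn ^ (1 - α) ≤ (r / r1) ^ (1 - α) := Real.rpow_le_rpow hmn0.le e1 (by linarith)
        _ = r ^ (1 - α) / r1 ^ (1 - α) := Real.div_rpow hr.le hr1.le _
        _ ≤ r ^ (1 - α) / r1 := by
            refine div_le_div_of_nonneg_left (by positivity) hr1 ?_
            calc r1 = r1 ^ (1 : ℝ) := (Real.rpow_one r1).symm
              _ ≤ r1 ^ (1 - α) := Real.rpow_le_rpow_of_exponent_ge hr1 hr1' (by linarith)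
    have h4 : r ^ α * r ^ (1 - α) = r := by
      rw [← Real.rpow_add hr, show α + (1 - α) = 1 by ring, Real.rpow_one]
    have h5 : Λ * D.ph xm ≤ W := by
      rw [hWph]
      calc W * D.ph xn ≤ W * 1 := mul_le_mul_of_nonneg_left hphn1 hW0.le
        _ = W := mul_one _
    rw [← hmn]
    have h6 : D.q ^ (α * (i : ℝ)) * mn ^ (1 - α) ≤ D.C * P * (r * T ^ (-α)) / r1 := by
      calc D.q ^ (α * (i : ℝ)) * mn ^ (1 - α)
          ≤ (D.C * P * (r ^ α * T ^ (-α))) * (r ^ (1 - α) / r1) :=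
            mul_le_mul h2 h3 (by positivity) (by positivity)
        _ = D.C * P * ((r ^ α * r ^ (1 - α)) * T ^ (-α)) / r1 := by ring
        _ = _ := by rw [h4]
    have h7 : D.C * P * (r * T ^ (-α)) / r1 ≤ D.C * P * (P * W) / r1 := by
      refine div_le_div_of_nonneg_right ?_ hr1.le
      refine mul_le_mul_of_nonneg_left ?_ (by linarith)
      exact hstar.trans (mul_le_mul_of_nonneg_left h5 (by linarith))
    have h8 : D.C * P * (P * W) / r1 ≤ 4 * D.C * P ^ 2 * Q / r1 * W := by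
      rw [div_mul_eq_mul_div]
      refine div_le_div_of_nonneg_right ?_ hr1.le
      have e2 : 0 ≤ D.C * P ^ 2 * W := by positivity
      nlinarith
    exact h6.trans (h7.trans h8)
  · -- case B
    obtain ⟨b, hb, hbs⟩ := zt_ex D xn
    rw [← hs] at hbs
    have hbn := hnear b hb xn (by rw [← hbs]; exact hcase.le)
    have hphb := hbn.2.1
    rw [← hbs, ← hαd] at hphb
    have hαMb : α * (D.M b : ℝ) ≤ 1 / 2 := by rw [hαd]; exact al_le D hb
    have hMb : 1 ≤ D.M b := M_pos D hb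
    obtain ⟨Sb, hSb⟩ : ∃ Sb, Sb = s ^ D.M b := ⟨_, rfl⟩
    have hSb0 : 0 < Sb := by rw [hSb]; positivity
    rw [st_pow hs0, ← hSb] at hphb
    have hPW : (r / s) * (Sb ^ α * T ^ (-α)) ≤ P * W := by
      have e1 : r * T ^ (-α) ≤ P * (W * (s * Sb ^ (-α))) := by
        rw [← hphb, ← hWph]
        exact hstar
      have e2 : Sb ^ α * Sb ^ (-α) = 1 := by
        rw [← Real.rpow_add hSb0, add_neg_cancel, Real.rpow_zero]
      have e3 : 0 < Sb ^ α := Real.rpow_pos_of_pos hSb0 _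
      calc (r / s) * (Sb ^ α * T ^ (-α)) = (r * T ^ (-α)) * (Sb ^ α / s) := by ring
        _ ≤ (P * (W * (s * Sb ^ (-α)))) * (Sb ^ α / s) :=
            mul_le_mul_of_nonneg_right e1 (by positivity)
        _ = P * W * (Sb ^ α * Sb ^ (-α)) := by
            field_simp
        _ = P * W := by rw [e2, mul_one]
    by_cases hfb : D.f^[i + 1] c = b
    · -- case B2
      have hbCr : b ∈ D.Cr := by
        rcases (D.hS b).1 hb with h | h
        · exact h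
        · exact absurd (hfb ▸ h) ho.npa
      obtain ⟨hrel1, hrel2⟩ := D.rel c hc i ho.free (by rw [hfb]; exact hbCr)
      rw [hfb] at hrel1 hrel2 hfar hnr
      have hs1 : s = ‖b - xn‖ := by rw [hbs, norm_sub_rev]
      rw [← hs1] at hfar hnr
      have hi : i ≤ ∑ c ∈ D.S, D.τ c := by
        have : D.τ c ≤ ∑ c ∈ D.S, D.τ c := Finset.single_le_sum (fun _ _ => Nat.zero_le _) (cr_S D hc)
        omega
      have e1 : D.q ^ (α * (i : ℝ)) ≤ Q := by
        calc D.q ^ (α * (i : ℝ)) ≤ D.q ^ ((i : ℝ)) := by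
              refine Real.rpow_le_rpow_of_exponent_le hq.le ?_
              have : (0 : ℝ) ≤ i := Nat.cast_nonneg _
              nlinarith
          _ = D.q ^ i := Real.rpow_natCast _ _
          _ ≤ Q := by
              rw [hQ]
              exact pow_le_pow_right₀ hq.le hi
      have e2 : mn ^ (1 - α) ≤ 1 := Real.rpow_le_one hmn0.le hmn1 (by linarith)
      have hE1 : 1 ≤ D.C * E := (one_le_pow₀ hq.le).trans hce3
      have e3 : ζ ^ D.m c ≤ 2 * (D.C * P) * s := by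
        have e4 : ζ ^ D.m c * 1 ≤ ζ ^ D.m c * (D.C * E) :=
          mul_le_mul_of_nonneg_left hE1 (by positivity)
        calc ζ ^ D.m c ≤ ζ ^ D.m c * (D.C * E) := by linarith
          _ = D.C * (ζ ^ D.m c * E) := by ring
          _ ≤ D.C * (P * r) := mul_le_mul_of_nonneg_left hd1 (by linarith)
          _ = D.C * P * r := by ring
          _ ≤ D.C * P * (2 * s) := mul_le_mul_of_nonneg_left (by linarith) (by linarith)
          _ = _ := by ring
      have e4 : T ≤ (2 * (D.C * P)) ^ D.M b * Sb := by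
        rw [hT, hSb, ← mul_pow, hrel1, pow_mul]
        exact pow_le_pow_left₀ (by positivity) e3 _
      have h2CP : 1 ≤ 2 * (D.C * P) := by linarith
      have e5 : T ^ α ≤ 2 * (D.C * P) * Sb ^ α := by
        calc T ^ α ≤ ((2 * (D.C * P)) ^ D.M b * Sb) ^ α := Real.rpow_le_rpow hT0.le e4 hα.le
          _ = ((2 * (D.C * P)) ^ D.M b) ^ α * Sb ^ α := Real.mul_rpow (by positivity) hSb0.le
          _ ≤ 2 * (D.C * P) * Sb ^ α := by
              refine mul_le_mul_of_nonneg_right ?_ (by positivity)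
              rw [← Real.rpow_natCast (2 * (D.C * P)) (D.M b), ← Real.rpow_mul (by linarith)]
              calc (2 * (D.C * P)) ^ ((D.M b : ℝ) * α) ≤ (2 * (D.C * P)) ^ (1 : ℝ) :=
                    Real.rpow_le_rpow_of_exponent_le h2CP (by linarith)
                _ = _ := Real.rpow_one _
      have e6 : 1 ≤ 2 * (D.C * P) * (Sb ^ α * T ^ (-α)) := by
        have e7 : T ^ α * T ^ (-α) = 1 := by
          rw [← Real.rpow_add hT0, add_neg_cancel, Real.rpow_zero]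
        calc (1 : ℝ) = T ^ α * T ^ (-α) := e7.symm
          _ ≤ 2 * (D.C * P) * Sb ^ α * T ^ (-α) := mul_le_mul_of_nonneg_right e5 hTα.le
          _ = _ := by ring
      have e8 : 1 / 2 ≤ r / s := by
        rw [div_le_div_iff₀ (by norm_num) hs0]
        linarith
      have e9 : 1 ≤ 4 * (D.C * P) * (P * W) := by
        have f1 : 0 ≤ Sb ^ α * T ^ (-α) := by positivity
        have f2 : 1 / 2 * (Sb ^ α * T ^ (-α)) ≤ P * W :=
          (mul_le_mul_of_nonneg_right e8 f1).trans hPW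
        have f3 := mul_le_mul_of_nonneg_left f2 (by linarith : (0 : ℝ) ≤ 4 * (D.C * P))
        linarith
      rw [← hmn]
      have f4 : D.q ^ (α * (i : ℝ)) * mn ^ (1 - α) ≤ Q := by
        calc D.q ^ (α * (i : ℝ)) * mn ^ (1 - α) ≤ Q * 1 :=
              mul_le_mul e1 e2 (by positivity) (by linarith)
          _ = Q := mul_one _
      have f5 : Q ≤ Q * (4 * (D.C * P) * (P * W)) := le_mul_of_one_le_right (by linarith) e9
      have f6 : Q * (4 * (D.C * P) * (P * W)) ≤ 4 * D.C * P ^ 2 * Q / r1 * W := by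
        rw [div_mul_eq_mul_div, le_div_iff₀ hr1]
        have f7 : 0 ≤ Q * (4 * (D.C * P) * (P * W)) := by positivity
        calc Q * (4 * (D.C * P) * (P * W)) * r1 ≤ Q * (4 * (D.C * P) * (P * W)) * 1 :=
              mul_le_mul_of_nonneg_left hr1' f7
          _ = _ := by ring
      exact f4.trans (f5.trans f6)
    · -- case B1
      have hce4 := D.ce4 c hc i ho.free ho.npa b hb hfb
      rw [← hE] at hce4
      have e1 : ‖D.f^[i + 1] c - b‖ ≤ s + 2 * r := by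
        have : D.f^[i + 1] c - b = (D.f^[i + 1] c - xn) + (xn - b) := by ring
        rw [this]
        refine (norm_add_le _ _).trans ?_
        rw [← hbs]
        linarith
      have e2 : D.q ^ i ≤ D.C * E * (s + 2 * r) ^ (D.M b - 1) :=
        hce4.trans (mul_le_mul_of_nonneg_left (pow_le_pow_left₀ (norm_nonneg _) e1 _)
          (by positivity))
      obtain ⟨Y, hY⟩ : ∃ Y, Y = r * (s + 2 * r) ^ (D.M b - 1) := ⟨_, rfl⟩
      have hY0 : 0 < Y := by rw [hY]; positivity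
      have e3 : T * D.q ^ i ≤ (D.C * P) * Y := by
        calc T * D.q ^ i ≤ T * (D.C * E * (s + 2 * r) ^ (D.M b - 1)) :=
              mul_le_mul_of_nonneg_left e2 hT0.le
          _ = D.C * (s + 2 * r) ^ (D.M b - 1) * (T * E) := by ring
          _ ≤ D.C * (s + 2 * r) ^ (D.M b - 1) * (P * r) :=
              mul_le_mul_of_nonneg_left hTE (by positivity)
          _ = _ := by rw [hY]; ring
      have e4 := st_core hT0 hq0 hα hα1 hCP hY0 e3
      have hν0 : 0 < r / s := div_pos hr hs0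
      have e5 := st_nu (M := D.M b) hν0 hα (by omega) (by linarith)
      have e6 : Y = ((r / s) * (1 + 2 * (r / s)) ^ (D.M b - 1)) * Sb := by
        have g1 : s + 2 * r = s * (1 + 2 * (r / s)) := by field_simp
        have g2 : s ^ D.M b = s * s ^ (D.M b - 1) := by
          rw [← pow_succ', Nat.sub_add_cancel (by omega)]
        rw [hY, hSb, g1, mul_pow, g2]
        field_simp
      have e7 : Y ^ α * mn ^ (1 - α) ≤ 3 * (r / s) * Sb ^ α := by
        rw [e6, Real.mul_rpow (by positivity) hSb0.le, hmn]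
        have g3 : 0 ≤ Sb ^ α := by positivity
        calc ((r / s) * (1 + 2 * (r / s)) ^ (D.M b - 1)) ^ α * Sb ^ α * (min 1 (r / s)) ^ (1 - α)
            = (((r / s) * (1 + 2 * (r / s)) ^ (D.M b - 1)) ^ α * (min 1 (r / s)) ^ (1 - α)) *
              Sb ^ α := by ring
          _ ≤ _ := mul_le_mul_of_nonneg_right e5 g3
      rw [← hmn]
      calc D.q ^ (α * (i : ℝ)) * mn ^ (1 - α)
          ≤ (D.C * P * (Y ^ α * T ^ (-α))) * mn ^ (1 - α) :=
            mul_le_mul_of_nonneg_right e4 (by positivity)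
        _ = D.C * P * T ^ (-α) * (Y ^ α * mn ^ (1 - α)) := by ring
        _ ≤ D.C * P * T ^ (-α) * (3 * (r / s) * Sb ^ α) :=
            mul_le_mul_of_nonneg_left e7 (by positivity)
        _ = 3 * (D.C * P) * ((r / s) * (Sb ^ α * T ^ (-α))) := by ring
        _ ≤ 3 * (D.C * P) * (P * W) := mul_le_mul_of_nonneg_left hPW (by positivity)
        _ ≤ 4 * D.C * P ^ 2 * Q / r1 * W := by
            rw [div_mul_eq_mul_div, le_div_iff₀ hr1]
            have g4 : 0 ≤ D.C * P ^ 2 * W := by positivity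
            have g5 : D.C * P ^ 2 * W ≤ D.C * P ^ 2 * W * Q := le_mul_of_one_le_right g4 hqT
            calc 3 * (D.C * P) * (P * W) * r1 = 3 * (D.C * P ^ 2 * W) * r1 := by ring
              _ ≤ 3 * (D.C * P ^ 2 * W) * 1 :=
                  mul_le_mul_of_nonneg_left hr1' (by positivity)
              _ ≤ 4 * (D.C * P ^ 2 * W * Q) := by linarith
              _ = _ := by ring

theorem step (D : Ps) (P0 : ℝ) (N0 : ℕ) (hP0 : 1 ≤ P0) : ∃ (P1 : ℝ) (N1 : ℕ) (z3 : ℝ), 1 ≤ P1 ∧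
    0 < z3 ∧ z3 ≤ 1 / 2 ∧ ∀ x : ℂ, NC D x → ∀ (n : ℕ) (r : ℝ) (i : ℕ) (c : ℂ), 0 < r → r ≤ 1 →
      Ob D x n r i c (P0 * ((i : ℝ) + 1) ^ N0) → ‖D.f^[n - 1 - i] x - c‖ ≤ z3 →
        D.q ^ (D.al * (i : ℝ)) * D.Aw x (n - 1 - i) *
            (min 1 (r / D.zt (D.f^[n] x))) ^ (1 - D.al) ≤
          P1 * ((i : ℝ) + 1) ^ N1 * D.Aw x n := by
  obtain ⟨r1, κ, hr1, -, hr1h, -, -, hnear, -⟩ := phi_near D
  have hqT : 1 ≤ D.q ^ (∑ c ∈ D.S, D.τ c) := one_le_pow₀ D.hq.le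
  have hC := D.hC
  have hr1' : r1 ≤ 1 := by linarith
  have hP02 : 1 ≤ P0 ^ 2 := one_le_pow₀ hP0
  refine ⟨4 * D.C * P0 ^ 2 * D.q ^ (∑ c ∈ D.S, D.τ c) / r1, 2 * N0, r1, ?_, hr1, hr1h, ?_⟩
  · rw [one_le_div hr1]
    have h1 : 1 ≤ D.C * P0 ^ 2 := one_le_mul_of_one_le_of_one_le hC hP02
    have h2 : 1 ≤ D.C * P0 ^ 2 * D.q ^ (∑ c ∈ D.S, D.τ c) :=
      one_le_mul_of_one_le_of_one_le h1 hqT
    nlinarith
  · intro x hx n r i c hr hr2 ho hz
    have hi1 : (1 : ℝ) ≤ (i : ℝ) + 1 := by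
      have : (0 : ℝ) ≤ i := Nat.cast_nonneg _
      linarith
    have hP : 1 ≤ P0 * ((i : ℝ) + 1) ^ N0 :=
      one_le_mul_of_one_le_of_one_le hP0 (one_le_pow₀ hi1)
    have h1 := st_real D hr1 hr1h hnear hx hr hr2 hP ho hz
    obtain ⟨W, hW⟩ : ∃ W, W = ‖deriv (D.f^[i + 1]) (D.f^[n - 1 - i] x)‖ * D.ph (D.f^[n - 1 - i] x) /
          D.ph (D.f^[n] x) := ⟨_, rfl⟩
    rw [← hW] at h1
    have hphm : 0 < D.ph (D.f^[n - 1 - i] x) := ph_pos D (hx.2 _)
    have hphn : 0 < D.ph (D.f^[n] x) := ph_pos D (hx.2 _)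
    have hlt := ho.lt
    have hn : n - 1 - i + (i + 1) = n := by omega
    have hAw : D.Aw x n = D.Aw x (n - 1 - i) * W := by
      have h2 := it_add D (z := x) (a := n - 1 - i) (b := i + 1) fun j _ =>
        D.hU (J_th D (it_J D hx.1 j) D.hδ)
      rw [hn] at h2
      unfold Ps.Aw
      rw [h2, hW, norm_mul]
      field_simp
    have hAm : 0 ≤ D.Aw x (n - 1 - i) := by
      unfold Ps.Aw
      have := ph_nonneg D x
      positivity
    rw [hAw]
    have h3 := mul_le_mul_of_nonneg_left h1 hAm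
    calc D.q ^ (D.al * (i : ℝ)) * D.Aw x (n - 1 - i) *
            (min 1 (r / D.zt (D.f^[n] x))) ^ (1 - D.al)
        = D.Aw x (n - 1 - i) * (D.q ^ (D.al * (i : ℝ)) *
            (min 1 (r / D.zt (D.f^[n] x))) ^ (1 - D.al)) := by ring
      _ ≤ D.Aw x (n - 1 - i) * (4 * D.C * (P0 * ((i : ℝ) + 1) ^ N0) ^ 2 *
            D.q ^ (∑ c ∈ D.S, D.τ c) / r1 * W) := h3
      _ = _ := by
          rw [mul_pow, ← pow_mul, mul_comm N0 2]
          ring

end Pool.Agent.H44.DP
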