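import Pool.Agent.H44.DP.BRF
import Pool.Agent.H44.DN.KOE

/-!
# Module NORMF: if the derivatives are bounded, the disc of radius R is obstructed at large times

PROOF. `Λ_n = ‖deriv (f^[n]) x‖ ≤ Q`, `> 0` (`it_ne`). If `UU D x n R` with family `g`: `G = g n` on `ball (f^[n] x) (R/2)` is injective, `G (f^[n] x) = x`, `‖deriv G (f^[n] x)‖ = 1 / Λ_n ≥ 1/Q`; `univ_cover`: `ball x (R / (32 Q)) ⊆ G '' ball (f^[n] x) (R/2)`. So every `z` in `ball x (R/(32 Q))` is `G w`, `f^[n] z = w ∈ ball (f^[n] x) (R/2) ⊆ thickening δ J`, `f^[i] z = f^[i] (g n w) ∈ G` for `i < n` (`br_it`). `D.nn` with `ρ = R / (32 Q)` gives `N` (`Q > 0` by `n = 0`: `Λ_0 = 1`).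
-/

set_option autoImplicit false

open Filter Topology Metric Set

namespace Pool.Agent.H44.DP

theorem norm_fin {D : Ps} {x : ℂ} (hx : NC D x) {Q R : ℝ} (hQ : ∀ n, ‖deriv (D.f^[n]) x‖ ≤ Q)
    (hR : 0 < R) : ∃ N : ℕ, ∀ n ≥ N, R ≤ D.ϑ * D.dd (D.f^[n] x) → ¬ UU D x n R := by
  have hQ0 : 0 < Q := by
    have h0 := hQ 0
    have h1 : deriv (D.f^[0]) x = 1 := by
      rw [Function.iterate_zero]
      exact deriv_id x
    rw [h1, norm_one] at h0
    linarith
  obtain ⟨N, hN⟩ := D.nn x hx.1 (R / (32 * Q)) (by positivity)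
  refine ⟨N, fun n hn hRd hU => ?_⟩
  obtain ⟨g, hg⟩ := hU
  apply hN n hn
  have hsubB : ball (D.f^[n] x) (R / 2) ⊆ ball (D.f^[n] x) (R * Del n) := by
    apply ball_subset_ball
    have := del_half n
    nlinarith
  have hxn : D.f^[n] x ∈ ball (D.f^[n] x) (R / 2) := mem_ball_self (by positivity)
  have hval : g n (D.f^[n] x) = x := by
    rw [hg.val n le_rfl, Nat.sub_self, Function.iterate_zero, id]
  have hder : ‖deriv (D.f^[n]) x‖ * ‖deriv (g n) (D.f^[n] x)‖ = 1 := by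
    have h1 := br_der hg hR (i := n) le_rfl (hsubB hxn)
    rw [hval] at h1
    rw [← norm_mul, h1, norm_one]
  have hge : 1 / Q ≤ ‖deriv (g n) (D.f^[n] x)‖ := by
    rw [div_le_iff₀ hQ0]
    have := hQ n
    have h2 := norm_nonneg (deriv (g n) (D.f^[n] x))
    nlinarith
  have hcov : ball x (R / (32 * Q)) ⊆ g n '' ball (D.f^[n] x) (R / 2) := by
    have h2 := Pool.Agent.H80.AJ.univ_cover (g := g n) (c := D.f^[n] x) (R := R / 2)
      (by positivity) ((hg.diff n le_rfl).mono hsubB) ((br_inj hg hR (i := n) le_rfl).mono hsubB)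
    rw [hval] at h2
    refine (ball_subset_ball ?_).trans h2
    have h3 : R / (32 * Q) = R / 2 * (1 / Q) / 16 := by
      field_simp
      norm_num
    rw [h3]
    have h4 : R / 2 * (1 / Q) ≤ R / 2 * ‖deriv (g n) (D.f^[n] x)‖ :=
      mul_le_mul_of_nonneg_left hge (by positivity)
    linarith
  have hpt : ∀ z ∈ ball x (R / (32 * Q)), D.f^[n] z ∈ ball (D.f^[n] x) (R / 2) ∧
      ∀ l ≤ n, D.f^[l] z ∈ D.G := by
    intro z hz
    obtain ⟨w, hw, hwz⟩ := hcov hz
    have h1 : D.f^[n] z = w := by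
      rw [← hwz]
      exact br_id hg hR (i := n) le_rfl (hsubB hw)
    refine ⟨by rwa [h1], ?_⟩
    intro l hl
    have hw' : w ∈ ball (D.f^[n] x) (R * Del (0 + n)) := by
      rw [zero_add]
      exact hsubB hw
    have h2 := (br_it hg hR (i := 0) (j := n) (by omega) hw').2 l hl
    rw [zero_add, hwz] at h2
    exact h2
  refine ⟨fun i hi z hz => (hpt z hz).2 i hi.le, fun z hz => ?_⟩
  have h1 := mem_ball.mp (hpt z hz).1
  rw [dist_eq_norm] at h1
  refine D.hV1 (D.hVJ _ (it_J D hx.1 n) (fun h => hx.2 n (pa_S D h)) _ (lt_of_lt_of_le ?_ hRd))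
  linarith

end Pool.Agent.H44.DP
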