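import Pool.Agent.H44.DP.INH
import Pool.Agent.H44.DP.NORMF

/-!
# Module UNO: if the derivatives are bounded, the disc of radius `R dd` is obstructed at large times

PROOF. `R1, η` (`inh`). `norm_fin` with the radius `s = R / 16 * η` gives `N`. If `n ≥ N` and `UU D x n (R dd x_n)`: `inh` gives
`n' ≥ n` with `η ≤ dd x_n'` and `UU D x n' (R / 16 * dd x_n')`, so `UU D x n' s` (`br_mono`), and `s ≤ ϑ dd x_n'`: a contradiction.
-/

set_option autoImplicit false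

open Filter Topology Metric Set

namespace Pool.Agent.H44.DP

theorem unob (D : Ps) : ∃ R1 : ℝ, 0 < R1 ∧ R1 ≤ D.ϑ ∧ ∀ x : ℂ, NC D x → ∀ Q R : ℝ,
    (∀ n, ‖deriv (D.f^[n]) x‖ ≤ Q) → 0 < R → R ≤ R1 →
      ∃ N : ℕ, ∀ n ≥ N, ¬ UU D x n (R * D.dd (D.f^[n] x)) := by
  obtain ⟨R1, η, hR1, hR1ϑ, hη, h⟩ := inh D
  refine ⟨R1, hR1, hR1ϑ, fun x hx Q R hQ hR hRR => ?_⟩
  obtain ⟨N, hN⟩ := norm_fin hx hQ (show 0 < R / 16 * η by positivity)
  refine ⟨N, fun n hn hU => ?_⟩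
  obtain ⟨n', hn', h1, h2⟩ := h x hx n R hR hRR hU
  obtain ⟨g, hg⟩ := h2
  have h3 : R / 16 * η ≤ R / 16 * D.dd (D.f^[n'] x) :=
    mul_le_mul_of_nonneg_left h1 (by positivity)
  refine hN n' (by omega) ?_ ⟨g, br_mono hg (by positivity) h3 le_rfl⟩
  refine h3.trans (mul_le_mul_of_nonneg_right ?_ (dd_nonneg D _))
  linarith

end Pool.Agent.H44.DP
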