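import Pool.Agent.H44.DP.OBS2
import Pool.Agent.H44.DP.NUM
import Pool.Agent.H44.DP.STEP
import Pool.Agent.H44.DP.LONG
import Pool.Agent.H44.DP.UNO
import Pool.Agent.H44.DP.BRS

/-!
# Module IND: exponential growth up to the relative radius

PROOF. `B n r = Aw x n / (min 1 (r / zt x_n)) ^ (1 - α)`, `x_n = f^[n] x`. Constants: `P0, N0` (`obs`), `P1, N1, z3` (`step`). Put `Q1(i) = P1 (i+1)^N1 * (64 P0 (i+1)^N0)`. `κ0 ∈ (0,1)` and `χ > 0` and `I` with: (a) `q ^ (α i) / Q1(i) ≥ κ0 exp (2 χ (i+1))` for all `i`; (b) for `i ≥ I`: `q ^ (α i) / Q1(i) ≥ κ0 ^ (-(T+1)) exp (χ (i+1))`, `T` an upper bound of `τ` on `Cr`. (First `χ = α log q / 4`, then `κ0`, then `I`.) `z4` from `long` for `I`.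
`z = min z3 (z4 / 4)`, `R0` from `obs` for `z`, also `R0 ≤ z4 / 4`, `R0 ≤ 1`, `R0 ≤ δ`.
Given `x`, `Q`: `‖deriv (f^[n]) x‖ ≤ Q / ph x` (`ph ≤ 1`), so by `norm_fin` there is `N` with `¬ UU D x n R` for `n ≥ N`. `a = min_{n < N} Aw x n > 0` (`N ≥ 1`; `Aw > 0` for all `n`).
CLAIM by strong induction on `n`: for `MR D x n R r`: (i) if `r = R` then `n < N` and `B n r ≥ Aw x n ≥ a`. (ii) If `r < R`: `obs` gives `i, c` with `Ob`, `ζ = ‖x_m - c‖ ≤ z`, `m = n - 1 - i`; `mr_ex` gives `r'` with `MR D x m R r'`. `step`: `Aw x n ≥ q^(α i) / (P1 (i+1)^N1) * Aw x m * (min 1 (r / zt x_n)) ^ (1 - α)`, i.e. `B n r ≥ q^(α i) / (P1 (i+1)^N1) * Aw x m`.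
If `r' = R`: `m < N`, `Aw x m ≥ a`. If `r' < R`: `num` gives `UU D x m s`, `s = r / (32 Λ) ≥ ζ / (32 P0 (i+1)^N0)` (`Ob.d3`); `MR.max` gives `¬ UU D x m (2 r')`, so `s < 2 r'` (`br_mono`) and `min 1 (r' / ζ) ≥ 1 / (64 P0 (i+1)^N0)`;
`zt x_m = ζ` (`zt_near`), so `Aw x m = B m r' * (min 1 (r'/ζ)) ^ (1-α) ≥ B m r' / (64 P0 (i+1)^N0)`. Hence `B n r ≥ (q^(α i) / Q1(i)) B m r'`.
For `n` with `zt x_n ≤ z` (close, nearest point `b`) put `B' n r = B n r * κ0 ^ (τ b)`; CLOSE CLAIM: `MR D x n R r`, `r < R`, `zt x_n ≤ z` implies `B' n r ≥ κ0 ^ (T+1) a exp (χ (n - N))`. In (ii) with `x_n` close: `‖f^[i+1] c - b‖ ≤ z + 2 r ≤ z4` (`Ob.near`, `2 r ≤ R0`), so `i ≥ I` or `f^[i+1] c = b`. `i ≥ I`: by (b) `B' n r ≥ κ0^T B n r ≥ κ0 ^ (-1) exp (χ (i+1)) B m r' ≥ exp (χ (i+1)) B' m r'`. `f^[i+1] c = b`: `τ c ≥ τ b + 1` (`D.rel` with `Ob.free`), by (a)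
`B' n r ≥ κ0 exp (χ (i+1)) B m r' κ0 ^ (τ b) ≥ exp (χ (i+1)) B' m r'` (`κ0 ^ (τ b + 1) ≥ κ0 ^ (τ c)`). In case `r' = R` directly `B' n r ≥ κ0 ^ T κ0 exp (χ (i+1)) a`, `m < N`. So the close claim follows by induction (`n - m = i + 1`). For all `n` with `r < R` finally by (a) once more: `B n r ≥ κ0 exp (χ (i+1)) B m r' ≥ κ0 ^ (T+2) a exp (χ (n - N))` or (`r' = R`) `≥ κ0 exp (χ (i+1)) a`. So `cx = κ0 ^ (T + 2) a exp (- χ N)`.
-/

set_option autoImplicit false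

open Filter Topology Metric Set

namespace Pool.Agent.H44.DP

/-- the constants -/
private theorem in_const {q α A : ℝ} (hq : 1 < q) (hα : 0 < α) (hA : 1 ≤ A) (K T : ℕ) :
    ∃ (χ κ0 : ℝ) (I : ℕ), 0 < χ ∧ 0 < κ0 ∧ κ0 ≤ 1 ∧
      (∀ i : ℕ, κ0 * Real.exp (χ * ((i : ℝ) + 1)) * (A * ((i : ℝ) + 1) ^ K) ≤ q ^ (α * (i : ℝ))) ∧
      ∀ i : ℕ, I ≤ i → Real.exp (χ * ((i : ℝ) + 1)) * (A * ((i : ℝ) + 1) ^ K) ≤
        κ0 ^ (T + 1) * q ^ (α * (i : ℝ)) := by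
  have hlq : 0 < Real.log q := Real.log_pos hq
  have hq0 : 0 < q := by linarith
  obtain ⟨χ, hχ⟩ : ∃ χ, χ = α * Real.log q / 2 := ⟨_, rfl⟩
  have hχ0 : 0 < χ := by rw [hχ]; positivity
  have hqe : ∀ i : ℕ, q ^ (α * (i : ℝ)) = Real.exp (2 * χ * i) := by
    intro i
    rw [Real.rpow_def_of_pos hq0, hχ]
    congr 1
    ring
  have h1 : Tendsto (fun i : ℕ => A * Real.exp (2 * χ) *
      (((i + 1 : ℕ) : ℝ) ^ K * Real.exp (-χ) ^ (i + 1))) atTop (𝓝 (A * Real.exp (2 * χ) * 0)) := by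
    have e1 : |Real.exp (-χ)| < 1 := by
      rw [abs_of_pos (Real.exp_pos _), Real.exp_lt_one_iff]
      linarith
    exact ((tendsto_pow_const_mul_const_pow_of_abs_lt_one K e1).comp (tendsto_add_atTop_nat 1)).const_mul _
  rw [mul_zero] at h1
  have h2 : ∀ i : ℕ, A * Real.exp (2 * χ) * (((i + 1 : ℕ) : ℝ) ^ K * Real.exp (-χ) ^ (i + 1)) =
      Real.exp (χ * ((i : ℝ) + 1)) * (A * ((i : ℝ) + 1) ^ K) / q ^ (α * (i : ℝ)) := by
    intro i
    rw [hqe, ← Real.exp_nat_mul]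
    push_cast
    rw [eq_div_iff (Real.exp_ne_zero _)]
    have e2 : Real.exp (χ * ((i : ℝ) + 1)) = Real.exp (2 * χ) * Real.exp (((i : ℝ) + 1) * -χ) *
        Real.exp (2 * χ * i) := by
      rw [← Real.exp_add, ← Real.exp_add]
      congr 1
      ring
    rw [e2]
    ring
  simp only [h2] at h1
  have hqp : ∀ i : ℕ, 0 < q ^ (α * (i : ℝ)) := fun i => Real.rpow_pos_of_pos hq0 _
  obtain ⟨B, hB⟩ := h1.bddAbove_range
  obtain ⟨κ0, hκ⟩ : ∃ κ0, κ0 = 1 / (max B 1) := ⟨_, rfl⟩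
  have hm0 : 0 < max B 1 := lt_of_lt_of_le one_pos (le_max_right _ _)
  have hκ0 : 0 < κ0 := by rw [hκ]; positivity
  have hκ1 : κ0 ≤ 1 := by
    rw [hκ, div_le_one hm0]
    exact le_max_right _ _
  have h3 : ∀ᶠ i : ℕ in atTop, Real.exp (χ * ((i : ℝ) + 1)) * (A * ((i : ℝ) + 1) ^ K) /
      q ^ (α * (i : ℝ)) < κ0 ^ (T + 1) := h1.eventually_lt_const (by positivity)
  obtain ⟨I, hI⟩ := eventually_atTop.1 h3
  refine ⟨χ, κ0, I, hχ0, hκ0, hκ1, fun i => ?_, fun i hi => ?_⟩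
  · have h4 : Real.exp (χ * ((i : ℝ) + 1)) * (A * ((i : ℝ) + 1) ^ K) / q ^ (α * (i : ℝ)) ≤ max B 1 :=
      (hB (Set.mem_range_self i)).trans (le_max_left _ _)
    rw [div_le_iff₀ (hqp i)] at h4
    have h5 := mul_le_mul_of_nonneg_left h4 hκ0.le
    calc κ0 * Real.exp (χ * ((i : ℝ) + 1)) * (A * ((i : ℝ) + 1) ^ K)
        = κ0 * (Real.exp (χ * ((i : ℝ) + 1)) * (A * ((i : ℝ) + 1) ^ K)) := by ring
      _ ≤ κ0 * (max B 1 * q ^ (α * (i : ℝ))) := h5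
      _ = q ^ (α * (i : ℝ)) := by
          rw [hκ]
          field_simp
  · have h4 := (hI i hi).le
    rw [div_le_iff₀ (hqp i)] at h4
    exact h4

private theorem in_mn {s r β : ℝ} (hs : 0 < s) (hr : 0 < r) (hβ : 0 ≤ β) :
    0 < (min 1 (r / s)) ^ β ∧ (min 1 (r / s)) ^ β ≤ 1 := by
  have h1 : 0 < min 1 (r / s) := lt_min one_pos (div_pos hr hs)
  exact ⟨Real.rpow_pos_of_pos h1 _, Real.rpow_le_one h1.le (min_le_left _ _) hβ⟩

theorem ind (D : Ps) : ∃ χ R0 : ℝ, 0 < χ ∧ 0 < R0 ∧ R0 ≤ 1 ∧ R0 ≤ D.δ ∧ R0 ≤ D.ϑ ∧ ∀ R : ℝ, 0 < R → R ≤ R0 →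
    ∀ x : ℂ, NC D x → ∀ Q : ℝ, (∀ n, D.Aw x n ≤ Q) → ∃ cx : ℝ, 0 < cx ∧
      ∀ (n : ℕ) (r : ℝ), MR D x n R r →
        cx * Real.exp (χ * n) * (min 1 (r / D.zt (D.f^[n] x))) ^ (1 - D.al) ≤ D.Aw x n := by
  have hα := al_pos D
  have hα1 : D.al ≤ 1 := by
    obtain ⟨c, hc⟩ := D.hne
    have h1 := al_le D (ce_S D hc)
    have h2 : (2 : ℝ) ≤ D.M c := by exact_mod_cast M_two D (ce_Cr D hc)
    nlinarith
  obtain ⟨P0, N0, hP0, hobs⟩ := obs D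
  obtain ⟨P1, N1, z3, hP1, hz3, hz3', hstep⟩ := step D P0 N0 hP0
  obtain ⟨R1, hR1, hR1ϑ, hunob⟩ := unob D
  obtain ⟨T, hT⟩ : ∃ T, T = ∑ c ∈ D.Cr, D.τ c := ⟨_, rfl⟩
  have hτT : ∀ c ∈ D.Cr, D.τ c ≤ T := fun c hc => by
    rw [hT]
    exact Finset.single_le_sum (fun _ _ => Nat.zero_le _) hc
  have hA : 1 ≤ 64 * P0 * P1 := by nlinarith
  obtain ⟨χ, κ0, I, hχ, hκ0, hκ1, ha, hb⟩ := in_const D.hq hα hA (N0 + N1) T
  obtain ⟨z4, hz4, hlong⟩ := long D I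
  obtain ⟨z, hz⟩ : ∃ z, z = min (min z3 (z4 / 4)) D.r0 := ⟨_, rfl⟩
  have hz0 : 0 < z := by
    rw [hz]
    exact lt_min (lt_min hz3 (by linarith)) D.hr0
  have hzz3 : z ≤ z3 := by rw [hz]; exact (min_le_left _ _).trans (min_le_left _ _)
  have hzz4 : z ≤ z4 / 4 := by rw [hz]; exact (min_le_left _ _).trans (min_le_right _ _)
  have hzr0 : z ≤ D.r0 := by rw [hz]; exact min_le_right _ _
  obtain ⟨Ro, hRo, hRoδ, hobs'⟩ := hobs z hz0
  refine ⟨χ, min R1 (min Ro (min (z4 / 4) 1)), hχ,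
    lt_min hR1 (lt_min hRo (lt_min (by linarith) one_pos)),
    (min_le_right _ _).trans ((min_le_right _ _).trans (min_le_right _ _)),
    (min_le_right _ _).trans ((min_le_left _ _).trans hRoδ),
    (min_le_left _ _).trans hR1ϑ, ?_⟩
  intro R hR hRR0 x hx Q hQ
  have hRR1 : R ≤ R1 := hRR0.trans (min_le_left _ _)
  have hRϑ : R ≤ D.ϑ := hRR1.trans hR1ϑ
  have hRR := hRR0.trans (min_le_right _ _)
  have hdd0 : ∀ n, 0 < D.dd (D.f^[n] x) := fun n => dd_pos D fun h => hx.2 n (pa_S D h)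
  have hdd1 : ∀ n, R * D.dd (D.f^[n] x) ≤ R := fun n =>
    mul_le_of_le_one_right hR.le (dd_le_one D _)
  have hRRo : R ≤ Ro := hRR.trans (min_le_left _ _)
  have hRz4 : R ≤ z4 / 4 := hRR.trans ((min_le_right _ _).trans (min_le_left _ _))
  have hR1' : R ≤ 1 := hRR.trans ((min_le_right _ _).trans (min_le_right _ _))
  have hphx : 0 < D.ph x := ph_pos D (hx.2 0)
  have hdn : ∀ n, ‖deriv (D.f^[n]) x‖ ≤ Q / D.ph x := by
    intro n
    rw [le_div_iff₀ hphx]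
    refine le_trans ?_ (hQ n)
    unfold Ps.Aw
    rw [le_div_iff₀ (ph_pos D (hx.2 n))]
    calc ‖deriv (D.f^[n]) x‖ * D.ph x * D.ph (D.f^[n] x) ≤ ‖deriv (D.f^[n]) x‖ * D.ph x * 1 :=
          mul_le_mul_of_nonneg_left (ph_le_one D _) (by positivity)
      _ = _ := mul_one _
  obtain ⟨N, hN⟩ := hunob x hx (Q / D.ph x) R hdn hR hRR1
  have hJ : ∀ i, D.f^[i] x ∈ D.J := fun i => it_J D hx.1 i
  have hAw0 : ∀ n, 0 < D.Aw x n := by
    intro n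
    unfold Ps.Aw
    have h1 : deriv (D.f^[n]) x ≠ 0 :=
      it_ne' D (fun i _ => ⟨J_th D (it_J D hx.1 i) D.hδ, hx.2 i⟩)
    exact div_pos (mul_pos (norm_pos_iff.2 h1) hphx) (ph_pos D (hx.2 n))
  -- the minimum `a`
  obtain ⟨a, ha0, han⟩ : ∃ a : ℝ, 0 < a ∧ ∀ n ≤ N, a ≤ D.Aw x n := by
    obtain ⟨n0, -, hn0⟩ := Finset.exists_min_image (Finset.range (N + 1)) (fun n => D.Aw x n)
      ⟨0, Finset.mem_range.2 (Nat.succ_pos N)⟩
    exact ⟨D.Aw x n0, hAw0 n0, fun n hn => hn0 n (Finset.mem_range.2 (Nat.lt_succ_of_le hn))⟩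
  have hzt : ∀ n, 0 < D.zt (D.f^[n] x) := fun n => zt_pos D (hx.2 n)
  have hβ : 0 ≤ 1 - D.al := by linarith
  have hmn : ∀ (n : ℕ) (r : ℝ), 0 < r → 0 < (min 1 (r / D.zt (D.f^[n] x))) ^ (1 - D.al) ∧
      (min 1 (r / D.zt (D.f^[n] x))) ^ (1 - D.al) ≤ 1 := fun n r hr => in_mn (hzt n) hr hβ
  -- the step
  have hS : ∀ (n : ℕ) (r : ℝ), MR D x n R r → r < R * D.dd (D.f^[n] x) → ∃ (i : ℕ) (c : ℂ), i < n ∧ c ∈ D.Cr ∧
      (∀ j, 1 ≤ j → j ≤ i → D.f^[j] c ∉ D.Cr) ∧ ‖D.f^[i + 1] c - D.f^[n] x‖ ≤ R ∧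
      D.zt (D.f^[n - 1 - i] x) = ‖D.f^[n - 1 - i] x - c‖ ∧ D.zt (D.f^[n - 1 - i] x) ≤ z ∧
      D.q ^ (D.al * (i : ℝ)) * D.Aw x (n - 1 - i) *
            (min 1 (r / D.zt (D.f^[n] x))) ^ (1 - D.al) ≤ P1 * ((i : ℝ) + 1) ^ N1 * D.Aw x n ∧
      ∃ r' : ℝ, MR D x (n - 1 - i) R r' ∧ (r' = R * D.dd (D.f^[n - 1 - i] x) ∨
        (r' < R * D.dd (D.f^[n - 1 - i] x) ∧
        1 ≤ 64 * P0 * ((i : ℝ) + 1) ^ N0 *
          (min 1 (r' / D.zt (D.f^[n - 1 - i] x))) ^ (1 - D.al))) := by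
    intro n r hr hrR
    obtain ⟨h2rd, hnu⟩ : 2 * r ≤ R * D.dd (D.f^[n] x) ∧ ¬ UU D x n (2 * r) := by
      rcases hr.max with h | h
      · exact absurd h hrR.ne
      · exact h
    have h2r : 2 * r ≤ R := h2rd.trans (hdd1 n)
    obtain ⟨i, c, ho, hzc⟩ := hobs' x hx n r hr.pos (h2r.trans hRRo)
      (h2rd.trans (mul_le_mul_of_nonneg_right hRϑ (hdd0 n).le)) hr.ex hnu
    have hztm : D.zt (D.f^[n - 1 - i] x) = ‖D.f^[n - 1 - i] x - c‖ :=
      zt_near D (cr_S D ho.mem) (by linarith [D.hr0])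
    have hst := hstep x hx n r i c hr.pos (by linarith) ho (hzc.trans hzz3)
    obtain ⟨r', hr'⟩ := mr_ex hx (n - 1 - i) hR
    refine ⟨i, c, ho.lt, ho.mem, ho.free, ho.near.trans h2r, hztm, by rw [hztm]; exact hzc, hst,
      r', hr', ?_⟩
    rcases eq_or_lt_of_le hr'.le with h | h
    · exact Or.inl h
    · right
      refine ⟨h, ?_⟩
      have hnu' : ¬ UU D x (n - 1 - i) (2 * r') := by
        rcases hr'.max with h' | h'
        · exact absurd h' h.ne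
        · exact h'.2
      have hnum := num hx hr.pos hr.ex ho.lt
      obtain ⟨Λ, hΛ⟩ : ∃ Λ, Λ = ‖deriv (D.f^[i + 1]) (D.f^[n - 1 - i] x)‖ := ⟨_, rfl⟩
      obtain ⟨ζ, hζ⟩ : ∃ ζ, ζ = ‖D.f^[n - 1 - i] x - c‖ := ⟨_, rfl⟩
      have hd3 := ho.d3
      have hd4 := ho.d4
      rw [← hΛ] at hnum hd3 hd4
      rw [← hζ] at hd3 hd4
      have hζ0 : 0 < ζ := by
        rw [hζ, ← hztm]
        exact hzt _
      have hi1 : (1 : ℝ) ≤ (i : ℝ) + 1 := by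
        have : (0 : ℝ) ≤ i := Nat.cast_nonneg _
        linarith
      obtain ⟨P, hP⟩ : ∃ P, P = P0 * ((i : ℝ) + 1) ^ N0 := ⟨_, rfl⟩
      have hP1' : 1 ≤ P := by
        rw [hP]
        exact one_le_mul_of_one_le_of_one_le hP0 (one_le_pow₀ hi1)
      rw [← hP] at hd3 hd4
      have hP0' : 0 < P := by linarith
      have hΛ0 : 0 < Λ := by
        have h1 : 0 < P * (Λ * ζ) := lt_of_lt_of_le hr.pos hd4
        have h2 : 0 < Λ * ζ := (pos_iff_pos_of_mul_pos h1).1 hP0'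
        exact (pos_iff_pos_of_mul_pos h2).2 hζ0
      have hs : r / (32 * Λ) < 2 * r' := by
        by_contra hcon
        push Not at hcon
        obtain ⟨g, hg⟩ := hnum
        exact hnu' ⟨g, br_mono hg (by linarith [hr'.pos]) hcon le_rfl⟩
      have h1 : ζ < 64 * P * r' := by
        rw [div_lt_iff₀ (by positivity)] at hs
        have h3 : Λ * ζ < Λ * (64 * P * r') := by
          calc Λ * ζ ≤ P * r := hd3
            _ < P * (2 * r' * (32 * Λ)) := mul_lt_mul_of_pos_left hs hP0'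
            _ = Λ * (64 * P * r') := by ring
        exact lt_of_mul_lt_mul_left h3 hΛ0.le
      have h4 : 1 / (64 * P) ≤ min 1 (r' / D.zt (D.f^[n - 1 - i] x)) := by
        rw [hztm, ← hζ]
        refine le_min ?_ ?_
        · rw [div_le_one (by positivity)]
          linarith
        · rw [div_le_div_iff₀ (by positivity) hζ0]
          linarith
      have h5 : 1 / (64 * P) ≤ (min 1 (r' / D.zt (D.f^[n - 1 - i] x))) ^ (1 - D.al) := by
        calc 1 / (64 * P) ≤ min 1 (r' / D.zt (D.f^[n - 1 - i] x)) := h4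
          _ = (min 1 (r' / D.zt (D.f^[n - 1 - i] x))) ^ (1 : ℝ) := (Real.rpow_one _).symm
          _ ≤ _ := by
              refine Real.rpow_le_rpow_of_exponent_ge (lt_of_lt_of_le (by positivity) h4)
                (min_le_left _ _) (by linarith)
      rw [div_le_iff₀ (by positivity)] at h5
      rw [hP] at h5
      linarith
  -- the close claim
  obtain ⟨K, hK⟩ : ∃ K, K = κ0 ^ (T + 1) * a := ⟨_, rfl⟩
  have hK0 : 0 < K := by rw [hK]; positivity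
  -- consequence of the step for the case `r' = R`
  have hexpN : ∀ (n i : ℕ), i < n → n - 1 - i < N →
      Real.exp (χ * ((n : ℝ) - N)) ≤ Real.exp (χ * ((i : ℝ) + 1)) := by
    intro n i hi hm
    refine Real.exp_le_exp.2 (mul_le_mul_of_nonneg_left ?_ hχ.le)
    have : n ≤ i + 1 + N := by omega
    have h1 : (n : ℝ) ≤ (i : ℝ) + 1 + N := by exact_mod_cast this
    linarith
  have hexpm : ∀ (n i : ℕ), i < n → Real.exp (χ * ((i : ℝ) + 1)) *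
      Real.exp (χ * (((n - 1 - i : ℕ) : ℝ) - N)) = Real.exp (χ * ((n : ℝ) - N)) := by
    intro n i hi
    rw [← Real.exp_add]
    congr 1
    have : n - 1 - i + (i + 1) = n := by omega
    have h1 : (((n - 1 - i : ℕ) : ℝ)) + ((i : ℝ) + 1) = n := by exact_mod_cast this
    rw [← h1]
    ring
  have hQpos : ∀ i : ℕ, 0 < P1 * ((i : ℝ) + 1) ^ N1 := fun i => by positivity
  have hQ64 : ∀ i : ℕ, 0 < 64 * P0 * ((i : ℝ) + 1) ^ N0 := fun i => by positivity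
  have hQprod : ∀ i : ℕ, 64 * P0 * P1 * ((i : ℝ) + 1) ^ (N0 + N1) =
      (64 * P0 * ((i : ℝ) + 1) ^ N0) * (P1 * ((i : ℝ) + 1) ^ N1) := fun i => by
    rw [pow_add]
    ring
  have h64 : ∀ i : ℕ, 1 ≤ 64 * P0 * ((i : ℝ) + 1) ^ N0 := by
    intro i
    have hi1 : (1 : ℝ) ≤ (i : ℝ) + 1 := by
      have : (0 : ℝ) ≤ i := Nat.cast_nonneg _
      linarith
    have := one_le_mul_of_one_le_of_one_le hP0 (one_le_pow₀ (n := N0) hi1)
    linarith
  -- the two conclusions of one step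
  have hR' : ∀ (n i : ℕ) (r : ℝ), 0 < r → i < n → n - 1 - i < N →
      D.q ^ (D.al * (i : ℝ)) * D.Aw x (n - 1 - i) *
            (min 1 (r / D.zt (D.f^[n] x))) ^ (1 - D.al) ≤ P1 * ((i : ℝ) + 1) ^ N1 * D.Aw x n →
      κ0 * a * Real.exp (χ * ((n : ℝ) - N)) * (min 1 (r / D.zt (D.f^[n] x))) ^ (1 - D.al) ≤
        D.Aw x n := by
    intro n i r hr hi hm hst
    obtain ⟨mn, hmnd⟩ : ∃ mn, mn = (min 1 (r / D.zt (D.f^[n] x))) ^ (1 - D.al) := ⟨_, rfl⟩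
    have hmn0 : 0 < mn := by rw [hmnd]; exact (hmn n r hr).1
    rw [← hmnd] at hst ⊢
    have e1 := ha i
    rw [hQprod] at e1
    have e2 : κ0 * Real.exp (χ * ((i : ℝ) + 1)) * (P1 * ((i : ℝ) + 1) ^ N1) ≤
        D.q ^ (D.al * (i : ℝ)) := by
      refine le_trans ?_ e1
      refine mul_le_mul_of_nonneg_left ?_ (by positivity)
      exact le_mul_of_one_le_left (hQpos i).le (h64 i)
    have e3 : a ≤ D.Aw x (n - 1 - i) := han _ hm.le
    have e4 : κ0 * Real.exp (χ * ((i : ℝ) + 1)) * (P1 * ((i : ℝ) + 1) ^ N1) * a * mn ≤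
        P1 * ((i : ℝ) + 1) ^ N1 * D.Aw x n := by
      refine le_trans (mul_le_mul_of_nonneg_right ?_ hmn0.le) hst
      exact mul_le_mul e2 e3 ha0.le (Real.rpow_nonneg (by linarith [D.hq]) _)
    have e5 : (P1 * ((i : ℝ) + 1) ^ N1) * (κ0 * a * Real.exp (χ * ((i : ℝ) + 1)) * mn) ≤
        (P1 * ((i : ℝ) + 1) ^ N1) * D.Aw x n := by
      calc _ = κ0 * Real.exp (χ * ((i : ℝ) + 1)) * (P1 * ((i : ℝ) + 1) ^ N1) * a * mn := by ring
        _ ≤ _ := e4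
    have e6 := le_of_mul_le_mul_left e5 (hQpos i)
    refine le_trans ?_ e6
    exact mul_le_mul_of_nonneg_right (mul_le_mul_of_nonneg_left (hexpN n i hi hm)
      (by positivity)) hmn0.le
  have hgen : ∀ (n i : ℕ) (r L κ' κ'' : ℝ), 0 < r → i < n → 0 ≤ L → 0 < κ' → 0 < κ'' →
      D.q ^ (D.al * (i : ℝ)) * D.Aw x (n - 1 - i) *
            (min 1 (r / D.zt (D.f^[n] x))) ^ (1 - D.al) ≤ P1 * ((i : ℝ) + 1) ^ N1 * D.Aw x n →
      (L * Real.exp (χ * (((n - 1 - i : ℕ) : ℝ) - N))) ≤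
        κ'' * (64 * P0 * ((i : ℝ) + 1) ^ N0 * D.Aw x (n - 1 - i)) →
      κ'' * Real.exp (χ * ((i : ℝ) + 1)) * (64 * P0 * P1 * ((i : ℝ) + 1) ^ (N0 + N1)) ≤
        κ' * D.q ^ (D.al * (i : ℝ)) →
      L * Real.exp (χ * ((n : ℝ) - N)) * (min 1 (r / D.zt (D.f^[n] x))) ^ (1 - D.al) ≤
        κ' * D.Aw x n := by
    intro n i r L κ' κ'' hr hi hL hκ' hκ'' hst hind hab
    obtain ⟨mn, hmnd⟩ : ∃ mn, mn = (min 1 (r / D.zt (D.f^[n] x))) ^ (1 - D.al) := ⟨_, rfl⟩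
    have hmn0 : 0 < mn := by rw [hmnd]; exact (hmn n r hr).1
    rw [← hmnd] at hst ⊢
    rw [hQprod] at hab
    obtain ⟨Am, hAm⟩ : ∃ Am, Am = D.Aw x (n - 1 - i) := ⟨_, rfl⟩
    rw [← hAm] at hst hind
    have hAm0 : 0 < Am := by rw [hAm]; exact hAw0 _
    obtain ⟨P64, hP64⟩ : ∃ P64, P64 = 64 * P0 * ((i : ℝ) + 1) ^ N0 := ⟨_, rfl⟩
    obtain ⟨PP, hPP⟩ : ∃ PP, PP = P1 * ((i : ℝ) + 1) ^ N1 := ⟨_, rfl⟩
    have hPP0 : 0 < PP := by rw [hPP]; exact hQpos i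
    have hP640 : 0 < P64 := by rw [hP64]; exact hQ64 i
    rw [← hP64, ← hPP] at hab
    rw [← hP64] at hind
    rw [← hPP] at hst
    rw [← hexpm n i hi]
    obtain ⟨e1, he1⟩ : ∃ e1, e1 = Real.exp (χ * ((i : ℝ) + 1)) := ⟨_, rfl⟩
    obtain ⟨e2, he2⟩ : ∃ e2, e2 = Real.exp (χ * (((n - 1 - i : ℕ) : ℝ) - N)) := ⟨_, rfl⟩
    have he10 : 0 < e1 := by rw [he1]; exact Real.exp_pos _
    rw [← he1] at hab ⊢
    rw [← he2] at hind ⊢
    -- multiply by PP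
    have f1 : PP * (L * (e1 * e2) * mn) ≤ PP * (κ' * D.Aw x n) := by
      calc PP * (L * (e1 * e2) * mn) = (L * e2) * (PP * e1 * mn) := by ring
        _ ≤ (κ'' * (P64 * Am)) * (PP * e1 * mn) := mul_le_mul_of_nonneg_right hind (by positivity)
        _ = (κ'' * e1 * (P64 * PP)) * (Am * mn) := by ring
        _ ≤ (κ' * D.q ^ (D.al * (i : ℝ))) * (Am * mn) :=
            mul_le_mul_of_nonneg_right hab (by positivity)
        _ = κ' * (D.q ^ (D.al * (i : ℝ)) * Am * mn) := by ring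
        _ ≤ κ' * (PP * D.Aw x n) := mul_le_mul_of_nonneg_left hst hκ'.le
        _ = _ := by ring
    exact le_of_mul_le_mul_left f1 hPP0
  have hclose : ∀ (n : ℕ) (r : ℝ) (b : ℂ), MR D x n R r → r < R * D.dd (D.f^[n] x) → b ∈ D.Cr →
      D.zt (D.f^[n] x) = ‖D.f^[n] x - b‖ → D.zt (D.f^[n] x) ≤ z →
      K * Real.exp (χ * ((n : ℝ) - N)) * (min 1 (r / D.zt (D.f^[n] x))) ^ (1 - D.al) ≤
        κ0 ^ D.τ b * D.Aw x n := by
    intro n
    induction n using Nat.strong_induction_on with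
    | _ n ih =>
    intro r b hr hrR hbC hztb hztz
    obtain ⟨i, c, hi, hc, hfree, hnear, hztm, hztmz, hst, r', hr', hr''⟩ := hS n r hr hrR
    have hκb : κ0 ^ (T + 1) ≤ κ0 * κ0 ^ D.τ b := by
      rw [← pow_succ']
      exact pow_le_pow_of_le_one hκ0.le hκ1 (by have := hτT b hbC; omega)
    rcases hr'' with h | ⟨h, hmm⟩
    · -- `r' = R`
      have hm : n - 1 - i < N := by
        by_contra hcon
        exact hN _ (not_lt.1 hcon) (h ▸ hr'.ex)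
      have h1 := hR' n i r hr.pos hi hm hst
      have hmn0 := (hmn n r hr.pos).1
      obtain ⟨mn, hmnd⟩ : ∃ mn, mn = (min 1 (r / D.zt (D.f^[n] x))) ^ (1 - D.al) := ⟨_, rfl⟩
      rw [← hmnd] at h1 hmn0 ⊢
      calc K * Real.exp (χ * ((n : ℝ) - N)) * mn
          = κ0 ^ (T + 1) * (a * Real.exp (χ * ((n : ℝ) - N)) * mn) := by rw [hK]; ring
        _ ≤ (κ0 * κ0 ^ D.τ b) * (a * Real.exp (χ * ((n : ℝ) - N)) * mn) :=
            mul_le_mul_of_nonneg_right hκb (by positivity)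
        _ = κ0 ^ D.τ b * (κ0 * a * Real.exp (χ * ((n : ℝ) - N)) * mn) := by ring
        _ ≤ κ0 ^ D.τ b * D.Aw x n := mul_le_mul_of_nonneg_left h1 (by positivity)
    · -- `r' < R`
      have h1 := ih (n - 1 - i) (by omega) r' c hr' h hc hztm hztmz
      have hcb : ‖D.f^[i + 1] c - b‖ ≤ z4 := by
        have e1 : D.f^[i + 1] c - b = (D.f^[i + 1] c - D.f^[n] x) + (D.f^[n] x - b) := by ring
        rw [e1]
        refine (norm_add_le _ _).trans ?_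
        rw [← hztb]
        linarith
      have hmm0 := (hmn (n - 1 - i) r' hr'.pos).1
      obtain ⟨mm, hmmd⟩ : ∃ mm, mm = (min 1 (r' / D.zt (D.f^[n - 1 - i] x))) ^ (1 - D.al) :=
        ⟨_, rfl⟩
      rw [← hmmd] at h1 hmm hmm0
      have h2 : K * Real.exp (χ * (((n - 1 - i : ℕ) : ℝ) - N)) ≤
          κ0 ^ D.τ c * (64 * P0 * ((i : ℝ) + 1) ^ N0 * D.Aw x (n - 1 - i)) := by
        have e2 : 0 ≤ K * Real.exp (χ * (((n - 1 - i : ℕ) : ℝ) - N)) := by positivity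
        calc K * Real.exp (χ * (((n - 1 - i : ℕ) : ℝ) - N))
            ≤ K * Real.exp (χ * (((n - 1 - i : ℕ) : ℝ) - N)) *
              (64 * P0 * ((i : ℝ) + 1) ^ N0 * mm) := le_mul_of_one_le_right e2 hmm
          _ = 64 * P0 * ((i : ℝ) + 1) ^ N0 *
              (K * Real.exp (χ * (((n - 1 - i : ℕ) : ℝ) - N)) * mm) := by ring
          _ ≤ 64 * P0 * ((i : ℝ) + 1) ^ N0 * (κ0 ^ D.τ c * D.Aw x (n - 1 - i)) :=
              mul_le_mul_of_nonneg_left h1 (hQ64 i).le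
          _ = _ := by ring
      refine hgen n i r K (κ0 ^ D.τ b) (κ0 ^ D.τ c) hr.pos hi hK0.le (by positivity)
        (by positivity) hst h2 ?_
      rcases lt_or_ge i I with hiI | hiI
      · -- `f^[i+1] c = b`
        have hfb := hlong c (cr_S D hc) b (cr_S D hbC) i hiI hcb
        have hrel := (D.rel c hc i hfree (by rw [hfb]; exact hbC)).2
        rw [hfb] at hrel
        have e3 : κ0 ^ D.τ c ≤ κ0 ^ D.τ b * κ0 := by
          rw [← pow_succ]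
          exact pow_le_pow_of_le_one hκ0.le hκ1 (by omega)
        have e4 := ha i
        obtain ⟨Z, hZ⟩ : ∃ Z, Z = 64 * P0 * P1 * ((i : ℝ) + 1) ^ (N0 + N1) := ⟨_, rfl⟩
        have hZ0 : 0 < Z := by rw [hZ]; positivity
        rw [← hZ] at e4 ⊢
        calc κ0 ^ D.τ c * Real.exp (χ * ((i : ℝ) + 1)) * Z
            = κ0 ^ D.τ c * (Real.exp (χ * ((i : ℝ) + 1)) * Z) := by ring
          _ ≤ (κ0 ^ D.τ b * κ0) * (Real.exp (χ * ((i : ℝ) + 1)) * Z) :=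
              mul_le_mul_of_nonneg_right e3 (by positivity)
          _ = κ0 ^ D.τ b * (κ0 * Real.exp (χ * ((i : ℝ) + 1)) * Z) := by ring
          _ ≤ _ := mul_le_mul_of_nonneg_left e4 (by positivity)
      · have e4 := hb i hiI
        obtain ⟨Z, hZ⟩ : ∃ Z, Z = 64 * P0 * P1 * ((i : ℝ) + 1) ^ (N0 + N1) := ⟨_, rfl⟩
        have hZ0 : 0 < Z := by rw [hZ]; positivity
        rw [← hZ] at e4 ⊢
        have e5 : κ0 ^ D.τ c ≤ 1 := pow_le_one₀ hκ0.le hκ1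
        have e6 : κ0 ^ (T + 1) ≤ κ0 ^ D.τ b :=
          pow_le_pow_of_le_one hκ0.le hκ1 (by have := hτT b hbC; omega)
        calc κ0 ^ D.τ c * Real.exp (χ * ((i : ℝ) + 1)) * Z
            = κ0 ^ D.τ c * (Real.exp (χ * ((i : ℝ) + 1)) * Z) := by ring
          _ ≤ 1 * (Real.exp (χ * ((i : ℝ) + 1)) * Z) :=
              mul_le_mul_of_nonneg_right e5 (by positivity)
          _ = Real.exp (χ * ((i : ℝ) + 1)) * Z := one_mul _
          _ ≤ κ0 ^ (T + 1) * D.q ^ (D.al * (i : ℝ)) := e4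
          _ ≤ κ0 ^ D.τ b * D.q ^ (D.al * (i : ℝ)) :=
              mul_le_mul_of_nonneg_right e6 (Real.rpow_nonneg (by linarith [D.hq]) _)
  -- conclusion
  refine ⟨κ0 * K * Real.exp (-(χ * N)), by positivity, fun n r hr => ?_⟩
  have hmn0 := (hmn n r hr.pos).1
  have hmn1 := (hmn n r hr.pos).2
  have he : κ0 * K * Real.exp (-(χ * N)) * Real.exp (χ * n) =
      κ0 * K * Real.exp (χ * ((n : ℝ) - N)) := by
    rw [mul_assoc, ← Real.exp_add]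
    congr 2
    ring
  rw [he]
  have hKa : K ≤ a := by
    rw [hK]
    exact mul_le_of_le_one_left ha0.le (pow_le_one₀ hκ0.le hκ1)
  rcases eq_or_lt_of_le hr.le with h | h
  · -- `r = R`
    have hn : n < N := by
      by_contra hcon
      exact hN _ (not_lt.1 hcon) (h ▸ hr.ex)
    have e1 : Real.exp (χ * ((n : ℝ) - N)) ≤ 1 := by
      rw [Real.exp_le_one_iff]
      have : (n : ℝ) ≤ N := by exact_mod_cast hn.le
      nlinarith
    have e2 := han n hn.le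
    obtain ⟨mn, hmnd⟩ : ∃ mn, mn = (min 1 (r / D.zt (D.f^[n] x))) ^ (1 - D.al) := ⟨_, rfl⟩
    rw [← hmnd] at hmn0 hmn1 ⊢
    have e3 : 0 < Real.exp (χ * ((n : ℝ) - N)) := Real.exp_pos _
    calc κ0 * K * Real.exp (χ * ((n : ℝ) - N)) * mn
        ≤ κ0 * K * Real.exp (χ * ((n : ℝ) - N)) * 1 :=
          mul_le_mul_of_nonneg_left hmn1 (by positivity)
      _ ≤ κ0 * K * 1 * 1 := by
          refine mul_le_mul_of_nonneg_right ?_ zero_le_one
          exact mul_le_mul_of_nonneg_left e1 (by positivity)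
      _ = κ0 * K := by ring
      _ ≤ 1 * K := mul_le_mul_of_nonneg_right hκ1 hK0.le
      _ = K := one_mul _
      _ ≤ a := hKa
      _ ≤ _ := e2
  · obtain ⟨i, c, hi, hc, hfree, hnear, hztm, hztmz, hst, r', hr', hr''⟩ := hS n r hr h
    rcases hr'' with h' | ⟨h', hmm⟩
    · have hm : n - 1 - i < N := by
        by_contra hcon
        exact hN _ (not_lt.1 hcon) (h' ▸ hr'.ex)
      have h1 := hR' n i r hr.pos hi hm hst
      obtain ⟨mn, hmnd⟩ : ∃ mn, mn = (min 1 (r / D.zt (D.f^[n] x))) ^ (1 - D.al) := ⟨_, rfl⟩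
      rw [← hmnd] at h1 hmn0 ⊢
      calc κ0 * K * Real.exp (χ * ((n : ℝ) - N)) * mn
          = K * (κ0 * Real.exp (χ * ((n : ℝ) - N)) * mn) := by ring
        _ ≤ a * (κ0 * Real.exp (χ * ((n : ℝ) - N)) * mn) :=
            mul_le_mul_of_nonneg_right hKa (by positivity)
        _ = κ0 * a * Real.exp (χ * ((n : ℝ) - N)) * mn := by ring
        _ ≤ _ := h1
    · have h1 := hclose (n - 1 - i) r' c hr' h' hc hztm hztmz
      have hmm0 := (hmn (n - 1 - i) r' hr'.pos).1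
      obtain ⟨mm, hmmd⟩ : ∃ mm, mm = (min 1 (r' / D.zt (D.f^[n - 1 - i] x))) ^ (1 - D.al) :=
        ⟨_, rfl⟩
      rw [← hmmd] at h1 hmm hmm0
      have h2 : (κ0 * K) * Real.exp (χ * (((n - 1 - i : ℕ) : ℝ) - N)) ≤
          κ0 * (64 * P0 * ((i : ℝ) + 1) ^ N0 * D.Aw x (n - 1 - i)) := by
        have e2 : 0 ≤ K * Real.exp (χ * (((n - 1 - i : ℕ) : ℝ) - N)) := by positivity
        have e5 : κ0 ^ D.τ c ≤ 1 := pow_le_one₀ hκ0.le hκ1
        have e6 : K * Real.exp (χ * (((n - 1 - i : ℕ) : ℝ) - N)) ≤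
            64 * P0 * ((i : ℝ) + 1) ^ N0 * D.Aw x (n - 1 - i) := by
          calc K * Real.exp (χ * (((n - 1 - i : ℕ) : ℝ) - N))
              ≤ K * Real.exp (χ * (((n - 1 - i : ℕ) : ℝ) - N)) *
                (64 * P0 * ((i : ℝ) + 1) ^ N0 * mm) := le_mul_of_one_le_right e2 hmm
            _ = 64 * P0 * ((i : ℝ) + 1) ^ N0 *
                (K * Real.exp (χ * (((n - 1 - i : ℕ) : ℝ) - N)) * mm) := by ring
            _ ≤ 64 * P0 * ((i : ℝ) + 1) ^ N0 * (κ0 ^ D.τ c * D.Aw x (n - 1 - i)) :=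
                mul_le_mul_of_nonneg_left h1 (hQ64 i).le
            _ ≤ 64 * P0 * ((i : ℝ) + 1) ^ N0 * (1 * D.Aw x (n - 1 - i)) := by
                refine mul_le_mul_of_nonneg_left ?_ (hQ64 i).le
                exact mul_le_mul_of_nonneg_right e5 (hAw0 _).le
            _ = _ := by rw [one_mul]
        calc (κ0 * K) * Real.exp (χ * (((n - 1 - i : ℕ) : ℝ) - N))
            = κ0 * (K * Real.exp (χ * (((n - 1 - i : ℕ) : ℝ) - N))) := by ring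
          _ ≤ _ := mul_le_mul_of_nonneg_left e6 hκ0.le
      have h3 := hgen n i r (κ0 * K) 1 κ0 hr.pos hi (by positivity) one_pos hκ0 hst h2
        (by rw [one_mul]; exact ha i)
      rw [one_mul] at h3
      exact h3

end Pool.Agent.H44.DP
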