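import Pool.Agent.H44.DP.FWD

/-!
# Module INH: near a parabolic point unobstructed discs stay unobstructed

PROOF. `η` small: `η ≤ r0 / 8`, `exp (C * η ^ qp p) ≤ 2` for all `p ∈ Pa` (`qp p ≥ 1`, e.g. `C * η ≤ log 2`, `η ≤ 1`). `R1 = min ϑ 1` or smaller. Points
`x_j = f^[j] x ∈ J`, `∉ S`, hence `x_j ∈ V1 ⊆ V` (`D.hVJ` with `w = z`, `dd_pos`).
(1) `leave`: `a_j = ‖x_j - p‖ > 0`; as long as `x_j ∈ ball p η`: `a_(j+1) ≥ a_j * exp (κ a_j ^ q)` (`D.a1`), so `a_j` is nondecreasing, `a_j ≥ a_n`, `a_(j+1) ≥ a_j * exp (κ a_n ^ q)`,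
which is impossible forever. The first `n' ≥ n` with `x_n' ∉ ball p η`: `x_(n'-1) ∈ ball p η` (if `n' > n`), so `η ≤ a_n' ≤ 2 η` (`D.b1`), `dd x_n' = a_n'` (`dd_near`).
(2) `inh_br`: `k = n' - n`, `φ` from `D.hinv p`, `ρ = R / 16`, `B = ball x_n' (ρ * ‖x_n' - p‖)`. CLAIM by induction on `j ≤ k`: for all `w ∈ B`: `φ^[j] w ∈ ball p r0`,
`‖φ^[j] w - x_(n'-j)‖ < 4 ρ ‖x_(n'-j) - p‖` , `φ^[j]` is differentiable at `w`, `f (φ^[j] w) = φ^[j-1] w` (`j ≥ 1`), and `‖deriv (φ^[j]) w‖ * ‖w - p‖ ≤ ‖φ^[j] w - p‖`.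
Step: `y = x_(n'-j)`, `y' = x_(n'-j-1) ∈ ball p η`, `f y' = y`, `φ y = y'` (`hinv`, last part: `y' ∈ ball p r0`, `y ∈ ball p r0`), `‖y - p‖ ≤ 2 ‖y' - p‖` (`b1`). `φ` is `2`-Lipschitz on the convex `ball p r0`: `‖φ (φ^[j] w) - y'‖ ≤ 2 * 4 ρ ‖y - p‖ ≤ 16 ρ ‖y' - p‖ = R ‖y' - p‖ < ϑ dd y'`
(strictly smaller than: use `<` and `R ≤ R1 ≤ ϑ`; `dd y' = ‖y' - p‖` by `dd_near`), so `z = φ^[j+1] w ∈ V` and `z ∈ ball p r0`. `D.a2` at `z`: `‖f z - p‖ ≤ ‖z - p‖ * ‖deriv f z‖`, and `deriv f z * deriv φ (φ^[j] w) = 1` (`f ∘ φ = id` near `φ^[j] w`; `f` is differentiable at `z ∈ G`),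
so `‖deriv φ (φ^[j] w)‖ * ‖φ^[j] w - p‖ ≤ ‖z - p‖`; chain rule: the derivative claim for `j + 1`. Distance: `H w = (φ^[j+1] w - p) / (y' - p)` on `B` (convex): `‖H w‖ ≤ 1 + R ≤ 2`, `‖H' w‖ ≤ ‖H w‖ / ‖w - p‖ ≤ 2 / ‖w - p‖ ≤ 4 / ‖x_n' - p‖` (`‖w - p‖ ≥ (1 - ρ) ‖x_n' - p‖`), `H (x_n') = 1`,
mean value inequality: `‖H w - 1‖ ≤ 4 / ‖x_n' - p‖ * ‖w - x_n'‖ < 4 ρ` (for `w ≠ x_n'`; trivial for `w = x_n'`): multiply by `‖y' - p‖`.
(3) `fwd_fam` with `b = k`, `H = φ^[k]`, its `ρ` being `4 ρ ‖x_n - p‖ = (R / 4) dd x_n ≤ r / 2`, `r = R dd x_n`, `r' = ρ * ‖x_n' - p‖`; `f^[i] (φ^[k] w) = φ^[k-i] w ∈ V ⊆ thickening (δ/2) J`.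
If `η ≤ dd x_n`: `n' = n` and `br_mono`. Otherwise `dd x_n = ‖x_n - p‖ < η` for some `p` (`dd_ex`, `η ≤ 1`).
-/

/-!
# Module INH: near a parabolic point unobstructed discs stay unobstructed

PROOF. `η` small: `η ≤ r0 / 8`, `exp (C * η ^ qp p) ≤ 2` for all `p ∈ Pa` (`qp p ≥ 1`, e.g. `C * η ≤ log 2`, `η ≤ 1`). `R1 = min ϑ 1` or smaller. Points
`x_j = f^[j] x ∈ J`, `∉ S`, hence `x_j ∈ V1 ⊆ V` (`D.hVJ` with `w = z`, `dd_pos`).
(1) `leave`: `a_j = ‖x_j - p‖ > 0`; as long as `x_j ∈ ball p η`: `a_(j+1) ≥ a_j * exp (κ a_j ^ q)` (`D.a1`), so `a_j` is nondecreasing, `a_j ≥ a_n`, `a_(j+1) ≥ a_j * exp (κ a_n ^ q)`,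
which is impossible forever. The first `n' ≥ n` with `x_n' ∉ ball p η`: `x_(n'-1) ∈ ball p η` (if `n' > n`), so `η ≤ a_n' ≤ 2 η` (`D.b1`), `dd x_n' = a_n'` (`dd_near`).
(2) `inh_br`: `k = n' - n`, `φ` from `D.hinv p`, `ρ = R / 16`, `B = ball x_n' (ρ * ‖x_n' - p‖)`. CLAIM by induction on `j ≤ k`: for all `w ∈ B`: `φ^[j] w ∈ ball p r0`,
`‖φ^[j] w - x_(n'-j)‖ < 4 ρ ‖x_(n'-j) - p‖` , `φ^[j]` is differentiable at `w`, `f (φ^[j] w) = φ^[j-1] w` (`j ≥ 1`), and `‖deriv (φ^[j]) w‖ * ‖w - p‖ ≤ ‖φ^[j] w - p‖`.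
Step: `y = x_(n'-j)`, `y' = x_(n'-j-1) ∈ ball p η`, `f y' = y`, `φ y = y'` (`hinv`, last part: `y' ∈ ball p r0`, `y ∈ ball p r0`), `‖y - p‖ ≤ 2 ‖y' - p‖` (`b1`). `φ` is `2`-Lipschitz on the convex `ball p r0`: `‖φ (φ^[j] w) - y'‖ ≤ 2 * 4 ρ ‖y - p‖ ≤ 16 ρ ‖y' - p‖ = R ‖y' - p‖ < ϑ dd y'`
(strictly smaller than: use `<` and `R ≤ R1 ≤ ϑ`; `dd y' = ‖y' - p‖` by `dd_near`), so `z = φ^[j+1] w ∈ V` and `z ∈ ball p r0`. `D.a2` at `z`: `‖f z - p‖ ≤ ‖z - p‖ * ‖deriv f z‖`, and `deriv f z * deriv φ (φ^[j] w) = 1` (`f ∘ φ = id` near `φ^[j] w`; `f` is differentiable at `z ∈ G`),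
so `‖deriv φ (φ^[j] w)‖ * ‖φ^[j] w - p‖ ≤ ‖z - p‖`; chain rule: the derivative claim for `j + 1`. Distance: `H w = (φ^[j+1] w - p) / (y' - p)` on `B` (convex): `‖H w‖ ≤ 1 + R ≤ 2`, `‖H' w‖ ≤ ‖H w‖ / ‖w - p‖ ≤ 2 / ‖w - p‖ ≤ 4 / ‖x_n' - p‖` (`‖w - p‖ ≥ (1 - ρ) ‖x_n' - p‖`), `H (x_n') = 1`,
mean value inequality: `‖H w - 1‖ ≤ 4 / ‖x_n' - p‖ * ‖w - x_n'‖ < 4 ρ` (for `w ≠ x_n'`; trivial for `w = x_n'`): multiply by `‖y' - p‖`.
(3) `fwd_fam` with `b = k`, `H = φ^[k]`, its `ρ` being `4 ρ ‖x_n - p‖ = (R / 4) dd x_n ≤ r / 2`, `r = R dd x_n`, `r' = ρ * ‖x_n' - p‖`; `f^[i] (φ^[k] w) = φ^[k-i] w ∈ V ⊆ thickening (δ/2) J`.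
If `η ≤ dd x_n`: `n' = n` and `br_mono`. Otherwise `dd x_n = ‖x_n - p‖ < η` for some `p` (`dd_ex`, `η ≤ 1`).
-/

set_option autoImplicit false

open Filter Topology Metric Set

namespace Pool.Agent.H44.DP

private theorem orb_npa {D : Ps} {x : ℂ} (hx : NC D x) (j : ℕ) : D.f^[j] x ∉ D.Pa :=
  fun h => hx.2 j (pa_S D h)

private theorem orb_V {D : Ps} {x : ℂ} (hx : NC D x) (j : ℕ) : D.f^[j] x ∈ D.V := by
  refine D.hV1 (D.hVJ _ (it_J D hx.1 j) (orb_npa hx j) _ ?_)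
  rw [sub_self, norm_zero]
  exact mul_pos D.hϑ (dd_pos D (orb_npa hx j))

/-- the orbit leaves the neighbourhood of a parabolic point -/
theorem leave (D : Ps) : ∃ η : ℝ, 0 < η ∧ η ≤ D.r0 / 8 ∧ (∀ p ∈ D.Pa, ∀ z ∈ ball p η,
      ‖D.f z - p‖ ≤ 2 * ‖z - p‖) ∧ ∀ x : ℂ, NC D x → ∀ p ∈ D.Pa, ∀ n : ℕ,
      D.f^[n] x ∈ ball p η → ∃ n' : ℕ, n < n' ∧ (∀ j, n ≤ j → j < n' → D.f^[j] x ∈ ball p η) ∧
        η ≤ ‖D.f^[n'] x - p‖ ∧ ‖D.f^[n'] x - p‖ ≤ 2 * η := by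
  have hC0 : 0 < D.C := lt_of_lt_of_le zero_lt_one D.hC
  have hr0 := D.hr0
  have hr1 : D.r0 ≤ 1 / 4 := by linarith [D.hr1, D.hδ1]
  have hlog : 0 < Real.log 2 := Real.log_pos one_lt_two
  obtain ⟨η, hη⟩ : ∃ η : ℝ, η = min (D.r0 / 8) (Real.log 2 / D.C) := ⟨_, rfl⟩
  have hη0 : 0 < η := by
    rw [hη]
    exact lt_min (by linarith) (div_pos hlog hC0)
  have hη1 : η ≤ D.r0 / 8 := by rw [hη]; exact min_le_left _ _
  have hη2 : D.C * η ≤ Real.log 2 := by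
    have h1 : η ≤ Real.log 2 / D.C := by rw [hη]; exact min_le_right _ _
    rw [le_div_iff₀ hC0] at h1
    linarith
  have hdbl : ∀ p ∈ D.Pa, ∀ z ∈ ball p η, ‖D.f z - p‖ ≤ 2 * ‖z - p‖ := by
    intro p hp z hz
    have hz' : ‖z - p‖ < η := by
      rw [← dist_eq_norm]
      exact hz
    have h1 := D.b1 p hp z (ball_subset_ball (by linarith) hz)
    have h2 : ‖z - p‖ ^ D.qp p ≤ ‖z - p‖ :=
      pow_le_of_le_one (norm_nonneg _) (by linarith) (by have := D.hqp p hp; omega)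
    have h3 : Real.exp (D.C * ‖z - p‖ ^ D.qp p) ≤ 2 := by
      calc Real.exp (D.C * ‖z - p‖ ^ D.qp p) ≤ Real.exp (Real.log 2) := by
            apply Real.exp_le_exp.2
            have h4 : D.C * ‖z - p‖ ^ D.qp p ≤ D.C * η := mul_le_mul_of_nonneg_left (by linarith) hC0.le
            linarith
        _ = 2 := Real.exp_log two_pos
    calc ‖D.f z - p‖ ≤ ‖z - p‖ * Real.exp (D.C * ‖z - p‖ ^ D.qp p) := h1
      _ ≤ ‖z - p‖ * 2 := mul_le_mul_of_nonneg_left h3 (norm_nonneg _)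
      _ = 2 * ‖z - p‖ := mul_comm _ _
  refine ⟨η, hη0, hη1, hdbl, fun x hx p hp n hn => ?_⟩
  -- the orbit leaves
  have hpos : ∀ j, 0 < ‖D.f^[j] x - p‖ := by
    intro j
    rw [norm_pos_iff, sub_ne_zero]
    intro h
    exact orb_npa hx j (h ▸ hp)
  have hex : ∃ k, D.f^[n + k] x ∉ ball p η := by
    by_contra hcon
    push Not at hcon
    have hE : 1 < Real.exp (D.κ * ‖D.f^[n] x - p‖ ^ D.qp p) := by
      rw [Real.one_lt_exp_iff]
      exact mul_pos D.hκ (pow_pos (hpos n) _)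
    have hgrow : ∀ k, ‖D.f^[n] x - p‖ * Real.exp (D.κ * ‖D.f^[n] x - p‖ ^ D.qp p) ^ k ≤ ‖D.f^[n + k] x - p‖ := by
      intro k
      induction k with
      | zero => simp
      | succ k ih =>
        have h1 := D.a1 p hp (D.f^[n + k] x) (ball_subset_ball (by linarith) (hcon k)) (orb_V hx _)
        rw [← Function.iterate_succ_apply' D.f] at h1
        have h2 : ‖D.f^[n] x - p‖ ≤ ‖D.f^[n + k] x - p‖ := by
          refine le_trans ?_ ih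
          exact le_mul_of_one_le_right (norm_nonneg _) (one_le_pow₀ hE.le)
        have h3 : Real.exp (D.κ * ‖D.f^[n] x - p‖ ^ D.qp p) ≤ Real.exp (D.κ * ‖D.f^[n + k] x - p‖ ^ D.qp p) := by
          apply Real.exp_le_exp.2
          exact mul_le_mul_of_nonneg_left (pow_le_pow_left₀ (norm_nonneg _) h2 _) D.hκ.le
        calc ‖D.f^[n] x - p‖ * Real.exp (D.κ * ‖D.f^[n] x - p‖ ^ D.qp p) ^ (k + 1)
            = (‖D.f^[n] x - p‖ * Real.exp (D.κ * ‖D.f^[n] x - p‖ ^ D.qp p) ^ k) * Real.exp (D.κ * ‖D.f^[n] x - p‖ ^ D.qp p) := by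
              rw [pow_succ]
              ring
          _ ≤ ‖D.f^[n + k] x - p‖ * Real.exp (D.κ * ‖D.f^[n + k] x - p‖ ^ D.qp p) :=
              mul_le_mul ih h3 (Real.exp_pos _).le (norm_nonneg _)
          _ ≤ ‖D.f^[n + (k + 1)] x - p‖ := h1
    obtain ⟨k, hk⟩ := pow_unbounded_of_one_lt (η / ‖D.f^[n] x - p‖) hE
    rw [div_lt_iff₀ (hpos n)] at hk
    have h1 := hgrow k
    have h2 : ‖D.f^[n + k] x - p‖ < η := by
      rw [← dist_eq_norm]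
      exact hcon k
    linarith
  classical
  have hk := Nat.find_spec hex
  have hkm := fun m (hm : m < Nat.find hex) => Nat.find_min hex hm
  generalize Nat.find hex = k at hk hkm
  have hk0 : 0 < k := by
    rcases Nat.eq_zero_or_pos k with h | h
    · rw [h] at hk
      exact absurd hn hk
    · exact h
  refine ⟨n + k, by omega, fun j h1 h2 => ?_, ?_, ?_⟩
  · have h3 := hkm (j - n) (by omega)
    rw [not_not, show n + (j - n) = j by omega] at h3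
    exact h3
  · rw [mem_ball, not_lt, dist_eq_norm] at hk
    exact hk
  · have h3 := hkm (k - 1) (by omega)
    rw [not_not] at h3
    have h4 := hdbl p hp _ h3
    rw [← Function.iterate_succ_apply' D.f, show (n + (k - 1)).succ = n + k by omega] at h4
    rw [mem_ball, dist_eq_norm] at h3
    linarith

/-- the claim -/
private theorem inh_br {D : Ps} {p : ℂ} (hp : p ∈ D.Pa) {φ : ℂ → ℂ} (hφ : DifferentiableOn ℂ φ (ball p D.r0))
    (h1 : ∀ w ∈ ball p D.r0, D.f (φ w) = w ∧ φ w ∈ thickening D.δ D.J ∧ ‖φ w - p‖ ≤ 2 * ‖w - p‖ ∧ ‖deriv φ w‖ ≤ 2)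
    (h2 : ∀ z ∈ ball p D.r0, D.f z ∈ ball p D.r0 → φ (D.f z) = z) {η : ℝ} (hη0 : 0 < η) (hη : η ≤ D.r0 / 8)
    (hdbl : ∀ z ∈ ball p η, ‖D.f z - p‖ ≤ 2 * ‖z - p‖) {R : ℝ} (hR : 0 < R) (hRϑ : R ≤ D.ϑ) {x : ℂ} (hx : NC D x) {n k : ℕ}
    (hin : ∀ j, n ≤ j → j < n + k → D.f^[j] x ∈ ball p η) (hn' : ‖D.f^[n + k] x - p‖ ≤ 2 * η) :
    ∀ j, j ≤ k → φ^[j] (D.f^[n + k] x) = D.f^[n + k - j] x ∧ ∀ w ∈ ball (D.f^[n + k] x) (R / 16 * ‖D.f^[n + k] x - p‖),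
      φ^[j] w ∈ ball p D.r0 ∧ ‖φ^[j] w - D.f^[n + k - j] x‖ < R / 4 * ‖D.f^[n + k - j] x - p‖ ∧
      DifferentiableAt ℂ (φ^[j]) w ∧ ‖deriv (φ^[j]) w‖ * ‖w - p‖ ≤ ‖φ^[j] w - p‖ ∧
      (1 ≤ j → φ^[j] w ∈ D.V ∧ D.f (φ^[j] w) = φ^[j - 1] w) := by
  have hr0 := D.hr0
  have hϑ1 := D.hϑ1
  have hpos : ∀ j, 0 < ‖D.f^[j] x - p‖ := by
    intro j
    rw [norm_pos_iff, sub_ne_zero]
    intro h
    exact orb_npa hx j (h ▸ hp)
  intro j
  induction j with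
  | zero =>
    intro _
    refine ⟨rfl, fun w hw => ?_⟩
    have hA := hpos (n + k)
    have hw' : ‖w - D.f^[n + k] x‖ < R / 16 * ‖D.f^[n + k] x - p‖ := by
      rw [← dist_eq_norm]
      exact hw
    have hwp : ‖w - p‖ ≤ ‖w - D.f^[n + k] x‖ + ‖D.f^[n + k] x - p‖ := norm_sub_le_norm_sub_add_norm_sub _ _ _
    refine ⟨?_, ?_, differentiableAt_id, ?_, fun h => absurd h (by omega)⟩
    · rw [Function.iterate_zero, id, mem_ball, dist_eq_norm]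
      nlinarith
    · rw [Function.iterate_zero, id, Nat.sub_zero]
      nlinarith
    · rw [Function.iterate_zero, deriv_id, norm_one, one_mul, id]
  | succ j ih =>
    intro hj
    obtain ⟨ih1, ih2⟩ := ih (by omega)
    -- the points
    have hyin : D.f^[n + k - (j + 1)] x ∈ ball p η := hin _ (by omega) (by omega)
    have hfy : D.f (D.f^[n + k - (j + 1)] x) = D.f^[n + k - j] x := by
      rw [← Function.iterate_succ_apply' D.f]
      congr 2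
      omega
    have hyd := hdbl _ hyin
    rw [hfy] at hyd
    have hya : ‖D.f^[n + k - (j + 1)] x - p‖ < η := by
      rw [← dist_eq_norm]
      exact hyin
    have hyr : D.f^[n + k - (j + 1)] x ∈ ball p D.r0 := ball_subset_ball (by linarith) hyin
    have hyr2 : D.f^[n + k - j] x ∈ ball p D.r0 := by
      rw [mem_ball, dist_eq_norm]
      linarith
    have hφy : φ (D.f^[n + k - j] x) = D.f^[n + k - (j + 1)] x := by
      have h3 := h2 _ hyr (by rw [hfy]; exact hyr2)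
      rwa [hfy] at h3
    have hdd : D.dd (D.f^[n + k - (j + 1)] x) = ‖D.f^[n + k - (j + 1)] x - p‖ := dd_near D hp (by linarith)
    have hya0 := hpos (n + k - (j + 1))
    have hval : φ^[j + 1] (D.f^[n + k] x) = D.f^[n + k - (j + 1)] x := by
      rw [Function.iterate_succ_apply', ih1, hφy]
    -- one step
    have hstep : ∀ w ∈ ball (D.f^[n + k] x) (R / 16 * ‖D.f^[n + k] x - p‖),
        ‖φ^[j + 1] w - D.f^[n + k - (j + 1)] x‖ < R * ‖D.f^[n + k - (j + 1)] x - p‖ ∧ φ^[j + 1] w ∈ ball p D.r0 ∧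
        DifferentiableAt ℂ (φ^[j + 1]) w ∧ ‖deriv (φ^[j + 1]) w‖ * ‖w - p‖ ≤ ‖φ^[j + 1] w - p‖ ∧
        φ^[j + 1] w ∈ D.V ∧ D.f (φ^[j + 1] w) = φ^[j] w := by
      intro w hw
      obtain ⟨k1, k2, k3, k4, -⟩ := ih2 w hw
      have hlip : ‖φ (φ^[j] w) - φ (D.f^[n + k - j] x)‖ ≤ 2 * ‖φ^[j] w - D.f^[n + k - j] x‖ :=
        Convex.norm_image_sub_le_of_norm_deriv_le (𝕜 := ℂ) (s := ball p D.r0)
          (fun z hz => hφ.differentiableAt (isOpen_ball.mem_nhds hz)) (fun z hz => (h1 z hz).2.2.2) (convex_ball p D.r0) hyr2 k1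
      rw [hφy, ← Function.iterate_succ_apply' φ] at hlip
      have hd1 : ‖φ^[j + 1] w - D.f^[n + k - (j + 1)] x‖ < R * ‖D.f^[n + k - (j + 1)] x - p‖ := by
        have h3 : ‖φ^[j + 1] w - D.f^[n + k - (j + 1)] x‖ ≤ 2 * ‖φ^[j] w - D.f^[n + k - j] x‖ := hlip
        nlinarith
      have hzr : φ^[j + 1] w ∈ ball p D.r0 := by
        rw [mem_ball, dist_eq_norm]
        have h3 : ‖φ^[j + 1] w - p‖ ≤ ‖φ^[j + 1] w - D.f^[n + k - (j + 1)] x‖ + ‖D.f^[n + k - (j + 1)] x - p‖ :=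
          norm_sub_le_norm_sub_add_norm_sub _ _ _
        nlinarith
      have hzV : φ^[j + 1] w ∈ D.V := by
        refine D.hV1 (D.hVJ (D.f^[n + k - (j + 1)] x) (it_J D hx.1 _) (orb_npa hx _) (φ^[j + 1] w) ?_)
        show ‖φ^[j + 1] w - D.f^[n + k - (j + 1)] x‖ < D.ϑ * D.dd (D.f^[n + k - (j + 1)] x)
        rw [hdd]
        exact hd1.trans_le (mul_le_mul_of_nonneg_right hRϑ (norm_nonneg _))
      have hfz : D.f (φ^[j + 1] w) = φ^[j] w := by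
        rw [Function.iterate_succ_apply']
        exact (h1 _ k1).1
      have hφd : DifferentiableAt ℂ φ (φ^[j] w) := hφ.differentiableAt (isOpen_ball.mem_nhds k1)
      have hdiff : DifferentiableAt ℂ (φ^[j + 1]) w := by
        rw [Function.iterate_succ']
        exact DifferentiableAt.comp w hφd k3
      have hder : deriv (φ^[j + 1]) w = deriv φ (φ^[j] w) * deriv (φ^[j]) w := by
        rw [Function.iterate_succ']
        exact deriv_comp w hφd k3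
      have hzG : φ^[j + 1] w ∈ D.G := D.hU (thickening_mono (by linarith [D.hδ]) _ (D.hV hzV))
      have hone : deriv D.f (φ^[j + 1] w) * deriv φ (φ^[j] w) = 1 := by
        have h3 : deriv (D.f ∘ φ) (φ^[j] w) = deriv D.f (φ (φ^[j] w)) * deriv φ (φ^[j] w) :=
          deriv_comp _ (D.hf.differentiableAt (D.hG.mem_nhds (by
            rw [← Function.iterate_succ_apply' φ]
            exact hzG))) hφd
        have h4 : (D.f ∘ φ) =ᶠ[𝓝 (φ^[j] w)] id := by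
          filter_upwards [isOpen_ball.mem_nhds k1] with z hz
          exact (h1 z hz).1
        rw [Function.iterate_succ_apply', ← h3, h4.deriv_eq, deriv_id]
      have ha2 := D.a2 p hp _ hzr hzV
      rw [hfz] at ha2
      have hexp : 1 ≤ Real.exp (D.κ * ‖φ^[j + 1] w - p‖ ^ D.qp p) := Real.one_le_exp (mul_nonneg D.hκ.le (by positivity))
      have hu : ‖φ^[j] w - p‖ ≤ ‖φ^[j + 1] w - p‖ * ‖deriv D.f (φ^[j + 1] w)‖ :=
        (le_mul_of_one_le_right (norm_nonneg _) hexp).trans ha2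
      have hn1 : ‖deriv D.f (φ^[j + 1] w)‖ * ‖deriv φ (φ^[j] w)‖ = 1 := by
        rw [← norm_mul, hone, norm_one]
      refine ⟨hd1, hzr, hdiff, ?_, hzV, hfz⟩
      rw [hder, norm_mul]
      calc ‖deriv φ (φ^[j] w)‖ * ‖deriv (φ^[j]) w‖ * ‖w - p‖ = ‖deriv φ (φ^[j] w)‖ * (‖deriv (φ^[j]) w‖ * ‖w - p‖) := by ring
        _ ≤ ‖deriv φ (φ^[j] w)‖ * (‖φ^[j + 1] w - p‖ * ‖deriv D.f (φ^[j + 1] w)‖) :=
            mul_le_mul_of_nonneg_left (k4.trans hu) (norm_nonneg _)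
        _ = ‖φ^[j + 1] w - p‖ * (‖deriv D.f (φ^[j + 1] w)‖ * ‖deriv φ (φ^[j] w)‖) := by ring
        _ = ‖φ^[j + 1] w - p‖ := by rw [hn1, mul_one]
    refine ⟨hval, fun w hw => ?_⟩
    obtain ⟨s1, s2, s3, s4, s5, s6⟩ := hstep w hw
    refine ⟨s2, ?_, s3, s4, fun _ => ⟨s5, s6⟩⟩
    -- the distance
    have hA := hpos (n + k)
    have hbd : ∀ w ∈ ball (D.f^[n + k] x) (R / 16 * ‖D.f^[n + k] x - p‖),
        ‖deriv (φ^[j + 1]) w‖ ≤ 4 * ‖D.f^[n + k - (j + 1)] x - p‖ / ‖D.f^[n + k] x - p‖ := by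
      intro w hw
      obtain ⟨t1, -, -, t4, -, -⟩ := hstep w hw
      have hw' : ‖w - D.f^[n + k] x‖ < R / 16 * ‖D.f^[n + k] x - p‖ := by
        rw [← dist_eq_norm]
        exact hw
      have hwp : ‖D.f^[n + k] x - p‖ ≤ ‖w - D.f^[n + k] x‖ + ‖w - p‖ := by
        have h3 := norm_sub_le_norm_sub_add_norm_sub (D.f^[n + k] x) w p
        rwa [norm_sub_rev (D.f^[n + k] x) w] at h3
      have hwp2 : ‖D.f^[n + k] x - p‖ / 2 ≤ ‖w - p‖ := by nlinarith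
      have hz2 : ‖φ^[j + 1] w - p‖ ≤ 2 * ‖D.f^[n + k - (j + 1)] x - p‖ := by
        have h3 : ‖φ^[j + 1] w - p‖ ≤ ‖φ^[j + 1] w - D.f^[n + k - (j + 1)] x‖ + ‖D.f^[n + k - (j + 1)] x - p‖ :=
          norm_sub_le_norm_sub_add_norm_sub _ _ _
        nlinarith
      rw [le_div_iff₀ hA]
      have h4 : ‖deriv (φ^[j + 1]) w‖ * (‖D.f^[n + k] x - p‖ / 2) ≤ ‖deriv (φ^[j + 1]) w‖ * ‖w - p‖ :=
        mul_le_mul_of_nonneg_left hwp2 (norm_nonneg _)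
      linarith
    have hrad : 0 < R / 16 * ‖D.f^[n + k] x - p‖ := by positivity
    have hmv := Convex.norm_image_sub_le_of_norm_deriv_le (𝕜 := ℂ) (s := ball (D.f^[n + k] x) (R / 16 * ‖D.f^[n + k] x - p‖))
      (f := φ^[j + 1]) (fun z hz => (hstep z hz).2.2.1) hbd (convex_ball _ _) (mem_ball_self hrad) hw
    rw [hval] at hmv
    have hw' : ‖w - D.f^[n + k] x‖ < R / 16 * ‖D.f^[n + k] x - p‖ := by
      rw [← dist_eq_norm]
      exact hw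
    calc ‖φ^[j + 1] w - D.f^[n + k - (j + 1)] x‖
        ≤ 4 * ‖D.f^[n + k - (j + 1)] x - p‖ / ‖D.f^[n + k] x - p‖ * ‖w - D.f^[n + k] x‖ := hmv
      _ < 4 * ‖D.f^[n + k - (j + 1)] x - p‖ / ‖D.f^[n + k] x - p‖ * (R / 16 * ‖D.f^[n + k] x - p‖) :=
          mul_lt_mul_of_pos_left hw' (by positivity)
      _ = R / 4 * ‖D.f^[n + k - (j + 1)] x - p‖ := by
          field_simp
          ring

theorem inh (D : Ps) : ∃ R1 η : ℝ, 0 < R1 ∧ R1 ≤ D.ϑ ∧ 0 < η ∧ ∀ x : ℂ, NC D x → ∀ (n : ℕ) (R : ℝ),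
    0 < R → R ≤ R1 → UU D x n (R * D.dd (D.f^[n] x)) → ∃ n' : ℕ, n ≤ n' ∧ η ≤ D.dd (D.f^[n'] x) ∧
      UU D x n' (R / 16 * D.dd (D.f^[n'] x)) := by
  obtain ⟨η, hη0, hη1, hdbl, hlv⟩ := leave D
  have hr0 := D.hr0
  have hr1 := D.hr1
  have hδ1 := D.hδ1
  have hϑ1 := D.hϑ1
  refine ⟨D.ϑ, η, D.hϑ, le_rfl, hη0, fun x hx n R hR hRϑ hU => ?_⟩
  rcases le_or_gt η (D.dd (D.f^[n] x)) with hc | hc
  · obtain ⟨g, hg⟩ := hU
    have h1 : 0 < D.dd (D.f^[n] x) := hη0.trans_le hc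
    exact ⟨n, le_rfl, hc, g, br_mono hg (by positivity) (mul_le_mul_of_nonneg_right (by linarith) h1.le) le_rfl⟩
  · rcases dd_ex D (D.f^[n] x) with h1 | ⟨p, hp, h1⟩
    · rw [h1] at hc
      linarith
    · have hxn : D.f^[n] x ∈ ball p η := by
        rw [mem_ball, dist_eq_norm, ← h1]
        exact hc
      obtain ⟨n', hnn, hin, hge, hle⟩ := hlv x hx p hp n hxn
      obtain ⟨k, rfl⟩ := Nat.exists_eq_add_of_le hnn.le
      obtain ⟨φ, hφ, p1, p2⟩ := D.hinv p hp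
      have hdd : D.dd (D.f^[n + k] x) = ‖D.f^[n + k] x - p‖ := dd_near D hp (by linarith)
      have key := inh_br hp hφ p1 p2 hη0 hη1 (hdbl p hp) hR hRϑ hx hin hle
      refine ⟨n + k, by omega, by rw [hdd]; exact hge, ?_⟩
      rw [hdd]
      have hA : 0 < ‖D.f^[n + k] x - p‖ := hη0.trans_le hge
      have hx0 : 0 < ‖D.f^[n] x - p‖ := by
        rw [norm_pos_iff, sub_ne_zero]
        intro h
        exact orb_npa hx n (h ▸ hp)
      obtain ⟨kk1, kk2⟩ := key k le_rfl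
      rw [Nat.add_sub_cancel] at kk1 kk2
      have hback : ∀ w ∈ ball (D.f^[n + k] x) (R / 16 * ‖D.f^[n + k] x - p‖), ∀ i, i ≤ k → D.f^[i] (φ^[k] w) = φ^[k - i] w := by
        intro w hw i
        induction i with
        | zero => intro _; rfl
        | succ i ih =>
          intro hi
          rw [Function.iterate_succ_apply', ih (by omega), ((key (k - i) (by omega)).2 w hw).2.2.2.2 (by omega) |>.2]
          congr 1
      refine fwd_fam (r := R * D.dd (D.f^[n] x)) (ρ := R / 4 * ‖D.f^[n] x - p‖) (H := φ^[k]) hx ?_ ?_ (by positivity) ?_ hU ?_ ?_ kk1 ?_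
      · rw [h1]
        positivity
      · rw [h1]
        nlinarith
      · nlinarith
      · exact fun w hw => (kk2 w hw).2.2.1.differentiableWithinAt
      · intro w hw
        refine ⟨?_, ?_⟩
        · rw [mem_ball, dist_eq_norm]
          exact (kk2 w hw).2.1
        · rw [hback w hw k le_rfl, Nat.sub_self]
          rfl
      · intro w hw i hi
        rw [hback w hw i hi.le]
        exact thickening_mono (by linarith [D.hδ]) _ (D.hV (((key (k - i) (by omega)).2 w hw).2.2.2.2 (by omega)).1)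

end Pool.Agent.H44.DP
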