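import Pool.Agent.H44.DP.LMC
import Pool.Agent.H44.DP.CMP

/-!
# Module LM1: families: sequences of good scales of macroscopic size

`Sq`: a sequence of discs of parameters around `u k → 0` (direction in `K`, relative size `→ 0`) on which the orbit is
holomorphic up to the time `n k`, such that the proportion of the bad parameters is at least `ε`.

PROOF of `lim1`. Compare H44/DN/LIMU. `h k η = X.g (n k) (u k + ρ k * η)` on `ball 0 1`: holomorphic, bounded by `R`, `limu_ex` (with `s0 = s1`, `ρ' = 7/8`): a subsequence `σ` with limit `Ψ` on `ball 0 (7/8)`, not constant; `limu_null` with `S = J` (`hnull`): `Ψ η ∈ J` on a null set. `limc` for `B l = cthickening (1/(l+1)) J` (their intersection is `J`: `J` closed; compare `hCint` in `limu_fatou` of H44/DN/LIMU) and `ε / 2`... (`ε` itself is enough):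
`l, n`: `volume {η ∈ ball 0 (3/4) | h (σ k) η ∈ B l} ≤ ofReal ε` for `k ≥ n`. `comp1` with `t = 1/(l+1)`, `R`: `ε'`. For large `k` all `v = u (σ k) + ρ (σ k) * η`, `‖η‖ < 3/4`, satisfy `v ∈ ball 0 ε'`, `v ≠ 0` (`ρ k < ‖u k‖` for large `k`), `‖v/‖v‖ - u/‖u‖‖ < ε'` (`≤ 2 ‖v - u‖ / ‖u‖ ≤ 2 ρ k / ‖u k‖ → 0`), so `P v` unless `h (σ k) η ∈ thickening t J ⊆ B l`. `sc_vol` with `S = {v | ¬ P v}` restricted to the ball, `B = {η ∈ ball 0 (3/4) | h (σ k) η ∈ B l}`: contradiction to `bad`.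
`sq_sub`: restriction to a subsequence. `dir_near`: `‖v/‖v‖ - u/‖u‖‖ ≤ 2 ‖v - u‖ / ‖u‖`: `v/‖v‖ - u/‖u‖ = (v - u)/‖u‖ + v (1/‖v‖ - 1/‖u‖)`.
-/

set_option autoImplicit false

open Filter Topology Metric Set

namespace Pool.Agent.H44.DP

open MeasureTheory in
/-- a sequence of discs of parameters with many bad parameters -/
structure Sq (D : Ps) (X : Fam D) (R ε : ℝ) (u : ℕ → ℂ) (ρ : ℕ → ℝ) (n : ℕ → ℕ) : Prop where
  u0 : Tendsto u atTop (𝓝 0)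
  ne : ∀ k, u k ≠ 0
  dir : ∀ k, u k / (‖u k‖ : ℂ) ∈ X.K
  pos : ∀ k, 0 < ρ k
  rel : Tendsto (fun k => ρ k / ‖u k‖) atTop (𝓝 0)
  mem : ∀ k, ∀ i < n k, ∀ v ∈ ball (u k) (ρ k), X.g i v ∈ thickening D.δ D.J
  diff : ∀ k, DifferentiableOn ℂ (X.g (n k)) (ball (u k) (ρ k))
  bd : ∀ k, ∀ v ∈ ball (u k) (ρ k), ‖X.g (n k) v‖ ≤ R
  bad : ∀ k, ENNReal.ofReal (ε * ρ k ^ 2) < volume (ball (u k) (3 / 4 * ρ k) ∩ {v | ¬ X.P v})

theorem sq_sub {D : Ps} {X : Fam D} {R ε : ℝ} {u : ℕ → ℂ} {ρ : ℕ → ℝ} {n : ℕ → ℕ}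
    (h : Sq D X R ε u ρ n) {σ : ℕ → ℕ} (hσ : StrictMono σ) :
    Sq D X R ε (u ∘ σ) (ρ ∘ σ) (n ∘ σ) where
  u0 := h.u0.comp hσ.tendsto_atTop
  ne := fun k => h.ne (σ k)
  dir := fun k => h.dir (σ k)
  pos := fun k => h.pos (σ k)
  rel := h.rel.comp hσ.tendsto_atTop
  mem := fun k => h.mem (σ k)
  diff := fun k => h.diff (σ k)
  bd := fun k => h.bd (σ k)
  bad := fun k => h.bad (σ k)

theorem dir_near {u v : ℂ} (hu : u ≠ 0) (hv : v ≠ 0) :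
    ‖v / (‖v‖ : ℂ) - u / (‖u‖ : ℂ)‖ ≤ 2 * ‖v - u‖ / ‖u‖ := by
  have hu' : 0 < ‖u‖ := norm_pos_iff.2 hu
  have hv' : 0 < ‖v‖ := norm_pos_iff.2 hv
  have hu1 : (‖u‖ : ℂ) ≠ 0 := Complex.ofReal_ne_zero.2 hu'.ne'
  have hv1 : (‖v‖ : ℂ) ≠ 0 := Complex.ofReal_ne_zero.2 hv'.ne'
  have e1 : v / (‖v‖ : ℂ) - u / (‖u‖ : ℂ) =
      (v - u) / (‖u‖ : ℂ) + v * (((‖u‖ - ‖v‖ : ℝ) : ℂ) / ((‖u‖ : ℂ) * (‖v‖ : ℂ))) := by
    push_cast
    field_simp
    ring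
  rw [e1]
  refine (norm_add_le _ _).trans ?_
  have e2 : ‖(v - u) / (‖u‖ : ℂ)‖ = ‖v - u‖ / ‖u‖ := by
    rw [norm_div, Complex.norm_real, Real.norm_of_nonneg hu'.le]
  have e3 : ‖v * (((‖u‖ - ‖v‖ : ℝ) : ℂ) / ((‖u‖ : ℂ) * (‖v‖ : ℂ)))‖ = |‖u‖ - ‖v‖| / ‖u‖ := by
    rw [norm_mul, norm_div, norm_mul, Complex.norm_real, Complex.norm_real, Complex.norm_real,
      Real.norm_of_nonneg hu'.le, Real.norm_of_nonneg hv'.le, Real.norm_eq_abs]
    field_simp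
  rw [e2, e3]
  have e4 : |‖u‖ - ‖v‖| ≤ ‖v - u‖ := by
    rw [← norm_sub_rev u v]
    exact abs_norm_sub_norm_le u v
  have e5 : |‖u‖ - ‖v‖| / ‖u‖ ≤ ‖v - u‖ / ‖u‖ := div_le_div_of_nonneg_right e4 hu'.le
  calc ‖v - u‖ / ‖u‖ + |‖u‖ - ‖v‖| / ‖u‖ ≤ ‖v - u‖ / ‖u‖ + ‖v - u‖ / ‖u‖ := by linarith
    _ = 2 * ‖v - u‖ / ‖u‖ := by ring

open MeasureTheory in
theorem lim1 (D : Ps) (hnull : volume D.J = 0) (X : Fam D) {R ε s1 : ℝ} (hε : 0 < ε) (hs1 : 0 < s1)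
    {u : ℕ → ℂ} {ρ : ℕ → ℝ} {n : ℕ → ℕ} (h : Sq D X R ε u ρ n) :
    ¬ ∀ k, ∃ v ∈ ball (u k) (ρ k / 2), s1 ≤ ‖X.g (n k) v - X.g (n k) (u k)‖ := by
  intro hex
  have hpos : ∀ l : ℕ, (0 : ℝ) < 1 / ((l : ℝ) + 1) := fun l => Nat.one_div_pos_of_nat
  have hne : ∀ k, (ρ k : ℂ) ≠ 0 := fun k => Complex.ofReal_ne_zero.2 (h.pos k).ne'
  have hmap : ∀ k, ∀ η ∈ ball (0 : ℂ) 1, u k + (ρ k : ℂ) * η ∈ ball (u k) (ρ k) := by
    intro k η hη
    rw [mem_ball_zero_iff] at hη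
    rw [mem_ball, dist_eq_norm, add_sub_cancel_left, norm_mul, Complex.norm_real,
      Real.norm_of_nonneg (h.pos k).le]
    exact mul_lt_of_lt_one_right (h.pos k) hη
  have hd : ∀ k, DifferentiableOn ℂ (fun η => X.g (n k) (u k + (ρ k : ℂ) * η)) (ball 0 1) :=
    fun k => (h.diff k).comp (by fun_prop) (hmap k)
  obtain ⟨σ, Ψ, hσ, hΨ, hlim, hnc⟩ := limu_ex
    (h := fun k η => X.g (n k) (u k + (ρ k : ℂ) * η)) (s0 := s1) (R := R) (ρ' := 7 / 8)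
    hd (fun k η hη => h.bd k _ (hmap k η hη))
    (fun k => by
      obtain ⟨v, hv, hv2⟩ := hex k
      refine ⟨(v - u k) / (ρ k : ℂ), ?_, ?_⟩
      · rw [mem_ball, dist_eq_norm] at hv
        rw [mem_ball_zero_iff, norm_div, Complex.norm_real, Real.norm_of_nonneg (h.pos k).le,
          div_lt_iff₀ (h.pos k)]
        linarith
      · have e1 : u k + (ρ k : ℂ) * ((v - u k) / (ρ k : ℂ)) = v := by
          rw [mul_div_cancel₀ _ (hne k)]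
          ring
        have e2 : u k + (ρ k : ℂ) * 0 = u k := by ring
        change s1 ≤ ‖X.g (n k) (u k + (ρ k : ℂ) * ((v - u k) / (ρ k : ℂ))) -
          X.g (n k) (u k + (ρ k : ℂ) * 0)‖
        rw [e1, e2]
        exact hv2) (by norm_num) (by norm_num)
  -- the closed sets
  let B : ℕ → Set ℂ := fun l => cthickening (1 / ((l : ℝ) + 1)) D.J
  have hBc : ∀ l, IsClosed (B l) := fun l => isClosed_cthickening
  have hBa : Antitone B := by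
    intro a b hab
    refine cthickening_mono ?_ _
    apply one_div_le_one_div_of_le (by positivity)
    have : (a : ℝ) ≤ b := by exact_mod_cast hab
    linarith
  have hBn : volume {η : ℂ | η ∈ ball (0 : ℂ) (3 / 4) ∧ ∀ l, Ψ η ∈ B l} = 0 := by
    refine measure_mono_null ?_ (limu_null hs1 hΨ hnc hnull)
    rintro η ⟨hη, hη2⟩
    refine ⟨hη, ?_⟩
    rw [← D.hJ.isClosed.closure_eq,
      closure_eq_iInter_cthickening' D.J (Set.range fun l : ℕ => 1 / ((l : ℝ) + 1))]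
    · rw [mem_iInter₂]
      rintro _ ⟨l, rfl⟩
      exact hη2 l
    · intro e he
      obtain ⟨N, hN⟩ := exists_nat_one_div_lt he
      exact ⟨_, ⟨N, rfl⟩, ⟨hpos N, hN.le⟩⟩
  obtain ⟨l, n0, hn0⟩ := limc (h := fun k η => X.g (n (σ k)) (u (σ k) + (ρ (σ k) : ℂ) * η))
    hBc hBa (fun k => hd (σ k)) hΨ hlim hBn hε
  obtain ⟨ε', hε', hcomp⟩ := comp1 D X (R := R) (hpos l)
  -- large indices
  have E1 : ∀ᶠ k in atTop, ‖u (σ k)‖ < ε' / 2 := by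
    have := (h.u0.comp hσ.tendsto_atTop).norm
    rw [norm_zero] at this
    exact this.eventually_lt_const (half_pos hε')
  have E2 : ∀ᶠ k in atTop, ρ (σ k) / ‖u (σ k)‖ < min 1 (ε' / 2) :=
    (h.rel.comp hσ.tendsto_atTop).eventually_lt_const (lt_min one_pos (half_pos hε'))
  obtain ⟨k, h1, h2, h3⟩ := (E1.and (E2.and (eventually_ge_atTop n0))).exists
  have hup : 0 < ‖u (σ k)‖ := norm_pos_iff.2 (h.ne (σ k))
  have h4 : ρ (σ k) < ‖u (σ k)‖ := by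
    have := (lt_min_iff.1 h2).1
    rwa [div_lt_one hup] at this
  have h5 : 2 * (ρ (σ k) / ‖u (σ k)‖) < ε' := by
    have := (lt_min_iff.1 h2).2
    linarith
  have hρ := h.pos (σ k)
  refine absurd (sc_vol (u := u (σ k)) hρ hε.le (hn0 k h3) (S := {v | ¬ X.P v}) ?_)
    (not_le.2 (h.bad (σ k)))
  intro η hη hP
  refine ⟨hη, ?_⟩
  by_contra hnot
  apply hP
  have hηb : u (σ k) + (ρ (σ k) : ℂ) * η ∈ ball (u (σ k)) (ρ (σ k)) :=
    hmap (σ k) η (ball_subset_ball (by norm_num) hη)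
  have hd1 : ‖u (σ k) + (ρ (σ k) : ℂ) * η - u (σ k)‖ < ρ (σ k) := by
    rwa [mem_ball, dist_eq_norm] at hηb
  have hv0 : u (σ k) + (ρ (σ k) : ℂ) * η ≠ 0 := by
    intro h0
    rw [h0, zero_sub, norm_neg] at hd1
    linarith
  refine hcomp (u (σ k) + (ρ (σ k) : ℂ) * η) ?_ hv0 ⟨_, h.dir (σ k), ?_⟩ (n (σ k))
    (fun i hi => h.mem (σ k) i hi _ hηb) (h.bd (σ k) _ hηb)
    (fun hc => hnot (thickening_subset_cthickening _ _ hc))
  · rw [mem_ball_zero_iff]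
    have h6 := norm_add_le (u (σ k) + (ρ (σ k) : ℂ) * η - u (σ k)) (u (σ k))
    rw [sub_add_cancel] at h6
    linarith
  · refine (dir_near (h.ne (σ k)) hv0).trans_lt ?_
    refine lt_of_le_of_lt ?_ h5
    rw [mul_div_assoc]
    have := div_le_div_of_nonneg_right hd1.le hup.le
    linarith

end Pool.Agent.H44.DP
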