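import Pool.Agent.H44.DP.LM1

/-!
# Module LM2: families: sequences of good scales which shrink to a parabolic point

PROOF. `ray_null`: `z ↦ α z ^ q` is holomorphic and not constant, and `{w | ‖w‖ ≤ re w}` (the nonnegative real axis) is a null set; `pre_null` (H44/LD/PREN) on large discs (`η ↦ α (m η) ^ q`, `m ∈ ℕ`), or directly. `B l = {z | ‖z‖ ≤ 1/(l+1) ∨ (1 - 1/(l+1)) ‖α z^q‖ ≤ re (α z^q)}` are closed and antitone, their intersection is contained in `{z | ‖α z^q‖ ≤ re (α z^q)}` (`z = 0` included since `q ≥ 1`).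
`lim2`: for large `k` `dd (g (n k) (u k)) ≤ a k / c0 < min r0 1`, so `dd = ‖X.g (n k) (u k) - p_k‖`, `p_k ∈ Pa` (`dd_ex`); `Pa` is finite, so `p_k = p` along a subsequence (`sq_sub`). `h k η = (X.g (n k) (u k + ρ k η) - p) / a k`: holomorphic on `ball 0 1`, bounded by `1 + 1/c0`, `limu_ex` with `s0`, a subsequence with limit `Ψ`; `limu_null` and `ray_null` (`α = ap p ≠ 0`, `q = qp p ≥ 1`), `limc` with the sets `B l`: `l, n1` with `volume {η ∈ ball 0 (3/4) | h k η ∈ B l} ≤ ofReal ε` for `k ≥ n1`.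
`comp2` with `ε' = 1/(l+1)`: `ε''`. For large `k` and `v = u k + ρ k η`, `‖η‖ < 3/4`, `h k η ∉ B l`: `v ≠ 0`, `v ∈ ball 0 ε''`, direction (`dir_near`, as in `lim1`), `‖g (n k) v - p‖ ≤ (1 + 1/c0) a k < ε''`, `‖g (n k) v - p‖ ≥ a k / (l + 1) ≥ ‖v‖ ^ θ2` (`‖v‖ ≤ 2 ‖u k‖`, `(2 ‖u k‖) ^ θ2 = 2 ^ θ2 ‖u k‖ ^ (θ2/2) ‖u k‖ ^ (θ2/2) ≤ (2 ^ θ2 ‖u k‖ ^ (θ2/2)) a k`, and the bracket tends to `0`),
and `re (α (g - p)^q) < (1 - 1/(l+1)) ‖..‖` (`α (g - p)^q = a k ^ q * (α (h k η)^q)`, `a k > 0`). So `P v`. `sc_vol` contradicts `bad`.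
-/

set_option autoImplicit false

open Filter Topology Metric Set

namespace Pool.Agent.H44.DP

open MeasureTheory in
private theorem real_null : volume {w : ℂ | ‖w‖ ≤ w.re} = 0 := by
  have h1 : {w : ℂ | ‖w‖ ≤ w.re} ⊆ (LinearMap.ker Complex.imLm : Submodule ℝ ℂ) := by
    intro w hw
    have hw' : ‖w‖ ≤ w.re := hw
    have h2 : ‖w‖ ^ 2 = w.re ^ 2 + w.im ^ 2 := by
      rw [← Complex.normSq_eq_norm_sq, Complex.normSq_apply]
      ring
    have h3 : ‖w‖ ^ 2 ≤ w.re ^ 2 := pow_le_pow_left₀ (norm_nonneg _) hw' 2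
    have h4 : w.im ^ 2 = 0 := le_antisymm (by linarith) (sq_nonneg _)
    have h5 : w.im = 0 := by simpa using h4
    rw [SetLike.mem_coe, LinearMap.mem_ker]
    exact h5
  refine measure_mono_null h1 (Measure.addHaar_submodule volume _ ?_)
  intro hc
  have h2 : Complex.I ∈ (LinearMap.ker Complex.imLm : Submodule ℝ ℂ) := by
    rw [hc]
    trivial
  rw [LinearMap.mem_ker] at h2
  have h3 : Complex.I.im = 0 := h2
  rw [Complex.I_im] at h3
  exact one_ne_zero h3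

open MeasureTheory in
open scoped Pointwise in
theorem ray_null {α : ℂ} {q : ℕ} (hα : α ≠ 0) (hq : 1 ≤ q) :
    volume {z : ℂ | ‖α * z ^ q‖ ≤ (α * z ^ q).re} = 0 := by
  have h1 : ∀ m : ℕ, volume {η : ℂ | η ∈ ball (0 : ℂ) 1 ∧
      α * (((m : ℂ) + 1) * η) ^ q ∈ {w : ℂ | ‖w‖ ≤ w.re}} = 0 := by
    intro m
    refine Pool.Agent.H44.LD.pre_null (Ψ := fun η => α * (((m : ℂ) + 1) * η) ^ q) (by fun_prop) ?_
      real_null
    intro hc
    have h2 := hc (1 / 2) (by rw [mem_ball_zero_iff]; norm_num)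
    have hm : ((m : ℂ) + 1) ≠ 0 := by exact_mod_cast Nat.succ_ne_zero m
    simp only [mul_zero, zero_pow (show q ≠ 0 by omega)] at h2
    rcases mul_eq_zero.1 h2 with h3 | h3
    · exact hα h3
    · have h4 := eq_zero_of_pow_eq_zero h3
      rcases mul_eq_zero.1 h4 with h5 | h5
      · exact hm h5
      · norm_num at h5
  have h2 : {z : ℂ | ‖α * z ^ q‖ ≤ (α * z ^ q).re} ⊆ ⋃ m : ℕ, (((m : ℝ) + 1) •
      {η : ℂ | η ∈ ball (0 : ℂ) 1 ∧ α * (((m : ℂ) + 1) * η) ^ q ∈ {w : ℂ | ‖w‖ ≤ w.re}}) := by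
    intro z hz
    obtain ⟨m, hm⟩ := exists_nat_gt ‖z‖
    rw [mem_iUnion]
    have hm0 : (0 : ℝ) < (m : ℝ) + 1 := by positivity
    have hmc : ((m : ℂ) + 1) ≠ 0 := by exact_mod_cast Nat.succ_ne_zero m
    have e1 : ((m : ℂ) + 1) * (z / ((m : ℂ) + 1)) = z := mul_div_cancel₀ _ hmc
    refine ⟨m, z / ((m : ℂ) + 1), ⟨?_, ?_⟩, ?_⟩
    · rw [mem_ball_zero_iff, norm_div]
      have e2 : ‖(m : ℂ) + 1‖ = (m : ℝ) + 1 := by
        have : ((m : ℂ) + 1) = (((m : ℝ) + 1 : ℝ) : ℂ) := by push_cast; ring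
        rw [this, Complex.norm_real, Real.norm_of_nonneg hm0.le]
      rw [e2, div_lt_one hm0]
      linarith
    · rw [e1]
      exact hz
    · change ((m : ℝ) + 1) • (z / ((m : ℂ) + 1)) = z
      rw [Complex.real_smul]
      push_cast
      exact e1
  refine measure_mono_null h2 (measure_iUnion_null fun m => ?_)
  rw [Measure.addHaar_smul, h1 m, mul_zero]

open MeasureTheory in
private theorem lim2' (D : Ps) (X : Fam D) {R ε s0 c0 : ℝ} (hε : 0 < ε) (hs0 : 0 < s0)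
    (hc0 : 0 < c0)
    {u : ℕ → ℂ} {ρ : ℕ → ℝ} {n : ℕ → ℕ} {a : ℕ → ℝ} (h : Sq D X R ε u ρ n)
    (ha : Tendsto a atTop (𝓝 0)) (hapos : ∀ k, 0 < a k)
    (hlow : ∀ k, ‖u k‖ ^ (X.θ2 / 2) ≤ a k)
    (hosc : ∀ k, ∀ v ∈ ball (u k) (ρ k), ‖X.g (n k) v - X.g (n k) (u k)‖ ≤ a k)
    {p : ℂ} (hp : p ∈ D.Pa) (hpk : ∀ k, ‖X.g (n k) (u k) - p‖ ≤ a k / c0)
    (hex : ∀ k, ∃ v ∈ ball (u k) (ρ k / 2), s0 * a k ≤ ‖X.g (n k) v - X.g (n k) (u k)‖) :
    False := by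
  have hα : D.ap p ≠ 0 := D.hap p hp
  have hq : 1 ≤ D.qp p := D.hqp p hp
  have hmap : ∀ k, ∀ η ∈ ball (0 : ℂ) 1, u k + (ρ k : ℂ) * η ∈ ball (u k) (ρ k) := by
    intro k η hη
    rw [mem_ball_zero_iff] at hη
    rw [mem_ball, dist_eq_norm, add_sub_cancel_left, norm_mul, Complex.norm_real,
      Real.norm_of_nonneg (h.pos k).le]
    exact mul_lt_of_lt_one_right (h.pos k) hη
  have hak : ∀ k, ((a k : ℝ) : ℂ) ≠ 0 := fun k => Complex.ofReal_ne_zero.2 (hapos k).ne'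
  obtain ⟨H, hH⟩ : ∃ H : ℕ → ℂ → ℂ, H = fun k η => (X.g (n k) (u k + (ρ k : ℂ) * η) - p) /
    ((a k : ℝ) : ℂ) := ⟨_, rfl⟩
  have hHe : ∀ k η, X.g (n k) (u k + (ρ k : ℂ) * η) - p = ((a k : ℝ) : ℂ) * H k η := by
    intro k η
    rw [hH]
    exact (mul_div_cancel₀ _ (hak k)).symm
  have hd : ∀ k, DifferentiableOn ℂ (H k) (ball 0 1) := by
    intro k
    rw [hH]
    exact (((h.diff k).comp (by fun_prop) (hmap k)).sub_const p).div_const _
  have hB : ∀ k, ∀ z ∈ ball (0 : ℂ) 1, ‖H k z‖ ≤ 1 + 1 / c0 := by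
    intro k z hz
    have h1 := hosc k _ (hmap k z hz)
    have h2 : ‖X.g (n k) (u k + (ρ k : ℂ) * z) - p‖ ≤ a k + a k / c0 := by
      have e : X.g (n k) (u k + (ρ k : ℂ) * z) - p =
          (X.g (n k) (u k + (ρ k : ℂ) * z) - X.g (n k) (u k)) + (X.g (n k) (u k) - p) := by ring
      rw [e]
      exact (norm_add_le _ _).trans (add_le_add h1 (hpk k))
    rw [hH]
    change ‖(X.g (n k) (u k + (ρ k : ℂ) * z) - p) / ((a k : ℝ) : ℂ)‖ ≤ 1 + 1 / c0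
    rw [norm_div, Complex.norm_real, Real.norm_of_nonneg (hapos k).le, div_le_iff₀ (hapos k)]
    have e2 : (1 + 1 / c0) * a k = a k + a k / c0 := by ring
    rw [e2]
    exact h2
  obtain ⟨σ, Ψ, hσ, hΨ, hlim, hnc⟩ := limu_ex (h := H) (s0 := s0) (R := 1 + 1 / c0)
    (ρ' := 7 / 8) hd hB
    (fun k => by
      obtain ⟨v, hv, hv2⟩ := hex k
      have hne : (ρ k : ℂ) ≠ 0 := Complex.ofReal_ne_zero.2 (h.pos k).ne'
      refine ⟨(v - u k) / (ρ k : ℂ), ?_, ?_⟩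
      · rw [mem_ball, dist_eq_norm] at hv
        rw [mem_ball_zero_iff, norm_div, Complex.norm_real, Real.norm_of_nonneg (h.pos k).le,
          div_lt_iff₀ (h.pos k)]
        linarith
      · have e1 : u k + (ρ k : ℂ) * ((v - u k) / (ρ k : ℂ)) = v := by
          rw [mul_div_cancel₀ _ hne]
          ring
        have e2 : u k + (ρ k : ℂ) * 0 = u k := by ring
        rw [hH]
        change s0 ≤ ‖(X.g (n k) (u k + (ρ k : ℂ) * ((v - u k) / (ρ k : ℂ))) - p) / ((a k : ℝ) : ℂ) -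
          (X.g (n k) (u k + (ρ k : ℂ) * 0) - p) / ((a k : ℝ) : ℂ)‖
        rw [e1, e2, ← sub_div, sub_sub_sub_cancel_right, norm_div, Complex.norm_real,
          Real.norm_of_nonneg (hapos k).le, le_div_iff₀ (hapos k)]
        exact hv2) (by norm_num) (by norm_num)
  -- the closed sets
  obtain ⟨B, hBdef⟩ : ∃ B : ℕ → Set ℂ, B = fun l : ℕ => {z : ℂ | ‖z‖ ≤ 1 / ((l : ℝ) + 1) ∨
    (1 - 1 / ((l : ℝ) + 1)) * ‖D.ap p * z ^ D.qp p‖ ≤ (D.ap p * z ^ D.qp p).re} := ⟨_, rfl⟩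
  have hBmem : ∀ l z, z ∈ B l ↔ (‖z‖ ≤ 1 / ((l : ℝ) + 1) ∨
      (1 - 1 / ((l : ℝ) + 1)) * ‖D.ap p * z ^ D.qp p‖ ≤ (D.ap p * z ^ D.qp p).re) := by
    intro l z
    rw [hBdef]
    exact Iff.rfl
  have hBc : ∀ l, IsClosed (B l) := by
    intro l
    have e : B l = {z : ℂ | ‖z‖ ≤ 1 / ((l : ℝ) + 1)} ∪ {z : ℂ |
        (1 - 1 / ((l : ℝ) + 1)) * ‖D.ap p * z ^ D.qp p‖ ≤ (D.ap p * z ^ D.qp p).re} := by
      ext z
      exact hBmem l z
    rw [e]
    exact (isClosed_le continuous_norm continuous_const).union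
      (isClosed_le (by fun_prop) (Complex.continuous_re.comp (by fun_prop)))
  have hinv : ∀ {l l' : ℕ}, l ≤ l' → 1 / ((l' : ℝ) + 1) ≤ 1 / ((l : ℝ) + 1) := by
    intro l l' hl
    apply one_div_le_one_div_of_le (by positivity)
    have : (l : ℝ) ≤ l' := by exact_mod_cast hl
    linarith
  have hanti : Antitone B := by
    intro l l' hl z hz
    rw [hBmem] at hz ⊢
    rcases hz with hz | hz
    · exact Or.inl (hz.trans (hinv hl))
    · right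
      refine le_trans ?_ hz
      have := hinv hl
      gcongr
  have hint : {η : ℂ | η ∈ ball (0 : ℂ) (3 / 4) ∧ ∀ l, Ψ η ∈ B l} ⊆
      {η : ℂ | η ∈ ball (0 : ℂ) (3 / 4) ∧
        Ψ η ∈ {z : ℂ | ‖D.ap p * z ^ D.qp p‖ ≤ (D.ap p * z ^ D.qp p).re}} := by
    rintro η ⟨hη, hη2⟩
    refine ⟨hη, ?_⟩
    obtain ⟨z, hz⟩ : ∃ z, z = Ψ η := ⟨_, rfl⟩
    rw [← hz] at hη2 ⊢
    rw [mem_ofPred_eq]
    by_cases h0 : z = 0
    · rw [h0, zero_pow (by omega), mul_zero]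
      simp
    · have hz0 : 0 < ‖z‖ := norm_pos_iff.2 h0
      have t1 : Tendsto (fun l : ℕ => (1 - 1 / ((l : ℝ) + 1)) * ‖D.ap p * z ^ D.qp p‖) atTop
          (𝓝 ((1 - 0) * ‖D.ap p * z ^ D.qp p‖)) :=
        (tendsto_const_nhds.sub tendsto_one_div_add_atTop_nhds_zero_nat).mul_const _
      rw [sub_zero, one_mul] at t1
      refine le_of_tendsto t1 ?_
      filter_upwards [tendsto_one_div_add_atTop_nhds_zero_nat.eventually_lt_const hz0] with l hl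
      rcases (hBmem l z).1 (hη2 l) with h1 | h1
      · exact absurd h1 (not_le.2 hl)
      · exact h1
  have hnull := measure_mono_null hint (limu_null hs0 hΨ hnc (ray_null hα hq))
  obtain ⟨l, n1, hl⟩ := limc (h := fun k => H (σ k)) hBc hanti (fun k => hd (σ k)) hΨ hlim hnull hε
  have hl0 : (0 : ℝ) < 1 / ((l : ℝ) + 1) := by positivity
  obtain ⟨ε'', hε'', hcomp⟩ := comp2 D X hl0
  -- a large index
  have hun : Tendsto (fun k => ‖u k‖) atTop (𝓝 0) := by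
    have := h.u0.norm
    rwa [norm_zero] at this
  have t2 : Tendsto (fun k => (1 + 1 / c0) * a k) atTop (𝓝 0) := by
    have := ha.const_mul (1 + 1 / c0)
    rwa [mul_zero] at this
  have hθ : 0 < X.θ2 / 2 := half_pos X.hθ2
  have t3 : Tendsto (fun k => (2 : ℝ) ^ X.θ2 * ‖u k‖ ^ (X.θ2 / 2)) atTop (𝓝 0) := by
    have h1 := (hun.rpow_const (Or.inr hθ.le)).const_mul ((2 : ℝ) ^ X.θ2)
    rwa [Real.zero_rpow hθ.ne', mul_zero] at h1
  have ev : ∀ᶠ k in atTop, ‖u k‖ < ε'' / 2 ∧ ρ k / ‖u k‖ < min (1 / 2) (ε'' / 2) ∧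
      (1 + 1 / c0) * a k < ε'' ∧ (2 : ℝ) ^ X.θ2 * ‖u k‖ ^ (X.θ2 / 2) < 1 / ((l : ℝ) + 1) := by
    refine (hun.eventually_lt_const (half_pos hε'')).and
      ((h.rel.eventually_lt_const (lt_min (by norm_num) (half_pos hε''))).and
        ((t2.eventually_lt_const hε'').and (t3.eventually_lt_const hl0)))
  obtain ⟨k, hk1, hk2, hk3, hk4, hk5⟩ := ((eventually_ge_atTop n1).and
    (hσ.tendsto_atTop.eventually ev)).exists
  obtain ⟨κ, hκ⟩ : ∃ κ, κ = σ k := ⟨_, rfl⟩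
  have hvol := hl k hk1
  rw [← hκ] at hk2 hk3 hk4 hk5 hvol
  have hu0 : 0 < ‖u κ‖ := norm_pos_iff.2 (h.ne κ)
  have hρ1 : ρ κ < 1 / 2 * ‖u κ‖ := by
    have := hk3.trans_le (min_le_left _ _)
    rwa [div_lt_iff₀ hu0] at this
  have hρ2 : ρ κ / ‖u κ‖ < ε'' / 2 := hk3.trans_le (min_le_right _ _)
  have key := sc_vol (u := u κ) (h.pos κ) (S := {v | ¬ X.P v})
    (B := {η : ℂ | η ∈ ball (0 : ℂ) (3 / 4) ∧ H κ η ∈ B l}) hε.le hvol (by
      intro η hη hP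
      refine ⟨hη, ?_⟩
      by_contra hnot
      rw [hBmem, not_or, not_le, not_le] at hnot
      obtain ⟨hn1, hn2⟩ := hnot
      refine hP ?_
      have hη1 : η ∈ ball (0 : ℂ) 1 := ball_subset_ball (by norm_num) hη
      obtain ⟨v, hv⟩ : ∃ v, v = u κ + (ρ κ : ℂ) * η := ⟨_, rfl⟩
      have hvb : v ∈ ball (u κ) (ρ κ) := by rw [hv]; exact hmap κ η hη1
      have hvd : ‖v - u κ‖ < ρ κ := by rwa [mem_ball, dist_eq_norm] at hvb
      have hge : X.g (n κ) v - p = ((a κ : ℝ) : ℂ) * H κ η := by rw [hv]; exact hHe κ η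
      rw [← hv]
      have hv0 : v ≠ 0 := by
        intro h0
        rw [h0, zero_sub, norm_neg] at hvd
        linarith
      have hvn : ‖v‖ ≤ 2 * ‖u κ‖ := by
        have h1 : ‖v‖ ≤ ‖v - u κ‖ + ‖u κ‖ := by
          have := norm_add_le (v - u κ) (u κ)
          rwa [sub_add_cancel] at this
        linarith
      have hgn : ‖X.g (n κ) v - p‖ = a κ * ‖H κ η‖ := by
        rw [hge, norm_mul, Complex.norm_real, Real.norm_of_nonneg (hapos κ).le]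
      refine hcomp p hp v ?_ hv0 ⟨_, h.dir κ, ?_⟩ (n κ) (fun i hi => h.mem κ i hi v hvb) ?_ ?_ ?_
      · rw [mem_ball_zero_iff]
        linarith
      · refine (dir_near (h.ne κ) hv0).trans_lt ?_
        have h1 : 2 * ‖v - u κ‖ / ‖u κ‖ ≤ 2 * (ρ κ / ‖u κ‖) := by
          rw [mul_div_assoc]
          gcongr
        linarith
      · rw [mem_ball, dist_eq_norm, hgn]
        refine lt_of_le_of_lt ?_ hk4
        rw [mul_comm]
        exact mul_le_mul_of_nonneg_right (hB κ η hη1) (hapos κ).le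
      · rw [hgn]
        have h1 : ‖v‖ ^ X.θ2 ≤ (2 * ‖u κ‖) ^ X.θ2 :=
          Real.rpow_le_rpow (norm_nonneg _) hvn X.hθ2.le
        have h2 : (2 * ‖u κ‖) ^ X.θ2 =
            (2 : ℝ) ^ X.θ2 * ‖u κ‖ ^ (X.θ2 / 2) * ‖u κ‖ ^ (X.θ2 / 2) := by
          rw [Real.mul_rpow (by norm_num) hu0.le, mul_assoc, ← Real.rpow_add hu0, add_halves]
        have h3 : (2 : ℝ) ^ X.θ2 * ‖u κ‖ ^ (X.θ2 / 2) * ‖u κ‖ ^ (X.θ2 / 2) ≤
            1 / ((l : ℝ) + 1) * a κ :=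
          mul_le_mul hk5.le (hlow κ) (by positivity) hl0.le
        have h4 : 1 / ((l : ℝ) + 1) * a κ ≤ a κ * ‖H κ η‖ := by
          rw [mul_comm]
          exact mul_le_mul_of_nonneg_left hn1.le (hapos κ).le
        rw [h2] at h1
        exact h1.trans (h3.trans h4)
      · have e1 : D.ap p * (X.g (n κ) v - p) ^ D.qp p =
            ((a κ ^ D.qp p : ℝ) : ℂ) * (D.ap p * (H κ η) ^ D.qp p) := by
          rw [hge, mul_pow]
          push_cast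
          ring
        have hap : 0 < a κ ^ D.qp p := pow_pos (hapos κ) _
        rw [e1, Complex.re_ofReal_mul, norm_mul, Complex.norm_real, Real.norm_of_nonneg hap.le]
        have h5 := mul_le_mul_of_nonneg_left hn2.le hap.le
        linarith)
  exact absurd key (not_le.2 (h.bad κ))

theorem lim2 (D : Ps) (X : Fam D) {R ε s0 c0 : ℝ} (hε : 0 < ε) (hs0 : 0 < s0) (hc0 : 0 < c0)
    {u : ℕ → ℂ} {ρ : ℕ → ℝ} {n : ℕ → ℕ} {a : ℕ → ℝ} (h : Sq D X R ε u ρ n)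
    (ha : Tendsto a atTop (𝓝 0)) (hapos : ∀ k, 0 < a k)
    (hdd : ∀ k, c0 * D.dd (X.g (n k) (u k)) ≤ a k) (hlow : ∀ k, ‖u k‖ ^ (X.θ2 / 2) ≤ a k)
    (hosc : ∀ k, ∀ v ∈ ball (u k) (ρ k), ‖X.g (n k) v - X.g (n k) (u k)‖ ≤ a k) :
    ¬ ∀ k, ∃ v ∈ ball (u k) (ρ k / 2), s0 * a k ≤ ‖X.g (n k) v - X.g (n k) (u k)‖ := by
  intro hex
  -- a parabolic point
  have hev : ∀ᶠ k in atTop, ∃ p ∈ D.Pa, ‖X.g (n k) (u k) - p‖ ≤ a k / c0 := by
    filter_upwards [ha.eventually_lt_const hc0] with k hk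
    have h1 : D.dd (X.g (n k) (u k)) ≤ a k / c0 := by
      rw [le_div_iff₀ hc0, mul_comm]
      exact hdd k
    rcases dd_ex D (X.g (n k) (u k)) with h2 | ⟨p, hp, h2⟩
    · exfalso
      rw [h2] at h1
      have h3 : a k / c0 < 1 := by rwa [div_lt_one hc0]
      linarith
    · exact ⟨p, hp, by rw [← h2]; exact h1⟩
  obtain ⟨p, hp, hfr⟩ : ∃ p ∈ D.Pa, ∃ᶠ k in atTop, ‖X.g (n k) (u k) - p‖ ≤ a k / c0 := by
    by_contra hcon
    push Not at hcon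
    have h1 : ∀ᶠ k in atTop, ∀ p ∈ D.Pa, ¬ ‖X.g (n k) (u k) - p‖ ≤ a k / c0 := by
      rw [Filter.eventually_all_finset]
      intro p hp
      exact (hcon p hp).mono fun k hk => not_le.2 hk
    obtain ⟨k, ⟨p, hp, h2⟩, h3⟩ := (hev.and h1).exists
    exact h3 p hp h2
  obtain ⟨φ, hφ, hφ2⟩ := Filter.extraction_of_frequently_atTop hfr
  exact lim2' D X hε hs0 hc0 (sq_sub h hφ) (ha.comp hφ.tendsto_atTop) (fun k => hapos (φ k))
    (fun k => hlow (φ k)) (fun k => hosc (φ k)) hp hφ2 (fun k => hex (φ k))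

end Pool.Agent.H44.DP
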