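import Pool.Agent.H44.DN.NNL
import Pool.Agent.H44.LD.PREN

/-!
# Module LMC: limits of holomorphic functions and measure

`limu_ex`: a limit of functions which are uniformly not constant; `limu_null`: such a limit takes values in a null set
on a null set only; `limc`: reverse Fatou lemma for the sets where the values are in small closed sets; `sc_vol`:
scaling.
-/

set_option autoImplicit false

open Filter Topology Metric Set Pointwise

namespace Pool.Agent.H44.DP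

/-- a limit of functions which are uniformly not constant -/
theorem limu_ex {h : ℕ → ℂ → ℂ} {s0 R : ℝ}
    (hd : ∀ k, DifferentiableOn ℂ (h k) (ball 0 1)) (hB : ∀ k, ∀ z ∈ ball (0 : ℂ) 1, ‖h k z‖ ≤ R)
    (hex : ∀ k, ∃ η ∈ ball (0 : ℂ) (1 / 2), s0 ≤ ‖h k η - h k 0‖) {ρ' : ℝ} (h1 : 1 / 2 < ρ')
    (h2 : ρ' < 1) :
    ∃ (σ : ℕ → ℕ) (Ψ : ℂ → ℂ), StrictMono σ ∧ DifferentiableOn ℂ Ψ (ball 0 ρ') ∧
      (∀ z ∈ ball (0 : ℂ) ρ', Tendsto (fun w : ℕ × ℂ => h (σ w.1) w.2) (atTop ×ˢ 𝓝 z) (𝓝 (Ψ z))) ∧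
      ∃ η ∈ closedBall (0 : ℂ) (1 / 2), s0 ≤ ‖Ψ η - Ψ 0‖ := by
  obtain ⟨σ, Ψ, hσ, hΨ, hlim⟩ := DN.montel1 (F := h) (x := 0) (ρ := 1) (ρ' := ρ') (B := R)
    (by linarith) h2 hd hB
  choose η hη hs using hex
  have hmem : ∀ k, η (σ k) ∈ closedBall (0 : ℂ) (1 / 2) := fun k => ball_subset_closedBall (hη _)
  obtain ⟨a, ha, φ, hφ, hφ2⟩ := (isCompact_closedBall (0 : ℂ) (1 / 2)).tendsto_subseq hmem
  refine ⟨σ, Ψ, hσ, hΨ, hlim, a, ha, ?_⟩
  have ha' : a ∈ ball (0 : ℂ) ρ' := closedBall_subset_ball h1 ha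
  have h0' : (0 : ℂ) ∈ ball (0 : ℂ) ρ' := mem_ball_self (by linarith)
  have t1 : Tendsto (fun k => h (σ (φ k)) (η (σ (φ k)))) atTop (𝓝 (Ψ a)) :=
    (hlim a ha').comp (hφ.tendsto_atTop.prodMk hφ2)
  have t2 : Tendsto (fun k => h (σ (φ k)) 0) atTop (𝓝 (Ψ 0)) :=
    (hlim 0 h0').comp (hφ.tendsto_atTop.prodMk tendsto_const_nhds)
  exact ge_of_tendsto' (t1.sub t2).norm fun k => hs _

open MeasureTheory in
/-- the limit function takes values in a null set on a null set only -/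
theorem limu_null {Ψ : ℂ → ℂ} {s0 : ℝ} (hs0 : 0 < s0) (hΨ : DifferentiableOn ℂ Ψ (ball 0 (7 / 8)))
    (hnc : ∃ η ∈ closedBall (0 : ℂ) (1 / 2), s0 ≤ ‖Ψ η - Ψ 0‖) {J : Set ℂ} (hJ : volume J = 0) :
    volume {η : ℂ | η ∈ ball (0 : ℂ) (3 / 4) ∧ Ψ η ∈ J} = 0 := by
  have hmap : ∀ η ∈ ball (0 : ℂ) 1, (7 / 8 : ℂ) * η ∈ ball (0 : ℂ) (7 / 8) := by
    intro η hη
    rw [mem_ball_zero_iff] at hη ⊢
    rw [norm_mul]
    have : ‖(7 / 8 : ℂ)‖ = 7 / 8 := by norm_num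
    rw [this]
    linarith
  have hd : DifferentiableOn ℂ (fun η => Ψ ((7 / 8 : ℂ) * η)) (ball 0 1) :=
    hΨ.comp (by fun_prop) hmap
  have h1 := Pool.Agent.H44.LD.pre_null hd (by
    intro hc
    obtain ⟨η, hη, h2⟩ := hnc
    have h3 : (8 / 7 : ℂ) * η ∈ ball (0 : ℂ) 1 := by
      rw [mem_closedBall_zero_iff] at hη
      rw [mem_ball_zero_iff, norm_mul]
      have : ‖(8 / 7 : ℂ)‖ = 8 / 7 := by norm_num
      rw [this]
      linarith
    have h4 := hc _ h3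
    have e1 : (7 / 8 : ℂ) * ((8 / 7 : ℂ) * η) = η := by ring
    have e2 : (7 / 8 : ℂ) * 0 = 0 := by ring
    simp only [e1, e2] at h4
    rw [h4, sub_self, norm_zero] at h2
    linarith) hJ
  have h2 : {η : ℂ | η ∈ ball (0 : ℂ) (3 / 4) ∧ Ψ η ∈ J} ⊆
      (7 / 8 : ℝ) • {η : ℂ | η ∈ ball (0 : ℂ) 1 ∧ Ψ ((7 / 8 : ℂ) * η) ∈ J} := by
    rintro η ⟨hη, hη2⟩
    refine ⟨(8 / 7 : ℂ) * η, ⟨?_, ?_⟩, ?_⟩
    · rw [mem_ball_zero_iff] at hη ⊢
      rw [norm_mul]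
      have : ‖(8 / 7 : ℂ)‖ = 8 / 7 := by norm_num
      rw [this]
      linarith
    · have e1 : (7 / 8 : ℂ) * ((8 / 7 : ℂ) * η) = η := by ring
      rw [e1]
      exact hη2
    · change (7 / 8 : ℝ) • ((8 / 7 : ℂ) * η) = η
      rw [Complex.real_smul]
      push_cast
      ring
  refine measure_mono_null h2 ?_
  rw [Measure.addHaar_smul, h1, mul_zero]

open MeasureTheory in
/-- reverse Fatou lemma for the sets where the values are in the closed sets `B l` -/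
theorem limc {h : ℕ → ℂ → ℂ} {Ψ : ℂ → ℂ} {B : ℕ → Set ℂ} (hB : ∀ l, IsClosed (B l))
    (hanti : Antitone B)
    (hd : ∀ k, DifferentiableOn ℂ (h k) (ball 0 1)) (hΨ : DifferentiableOn ℂ Ψ (ball 0 (7 / 8)))
    (hlim : ∀ z ∈ ball (0 : ℂ) (7 / 8),
      Tendsto (fun w : ℕ × ℂ => h w.1 w.2) (atTop ×ˢ 𝓝 z) (𝓝 (Ψ z)))
    (hnull : volume {η : ℂ | η ∈ ball (0 : ℂ) (3 / 4) ∧ ∀ l, Ψ η ∈ B l} = 0) {ε : ℝ}
    (hε : 0 < ε) : ∃ l n : ℕ, ∀ k ≥ n,
      volume {η : ℂ | η ∈ ball (0 : ℂ) (3 / 4) ∧ h k η ∈ B l} ≤ ENNReal.ofReal ε := by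
  have hεp : (0 : ENNReal) < ENNReal.ofReal ε := ENNReal.ofReal_pos.2 hε
  have hmeas : ∀ (g : ℂ → ℂ), ContinuousOn g (ball (0 : ℂ) (3 / 4)) → ∀ l,
      MeasurableSet {η : ℂ | η ∈ ball (0 : ℂ) (3 / 4) ∧ g η ∈ B l} := by
    intro g hg l
    have h1 : {η : ℂ | η ∈ ball (0 : ℂ) (3 / 4) ∧ g η ∈ B l} =
        ball (0 : ℂ) (3 / 4) \ (ball (0 : ℂ) (3 / 4) ∩ g ⁻¹' (B l)ᶜ) := by
      ext η
      constructor
      · rintro ⟨a, b⟩
        exact ⟨a, fun hc => hc.2 b⟩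
      · rintro ⟨a, b⟩
        exact ⟨a, by_contra fun hc => b ⟨a, hc⟩⟩
    rw [h1]
    exact measurableSet_ball.diff
      (hg.isOpen_inter_preimage isOpen_ball (hB l).isOpen_compl).measurableSet
  let Cs : ℕ → Set ℂ := fun l => {η : ℂ | η ∈ ball (0 : ℂ) (3 / 4) ∧ Ψ η ∈ B l}
  have hCm : ∀ l, MeasurableSet (Cs l) := fun l =>
    hmeas Ψ (hΨ.continuousOn.mono (ball_subset_ball (by norm_num))) l
  have hCanti : Antitone Cs := fun a b hab η hη => ⟨hη.1, hanti hab hη.2⟩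
  have hCint : (⋂ l, Cs l) ⊆ {η : ℂ | η ∈ ball (0 : ℂ) (3 / 4) ∧ ∀ l, Ψ η ∈ B l} := by
    intro η hη
    rw [mem_iInter] at hη
    exact ⟨(hη 0).1, fun l => (hη l).2⟩
  have hCt := tendsto_measure_iInter_atTop (μ := volume) (fun l => (hCm l).nullMeasurableSet) hCanti
    ⟨0, ((measure_mono (fun η hη => hη.1)).trans_lt measure_ball_lt_top).ne⟩
  rw [measure_mono_null hCint hnull] at hCt
  obtain ⟨l, hl⟩ := (hCt.eventually_lt_const hεp).exists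
  refine ⟨l, ?_⟩
  let Bs : ℕ → Set ℂ := fun k => {η : ℂ | η ∈ ball (0 : ℂ) (3 / 4) ∧ h k η ∈ B l}
  let Ds' : ℕ → Set ℂ := fun n => ⋃ k ≥ n, Bs k
  have hBm : ∀ k, MeasurableSet (Bs k) := fun k =>
    hmeas (h k) ((hd k).continuousOn.mono (ball_subset_ball (by norm_num))) l
  have hDm : ∀ n, MeasurableSet (Ds' n) := fun n =>
    MeasurableSet.iUnion fun k => MeasurableSet.iUnion fun _ => hBm k
  have hDanti : Antitone Ds' := by
    intro a b hab η hη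
    simp only [Ds', mem_iUnion] at hη ⊢
    obtain ⟨k, hk, h1⟩ := hη
    exact ⟨k, hab.trans hk, h1⟩
  have hDball : Ds' 0 ⊆ ball (0 : ℂ) (3 / 4) := by
    intro η hη
    simp only [Ds', mem_iUnion] at hη
    obtain ⟨k, hk, h1⟩ := hη
    exact h1.1
  have hDint : (⋂ n, Ds' n) ⊆ Cs l := by
    intro η hη
    rw [mem_iInter] at hη
    have hηb : η ∈ ball (0 : ℂ) (3 / 4) := hDball (hη 0)
    refine ⟨hηb, ?_⟩
    have h1 : Tendsto (fun k => h k η) atTop (𝓝 (Ψ η)) :=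
      (hlim η (ball_subset_ball (by norm_num) hηb)).comp (tendsto_id.prodMk tendsto_const_nhds)
    have h2 : ∃ᶠ k in atTop, h k η ∈ B l := by
      rw [frequently_atTop]
      intro n
      have h3 := hη n
      simp only [Ds', mem_iUnion] at h3
      obtain ⟨k, hk, h4⟩ := h3
      exact ⟨k, hk, h4.2⟩
    exact (hB l).mem_of_frequently_of_tendsto h2 h1
  have hDt := tendsto_measure_iInter_atTop (μ := volume) (fun n => (hDm n).nullMeasurableSet) hDanti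
    ⟨0, ((measure_mono hDball).trans_lt measure_ball_lt_top).ne⟩
  obtain ⟨n, hn⟩ := (hDt.eventually_lt_const ((measure_mono hDint).trans_lt hl)).exists
  refine ⟨n, fun k hk => (measure_mono ?_).trans hn.le⟩
  intro η hη
  simp only [Ds', mem_iUnion]
  exact ⟨k, hk, hη⟩

open MeasureTheory in
/-- scaling -/
theorem sc_vol {u : ℂ} {ρ : ℝ} (hρ : 0 < ρ) {S B : Set ℂ} {ε : ℝ} (hε : 0 ≤ ε)
    (hB : volume B ≤ ENNReal.ofReal ε)
    (h : ∀ η ∈ ball (0 : ℂ) (3 / 4), u + (ρ : ℂ) * η ∈ S → η ∈ B) :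
    volume (ball u (3 / 4 * ρ) ∩ S) ≤ ENNReal.ofReal (ε * ρ ^ 2) := by
  have hne : (ρ : ℂ) ≠ 0 := Complex.ofReal_ne_zero.2 hρ.ne'
  have hsub : ball u (3 / 4 * ρ) ∩ S ⊆ u +ᵥ (ρ • B) := by
    rintro v ⟨hv1, hv2⟩
    have e1 : u + (ρ : ℂ) * ((v - u) / (ρ : ℂ)) = v := by
      rw [mul_div_cancel₀ _ hne]
      ring
    refine ⟨v - u, ⟨(v - u) / (ρ : ℂ), h _ ?_ ?_, ?_⟩, ?_⟩
    · rw [mem_ball, dist_eq_norm] at hv1
      rw [mem_ball_zero_iff, norm_div, Complex.norm_real, Real.norm_of_nonneg hρ.le, div_lt_iff₀ hρ]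
      linarith
    · rw [e1]
      exact hv2
    · change ρ • ((v - u) / (ρ : ℂ)) = v - u
      rw [Complex.real_smul, mul_div_cancel₀ _ hne]
    · change u + (v - u) = v
      ring
  refine (measure_mono hsub).trans ?_
  rw [measure_vadd, Measure.addHaar_smul, Complex.finrank_real_complex, abs_of_nonneg (by positivity),
    mul_comm ε, ENNReal.ofReal_mul (by positivity)]
  exact mul_le_mul' le_rfl hB

end Pool.Agent.H44.DP
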