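import Pool.Agent.H44.DP.CLL
import Pool.Agent.H44.DP.CLOSE

/-!
# Module NEA: a block near `S`

PROOF. `zt x = ‖x - c‖` for some `c ∈ S` (`zt_ex`). `c ∈ Ce`: `close` gives `k1`; if `k1 ≤ k` take `l = k1`, otherwise `l = k + 1` (`TT ≤` the number of steps, `TT x l ≤ l`, `exp (χ TT x l) ≤ exp (χ l)`). `c ∈ Cl`: `cll`. `c ∈ Pa`: `apa`, `l = 1` (`TT x 1 = wt x ≤ 1`;
`1 ≤ ‖deriv f x‖`; `tt x = ‖x - p‖ ≤ ‖f x - p‖ = tt (f x)`, `ph (f x) ≤ ‖deriv f x‖ * ph x` since `exp ≥ 1`). Common constants: the minimum of the `χ` and `z1`, `N2` the maximum (`zt x ≤ 1`), `C2` with `T1 ≤ C2 log 2`, `1 ≤ C2 log 2` (`log (1 / zt x) ≥ log 2`).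
Positions: near `Pa`: `f^[j] x`, `j ≤ 1`, is within `2 z1 < δ / 4` of `p`.
-/

set_option autoImplicit false

open Filter Topology Metric Set

namespace Pool.Agent.H44.DP

theorem nea (D : Ps) : ∃ (χ z1 C2 : ℝ) (N2 : ℕ), 0 < χ ∧ 0 < z1 ∧ z1 ≤ D.r0 ∧ z1 ≤ 1 / 2 ∧ 1 ≤ C2 ∧
    ∀ (x : ℂ) (k : ℕ), 0 < D.zt x → D.zt x ≤ z1 → (∀ i ≤ k, D.f^[i] x ∈ D.V) →
      ∃ l : ℕ, 1 ≤ l ∧ l ≤ k + 1 ∧ D.TT x l ≤ C2 * Real.log (1 / D.zt x) ∧
        (∀ j ≤ l, D.zt x ^ N2 ≤ ‖deriv (D.f^[j]) x‖ ∧ D.f^[j] x ∈ thickening (D.δ / 4) D.J) ∧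
        (l ≤ k → Real.exp (χ * D.TT x l) * D.ph (D.f^[l] x) ≤ ‖deriv (D.f^[l]) x‖ * D.ph x ∧
          D.tt x * D.ph (D.f^[l] x) ^ (2 * D.Mx) ≤
            (‖deriv (D.f^[l]) x‖ * D.ph x) ^ (2 * D.Mx) * D.tt (D.f^[l] x)) := by
  obtain ⟨χa, za, Ca, Na, hχa, hza, hzar, hzah, hCa, hcl⟩ := close D
  obtain ⟨χb, zb, T1, Nb, hχb, hzb, hzbr, hzbh, hT1, hll⟩ := cll D
  obtain ⟨zc, hzc, hzcr, hzch, hpa⟩ := apa D
  have hκ := D.hκ
  have hr0 := D.hr0
  have hrδ := D.hr1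
  have hδ := D.hδ
  have hlog2 : 0 < Real.log 2 := Real.log_pos (by norm_num)
  obtain ⟨χ, hχ⟩ : ∃ χ : ℝ, χ = min χa (min χb D.κ) := ⟨_, rfl⟩
  have hχ0 : 0 < χ := by rw [hχ]; exact lt_min hχa (lt_min hχb hκ)
  have hχ1 : χ ≤ χa := by rw [hχ]; exact min_le_left _ _
  have hχ2 : χ ≤ χb := by rw [hχ]; exact (min_le_right _ _).trans (min_le_left _ _)
  have hχ3 : χ ≤ D.κ := by rw [hχ]; exact (min_le_right _ _).trans (min_le_right _ _)
  obtain ⟨z1, hz⟩ : ∃ z1 : ℝ, z1 = min za (min zb (zc / 2)) := ⟨_, rfl⟩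
  have hz0 : 0 < z1 := by rw [hz]; exact lt_min hza (lt_min hzb (by linarith))
  have hz1 : z1 ≤ za := by rw [hz]; exact min_le_left _ _
  have hz2 : z1 ≤ zb := by rw [hz]; exact (min_le_right _ _).trans (min_le_left _ _)
  have hz3 : z1 ≤ zc / 2 := by rw [hz]; exact (min_le_right _ _).trans (min_le_right _ _)
  obtain ⟨C2, hC2⟩ : ∃ C2 : ℝ, C2 = Ca + (T1 + 1) / Real.log 2 := ⟨_, rfl⟩
  have hTl : 0 < (T1 + 1) / Real.log 2 := div_pos (by linarith) hlog2
  refine ⟨χ, z1, C2, max Na Nb, hχ0, hz0, hz1.trans hzar, hz1.trans hzah, by linarith, ?_⟩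
  intro x k hx0 hx1 hV
  obtain ⟨c, hc, hzt⟩ := zt_ex D x
  rw [hzt] at hx0 hx1 ⊢
  have hxh : ‖x - c‖ ≤ 1 / 2 := (hx1.trans hz1).trans hzah
  have hlog : Real.log 2 ≤ Real.log (1 / ‖x - c‖) := by
    apply Real.log_le_log (by norm_num)
    rw [le_div_iff₀ hx0]
    linarith
  have hl0 : 0 < Real.log (1 / ‖x - c‖) := by linarith
  have hT : T1 + 1 ≤ C2 * Real.log (1 / ‖x - c‖) := by
    calc T1 + 1 = (T1 + 1) / Real.log 2 * Real.log 2 := by field_simp
      _ ≤ (T1 + 1) / Real.log 2 * Real.log (1 / ‖x - c‖) :=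
          mul_le_mul_of_nonneg_left hlog hTl.le
      _ ≤ C2 * Real.log (1 / ‖x - c‖) := by
          apply mul_le_mul_of_nonneg_right _ hl0.le
          linarith
  have hpowa : ‖x - c‖ ^ max Na Nb ≤ ‖x - c‖ ^ Na :=
    pow_le_pow_of_le_one hx0.le (by linarith) (le_max_left _ _)
  have hpowb : ‖x - c‖ ^ max Na Nb ≤ ‖x - c‖ ^ Nb :=
    pow_le_pow_of_le_one hx0.le (by linarith) (le_max_right _ _)
  rcases S_cases D hc with hce | hcl' | hcp
  · obtain ⟨k1, hk1, hkC, hgr, hder, htt⟩ := hcl c hce x hx0 (hx1.trans hz1)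
    have hkC2 : (k1 : ℝ) ≤ C2 * Real.log (1 / ‖x - c‖) := by
      refine hkC.trans (mul_le_mul_of_nonneg_right ?_ hl0.le)
      linarith
    by_cases hkk : k1 ≤ k
    · refine ⟨k1, hk1, by omega, (TT_le D x k1).trans hkC2, ?_, ?_⟩
      · intro j hj
        exact ⟨hpowa.trans (hder j hj).2, (hder j hj).1⟩
      · intro _
        refine ⟨?_, htt⟩
        refine le_trans ?_ hgr
        apply mul_le_mul_of_nonneg_right _ (ph_nonneg D _)
        apply Real.exp_le_exp.2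
        exact mul_le_mul hχ1 (TT_le D x k1) (TT_nonneg D x k1) hχa.le
    · refine ⟨k + 1, by omega, le_rfl, ?_, ?_, ?_⟩
      · refine (TT_le D x (k + 1)).trans (le_trans ?_ hkC2)
        exact_mod_cast (by omega : k + 1 ≤ k1)
      · intro j hj
        exact ⟨hpowa.trans (hder j (by omega)).2, (hder j (by omega)).1⟩
      · intro h
        omega
  · obtain ⟨l, hl1, hlk, hlT, hder, hgr⟩ := hll c hcl' x hx0 (hx1.trans hz2) k hV
    refine ⟨l, hl1, hlk, by linarith, ?_, ?_⟩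
    · intro j hj
      exact ⟨hpowb.trans (hder j hj).1, (hder j hj).2⟩
    · intro h
      obtain ⟨h1, h2⟩ := hgr h
      refine ⟨le_trans ?_ h1, h2⟩
      apply mul_le_mul_of_nonneg_right _ (ph_nonneg D _)
      apply Real.exp_le_exp.2
      exact mul_le_mul_of_nonneg_right hχ2 (TT_nonneg D x l)
  · have hxV : x ∈ D.V := hV 0 (Nat.zero_le _)
    have hxc : ‖x - c‖ ≤ zc := by linarith
    obtain ⟨h1, h2, h3, h4, h5, h6⟩ := hpa c hcp x hxV hx0 hxc
    have hcJ : c ∈ D.J := D.hSJ c hc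
    have hTT : D.TT x 1 = D.wt x := by
      rw [show (1 : ℕ) = 0 + 1 from rfl, TT_succ, TT_zero, zero_add]
      rfl
    refine ⟨1, le_rfl, by omega, ?_, ?_, ?_⟩
    · have h7 := TT_le D x 1
      have h8 : ((1 : ℕ) : ℝ) = 1 := by norm_num
      rw [h8] at h7
      linarith
    · intro j hj
      have hp1 : ‖x - c‖ ^ max Na Nb ≤ 1 := pow_le_one₀ hx0.le (by linarith)
      rcases Nat.le_one_iff_eq_zero_or_eq_one.1 hj with rfl | rfl
      · constructor
        · have h7 : D.f^[0] = id := rfl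
          rw [h7, deriv_id, norm_one]
          exact hp1
        · change x ∈ _
          rw [mem_thickening_iff]
          refine ⟨c, hcJ, ?_⟩
          rw [dist_eq_norm]
          linarith
      · constructor
        · rw [Function.iterate_one]
          exact hp1.trans h2
        · rw [Function.iterate_one, mem_thickening_iff]
          refine ⟨c, hcJ, ?_⟩
          rw [dist_eq_norm]
          linarith
    · intro _
      rw [hTT, Function.iterate_one]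
      have hw := wt_nonneg D x
      constructor
      · refine le_trans ?_ h1
        apply mul_le_mul_of_nonneg_right _ (ph_nonneg D _)
        apply Real.exp_le_exp.2
        exact mul_le_mul_of_nonneg_right hχ3 hw
      · have h7 : D.ph (D.f x) ≤ ‖deriv D.f x‖ * D.ph x := by
          refine le_trans ?_ h1
          have h8 : 1 ≤ Real.exp (D.κ * D.wt x) := Real.one_le_exp (by positivity)
          exact le_mul_of_one_le_left (ph_nonneg D _) h8
        have h9 : D.tt x ≤ D.tt (D.f x) := by rw [h5, h6]; exact h3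
        have h10 : D.ph (D.f x) ^ (2 * D.Mx) ≤ (‖deriv D.f x‖ * D.ph x) ^ (2 * D.Mx) :=
          pow_le_pow_left₀ (ph_nonneg D _) h7 _
        calc D.tt x * D.ph (D.f x) ^ (2 * D.Mx)
            ≤ D.tt (D.f x) * (‖deriv D.f x‖ * D.ph x) ^ (2 * D.Mx) :=
              mul_le_mul h9 h10 (pow_nonneg (ph_nonneg D _) _) (tt_nonneg D _)
          _ = _ := mul_comm _ _

end Pool.Agent.H44.DP
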