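import Pool.Agent.H44.DP.NEA
import Pool.Agent.H44.DP.MACRO
import Pool.Agent.H44.DN.SPK

/-!
# Module NOHIT: discs whose images do not meet the critical points

PROOF. `χ, z1, C2, N2` (`close`), `N, κ, δ1'` (`far` for `z1`), `Z` (`zt_bd`), `r1, κ1` (`phi_near`), `p = 2 Mx`. `δ1 = δ1'`, `δ2 ≤ δ / 4`, `δ2 ≤ 1`, `X = Z + 2` (an upper bound for `‖f^[i] w - c‖`, `c` nearest to `f^[i] z`). Decrease `χ` so that `exp (χ N) ≤ 3/2`. `x_j = f^[j] z`, `A_j = Aw z j`. All points `f^[i] w`, `w ∈ ball z σ`, `i ≤ k`, are in `thickening (δ/2) J`, so `f^[i]` is holomorphic on the disc for `i ≤ k + 1`.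
(1) NO HIT: for `j ≤ k`, `c` nearest to `x_j`, `spk` for `f^[j] - c`: `‖deriv (f^[j]) z‖ σ ≤ 2 ζ_j log (X / ζ_j)`, `ζ_j = zt x_j`. Consequences: `ζ_j ≥ (‖deriv (f^[j]) z‖ σ)^2 / (16 X)` (`log y ≤ 2 √y`), and `A_j ≤ A / σ` for a constant `A ≥ 1` (`ph x_j ≥ min κ1 (ζ_j ^ (1 - α M c))`, `ζ ^ (α M c) log (X / ζ)` is bounded on `(0, Z]`).
(2) call `j ≤ k` a block time if `exp (χ j) ≤ A_j` and `v ≤ tt x_j * A_j ^ p`, where `v = min (σ ^ Mx) ((κ κ1') ^ p)`. `j = 0` is one: `ζ_0 ≥ σ` (no hit at time `0`), `tt z ≥ σ ^ Mx`. Let `j` be a block time. If `ζ_j ≤ z1`: `close` at `x_j` gives `l ≥ 1`; if `j + l ≤ k` then `j + l` is a block time: `A_(j+l) = A_j * ‖deriv (f^[l]) x_j‖ ph x_j / ph x_(j+l) ≥ exp (χ l) A_j` (`ph x_(j+l) > 0`) and `tt x_(j+l) A_(j+l)^p ≥ tt x_j A_j ^ p` (last inequality of `close`).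
If `ζ_j > z1`: `far` at `x_j`: `l ≤ N`, ratio `ρ = A_(j+l) / A_j ≥ 3/2 ≥ exp (χ l)`, and `ρ ≥ κ ph x_j / ph x_(j+l) ≥ κ κ' / ph x_(j+l)` (`ph ≥ κ'` where `zt ≥ z1`), so `tt x_(j+l) ≥ ph x_(j+l) ^ p ≥ (κ κ' / ρ) ^ p` (`ph_tt`) and `tt x_(j+l) A_(j+l)^p ≥ (κ κ')^p A_j ^ p ≥ (κ κ') ^ p ≥ v`.
(3) at a block time: `exp (χ j) ≤ A / σ`, so `j ≤ (1/χ) log (A/σ)`; `tt x_j ≥ v (σ/A)^p ≥ (a1 σ) ^ N3`, so `ph x_j ≥ tt x_j` (`tt_ph`) and, if `ζ_j ≤ z1`, `ζ_j ≥ ζ_j ^ M c ≥ (a1 σ)^N3`: the length `l ≤ max N (C2 N3 log (1/(a1 σ)))`. The last block time `j ≤ k` has `j + l > k`: bound for `k`.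
(4) DERIVATIVES. At a block time `‖deriv (f^[j]) z‖ = A_j ph x_j / ph z ≥ ph x_j ≥ (a1 σ)^N3`. For `i ≤ k + 1` let `j` be the last block time `≤ min i k`; `i ≤ j + l`. If `ζ_j ≤ z1`: `‖deriv (f^[i-j]) x_j‖ ≥ ζ_j ^ N2 ≥ (a1 σ) ^ (N2 N3)`. If `ζ_j > z1`: at most `N` steps, in each of them `‖deriv (f^[s+1]) z‖ = ‖deriv (f^[s]) z‖ ‖deriv f x_s‖ ≥ ‖deriv (f^[s]) z‖ (ζ_s / C) ^ Mx` (`D.low` with `N = Mx`, `s ≤ k`) and `ζ_s ≥ (‖deriv (f^[s]) z‖ σ)^2 / (16 X)`: the exponent of `σ` is multiplied by at most `2 Mx + 2` in each step.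
Since `σ ≤ 1/2`, factors `a1` are absorbed in powers of `σ` and `exp b`.
-/

set_option autoImplicit false

open Filter Topology Metric Set

namespace Pool.Agent.H44.DP

/-- the hypothesis of the module -/
def NH (D : Ps) (δ1 δ2 : ℝ) (z : ℂ) (σ : ℝ) (k : ℕ) : Prop :=
  ∀ i ≤ k, D.f^[i] z ∈ thickening δ1 D.J ∧
    ∀ w ∈ ball z σ, ‖D.f^[i] w - D.f^[i] z‖ ≤ δ2 ∧ D.f^[i] w ∉ D.S

theorem nh_th (D : Ps) {δ1 δ2 σ : ℝ} {z : ℂ} {k : ℕ} (h1 : δ1 ≤ D.δ / 4) (h2 : δ2 ≤ D.δ / 4)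
    (h : NH D δ1 δ2 z σ k) {i : ℕ} (hi : i ≤ k) {w : ℂ} (hw : w ∈ ball z σ) :
    D.f^[i] w ∈ thickening D.δ D.J := by
  have a := (h i hi).1
  have b := ((h i hi).2 w hw).1
  have hδ := D.hδ
  have c : ‖D.f^[i] w - D.f^[i] z‖ < D.δ / 2 := by linarith
  have := th_add a c
  exact thickening_mono (by linarith) _ this

theorem nh_spk (D : Ps) {δ1 δ2 σ Z : ℝ} {z : ℂ} {k : ℕ} (h1 : δ1 ≤ D.δ / 4) (h2 : δ2 ≤ D.δ / 4)
    (hσ : 0 < σ) (hZ : ∀ z ∈ thickening D.δ D.J, D.zt z ≤ Z)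
    (h : NH D δ1 δ2 z σ k) {j : ℕ} (hj : j ≤ k) :
    0 < D.zt (D.f^[j] z) ∧ D.zt (D.f^[j] z) ≤ Z ∧
      ‖deriv (D.f^[j]) z‖ * σ ≤
        2 * D.zt (D.f^[j] z) * Real.log ((Z + 2) / D.zt (D.f^[j] z)) := by
  obtain ⟨c, hc, hcz⟩ := zt_ex D (D.f^[j] z)
  have hzb : z ∈ ball z σ := mem_ball_self hσ
  have hpos : 0 < D.zt (D.f^[j] z) := zt_pos D ((h j hj).2 z hzb).2
  have hle : D.zt (D.f^[j] z) ≤ Z := hZ _ (nh_th D h1 h2 h hj hzb)
  refine ⟨hpos, hle, ?_⟩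
  have hd : ∀ w ∈ ball z σ, DifferentiableAt ℂ (D.f^[j]) w := by
    intro w hw
    exact it_diff D (fun i hi => D.hU (nh_th D h1 h2 h (by omega) hw))
  have hF : DifferentiableOn ℂ (fun w => D.f^[j] w - c) (ball z σ) :=
    fun w hw => ((hd w hw).sub_const c).differentiableWithinAt
  have key := DN.spk (F := fun w => D.f^[j] w - c) (z := z) (σ := σ) (X := Z + 2) hσ hF ?_
  · have e : deriv (fun w => D.f^[j] w - c) z = deriv (D.f^[j]) z := by
      rw [deriv_sub_const]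
    rw [e] at key
    simp only [← hcz] at key
    exact key
  · intro w hw
    refine ⟨?_, ?_⟩
    · intro h0
      have h0' : D.f^[j] w = c := sub_eq_zero.mp h0
      exact ((h j hj).2 w hw).2 (h0' ▸ hc)
    · have e : D.f^[j] w - c = (D.f^[j] w - D.f^[j] z) + (D.f^[j] z - c) := by ring
      have b := ((h j hj).2 w hw).1
      have hδ1 := D.hδ1
      have t := norm_add_le (D.f^[j] w - D.f^[j] z) (D.f^[j] z - c)
      show ‖D.f^[j] w - c‖ < Z + 2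
      rw [e]
      rw [← hcz] at t
      linarith

theorem log_sq {y : ℝ} (hy : 0 < y) : (Real.log y) ≤ 2 * Real.sqrt y := by
  have h := Real.log_le_sub_one_of_pos (Real.sqrt_pos.mpr hy)
  have e : Real.log y = 2 * Real.log (Real.sqrt y) := by
    rw [Real.log_sqrt hy.le]; ring
  rw [e]
  linarith

theorem nh_sq (D : Ps) {δ1 δ2 σ Z : ℝ} {z : ℂ} {k : ℕ} (h1 : δ1 ≤ D.δ / 4) (h2 : δ2 ≤ D.δ / 4)
    (hσ : 0 < σ) (hZ1 : 1 ≤ Z) (hZ : ∀ z ∈ thickening D.δ D.J, D.zt z ≤ Z)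
    (h : NH D δ1 δ2 z σ k) {j : ℕ} (hj : j ≤ k) :
    (‖deriv (D.f^[j]) z‖ * σ) ^ 2 ≤ 16 * (Z + 2) * D.zt (D.f^[j] z) := by
  obtain ⟨hp, hle, hs⟩ := nh_spk D h1 h2 hσ hZ h hj
  set ζ := D.zt (D.f^[j] z) with hζ
  have hX : 0 < (Z + 2) / ζ := by positivity
  have hl := log_sq hX
  have h3 : ‖deriv (D.f^[j]) z‖ * σ ≤ 4 * ζ * Real.sqrt ((Z + 2) / ζ) := by
    refine hs.trans ?_
    nlinarith
  have h0 : 0 ≤ ‖deriv (D.f^[j]) z‖ * σ := by positivity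
  calc (‖deriv (D.f^[j]) z‖ * σ) ^ 2 ≤ (4 * ζ * Real.sqrt ((Z + 2) / ζ)) ^ 2 :=
        pow_le_pow_left₀ h0 h3 2
    _ = 16 * ζ ^ 2 * (Real.sqrt ((Z + 2) / ζ)) ^ 2 := by ring
    _ = 16 * ζ ^ 2 * ((Z + 2) / ζ) := by rw [Real.sq_sqrt hX.le]
    _ = 16 * (Z + 2) * ζ := by field_simp

theorem rpow_low {x e : ℝ} (hx : 0 < x) (hx1 : x ≤ 1) (he : e ≤ 1) : x ≤ x ^ e := by
  calc x = x ^ (1 : ℝ) := (Real.rpow_one x).symm
    _ ≤ x ^ e := Real.rpow_le_rpow_of_exponent_ge hx hx1 he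

theorem ph_low (D : Ps) {r1 κ : ℝ} (hr : r1 ≤ 1 / 2)
    (hn : ∀ c ∈ D.S, ∀ z : ℂ, ‖z - c‖ ≤ r1 → D.zt z = ‖z - c‖ ∧
      D.ph z = ‖z - c‖ ^ (1 - D.al * (D.M c : ℝ)) ∧ D.tt z = ‖z - c‖ ^ D.M c)
    (hf : ∀ z : ℂ, r1 ≤ D.zt z → κ ≤ D.ph z ∧ κ ≤ D.tt z) {y : ℂ} (hy : 0 < D.zt y) :
    min κ (D.zt y) ≤ D.ph y := by
  by_cases h : r1 ≤ D.zt y
  · exact (min_le_left _ _).trans (hf y h).1
  · push Not at h
    obtain ⟨c, hc, hcy⟩ := zt_ex D y
    have h' : ‖y - c‖ ≤ r1 := by rw [← hcy]; exact h.le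
    rw [(hn c hc y h').2.1, ← hcy]
    refine (min_le_right _ _).trans ?_
    apply rpow_low hy (by linarith)
    have := al_pos D
    have : 0 ≤ D.al * (D.M c : ℝ) := by positivity
    linarith

/-- the bound of the derivative in the metric -/
theorem nh_A (D : Ps) {Z r1 κ : ℝ} (hZ1 : 1 ≤ Z) (hr : r1 ≤ 1 / 2) (hκ : 0 < κ)
    (hn : ∀ c ∈ D.S, ∀ z : ℂ, ‖z - c‖ ≤ r1 → D.zt z = ‖z - c‖ ∧
      D.ph z = ‖z - c‖ ^ (1 - D.al * (D.M c : ℝ)) ∧ D.tt z = ‖z - c‖ ^ D.M c)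
    (hf : ∀ z : ℂ, r1 ≤ D.zt z → κ ≤ D.ph z ∧ κ ≤ D.tt z) {y : ℂ} (hy : 0 < D.zt y)
    (hyZ : D.zt y ≤ Z) :
    2 * D.zt y * Real.log ((Z + 2) / D.zt y) ≤
      (4 * (Z + 2) / κ + 2 * (Z + 2) / D.al) * D.ph y := by
  have hal := al_pos D
  set ζ := D.zt y with hζ
  have hX : 0 < (Z + 2) / ζ := by positivity
  by_cases h : r1 ≤ ζ
  · have hph : κ ≤ D.ph y := (hf y h).1
    have hl := log_sq hX
    have h3 : 2 * ζ * Real.log ((Z + 2) / ζ) ≤ 4 * (ζ * Real.sqrt ((Z + 2) / ζ)) := by nlinarith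
    have h4 : ζ * Real.sqrt ((Z + 2) / ζ) ≤ Z + 2 := by
      have e : ζ * Real.sqrt ((Z + 2) / ζ) = Real.sqrt (ζ * (Z + 2)) := by
        rw [← Real.sqrt_sq hy.le]
        rw [← Real.sqrt_mul (by positivity)]
        rw [Real.sqrt_sq hy.le]
        congr 1
        field_simp
      rw [e]
      rw [show Z + 2 = Real.sqrt ((Z + 2) ^ 2) by rw [Real.sqrt_sq (by linarith)]]
      apply Real.sqrt_le_sqrt
      rw [Real.sqrt_sq (by linarith)]
      nlinarith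
    have h5 : 4 * (Z + 2) ≤ (4 * (Z + 2) / κ) * D.ph y := by
      rw [div_mul_eq_mul_div, le_div_iff₀ hκ]
      nlinarith
    have h6 : 0 ≤ 2 * (Z + 2) / D.al * D.ph y := by
      have := ph_nonneg D y
      positivity
    nlinarith
  · push Not at h
    obtain ⟨c, hc, hcy⟩ := zt_ex D y
    have h' : ‖y - c‖ ≤ r1 := by rw [← hcy]; exact h.le
    have hph : D.ph y = ζ ^ (1 - D.al * (D.M c : ℝ)) := by
      rw [(hn c hc y h').2.1, ← hcy]
    have hM : 1 ≤ (D.M c : ℝ) := by exact_mod_cast M_pos D hc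
    have hζ1 : ζ ≤ 1 := by linarith
    have h1 : ζ ^ (1 - D.al) ≤ D.ph y := by
      rw [hph]
      apply Real.rpow_le_rpow_of_exponent_ge hy hζ1
      nlinarith
    have h2 : Real.log ((Z + 2) / ζ) ≤ ((Z + 2) / ζ) ^ D.al / D.al :=
      Real.log_le_rpow_div hX.le hal
    have hal1 : D.al ≤ 1 := by
      have := al_le D hc
      nlinarith
    have h3 : ((Z + 2) / ζ) ^ D.al ≤ (Z + 2) * ζ ^ (- D.al) := by
      rw [Real.div_rpow (by linarith) hy.le, Real.rpow_neg hy.le, div_eq_mul_inv]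
      apply mul_le_mul_of_nonneg_right _ (by positivity)
      calc (Z + 2) ^ D.al ≤ (Z + 2) ^ (1 : ℝ) :=
            Real.rpow_le_rpow_of_exponent_le (by linarith) hal1
        _ = Z + 2 := Real.rpow_one _
    have h4 : ζ * ζ ^ (- D.al) = ζ ^ (1 - D.al) := by
      rw [sub_eq_add_neg, Real.rpow_add hy, Real.rpow_one]
    have h5 : 2 * ζ * Real.log ((Z + 2) / ζ) ≤ 2 * (Z + 2) / D.al * ζ ^ (1 - D.al) := by
      calc 2 * ζ * Real.log ((Z + 2) / ζ) ≤ 2 * ζ * (((Z + 2) * ζ ^ (- D.al)) / D.al) := by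
            apply mul_le_mul_of_nonneg_left _ (by positivity)
            refine h2.trans ?_
            gcongr
        _ = 2 * (Z + 2) / D.al * (ζ * ζ ^ (- D.al)) := by ring
        _ = _ := by rw [h4]
    have h6 : 0 ≤ 4 * (Z + 2) / κ * D.ph y := by
      have := ph_nonneg D y
      positivity
    have h7 : 2 * (Z + 2) / D.al * ζ ^ (1 - D.al) ≤ 2 * (Z + 2) / D.al * D.ph y := by
      apply mul_le_mul_of_nonneg_left h1 (by positivity)
    nlinarith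

/-- block times -/
structure BT (D : Ps) (χ v : ℝ) (z : ℂ) (j : ℕ) : Prop where
  gr : Real.exp (χ * D.TT z j) ≤ D.Aw z j
  tt : v ≤ D.tt (D.f^[j] z) * D.Aw z j ^ (2 * D.Mx)

theorem aw_add (D : Ps) {z : ℂ} {j l : ℕ} (hG : ∀ i < j + l, D.f^[i] z ∈ D.G)
    (h1 : D.f^[j] z ∉ D.S) :
    D.Aw z (j + l) = D.Aw z j *
      (‖deriv (D.f^[l]) (D.f^[j] z)‖ * D.ph (D.f^[j] z) / D.ph (D.f^[l] (D.f^[j] z))) := by
  have hp1 := ph_pos D h1
  have e : D.f^[j + l] z = D.f^[l] (D.f^[j] z) := by rw [add_comm, Function.iterate_add_apply]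
  unfold Ps.Aw
  rw [it_add D hG, norm_mul, e]
  field_simp

theorem bt_close (D : Ps) {χ χ0 v : ℝ} {z : ℂ} {j l : ℕ} (hχ : χ ≤ χ0) (hb : BT D χ v z j)
    (hG : ∀ i < j + l, D.f^[i] z ∈ D.G) (h1 : D.f^[j] z ∉ D.S)
    (h2 : D.f^[l] (D.f^[j] z) ∉ D.S)
    (h3 : Real.exp (χ0 * D.TT (D.f^[j] z) l) * D.ph (D.f^[l] (D.f^[j] z)) ≤
      ‖deriv (D.f^[l]) (D.f^[j] z)‖ * D.ph (D.f^[j] z))
    (h4 : D.tt (D.f^[j] z) * D.ph (D.f^[l] (D.f^[j] z)) ^ (2 * D.Mx) ≤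
        (‖deriv (D.f^[l]) (D.f^[j] z)‖ * D.ph (D.f^[j] z)) ^ (2 * D.Mx) *
          D.tt (D.f^[l] (D.f^[j] z))) :
    BT D χ v z (j + l) := by
  have hp2 := ph_pos D h2
  have e : D.f^[j + l] z = D.f^[l] (D.f^[j] z) := by rw [add_comm, Function.iterate_add_apply]
  set R := ‖deriv (D.f^[l]) (D.f^[j] z)‖ * D.ph (D.f^[j] z) with hR
  set P := D.ph (D.f^[l] (D.f^[j] z)) with hP
  have ha := aw_add D hG h1
  rw [← hR, ← hP] at ha
  have hA0 : 0 < D.Aw z j := (Real.exp_pos _).trans_le hb.gr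
  have hr : Real.exp (χ0 * D.TT (D.f^[j] z) l) ≤ R / P := by rwa [le_div_iff₀ hp2]
  refine ⟨?_, ?_⟩
  · rw [ha]
    rw [TT_add, mul_add, Real.exp_add]
    apply mul_le_mul hb.gr _ (Real.exp_pos _).le hA0.le
    refine le_trans (Real.exp_le_exp.mpr ?_) hr
    exact mul_le_mul_of_nonneg_right hχ (TT_nonneg D _ _)
  · rw [ha, e]
    have h5 : D.tt (D.f^[j] z) ≤ D.tt (D.f^[l] (D.f^[j] z)) * (R / P) ^ (2 * D.Mx) := by
      rw [div_pow, mul_div_assoc', le_div_iff₀ (by positivity)]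
      linarith
    calc v ≤ D.tt (D.f^[j] z) * D.Aw z j ^ (2 * D.Mx) := hb.tt
      _ ≤ (D.tt (D.f^[l] (D.f^[j] z)) * (R / P) ^ (2 * D.Mx)) * D.Aw z j ^ (2 * D.Mx) := by
          gcongr
      _ = _ := by rw [mul_pow]; ring

theorem bt_far (D : Ps) {χ v κ κ' : ℝ} {z : ℂ} {j l : ℕ} (hb : BT D χ v z j) (hχ : 0 ≤ χ)
    (hκ : 0 < κ) (hκ' : 0 < κ')
    (hG : ∀ i < j + l, D.f^[i] z ∈ D.G) (h1 : D.f^[j] z ∉ D.S)
    (h2 : D.f^[l] (D.f^[j] z) ∉ D.S) (hl : Real.exp (χ * l) ≤ 3 / 2)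
    (h3 : 3 / 2 * D.ph (D.f^[l] (D.f^[j] z)) ≤
      ‖deriv (D.f^[l]) (D.f^[j] z)‖ * D.ph (D.f^[j] z))
    (h4 : κ ≤ ‖deriv (D.f^[l]) (D.f^[j] z)‖) (h5 : κ' ≤ D.ph (D.f^[j] z))
    (hv : v ≤ (κ * κ') ^ (2 * D.Mx)) :
    BT D χ v z (j + l) := by
  have hp2 := ph_pos D h2
  have e : D.f^[j + l] z = D.f^[l] (D.f^[j] z) := by rw [add_comm, Function.iterate_add_apply]
  have h6 : κ * κ' ≤ ‖deriv (D.f^[l]) (D.f^[j] z)‖ * D.ph (D.f^[j] z) :=
    mul_le_mul h4 h5 hκ'.le (norm_nonneg _)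
  set R := ‖deriv (D.f^[l]) (D.f^[j] z)‖ * D.ph (D.f^[j] z) with hR
  set P := D.ph (D.f^[l] (D.f^[j] z)) with hP
  have ha := aw_add D hG h1
  rw [← hR, ← hP] at ha
  have hA0 : 0 < D.Aw z j := (Real.exp_pos _).trans_le hb.gr
  have hA1 : 1 ≤ D.Aw z j := by
    refine le_trans ?_ hb.gr
    apply Real.one_le_exp
    exact mul_nonneg hχ (TT_nonneg D _ _)
  have hr : 3 / 2 ≤ R / P := by rwa [le_div_iff₀ hp2]
  refine ⟨?_, ?_⟩
  · rw [ha]
    rw [TT_add, mul_add, Real.exp_add]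
    apply mul_le_mul hb.gr _ (Real.exp_pos _).le hA0.le
    refine (Real.exp_le_exp.mpr ?_).trans (hl.trans hr)
    exact mul_le_mul_of_nonneg_left (TT_le D _ _) hχ
  · rw [ha, e]
    have h7 : P ^ (2 * D.Mx) ≤ D.tt (D.f^[l] (D.f^[j] z)) := ph_tt D _
    calc v ≤ (κ * κ') ^ (2 * D.Mx) := hv
      _ ≤ R ^ (2 * D.Mx) := by gcongr
      _ = P ^ (2 * D.Mx) * (1 * (R / P)) ^ (2 * D.Mx) := by
          rw [← mul_pow]; congr 1; field_simp
      _ ≤ D.tt (D.f^[l] (D.f^[j] z)) * (D.Aw z j * (R / P)) ^ (2 * D.Mx) := by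
          have : 0 ≤ R / P := by linarith
          have h0 := tt_nonneg D (D.f^[l] (D.f^[j] z))
          gcongr

theorem bt_bd (D : Ps) {χ v s : ℝ} {z : ℂ} {j : ℕ} (hb : BT D χ v z j) (hs : 0 < s)
    (hv : v = s ^ (2 * D.Mx)) (hA : D.Aw z j * s ≤ 1) (hχ : 0 ≤ χ) (h1 : D.f^[j] z ∉ D.S) :
    Real.exp (χ * D.TT z j) * s ≤ 1 ∧ s ^ (4 * D.Mx) ≤ D.tt (D.f^[j] z) ∧
      s ^ (4 * D.Mx) ≤ ‖deriv (D.f^[j]) z‖ := by
  have hA0 : 0 < D.Aw z j := (Real.exp_pos _).trans_le hb.gr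
  have hA1 : 1 ≤ D.Aw z j := by
    refine le_trans ?_ hb.gr
    apply Real.one_le_exp
    exact mul_nonneg hχ (TT_nonneg D _ _)
  have ht : s ^ (4 * D.Mx) ≤ D.tt (D.f^[j] z) := by
    have h0 := tt_nonneg D (D.f^[j] z)
    calc s ^ (4 * D.Mx) = s ^ (2 * D.Mx) * s ^ (2 * D.Mx) := by rw [← pow_add]; congr 1; ring
      _ ≤ (D.tt (D.f^[j] z) * D.Aw z j ^ (2 * D.Mx)) * s ^ (2 * D.Mx) := by
          rw [← hv]
          apply mul_le_mul_of_nonneg_right hb.tt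
          rw [hv]; positivity
      _ = D.tt (D.f^[j] z) * (D.Aw z j * s) ^ (2 * D.Mx) := by rw [mul_pow]; ring
      _ ≤ D.tt (D.f^[j] z) * 1 := by
          gcongr
          apply pow_le_one₀ (by positivity) hA
      _ = _ := mul_one _
  refine ⟨?_, ht, ?_⟩
  · exact (mul_le_mul_of_nonneg_right hb.gr hs.le).trans hA
  · have hp := ph_pos D h1
    have h2 : D.ph (D.f^[j] z) ≤ ‖deriv (D.f^[j]) z‖ * D.ph z := by
      have : D.Aw z j = ‖deriv (D.f^[j]) z‖ * D.ph z / D.ph (D.f^[j] z) := rfl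
      rw [this, le_div_iff₀ hp, one_mul] at hA1
      exact hA1
    have h3 := tt_ph D (D.f^[j] z)
    have h4 := ph_le_one D z
    have h5 : ‖deriv (D.f^[j]) z‖ * D.ph z ≤ ‖deriv (D.f^[j]) z‖ := by
      have := norm_nonneg (deriv (D.f^[j]) z)
      nlinarith
    linarith

/-- the exponents -/
def Ee (M N : ℕ) : ℕ → ℕ
  | 0 => N
  | t + 1 => Ee M N t + M * (2 * Ee M N t + 3)

theorem Ee_mono (M N : ℕ) : Monotone (Ee M N) := by
  apply monotone_nat_of_le_succ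
  intro n
  simp only [Ee]
  omega

theorem M_le (D : Ps) {c : ℂ} (hc : c ∈ D.S) : D.M c ≤ D.Mx :=
  Finset.single_le_sum (f := fun c => D.M c) (fun _ _ => Nat.zero_le _) hc

/-- the derivatives in a passage far from the critical points -/
theorem nh_steps (D : Ps) {δ1 δ2 σ Z a1 s : ℝ} {z : ℂ} {k : ℕ} (h1 : δ1 ≤ D.δ / 4)
    (h2 : δ2 ≤ D.δ / 4)
    (hσ : 0 < σ) (hσ1 : σ ≤ 1) (hZ1 : 1 ≤ Z) (hZ : ∀ z ∈ thickening D.δ D.J, D.zt z ≤ Z)
    (h : NH D δ1 δ2 z σ k) (ha : 0 < a1) (ha1 : a1 ≤ 1) (ha2 : a1 * (16 * (Z + 2) * D.C) ≤ 1)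
    (hs : s = a1 * σ) {j N : ℕ} (hj : s ^ N ≤ ‖deriv (D.f^[j]) z‖) :
    ∀ t : ℕ, j + t ≤ k + 1 → s ^ (Ee D.Mx N t) ≤ ‖deriv (D.f^[j + t]) z‖ := by
  have hs0 : 0 < s := by rw [hs]; positivity
  have hsσ : s ≤ σ := by rw [hs]; nlinarith
  have hsa : s ≤ a1 := by rw [hs]; nlinarith
  have hzb : z ∈ ball z σ := mem_ball_self hσ
  have hC := D.hC
  intro t
  induction t with
  | zero => intro _; simpa [Ee] using hj
  | succ t ih =>
    intro ht
    have ih' := ih (by omega)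
    have hjt : j + t ≤ k := by omega
    have hG : ∀ i < j + t + 1, D.f^[i] z ∈ D.G := fun i hi => D.hU (nh_th D h1 h2 h (by omega) hzb)
    have e1 : deriv (D.f^[j + (t + 1)]) z = deriv D.f (D.f^[j + t] z) * deriv (D.f^[j + t]) z :=
      it_succ D hG
    rw [e1, norm_mul]
    set x := D.f^[j + t] z with hx
    set e := Ee D.Mx N t with he
    have hsq := nh_sq D h1 h2 hσ hZ1 hZ h hjt
    rw [← hx] at hsq
    have hthk : x ∈ thickening (D.δ / 2) D.J := by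
      have := (h (j + t) hjt).1
      exact thickening_mono (by have := D.hδ; linarith) _ this
    have hlow := D.low x hthk D.Mx (fun c hc => M_le D (cr_S D hc))
    have hζ0 := zt_nonneg D x
    have hzt : infDist x (D.S : Set ℂ) = D.zt x := rfl
    rw [hzt] at hlow
    have h5 : s ^ (2 * e + 3) * D.C ≤ D.zt x := by
      have h6 : (s ^ e * s) ^ 2 ≤ 16 * (Z + 2) * D.zt x := by
        refine le_trans ?_ hsq
        gcongr
      have h7 : s ^ (2 * e + 3) * D.C * (16 * (Z + 2)) ≤ (16 * (Z + 2)) * D.zt x := by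
        calc s ^ (2 * e + 3) * D.C * (16 * (Z + 2)) =
              (s ^ e * s) ^ 2 * (s * (16 * (Z + 2) * D.C)) := by ring
          _ ≤ (s ^ e * s) ^ 2 * (a1 * (16 * (Z + 2) * D.C)) := by gcongr
          _ ≤ (s ^ e * s) ^ 2 * 1 := by gcongr
          _ ≤ _ := by rw [mul_one]; exact h6
      have h8 : 0 < 16 * (Z + 2) := by linarith
      nlinarith
    have h9 : s ^ ((2 * e + 3) * D.Mx) ≤ ‖deriv D.f x‖ := by
      have hCM : 0 < D.C ^ D.Mx := by positivity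
      have h10 : s ^ ((2 * e + 3) * D.Mx) * D.C ^ D.Mx ≤ D.C ^ D.Mx * ‖deriv D.f x‖ := by
        calc s ^ ((2 * e + 3) * D.Mx) * D.C ^ D.Mx = (s ^ (2 * e + 3) * D.C) ^ D.Mx := by
              rw [mul_pow, ← pow_mul]
          _ ≤ D.zt x ^ D.Mx := by gcongr
          _ ≤ _ := hlow
      nlinarith
    have h11 : Ee D.Mx N (t + 1) = (2 * e + 3) * D.Mx + e := by
      simp only [Ee]; rw [← he]; ring
    rw [h11, pow_add]
    exact mul_le_mul h9 ih' (by positivity) (norm_nonneg _)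

theorem nohit (D : Ps) : ∃ (a b δ1 δ2 : ℝ) (N : ℕ), 0 < a ∧ 0 < b ∧ 0 < δ1 ∧ δ1 ≤ D.δ / 4 ∧
    0 < δ2 ∧ δ2 ≤ D.δ / 4 ∧ ∀ (z : ℂ) (σ : ℝ) (k : ℕ), 0 < σ → σ ≤ 1 / 2 →
      (∀ i ≤ k, D.f^[i] z ∈ D.V ∧ D.f^[i] z ∈ thickening δ1 D.J ∧
        ∀ w ∈ ball z σ, ‖D.f^[i] w - D.f^[i] z‖ ≤ δ2 ∧ D.f^[i] w ∉ D.S) →
      D.TT z k ≤ a * Real.log (1 / σ) + b ∧
        (∀ i ≤ k + 1, σ ^ N ≤ Real.exp b * ‖deriv (D.f^[i]) z‖) ∧
        ∀ i ≤ k, σ ^ N ≤ Real.exp b * D.zt (D.f^[i] z) := by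
  classical
  obtain ⟨χ0, z1, C2, N2, hχ0, hz1, hz1r, hz1h, hC2, hnea⟩ := nea D
  obtain ⟨N, κ, δ1, hN, hκ, hδ1, hδ1', hfar⟩ := far D hz1
  obtain ⟨Z, hZ1, hZ⟩ := zt_bd D
  obtain ⟨r1, κ1, hr1, hr1r, hr1h, hκ1, hκ11, hnear, hfar1⟩ := phi_near D
  have hδ := D.hδ
  have hC := D.hC
  have hal := al_pos D
  have hN0 : (0 : ℝ) < N := by exact_mod_cast hN
  have hl32 : 0 < Real.log (3 / 2) := Real.log_pos (by norm_num)
  set χ := min χ0 (Real.log (3 / 2) / N) with hχdef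
  have hχ : 0 < χ := lt_min hχ0 (by positivity)
  have hχ1 : χ ≤ χ0 := min_le_left _ _
  have hχN : ∀ l : ℕ, l ≤ N → Real.exp (χ * l) ≤ 3 / 2 := by
    intro l hl
    have h1 : χ * l ≤ Real.log (3 / 2) := by
      calc χ * l ≤ (Real.log (3 / 2) / N) * N := by
            apply mul_le_mul (min_le_right _ _) (by exact_mod_cast hl) (Nat.cast_nonneg _)
              (by positivity)
        _ = _ := by field_simp
    calc Real.exp (χ * l) ≤ Real.exp (Real.log (3 / 2)) := Real.exp_le_exp.mpr h1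
      _ = 3 / 2 := Real.exp_log (by norm_num)
  set A := 4 * (Z + 2) / κ1 + 2 * (Z + 2) / D.al with hAdef
  have hA : 0 < A := by positivity
  set κ' := min κ1 z1 with hκ'def
  have hκ' : 0 < κ' := lt_min hκ1 hz1
  have hB : 0 < 16 * (Z + 2) * D.C := by positivity
  obtain ⟨a1, ha1, ha1', haA, haκ, haC⟩ : ∃ a1 : ℝ, 0 < a1 ∧ a1 ≤ 1 ∧ a1 * A ≤ 1 ∧ a1 ≤ κ * κ' ∧
      a1 * (16 * (Z + 2) * D.C) ≤ 1 := by
    refine ⟨min (min 1 (1 / A)) (min (κ * κ') (1 / (16 * (Z + 2) * D.C))), ?_, ?_, ?_, ?_, ?_⟩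
    · exact lt_min (lt_min one_pos (by positivity)) (lt_min (by positivity) (by positivity))
    · exact (min_le_left _ _).trans (min_le_left _ _)
    · rw [← le_div_iff₀ hA]
      exact (min_le_left _ _).trans (min_le_right _ _)
    · exact (min_le_right _ _).trans (min_le_left _ _)
    · rw [← le_div_iff₀ hB]
      exact (min_le_right _ _).trans (min_le_right _ _)
  set N4 := max (4 * D.Mx * N2 + 4 * D.Mx) (Ee D.Mx (4 * D.Mx) N) with hN4
  set a := 1 / χ + C2 * (4 * D.Mx : ℕ) with hadef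
  have ha0 : 0 < a := by positivity
  set L1 := Real.log (1 / a1) with hL1
  have hL1' : 0 ≤ L1 := Real.log_nonneg (by rw [le_div_iff₀ ha1]; linarith)
  have hL2 : 0 ≤ Real.log (16 * (Z + 2)) := Real.log_nonneg (by linarith)
  refine ⟨a, a * L1 + N + 2 * (N4 * L1) + Real.log (16 * (Z + 2)) + 1, δ1, D.δ / 4, 2 * N4 + 2,
    ha0, by positivity, hδ1, hδ1', by positivity, le_rfl, ?_⟩
  intro z σ k hσ hσh hH
  have h : NH D δ1 (D.δ / 4) z σ k := fun i hi => (hH i hi).2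
  have hVV : ∀ i ≤ k, D.f^[i] z ∈ D.V := fun i hi => (hH i hi).1
  have hzb : z ∈ ball z σ := mem_ball_self hσ
  set s := a1 * σ with hs
  have hs0 : 0 < s := by positivity
  have hs1 : s ≤ 1 / 2 := by nlinarith
  have hs1' : s ≤ 1 := by linarith
  have hsσ : s ≤ σ := by nlinarith
  have hsa : s ≤ a1 := by nlinarith
  have hth : ∀ i ≤ k, ∀ w ∈ ball z σ, D.f^[i] w ∈ thickening D.δ D.J :=
    fun i hi w hw => nh_th D hδ1' le_rfl h hi hw
  have hG : ∀ i ≤ k, D.f^[i] z ∈ D.G := fun i hi => D.hU (hth i hi z hzb)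
  have hnc : ∀ i ≤ k, D.f^[i] z ∉ D.S := fun i hi => ((h i hi).2 z hzb).2
  have hAs : ∀ j ≤ k, D.Aw z j * s ≤ 1 := by
    intro j hj
    obtain ⟨hp, hle, hsp⟩ := nh_spk D hδ1' le_rfl hσ hZ h hj
    have h1 := nh_A D hZ1 hr1h hκ1 hnear hfar1 hp hle
    have hph := ph_pos D (hnc j hj)
    have h2 : D.Aw z j * σ ≤ A := by
      have e : D.Aw z j = ‖deriv (D.f^[j]) z‖ * D.ph z / D.ph (D.f^[j] z) := rfl
      rw [e, div_mul_eq_mul_div, div_le_iff₀ hph]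
      have h3 := ph_le_one D z
      have h4 := norm_nonneg (deriv (D.f^[j]) z)
      calc ‖deriv (D.f^[j]) z‖ * D.ph z * σ = (‖deriv (D.f^[j]) z‖ * σ) * D.ph z := by ring
        _ ≤ (‖deriv (D.f^[j]) z‖ * σ) * 1 := by gcongr
        _ ≤ _ := by rw [mul_one]; exact hsp.trans h1
    calc D.Aw z j * s = a1 * (D.Aw z j * σ) := by rw [hs]; ring
      _ ≤ a1 * A := by gcongr
      _ ≤ 1 := haA
  have hb0 : BT D χ (s ^ (2 * D.Mx)) z 0 := by
    have hph := ph_pos D (hnc 0 (Nat.zero_le _))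
    simp only [Function.iterate_zero, id_eq] at hph
    have hA0 : D.Aw z 0 = 1 := by
      have e : D.Aw z 0 = ‖deriv (D.f^[0]) z‖ * D.ph z / D.ph (D.f^[0] z) := rfl
      rw [e]
      simp only [Function.iterate_zero, id_eq, deriv_id', norm_one, one_mul]
      exact div_self hph.ne'
    refine ⟨?_, ?_⟩
    · rw [hA0, TT_zero]; simp
    · rw [hA0]
      simp only [Function.iterate_zero, id_eq, one_pow, mul_one]
      have h1 : ∀ c ∈ D.S, σ ≤ ‖z - c‖ := by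
        intro c hc
        by_contra hlt
        push Not at hlt
        have hcb : c ∈ ball z σ := by
          rw [mem_ball, dist_eq_norm, norm_sub_rev]; exact hlt
        have := ((h 0 (Nat.zero_le _)).2 c hcb).2
        simp only [Function.iterate_zero, id_eq] at this
        exact this hc
      have h2 : σ ^ D.Mx ≤ D.tt z := by
        rcases tt_ex D z with h3 | ⟨c, hc, h3⟩
        · rw [h3]; exact pow_le_one₀ hσ.le (by linarith)
        · rw [h3]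
          calc σ ^ D.Mx ≤ σ ^ D.M c := pow_le_pow_of_le_one hσ.le (by linarith) (M_le D hc)
            _ ≤ ‖z - c‖ ^ D.M c := by
                have := h1 c hc
                gcongr
      refine le_trans ?_ h2
      calc s ^ (2 * D.Mx) ≤ σ ^ (2 * D.Mx) := by gcongr
        _ ≤ σ ^ D.Mx := pow_le_pow_of_le_one hσ.le (by linarith) (by omega)
  -- the step
  have hstep : ∀ j ≤ k, BT D χ (s ^ (2 * D.Mx)) z j →
      ∃ l : ℕ, 1 ≤ l ∧ (j + l ≤ k → BT D χ (s ^ (2 * D.Mx)) z (j + l)) ∧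
        D.TT (D.f^[j] z) l ≤ C2 * (4 * D.Mx : ℕ) * Real.log (1 / s) + N ∧
        ∀ t ≤ l, j + t ≤ k + 1 → s ^ N4 ≤ ‖deriv (D.f^[j + t]) z‖ := by
    intro j hj hb
    obtain ⟨hexp, htt, hder⟩ := bt_bd D hb hs0 rfl (hAs j hj) hχ.le (hnc j hj)
    have hls : 0 ≤ Real.log (1 / s) := Real.log_nonneg (by rw [le_div_iff₀ hs0]; linarith)
    have hx0 : 0 < D.zt (D.f^[j] z) := zt_pos D (hnc j hj)
    by_cases hc : D.zt (D.f^[j] z) ≤ z1
    · obtain ⟨l, hl1, hlk, hl2, hl4, hl5⟩ := hnea (D.f^[j] z) (k - j) hx0 hc (fun i hi => by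
        rw [← Function.iterate_add_apply]
        exact hVV (i + j) (by omega))
      have hζs : s ^ (4 * D.Mx) ≤ D.zt (D.f^[j] z) := by
        obtain ⟨c, hcC, hcz⟩ := zt_ex D (D.f^[j] z)
        have hζ0 : 0 < ‖D.f^[j] z - c‖ := by rw [← hcz]; exact hx0
        have hζ1 : ‖D.f^[j] z - c‖ ≤ z1 := by rw [← hcz]; exact hc
        rw [hcz]
        refine htt.trans ((tt_le D hcC _).trans ?_)
        have hM : D.M c ≠ 0 := by
          have := M_pos D hcC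
          omega
        exact pow_le_of_le_one hζ0.le (by linarith) hM
      refine ⟨l, hl1, ?_, ?_, ?_⟩
      · intro hjl
        have e : D.f^[j + l] z = D.f^[l] (D.f^[j] z) := by
          rw [add_comm, Function.iterate_add_apply]
        exact bt_close D hχ1 hb (fun i hi => hG i (by omega)) (hnc j hj)
          (by rw [← e]; exact hnc _ hjl) (hl5 (by omega)).1 (hl5 (by omega)).2
      · have h1 : Real.log (1 / D.zt (D.f^[j] z)) ≤ (4 * D.Mx : ℕ) * Real.log (1 / s) := by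
          rw [← Real.log_pow]
          apply Real.log_le_log (by positivity)
          rw [div_pow, one_pow]
          exact one_div_le_one_div_of_le (by positivity) hζs
        have h2 : C2 * Real.log (1 / D.zt (D.f^[j] z)) ≤
            C2 * ((4 * D.Mx : ℕ) * Real.log (1 / s)) := by gcongr
        linarith
      · intro t ht hjt
        have hG' : ∀ i < j + t, D.f^[i] z ∈ D.G := fun i hi => hG i (by omega)
        rw [it_add D hG', norm_mul]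
        have h1 : s ^ (4 * D.Mx * N2) ≤ ‖deriv (D.f^[t]) (D.f^[j] z)‖ := by
          refine le_trans ?_ (hl4 t ht).1
          rw [pow_mul]
          gcongr
        calc s ^ N4 ≤ s ^ (4 * D.Mx * N2 + 4 * D.Mx) :=
              pow_le_pow_of_le_one hs0.le hs1' (le_max_left _ _)
          _ = s ^ (4 * D.Mx * N2) * s ^ (4 * D.Mx) := pow_add _ _ _
          _ ≤ _ := mul_le_mul h1 hder (by positivity) (norm_nonneg _)
    · push Not at hc
      obtain ⟨l, hl1, hlN, hl2, hl3, hl4⟩ := hfar (D.f^[j] z) (h j hj).1 hc.le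
      refine ⟨l, hl1, ?_, ?_, ?_⟩
      · intro hjl
        have e : D.f^[j + l] z = D.f^[l] (D.f^[j] z) := by
          rw [add_comm, Function.iterate_add_apply]
        refine bt_far D hb hχ.le hκ hκ' (fun i hi => hG i (by omega)) (hnc j hj)
          (by rw [← e]; exact hnc _ hjl) (hχN l hlN) hl2 hl3 ?_ ?_
        · refine le_trans ?_ (ph_low D hr1h hnear hfar1 hx0)
          exact min_le_min le_rfl hc.le
        · have := hsa.trans haκ
          gcongr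
      · have h1 : D.TT (D.f^[j] z) l ≤ N := (TT_le D _ _).trans (by exact_mod_cast hlN)
        have h2 : 0 ≤ C2 * (4 * D.Mx : ℕ) * Real.log (1 / s) := by positivity
        linarith
      · intro t ht hjt
        have h1 := nh_steps D hδ1' le_rfl hσ (by linarith) hZ1 hZ h ha1 ha1' haC hs hder t hjt
        refine le_trans ?_ h1
        apply pow_le_pow_of_le_one hs0.le hs1'
        exact (Ee_mono _ _ (ht.trans hlN)).trans (le_max_right _ _)
  -- the last block time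
  have hlast : ∀ i ≤ k, ∃ j ≤ i, BT D χ (s ^ (2 * D.Mx)) z j ∧
      ∀ j', j < j' → j' ≤ i → ¬ BT D χ (s ^ (2 * D.Mx)) z j' := by
    intro i hi
    refine ⟨Nat.findGreatest (fun j => BT D χ (s ^ (2 * D.Mx)) z j) i, Nat.findGreatest_le i,
      Nat.findGreatest_spec (P := fun j => BT D χ (s ^ (2 * D.Mx)) z j) (Nat.zero_le i) hb0, ?_⟩
    intro j' hj' hji
    exact Nat.findGreatest_is_greatest hj' hji
  have hls : Real.log (1 / s) = L1 + Real.log (1 / σ) := by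
    rw [hL1, ← Real.log_mul (by positivity) (by positivity)]
    congr 1
    rw [hs]
    field_simp
  have hσ1 : 1 ≤ 1 / σ := by rw [le_div_iff₀ hσ]; linarith
  have hlσ : 0 ≤ Real.log (1 / σ) := Real.log_nonneg hσ1
  have hder : ∀ i ≤ k + 1, s ^ N4 ≤ ‖deriv (D.f^[i]) z‖ := by
    intro i hi
    obtain ⟨j, hjk, hb, hmax⟩ := hlast (min i k) (min_le_right _ _)
    have hjk' : j ≤ k := hjk.trans (min_le_right _ _)
    have hji : j ≤ i := hjk.trans (min_le_left _ _)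
    obtain ⟨l, hl1, hl2, hl3, hl4⟩ := hstep j hjk' hb
    have hijl : i ≤ j + l := by
      by_contra hlt
      push Not at hlt
      exact hmax (j + l) (by omega) (by omega) (hl2 (by omega))
    have h1 := hl4 (i - j) (by omega) (by omega)
    rwa [show j + (i - j) = i by omega] at h1
  have hsN : ∀ n : ℕ, σ ^ n = Real.exp (n * L1) * s ^ n := by
    intro n
    rw [hs, mul_pow, Real.exp_nat_mul, hL1, Real.exp_log (by positivity)]
    rw [← mul_assoc, ← mul_pow]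
    rw [one_div, inv_mul_cancel₀ ha1.ne', one_pow, one_mul]
  have h5 : 0 ≤ a * L1 := by positivity
  have h6 : 0 ≤ (N4 : ℝ) * L1 := by positivity
  refine ⟨?_, ?_, ?_⟩
  · obtain ⟨j, hjk, hb, hmax⟩ := hlast k le_rfl
    obtain ⟨l, hl1, hl2, hl3, hl4⟩ := hstep j hjk hb
    have hjl : k < j + l := by
      by_contra hle
      push Not at hle
      exact hmax (j + l) (by omega) hle (hl2 hle)
    obtain ⟨hexp, -, -⟩ := bt_bd D hb hs0 rfl (hAs j hjk) hχ.le (hnc j hjk)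
    have h1 : χ * D.TT z j ≤ Real.log (1 / s) := by
      rw [Real.le_log_iff_exp_le (by positivity), le_div_iff₀ hs0]
      exact hexp
    have h2 : D.TT z j ≤ (1 / χ) * Real.log (1 / s) := by
      rw [one_div, ← div_eq_inv_mul, le_div_iff₀ hχ]
      linarith
    have h3 : D.TT z k ≤ D.TT z j + D.TT (D.f^[j] z) l := by
      rw [← TT_add]
      exact TT_mono D z hjl.le
    have h4 : D.TT z k ≤ a * Real.log (1 / s) + N := by
      rw [hadef]
      calc D.TT z k ≤ D.TT z j + D.TT (D.f^[j] z) l := h3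
        _ ≤ (1 / χ) * Real.log (1 / s) + (C2 * (4 * D.Mx : ℕ) * Real.log (1 / s) + N) :=
            add_le_add h2 hl3
        _ = _ := by ring
    rw [hls] at h4
    linarith
  · intro i hi
    have h1 := hder i hi
    have hσ1' : σ ≤ 1 := by linarith
    calc σ ^ (2 * N4 + 2) ≤ σ ^ N4 := pow_le_pow_of_le_one hσ.le hσ1' (by omega)
      _ = Real.exp (N4 * L1) * s ^ N4 := hsN N4
      _ ≤ _ := by
        apply mul_le_mul _ h1 (by positivity) (Real.exp_pos _).le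
        apply Real.exp_le_exp.mpr
        linarith
  · intro i hi
    have h1 := hder i (by omega)
    have h2 := nh_sq D hδ1' le_rfl hσ hZ1 hZ h hi
    have h3 : (s ^ N4 * σ) ^ 2 ≤ 16 * (Z + 2) * D.zt (D.f^[i] z) := by
      refine le_trans ?_ h2
      gcongr
    have h4 : σ ^ (2 * N4 + 2) = Real.exp (2 * (N4 * L1)) * (s ^ N4 * σ) ^ 2 := by
      calc σ ^ (2 * N4 + 2) = (σ ^ N4) ^ 2 * σ ^ 2 := by ring
        _ = (Real.exp (N4 * L1) * s ^ N4) ^ 2 * σ ^ 2 := by rw [hsN N4]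
        _ = (Real.exp (N4 * L1)) ^ 2 * (s ^ N4 * σ) ^ 2 := by ring
        _ = _ := by
          congr 1
          rw [← Real.exp_nat_mul]
          norm_num
    rw [h4]
    have h7 : Real.exp (2 * (N4 * L1)) * (16 * (Z + 2)) ≤
        Real.exp (a * L1 + N + 2 * (N4 * L1) + Real.log (16 * (Z + 2)) + 1) := by
      calc Real.exp (2 * (N4 * L1)) * (16 * (Z + 2)) =
            Real.exp (2 * (N4 * L1) + Real.log (16 * (Z + 2))) := by
              rw [Real.exp_add, Real.exp_log (by linarith)]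
        _ ≤ _ := Real.exp_le_exp.mpr (by linarith)
    calc Real.exp (2 * (N4 * L1)) * (s ^ N4 * σ) ^ 2 ≤
          Real.exp (2 * (N4 * L1)) * (16 * (Z + 2) * D.zt (D.f^[i] z)) := by gcongr
      _ = (Real.exp (2 * (N4 * L1)) * (16 * (Z + 2))) * D.zt (D.f^[i] z) := by ring
      _ ≤ _ := mul_le_mul_of_nonneg_right h7 (zt_nonneg D _)

end Pool.Agent.H44.DP
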