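import Pool.Agent.H44.DP.GSC

/-!
# Module NUL1: discs around a point of `J` are blown up

A good scale (`gsc`) for `h = id` and `r1 = r2`; the first alternative is impossible since `f^[i] x` is in `J` and not
in `Pa`.
-/

set_option autoImplicit false

open Filter Topology Metric Set

namespace Pool.Agent.H44.DP

theorem J_V1 (D : Ps) {z : ℂ} (hz : z ∈ D.J) (hp : z ∉ D.Pa) : z ∈ D.V1 := by
  refine D.hVJ z hz hp z ?_
  rw [sub_self, norm_zero]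
  have := dd_pos D hp
  unfold Ps.dd at this
  exact mul_pos D.hϑ this

theorem blow (D : Ps) : ∃ s0 c0 R : ℝ, 0 < s0 ∧ 0 < c0 ∧ ∀ x ∈ D.J, (∀ n, D.f^[n] x ∉ D.Pa) →
    ∀ ρ : ℝ, 0 < ρ → ∃ (ρ' : ℝ) (i : ℕ) (α : ℝ), 0 < ρ' ∧ ρ' ≤ ρ ∧ 0 < α ∧
      DifferentiableOn ℂ (D.f^[i]) (ball x ρ') ∧
      (∀ u ∈ ball x ρ', ‖D.f^[i] u‖ ≤ R ∧ ‖D.f^[i] u - D.f^[i] x‖ ≤ α) ∧
      c0 * D.dd (D.f^[i] x) ≤ α ∧
      ∃ u ∈ ball x (ρ' / 2), s0 * α ≤ ‖D.f^[i] u - D.f^[i] x‖ := by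
  obtain ⟨r2, δ1, R, hr2, hr2ϑ, hδ1, hδ14, hR, H⟩ := gsc D
  obtain ⟨a, b, Nb, ha, hb, H⟩ := H r2 hr2 le_rfl
  have hδ := D.hδ
  have hϑ := D.hϑ
  have hlog2 : 0 < Real.log 2 := Real.log_pos (by norm_num)
  refine ⟨Real.exp (-(a * Real.log 2 + 1)) / 2, r2, R, by positivity, hr2, ?_⟩
  intro x hx hxP ρ hρ
  have hdx : 0 < D.dd x := dd_pos D (hxP 0)
  obtain ⟨ρ2, hρ2⟩ : ∃ ρ2 : ℝ, ρ2 = min ρ (min (r2 * D.dd x) (min (D.δ / 2) (1 / 2))) := ⟨_, rfl⟩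
  have p0 : 0 < ρ2 := by
    rw [hρ2]
    exact lt_min hρ (lt_min (by positivity) (lt_min (by linarith) (by norm_num)))
  have p1 : ρ2 ≤ ρ := by rw [hρ2]; exact min_le_left _ _
  have p2 : ρ2 ≤ r2 * D.dd x := by rw [hρ2]; exact (min_le_right _ _).trans (min_le_left _ _)
  have p3 : ρ2 ≤ D.δ / 2 := by
    rw [hρ2]
    exact (min_le_right _ _).trans ((min_le_right _ _).trans (min_le_left _ _))
  have p4 : ρ2 ≤ 1 / 2 := by
    rw [hρ2]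
    exact (min_le_right _ _).trans ((min_le_right _ _).trans (min_le_right _ _))
  obtain ⟨N, hN⟩ : ∃ N : ℕ, a * Real.log (1 / ρ2) + b ≤ (N : ℝ) := exists_nat_ge _
  have h2N : (1 : ℝ) ≤ 2 ^ N := one_le_pow₀ (by norm_num)
  have hσ : 0 < ρ2 / 2 ^ N := by positivity
  have hσ2 : ρ2 / 2 ^ N ≤ 1 / 2 := (div_le_self p0.le h2N).trans p4
  have hlog : Real.log (1 / (ρ2 / 2 ^ N)) = N * Real.log 2 + Real.log (1 / ρ2) := by
    have h1 : 1 / (ρ2 / 2 ^ N) = (2 : ℝ) ^ N * (1 / ρ2) := by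
      field_simp
    rw [h1, Real.log_mul (by positivity) (by positivity), Real.log_pow]
  have hQN : a * Real.log (1 / (ρ2 / 2 ^ N)) + b ≤ (a * Real.log 2 + 1) * N := by
    rw [hlog]
    linarith
  have hb1 : ∀ u ∈ ball x ρ2, id u ∈ thickening D.δ D.J ∧ ‖id u - id x‖ ≤ r2 * D.dd (id x) := by
    intro u hu
    rw [mem_ball, dist_eq_norm] at hu
    refine ⟨?_, by simpa using (hu.le.trans p2)⟩
    rw [id, mem_thickening_iff]
    exact ⟨x, hx, by rw [dist_eq_norm]; linarith⟩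
  obtain ⟨j, i, hj, hTT, hiN, H1, H2, H3⟩ := H (a * Real.log 2 + 1) N id x ρ2 (ρ2 / 2 ^ N)
    (by positivity) p0 hσ hσ2 hQN hb1 (by rw [image_id]; exact Subset.rfl)
  simp only [id] at H1 H2 H3
  have h2j : (1 : ℝ) ≤ 2 ^ j := one_le_pow₀ (by norm_num)
  have hin : ∀ u ∈ ball x (ρ2 / 2 ^ j), ∀ l < i, D.f^[l] u ∈ D.G := by
    intro u hu l hl
    obtain ⟨g1, g2, g3, g4⟩ := H1 l hl
    have hdd : 0 < D.dd (D.f^[l] x) := dd_pos D (hxP l)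
    have h1 : D.f^[l] u ∈ D.V := by
      refine D.hVV _ g1 _ ?_
      refine lt_of_le_of_lt (g4 u hu) ?_
      change r2 * D.dd (D.f^[l] x) < D.ϑ * D.dd (D.f^[l] x)
      exact mul_lt_mul_of_pos_right (by linarith) hdd
    exact D.hU (thickening_mono (by linarith) _ (D.hV h1))
  rcases H3 with ⟨hny, -, -⟩ | ⟨α, hα1, hα2, hα3, u, hu, hub⟩
  · exact absurd ⟨J_V1 D (it_J D hx i) (hxP i), J_th D (it_J D hx i) hδ1⟩ hny
  · have hα0 : 0 < α := by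
      have h1 : 0 < r2 * D.dd (D.f^[i] x) := mul_pos hr2 (dd_pos D (hxP i))
      linarith
    refine ⟨ρ2 / 2 ^ j, i, α, by positivity, (div_le_self p0.le h2j).trans p1, hα0, ?_, ?_, hα2,
      u, ?_, hub⟩
    · intro u hu
      exact (it_diff D fun l hl => hin u hu l hl).differentiableWithinAt
    · exact fun u hu => ⟨H2 u hu, hα3 u hu⟩
    · have h4 : ρ2 / 2 ^ (j + 1) = ρ2 / 2 ^ j / 2 := by
        rw [pow_succ]
        field_simp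
      rwa [h4] at hu

end Pool.Agent.H44.DP
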