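import Pool.Agent.H44.DP.NUL1
import Pool.Agent.H44.DP.LM2
import Pool.Agent.H44.DP.Fdf

/-!
# Module NUL2: the complement of `J` is fat at every point of `J` whose orbit does not meet `Pa`

`blow` gives discs around `x` on which `f^[i]` has a range of size `α`. If `α` does not tend to zero a limit function
takes values outside `J`; if `α → 0` the orbit is near a parabolic point `p` and the rescaled limit function takes
values outside the repelling directions: there the points are attracted (`X.con`).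
-/

set_option autoImplicit false

open Filter Topology Metric Set

namespace Pool.Agent.H44.DP

/-- a limit function takes values in a dense set, near which the points are outside of `J` -/
theorem fat_aux {h : ℕ → ℂ → ℂ} {s0 R : ℝ} {x : ℂ} {J O : Set ℂ} {ρs : ℕ → ℝ} (hs0 : 0 < s0)
    (hρs : ∀ k, 0 < ρs k) (hρ0 : Tendsto ρs atTop (𝓝 0))
    (hd : ∀ k, DifferentiableOn ℂ (h k) (ball 0 1)) (hB : ∀ k, ∀ z ∈ ball (0 : ℂ) 1, ‖h k z‖ ≤ R)
    (hex : ∀ k, ∃ η ∈ ball (0 : ℂ) (1 / 2), s0 ≤ ‖h k η - h k 0‖) (hO : Dense O)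
    (hN : ∀ y ∈ O, ∃ N ∈ 𝓝 y, ∀ᶠ k in atTop, ∀ η ∈ ball (0 : ℂ) 1, h k η ∈ N →
      x + (ρs k : ℂ) * η ∉ J) :
    ∃ (η0 : ℂ) (r : ℝ), 0 < r ∧ ball η0 r ⊆ ball 0 1 ∧ ∀ ρ : ℝ, 0 < ρ → ∃ ρ' : ℝ, 0 < ρ' ∧ ρ' ≤ ρ ∧
      ∀ η ∈ ball η0 r, x + ρ' * η ∉ J := by
  obtain ⟨σ, Ψ, hσ, hΨ, hlim, η', hη', hnc⟩ := limu_ex (ρ' := 3 / 4) hd hB hex (by norm_num)
    (by norm_num)
  have hopen : IsOpen (Ψ '' ball (0 : ℂ) (3 / 4)) := by
    rcases (hΨ.analyticOnNhd isOpen_ball).is_constant_or_isOpen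
      (convex_ball (0 : ℂ) (3 / 4)).isPreconnected with ⟨w, hw⟩ | h
    · exfalso
      have e1 := hw η' (closedBall_subset_ball (by norm_num) hη')
      have e2 := hw 0 (mem_ball_self (by norm_num))
      rw [e1, e2, sub_self, norm_zero] at hnc
      linarith
    · exact h _ Subset.rfl isOpen_ball
  obtain ⟨y, ⟨η0, hη0, rfl⟩, hy⟩ := hO.inter_open_nonempty _ hopen
    ⟨Ψ 0, 0, mem_ball_self (by norm_num), rfl⟩ |>.imp fun y hy => And.intro hy.1 hy.2
  obtain ⟨Nn, hNn, hev0⟩ := hN _ hy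
  have hev := (hlim η0 hη0) hNn
  rw [Filter.mem_map, Filter.mem_prod_iff] at hev
  obtain ⟨A, hA, B, hB', hAB⟩ := hev
  obtain ⟨K, hK⟩ := Filter.mem_atTop_sets.1 hA
  obtain ⟨K', hK'⟩ := Filter.eventually_atTop.1 hev0
  obtain ⟨r1, hr1, hBr⟩ := Metric.mem_nhds_iff.1 hB'
  obtain ⟨r2, hr2, hBr2⟩ := Metric.mem_nhds_iff.1
    ((isOpen_ball : IsOpen (ball (0 : ℂ) 1)).mem_nhds (ball_subset_ball (by norm_num) hη0))
  refine ⟨η0, min r1 r2, lt_min hr1 hr2, (ball_subset_ball (min_le_right _ _)).trans hBr2, ?_⟩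
  intro ρ hρ
  obtain ⟨K2, hK2⟩ := Filter.eventually_atTop.1 (hρ0.eventually (eventually_le_nhds hρ))
  obtain ⟨k, hk1, hk2, hk3⟩ : ∃ k : ℕ, K ≤ k ∧ K' ≤ k ∧ K2 ≤ k :=
    ⟨K + K' + K2, by omega, by omega, by omega⟩
  have hσk : k ≤ σ k := hσ.le_apply
  refine ⟨ρs (σ k), hρs _, hK2 _ (hk3.trans hσk), ?_⟩
  intro η hη
  have h1 : (k, η) ∈ A ×ˢ B := ⟨hK k hk1, hBr (ball_subset_ball (min_le_left _ _) hη)⟩
  exact hK' (σ k) (hk2.trans hσk) η (hBr2 (ball_subset_ball (min_le_right _ _) hη)) (hAB h1)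

/-- the directions outside the ray are dense -/
theorem ray_dense {α : ℂ} {q : ℕ} (hα : α ≠ 0) (hq : 1 ≤ q) :
    Dense {z : ℂ | (α * z ^ q).re < ‖α * z ^ q‖} := by
  have h1 : interior {z : ℂ | ‖α * z ^ q‖ ≤ (α * z ^ q).re} = ∅ := by
    by_contra h
    have h2 : (interior {z : ℂ | ‖α * z ^ q‖ ≤ (α * z ^ q).re}).Nonempty :=
      Set.nonempty_iff_ne_empty.2 h
    have h3 := isOpen_interior.measure_pos MeasureTheory.volume h2
    have h4 := MeasureTheory.measure_mono_null interior_subset (ray_null hα hq)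
    exact absurd h4 h3.ne'
  have h2 := interior_eq_empty_iff_dense_compl.1 h1
  have h3 : {z : ℂ | ‖α * z ^ q‖ ≤ (α * z ^ q).re}ᶜ = {z : ℂ | (α * z ^ q).re < ‖α * z ^ q‖} := by
    ext z
    simp
  rwa [h3] at h2

theorem fat_compl (X : PsA) (hd : Dense X.Jᶜ) {x : ℂ} (hx : x ∈ X.J)
    (hxP : ∀ n, X.f^[n] x ∉ X.Pa) : ∃ (η0 : ℂ) (r : ℝ), 0 < r ∧
    ball η0 r ⊆ ball 0 1 ∧ ∀ ρ : ℝ, 0 < ρ → ∃ ρ' : ℝ, 0 < ρ' ∧ ρ' ≤ ρ ∧
      ∀ η ∈ ball η0 r, x + ρ' * η ∉ X.J := by
  obtain ⟨s0, c0, R, hs0, hc0, hbl⟩ := blow X.toPs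
  have hk : ∀ k : ℕ, (0 : ℝ) < 1 / ((k : ℝ) + 1) := fun k => Nat.one_div_pos_of_nat
  choose ρs is al hρs hρle hal hdiff hbd hdd hex using
    fun k : ℕ => hbl x hx hxP (1 / ((k : ℝ) + 1)) (hk k)
  have hρ0 : Tendsto ρs atTop (𝓝 0) :=
    squeeze_zero (fun k => (hρs k).le) hρle tendsto_one_div_add_atTop_nhds_zero_nat
  have hmap : ∀ k, ∀ η ∈ ball (0 : ℂ) 1, x + (ρs k : ℂ) * η ∈ ball x (ρs k) := by
    intro k η hη
    rw [mem_ball_zero_iff] at hη
    rw [mem_ball, dist_eq_norm, add_sub_cancel_left, norm_mul, Complex.norm_real,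
      Real.norm_of_nonneg (hρs k).le]
    exact mul_lt_of_lt_one_right (hρs k) hη
  have hex2 : ∀ k, ∃ η ∈ ball (0 : ℂ) (1 / 2), s0 * al k ≤
      ‖X.f^[is k] (x + (ρs k : ℂ) * η) - X.f^[is k] (x + (ρs k : ℂ) * 0)‖ := by
    intro k
    obtain ⟨u, hu, hu2⟩ := hex k
    have hne : (ρs k : ℂ) ≠ 0 := Complex.ofReal_ne_zero.2 (hρs k).ne'
    refine ⟨(u - x) / (ρs k : ℂ), ?_, ?_⟩
    · rw [mem_ball, dist_eq_norm] at hu
      rw [mem_ball_zero_iff, norm_div, Complex.norm_real, Real.norm_of_nonneg (hρs k).le,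
        div_lt_iff₀ (hρs k)]
      linarith
    · have e1 : x + (ρs k : ℂ) * ((u - x) / (ρs k : ℂ)) = u := by
        rw [mul_div_cancel₀ _ hne]
        ring
      have e2 : x + (ρs k : ℂ) * 0 = x := by ring
      rw [e1, e2]
      exact hu2
  have hdf : ∀ k, DifferentiableOn ℂ (fun η => X.f^[is k] (x + (ρs k : ℂ) * η)) (ball 0 1) :=
    fun k => (hdiff k).comp (by fun_prop) (hmap k)
  have hinJ : ∀ (k : ℕ) (η : ℂ), X.f^[is k] (x + (ρs k : ℂ) * η) ∉ X.J →
      x + (ρs k : ℂ) * η ∉ X.J := fun k η h h1 => h (it_J X.toPs h1 _)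
  by_cases hlim : Tendsto al atTop (𝓝 0)
  · -- the orbit comes near a parabolic point
    have hddt : Tendsto (fun k => X.toPs.dd (X.f^[is k] x)) atTop (𝓝 0) := by
      refine squeeze_zero (fun k => dd_nonneg X.toPs _) (fun k => ?_)
        (by simpa using hlim.div_const c0)
      rw [le_div_iff₀ hc0]
      have := hdd k
      linarith
    have hev : ∀ᶠ k in atTop, ∃ p ∈ X.Pa, X.toPs.dd (X.f^[is k] x) = ‖X.f^[is k] x - p‖ := by
      filter_upwards [hddt.eventually (eventually_lt_nhds one_pos)] with k hk1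
      rcases dd_ex X.toPs (X.f^[is k] x) with h1 | h1
      · rw [h1] at hk1
        exact absurd hk1 (lt_irrefl _)
      · exact h1
    obtain ⟨p, hp, hfr⟩ : ∃ p ∈ X.Pa, ∃ᶠ k in atTop,
        X.toPs.dd (X.f^[is k] x) = ‖X.f^[is k] x - p‖ := by
      by_contra hcon
      push Not at hcon
      have h1 : ∀ᶠ k in atTop, ∀ p ∈ X.Pa, X.toPs.dd (X.f^[is k] x) ≠ ‖X.f^[is k] x - p‖ := by
        rw [Filter.eventually_all_finset]
        exact fun p hp => by simpa using hcon p hp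
      obtain ⟨k, ⟨p, hp, h2⟩, h3⟩ := (hev.and h1).exists
      exact h3 p hp h2
    obtain ⟨σ, hσ, hσ2⟩ := Filter.extraction_of_frequently_atTop hfr
    have halσ := hlim.comp hσ.tendsto_atTop
    have hane : ∀ k, (al k : ℂ) ≠ 0 := fun k => Complex.ofReal_ne_zero.2 (hal k).ne'
    have hqp := X.hqp p hp
    have hap := X.hap p hp
    refine fat_aux (h := fun k η => (X.f^[is (σ k)] (x + (ρs (σ k) : ℂ) * η) - p) / (al (σ k) : ℂ))
      (s0 := s0) (R := 1 + 1 / c0) (ρs := fun k => ρs (σ k)) hs0 (fun k => hρs _)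
      (hρ0.comp hσ.tendsto_atTop) (fun k => ((hdf _).sub_const p).div_const _) ?_ ?_
      (ray_dense hap hqp) ?_
    · intro k η hη
      have h1 := (hbd (σ k) _ (hmap (σ k) η hη)).2
      have h2 : ‖X.f^[is (σ k)] x - p‖ ≤ al (σ k) / c0 := by
        rw [← hσ2 k, le_div_iff₀ hc0]
        have := hdd (σ k)
        linarith
      rw [norm_div, Complex.norm_real, Real.norm_of_nonneg (hal _).le, div_le_iff₀ (hal _)]
      have h3 : X.f^[is (σ k)] (x + (ρs (σ k) : ℂ) * η) - p =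
          (X.f^[is (σ k)] (x + (ρs (σ k) : ℂ) * η) - X.f^[is (σ k)] x) +
            (X.f^[is (σ k)] x - p) := by ring
      rw [h3]
      refine (norm_add_le _ _).trans ?_
      have h4 : (1 + 1 / c0) * al (σ k) = al (σ k) + al (σ k) / c0 := by
        ring
      rw [h4]
      exact add_le_add h1 h2
    · intro k
      obtain ⟨η, hη, h1⟩ := hex2 (σ k)
      refine ⟨η, hη, ?_⟩
      rw [← sub_div, sub_sub_sub_cancel_right, norm_div, Complex.norm_real,
        Real.norm_of_nonneg (hal _).le, le_div_iff₀ (hal _)]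
      exact h1
    · intro y hy
      have hy : (X.ap p * y ^ X.qp p).re < ‖X.ap p * y ^ X.qp p‖ := hy
      have hyn : 0 < ‖X.ap p * y ^ X.qp p‖ := by
        by_contra h0
        have h1 : ‖X.ap p * y ^ X.qp p‖ = 0 := le_antisymm (not_lt.1 h0) (norm_nonneg _)
        rw [norm_eq_zero.1 h1] at hy
        simp at hy
      obtain ⟨ε, hε, hyε⟩ : ∃ ε : ℝ, 0 < ε ∧
          (X.ap p * y ^ X.qp p).re < (1 - ε) * ‖X.ap p * y ^ X.qp p‖ := by
        refine ⟨(‖X.ap p * y ^ X.qp p‖ - (X.ap p * y ^ X.qp p).re) /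
          (2 * ‖X.ap p * y ^ X.qp p‖), div_pos (by linarith) (by positivity), ?_⟩
        have h1 : (1 - (‖X.ap p * y ^ X.qp p‖ - (X.ap p * y ^ X.qp p).re) /
          (2 * ‖X.ap p * y ^ X.qp p‖)) * ‖X.ap p * y ^ X.qp p‖ =
            (‖X.ap p * y ^ X.qp p‖ + (X.ap p * y ^ X.qp p).re) / 2 := by
          field_simp
          ring
        rw [h1]
        linarith
      obtain ⟨r, hr, hcon⟩ := X.con p hp ε hε
      refine ⟨{z : ℂ | (X.ap p * z ^ X.qp p).re < (1 - ε) * ‖X.ap p * z ^ X.qp p‖}, ?_, ?_⟩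
      · refine (isOpen_lt ?_ ?_).mem_nhds hyε
        · exact Complex.continuous_re.comp (by fun_prop)
        · fun_prop
      · have h1 : Tendsto (fun k => (1 + 1 / c0) * al (σ k)) atTop (𝓝 0) := by
          simpa using halσ.const_mul (1 + 1 / c0)
        filter_upwards [h1.eventually (eventually_lt_nhds hr)] with k hk1
        intro η hη hmem
        have hmem : (X.ap p * ((X.f^[is (σ k)] (x + (ρs (σ k) : ℂ) * η) - p) / (al (σ k) : ℂ)) ^
            X.qp p).re < (1 - ε) * ‖X.ap p * ((X.f^[is (σ k)] (x + (ρs (σ k) : ℂ) * η) - p) /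
              (al (σ k) : ℂ)) ^ X.qp p‖ := hmem
        apply hinJ
        intro hJ
        rw [X.hAJ] at hJ
        have hA : X.f^[is (σ k)] (x + (ρs (σ k) : ℂ) * η) ∈ X.A := by
          have hz : X.f^[is (σ k)] (x + (ρs (σ k) : ℂ) * η) - p = (al (σ k) : ℂ) *
              ((X.f^[is (σ k)] (x + (ρs (σ k) : ℂ) * η) - p) / (al (σ k) : ℂ)) := by
            rw [mul_div_cancel₀ _ (hane _)]
          refine hcon _ ?_ ?_ ?_
          · rw [mem_ball, dist_eq_norm]
            refine lt_of_le_of_lt ?_ hk1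
            have h3 := (hbd (σ k) _ (hmap (σ k) η hη)).2
            have h2 : ‖X.f^[is (σ k)] x - p‖ ≤ al (σ k) / c0 := by
              rw [← hσ2 k, le_div_iff₀ hc0]
              have := hdd (σ k)
              linarith
            have h4 : X.f^[is (σ k)] (x + (ρs (σ k) : ℂ) * η) - p =
                (X.f^[is (σ k)] (x + (ρs (σ k) : ℂ) * η) - X.f^[is (σ k)] x) +
                  (X.f^[is (σ k)] x - p) := by ring
            rw [h4]
            refine (norm_add_le _ _).trans ((add_le_add h3 h2).trans (le_of_eq ?_))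
            ring
          · intro h0
            rw [h0, sub_self, zero_div, zero_pow (by omega), mul_zero] at hmem
            simp at hmem
          · rw [hz, mul_pow, ← mul_assoc, mul_comm (X.ap p), mul_assoc, ← Complex.ofReal_pow,
              Complex.re_ofReal_mul, norm_mul, Complex.norm_real,
              Real.norm_of_nonneg (pow_nonneg (hal _).le _)]
            have h5 : 0 < al (σ k) ^ X.qp p := pow_pos (hal _) _
            have h6 := mul_le_mul_of_nonneg_left hmem.le h5.le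
            linarith
        rw [X.hAo.frontier_eq] at hJ
        exact hJ.2 hA
  · -- macroscopic size
    obtain ⟨s, hs, hfr⟩ : ∃ s : ℝ, 0 < s ∧ ∃ᶠ k in atTop, s ≤ al k := by
      by_contra hcon
      push Not at hcon
      apply hlim
      rw [Metric.tendsto_atTop']
      intro ε hε
      have h1 := hcon ε hε
      rw [Filter.eventually_atTop] at h1
      obtain ⟨N, hN⟩ := h1
      refine ⟨N, fun k hk => ?_⟩
      rw [Real.dist_eq, sub_zero, abs_of_pos (hal k)]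
      exact hN k hk.le
    obtain ⟨σ, hσ, hσ2⟩ := Filter.extraction_of_frequently_atTop hfr
    refine fat_aux (h := fun k η => X.f^[is (σ k)] (x + (ρs (σ k) : ℂ) * η))
      (s0 := s0 * s) (R := R) (ρs := fun k => ρs (σ k)) (by positivity) (fun k => hρs _)
      (hρ0.comp hσ.tendsto_atTop) (fun k => hdf _)
      (fun k η hη => (hbd (σ k) _ (hmap (σ k) η hη)).1) ?_ hd ?_
    · intro k
      obtain ⟨η, hη, h1⟩ := hex2 (σ k)
      exact ⟨η, hη, (mul_le_mul_of_nonneg_left (hσ2 k) hs0.le).trans h1⟩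
    · intro y hy
      refine ⟨X.Jᶜ, X.hJ.isClosed.isOpen_compl.mem_nhds hy, Filter.Eventually.of_forall ?_⟩
      intro k η hη hmem
      exact hinJ _ _ hmem

end Pool.Agent.H44.DP
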