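import Pool.Agent.H44.DP.NUL2
import Pool.Agent.H44.DP.FA5

/-!
# Module NUL3: `J` has measure zero

Lebesgue's density theorem and `fat_compl`; the points of `J` whose orbit meets `Pa` are countable.
-/

set_option autoImplicit false

open Filter Topology Metric Set

namespace Pool.Agent.H44.DP

/-- the fibres of `f` in `J` are finite -/
theorem fib_fin (D : Ps) (y : ℂ) : {x : ℂ | x ∈ D.J ∧ D.f x = y}.Finite := by
  by_contra hinf
  obtain ⟨x, hx, hacc⟩ := Set.Infinite.exists_accPt_of_subset_isCompact (K := D.J) hinf D.hJ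
    (fun z hz => hz.1)
  have hδ := D.hδ
  have hxt : x ∈ thickening D.δ D.J := J_th D hx hδ
  have han : AnalyticAt ℂ D.f x :=
    (D.hf.analyticOnNhd D.hG) x (D.hU hxt)
  have hfr : ∃ᶠ z in 𝓝[≠] x, D.f z = y := by
    rw [accPt_iff_frequently_nhdsNE] at hacc
    exact hacc.mono fun z hz => hz.2
  have hev : ∀ᶠ z in 𝓝 x, D.f z = y :=
    (AnalyticAt.frequently_eq_iff_eventually_eq han analyticAt_const).1 hfr
  have hd0 : ∀ᶠ z in 𝓝 x, deriv D.f z = 0 := by
    filter_upwards [hev.eventually_nhds] with z hz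
    have h1 : D.f =ᶠ[𝓝 z] fun _ => y := hz
    rw [h1.deriv_eq, deriv_const]
  have hcr : ∀ᶠ z in 𝓝 x, z ∈ D.Cr := by
    filter_upwards [hd0, isOpen_thickening.mem_nhds hxt] with z h1 h2
    exact (D.hcr z h2).1 h1
  have h3 : (D.Cr : Set ℂ) ∈ 𝓝 x := hcr
  exact (infinite_of_mem_nhds x h3) D.Cr.finite_toSet

/-- the points of `J` which arrive in `Pa` at the time `n` -/
theorem hit_fin (D : Ps) (n : ℕ) : {x : ℂ | x ∈ D.J ∧ D.f^[n] x ∈ D.Pa}.Finite := by
  induction n with
  | zero => exact D.Pa.finite_toSet.subset fun x hx => hx.2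
  | succ n ih =>
    have h1 : {x : ℂ | x ∈ D.J ∧ D.f^[n + 1] x ∈ D.Pa} ⊆
        ⋃ y ∈ {y : ℂ | y ∈ D.J ∧ D.f^[n] y ∈ D.Pa}, {x : ℂ | x ∈ D.J ∧ D.f x = y} := by
      rintro x ⟨hx, hx2⟩
      rw [mem_iUnion₂]
      exact ⟨D.f x, ⟨D.hJf x hx, by rwa [Function.iterate_succ_apply] at hx2⟩, hx, rfl⟩
    exact (ih.biUnion fun y _ => fib_fin D y).subset h1

open MeasureTheory in
theorem hit_null (D : Ps) : volume {x : ℂ | x ∈ D.J ∧ ∃ n, D.f^[n] x ∈ D.Pa} = 0 := by
  have h1 : {x : ℂ | x ∈ D.J ∧ ∃ n, D.f^[n] x ∈ D.Pa} =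
      ⋃ n : ℕ, {x : ℂ | x ∈ D.J ∧ D.f^[n] x ∈ D.Pa} := by
    ext x
    simp
  rw [h1, measure_iUnion_null_iff]
  exact fun n => (hit_fin D n).measure_zero _

theorem J_dense (X : PsA) : Dense X.Jᶜ := by
  rw [← interior_eq_empty_iff_dense_compl]
  have h1 : X.J ⊆ X.Aᶜ := fun z hz => (J_compl X z).1 hz
  have h2 : interior X.J ⊆ interior X.Aᶜ := interior_mono h1
  have h3 : interior X.Aᶜ = ∅ := ee_empty X
  rw [h3] at h2
  exact subset_empty_iff.1 h2

open MeasureTheory in
theorem null_J (X : PsA) : volume X.J = 0 := by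
  classical
  have hmeas : MeasurableSet X.J := X.hJ.isClosed.measurableSet
  have hae := Besicovitch.ae_tendsto_measure_inter_div_of_measurableSet (volume : Measure ℂ) hmeas
  have hsub : X.J ⊆ {x : ℂ | x ∈ X.J ∧ ∃ n, X.f^[n] x ∈ X.Pa} ∪
      {x : ℂ | ¬ Tendsto (fun r => volume (X.J ∩ closedBall x r) /
        volume (closedBall x r)) (𝓝[>] 0) (𝓝 (X.J.indicator 1 x))} := by
    intro x hx
    by_cases hxP : ∃ n, X.f^[n] x ∈ X.Pa
    · exact Or.inl ⟨hx, hxP⟩
    right
    intro hlim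
    push Not at hxP
    rw [indicator_of_mem hx, Pi.one_apply] at hlim
    obtain ⟨η0, r, hr, hball, hfat⟩ := fat_compl X (J_dense X) hx hxP
    have hr0 : ENNReal.ofReal r ^ 2 ≠ 0 := pow_ne_zero 2 (ENNReal.ofReal_pos.2 hr).ne'
    have hfr : ∃ᶠ ρ in 𝓝[>] (0 : ℝ), volume (X.J ∩ closedBall x ρ) / volume (closedBall x ρ) +
        ENNReal.ofReal r ^ 2 ≤ 1 := by
      rw [Filter.frequently_iff]
      intro U hU
      obtain ⟨ε, hε, hεU⟩ := mem_nhdsGT_iff_exists_Ioo_subset.1 hU
      obtain ⟨ρ, hρ0, hρε, hout⟩ := hfat (ε / 2) (half_pos hε)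
      have hε0 : (0 : ℝ) < ε := hε
      refine ⟨ρ, hεU ⟨hρ0, by linarith⟩, ?_⟩
      have hv0 : volume (closedBall x ρ) ≠ 0 := (measure_closedBall_pos _ _ hρ0).ne'
      have hvt : volume (closedBall x ρ) ≠ ⊤ := measure_closedBall_lt_top.ne
      have hsm : ball (x + (ρ : ℂ) * η0) (ρ * r) ⊆ closedBall x ρ ∧
          Disjoint (X.J ∩ closedBall x ρ) (ball (x + (ρ : ℂ) * η0) (ρ * r)) := by
        have hne : (ρ : ℂ) ≠ 0 := Complex.ofReal_ne_zero.2 hρ0.ne'
        have hrep : ∀ z ∈ ball (x + (ρ : ℂ) * η0) (ρ * r), ∃ η ∈ ball η0 r,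
            z = x + (ρ : ℂ) * η := by
          intro z hz
          refine ⟨(z - x) / (ρ : ℂ), ?_, by field_simp; ring⟩
          rw [mem_ball, dist_eq_norm] at hz ⊢
          have h1 : (z - x) / (ρ : ℂ) - η0 = (z - (x + (ρ : ℂ) * η0)) / (ρ : ℂ) := by
            field_simp
            ring
          rw [h1, norm_div, Complex.norm_real, Real.norm_of_nonneg hρ0.le, div_lt_iff₀ hρ0]
          linarith
        refine ⟨?_, ?_⟩
        · intro z hz
          obtain ⟨η, hη, rfl⟩ := hrep z hz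
          have h1 := mem_ball_zero_iff.1 (hball hη)
          rw [mem_closedBall, dist_eq_norm, add_sub_cancel_left, norm_mul, Complex.norm_real,
            Real.norm_of_nonneg hρ0.le]
          exact mul_le_of_le_one_right hρ0.le h1.le
        · rw [Set.disjoint_left]
          rintro z ⟨hzJ, -⟩ hz
          obtain ⟨η, hη, rfl⟩ := hrep z hz
          exact hout η hη hzJ
      have hsum : volume (X.J ∩ closedBall x ρ) + volume (ball (x + (ρ : ℂ) * η0) (ρ * r)) ≤
          volume (closedBall x ρ) := by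
        rw [← measure_union hsm.2 measurableSet_ball]
        exact measure_mono (union_subset inter_subset_right hsm.1)
      have hvb : volume (ball (x + (ρ : ℂ) * η0) (ρ * r)) =
          ENNReal.ofReal r ^ 2 * volume (closedBall x ρ) := by
        rw [Complex.volume_ball, Complex.volume_closedBall, ENNReal.ofReal_mul hρ0.le]
        ring
      rw [hvb] at hsum
      have h2 := ENNReal.div_le_div_right hsum (volume (closedBall x ρ))
      rwa [ENNReal.add_div, ENNReal.mul_div_cancel_right hv0 hvt, ENNReal.div_self hv0 hvt] at h2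
    have h3 := le_of_tendsto_of_frequently (hlim.add_const (ENNReal.ofReal r ^ 2)) hfr
    have h4 : (1 : ENNReal) < 1 + ENNReal.ofReal r ^ 2 :=
      ENNReal.lt_add_right ENNReal.one_ne_top hr0
    exact absurd h3 (not_le.2 h4)
  exact measure_mono_null hsub (measure_union_null (hit_null X.toPs) (ae_iff.1 hae))

end Pool.Agent.H44.DP
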