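import Pool.Agent.H44.DP.BRU

/-!
# Module OBS1: the obstruction is a critical point

PROOF. Let `i ≤ n` be maximal such that some `g` satisfies `Br D x n i (2 * r) g` (`br_zero` for `i = 0`; `Nat.findGreatest` or induction); `i < n` since `UU D x n (2 r)` fails. `D.cn` with `i`, the centre `f^[n] x`, the radius `2 r Del (i+1)` (`≤ 2 r Del i`, and `≤ 2 r ≤ δ`: the ball is in `thickening δ J`), `g i` (hypothesis by `br_it` with `0 + i`), `u0 = f^[n - 1 - i] x` (`∈ J ⊆ G`, `f u0 = f^[n - i] x = g i (f^[n] x)` by `Br.val`, `deriv f u0 ≠ 0` by `D.hcr`).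
First alternative: the family `g` with `g (i + 1)` replaced by `h` satisfies `Br D x n (i + 1) (2 r)`, against the maximality. Second alternative: everything except `r * Del (i+1) ≤ ρ`. Suppose `ρ < r Del (i+1)`, and let `g'` be the family of `UU D x n r`. `g i = g' i` on `ball (r Del i)` (`br_uniq`), and the function `g'(i+1)` satisfies `f (g' (i+1) w) = g' i w = g i w`; it agrees with `hh` on `ball (f^[n] x) ρ` (`lift_uniq`). Hence `g' (i+1) b = c` (limit; `b ∈ ball (r Del (i+1))`, continuity), but `deriv f (g' (i+1) b) ≠ 0` because `f ∘ g'(i+1) = g i` near `b` and `deriv (g i) b ≠ 0` (`br_der`), while `deriv f c = 0` (`D.hcr`).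
-/

set_option autoImplicit false

open Filter Topology Metric Set

namespace Pool.Agent.H44.DP

theorem obs1 {D : Ps} {x : ℂ} (hx : NC D x) {n : ℕ} {r : ℝ} (hr : 0 < r) (hrδ : 2 * r ≤ D.δ)
    (hrV : 2 * r ≤ D.ϑ * D.dd (D.f^[n] x))
    (h : UU D x n r) (h' : ¬ UU D x n (2 * r)) :
    ∃ (i : ℕ) (g : ℕ → ℂ → ℂ) (ρ : ℝ) (b c : ℂ) (hh : ℂ → ℂ), i < n ∧ Br D x n i (2 * r) g ∧
      c ∈ D.Cr ∧ ‖b - D.f^[n] x‖ = ρ ∧ r * Del (i + 1) ≤ ρ ∧ ρ < 2 * r * Del (i + 1) ∧
      g i b = D.f c ∧ DifferentiableOn ℂ hh (ball (D.f^[n] x) ρ) ∧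
      hh (D.f^[n] x) = D.f^[n - 1 - i] x ∧
      (∀ w ∈ ball (D.f^[n] x) ρ, hh w ∈ D.G ∧ D.f (hh w) = g i w) ∧
      Tendsto hh (𝓝[ball (D.f^[n] x) ρ] b) (𝓝 c) := by
  have hxJ : ∀ k, D.f^[k] x ∈ D.J := fun k => it_J D hx.1 k
  have hJG : ∀ z ∈ D.J, z ∈ thickening D.δ D.J := fun z hz => self_subset_thickening D.hδ _ hz
  have h2r : 0 < 2 * r := by linarith
  have hDel : ∀ j, 0 < Del j := fun j => by linarith [del_half j]
  -- the maximal index
  obtain ⟨i, hin, ⟨g, hg⟩, hmax⟩ : ∃ i, i < n ∧ (∃ g, Br D x n i (2 * r) g) ∧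
      ¬ ∃ g, Br D x n (i + 1) (2 * r) g := by
    by_contra hcon
    push Not at hcon
    have key : ∀ i, i ≤ n → ∃ g, Br D x n i (2 * r) g := by
      intro i
      induction i with
      | zero => intro _; exact ⟨_, br_zero hx n h2r hrδ⟩
      | succ i ih =>
        intro hi
        exact hcon i (by omega) (ih (by omega))
    exact h' (key n le_rfl)
  have hDs : 2 * r * Del (i + 1) ≤ 2 * r * Del i :=
    mul_le_mul_of_nonneg_left (del_anti (Nat.le_succ i)) h2r.le
  have hsub : ball (D.f^[n] x) (2 * r * Del (i + 1)) ⊆ ball (D.f^[n] x) (2 * r * Del i) :=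
    ball_subset_ball hDs
  have hu0 : D.f^[n - 1 - i] x ∈ D.G := D.hU (hJG _ (hxJ _))
  have hfu0 : D.f (D.f^[n - 1 - i] x) = g i (D.f^[n] x) := by
    rw [hg.val i le_rfl, ← Function.iterate_succ_apply' D.f]
    congr 1
    omega
  have hdu0 : deriv D.f (D.f^[n - 1 - i] x) ≠ 0 := by
    intro h0
    exact hx.2 _ (cr_S D ((D.hcr _ (hJG _ (hxJ _))).mp h0))
  have hit : ∀ w ∈ ball (D.f^[n] x) (2 * r * Del (i + 1)), D.f^[i] (g i w) = w ∧
      ∀ j < i, D.f^[j] (g i w) ∈ D.G := by
    intro w hw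
    have hw' : w ∈ ball (D.f^[n] x) (2 * r * Del i) := hsub hw
    have hw'' : w ∈ ball (D.f^[n] x) (2 * r * Del (0 + i)) := by rwa [zero_add]
    have h1 := br_it hg h2r (i := 0) (j := i) (by omega) hw''
    rw [zero_add] at h1
    exact ⟨br_id hg h2r le_rfl hw', fun j hj => h1.2 j hj.le⟩
  have hball : ball (D.f^[n] x) (2 * r * Del (i + 1)) ⊆ D.V := by
    intro w hw
    have h1 := mem_ball.mp (brf_one h2r (i + 1) hw)
    rw [dist_eq_norm] at h1
    exact D.hV1 (D.hVJ _ (hxJ n) (fun h => hx.2 n (pa_S D h)) w (lt_of_lt_of_le h1 hrV))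
  have hcn := D.cn i (D.f^[n] x) (2 * r * Del (i + 1)) (g i) (D.f^[n - 1 - i] x)
    (mul_pos h2r (hDel _)) hball ((hg.diff i le_rfl).mono hsub) hit hu0 hfu0 hdu0
  rcases hcn with ⟨hh, hd, hv, hm⟩ | ⟨ρ, b, c, hh, hρ0, hρ, hb, hc, hgb, hd, hv, hm, hlim⟩
  · -- the branch continues
    exfalso
    apply hmax
    have hne : ∀ j, j ≤ i → j ≠ i + 1 := fun j hj => by omega
    refine ⟨fun j => if j = i + 1 then hh else g j, ?_⟩
    refine
      { le := by omega
        zero := ?_
        diff := ?_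
        val := ?_
        mem := ?_
        step := ?_ }
    · intro w hw
      simp only [if_neg (hne 0 (Nat.zero_le i))]
      exact hg.zero w hw
    · intro j hj
      by_cases hj1 : j = i + 1
      · subst hj1
        simp only [if_true]
        exact hd
      · simp only [if_neg hj1]
        exact hg.diff j (by omega)
    · intro j hj
      by_cases hj1 : j = i + 1
      · subst hj1
        simp only [if_true]
        rw [hv]
        congr 1
        omega
      · simp only [if_neg hj1]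
        exact hg.val j (by omega)
    · intro j hj w hw
      by_cases hj1 : j = i + 1
      · subst hj1
        simp only [if_true]
        exact (hm w hw).1
      · simp only [if_neg hj1]
        exact hg.mem j (by omega) w hw
    · intro j hj w hw
      by_cases hj1 : j = i
      · subst hj1
        simp only [if_true, if_neg (hne j le_rfl)]
        exact (hm w hw).2
      · have h1 : j + 1 ≠ i + 1 := by omega
        have h2 : j ≠ i + 1 := by omega
        simp only [if_neg h1, if_neg h2]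
        exact hg.step j (by omega) w hw
  · refine ⟨i, g, ρ, b, c, hh, hin, hg, hc, hb, ?_, hρ, hgb, hd, hv, hm, hlim⟩
    by_contra hcon
    push Not at hcon
    obtain ⟨g', hg'⟩ := h
    have hin' : i + 1 ≤ n := hin
    have hag : ∀ w ∈ ball (D.f^[n] x) (r * Del i), g i w = g' i w := by
      intro w hw
      refine br_uniq hg hg' h2r hr le_rfl (by omega) ?_ hw
      refine ball_subset_ball ?_ hw
      have := mul_pos hr (hDel i)
      linarith
    have hs1 : ball (D.f^[n] x) (r * Del (i + 1)) ⊆ ball (D.f^[n] x) (r * Del i) :=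
      brf_sub hr (Nat.le_succ i)
    have hs2 : ball (D.f^[n] x) ρ ⊆ ball (D.f^[n] x) (r * Del (i + 1)) :=
      ball_subset_ball hcon.le
    have hs3 : ball (D.f^[n] x) (r * Del i) ⊆ ball (D.f^[n] x) (2 * r * Del i) := by
      refine ball_subset_ball ?_
      have := mul_pos hr (hDel i)
      linarith
    have hst : ∀ w ∈ ball (D.f^[n] x) (r * Del (i + 1)),
        g' (i + 1) w ∈ D.G ∧ D.f (g' (i + 1) w) = g i w := by
      intro w hw
      refine ⟨hg'.mem _ hin' w hw, ?_⟩
      rw [hg'.step i (by omega) w hw, hag w (hs1 hw)]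
    have hder : ∀ w ∈ ball (D.f^[n] x) (r * Del i), deriv (g i) w ≠ 0 := by
      intro w hw h0
      have h1 := br_der hg h2r le_rfl (hs3 hw)
      rw [h0, mul_zero] at h1
      exact zero_ne_one h1
    have heq : ∀ w ∈ ball (D.f^[n] x) ρ, hh w = g' (i + 1) w := by
      refine lift_uniq (D := D) (g := g i) hρ0 (fun w hw => hder w (hs1 (hs2 hw))) hd
        ((hg'.diff _ hin').mono hs2) hm (fun w hw => hst w (hs2 hw)) ?_
      rw [hv, hg'.val _ hin']
      congr 1
      omega
    have hbm : b ∈ ball (D.f^[n] x) (r * Del (i + 1)) := by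
      rw [mem_ball, dist_eq_norm, hb]
      exact hcon
    have hdiffb : DifferentiableAt ℂ (g' (i + 1)) b :=
      (hg'.diff _ hin').differentiableAt (isOpen_ball.mem_nhds hbm)
    have hne : (𝓝[ball (D.f^[n] x) ρ] b).NeBot := by
      rw [← mem_closure_iff_nhdsWithin_neBot, closure_ball _ hρ0.ne', mem_closedBall,
        dist_eq_norm, hb]
    have hlim' : Tendsto hh (𝓝[ball (D.f^[n] x) ρ] b) (𝓝 (g' (i + 1) b)) := by
      have h1 : Tendsto (g' (i + 1)) (𝓝[ball (D.f^[n] x) ρ] b) (𝓝 (g' (i + 1) b)) :=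
        hdiffb.continuousAt.tendsto.mono_left nhdsWithin_le_nhds
      refine h1.congr' ?_
      filter_upwards [self_mem_nhdsWithin] with w hw
      exact (heq w hw).symm
    have hgc : g' (i + 1) b = c := tendsto_nhds_unique hlim' hlim
    have hdc : deriv D.f c = 0 := (D.hcr c (hJG c (D.hSJ c (cr_S D hc)))).mpr hc
    have hfc : DifferentiableAt ℂ D.f (g' (i + 1) b) := by
      rw [hgc]
      exact D.hf.differentiableAt (D.hG.mem_nhds (D.hU (hJG c (D.hSJ c (cr_S D hc)))))
    have h1 : deriv (D.f ∘ g' (i + 1)) b = deriv D.f (g' (i + 1) b) * deriv (g' (i + 1)) b :=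
      deriv_comp b hfc hdiffb
    have h2 : (D.f ∘ g' (i + 1)) =ᶠ[𝓝 b] g i := by
      filter_upwards [isOpen_ball.mem_nhds hbm] with w hw
      exact (hst w hw).2
    rw [h2.deriv_eq, hgc, hdc, zero_mul] at h1
    exact hder b (hs1 hbm) h1

end Pool.Agent.H44.DP
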