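import Pool.Agent.H44.DP.OBS1
import Pool.Agent.H44.DP.PATH
import Pool.Agent.H44.DN.KOE

/-!
# Module OBS2: estimates at the obstruction

PROOF. `koe` gives `Ck, Nk`. Take the data of `obs1`; `x_j = f^[j] x`, `m = n - 1 - i`, `g = g i` on `ball x_n (2 r Del i)`, injective (`br_inj`), `s = 2 r Del i`, `ρ < 2 r Del (i+1) = s (1 - 1/(i+2)^2)` (`del_succ`), so `1 - ρ / s ≥ 1 / (i+2)^2`. With `P1(i) = Ck (i+2)^(2 Nk)`: for `w ∈ closedBall x_n ρ`: `‖deriv g w‖ ≤ P1 ‖deriv g x_n‖`, `‖deriv g x_n‖ ≤ P1 ‖deriv g w‖`, `‖g w - g x_n‖ ≤ P1 ‖deriv g x_n‖ ρ`, `‖deriv g x_n‖ ρ ≤ Ck ‖g b - g x_n‖`.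
`g x_n = x_(m+1)` (`n - i = m + 1`), `g b = f c`, `f^[i] (f c) = f^[i] (g b) = b`, i.e. `f^[i+1] c = b`: this gives `far`, `near` (`Del (i+1) ≥ 1/2`, `≤ 1`). `br_der` at `b` and at `x_n`: with `D0 = ‖deriv (f^[i]) (f c)‖ = 1 / ‖deriv g b‖`, `D1 = ‖deriv (f^[i]) x_(m+1)‖ = 1 / ‖deriv g x_n‖`: `D0 ≤ P1 D1`, `D1 ≤ P1 D0`. `free`: `deriv (f^[i]) (f c) ≠ 0` (`f^[l] (f c) ∈ G` by `br_it`, chain rule: a critical point among `f^[j] c`, `1 ≤ j ≤ i`, would give `0`).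
So `‖x_(m+1) - f c‖ ≤ P1 ρ / D1 ≤ P1^2 * 2 r / D0` and `≥ ρ / (Ck D1) ≥ r / (2 Ck P1 D0)`. `D.ce3`: `D0 ≥ q^i / C`, so for `w` in the segment from `x_n` to `b`: `‖g w - f c‖ ≤ 2 P1 ρ / D1 ≤ 4 C P1(i)^2 q^(-i) * r ≤ A R0`, `A` a constant (a polynomial times `q^(-i)` is bounded). Let `ε` be given by `path_near` for the radius `min z r0`, and `R0 ≤ ε / A`, `R0 ≤ δ`. `S = hh '' (segment [x_n, b))`: the image of the convex set `{x_n + s (b - x_n) | 0 ≤ s < 1}`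
under the continuous `hh`; `c ∈ closure S` (the limit of `hh` at `b`; the points of the segment are in the ball and tend to `b`); `f (hh w) = g w`. So `x_m = hh x_n ∈ S ⊆ ball c (min z r0)`.
`D.l1`: `‖x_m - c‖ ^ m c ≤ C ‖f x_m - f c‖ = C ‖x_(m+1) - f c‖` and conversely: `d1`, `d2`. `D.l2`, `‖deriv (f^[i+1]) x_m‖ = ‖deriv (f^[i]) x_(m+1)‖ ‖deriv f x_m‖` (`it_add` with `1`, `i`): `‖deriv (f^[i+1]) x_m‖ ‖x_m - c‖ ≤ D1 C ‖x_m - c‖ ^ (m c) ≤ ..`: `d3`, `d4`. All constants are of the form `P0 (i+1)^N0` (`i + 2 ≤ 2 (i+1)`), independent of `z`.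
-/

set_option autoImplicit false

open Filter Topology Metric Set

namespace Pool.Agent.H44.DP

theorem obs2_poly {q : ℝ} (hq : 1 < q) (k : ℕ) : ∃ A : ℝ, 0 < A ∧ ∀ i : ℕ,
    ((i : ℝ) + 2) ^ k ≤ A * q ^ i := by
  have h1 := tendsto_pow_const_div_const_pow_of_one_lt k hq
  obtain ⟨B, hB⟩ := h1.bddAbove_range
  have hq0 : 0 < q := by linarith
  have hB0 : 0 ≤ B := by
    have h2 : (fun n : ℕ => (n : ℝ) ^ k / q ^ n) 1 ≤ B := hB ⟨1, rfl⟩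
    have h3 : 0 ≤ (fun n : ℕ => (n : ℝ) ^ k / q ^ n) 1 := by
      show 0 ≤ ((1 : ℕ) : ℝ) ^ k / q ^ 1
      positivity
    linarith
  refine ⟨(B + 1) * q ^ 2, by positivity, fun i => ?_⟩
  have h2 : (fun n : ℕ => (n : ℝ) ^ k / q ^ n) (i + 2) ≤ B := hB ⟨i + 2, rfl⟩
  have h3 : (((i + 2 : ℕ) : ℝ)) ^ k / q ^ (i + 2) ≤ B := h2
  rw [div_le_iff₀ (by positivity)] at h3
  push_cast at h3
  calc ((i : ℝ) + 2) ^ k ≤ B * q ^ (i + 2) := h3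
    _ ≤ (B + 1) * q ^ (i + 2) := by
        apply mul_le_mul_of_nonneg_right (by linarith) (by positivity)
    _ = (B + 1) * q ^ 2 * q ^ i := by ring

/-- the distortion of the branch up to the obstruction -/
theorem obs2_dist {Ck : ℝ} {Nk : ℕ} (hC1 : 1 ≤ Ck)
    (hk : ∀ (g : ℂ → ℂ) (c : ℂ) (R : ℝ), 0 < R →
    DifferentiableOn ℂ g (ball c R) → InjOn g (ball c R) → ∀ ρ : ℝ, 0 ≤ ρ → ρ < R →
      ∀ z ∈ closedBall c ρ,
        ‖deriv g z‖ * (1 - ρ / R) ^ Nk ≤ Ck * ‖deriv g c‖ ∧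
        ‖deriv g c‖ * (1 - ρ / R) ^ Nk ≤ Ck * ‖deriv g z‖ ∧
        ‖g z - g c‖ * (1 - ρ / R) ^ Nk ≤ Ck * (‖deriv g c‖ * ‖z - c‖) ∧
        ‖deriv g c‖ * ‖z - c‖ ≤ Ck * ‖g z - g c‖)
    {G : ℂ → ℂ} {y : ℂ} {s ρ : ℝ} (i : ℕ) (hs : 0 < s) (hd : DifferentiableOn ℂ G (ball y s))
    (hi : InjOn G (ball y s)) (h0 : 0 < ρ) (h1 : ρ < s * (1 - 1 / ((i : ℝ) + 2) ^ 2)) :
    ∀ w ∈ closedBall y ρ,
      ‖deriv G w‖ ≤ Ck * ((i : ℝ) + 2) ^ (2 * Nk) * ‖deriv G y‖ ∧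
      ‖deriv G y‖ ≤ Ck * ((i : ℝ) + 2) ^ (2 * Nk) * ‖deriv G w‖ ∧
      ‖G w - G y‖ ≤ Ck * ((i : ℝ) + 2) ^ (2 * Nk) * (‖deriv G y‖ * ‖w - y‖) ∧
      ‖deriv G y‖ * ‖w - y‖ ≤ Ck * ((i : ℝ) + 2) ^ (2 * Nk) * ‖G w - G y‖ := by
  have hi2 : (0 : ℝ) < (i : ℝ) + 2 := by positivity
  have hsq : (0 : ℝ) < ((i : ℝ) + 2) ^ 2 := by positivity
  have hρs : ρ < s := by
    have h2 : s * (1 - 1 / ((i : ℝ) + 2) ^ 2) ≤ s * 1 := by
      apply mul_le_mul_of_nonneg_left _ hs.le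
      have : 0 ≤ 1 / ((i : ℝ) + 2) ^ 2 := by positivity
      linarith
    linarith
  have hu : 1 / ((i : ℝ) + 2) ^ 2 ≤ 1 - ρ / s := by
    have h2 : ρ / s < 1 - 1 / ((i : ℝ) + 2) ^ 2 := by
      rw [div_lt_iff₀ hs]
      linarith [mul_comm s (1 - 1 / ((i : ℝ) + 2) ^ 2)]
    linarith
  have hQ : 1 ≤ ((i : ℝ) + 2) ^ (2 * Nk) := one_le_pow₀ (by linarith [Nat.cast_nonneg (α := ℝ) i])
  have hU : 1 ≤ (1 - ρ / s) ^ Nk * ((i : ℝ) + 2) ^ (2 * Nk) := by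
    rw [pow_mul, ← mul_pow]
    apply one_le_pow₀
    have h2 := mul_le_mul_of_nonneg_right hu hsq.le
    rwa [one_div, inv_mul_cancel₀ hsq.ne'] at h2
  have key : ∀ a b : ℝ, 0 ≤ a → a * (1 - ρ / s) ^ Nk ≤ Ck * b →
      a ≤ Ck * ((i : ℝ) + 2) ^ (2 * Nk) * b := by
    intro a b ha h2
    calc a ≤ a * ((1 - ρ / s) ^ Nk * ((i : ℝ) + 2) ^ (2 * Nk)) := le_mul_of_one_le_right ha hU
      _ = (a * (1 - ρ / s) ^ Nk) * ((i : ℝ) + 2) ^ (2 * Nk) := by ring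
      _ ≤ (Ck * b) * ((i : ℝ) + 2) ^ (2 * Nk) := mul_le_mul_of_nonneg_right h2 (by positivity)
      _ = _ := by ring
  intro w hw
  obtain ⟨a1, a2, a3, a4⟩ := hk G y s hs hd hi ρ h0.le hρs w hw
  refine ⟨key _ _ (norm_nonneg _) a1, key _ _ (norm_nonneg _) a2, key _ _ (norm_nonneg _) a3, ?_⟩
  refine a4.trans ?_
  apply mul_le_mul_of_nonneg_right _ (norm_nonneg _)
  exact le_mul_of_one_le_right (by linarith) hQ

/-- the numerical estimates -/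
theorem obs2_num {P e d D0 D1 r ρ t C w0 A : ℝ} {m : ℕ} (hm : 2 ≤ m) (hP : 1 ≤ P) (hr : 0 < r)
    (he : 0 ≤ e) (hd : 0 ≤ d) (hD0 : 0 ≤ D0) (hD1 : 0 ≤ D1) (ht : 0 ≤ t) (hC : 1 ≤ C) (hw : 0 ≤ w0)
    (hA : 0 ≤ A)
    (h0 : D0 * d = 1) (h1 : D1 * e = 1) (a1 : d ≤ P * e) (a2 : e ≤ P * d)
    (a3 : t ≤ P * (e * ρ)) (a4 : e * ρ ≤ P * t) (r1 : r / 2 ≤ ρ) (r2 : ρ ≤ 2 * r)
    (l1 : t ≤ C * w0 ^ m) (l1' : w0 ^ m ≤ C * t)
    (l2 : A ≤ C * w0 ^ (m - 1)) (l2' : w0 ^ (m - 1) ≤ C * A) :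
    w0 ^ m * D0 ≤ 2 * C ^ 2 * P ^ 2 * r ∧ r ≤ 2 * C ^ 2 * P ^ 2 * (w0 ^ m * D0) ∧
    D1 * A * w0 ≤ 2 * C ^ 2 * P ^ 2 * r ∧ r ≤ 2 * C ^ 2 * P ^ 2 * (D1 * A * w0) := by
  have hwm : w0 ^ m = w0 ^ (m - 1) * w0 := by
    rw [← pow_succ]
    congr 1
    omega
  have hPP : P ≤ P ^ 2 := by nlinarith
  have hCC : C ≤ C ^ 2 := by nlinarith
  have hP0 : 0 ≤ P := by linarith
  have hC0 : 0 ≤ C := by linarith
  have hw0 : 0 ≤ w0 ^ m := pow_nonneg hw m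
  have b1 : t ≤ 2 * P * e * r := by
    have h2 : P * (e * ρ) ≤ P * (e * (2 * r)) := by gcongr
    nlinarith
  have b2 : r * e ≤ 2 * P * t := by
    have h2 : e * (r / 2) ≤ e * ρ := by gcongr
    nlinarith
  have c1 : t * D0 ≤ 2 * P ^ 2 * r := by
    calc t * D0 ≤ (2 * P * e * r) * D0 := mul_le_mul_of_nonneg_right b1 hD0
      _ = (2 * P * r * D0) * e := by ring
      _ ≤ (2 * P * r * D0) * (P * d) := mul_le_mul_of_nonneg_left a2 (by positivity)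
      _ = 2 * P ^ 2 * r * (D0 * d) := by ring
      _ = _ := by rw [h0, mul_one]
  have c2 : r ≤ 2 * P ^ 2 * (t * D0) := by
    calc r = r * (D0 * d) := by rw [h0, mul_one]
      _ = (r * D0) * d := by ring
      _ ≤ (r * D0) * (P * e) := mul_le_mul_of_nonneg_left a1 (by positivity)
      _ = (P * D0) * (r * e) := by ring
      _ ≤ (P * D0) * (2 * P * t) := mul_le_mul_of_nonneg_left b2 (by positivity)
      _ = _ := by ring
  have c3 : t * D1 ≤ 2 * P * r := by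
    calc t * D1 ≤ (2 * P * e * r) * D1 := mul_le_mul_of_nonneg_right b1 hD1
      _ = 2 * P * r * (D1 * e) := by ring
      _ = _ := by rw [h1, mul_one]
  have c4 : r ≤ 2 * P * (t * D1) := by
    calc r = D1 * (r * e) := by rw [show D1 * (r * e) = r * (D1 * e) by ring, h1, mul_one]
      _ ≤ D1 * (2 * P * t) := mul_le_mul_of_nonneg_left b2 hD1
      _ = _ := by ring
  refine ⟨?_, ?_, ?_, ?_⟩
  · calc w0 ^ m * D0 ≤ (C * t) * D0 := mul_le_mul_of_nonneg_right l1' hD0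
      _ = C * (t * D0) := by ring
      _ ≤ C ^ 2 * (2 * P ^ 2 * r) := mul_le_mul hCC c1 (by positivity) (by positivity)
      _ = _ := by ring
  · calc r ≤ 2 * P ^ 2 * (t * D0) := c2
      _ ≤ 2 * P ^ 2 * ((C * w0 ^ m) * D0) := by gcongr
      _ = 2 * P ^ 2 * (w0 ^ m * D0) * C := by ring
      _ ≤ 2 * P ^ 2 * (w0 ^ m * D0) * C ^ 2 := mul_le_mul_of_nonneg_left hCC (by positivity)
      _ = _ := by ring
  · calc D1 * A * w0 ≤ D1 * (C * w0 ^ (m - 1)) * w0 := by gcongr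
      _ = D1 * C * w0 ^ m := by rw [hwm]; ring
      _ ≤ D1 * C * (C * t) := mul_le_mul_of_nonneg_left l1' (by positivity)
      _ = C ^ 2 * (t * D1) := by ring
      _ ≤ C ^ 2 * (2 * P * r) := mul_le_mul_of_nonneg_left c3 (by positivity)
      _ = 2 * C ^ 2 * r * P := by ring
      _ ≤ 2 * C ^ 2 * r * P ^ 2 := mul_le_mul_of_nonneg_left hPP (by positivity)
      _ = _ := by ring
  · calc r ≤ 2 * P * (t * D1) := c4
      _ ≤ 2 * P * ((C * w0 ^ m) * D1) := by gcongr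
      _ = 2 * P * C * D1 * w0 * w0 ^ (m - 1) := by rw [hwm]; ring
      _ ≤ 2 * P * C * D1 * w0 * (C * A) := mul_le_mul_of_nonneg_left l2' (by positivity)
      _ = 2 * C ^ 2 * (D1 * A * w0) * P := by ring
      _ ≤ 2 * C ^ 2 * (D1 * A * w0) * P ^ 2 := mul_le_mul_of_nonneg_left hPP (by positivity)
      _ = _ := by ring

/-- no critical point between -/
theorem obs2_free (D : Ps) {c : ℂ} (hc : c ∈ D.J) {i : ℕ} (hG : ∀ l ≤ i, D.f^[l] (D.f c) ∈ D.G)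
    (h : deriv (D.f^[i]) (D.f c) ≠ 0) (j : ℕ) (h1 : 1 ≤ j) (h2 : j ≤ i) : D.f^[j] c ∉ D.Cr := by
  intro h3
  apply h
  obtain ⟨a, rfl⟩ : ∃ a, j = a + 1 := ⟨j - 1, by omega⟩
  obtain ⟨e, rfl⟩ : ∃ e, i = a + (1 + e) := ⟨i - (a + 1), by omega⟩
  have h4 : D.f^[a] (D.f c) = D.f^[a + 1] c := by rw [Function.iterate_succ_apply]
  have h5 : deriv D.f (D.f^[a + 1] c) = 0 :=
    (D.hcr _ (J_th D (it_J D hc _) D.hδ)).2 h3
  rw [it_add D fun l hl => hG l hl.le, h4, it_add D (z := D.f^[a + 1] c) (a := 1) (b := e) ?_]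
  · have h6 : deriv (D.f^[1]) (D.f^[a + 1] c) = deriv D.f (D.f^[a + 1] c) := rfl
    rw [h6, h5, mul_zero, zero_mul]
  · intro l hl
    rw [← h4, ← Function.iterate_add_apply]
    exact hG _ (by omega)

/-- the path ends at the critical point -/
theorem obs2_path {y b c : ℂ} {ρ : ℝ} {hh : ℂ → ℂ} (hρ : 0 < ρ) (hb : ‖b - y‖ = ρ)
    (hd : ContinuousOn hh (ball y ρ)) (ht : Tendsto hh (𝓝[ball y ρ] b) (𝓝 c)) :
    ∃ S : Set ℂ, IsPreconnected S ∧ c ∈ closure S ∧ hh y ∈ S ∧ ∀ u ∈ S, ∃ w ∈ ball y ρ, hh w = u := by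
  obtain ⟨γ, hγ⟩ : ∃ γ : ℝ → ℂ, γ = fun s : ℝ => y + (s : ℂ) * (b - y) := ⟨_, rfl⟩
  have hγc : Continuous γ := by
    rw [hγ]
    fun_prop
  have hγb : ∀ s ∈ Ico (0 : ℝ) 1, γ s ∈ ball y ρ := by
    intro s hs
    rw [hγ, mem_ball, dist_eq_norm]
    show ‖y + (s : ℂ) * (b - y) - y‖ < ρ
    rw [show y + (s : ℂ) * (b - y) - y = (s : ℂ) * (b - y) by ring, norm_mul, Complex.norm_real,
      Real.norm_of_nonneg hs.1, hb]
    nlinarith [hs.2]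
  refine ⟨(fun s => hh (γ s)) '' Ico (0 : ℝ) 1, ?_, ?_, ?_, ?_⟩
  · exact isPreconnected_Ico.image _ (hd.comp hγc.continuousOn hγb)
  · have h1 : Tendsto γ (𝓝[<] (1 : ℝ)) (𝓝[ball y ρ] b) := by
      rw [tendsto_nhdsWithin_iff]
      refine ⟨?_, ?_⟩
      · have h2 : γ 1 = b := by
          rw [hγ]
          show y + ((1 : ℝ) : ℂ) * (b - y) = b
          push_cast
          ring
        rw [← h2]
        exact hγc.continuousAt.tendsto.mono_left nhdsWithin_le_nhds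
      · filter_upwards [Ico_mem_nhdsLT (zero_lt_one' ℝ)] with s hs
        exact hγb s hs
    refine mem_closure_of_tendsto (ht.comp h1) ?_
    filter_upwards [Ico_mem_nhdsLT (zero_lt_one' ℝ)] with s hs
    exact ⟨s, hs, rfl⟩
  · refine ⟨0, ⟨le_refl _, zero_lt_one⟩, ?_⟩
    show hh (γ 0) = hh y
    congr 1
    rw [hγ]
    show y + ((0 : ℝ) : ℂ) * (b - y) = y
    push_cast
    ring
  · rintro u ⟨s, hs, rfl⟩
    exact ⟨γ s, hγb s hs, rfl⟩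

theorem obs (D : Ps) : ∃ (P0 : ℝ) (N0 : ℕ), 1 ≤ P0 ∧ ∀ z : ℝ, 0 < z → ∃ R0 : ℝ, 0 < R0 ∧ R0 ≤ D.δ ∧
    ∀ x : ℂ, NC D x → ∀ (n : ℕ) (r : ℝ), 0 < r → 2 * r ≤ R0 →
      2 * r ≤ D.ϑ * D.dd (D.f^[n] x) → UU D x n r → ¬ UU D x n (2 * r) →
      ∃ (i : ℕ) (c : ℂ), Ob D x n r i c (P0 * ((i : ℝ) + 1) ^ N0) ∧ ‖D.f^[n - 1 - i] x - c‖ ≤ z := by
  obtain ⟨Ck, Nk, hCk, hk⟩ := Pool.Agent.H44.DN.koe
  have hC := D.hC
  refine ⟨2 * D.C ^ 2 * (Ck ^ 2 * 2 ^ (4 * Nk)), 4 * Nk, ?_, ?_⟩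
  · have h1 : 1 ≤ D.C ^ 2 := one_le_pow₀ hC
    have h2 : 1 ≤ Ck ^ 2 := one_le_pow₀ hCk
    have h3 : (1 : ℝ) ≤ 2 ^ (4 * Nk) := one_le_pow₀ (by norm_num)
    have h4 : 1 ≤ Ck ^ 2 * 2 ^ (4 * Nk) := one_le_mul_of_one_le_of_one_le h2 h3
    have h5 : 1 ≤ 2 * D.C ^ 2 := by linarith
    exact one_le_mul_of_one_le_of_one_le h5 h4
  intro z hz
  obtain ⟨ε, hε, hpath⟩ := path_near D (lt_min hz D.hr0)
  obtain ⟨A, hA, hpoly⟩ := obs2_poly D.hq (4 * Nk)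
  have hB : 0 < 2 * D.C * Ck ^ 2 * A := by positivity
  refine ⟨min D.δ (ε / (2 * D.C * Ck ^ 2 * A)), lt_min D.hδ (by positivity), min_le_left _ _, ?_⟩
  intro x hx n r hr hR hRV hU hU'
  have hrδ : 2 * r ≤ D.δ := hR.trans (min_le_left _ _)
  obtain ⟨i, g, ρ, b, c, hh, hin, hBr, hc, hb, hρ1, hρ2, hgb, hhd, hh0, hhf, hht⟩ :=
    obs1 hx hr hrδ hRV hU hU'
  have h2r : 0 < 2 * r := by linarith
  have hDi : 1 / 2 ≤ Del i := del_half i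
  have hDi1 : 1 / 2 ≤ Del (i + 1) := del_half (i + 1)
  have hDi1' : Del (i + 1) ≤ 1 := by
    rw [← del_zero]
    exact del_anti (Nat.zero_le _)
  have hρ0 : 0 < ρ := lt_of_lt_of_le (by positivity) hρ1
  have hr1 : r / 2 ≤ ρ := by nlinarith
  have hr2 : ρ ≤ 2 * r := by nlinarith
  have hs : 0 < 2 * r * Del i := by positivity
  have hρs : ρ < 2 * r * Del i * (1 - 1 / ((i : ℝ) + 2) ^ 2) := by
    rw [del_succ] at hρ2
    linarith [mul_assoc (2 * r) (Del i) (1 - 1 / ((i : ℝ) + 2) ^ 2)]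
  have hinj := br_inj hBr h2r (le_refl i)
  have hdist := obs2_dist hCk hk i hs (hBr.diff i (le_refl i)) hinj hρ0 hρs
  obtain ⟨P, hP⟩ : ∃ P : ℝ, P = Ck * ((i : ℝ) + 2) ^ (2 * Nk) := ⟨_, rfl⟩
  rw [← hP] at hdist
  have hP1 : 1 ≤ P := by
    rw [hP]
    exact one_le_mul_of_one_le_of_one_le hCk (one_le_pow₀ (by linarith [Nat.cast_nonneg (α := ℝ) i]))
  have hyb : b ∈ closedBall (D.f^[n] x) ρ := by
    rw [mem_closedBall, dist_eq_norm, hb]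
  have hyy : D.f^[n] x ∈ ball (D.f^[n] x) (2 * r * Del i) := mem_ball_self hs
  have hsub : closedBall (D.f^[n] x) ρ ⊆ ball (D.f^[n] x) (2 * r * Del i) := by
    apply closedBall_subset_ball
    calc ρ < 2 * r * Del (i + 1) := hρ2
      _ ≤ 2 * r * Del i := mul_le_mul_of_nonneg_left (del_anti (Nat.le_succ i)) h2r.le
  have hbb := hsub hyb
  obtain ⟨a1, a2, a3, a4⟩ := hdist b hyb
  have e0 := br_der hBr h2r (le_refl i) hbb
  have e1 := br_der hBr h2r (le_refl i) hyy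
  have hval := hBr.val i (le_refl i)
  rw [hgb] at e0
  have e0' : ‖deriv (D.f^[i]) (D.f c)‖ * ‖deriv (g i) b‖ = 1 := by
    rw [← norm_mul, e0, norm_one]
  have e1' : ‖deriv (D.f^[i]) (g i (D.f^[n] x))‖ * ‖deriv (g i) (D.f^[n] x)‖ = 1 := by
    rw [← norm_mul, e1, norm_one]
  have hD0 : deriv (D.f^[i]) (D.f c) ≠ 0 := by
    intro h
    rw [h, zero_mul] at e0
    exact zero_ne_one e0
  have hcJ : c ∈ D.J := D.hSJ c (cr_S D hc)
  have hGc : ∀ l ≤ i, D.f^[l] (D.f c) ∈ D.G := by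
    have hw' : b ∈ ball (D.f^[n] x) (2 * r * Del (0 + i)) := by rwa [zero_add]
    have h1 := (br_it hBr h2r (i := 0) (j := i) (by omega) hw').2
    rw [zero_add, hgb] at h1
    exact h1
  have hfree : ∀ j, 1 ≤ j → j ≤ i → D.f^[j] c ∉ D.Cr := obs2_free D hcJ hGc hD0
  -- the value at the critical point
  have hfi : D.f^[i + 1] c = b := by
    rw [Function.iterate_succ_apply, ← hgb]
    exact br_id hBr h2r (le_refl i) hbb
  have hnpa : D.f^[i + 1] c ∉ D.Pa := by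
    rw [hfi]
    intro h1
    refine D.hVp b h1 (D.hV1 (D.hVJ _ (it_J D hx.1 n) (fun h => hx.2 n (pa_S D h)) b ?_))
    rw [hb]
    have h2 : ρ < 2 * r := by
      have := mul_le_mul_of_nonneg_left hDi1' h2r.le
      linarith
    exact lt_of_lt_of_le h2 hRV
  have hce := D.ce3 c hc i hfree hnpa
  -- the path
  obtain ⟨S, hS1, hS2, hS3, hS4⟩ := obs2_path hρ0 hb hhd.continuousOn hht
  have hSε : ∀ u ∈ S, ‖D.f u - D.f c‖ ≤ ε := by
    intro u hu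
    obtain ⟨w, hw, rfl⟩ := hS4 u hu
    rw [(hhf w hw).2, ← hgb]
    obtain ⟨b1, b2, b3, b4⟩ := hdist w (ball_subset_closedBall hw)
    have hwn : ‖w - D.f^[n] x‖ ≤ ρ := by
      rw [← dist_eq_norm]
      exact (mem_ball.1 hw).le
    have hqi : 0 < D.q ^ i := pow_pos (by linarith [D.hq]) i
    have hd1 : ‖deriv (g i) b‖ * D.q ^ i ≤ D.C := by
      calc ‖deriv (g i) b‖ * D.q ^ i ≤ ‖deriv (g i) b‖ * (D.C * ‖deriv (D.f^[i]) (D.f c)‖) :=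
            mul_le_mul_of_nonneg_left hce (norm_nonneg _)
        _ = D.C * (‖deriv (D.f^[i]) (D.f c)‖ * ‖deriv (g i) b‖) := by ring
        _ = D.C := by rw [e0', mul_one]
    have hPP : P ^ 2 ≤ Ck ^ 2 * (A * D.q ^ i) := by
      rw [hP, mul_pow, ← pow_mul, show 2 * Nk * 2 = 4 * Nk by ring]
      exact mul_le_mul_of_nonneg_left (hpoly i) (by positivity)
    have hR2 : 2 * r ≤ ε / (2 * D.C * Ck ^ 2 * A) := hR.trans (min_le_right _ _)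
    rw [le_div_iff₀ hB] at hR2
    have hP0 : 0 ≤ P := by linarith
    calc ‖g i w - g i b‖ = ‖(g i w - g i (D.f^[n] x)) - (g i b - g i (D.f^[n] x))‖ := by
          congr 1
          ring
      _ ≤ ‖g i w - g i (D.f^[n] x)‖ + ‖g i b - g i (D.f^[n] x)‖ := norm_sub_le _ _
      _ ≤ P * (‖deriv (g i) (D.f^[n] x)‖ * ρ) + P * (‖deriv (g i) (D.f^[n] x)‖ * ρ) := by
          apply add_le_add
          · refine b3.trans ?_
            gcongr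
          · rw [hb] at a3
            exact a3
      _ = (2 * P * ρ) * ‖deriv (g i) (D.f^[n] x)‖ := by ring
      _ ≤ (2 * P * (2 * r)) * (P * ‖deriv (g i) b‖) := by
          apply mul_le_mul _ a2 (norm_nonneg _) (by positivity)
          gcongr
      _ = P ^ 2 * (4 * r * ‖deriv (g i) b‖) := by ring
      _ ≤ (Ck ^ 2 * (A * D.q ^ i)) * (4 * r * ‖deriv (g i) b‖) :=
          mul_le_mul_of_nonneg_right hPP (by positivity)
      _ = (Ck ^ 2 * A * (4 * r)) * (‖deriv (g i) b‖ * D.q ^ i) := by ring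
      _ ≤ (Ck ^ 2 * A * (4 * r)) * D.C := mul_le_mul_of_nonneg_left hd1 (by positivity)
      _ = 2 * r * (2 * D.C * Ck ^ 2 * A) := by ring
      _ ≤ ε := hR2
  have hSb := hpath c hc S hS1 hS2 hSε hS3
  rw [hh0, mem_ball, dist_eq_norm] at hSb
  have hz1 : ‖D.f^[n - 1 - i] x - c‖ ≤ z := hSb.le.trans (min_le_left _ _)
  have hz2 : D.f^[n - 1 - i] x ∈ ball c D.r0 := by
    rw [mem_ball, dist_eq_norm]
    exact lt_of_lt_of_le hSb (min_le_right _ _)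
  -- the local form
  have hfx : D.f (D.f^[n - 1 - i] x) = g i (D.f^[n] x) := by
    rw [hval, ← Function.iterate_succ_apply' D.f]
    congr 1
    omega
  obtain ⟨l1, l1'⟩ := D.l1 c hc _ hz2
  obtain ⟨l2, l2'⟩ := D.l2 c hc _ hz2
  have htt : ‖g i b - g i (D.f^[n] x)‖ = ‖D.f (D.f^[n - 1 - i] x) - D.f c‖ := by
    rw [hgb, hfx, norm_sub_rev]
  rw [htt, hb] at a3 a4
  have hder : ‖deriv (D.f^[i + 1]) (D.f^[n - 1 - i] x)‖ =
      ‖deriv (D.f^[i]) (g i (D.f^[n] x))‖ * ‖deriv D.f (D.f^[n - 1 - i] x)‖ := by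
    rw [add_comm i 1, it_add D (fun l _ => D.hU (J_th D (it_J D (it_J D hx.1 _) _) D.hδ)), norm_mul]
    have h6 : D.f^[1] = D.f := rfl
    rw [h6, hfx]
  have hnum := obs2_num (D.hm c hc) hP1 hr (norm_nonneg _) (norm_nonneg _) (norm_nonneg _)
    (norm_nonneg _) (norm_nonneg _) hC (norm_nonneg _) (norm_nonneg _) e0' e1' a1 a2 a3 a4 hr1 hr2
    l1 l1' l2 l2'
  have hPf : 2 * D.C ^ 2 * P ^ 2 ≤ 2 * D.C ^ 2 * (Ck ^ 2 * 2 ^ (4 * Nk)) * ((i : ℝ) + 1) ^ (4 * Nk) := by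
    rw [mul_assoc (2 * D.C ^ 2)]
    apply mul_le_mul_of_nonneg_left _ (by positivity)
    rw [hP, mul_pow, ← pow_mul, show 2 * Nk * 2 = 4 * Nk by ring, mul_assoc (Ck ^ 2), ← mul_pow]
    apply mul_le_mul_of_nonneg_left _ (by positivity)
    apply pow_le_pow_left₀ (by positivity)
    linarith [Nat.cast_nonneg (α := ℝ) i]
  obtain ⟨n1, n2, n3, n4⟩ := hnum
  rw [← hder] at n3 n4
  refine ⟨i, c, ?_, hz1⟩
  exact
    { lt := hin
      mem := hc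
      free := hfree
      npa := hnpa
      far := by rw [hfi, hb]; exact hr1
      near := by rw [hfi, hb]; exact hr2
      d1 := n1.trans (mul_le_mul_of_nonneg_right hPf hr.le)
      d2 := n2.trans (mul_le_mul_of_nonneg_right hPf (by positivity))
      d3 := n3.trans (mul_le_mul_of_nonneg_right hPf hr.le)
      d4 := n4.trans (mul_le_mul_of_nonneg_right hPf (by positivity)) }

end Pool.Agent.H44.DP
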