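import Pool.Agent.H44.DP.Pdf
import Pool.Agent.H44.DP.NA

/-!
# Module TRK3: points near a good orbit

PROOF. (1) `trk_up`: `Z` from `zt_bd`; for `n < m` the term `‖deriv (f^[n]) w0‖ / zt (f^[n] w0)` of the sum is `≤ 2^((1+ε) J)` and `zt ≤ Z` (`thickening (δ/4)`; `zt > 0` since `f^[n] w0 ∉ Cr`); for `n = m ≥ 1`: `‖deriv (f^[m]) w0‖ ≤ L ‖deriv (f^[m-1]) w0‖` (`it_succ`); `m = 0`: `1`. `Cz = L Z + 1`.
(2) `R = 2 A' 2^(-(1+c') J)`, `S = ∑_{n<m} ‖deriv (f^[n]) w0‖ / zt (f^[n] w0) ≤ 2^((1+ε) J)`: `R S ≤ 2 A' 2^(-(c' - ε) J) → 0`. `na` and `na4` with centre `w0`, radius `R` for large `J` (`R S ≤ ε0`, `C1 R S ≤ θ`): `‖deriv (f^[n]) w - deriv (f^[n]) w0‖ ≤ θ ‖..‖`, `‖f^[n] w - f^[n] w0‖ ≤ 1/8 zt (f^[n] w0)` for `n < m`, so `zt (f^[n] w) ≥ (7/8) zt (f^[n] w0) > 0` (`zt_lip`, `zt_zero`).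
`‖f^[n] w - f^[n] w0‖ ≤ (5/4) ‖deriv (f^[n]) w0‖ ‖w - w0‖ ≤ (5/4) Cz 2^((1+ε) J) A' 2^(-(1+c') J) < δ/4` for large `J`: `f^[n] w ∈ thickening (δ/2) J` (`th_add`). (3) the sum at `w`: each term is at most `(5/4) (8/7) ≤ 4` times that of `w0` (if `θ > 1/4` use `na4`).
-/

set_option autoImplicit false

open Filter Topology Metric Set

namespace Pool.Agent.H44.DP

theorem trk_up (D : Ps) : ∃ Cz : ℝ, 1 ≤ Cz ∧ ∀ (w0 : ℂ) (J : ℕ) (C κ ε c6 : ℝ) (m : ℕ), 0 < ε →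
    Trk D w0 J C κ ε c6 m → ∀ n ≤ m,
      ‖deriv (D.f^[n]) w0‖ ≤ Cz * (2 : ℝ) ^ ((1 + ε) * (J : ℝ)) := by
  obtain ⟨Z, hZ1, hZ⟩ := zt_bd D
  have hL := D.hL
  have hLZ : Z ≤ D.L * Z := le_mul_of_one_le_left (by linarith) hL
  refine ⟨D.L * Z + 1, by linarith, fun w0 J C κ ε c6 m hε hT n hn => ?_⟩
  set Q : ℝ := (2 : ℝ) ^ ((1 + ε) * (J : ℝ)) with hQ
  have hQ1 : 1 ≤ Q := Real.one_le_rpow (by norm_num) (by positivity)
  have hG : ∀ i ≤ m, D.f^[i] w0 ∈ thickening D.δ D.J := fun i hi =>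
    thickening_mono (by linarith [D.hδ]) _ (hT.mem i hi)
  have hlt : ∀ k < m, ‖deriv (D.f^[k]) w0‖ ≤ Z * Q := by
    intro k hk
    have hz := zt_pos D (hT.ncr k hk)
    have h1 : ‖deriv (D.f^[k]) w0‖ / D.zt (D.f^[k] w0) ≤ Q := by
      refine le_trans ?_ hT.sum
      exact Finset.single_le_sum (f := fun n => ‖deriv (D.f^[n]) w0‖ / D.zt (D.f^[n] w0))
        (fun i _ => naS_term D w0 i) (Finset.mem_range.2 hk)
    rw [div_le_iff₀ hz] at h1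
    calc ‖deriv (D.f^[k]) w0‖ ≤ Q * D.zt (D.f^[k] w0) := h1
      _ ≤ Q * Z := mul_le_mul_of_nonneg_left (hZ _ (hG k hk.le)) (by linarith)
      _ = Z * Q := mul_comm _ _
  rcases hn.lt_or_eq with hn | rfl
  · calc ‖deriv (D.f^[n]) w0‖ ≤ Z * Q := hlt n hn
      _ ≤ (D.L * Z + 1) * Q := mul_le_mul_of_nonneg_right (by linarith) (by linarith)
  · rcases Nat.eq_zero_or_pos n with rfl | hpos
    · have h1 : D.f^[0] = id := rfl
      rw [h1, deriv_id, norm_one]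
      have h2 : 1 ≤ D.L * Z + 1 := by linarith
      calc (1 : ℝ) = 1 * 1 := (one_mul 1).symm
        _ ≤ (D.L * Z + 1) * Q := mul_le_mul h2 hQ1 (by norm_num) (by linarith)
    · obtain ⟨k, rfl⟩ : ∃ k, n = k + 1 := ⟨n - 1, by omega⟩
      rw [it_succ D fun i hi => D.hU (hG i (by omega)), norm_mul]
      calc ‖deriv D.f (D.f^[k] w0)‖ * ‖deriv (D.f^[k]) w0‖ ≤ D.L * (Z * Q) :=
            mul_le_mul (D.hLf _ (hG k (by omega))) (hlt k (by omega)) (norm_nonneg _) (by linarith)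
        _ ≤ (D.L * Z + 1) * Q := by nlinarith

theorem trk3 (D : Ps) (κ ε c' C c6 A' θ : ℝ) (hε : 0 < ε) (hεc : ε < c') (hA' : 1 ≤ A')
    (hθ : 0 < θ) : ∃ J2 : ℕ, ∀ J1 ≥ J2, ∀ (w0 : ℂ) (m : ℕ), Trk D w0 J1 C κ ε c6 m → ∀ w : ℂ,
      ‖w - w0‖ ≤ A' * (2 : ℝ) ^ (-((1 + c') * (J1 : ℝ))) →
        (∀ n ≤ m, D.f^[n] w ∈ thickening (D.δ / 2) D.J ∧
          ‖deriv (D.f^[n]) w - deriv (D.f^[n]) w0‖ ≤ θ * ‖deriv (D.f^[n]) w0‖) ∧
        (∀ n < m, D.f^[n] w ∉ D.S) ∧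
        ∑ n ∈ Finset.range m, ‖deriv (D.f^[n]) w‖ / D.zt (D.f^[n] w) ≤
          4 * (2 : ℝ) ^ ((1 + ε) * (J1 : ℝ)) := by
  obtain ⟨ε0, C1, h01, h02, hC1, h04, hna⟩ := na D
  obtain ⟨ε4, h41, h42, hna4⟩ := na4 D
  obtain ⟨Cz, hCz, hup⟩ := trk_up D
  have hlim : Tendsto (fun J : ℕ => (2 : ℝ) ^ (-(c' - ε) * (J : ℝ))) atTop (𝓝 0) := by
    have hb : (2 : ℝ) ^ (-(c' - ε)) < 1 :=
      Real.rpow_lt_one_of_one_lt_of_neg (by norm_num) (by linarith)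
    refine (tendsto_pow_atTop_nhds_zero_of_lt_one (by positivity) hb).congr fun J => ?_
    rw [Real.rpow_mul_natCast (by norm_num)]
  have hA0 : 0 < A' := by linarith
  have hC10 : 0 < C1 := by linarith
  have hCz0 : 0 < Cz := by linarith
  set e : ℝ := min (min (ε0 / (2 * A')) (ε4 / (2 * A'))) (min (θ / (C1 * (2 * A')))
    (D.δ / (8 * (Cz * A')))) with he
  have he0 : 0 < e := by
    have := D.hδ
    positivity
  obtain ⟨J2, hJ2⟩ := eventually_atTop.1 (hlim.eventually (gt_mem_nhds he0))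
  refine ⟨J2, fun J1 hJ1 w0 m hT w hw => ?_⟩
  set x : ℝ := (2 : ℝ) ^ (-(c' - ε) * (J1 : ℝ)) with hx
  have hx0 : 0 < x := by positivity
  have hxe : x < e := hJ2 J1 hJ1
  have hx1 : 2 * A' * x ≤ ε0 := by
    have h1 : x ≤ ε0 / (2 * A') := hxe.le.trans ((min_le_left _ _).trans (min_le_left _ _))
    rw [le_div_iff₀ (by positivity)] at h1
    linarith
  have hx2 : 2 * A' * x ≤ ε4 := by
    have h1 : x ≤ ε4 / (2 * A') := hxe.le.trans ((min_le_left _ _).trans (min_le_right _ _))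
    rw [le_div_iff₀ (by positivity)] at h1
    linarith
  have hx3 : C1 * (2 * A' * x) ≤ θ := by
    have h1 : x ≤ θ / (C1 * (2 * A')) := hxe.le.trans ((min_le_right _ _).trans (min_le_left _ _))
    rw [le_div_iff₀ (by positivity)] at h1
    linarith
  have hx4 : 8 * (Cz * A') * x ≤ D.δ := by
    have h1 : x ≤ D.δ / (8 * (Cz * A')) :=
      hxe.le.trans ((min_le_right _ _).trans (min_le_right _ _))
    rw [le_div_iff₀ (by positivity)] at h1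
    linarith
  set Q : ℝ := (2 : ℝ) ^ ((1 + ε) * (J1 : ℝ)) with hQ
  have hQ0 : 0 < Q := by positivity
  set y : ℝ := (2 : ℝ) ^ (-((1 + c') * (J1 : ℝ))) with hy
  have hy0 : 0 < y := by positivity
  have hyQ : y * Q = x := by
    rw [hy, hQ, hx, ← Real.rpow_add (by norm_num)]
    congr 1
    ring
  set R : ℝ := 2 * A' * y with hR
  have hR0 : 0 < R := by positivity
  have hwR : w ∈ ball w0 R := by
    rw [mem_ball, dist_eq_norm]
    have : 0 < A' * y := by positivity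
    linarith
  set S : ℝ := ∑ n ∈ Finset.range m, ‖deriv (D.f^[n]) w0‖ / D.zt (D.f^[n] w0) with hS
  have hSQ : S ≤ Q := hT.sum
  have hRS : R * S ≤ 2 * A' * x := by
    calc R * S ≤ R * Q := mul_le_mul_of_nonneg_left hSQ hR0.le
      _ = 2 * A' * (y * Q) := by rw [hR]; ring
      _ = 2 * A' * x := by rw [hyQ]
  have hmem : ∀ n < m, D.f^[n] w0 ∈ thickening (D.δ / 2) D.J ∧ D.f^[n] w0 ∉ D.S := fun n hn =>
    ⟨thickening_mono (by linarith [D.hδ]) _ (hT.mem n hn.le), hT.ncr n hn⟩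
  have hA := hna w0 R m hR0 hmem (hRS.trans hx1)
  have hB := hna4 w0 R m hR0 hmem (hRS.trans hx2)
  have hwn : ‖w - w0‖ ≤ R := by
    have : 0 < A' * y := by positivity
    linarith
  have hzt : ∀ n < m, 7 / 8 * D.zt (D.f^[n] w0) ≤ D.zt (D.f^[n] w) := by
    intro n hn
    have h1 := (hB n hn.le w hwR).2.2.2 hn
    have h2 := zt_lip D (D.f^[n] w0) (D.f^[n] w)
    rw [norm_sub_rev] at h2
    have h3 := (abs_le.1 h2).2
    linarith
  refine ⟨fun n hn => ⟨?_, ?_⟩, fun n hn hcr => ?_, ?_⟩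
  · have h1 := (hB n hn w hwR).2.2.1
    have h2 : ‖D.f^[n] w - D.f^[n] w0‖ ≤ 5 / 4 * ‖deriv (D.f^[n]) w0‖ * ‖w - w0‖ := by
      have h3 : ‖D.f^[n] w - D.f^[n] w0‖ ≤
          ‖D.f^[n] w - D.f^[n] w0 - deriv (D.f^[n]) w0 * (w - w0)‖ +
            ‖deriv (D.f^[n]) w0 * (w - w0)‖ := by
        have e1 : D.f^[n] w - D.f^[n] w0 =
          (D.f^[n] w - D.f^[n] w0 - deriv (D.f^[n]) w0 * (w - w0)) +
            deriv (D.f^[n]) w0 * (w - w0) := by ring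
        conv_lhs => rw [e1]
        exact norm_add_le _ _
      rw [norm_mul] at h3
      linarith
    have h4 := hup w0 J1 C κ ε c6 m hε hT n hn
    have h5 : ‖D.f^[n] w - D.f^[n] w0‖ < D.δ / 4 := by
      calc ‖D.f^[n] w - D.f^[n] w0‖ ≤ 5 / 4 * ‖deriv (D.f^[n]) w0‖ * ‖w - w0‖ := h2
        _ ≤ 5 / 4 * (Cz * Q) * (A' * y) := by
            refine mul_le_mul ?_ hw (norm_nonneg _) (by positivity)
            exact mul_le_mul_of_nonneg_left h4 (by norm_num)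
        _ = 5 / 4 * (Cz * A') * (y * Q) := by ring
        _ = 5 / 4 * (Cz * A') * x := by rw [hyQ]
        _ < 2 * (Cz * A') * x := by
            have : 0 < Cz * A' * x := by positivity
            linarith
        _ ≤ D.δ / 4 := by linarith
    have h6 := th_add (hT.mem n hn) h5
    have h7 : D.δ / 4 + D.δ / 4 = D.δ / 2 := by ring
    rwa [h7] at h6
  · have h1 := (hA n hn w hwR).2.1
    refine h1.trans (mul_le_mul_of_nonneg_right ?_ (norm_nonneg _))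
    have h2 : (∑ i ∈ Finset.range n, ‖deriv (D.f^[i]) w0‖ / D.zt (D.f^[i] w0)) ≤ S :=
      naS_mono D w0 hn
    have h3 : 0 ≤ ∑ i ∈ Finset.range n, ‖deriv (D.f^[i]) w0‖ / D.zt (D.f^[i] w0) :=
      naS_nonneg D w0 n
    calc C1 * ‖w - w0‖ * ∑ i ∈ Finset.range n, ‖deriv (D.f^[i]) w0‖ / D.zt (D.f^[i] w0) ≤
          C1 * R * S := by
          refine mul_le_mul ?_ h2 h3 (by positivity)
          exact mul_le_mul_of_nonneg_left hwn hC10.le
      _ = C1 * (R * S) := mul_assoc _ _ _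
      _ ≤ C1 * (2 * A' * x) := mul_le_mul_of_nonneg_left hRS hC10.le
      _ ≤ θ := hx3
  · have h1 := hzt n hn
    have h2 := zt_pos D (hT.ncr n hn)
    rw [zt_zero D hcr] at h1
    linarith
  · have hterm : ∀ n ∈ Finset.range m, ‖deriv (D.f^[n]) w‖ / D.zt (D.f^[n] w) ≤
        4 * (‖deriv (D.f^[n]) w0‖ / D.zt (D.f^[n] w0)) := by
      intro n hn
      have hn' := Finset.mem_range.1 hn
      have h1 := hzt n hn'
      have h2 := zt_pos D (hT.ncr n hn')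
      have h3 := (hB n hn'.le w hwR).2.1
      have h4 : ‖deriv (D.f^[n]) w‖ ≤ 5 / 4 * ‖deriv (D.f^[n]) w0‖ := by
        have h5 := norm_add_le (deriv (D.f^[n]) w - deriv (D.f^[n]) w0) (deriv (D.f^[n]) w0)
        rw [sub_add_cancel] at h5
        linarith
      have h6 : 0 < D.zt (D.f^[n] w) := by linarith
      rw [div_le_iff₀ h6]
      have h7 : 0 ≤ ‖deriv (D.f^[n]) w0‖ / D.zt (D.f^[n] w0) := naS_term D w0 n
      calc ‖deriv (D.f^[n]) w‖ ≤ 5 / 4 * ‖deriv (D.f^[n]) w0‖ := h4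
        _ = 5 / 4 * (‖deriv (D.f^[n]) w0‖ / D.zt (D.f^[n] w0)) * D.zt (D.f^[n] w0) := by
            rw [mul_assoc, div_mul_cancel₀ _ h2.ne']
        _ ≤ 4 * (‖deriv (D.f^[n]) w0‖ / D.zt (D.f^[n] w0)) * (7 / 8 * D.zt (D.f^[n] w0)) := by
            have h8 := mul_nonneg h7 h2.le
            nlinarith
        _ ≤ 4 * (‖deriv (D.f^[n]) w0‖ / D.zt (D.f^[n] w0)) * D.zt (D.f^[n] w) :=
            mul_le_mul_of_nonneg_left h1 (by positivity)
    calc ∑ n ∈ Finset.range m, ‖deriv (D.f^[n]) w‖ / D.zt (D.f^[n] w) ≤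
          ∑ n ∈ Finset.range m, 4 * (‖deriv (D.f^[n]) w0‖ / D.zt (D.f^[n] w0)) :=
          Finset.sum_le_sum hterm
      _ = 4 * S := by rw [hS, Finset.mul_sum]
      _ ≤ 4 * Q := by linarith

end Pool.Agent.H44.DP
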