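import Pool.Agent.H44.DP.ITR

/-!
# Definitions for the chapter PH (typical phase points)

`An c j`: dyadic annulus around the terminal value of `c`; `nr z`: the nearest point of `S`; `sn c j`: the length of
the stage of `c` and size `2^(-j)`; `Bd l c`: the points near the terminal value of `c` which come too close to `S`
at the end of one of the next `l` stages; `Trk`: what is known on the orbit of a good point.
-/

set_option autoImplicit false

open Filter Topology Metric Set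

namespace Pool.Agent.H44.DP

/-- the dyadic annulus around the terminal value -/
def An (D : Ps) (c : ℂ) (j : ℕ) : Set ℂ :=
  {w | (1 / 2 : ℝ) ^ (j + 1) < ‖w - D.vv c‖ ∧ ‖w - D.vv c‖ ≤ (1 / 2 : ℝ) ^ j}

/-- a nearest point of `S` -/
noncomputable def nr (D : Ps) (z : ℂ) : ℂ := (zt_ex D z).choose

/-- the length of the stage -/
noncomputable def sn (D : Ps) (K : ℝ) (c : ℂ) (j : ℕ) : ℕ := sInf {n | Stg D K c ((1 / 2) ^ j) n}

/-- the point of `S` next to the end of the stage -/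
noncomputable def nc (D : Ps) (K : ℝ) (c : ℂ) (j : ℕ) : ℂ := nr D (D.f^[sn D K c j] (D.vv c))

/-- the factor lost at an arrival -/
noncomputable def Kq (D : Ps) (K : ℝ) (n : ℕ) : ℝ := Kn K n * ((n : ℝ) + 1) ^ D.N6

/-- the bad points: at the end of one of the next `l` stages the orbit comes closer than `lam` (relatively) to `S`;
`z` is the macroscopic distance, the sizes above `2^(-J0)` are not considered -/
noncomputable def Bd (D : Ps) (K lam z : ℝ) (J0 : ℕ) : ℕ → ℂ → Set ℂ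
  | 0, _ => ∅
  | l + 1, c => {w | ∃ j, J0 < j ∧ w ∈ An D c j ∧
      (D.zt (D.f^[sn D K c j] w) < lam * ((1 / 2) ^ j * D.DD c (sn D K c j)) ∨
        (‖D.f^[sn D K c j] w - nc D K c j‖ < z ∧ nc D K c j ∈ D.Ce ∧
          D.f^[D.τ (nc D K c j)] (D.f^[sn D K c j] w) ∈ Bd D K lam z J0 l (nc D K c j)))}

/-- a good orbit until the time `m` (`J` is the logarithm of the inverse initial size) -/
structure Trk (D : Ps) (w : ℂ) (J : ℕ) (C κ ε c6 : ℝ) (m : ℕ) : Prop where
  le : (m : ℝ) ≤ C * J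
  mem : ∀ n ≤ m, D.f^[n] w ∈ thickening (D.δ / 4) D.J
  ncr : ∀ n < m, D.f^[n] w ∉ D.S
  sum : ∑ n ∈ Finset.range m, ‖deriv (D.f^[n]) w‖ / D.zt (D.f^[n] w) ≤ (2 : ℝ) ^ ((1 + ε) * J)
  low : ∀ n ≤ m, min (D.q ^ n) ((2 : ℝ) ^ (c6 * J)) ≤ C * ‖deriv (D.f^[n]) w‖
  big : (2 : ℝ) ^ ((1 - κ) * J) ≤ ‖deriv (D.f^[m]) w‖
  arr : (2 : ℝ) ^ (-(ε * J)) ≤ D.zt (D.f^[m] w)

end Pool.Agent.H44.DP
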