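import Pool.Agent.H44.DP.Pdf

/-!
# Definitions for the chapter PAR (families of perturbed critical orbits)

`Fam D`: a holomorphic family (parameter `u` near `0`) of perturbations `F u` of `f` (of size `‖u‖ ^ M`) with the
orbit `g n u` of a perturbed terminal value of `c ∈ Ce`; `g n 0` is the orbit of the terminal value `vv c`; the
coefficient of `u ^ M` in `g n u` is `deriv (f^[n]) (vv c) * Tn n`, `Tn n → T ≠ 0`; `P u`: the parameter `u` is good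
(the critical point is attracted). `K` is a compact set of directions of the parameter: for these directions the
parameter is good if the orbit arrives near a point outside `J` (`att1`) or in a sector near a parabolic point
(outside the cone around the repelling directions), at a distance at least `‖u‖ ^ θ2` (`att2`).
The phase of the parameter `u` is the point `ww u = vv c + T * u ^ M`.
-/

set_option autoImplicit false

open Filter Topology Metric Set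

namespace Pool.Agent.H44.DP

/-- a family of perturbations of `f` with a perturbed orbit of the terminal value of `c` -/
structure Fam (D : Ps) where
  c : ℂ
  M : ℕ
  F : ℂ → ℂ → ℂ
  g : ℕ → ℂ → ℂ
  T : ℂ
  Tn : ℕ → ℂ
  A : ℝ
  ρ0 : ℝ
  θ2 : ℝ
  K : Set ℂ
  P : ℂ → Prop
  hc : c ∈ D.Ce
  hM : 1 ≤ M
  hT : T ≠ 0
  hA : 1 ≤ A
  hρ0 : 0 < ρ0
  hρ1 : ρ0 ≤ 1
  hθ2 : 0 < θ2
  hK : IsCompact K
  hK1 : ∀ e ∈ K, ‖e‖ = 1
  g0 : DifferentiableOn ℂ (g 0) (ball 0 ρ0)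
  lip0 : ∀ u ∈ ball (0 : ℂ) ρ0, ‖g 0 u - D.vv c‖ ≤ A * ‖u‖
  step : ∀ (n : ℕ) (u : ℂ), g (n + 1) u = F u (g n u)
  pert : ∀ u ∈ ball (0 : ℂ) ρ0, ∀ z ∈ thickening D.δ D.J, ‖F u z - D.f z‖ ≤ A * ‖u‖ ^ M
  hol : ∀ (n : ℕ) (U : Set ℂ), IsOpen U → U ⊆ ball 0 ρ0 → DifferentiableOn ℂ (g n) U →
    (∀ u ∈ U, g n u ∈ thickening D.δ D.J) → DifferentiableOn ℂ (g (n + 1)) U
  jet : ∀ n : ℕ, (fun u : ℂ => g n u - g n 0 - deriv (D.f^[n]) (D.vv c) * Tn n * u ^ M)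
    =o[𝓝 0] fun u : ℂ => u ^ M
  hTn : ∀ n : ℕ, ‖Tn n - T‖ ≤ A * (1 / D.q) ^ n
  att1 : ∀ z : ℂ, z ∉ D.J → ∀ e ∈ K, ∃ ε : ℝ, 0 < ε ∧ ∀ u ∈ ball (0 : ℂ) ε, u ≠ 0 →
    ‖u / (‖u‖ : ℂ) - e‖ < ε → ∀ n : ℕ, (∀ i < n, g i u ∈ thickening D.δ D.J) →
      g n u ∈ ball z ε → P u
  att2 : ∀ p ∈ D.Pa, ∀ ε' : ℝ, 0 < ε' → ∀ e ∈ K, ∃ ε : ℝ, 0 < ε ∧ ∀ u ∈ ball (0 : ℂ) ε, u ≠ 0 →
    ‖u / (‖u‖ : ℂ) - e‖ < ε → ∀ n : ℕ, (∀ i < n, g i u ∈ thickening D.δ D.J) →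
      g n u ∈ ball p ε → ‖u‖ ^ θ2 ≤ ‖g n u - p‖ →
      (D.ap p * (g n u - p) ^ D.qp p).re ≤ (1 - ε') * ‖D.ap p * (g n u - p) ^ D.qp p‖ → P u

/-- the phase of the parameter `u` -/
noncomputable def Fam.ww {D : Ps} (X : Fam D) (u : ℂ) : ℂ := D.vv X.c + X.T * u ^ X.M

end Pool.Agent.H44.DP
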